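import Pool.Agent.SCN.P_ENG

/-! # CAC: the Caccioppoli inequality -/

set_option autoImplicit false

open Set MeasureTheory Filter Topology Metric
open scoped RealInnerProductSpace

namespace Pool.Agent.SCN

open Pool.Agent.SCP (E PHarm V)

/-- the derivative of the test function -/
lemma cac_deriv {n : ℕ} {Ω : Set (E n)} (hΩ : IsOpen Ω) {u η : E n → ℝ}
    (hu : ContDiffOn ℝ 1 u Ω) (hη : ContDiff ℝ 1 η) {z : E n} (hz : z ∈ Ω) (b : E n) :
    ⟪b, gradient (fun y => η y ^ 3 * u y) z⟫ =
      η z ^ 3 * ⟪b, gradient u z⟫ + 3 * η z ^ 2 * u z * ⟪b, gradient η z⟫ := by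
  have hu' : HasFDerivAt u (fderiv ℝ u z) z :=
    ((hu.contDiffAt (hΩ.mem_nhds hz)).differentiableAt (by norm_num)).hasFDerivAt
  have hη' : HasFDerivAt η (fderiv ℝ η z) z := (hη.differentiable (by norm_num) z).hasFDerivAt
  have h3 := (hη'.pow 3).mul hu'
  have h5 : (fun y => η y ^ 3 * u y) = (fun x => η x ^ 3) * u := by
    funext y
    simp
  rw [← h5] at h3
  have h4 := h3.fderiv
  have key : ∀ f : E n → ℝ, ⟪b, gradient f z⟫ = fderiv ℝ f z b := fun f => by
    rw [real_inner_comm, inner_gradient_left]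
  rw [key, h4, key, key]
  simp only [ContinuousLinearMap.add_apply, ContinuousLinearMap.smul_apply, smul_eq_mul,
    nsmul_eq_mul, Nat.cast_ofNat, Nat.add_one_sub_one]
  ring

/-- the elementary inequality -/
lemma cac_young {p η a b : ℝ} (hp : 3 / 2 ≤ p) (hp' : p ≤ 5 / 2) (hη : 0 ≤ η) (hη' : η ≤ 1)
    (ha : 0 ≤ a) (hb : 0 ≤ b) :
    3 * η ^ 2 * b * a ^ (p - 1) ≤ 1 / 2 * (η ^ 3 * a ^ p) + 108 * b ^ p := by
  have hap : a ^ p = a * a ^ (p - 1) := by
    rcases ha.eq_or_lt with h | h
    · rw [← h, Real.zero_rpow (by linarith), zero_mul]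
    · nth_rewrite 2 [← Real.rpow_one a]
      rw [← Real.rpow_add h]
      congr 1
      ring
  have hbp : b ^ p = b * b ^ (p - 1) := by
    rcases hb.eq_or_lt with h | h
    · rw [← h, Real.zero_rpow (by linarith), zero_mul]
    · nth_rewrite 2 [← Real.rpow_one b]
      rw [← Real.rpow_add h]
      congr 1
      ring
  have hA : 0 ≤ a ^ (p - 1) := Real.rpow_nonneg ha _
  rcases le_or_gt (6 * b) (η * a) with h | h
  · have h1 : 0 ≤ 108 * b ^ p := mul_nonneg (by norm_num) (Real.rpow_nonneg hb _)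
    have h2 : 0 ≤ η ^ 2 * a ^ (p - 1) := mul_nonneg (sq_nonneg _) hA
    have h3 := mul_le_mul_of_nonneg_left h h2
    rw [hap]
    nlinarith
  · have h1 : 0 ≤ 1 / 2 * (η ^ 3 * a ^ p) :=
      mul_nonneg (by norm_num) (mul_nonneg (pow_nonneg hη 3) (Real.rpow_nonneg ha _))
    have h2 : η ^ 2 * a ^ (p - 1) ≤ (η * a) ^ (p - 1) := by
      rw [Real.mul_rpow hη ha]
      refine mul_le_mul_of_nonneg_right ?_ hA
      rcases hη.eq_or_lt with h0 | h0
      · rw [← h0, Real.zero_rpow (by linarith)]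
        simp
      · rw [← Real.rpow_natCast]
        exact Real.rpow_le_rpow_of_exponent_ge h0 hη' (by push_cast; linarith)
    have h3 : (η * a) ^ (p - 1) ≤ (6 * b) ^ (p - 1) :=
      Real.rpow_le_rpow (mul_nonneg hη ha) h.le (by linarith)
    have h4 : (6 * b) ^ (p - 1) ≤ 36 * b ^ (p - 1) := by
      rw [Real.mul_rpow (by norm_num) hb]
      refine mul_le_mul_of_nonneg_right ?_ (Real.rpow_nonneg hb _)
      calc (6 : ℝ) ^ (p - 1) ≤ 6 ^ (2 : ℝ) :=
            Real.rpow_le_rpow_of_exponent_le (by norm_num) (by linarith)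
        _ = 36 := by norm_num
    have h5 := mul_le_mul_of_nonneg_left ((h2.trans h3).trans h4) hb
    rw [hbp]
    nlinarith

/-- the flux against the gradient -/
lemma cac_inner {n : ℕ} {p : ℝ} (hp : 1 < p) (ξ : E n) : ⟪V p ξ, ξ⟫ = ‖ξ‖ ^ p := by
  by_cases h : ξ = 0
  · subst h
    simp [Real.zero_rpow (by linarith : p ≠ 0)]
  · have h1 : 0 < ‖ξ‖ := norm_pos_iff.2 h
    rw [V, real_inner_smul_left, real_inner_self_eq_norm_sq, ← Real.rpow_natCast,
      ← Real.rpow_add h1]
    congr 1
    push_cast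
    ring

theorem p_CAC : T_CAC := by
  intro n
  obtain ⟨K, hK, hcut⟩ := eng_cutoff n
  refine ⟨216 * (K + 1) ^ 3, by positivity, ?_⟩
  intro p hp u x r hr hPB
  obtain ⟨Ω, hΩ, hball, hu⟩ := hPB
  have hpa := abs_le.1 hp
  have hp1 : 3 / 2 ≤ p := by linarith [hpa.1]
  have hp2 : p ≤ 5 / 2 := by linarith [hpa.2]
  have hp3 : 1 < p := by linarith
  obtain ⟨η, hη, hη0, hη1, hηb, hηz, hηs, hηg⟩ := hcut x r hr
  set P : E n → ℝ := fun z => η z ^ 3 * ‖gradient u z‖ ^ p with hP
  set Q : E n → ℝ := fun z => 3 * η z ^ 2 * u z * ⟪V p (gradient u z), gradient η z⟫ with hQ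
  set U : E n → ℝ := fun z => |u z| ^ p with hU
  set θ : E n → ℝ := fun z => η z ^ 3 * u z with hθ
  set B : Set (E n) := ball x (2 * r) with hB
  have hBΩ : B ⊆ Ω := ball_subset_closedBall.trans hball
  have hP0 : ∀ z, 0 ≤ P z := fun z =>
    mul_nonneg (pow_nonneg (hη0 z) 3) (Real.rpow_nonneg (norm_nonneg _) _)
  have hQup : ∀ z, -Q z ≤ 1 / 2 * P z + 108 * ((K / r) ^ p * U z) := by
    intro z
    have h1 : -(u z * ⟪V p (gradient u z), gradient η z⟫) ≤
        |u z| * (‖gradient u z‖ ^ (p - 1) * (K / r)) := by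
      refine (neg_le_abs _).trans ?_
      rw [abs_mul]
      refine mul_le_mul_of_nonneg_left ?_ (abs_nonneg _)
      refine (abs_real_inner_le_norm _ _).trans ?_
      rw [SCP.TEST_.norm_V hp3]
      exact mul_le_mul_of_nonneg_left (hηg z) (Real.rpow_nonneg (norm_nonneg _) _)
    have h2 : 0 ≤ 3 * η z ^ 2 := by positivity
    have h3 := mul_le_mul_of_nonneg_left h1 h2
    have hKr : 0 ≤ K / r := by positivity
    have h4 := cac_young (p := p) (η := η z) (a := ‖gradient u z‖) (b := K / r * |u z|) hp1 hp2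
      (hη0 z) (hη1 z) (norm_nonneg _) (mul_nonneg hKr (abs_nonneg _))
    rw [Real.mul_rpow hKr (abs_nonneg _)] at h4
    have h5 : -Q z = 3 * η z ^ 2 * -(u z * ⟪V p (gradient u z), gradient η z⟫) := by
      simp only [hQ]
      ring
    rw [h5]
    refine h3.trans (le_trans (le_of_eq ?_) h4)
    ring
  -- the test function
  have hθΩ : ∀ z, z ∉ Ω → θ =ᶠ[𝓝 z] fun _ => 0 := by
    intro z hz
    have h1 : z ∉ tsupport η := fun h => hz (hball (hηs h))
    have h2 : η =ᶠ[𝓝 z] 0 := notMem_tsupport_iff_eventuallyEq.1 h1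
    filter_upwards [h2] with y hy
    simp only [hθ]
    rw [hy]
    simp
  have hθc : ContDiff ℝ 1 θ := by
    rw [contDiff_iff_contDiffAt]
    intro z
    by_cases hz : z ∈ Ω
    · exact (hη.contDiffAt.pow 3).mul (hu.1.contDiffAt (hΩ.mem_nhds hz))
    · exact contDiffAt_const.congr_of_eventuallyEq (hθΩ z hz)
  have hθs : tsupport θ ⊆ closedBall x (2 * r) := by
    refine (closure_mono ?_).trans hηs
    intro z hz h0
    apply hz
    simp only [hθ]
    rw [h0]
    simp
  have hθcs : HasCompactSupport θ :=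
    (isCompact_closedBall x (2 * r)).of_isClosed_subset (isClosed_tsupport _) hθs
  have hwu := weak hp3 hΩ hu hθc hθcs (hθs.trans hball)
  have hgθ : ∀ z ∈ Ω, ∀ b : E n, ⟪b, gradient θ z⟫ =
      η z ^ 3 * ⟪b, gradient u z⟫ + 3 * η z ^ 2 * u z * ⟪b, gradient η z⟫ := fun z hz b =>
    cac_deriv hΩ hu.1 hη hz b
  have hgz : ∀ z, z ∉ B → gradient θ z = 0 := by
    intro z hz
    by_cases hzΩ : z ∈ Ω
    · have h1 := hgθ z hzΩ (gradient θ z)
      rw [hηz z hz] at h1
      rw [real_inner_self_eq_norm_sq] at h1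
      have h2 : ‖gradient θ z‖ ^ 2 = 0 := by
        rw [h1]
        simp
      exact norm_eq_zero.1 (pow_eq_zero_iff (by norm_num)|>.1 h2)
    · rw [SCP.gradient_congr (hθΩ z hzΩ)]
      exact gradient_const z 0
  -- continuity and integrability
  have hVc : Continuous (V p : E n → E n) := SCP.MONO_.cont hp3
  have hguc : ContinuousOn (gradient u) Ω := SCP.TEST_.continuousOn_gradient hΩ hu.1
  have hgηc : Continuous (gradient η) := by
    rw [← continuousOn_univ]
    exact SCP.TEST_.continuousOn_gradient isOpen_univ hη.contDiffOn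
  have huc : ContinuousOn u Ω := hu.1.continuousOn
  have hcomp : IsCompact (closedBall x (2 * r)) := isCompact_closedBall _ _
  have hGc : ContinuousOn (fun z => ‖gradient u z‖ ^ p) Ω :=
    hguc.norm.rpow_const fun z _ => Or.inr (by linarith)
  have hPc : ContinuousOn P Ω := ((hη.continuous.pow 3).continuousOn).mul hGc
  have hQc : ContinuousOn Q Ω :=
    (((continuous_const.mul (hη.continuous.pow 2)).continuousOn).mul huc).mul
      ((hVc.comp_continuousOn hguc).inner hgηc.continuousOn)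
  have hUc : ContinuousOn U Ω := huc.abs.rpow_const fun z _ => Or.inr (by linarith)
  have hPi : IntegrableOn P B :=
    ((hPc.mono hball).integrableOn_compact hcomp).mono_set ball_subset_closedBall
  have hQi : IntegrableOn Q B :=
    ((hQc.mono hball).integrableOn_compact hcomp).mono_set ball_subset_closedBall
  have hUi : IntegrableOn U B :=
    ((hUc.mono hball).integrableOn_compact hcomp).mono_set ball_subset_closedBall
  have hGi : IntegrableOn (fun z => ‖gradient u z‖ ^ p) B :=
    ((hGc.mono hball).integrableOn_compact hcomp).mono_set ball_subset_closedBall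
  have hwu' : ∫ z in B, ⟪V p (gradient u z), gradient θ z⟫ = 0 := by
    rw [setIntegral_eq_integral_of_forall_compl_eq_zero, hwu]
    intro z hz
    rw [hgz z hz, inner_zero_right]
  have hPQ : (∫ z in B, P z) + ∫ z in B, Q z = 0 := by
    rw [← integral_add hPi hQi, ← hwu']
    refine setIntegral_congr_fun measurableSet_ball fun z hz => ?_
    have h3 := hgθ z (hBΩ hz) (V p (gradient u z))
    rw [cac_inner hp3] at h3
    simp only [hP, hQ]
    rw [h3]
  have hmain : ∫ z in B, P z ≤ 216 * ((K / r) ^ p * ∫ z in B, U z) := by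
    have h1 : ∫ z in B, -Q z ≤ ∫ z in B, (1 / 2 * P z + 108 * ((K / r) ^ p * U z)) := by
      refine setIntegral_mono_on hQi.neg ?_ measurableSet_ball fun z _ => hQup z
      exact (hPi.const_mul _).add ((hUi.const_mul _).const_mul _)
    rw [integral_add (hPi.const_mul _) ((hUi.const_mul _).const_mul _), integral_const_mul,
      integral_const_mul, integral_const_mul, integral_neg] at h1
    linarith
  -- conclusion
  have hsub : ball x r ⊆ B := ball_subset_ball (by linarith)
  have hU0 : 0 ≤ ∫ z in B, U z :=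
    setIntegral_nonneg measurableSet_ball fun z _ => Real.rpow_nonneg (abs_nonneg _) _
  have hKp : (K / r) ^ p ≤ (K + 1) ^ 3 * r⁻¹ ^ p := by
    rw [div_eq_mul_inv, Real.mul_rpow hK.le (inv_nonneg.2 hr.le)]
    refine mul_le_mul_of_nonneg_right ?_ (Real.rpow_nonneg (inv_nonneg.2 hr.le) _)
    calc K ^ p ≤ (K + 1) ^ p := Real.rpow_le_rpow hK.le (by linarith) (by linarith)
      _ ≤ (K + 1) ^ (3 : ℝ) :=
          Real.rpow_le_rpow_of_exponent_le (by linarith) (by linarith)
      _ = (K + 1) ^ 3 := by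
          rw [← Real.rpow_natCast]
          norm_num
  calc en p u x r = ∫ z in ball x r, ‖gradient u z‖ ^ p := rfl
    _ = ∫ z in ball x r, P z := by
        refine setIntegral_congr_fun measurableSet_ball fun z hz => ?_
        simp only [hP]
        rw [hηb z hz]
        ring
    _ ≤ ∫ z in B, P z := setIntegral_mono_set hPi (ae_of_all _ hP0) hsub.eventuallyLE
    _ ≤ 216 * ((K / r) ^ p * ∫ z in B, U z) := hmain
    _ ≤ 216 * ((K + 1) ^ 3 * r⁻¹ ^ p * ∫ z in B, U z) := by
        refine mul_le_mul_of_nonneg_left ?_ (by norm_num)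
        exact mul_le_mul_of_nonneg_right hKp hU0
    _ = 216 * (K + 1) ^ 3 * r⁻¹ ^ p * ∫ z in B, U z := by ring

end Pool.Agent.SCN
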