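import Pool.Agent.SCN.Targets2

set_option autoImplicit false

open Set MeasureTheory Filter Topology Metric
open scoped RealInnerProductSpace

namespace Pool.Agent.SCN

open Pool.Agent.SCP (E PHarm V)

section chn

variable {n : ℕ}

theorem chn_mono {p : ℝ} {Ω : Set (E n)} {u : E n → ℝ}
    (hi : IntegrableOn (fun y => ‖gradient u y‖ ^ p) Ω) {A B : Set (E n)} (hAB : A ⊆ B)
    (hB : B ⊆ Ω) : ∫ y in A, ‖gradient u y‖ ^ p ≤ ∫ y in B, ‖gradient u y‖ ^ p :=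
  setIntegral_mono_set (hi.mono_set hB)
    (Eventually.of_forall fun _ => Real.rpow_nonneg (norm_nonneg _) _)
    (LE.le.eventuallyLE hAB)

theorem chn_nonneg (p : ℝ) (u : E n → ℝ) (y : E n) (r : ℝ) : 0 ≤ en p u y r :=
  integral_nonneg fun _ => Real.rpow_nonneg (norm_nonneg _) _

theorem chn_le {p : ℝ} {Ω : Set (E n)} {x₀ : E n} {ρ L : ℝ} {u : E n → ℝ}
    (hu : Adm p Ω x₀ ρ L u) {y : E n} {r : ℝ} (h : closedBall y r ⊆ Ω) :
    en p u y r ≤ ∫ z in Ω, ‖gradient u z‖ ^ p :=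
  chn_mono hu.2.1 (ball_subset_closedBall.trans h) Subset.rfl

theorem chn_rad {p : ℝ} {Ω : Set (E n)} {x₀ : E n} {ρ L : ℝ} {u : E n → ℝ}
    (hu : Adm p Ω x₀ ρ L u) {y : E n} {r s : ℝ} (hrs : r ≤ s) (h : closedBall y s ⊆ Ω) :
    en p u y r ≤ en p u y s :=
  chn_mono hu.2.1 (ball_subset_ball hrs) (ball_subset_closedBall.trans h)

/-- A lower bound for the energy in a ball. -/
def chn_B (Ω : Set (E n)) (x₀ : E n) (ρ L : ℝ) (y : E n) (s : ℝ) : Prop :=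
  ∃ δ e : ℝ, 0 < δ ∧ 0 < e ∧ ∀ p : ℝ, |p - 2| < e → ∀ u : E n → ℝ, Adm p Ω x₀ ρ L u →
    δ * ∫ z in Ω, ‖gradient u z‖ ^ p ≤ en p u y s

/-- A lower bound for some ball. -/
def chn_Q (Ω : Set (E n)) (x₀ : E n) (ρ L : ℝ) (y : E n) : Prop :=
  ∃ r : ℝ, 0 < r ∧ closedBall y (4 * r) ⊆ Ω ∧ chn_B Ω x₀ ρ L y r

variable {Ω : Set (E n)} {x₀ : E n} {ρ L : ℝ}

theorem chn_same (hS : T_SPR) (hn : 1 ≤ n) (hO : IsOpen Ω) {y : E n}
    (hQ : chn_Q Ω x₀ ρ L y) {s : ℝ} (hs : 0 < s) (hB : closedBall y (4 * s) ⊆ Ω) :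
    chn_B Ω x₀ ρ L y s := by
  obtain ⟨r, hr, hr4, δ, e, hδ, he, h⟩ := hQ
  rcases le_total r s with hrs | hsr
  · refine ⟨δ, e, hδ, he, fun p hp u hu => ?_⟩
    refine (h p hp u hu).trans (chn_rad hu hrs ?_)
    exact (closedBall_subset_closedBall (by linarith)).trans hB
  · obtain ⟨δ', e', hδ', he', h'⟩ := hS n δ (s / r) hn hδ (div_pos hs hr)
      ((div_le_one hr).mpr hsr)
    refine ⟨δ' * δ, min e e', mul_pos hδ' hδ, lt_min he he', fun p hp u hu => ?_⟩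
    have h1 := h p (hp.trans_le (min_le_left _ _)) u hu
    have h2 := h' p (hp.trans_le (min_le_right _ _)) u y r hr ⟨Ω, hO, hr4, hu.1⟩
      ((mul_le_mul_of_nonneg_left (chn_le hu hr4) hδ.le).trans h1) y
      (mem_closedBall_self hr.le)
    rw [div_mul_cancel₀ _ hr.ne'] at h2
    have h3 : en p u y r ≤ en p u y (4 * r) := chn_rad hu (by linarith) hr4
    calc δ' * δ * ∫ z in Ω, ‖gradient u z‖ ^ p
        = δ' * (δ * ∫ z in Ω, ‖gradient u z‖ ^ p) := mul_assoc _ _ _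
      _ ≤ δ' * en p u y (4 * r) := mul_le_mul_of_nonneg_left (h1.trans h3) hδ'.le
      _ ≤ en p u y s := h2

theorem chn_move (hS : T_SPR) (hn : 1 ≤ n) (hO : IsOpen Ω) {y : E n}
    (hQ : chn_Q Ω x₀ ρ L y) {s : ℝ} (hs : 0 < s) (hB : closedBall y (4 * s) ⊆ Ω) :
    ∃ δ e : ℝ, 0 < δ ∧ 0 < e ∧ ∀ p : ℝ, |p - 2| < e → ∀ u : E n → ℝ, Adm p Ω x₀ ρ L u →
      ∀ y' ∈ closedBall y s, δ * ∫ z in Ω, ‖gradient u z‖ ^ p ≤ en p u y' (s / 2) := by
  obtain ⟨δ, e, hδ, he, h⟩ := chn_same hS hn hO hQ hs hB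
  obtain ⟨δ', e', hδ', he', h'⟩ := hS n δ (1 / 2) hn hδ (by norm_num) (by norm_num)
  refine ⟨δ' * δ, min e e', mul_pos hδ' hδ, lt_min he he', fun p hp u hu y' hy' => ?_⟩
  have h1 := h p (hp.trans_le (min_le_left _ _)) u hu
  have h2 := h' p (hp.trans_le (min_le_right _ _)) u y s hs ⟨Ω, hO, hB, hu.1⟩
    ((mul_le_mul_of_nonneg_left (chn_le hu hB) hδ.le).trans h1) y' hy'
  have h3 : en p u y s ≤ en p u y (4 * s) := chn_rad hu (by linarith) hB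
  have h4 : (1 / 2 : ℝ) * s = s / 2 := by ring
  rw [h4] at h2
  calc δ' * δ * ∫ z in Ω, ‖gradient u z‖ ^ p
      = δ' * (δ * ∫ z in Ω, ‖gradient u z‖ ^ p) := mul_assoc _ _ _
    _ ≤ δ' * en p u y (4 * s) := mul_le_mul_of_nonneg_left (h1.trans h3) hδ'.le
    _ ≤ en p u y' (s / 2) := h2

theorem chn_Qmove (hS : T_SPR) (hn : 1 ≤ n) (hO : IsOpen Ω) {y : E n}
    (hQ : chn_Q Ω x₀ ρ L y) {s : ℝ} (hs : 0 < s) (hB : closedBall y (4 * s) ⊆ Ω) {y' : E n}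
    (hy' : y' ∈ closedBall y s) : chn_Q Ω x₀ ρ L y' := by
  obtain ⟨δ, e, hδ, he, h⟩ := chn_move hS hn hO hQ hs hB
  refine ⟨s / 2, by linarith, ?_, δ, e, hδ, he, fun p hp u hu => h p hp u hu y' hy'⟩
  refine (closedBall_subset_closedBall' ?_).trans hB
  rw [mem_closedBall] at hy'
  linarith

theorem chn_Q0 (hρ : 0 < ρ) (hB : closedBall x₀ (4 * ρ) ⊆ Ω) : chn_Q Ω x₀ ρ L x₀ := by
  have hL : 0 < |L| + 1 := by positivity
  refine ⟨ρ, hρ, hB, (|L| + 1)⁻¹, 1, by positivity, one_pos, fun p _ u hu => ?_⟩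
  rw [inv_mul_le_iff₀ hL]
  refine hu.2.2.2.trans (mul_le_mul_of_nonneg_right ?_ (chn_nonneg _ _ _ _))
  linarith [le_abs_self L]

theorem chn_ball (hO : IsOpen Ω) {x : E n} (hx : x ∈ Ω) :
    ∃ s : ℝ, 0 < s ∧ closedBall x (8 * s) ⊆ Ω := by
  obtain ⟨ε, hε, h⟩ := Metric.isOpen_iff.mp hO x hx
  exact ⟨ε / 16, by positivity,
    (closedBall_subset_ball (by linarith)).trans h⟩

theorem chn_all (hS : T_SPR) (hn : 1 ≤ n) (hO : IsOpen Ω) (hC : IsPreconnected Ω) (hρ : 0 < ρ)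
    (hB : closedBall x₀ (4 * ρ) ⊆ Ω) {y : E n} (hy : y ∈ Ω) : chn_Q Ω x₀ ρ L y := by
  have hx₀ : x₀ ∈ Ω := hB (mem_closedBall_self (by positivity))
  have h := hC.induction₂ (fun a b => chn_Q Ω x₀ ρ L a ↔ chn_Q Ω x₀ ρ L b)
    (fun x hx => by
      obtain ⟨s, hs, hs8⟩ := chn_ball hO hx
      have h1 : ball x s ∈ 𝓝[Ω] x := mem_nhdsWithin_of_mem_nhds (ball_mem_nhds x hs)
      filter_upwards [h1] with z hz
      have hz' : z ∈ closedBall x s := ball_subset_closedBall hz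
      refine ⟨fun hQ => chn_Qmove hS hn hO hQ hs
        ((closedBall_subset_closedBall (by linarith)).trans hs8) hz', fun hQ => ?_⟩
      refine chn_Qmove hS hn hO hQ hs ((closedBall_subset_closedBall' ?_).trans hs8)
        (mem_closedBall_comm.mp hz')
      rw [mem_closedBall] at hz'
      linarith)
    (fun a b c _ _ _ h1 h2 => h1.trans h2) (fun a b _ _ h1 => h1.symm) hx₀ hy
  exact h.mp (chn_Q0 hρ hB)

theorem chn_freq {p : ℝ} {u : E n → ℝ} {x : E n} {M N : ℕ} (h : Freq p Ω u x M) (hMN : M ≤ N) :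
    Freq p Ω u x N := by
  obtain ⟨r, hr, h1, h2, h3⟩ := h
  exact ⟨r, hr, h1, h2, h3.trans (mul_le_mul_of_nonneg_right
    (pow_le_pow_right₀ (by norm_num) hMN) h2.le)⟩

end chn

theorem p_CHN (hS : T_SPR) : T_CHN := by
  intro n Ω x₀ ρ L K hn hO hC hρ hB hK hKΩ
  refine hK.induction_on (p := fun S => ∃ (N : ℕ) (e : ℝ), 0 < e ∧ ∀ p : ℝ, |p - 2| < e →
    ∀ u : E n → ℝ, Adm p Ω x₀ ρ L u → ∀ x ∈ S, Freq p Ω u x N) ?_ ?_ ?_ ?_
  · exact ⟨0, 1, one_pos, fun p _ u _ x hx => absurd hx (notMem_empty x)⟩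
  · rintro S T hST ⟨N, e, he, h⟩
    exact ⟨N, e, he, fun p hp u hu x hx => h p hp u hu x (hST hx)⟩
  · rintro S T ⟨N, e, he, h⟩ ⟨N', e', he', h'⟩
    refine ⟨max N N', min e e', lt_min he he', fun p hp u hu x hx => ?_⟩
    rcases hx with hx | hx
    · exact chn_freq (h p (hp.trans_le (min_le_left _ _)) u hu x hx) (le_max_left _ _)
    · exact chn_freq (h' p (hp.trans_le (min_le_right _ _)) u hu x hx) (le_max_right _ _)
  · intro y hy
    have hyΩ := hKΩ hy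
    obtain ⟨s, hs, hs8⟩ := chn_ball hO hyΩ
    obtain ⟨δ, e, hδ, he, h⟩ := chn_move hS hn hO (chn_all (L := L) hS hn hO hC hρ hB hyΩ) hs
      ((closedBall_subset_closedBall (by linarith)).trans hs8)
    obtain ⟨N, hN⟩ := pow_unbounded_of_one_lt (δ⁻¹) (one_lt_two (α := ℝ))
    refine ⟨ball y s, mem_nhdsWithin_of_mem_nhds (ball_mem_nhds y hs), N, e, he,
      fun p hp u hu x hx => ?_⟩
    have hx' : x ∈ closedBall y s := ball_subset_closedBall hx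
    have h1 := h p hp u hu x hx'
    have hsub : closedBall x (4 * (s / 2)) ⊆ Ω := by
      refine (closedBall_subset_closedBall' ?_).trans hs8
      rw [mem_closedBall] at hx'
      linarith
    refine ⟨s / 2, by linarith, hsub, lt_of_lt_of_le (mul_pos hδ hu.2.2.1) h1, ?_⟩
    have h2 := chn_le hu hsub
    have h3 : ∫ z in Ω, ‖gradient u z‖ ^ p ≤ δ⁻¹ * en p u x (s / 2) := by
      rw [← div_eq_inv_mul, le_div_iff₀ hδ, mul_comm]
      exact h1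
    exact h2.trans (h3.trans (mul_le_mul_of_nonneg_right hN.le (chn_nonneg _ _ _ _)))

end Pool.Agent.SCN
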