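import Pool.Agent.SCN.Targets

/-! # The compactness lemma -/

set_option autoImplicit false

open Set MeasureTheory Filter Topology Metric
open scoped RealInnerProductSpace

namespace Pool.Agent.SCN

open Pool.Agent.SCP (E PHarm V)

theorem cl_int {n : ℕ} {p : ℝ} {u h : E n → ℝ} (c : ℝ) (hu : PB p 0 4 u)
    (hh : ContinuousOn h (closedBall (0 : E n) (15 / 4))) :
    IntegrableOn (fun x => |u x - c - h x|) (ball (0 : E n) (15 / 4)) := by
  obtain ⟨Ω, hΩ, h1, h2⟩ := hu
  have h3 : closedBall (0 : E n) (15 / 4) ⊆ Ω :=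
    (closedBall_subset_closedBall (by norm_num)).trans h1
  have h4 : ContinuousOn u (closedBall (0 : E n) (15 / 4)) := h2.1.continuousOn.mono h3
  have h5 : ContinuousOn (fun x => |u x - c - h x|) (closedBall (0 : E n) (15 / 4)) :=
    ((h4.sub continuousOn_const).sub hh).abs
  exact (h5.integrableOn_compact (isCompact_closedBall _ _)).mono_set ball_subset_closedBall

theorem p_CL (hKER : T_KER) (hL1C : T_L1C) (hFIX : T_FIX) (hSMO : T_SMO) (hLPC : T_LPC)
    (hMIN : T_MIN) (hGRC : T_GRC) (hENC : T_ENC) : T_CL := by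
  intro n hn p u hp hu he
  obtain ⟨φ, Φ, hK⟩ := hKER n hn
  obtain ⟨k, c, h, hk, hh, hl⟩ := hL1C n φ Φ hK p u hp hu he
  have hp' : Tendsto (fun j => p (k j)) atTop (𝓝 2) := hp.comp hk.tendsto_atTop
  have hu' : ∀ j, PB (p (k j)) 0 4 (u (k j)) := fun j => hu (k j)
  have he' : ∀ j, en (p (k j)) (u (k j)) 0 4 ≤ 1 := fun j => he (k j)
  have hfix := hFIX n φ Φ hK (fun j => p (k j)) (fun j => u (k j)) c h hp' hu' he' hh hl
  have hH := hSMO n φ Φ hK h hh hfix
  have hlp := hLPC n φ Φ hK (fun j => p (k j)) (fun j => u (k j)) c h hp' hu' he' hh hfix hl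
  have hmin := hMIN n (fun j => p (k j)) (fun j => u (k j)) c h hp' hu' he' hH hlp
  have hgr := hGRC n (fun j => p (k j)) (fun j => u (k j)) h hp' hu' he' hH hmin
  have hen := hENC n (fun j => p (k j)) (fun j => u (k j)) h hp' hu' he' hH hgr
  refine ⟨k, c, h, hk, hH, ?_, hgr, hen⟩
  refine squeeze_zero (fun j => ?_) (fun j => ?_) hl
  · exact integral_nonneg fun x => abs_nonneg _
  · refine setIntegral_mono_set (cl_int (c j) (hu' j) hh) ?_ ?_
    · exact Eventually.of_forall fun x => abs_nonneg _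
    · exact (ball_subset_ball (by norm_num)).eventuallyLE

end Pool.Agent.SCN
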