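import Pool.Agent.SCN.Targets

set_option autoImplicit false

open Set MeasureTheory Filter Topology Metric
open scoped RealInnerProductSpace

namespace Pool.Agent.SCN

open Pool.Agent.SCP (E PHarm V)

/-- Rescaling to the ball of radius four. -/
theorem d3a_scale (hS : T_SCL) {n : ℕ} {p : ℝ} (hp : 0 < p) (u : E n → ℝ) (x : E n) {r Q : ℝ}
    (hr : 0 < r) (hQ : 0 < Q) (h4 : PB p x (4 * r) u)
    (e4 : en p u x (4 * r) ≤ Q * en p u x (2 * r)) (e2 : en p u x (2 * r) ≤ Q * en p u x r)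
    (e1 : 0 < en p u x r) (eh : Q * en p u x (r / 2) < en p u x r) :
    ∃ U : E n → ℝ, PB p 0 4 U ∧ en p U 0 4 ≤ 1 ∧ en p U 0 2 ≤ Q⁻¹ ∧ en p U 0 1 = (Q ^ 2)⁻¹ ∧
      Q * en p U 0 (1 / 2) ≤ (Q ^ 2)⁻¹ := by
  set t : ℝ := (Q ^ 2)⁻¹ * r ^ n / en p u x r with ht
  have ht0 : 0 < t := by positivity
  have htp : 0 < t ^ (1 / p) := Real.rpow_pos_of_pos ht0 _
  set c : ℝ := t ^ (1 / p) / r with hc
  have hc0 : 0 < c := div_pos htp hr
  have hcr : (c * r) ^ p = t := by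
    rw [hc, div_mul_cancel₀ _ hr.ne', ← Real.rpow_mul ht0.le, one_div, inv_mul_cancel₀ hp.ne',
      Real.rpow_one]
  obtain ⟨s1, _, s3, _⟩ := hS n p u x r c hr hc0
  have hrn : (r ^ n : ℝ) ≠ 0 := by positivity
  have hen : ∀ ρ : ℝ, en p (fun y => c * u (x + r • y)) 0 ρ =
      (Q ^ 2)⁻¹ / en p u x r * en p u x (r * ρ) := by
    intro ρ
    rw [s3 0 ρ, smul_zero, add_zero, hcr, ht]
    field_simp
  have hf : 0 < (Q ^ 2)⁻¹ / en p u x r := by positivity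
  refine ⟨fun y => c * u (x + r • y), s1 4 (by rw [mul_comm]; exact h4), ?_, ?_, ?_, ?_⟩
  · rw [hen 4, mul_comm r 4]
    calc (Q ^ 2)⁻¹ / en p u x r * en p u x (4 * r)
        ≤ (Q ^ 2)⁻¹ / en p u x r * (Q * (Q * en p u x r)) :=
          mul_le_mul_of_nonneg_left (e4.trans (mul_le_mul_of_nonneg_left e2 hQ.le)) hf.le
      _ = 1 := by field_simp
  · rw [hen 2, mul_comm r 2]
    calc (Q ^ 2)⁻¹ / en p u x r * en p u x (2 * r)
        ≤ (Q ^ 2)⁻¹ / en p u x r * (Q * en p u x r) := mul_le_mul_of_nonneg_left e2 hf.le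
      _ = Q⁻¹ := by field_simp
  · rw [hen 1, mul_one]
    field_simp
  · rw [hen (1 / 2), mul_one_div]
    calc Q * ((Q ^ 2)⁻¹ / en p u x r * en p u x (r / 2))
        = (Q ^ 2)⁻¹ / en p u x r * (Q * en p u x (r / 2)) := by ring
      _ ≤ (Q ^ 2)⁻¹ / en p u x r * en p u x r := mul_le_mul_of_nonneg_left eh.le hf.le
      _ = (Q ^ 2)⁻¹ := by field_simp

theorem d3a_mono {n : ℕ} {Ω Ω' : Set (E n)} {h : E n → ℝ} (hh : Hrm Ω h) (hs : Ω' ⊆ Ω) :
    Hrm Ω' h :=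
  ⟨hh.1.mono hs, SCP.PHarm.mono hh.2 hs⟩

theorem p_D3A (hS : T_SCL) (hC : T_CL) (hI : T_ITG) : T_D3A := by
  intro n k hn
  set Q : ℝ := 2 ^ (n + 2 * k + 1) with hQ
  have hQ0 : 0 < Q := by positivity
  by_contra hcon
  push Not at hcon
  have key : ∀ j : ℕ, ∃ (p : ℝ) (U : E n → ℝ), |p - 2| < 1 / ((j : ℝ) + 1) ∧ PB p 0 4 U ∧
      en p U 0 4 ≤ 1 ∧ en p U 0 2 ≤ Q⁻¹ ∧ en p U 0 1 = (Q ^ 2)⁻¹ ∧
      Q * en p U 0 (1 / 2) ≤ (Q ^ 2)⁻¹ := by
    intro j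
    have hj : (0 : ℝ) < 1 / ((j : ℝ) + 1) := by positivity
    obtain ⟨p, hp, u, x, r, hr, h4, e4, e2, e1, eh⟩ := hcon _ hj
    have hj1 : 1 / ((j : ℝ) + 1) ≤ 1 := by
      rw [div_le_one (by positivity)]
      have : (0 : ℝ) ≤ (j : ℝ) := Nat.cast_nonneg j
      linarith
    have hp0 : 0 < p := by
      have := (abs_lt.1 hp).1
      linarith
    obtain ⟨U, hU⟩ := d3a_scale hS hp0 u x hr hQ0 h4 e4 e2 e1 eh
    exact ⟨p, U, hp, hU⟩
  choose p U hp hPB h4 h2 h1 hh using key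
  have hlim : Tendsto p atTop (𝓝 2) := by
    rw [tendsto_iff_norm_sub_tendsto_zero]
    refine squeeze_zero (fun _ => norm_nonneg _) (fun j => ?_)
      tendsto_one_div_add_atTop_nhds_zero_nat
    rw [Real.norm_eq_abs]
    exact (hp j).le
  obtain ⟨K, c, h, hK, hH, -, -, hE⟩ := hC n hn p U hlim hPB h4
  have l1 := hE 1 (by norm_num) (by norm_num)
  have l2 := hE 2 (by norm_num) (by norm_num)
  have lh := hE (1 / 2) (by norm_num) (by norm_num)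
  have v1 : ∫ x in ball (0 : E n) 1, ‖gradient h x‖ ^ 2 = (Q ^ 2)⁻¹ := by
    refine tendsto_nhds_unique l1 ?_
    simp only [h1]
    exact tendsto_const_nhds
  have v2 : ∫ x in ball (0 : E n) 2, ‖gradient h x‖ ^ 2 ≤ Q⁻¹ :=
    le_of_tendsto l2 (Eventually.of_forall fun j => h2 _)
  have vh : Q * ∫ x in ball (0 : E n) (1 / 2), ‖gradient h x‖ ^ 2 ≤ (Q ^ 2)⁻¹ :=
    le_of_tendsto (lh.const_mul Q) (Eventually.of_forall fun j => hh _)
  have hz := hI n k h (d3a_mono hH (ball_subset_ball (by norm_num)))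
    (by
      rw [v1]
      refine v2.trans (le_of_eq ?_)
      rw [← hQ]
      field_simp)
    (by
      rw [v1]
      exact vh)
  rw [v1] at hz
  have : 0 < (Q ^ 2)⁻¹ := by positivity
  linarith

end Pool.Agent.SCN
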