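import Pool.Agent.SCN.Targets

/-! # Decay of the energy at one scale -/

set_option autoImplicit false

open Set MeasureTheory Filter Topology Metric
open scoped RealInnerProductSpace

namespace Pool.Agent.SCN

open Pool.Agent.SCP (E PHarm V)

theorem d3b_en_nonneg {n : ℕ} (p : ℝ) (u : E n → ℝ) (x : E n) (r : ℝ) : 0 ≤ en p u x r :=
  integral_nonneg fun _ => Real.rpow_nonneg (norm_nonneg _) _

theorem d3b_en_mono {n : ℕ} {p : ℝ} (hp : 0 < p) {u : E n → ℝ} {x : E n} {r ρ : ℝ}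
    (hu : PB p x r u) (hρ : ρ ≤ r) : en p u x ρ ≤ en p u x r := by
  obtain ⟨Ω, hΩ, h1, h2⟩ := hu
  have h3 : ContinuousOn (fun y => ‖gradient u y‖ ^ p) (closedBall x r) :=
    ((SCP.TEST_.continuousOn_gradient hΩ h2.1).mono h1).norm.rpow_const fun _ _ => Or.inr hp.le
  have h4 : IntegrableOn (fun y => ‖gradient u y‖ ^ p) (ball x r) :=
    (h3.integrableOn_compact (isCompact_closedBall _ _)).mono_set ball_subset_closedBall
  exact setIntegral_mono_set h4
    (Eventually.of_forall fun _ => Real.rpow_nonneg (norm_nonneg _) _)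
    (ball_subset_ball hρ).eventuallyLE

/-- Rescaling to the ball of radius four. -/
theorem d3b_scale (hS : T_SCL) {n : ℕ} {p : ℝ} (hp : 0 < p) (v : E n → ℝ) (x : E n) {r : ℝ}
    (hr : 0 < r) (hv : PB p x r v) (he : 0 < en p v x r) :
    ∃ U : E n → ℝ, PB p 0 4 U ∧ en p U 0 4 = 1 ∧
      ∀ t : ℝ, en p U 0 t = en p v x (r / 4 * t) / en p v x r := by
  set s : ℝ := r / 4 with hs
  have hs0 : 0 < s := by positivity
  set t : ℝ := s ^ n / en p v x r with ht
  have ht0 : 0 < t := by positivity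
  have htp : 0 < t ^ (1 / p) := Real.rpow_pos_of_pos ht0 _
  set c : ℝ := t ^ (1 / p) / s with hc
  have hc0 : 0 < c := div_pos htp hs0
  have hcr : (c * s) ^ p = t := by
    rw [hc, div_mul_cancel₀ _ hs0.ne', ← Real.rpow_mul ht0.le, one_div, inv_mul_cancel₀ hp.ne',
      Real.rpow_one]
  obtain ⟨s1, _, s3, _⟩ := hS n p v x s c hs0 hc0
  have hsn : (s ^ n : ℝ) ≠ 0 := by positivity
  have hen : ∀ ρ : ℝ, en p (fun y => c * v (x + s • y)) 0 ρ =
      en p v x (s * ρ) / en p v x r := by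
    intro ρ
    rw [s3 0 ρ, smul_zero, add_zero, hcr, ht]
    field_simp
  have hs4 : s * 4 = r := by rw [hs]; ring
  refine ⟨fun y => c * v (x + s • y), s1 4 (by rw [hs4]; exact hv), ?_, hen⟩
  rw [hen 4, hs4]
  exact div_self he.ne'

/-- The sup bound for the gradient of a harmonic function. -/
theorem d3b_sup (hD : T_DER) (hP : T_SUP) {n : ℕ} (hn : 1 ≤ n) : ∃ C : ℝ, 0 < C ∧
    ∀ h : E n → ℝ, Hrm (ball 0 (13 / 4)) h → ∀ y ∈ ball (0 : E n) 1,
      ‖gradient h y‖ ^ 2 ≤ C * ∫ x in ball (0 : E n) 2, ‖gradient h x‖ ^ 2 := by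
  obtain ⟨C, hC, hsup⟩ := hP n hn
  refine ⟨C * (2 ^ n)⁻¹, by positivity, fun h hh y hy => ?_⟩
  have hgc : ContinuousOn (gradient h) (ball (0 : E n) (13 / 4)) :=
    SCP.TEST_.continuousOn_gradient isOpen_ball (hh.1.of_le (by exact_mod_cast le_top))
  have hsub : closedBall (0 : E n) 2 ⊆ ball 0 (13 / 4) := closedBall_subset_ball (by norm_num)
  set a : E n := gradient h y with ha
  have hf : ∀ z, fderiv ℝ h z a = ⟪gradient h z, a⟫ := by
    intro z
    rw [gradient, InnerProductSpace.toDual_symm_apply]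
  have h1 := hsup (ball 0 (13 / 4)) (fun z => fderiv ℝ h z a) 0 2 isOpen_ball
    (hD n _ h a isOpen_ball hh) (by norm_num) hsub y (by simpa using hy)
  simp only [hf] at h1
  have hi1 : IntegrableOn (fun z => ‖gradient h z‖ ^ 2) (ball (0 : E n) 2) :=
    (((hgc.mono hsub).norm.pow 2).integrableOn_compact
      (isCompact_closedBall _ _)).mono_set ball_subset_closedBall
  have hi2 : IntegrableOn (fun z => ⟪gradient h z, a⟫ ^ 2) (ball (0 : E n) 2) :=
    ((((hgc.mono hsub).inner continuousOn_const).pow 2).integrableOn_compact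
      (isCompact_closedBall _ _)).mono_set ball_subset_closedBall
  have h2 : ∫ z in ball (0 : E n) 2, ⟪gradient h z, a⟫ ^ 2 ≤
      ‖a‖ ^ 2 * ∫ z in ball (0 : E n) 2, ‖gradient h z‖ ^ 2 := by
    rw [← integral_const_mul]
    refine setIntegral_mono hi2 (hi1.const_mul _) fun z => ?_
    have h3 := abs_real_inner_le_norm (gradient h z) a
    have h4 : ⟪gradient h z, a⟫ ^ 2 ≤ (‖gradient h z‖ * ‖a‖) ^ 2 := by
      rw [← sq_abs]
      exact pow_le_pow_left₀ (abs_nonneg _) h3 2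
    calc ⟪gradient h z, a⟫ ^ 2 ≤ (‖gradient h z‖ * ‖a‖) ^ 2 := h4
      _ = ‖a‖ ^ 2 * ‖gradient h z‖ ^ 2 := by ring
  rw [← ha, real_inner_self_eq_norm_sq] at h1
  rcases (norm_nonneg a).eq_or_lt with h0 | h0
  · rw [← h0]
    have h8 : 0 ≤ ∫ z in ball (0 : E n) 2, ‖gradient h z‖ ^ 2 :=
      integral_nonneg fun _ => sq_nonneg _
    have h9 : 0 ≤ C * (2 ^ n)⁻¹ := by positivity
    simpa using mul_nonneg h9 h8
  · have h5 : (‖a‖ ^ 2) ^ 2 ≤ C * (2 ^ n)⁻¹ *
        (‖a‖ ^ 2 * ∫ z in ball (0 : E n) 2, ‖gradient h z‖ ^ 2) :=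
      h1.trans (mul_le_mul_of_nonneg_left h2 (by positivity))
    have h6 : 0 < ‖a‖ ^ 2 := by positivity
    have h7 : ‖a‖ ^ 2 * ‖a‖ ^ 2 ≤
        ‖a‖ ^ 2 * (C * (2 ^ n)⁻¹ * ∫ z in ball (0 : E n) 2, ‖gradient h z‖ ^ 2) := by
      calc ‖a‖ ^ 2 * ‖a‖ ^ 2 = (‖a‖ ^ 2) ^ 2 := by ring
        _ ≤ _ := h5
        _ = _ := by ring
    exact le_of_mul_le_mul_left h7 h6

theorem d3b_vol {n : ℕ} (hn : 1 ≤ n) (t : ℝ) (ht : 0 ≤ t) :
    volume.real (ball (0 : E n) t) = t ^ n * volume.real (ball (0 : E n) 1) := by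
  have : Nonempty (Fin n) := ⟨⟨0, hn⟩⟩
  rw [Measure.real, Measure.real, Measure.addHaar_ball _ _ ht, ENNReal.toReal_mul,
    ENNReal.toReal_ofReal (by positivity), finrank_euclideanSpace_fin]

theorem p_D3B (hS : T_SCL) (hC : T_CL) (hD : T_DER) (hP : T_SUP) : T_D3B := by
  intro n hn
  obtain ⟨C, hC0, hsup⟩ := d3b_sup hD hP hn
  set W : ℝ := volume.real (ball (0 : E n) 1) with hW
  have hW0 : 0 ≤ W := measureReal_nonneg
  obtain ⟨m0, hm0⟩ := pow_unbounded_of_one_lt (C * W * 4 ^ n) (one_lt_two (α := ℝ))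
  set m : ℕ := m0 + 2 with hm
  have hmC : C * W * 4 ^ n < 2 ^ m :=
    hm0.trans_le (pow_le_pow_right₀ (by norm_num) (by omega))
  have hm4 : (4 : ℝ) ≤ 2 ^ m := by
    calc (4 : ℝ) = 2 ^ 2 := by norm_num
      _ ≤ 2 ^ m := pow_le_pow_right₀ (by norm_num) (by omega)
  have hm0' : (0 : ℝ) < 2 ^ m := by positivity
  by_contra hcon
  push Not at hcon
  have key : ∀ j : ℕ, ∃ (p : ℝ) (U : E n → ℝ), |p - 2| < 1 / ((j : ℝ) + 1) ∧ PB p 0 4 U ∧
      en p U 0 4 = 1 ∧ ((2 ^ m) ^ (n - 1))⁻¹ ≤ en p U 0 (4 / 2 ^ m) ∧ en p U 0 2 ≤ 1 := by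
    intro j
    have hj : (0 : ℝ) < 1 / ((j : ℝ) + 1) := by positivity
    obtain ⟨p, hp, v, x, r, hr, hv, he⟩ := hcon m _ (by omega) hj
    have hj1 : 1 / ((j : ℝ) + 1) ≤ 1 := by
      rw [div_le_one (by positivity)]
      have : (0 : ℝ) ≤ (j : ℝ) := Nat.cast_nonneg j
      linarith
    have hp0 : 0 < p := by
      have := (abs_lt.1 hp).1
      linarith
    have hrm : r / 2 ^ m ≤ r := div_le_self hr.le (by linarith)
    have hen : 0 < en p v x r := by
      rcases (d3b_en_nonneg p v x r).eq_or_lt with h0 | h0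
      · exfalso
        have h1 := d3b_en_mono hp0 hv hrm
        have h2 : en p v x (r / 2 ^ m) = 0 := le_antisymm (by rw [h0]; exact h1)
          (d3b_en_nonneg _ _ _ _)
        rw [h2, mul_zero, ← h0] at he
        exact lt_irrefl _ he
      · exact h0
    obtain ⟨U, hU, hU4, hUt⟩ := d3b_scale hS hp0 v x hr hv hen
    refine ⟨p, U, hp, hU, hU4, ?_, ?_⟩
    · have h1 : r / 4 * (4 / 2 ^ m) = r / 2 ^ m := by field_simp
      rw [hUt, h1, inv_eq_one_div, div_le_div_iff₀ (by positivity) hen, one_mul, mul_comm]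
      exact he.le
    · rw [← hU4]
      exact d3b_en_mono hp0 hU (by norm_num)
  choose p U hp hPB h4 hlow h2 using key
  have hlim : Tendsto p atTop (𝓝 2) := by
    rw [tendsto_iff_norm_sub_tendsto_zero]
    refine squeeze_zero (fun _ => norm_nonneg _) (fun j => ?_)
      tendsto_one_div_add_atTop_nhds_zero_nat
    rw [Real.norm_eq_abs]
    exact (hp j).le
  obtain ⟨K, c, h, hK, hH, -, -, hE⟩ := hC n hn p U hlim hPB (fun j => (h4 j).le)
  have hs0 : (0 : ℝ) < 4 / 2 ^ m := by positivity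
  have hs1 : (4 : ℝ) / 2 ^ m ≤ 1 := (div_le_one hm0').2 hm4
  have l2 := hE 2 (by norm_num) (by norm_num)
  have ls := hE (4 / 2 ^ m) hs0 (by linarith)
  have v2 : ∫ x in ball (0 : E n) 2, ‖gradient h x‖ ^ 2 ≤ 1 :=
    le_of_tendsto l2 (Eventually.of_forall fun j => h2 _)
  have vs : ((2 ^ m) ^ (n - 1))⁻¹ ≤ ∫ x in ball (0 : E n) (4 / 2 ^ m), ‖gradient h x‖ ^ 2 :=
    ge_of_tendsto ls (Eventually.of_forall fun j => hlow _)
  have hgc : ContinuousOn (gradient h) (ball (0 : E n) (13 / 4)) :=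
    SCP.TEST_.continuousOn_gradient isOpen_ball (hH.1.of_le (by exact_mod_cast le_top))
  have hsub : closedBall (0 : E n) (4 / 2 ^ m) ⊆ ball 0 (13 / 4) :=
    closedBall_subset_ball (by linarith)
  have hi1 : IntegrableOn (fun z => ‖gradient h z‖ ^ 2) (ball (0 : E n) (4 / 2 ^ m)) :=
    (((hgc.mono hsub).norm.pow 2).integrableOn_compact
      (isCompact_closedBall _ _)).mono_set ball_subset_closedBall
  have vC : ∫ x in ball (0 : E n) (4 / 2 ^ m), ‖gradient h x‖ ^ 2 ≤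
      C * ((4 / 2 ^ m) ^ n * W) := by
    calc ∫ x in ball (0 : E n) (4 / 2 ^ m), ‖gradient h x‖ ^ 2
        ≤ ∫ _ in ball (0 : E n) (4 / 2 ^ m), C := by
          refine setIntegral_mono_on hi1 ?_ measurableSet_ball fun z hz => ?_
          · exact integrableOn_const (measure_ball_lt_top.ne)
          · refine (hsup h hH z (ball_subset_ball hs1 hz)).trans ?_
            calc C * ∫ x in ball (0 : E n) 2, ‖gradient h x‖ ^ 2 ≤ C * 1 :=
                  mul_le_mul_of_nonneg_left v2 hC0.le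
              _ = C := mul_one C
      _ = C * ((4 / 2 ^ m) ^ n * W) := by
          rw [setIntegral_const, d3b_vol hn _ hs0.le, smul_eq_mul]
          ring
  have hfin : ((2 ^ m : ℝ) ^ (n - 1))⁻¹ ≤ C * ((4 / 2 ^ m) ^ n * W) := vs.trans vC
  obtain ⟨k, rfl⟩ : ∃ k, n = k + 1 := ⟨n - 1, by omega⟩
  have h9 : C * W * 4 ^ (k + 1) < 2 ^ m := hmC
  have h10 : ((2 ^ m : ℝ) ^ k)⁻¹ ≤ C * W * 4 ^ (k + 1) / (2 ^ m) ^ (k + 1) := by
    refine hfin.trans (le_of_eq ?_)
    rw [div_pow]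
    ring
  rw [inv_eq_one_div, div_le_div_iff₀ (by positivity) (by positivity), one_mul,
    pow_succ (2 ^ m : ℝ) k, mul_comm ((2 ^ m : ℝ) ^ k)] at h10
  have h11 : (2 ^ m : ℝ) ≤ C * W * 4 ^ (k + 1) :=
    le_of_mul_le_mul_right h10 (by positivity)
  linarith

end Pool.Agent.SCN
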