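import Pool.Agent.SCN.Targets

/-! # Small gradients at one scale -/

set_option autoImplicit false

open Set MeasureTheory Filter Topology Metric
open scoped RealInnerProductSpace

namespace Pool.Agent.SCN

open Pool.Agent.SCP (E PHarm V)

theorem d3c_vol {n : ℕ} (hn : 1 ≤ n) (x : E n) (r : ℝ) (hr : 0 ≤ r) :
    volume (ball x r) = ENNReal.ofReal (r ^ n) * volume (ball (0 : E n) 1) := by
  have : Nonempty (Fin n) := ⟨⟨0, hn⟩⟩
  rw [Measure.addHaar_ball _ _ hr, finrank_euclideanSpace_fin]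

/-- Rescaling to the ball of radius four. -/
theorem d3c_scale (hS : T_SCL) {n : ℕ} (hn : 1 ≤ n) {p : ℝ} (hp : 0 < p) (u : E n → ℝ) (x : E n)
    {r Q a η : ℝ} (hr : 0 < r) (hQ : 1 ≤ Q) (ha : 0 < a) (h4 : PB p x (4 * r) u)
    (e4 : en p u x (4 * r) ≤ Q * en p u x r) (e1 : 0 < en p u x r)
    (ev : ENNReal.ofReal η * volume (ball x r) <
      volume (ball x r ∩ {y | ‖gradient u y‖ < a * mg p u x r})) :
    ∃ U : E n → ℝ, PB p 0 4 U ∧ en p U 0 4 ≤ 1 ∧ en p U 0 1 = Q⁻¹ ∧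
      ENNReal.ofReal η * volume (ball (0 : E n) 1) ≤
        volume (ball (0 : E n) 1 ∩ {y | ‖gradient U y‖ < a}) := by
  have hQ0 : 0 < Q := by linarith
  set t : ℝ := Q⁻¹ * r ^ n / en p u x r with ht
  have ht0 : 0 < t := by positivity
  have htp : 0 < t ^ (1 / p) := Real.rpow_pos_of_pos ht0 _
  set c : ℝ := t ^ (1 / p) / r with hc
  have hc0 : 0 < c := div_pos htp hr
  have hcr0 : c * r = t ^ (1 / p) := by rw [hc, div_mul_cancel₀ _ hr.ne']
  have hcr : (c * r) ^ p = t := by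
    rw [hcr0, ← Real.rpow_mul ht0.le, one_div, inv_mul_cancel₀ hp.ne', Real.rpow_one]
  obtain ⟨s1, _, s3, s4⟩ := hS n p u x r c hr hc0
  have hrn0 : (0 : ℝ) < r ^ n := by positivity
  have hrn : (r ^ n : ℝ) ≠ 0 := hrn0.ne'
  have hen : ∀ ρ : ℝ, en p (fun y => c * u (x + r • y)) 0 ρ =
      Q⁻¹ / en p u x r * en p u x (r * ρ) := by
    intro ρ
    rw [s3 0 ρ, smul_zero, add_zero, hcr, ht]
    field_simp
  have hf : 0 < Q⁻¹ / en p u x r := by positivity
  refine ⟨fun y => c * u (x + r • y), s1 4 (by rw [mul_comm]; exact h4), ?_, ?_, ?_⟩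
  · rw [hen 4, mul_comm r 4]
    calc Q⁻¹ / en p u x r * en p u x (4 * r)
        ≤ Q⁻¹ / en p u x r * (Q * en p u x r) := mul_le_mul_of_nonneg_left e4 hf.le
      _ = 1 := by field_simp
  · rw [hen 1, mul_one]
    field_simp
  · have h5 := s4 1 (a * mg p u x r)
    rw [mul_one] at h5
    rw [h5, d3c_vol hn x r hr.le] at ev
    have h6 : c * r * (a * mg p u x r) ≤ a := by
      have h7 : c * r * mg p u x r ≤ 1 := by
        rw [hcr0, mg, ← Real.mul_rpow ht0.le (by positivity), ht]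
        have h8 : Q⁻¹ * r ^ n / en p u x r * (en p u x r / r ^ n) = Q⁻¹ := by field_simp
        rw [h8]
        exact Real.rpow_le_one (by positivity) (inv_le_one_of_one_le₀ hQ) (by positivity)
      calc c * r * (a * mg p u x r) = a * (c * r * mg p u x r) := by ring
        _ ≤ a * 1 := mul_le_mul_of_nonneg_left h7 ha.le
        _ = a := mul_one a
    have h9 : ENNReal.ofReal (r ^ n) * (ENNReal.ofReal η * volume (ball (0 : E n) 1)) ≤
        ENNReal.ofReal (r ^ n) * volume (ball (0 : E n) 1 ∩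
          {y | ‖gradient (fun y => c * u (x + r • y)) y‖ < c * r * (a * mg p u x r)}) := by
      refine le_trans (le_of_eq ?_) ev.le
      ring
    have h10 := (ENNReal.mul_le_mul_iff_right (by simpa using hrn0) ENNReal.ofReal_ne_top).1 h9
    refine h10.trans (measure_mono ?_)
    rintro y ⟨hy1, hy2⟩
    exact ⟨hy1, lt_of_lt_of_le hy2 h6⟩

/-- The comparison of the sets where the gradients are small (Chebyshev). -/
theorem d3c_cheb {n : ℕ} {p δ : ℝ} (hp : 0 < p) (hp3 : p ≤ 3) (hδ : 0 < δ) (hδ1 : δ ≤ 1)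
    {U h : E n → ℝ} (hU : PB p 0 4 U) (hh : Hrm (ball 0 (13 / 4)) h) {a : ℝ} (ha : a ≤ δ) :
    volume.real (ball (0 : E n) 1 ∩ {y | ‖gradient U y‖ < a}) ≤
      volume.real (ball (0 : E n) 1 ∩ {y | ‖gradient h y‖ ≤ 2 * δ}) +
        (δ ^ (3 : ℝ))⁻¹ * ∫ x in ball (0 : E n) (5 / 2), ‖gradient U x - gradient h x‖ ^ p := by
  obtain ⟨Ω, hΩ, h1, h2⟩ := hU
  have c1 : ContinuousOn (gradient U) (closedBall (0 : E n) (5 / 2)) :=
    (SCP.TEST_.continuousOn_gradient hΩ h2.1).mono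
      ((closedBall_subset_closedBall (by norm_num)).trans h1)
  have c2 : ContinuousOn (gradient h) (closedBall (0 : E n) (5 / 2)) :=
    (SCP.TEST_.continuousOn_gradient isOpen_ball (hh.1.of_le (by exact_mod_cast le_top))).mono
      (closedBall_subset_ball (by norm_num))
  set f : E n → ℝ := fun x => ‖gradient U x - gradient h x‖ ^ p with hf
  have f0 : ∀ x, 0 ≤ f x := fun x => Real.rpow_nonneg (norm_nonneg _) _
  have c3 : ContinuousOn f (closedBall (0 : E n) (5 / 2)) :=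
    (c1.sub c2).norm.rpow_const fun _ _ => Or.inr hp.le
  have i1 : IntegrableOn f (ball (0 : E n) (5 / 2)) :=
    (c3.integrableOn_compact (isCompact_closedBall _ _)).mono_set ball_subset_closedBall
  have i2 : IntegrableOn f (ball (0 : E n) 1) :=
    i1.mono_set (ball_subset_ball (by norm_num))
  have i3 : ∫ x in ball (0 : E n) 1, f x ≤ ∫ x in ball (0 : E n) (5 / 2), f x :=
    setIntegral_mono_set i1 (Eventually.of_forall f0)
      (ball_subset_ball (by norm_num)).eventuallyLE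
  have m1 := mul_meas_ge_le_integral_of_nonneg (μ := volume.restrict (ball (0 : E n) 1))
    (Eventually.of_forall f0) i2 (δ ^ p)
  have hδp : 0 < δ ^ p := Real.rpow_pos_of_pos hδ _
  have m2 : (volume.restrict (ball (0 : E n) 1)).real {x | δ ^ p ≤ f x} =
      volume.real (ball (0 : E n) 1 ∩ {x | δ ^ p ≤ f x}) := by
    rw [Measure.real, Measure.restrict_apply' measurableSet_ball, Measure.real, inter_comm]
  rw [m2] at m1
  have fin : ∀ S : Set (E n), volume (ball (0 : E n) 1 ∩ S) ≠ ⊤ := fun S =>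
    ((measure_mono inter_subset_left).trans_lt measure_ball_lt_top).ne
  have m3 : volume.real (ball (0 : E n) 1 ∩ {y | ‖gradient U y‖ < a}) ≤
      volume.real (ball (0 : E n) 1 ∩ {y | ‖gradient h y‖ ≤ 2 * δ}) +
        volume.real (ball (0 : E n) 1 ∩ {x | δ ^ p ≤ f x}) := by
    refine (measureReal_mono ?_ ?_).trans (measureReal_union_le _ _)
    · rintro y ⟨hy1, hy2⟩
      by_cases hy : ‖gradient h y‖ ≤ 2 * δ
      · exact Or.inl ⟨hy1, hy⟩
      · refine Or.inr ⟨hy1, ?_⟩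
        have h3 : δ ≤ ‖gradient U y - gradient h y‖ := by
          have h4 := norm_sub_norm_le (gradient h y) (gradient U y)
          rw [norm_sub_rev] at h4
          have h5 : ‖gradient U y‖ < a := hy2
          push Not at hy
          linarith
        exact Real.rpow_le_rpow hδ.le h3 hp.le
    · exact measure_union_ne_top (fin _) (fin _)
  have m4 : volume.real (ball (0 : E n) 1 ∩ {x | δ ^ p ≤ f x}) ≤
      (δ ^ p)⁻¹ * ∫ x in ball (0 : E n) (5 / 2), f x := by
    rw [← div_eq_inv_mul, le_div_iff₀ hδp, mul_comm]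
    exact m1.trans i3
  have m5 : (δ ^ p)⁻¹ ≤ (δ ^ (3 : ℝ))⁻¹ :=
    inv_anti₀ (Real.rpow_pos_of_pos hδ _) (Real.rpow_le_rpow_of_exponent_ge hδ hδ1 hp3)
  have m6 : 0 ≤ ∫ x in ball (0 : E n) (5 / 2), f x := integral_nonneg f0
  have m7 := mul_le_mul_of_nonneg_right m5 m6
  linarith

theorem d3c_meas {n : ℕ} (h : E n → ℝ) : Measurable (gradient h) := by
  have h1 : Measurable (fderiv ℝ h) := measurable_fderiv ℝ h
  exact (InnerProductSpace.toDual ℝ (E n)).symm.continuous.measurable.comp h1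

/-- The limit argument: the set where the gradient vanishes is not a null set. -/
theorem d3c_lim {n : ℕ} {h : E n → ℝ} {κ : ℝ}
    (hk : ∀ δ : ℝ, 0 < δ → δ ≤ 1 →
      κ ≤ volume.real (ball (0 : E n) 1 ∩ {y | ‖gradient h y‖ ≤ 2 * δ})) :
    κ ≤ volume.real (ball (0 : E n) 1 ∩ {y | gradient h y = 0}) := by
  set S : ℕ → Set (E n) := fun k =>
    ball (0 : E n) 1 ∩ {y | ‖gradient h y‖ ≤ 2 * (1 / ((k : ℝ) + 1))} with hS
  have hmeas : ∀ k, MeasurableSet (S k) := fun k =>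
    measurableSet_ball.inter (measurableSet_le (d3c_meas h).norm measurable_const)
  have hanti : Antitone S := by
    intro k l hkl y hy
    refine ⟨hy.1, ?_⟩
    have h1 : (1 : ℝ) / ((l : ℝ) + 1) ≤ 1 / ((k : ℝ) + 1) := by
      have h2 : (k : ℝ) ≤ l := by exact_mod_cast hkl
      exact one_div_le_one_div_of_le (by positivity) (by linarith)
    have h3 : ‖gradient h y‖ ≤ 2 * (1 / ((l : ℝ) + 1)) := hy.2
    show ‖gradient h y‖ ≤ 2 * (1 / ((k : ℝ) + 1))
    linarith
  have hfin : volume (S 0) ≠ ⊤ :=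
    ((measure_mono inter_subset_left).trans_lt measure_ball_lt_top).ne
  have hI : (⋂ k, S k) = ball (0 : E n) 1 ∩ {y | gradient h y = 0} := by
    ext y
    simp only [mem_iInter, hS, mem_inter_iff, mem_ofPred_eq]
    constructor
    · intro hy
      refine ⟨(hy 0).1, ?_⟩
      have h1 : Tendsto (fun k : ℕ => 2 * (1 / ((k : ℝ) + 1))) atTop (𝓝 (2 * 0)) :=
        tendsto_one_div_add_atTop_nhds_zero_nat.const_mul 2
      rw [mul_zero] at h1
      have h2 : ‖gradient h y‖ ≤ 0 := ge_of_tendsto h1 (Eventually.of_forall fun k => (hy k).2)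
      exact norm_le_zero_iff.1 h2
    · rintro ⟨h1, h2⟩ k
      refine ⟨h1, ?_⟩
      rw [h2, norm_zero]
      positivity
  have ht := tendsto_measure_iInter_atTop (μ := volume)
    (fun k => (hmeas k).nullMeasurableSet) hanti ⟨0, hfin⟩
  rw [hI] at ht
  have hfin2 : volume (ball (0 : E n) 1 ∩ {y | gradient h y = 0}) ≠ ⊤ :=
    ((measure_mono inter_subset_left).trans_lt measure_ball_lt_top).ne
  have ht2 := (ENNReal.tendsto_toReal hfin2).comp ht
  refine ge_of_tendsto ht2 (Eventually.of_forall fun k => ?_)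
  have hj1 : (1 : ℝ) / ((k : ℝ) + 1) ≤ 1 := by
    rw [div_le_one (by positivity)]
    have : (0 : ℝ) ≤ (k : ℝ) := Nat.cast_nonneg k
    linarith
  exact hk (1 / ((k : ℝ) + 1)) (by positivity) hj1

theorem p_D3C (hS : T_SCL) (hC : T_CL) (hN : T_NUL) : T_D3C := by
  intro n m η hn hη
  set Q : ℝ := 2 ^ m with hQ
  have hQ1 : 1 ≤ Q := one_le_pow₀ (by norm_num)
  have hQ0 : 0 < Q := by linarith
  by_contra hcon
  push Not at hcon
  have key : ∀ j : ℕ, ∃ (p : ℝ) (U : E n → ℝ), |p - 2| < 1 / ((j : ℝ) + 1) ∧ PB p 0 4 U ∧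
      en p U 0 4 ≤ 1 ∧ en p U 0 1 = Q⁻¹ ∧
      ENNReal.ofReal η * volume (ball (0 : E n) 1) ≤
        volume (ball (0 : E n) 1 ∩ {y | ‖gradient U y‖ < 1 / ((j : ℝ) + 1)}) := by
    intro j
    have hj : (0 : ℝ) < 1 / ((j : ℝ) + 1) := by positivity
    obtain ⟨p, hp, u, x, r, hr, h4, e4, e1, ev⟩ := hcon _ _ hj hj
    have hj1 : 1 / ((j : ℝ) + 1) ≤ 1 := by
      rw [div_le_one (by positivity)]
      have : (0 : ℝ) ≤ (j : ℝ) := Nat.cast_nonneg j
      linarith
    have hp0 : 0 < p := by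
      have := (abs_lt.1 hp).1
      linarith
    obtain ⟨U, hU⟩ := d3c_scale hS hn hp0 u x hr hQ1 hj h4 e4 e1 ev
    exact ⟨p, U, hp, hU⟩
  choose p U hp hPB h4 h1 hv using key
  have hj0 := tendsto_one_div_add_atTop_nhds_zero_nat (𝕜 := ℝ)
  have hlim : Tendsto p atTop (𝓝 2) := by
    rw [tendsto_iff_norm_sub_tendsto_zero]
    refine squeeze_zero (fun _ => norm_nonneg _) (fun j => ?_) hj0
    rw [Real.norm_eq_abs]
    exact (hp j).le
  obtain ⟨K, c, h, hK, hH, -, hG, hE⟩ := hC n hn p U hlim hPB h4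
  have v1 : ∫ x in ball (0 : E n) 1, ‖gradient h x‖ ^ 2 = Q⁻¹ := by
    refine tendsto_nhds_unique (hE 1 (by norm_num) (by norm_num)) ?_
    simp only [h1]
    exact tendsto_const_nhds
  have hz := hN n h hn ⟨hH.1.mono (ball_subset_ball (by norm_num)),
    SCP.PHarm.mono hH.2 (ball_subset_ball (by norm_num))⟩ (by rw [v1]; positivity)
  have hfb : volume (ball (0 : E n) 1) ≠ ⊤ := measure_ball_lt_top.ne
  set κ : ℝ := η * volume.real (ball (0 : E n) 1) with hκ
  have hκ0 : 0 < κ := by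
    have h2 : 0 < volume (ball (0 : E n) 1) := measure_ball_pos _ _ (by norm_num)
    exact mul_pos hη (ENNReal.toReal_pos h2.ne' hfb)
  have hv' : ∀ j, κ ≤ volume.real
      (ball (0 : E n) 1 ∩ {y | ‖gradient (U j) y‖ < 1 / ((j : ℝ) + 1)}) := by
    intro j
    have h2 := ENNReal.toReal_mono
      ((measure_mono inter_subset_left).trans_lt measure_ball_lt_top).ne (hv j)
    rwa [ENNReal.toReal_mul, ENNReal.toReal_ofReal hη.le] at h2
  have hfinal := d3c_lim (n := n) (h := h) (κ := κ) (fun δ hδ hδ1 => by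
    have t1 : Tendsto (fun j => volume.real (ball (0 : E n) 1 ∩ {y | ‖gradient h y‖ ≤ 2 * δ}) +
        (δ ^ (3 : ℝ))⁻¹ * ∫ x in ball (0 : E n) (5 / 2),
          ‖gradient (U (K j)) x - gradient h x‖ ^ p (K j)) atTop
        (𝓝 (volume.real (ball (0 : E n) 1 ∩ {y | ‖gradient h y‖ ≤ 2 * δ}) +
          (δ ^ (3 : ℝ))⁻¹ * 0)) := (hG.const_mul _).const_add _
    rw [mul_zero, add_zero] at t1
    refine ge_of_tendsto t1 ?_
    have t2 : ∀ᶠ j in atTop, 1 / ((K j : ℝ) + 1) < δ :=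
      (hj0.comp hK.tendsto_atTop).eventually (gt_mem_nhds hδ)
    filter_upwards [t2] with j hj
    have hp3 := abs_lt.1 (hp (K j))
    have hj1 : 1 / ((K j : ℝ) + 1) ≤ 1 := hj.le.trans hδ1
    exact (hv' (K j)).trans
      (d3c_cheb (by linarith) (by linarith) hδ hδ1 (hPB (K j)) hH hj.le))
  rw [Measure.real, hz, ENNReal.toReal_zero] at hfinal
  linarith

end Pool.Agent.SCN
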