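import Pool.Agent.SCN.P_GRO

/-! # Domination -/

set_option autoImplicit false

open Set MeasureTheory Filter Topology Metric
open scoped RealInnerProductSpace

namespace Pool.Agent.SCN

open Pool.Agent.SCP (E PHarm V)

theorem d3d_PB {n : ℕ} {p : ℝ} {x : E n} {r : ℝ} {u : E n → ℝ} (h : PB p x r u) (a : ℝ) :
    PB p x r (fun y => u y + a) := by
  obtain ⟨Ω, h1, h2, h3⟩ := h
  exact ⟨Ω, h1, h2, SCP.PHarm.add_const h3 a⟩

theorem d3d_en {n : ℕ} (p : ℝ) (x : E n) (r : ℝ) (u : E n → ℝ) (a : ℝ) :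
    en p (fun y => u y + a) x r = en p u x r := by
  unfold en
  simp only [SCP.gradient_add_const]

theorem d3d_mg {n : ℕ} {p : ℝ} (hp : 0 < p) {x : E n} {r : ℝ} (hr : 0 < r) (u : E n → ℝ) :
    mg p u x r ^ p = en p u x r / r ^ n := by
  unfold mg
  rw [← Real.rpow_mul (div_nonneg (gro_nonneg u x r) (by positivity)), one_div,
    inv_mul_cancel₀ hp.ne', Real.rpow_one]

theorem d3d_mg0 {n : ℕ} {p : ℝ} {x : E n} {r : ℝ} (hr : 0 < r) (u : E n → ℝ) :
    0 ≤ mg p u x r :=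
  Real.rpow_nonneg (div_nonneg (gro_nonneg u x r) (by positivity)) _

/-- Rescaling to the ball of radius four. -/
theorem d3d_scale (hS : T_SCL) {n : ℕ} {p G L : ℝ} (hp : 1 ≤ p) (hp3 : p ≤ 3) (hG : 1 ≤ G)
    (hL : 1 ≤ L) (u v : E n → ℝ) (x : E n) {r : ℝ} (hr : 0 < r) (hu : PB p x (2 * r) u)
    (hv : PB p x (2 * r) v) (h0 : u x = v x)
    (hs : (∀ y ∈ ball x (2 * r), u y ≤ v y) ∨ ∀ y ∈ ball x (2 * r), v y ≤ u y)
    (hm : mg p v x (2 * r) ≤ G * mg p v x r) (hl : L * mg p u x (2 * r) < mg p v x r) :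
    ∃ U W : E n → ℝ, PB p 0 4 U ∧ PB p 0 4 W ∧ U 0 = 0 ∧ W 0 = 0 ∧
      ((∀ y ∈ ball (0 : E n) 4, U y ≤ W y) ∨ ∀ y ∈ ball (0 : E n) 4, W y ≤ U y) ∧
      en p W 0 4 ≤ 1 ∧ (2 ^ n * G ^ 3)⁻¹ ≤ en p W 0 2 ∧ en p U 0 4 ≤ 2 ^ n / L := by
  have hp0 : 0 < p := by linarith
  have h2r : 0 < 2 * r := by positivity
  have hrn : 0 < r ^ n := by positivity
  have hmu := d3d_mg0 (p := p) (x := x) h2r u
  have hmv := d3d_mg0 (p := p) (x := x) h2r v
  have hpos : 0 < mg p v x r := lt_of_le_of_lt (by positivity) hl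
  have ev : 0 < en p v x r := by
    have h1 := d3d_mg hp0 (x := x) hr v
    have h2 : 0 < mg p v x r ^ p := Real.rpow_pos_of_pos hpos _
    rw [h1] at h2
    exact (div_pos_iff_of_pos_right hrn).1 h2
  have hmono : en p v x r ≤ en p v x (2 * r) := gro_mono hp0.le hv (by linarith)
  have Ev : 0 < en p v x (2 * r) := ev.trans_le hmono
  have k1 : en p v x (2 * r) ≤ 2 ^ n * G ^ 3 * en p v x r := by
    have h1 := Real.rpow_le_rpow hmv hm hp0.le
    rw [Real.mul_rpow (by linarith) hpos.le, d3d_mg hp0 h2r, d3d_mg hp0 hr, mul_pow] at h1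
    have h2 : G ^ p ≤ G ^ (3 : ℕ) := by
      rw [← Real.rpow_natCast]
      exact Real.rpow_le_rpow_of_exponent_le hG (by push_cast; exact hp3)
    have h3 : en p v x (2 * r) / (2 ^ n * r ^ n) ≤ G ^ 3 * (en p v x r / r ^ n) :=
      h1.trans (mul_le_mul_of_nonneg_right h2 (by positivity))
    rw [div_le_iff₀ (by positivity)] at h3
    calc en p v x (2 * r) ≤ G ^ 3 * (en p v x r / r ^ n) * (2 ^ n * r ^ n) := h3
      _ = 2 ^ n * G ^ 3 * en p v x r := by field_simp
  have k2 : L * en p u x (2 * r) ≤ 2 ^ n * en p v x r := by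
    have h1 := Real.rpow_le_rpow (by positivity) hl.le hp0.le
    rw [Real.mul_rpow (by linarith) hmu, d3d_mg hp0 h2r, d3d_mg hp0 hr, mul_pow] at h1
    have h2 : L ≤ L ^ p := by
      calc L = L ^ (1 : ℝ) := (Real.rpow_one L).symm
        _ ≤ L ^ p := Real.rpow_le_rpow_of_exponent_le hL hp
    have h4 := gro_nonneg (p := p) u x (2 * r)
    have h3 : L * (en p u x (2 * r) / (2 ^ n * r ^ n)) ≤ en p v x r / r ^ n :=
      (mul_le_mul_of_nonneg_right h2 (by positivity)).trans h1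
    have h5 := mul_le_mul_of_nonneg_right h3 (show 0 ≤ 2 ^ n * r ^ n by positivity)
    calc L * en p u x (2 * r)
        = L * (en p u x (2 * r) / (2 ^ n * r ^ n)) * (2 ^ n * r ^ n) := by field_simp
      _ ≤ en p v x r / r ^ n * (2 ^ n * r ^ n) := h5
      _ = 2 ^ n * en p v x r := by field_simp
  set r' : ℝ := r / 2 with hr'
  have hr'0 : 0 < r' := by positivity
  set t : ℝ := r' ^ n / en p v x (2 * r) with ht
  have ht0 : 0 < t := by positivity
  have htp : 0 < t ^ (1 / p) := Real.rpow_pos_of_pos ht0 _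
  set c : ℝ := t ^ (1 / p) / r' with hc
  have hc0 : 0 < c := div_pos htp hr'0
  have hcr : (c * r') ^ p = t := by
    rw [hc, div_mul_cancel₀ _ hr'0.ne', ← Real.rpow_mul ht0.le, one_div, inv_mul_cancel₀ hp0.ne',
      Real.rpow_one]
  have hen : ∀ (w : E n → ℝ) (ρ : ℝ), en p (fun y => c * (w (x + r' • y) + -(u x))) 0 ρ =
      en p w x (r' * ρ) / en p v x (2 * r) := by
    intro w ρ
    obtain ⟨_, _, s3, _⟩ := hS n p (fun z => w z + -(u x)) x r' c hr'0 hc0
    rw [s3 0 ρ, smul_zero, add_zero, hcr, ht, d3d_en]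
    field_simp
  have hPB : ∀ w : E n → ℝ, PB p x (2 * r) w →
      PB p 0 4 (fun y => c * (w (x + r' • y) + -(u x))) := by
    intro w hw
    obtain ⟨s1, _, _, _⟩ := hS n p (fun z => w z + -(u x)) x r' c hr'0 hc0
    refine s1 4 ?_
    have e : r' * 4 = 2 * r := by rw [hr']; ring
    rw [e]
    exact d3d_PB hw _
  have hmem : ∀ y ∈ ball (0 : E n) 4, x + r' • y ∈ ball x (2 * r) := by
    intro y hy
    rw [mem_ball, dist_zero_right] at hy
    rw [mem_ball, dist_eq_norm, add_sub_cancel_left, norm_smul, Real.norm_eq_abs,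
      abs_of_pos hr'0]
    nlinarith
  refine ⟨fun y => c * (u (x + r' • y) + -(u x)), fun y => c * (v (x + r' • y) + -(u x)),
    hPB u hu, hPB v hv, ?_, ?_, ?_, ?_, ?_, ?_⟩
  · simp
  · simp [h0]
  · rcases hs with hs | hs
    · left
      intro y hy
      have := hs _ (hmem y hy)
      exact mul_le_mul_of_nonneg_left (by linarith) hc0.le
    · right
      intro y hy
      have := hs _ (hmem y hy)
      exact mul_le_mul_of_nonneg_left (by linarith) hc0.le
  · rw [hen v 4, show r' * 4 = 2 * r by rw [hr']; ring, div_self Ev.ne']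
  · rw [hen v 2, show r' * 2 = r by rw [hr']; ring, le_div_iff₀ Ev,
      inv_mul_le_iff₀ (by positivity)]
    exact k1
  · rw [hen u 4, show r' * 4 = 2 * r by rw [hr']; ring, div_le_div_iff₀ Ev (by linarith)]
    calc en p u x (2 * r) * L = L * en p u x (2 * r) := mul_comm _ _
      _ ≤ 2 ^ n * en p v x r := k2
      _ ≤ 2 ^ n * en p v x (2 * r) := mul_le_mul_of_nonneg_left hmono (by positivity)

/-! ## Averages -/

theorem d3d_cov {n : ℕ} (G : E n → ℝ) {r : ℝ} (hr : 0 < r) :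
    ∫ y in ball (0 : E n) 1, G (r • y) = (r ^ n)⁻¹ * ∫ z in ball (0 : E n) r, G z := by
  have h := Measure.setIntegral_comp_smul_of_pos (volume : Measure (E n)) G (ball (0 : E n) 1) hr
  rw [h, finrank_euclideanSpace_fin, _root_.smul_ball hr.ne', smul_zero, Real.norm_eq_abs,
    abs_of_pos hr, mul_one, smul_eq_mul]

theorem d3d_bd {n : ℕ} {φ Φ : E n → ℝ} (hK : Ker φ Φ) : ∃ M : ℝ, 0 < M ∧ ∀ y, φ y ≤ M := by
  have hc : HasCompactSupport φ := by
    refine HasCompactSupport.intro (isCompact_closedBall (0 : E n) 1) fun y hy => ?_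
    refine hK.supp y ?_
    rw [mem_closedBall, dist_zero_right] at hy
    exact (not_le.1 hy).le
  obtain ⟨M, hM⟩ := hc.exists_bound_of_continuous hK.smooth.continuous
  refine ⟨max M 1, by positivity, fun y => ?_⟩
  exact (le_abs_self _).trans ((hM y).trans (le_max_left _ _))

theorem d3d_nn {n : ℕ} {φ Φ : E n → ℝ} (hK : Ker φ Φ) (y : E n) : 0 ≤ φ y := by
  rcases lt_or_ge ‖y‖ 1 with h | h
  · exact (hK.pos y h).le
  · exact (hK.supp y h).ge

theorem d3d_set {n : ℕ} {φ Φ : E n → ℝ} (hK : Ker φ Φ) (g : E n → ℝ) :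
    ∫ y in ball (0 : E n) 1, φ y * g y = ∫ y, φ y * g y := by
  refine setIntegral_eq_integral_of_forall_compl_eq_zero fun y hy => ?_
  rw [mem_ball, dist_zero_right, not_lt] at hy
  rw [hK.supp y hy, zero_mul]

theorem d3d_cv {n : ℕ} {φ Φ : E n → ℝ} (hK : Ker φ Φ) (f : E n → ℝ) :
    cv φ 2 f 0 = ∫ y in ball (0 : E n) 1, φ y * f ((2 : ℝ) • y) := by
  rw [d3d_set hK (fun y => f ((2 : ℝ) • y))]
  unfold cv
  simp only [zero_add]

theorem d3d_one {n : ℕ} {φ Φ : E n → ℝ} (hK : Ker φ Φ) :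
    ∫ y in ball (0 : E n) 1, φ y = 1 := by
  have h := d3d_set hK (fun _ => (1 : ℝ))
  simp only [mul_one] at h
  rw [h, hK.one]

theorem d3d_comp {n : ℕ} {f : E n → ℝ} (hf : ContinuousOn f (closedBall (0 : E n) 2)) :
    ContinuousOn (fun y : E n => f ((2 : ℝ) • y)) (closedBall (0 : E n) 1) := by
  refine hf.comp (by fun_prop) fun y hy => ?_
  rw [mem_closedBall, dist_zero_right] at hy ⊢
  rw [norm_smul, Real.norm_eq_abs, abs_of_pos (by norm_num : (0 : ℝ) < 2)]
  linarith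

theorem d3d_int {n : ℕ} {g : E n → ℝ} (hg : ContinuousOn g (closedBall (0 : E n) 1)) :
    IntegrableOn g (ball (0 : E n) 1) :=
  (hg.integrableOn_compact (isCompact_closedBall _ _)).mono_set ball_subset_closedBall

/-- The oscillation about the average. -/
theorem d3d_osc {n : ℕ} {φ Φ : E n → ℝ} (hK : Ker φ Φ) {M : ℝ} (hM0 : 0 < M)
    (hM : ∀ y, φ y ≤ M) {f : E n → ℝ} (hf : ContinuousOn f (closedBall (0 : E n) 2)) :
    ∫ y in ball (0 : E n) 1, φ y * |f ((2 : ℝ) • y) - cv φ 2 f 0| ≤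
      M ^ 2 * (((2 : ℝ) ^ n)⁻¹ * (((2 : ℝ) ^ n)⁻¹ *
        ∫ y in ball (0 : E n) 2, ∫ z in ball (0 : E n) 2, |f y - f z|)) := by
  have hφ : ContinuousOn φ (closedBall (0 : E n) 1) := hK.smooth.continuous.continuousOn
  have hf2 := d3d_comp hf
  set g : E n → ℝ := fun w => ∫ z in ball (0 : E n) 2, |f w - f z| with hg
  obtain ⟨A, hA⟩ := (isCompact_closedBall (0 : E n) 2).exists_bound_of_continuousOn hf
  have hsub : ball (0 : E n) 2 ⊆ closedBall (0 : E n) 2 := ball_subset_closedBall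
  have hgc : ContinuousOn g (closedBall (0 : E n) 2) := by
    rw [hg]
    refine continuousOn_of_dominated (bound := fun _ => A + A) ?_ ?_ ?_ ?_
    · intro w _
      exact ((continuousOn_const.sub (hf.mono hsub)).abs).aestronglyMeasurable measurableSet_ball
    · intro w hw
      refine (ae_restrict_iff' measurableSet_ball).2 (Eventually.of_forall fun z hz => ?_)
      rw [Real.norm_eq_abs, abs_abs]
      refine (abs_sub _ _).trans ?_
      exact add_le_add (hA w hw) (hA z (hsub hz))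
    · refine integrableOn_const ?_
      exact measure_ball_lt_top.ne
    · refine Eventually.of_forall fun z => ?_
      exact (hf.sub continuousOn_const).abs
  have key : ∀ y ∈ ball (0 : E n) 1, φ y * |f ((2 : ℝ) • y) - cv φ 2 f 0| ≤
      M ^ 2 * (((2 : ℝ) ^ n)⁻¹ * g ((2 : ℝ) • y)) := by
    intro y hy
    have hi1 : IntegrableOn (fun z => φ z * f ((2 : ℝ) • y)) (ball (0 : E n) 1) :=
      d3d_int (hφ.mul continuousOn_const)
    have hi2 : IntegrableOn (fun z => φ z * f ((2 : ℝ) • z)) (ball (0 : E n) 1) :=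
      d3d_int (hφ.mul hf2)
    have hi3 : IntegrableOn (fun z : E n => |f ((2 : ℝ) • y) - f ((2 : ℝ) • z)|)
        (ball (0 : E n) 1) := d3d_int ((continuousOn_const.sub hf2).abs)
    have e1 : f ((2 : ℝ) • y) - cv φ 2 f 0 =
        ∫ z in ball (0 : E n) 1, φ z * (f ((2 : ℝ) • y) - f ((2 : ℝ) • z)) := by
      rw [d3d_cv hK]
      have e2 : f ((2 : ℝ) • y) = ∫ z in ball (0 : E n) 1, φ z * f ((2 : ℝ) • y) := by
        rw [integral_mul_const, d3d_one hK, one_mul]
      rw [e2, ← integral_sub hi1 hi2]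
      congr 1
      funext z
      rw [← e2]
      ring
    have e3 : |f ((2 : ℝ) • y) - cv φ 2 f 0| ≤
        M * ∫ z in ball (0 : E n) 1, |f ((2 : ℝ) • y) - f ((2 : ℝ) • z)| := by
      rw [e1, ← integral_const_mul]
      refine (abs_integral_le_integral_abs).trans ?_
      refine integral_mono_of_nonneg (Eventually.of_forall fun z => abs_nonneg _)
        (hi3.const_mul M) (Eventually.of_forall fun z => ?_)
      show |φ z * (f ((2 : ℝ) • y) - f ((2 : ℝ) • z))| ≤ M * |f ((2 : ℝ) • y) - f ((2 : ℝ) • z)|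
      rw [abs_mul, abs_of_nonneg (d3d_nn hK z)]
      exact mul_le_mul_of_nonneg_right (hM z) (abs_nonneg _)
    have e4 : ∫ z in ball (0 : E n) 1, |f ((2 : ℝ) • y) - f ((2 : ℝ) • z)| =
        ((2 : ℝ) ^ n)⁻¹ * g ((2 : ℝ) • y) :=
      d3d_cov (fun w => |f ((2 : ℝ) • y) - f w|) (by norm_num)
    rw [e4] at e3
    have hg0 : 0 ≤ g ((2 : ℝ) • y) := integral_nonneg fun z => abs_nonneg _
    calc φ y * |f ((2 : ℝ) • y) - cv φ 2 f 0|
        ≤ M * (M * (((2 : ℝ) ^ n)⁻¹ * g ((2 : ℝ) • y))) :=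
          mul_le_mul (hM y) e3 (abs_nonneg _) hM0.le
      _ = M ^ 2 * (((2 : ℝ) ^ n)⁻¹ * g ((2 : ℝ) • y)) := by ring
  have hgi : IntegrableOn (fun y : E n => g ((2 : ℝ) • y)) (ball (0 : E n) 1) :=
    d3d_int (d3d_comp hgc)
  have e5 : ∫ y in ball (0 : E n) 1, g ((2 : ℝ) • y) =
      ((2 : ℝ) ^ n)⁻¹ * ∫ y in ball (0 : E n) 2, g y := d3d_cov g (by norm_num)
  rw [← e5, ← integral_const_mul, ← integral_const_mul]
  refine setIntegral_mono_on ?_ ((hgi.const_mul _).const_mul _) measurableSet_ball key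
  exact d3d_int (hφ.mul (hf2.sub continuousOn_const).abs)

/-- The `L¹` norm of the gradient. -/
theorem d3d_l1 {n : ℕ} {p : ℝ} (hp : 1 ≤ p) {U : E n → ℝ} (hU : PB p 0 4 U) {δ : ℝ}
    (hδ : 0 < δ) : ∫ y in ball (0 : E n) 2, ‖gradient U y‖ ≤
      δ * volume.real (ball (0 : E n) 2) + δ ^ (1 - p) * en p U 0 4 := by
  have h2 : PB p 0 2 U := gro_PB hU (by norm_num)
  have hi := gro_int (by linarith) h2
  have hi1 : IntegrableOn (fun y => ‖gradient U y‖) (ball (0 : E n) 2) := by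
    have h := gro_int (p := 1) (by norm_num) (x := (0 : E n)) (r := 2) (u := U)
    obtain ⟨Ω, h1, h2, h3⟩ := h2
    have hc : ContinuousOn (fun y => ‖gradient U y‖) (closedBall (0 : E n) 2) :=
      ((gro_cont h1 h3.1).mono h2).norm
    exact (hc.integrableOn_compact (isCompact_closedBall _ _)).mono_set ball_subset_closedBall
  have hic : IntegrableOn (fun _ : E n => δ) (ball (0 : E n) 2) :=
    integrableOn_const measure_ball_lt_top.ne
  calc ∫ y in ball (0 : E n) 2, ‖gradient U y‖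
      ≤ ∫ y in ball (0 : E n) 2, (δ + δ ^ (1 - p) * ‖gradient U y‖ ^ p) := by
        refine integral_mono hi1 (hic.add (hi.const_mul _)) fun y => ?_
        show ‖gradient U y‖ ≤ δ + δ ^ (1 - p) * ‖gradient U y‖ ^ p
        set s := ‖gradient U y‖ with hs
        have hs0 : 0 ≤ s := norm_nonneg _
        rcases le_or_gt s δ with h | h
        · have : 0 ≤ δ ^ (1 - p) * s ^ p := by positivity
          linarith
        · have hs1 : 0 < s := hδ.trans h
          have e1 : δ ^ (1 - p) * s ^ p = s * (s / δ) ^ (p - 1) := by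
            rw [Real.div_rpow hs0 hδ.le, show (1 - p) = -(p - 1) by ring, Real.rpow_neg hδ.le,
              show s ^ p = s ^ (1 + (p - 1)) by congr 1; ring, Real.rpow_add hs1, Real.rpow_one]
            field_simp
          have e2 : 1 ≤ (s / δ) ^ (p - 1) :=
            Real.one_le_rpow ((one_le_div hδ).2 h.le) (by linarith)
          rw [e1]
          nlinarith
    _ = δ * volume.real (ball (0 : E n) 2) + δ ^ (1 - p) * en p U 0 2 := by
        rw [integral_add hic (hi.const_mul _), integral_const_mul, setIntegral_const, smul_eq_mul,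
          mul_comm δ]
        rfl
    _ ≤ δ * volume.real (ball (0 : E n) 2) + δ ^ (1 - p) * en p U 0 4 := by
        have := gro_mono (by linarith) hU (show (2 : ℝ) ≤ 4 by norm_num)
        gcongr

theorem d3d_mg1 {n : ℕ} {p : ℝ} (hp : 1 ≤ p) {U : E n → ℝ} (hU : PB p 0 4 U)
    (he : en p U 0 4 ≤ 1) : mg p U 0 2 ≤ 1 := by
  unfold mg
  have h1 : en p U 0 2 ≤ 1 := (gro_mono (by linarith) hU (by norm_num)).trans he
  have h2 := gro_nonneg (p := p) U 0 2
  have h3 : (1 : ℝ) ≤ 2 ^ n := one_le_pow₀ (by norm_num)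
  refine Real.rpow_le_one (by positivity) ?_ (by positivity)
  rw [div_le_one (by positivity)]
  linarith

theorem d3d_cont {n : ℕ} {p : ℝ} {U : E n → ℝ} (hU : PB p 0 4 U) :
    ContinuousOn U (closedBall (0 : E n) 2) := by
  obtain ⟨Ω, h1, h2, h3⟩ := hU
  exact h3.1.continuousOn.mono ((closedBall_subset_closedBall (by norm_num)).trans h2)

/-- The averages of the functions tend to zero. -/
theorem d3d_av {n : ℕ} {φ : E n → ℝ} {C e : ℝ} (hC : 0 < C)
    (hM : ∀ p : ℝ, |p - 2| < e → ∀ (v : E n → ℝ) (x : E n) (r : ℝ), 0 < r → PB p x r v →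
      |cv φ r v x - v x| ≤ C * |p - 2| * r * mg p v x r)
    {p : ℕ → ℝ} {U : ℕ → E n → ℝ} (hp : Tendsto p atTop (𝓝 2)) (hpe : ∀ j, |p j - 2| < e)
    (hp1 : ∀ j, 1 ≤ p j) (hU : ∀ j, PB (p j) 0 4 (U j)) (h0 : ∀ j, U j 0 = 0)
    (he : ∀ᶠ j in atTop, en (p j) (U j) 0 4 ≤ 1) :
    Tendsto (fun j => |cv φ 2 (U j) 0|) atTop (𝓝 0) := by
  have h1 : Tendsto (fun j => C * |p j - 2| * 2) atTop (𝓝 0) := by
    have h2 : Tendsto (fun j => C * |p j - 2| * 2) atTop (𝓝 (C * |(2 : ℝ) - 2| * 2)) :=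
      (((hp.sub_const 2).abs).const_mul C).mul_const 2
    simpa using h2
  refine squeeze_zero' (Eventually.of_forall fun j => abs_nonneg _) ?_ h1
  filter_upwards [he] with j hj
  have h3 := hM (p j) (hpe j) (U j) 0 2 (by norm_num) (gro_PB (hU j) (by norm_num))
  rw [h0 j, sub_zero] at h3
  have h4 := d3d_mg1 (hp1 j) (hU j) hj
  refine h3.trans ?_
  have h5 : 0 ≤ C * |p j - 2| * 2 := by positivity
  nlinarith

theorem d3d_ev {a : ℕ → ℝ} (h : Tendsto a atTop (𝓝 0)) : ∀ᶠ j in atTop, a j ≤ 1 :=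
  (h.eventually (gt_mem_nhds one_pos)).mono fun _ h => le_of_lt h

/-- The weighted `L¹` norms of functions with small energy tend to zero. -/
theorem d3d_small {n : ℕ} {φ Φ : E n → ℝ} (hK : Ker φ Φ) (hPOI : T_POI)
    {p : ℕ → ℝ} {U : ℕ → E n → ℝ} (hp : Tendsto p atTop (𝓝 2))
    (hp1 : ∀ j, 1 ≤ p j) (hU : ∀ j, PB (p j) 0 4 (U j))
    (he : Tendsto (fun j => en (p j) (U j) 0 4) atTop (𝓝 0))
    (ha : Tendsto (fun j => |cv φ 2 (U j) 0|) atTop (𝓝 0)) :
    Tendsto (fun j => ∫ y in ball (0 : E n) 1, φ y * |U j ((2 : ℝ) • y)|) atTop (𝓝 0) := by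
  obtain ⟨M, hM0, hM⟩ := d3d_bd hK
  obtain ⟨C, hC, hP⟩ := hPOI n
  have g0 : Tendsto (fun j => ∫ y in ball (0 : E n) 2, ‖gradient (U j) y‖) atTop (𝓝 0) := by
    rw [tendsto_order]
    refine ⟨fun a ha => Eventually.of_forall fun j => lt_of_lt_of_le ha
      (integral_nonneg fun y => norm_nonneg _), fun a ha' => ?_⟩
    set v := volume.real (ball (0 : E n) 2) with hv
    have hv0 : 0 ≤ v := measureReal_nonneg
    set δ : ℝ := a / (2 * (v + 1)) with hδ
    have hδ0 : 0 < δ := by positivity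
    have h1 : Tendsto (fun j => δ ^ (1 - p j) * en (p j) (U j) 0 4) atTop (𝓝 0) := by
      have h2 : Tendsto (fun j => δ ^ (1 - p j)) atTop (𝓝 (δ ^ ((1 : ℝ) - 2))) :=
        (Real.continuousAt_const_rpow hδ0.ne').tendsto.comp (hp.const_sub 1)
      have h3 := h2.mul he
      rwa [mul_zero] at h3
    have h4 : ∀ᶠ j in atTop, δ ^ (1 - p j) * en (p j) (U j) 0 4 < a / 2 :=
      h1.eventually (gt_mem_nhds (by positivity))
    filter_upwards [h4] with j hj
    have h5 := d3d_l1 (hp1 j) (hU j) hδ0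
    have h6 : δ * v ≤ a / 2 := by
      rw [hδ, div_mul_eq_mul_div, div_le_div_iff₀ (by positivity) (by norm_num)]
      nlinarith
    linarith
  have g1 : Tendsto (fun j => M ^ 2 * (((2 : ℝ) ^ n)⁻¹ * (((2 : ℝ) ^ n)⁻¹ *
      (C * 2 ^ (n + 1) * ∫ y in ball (0 : E n) 2, ‖gradient (U j) y‖))) + |cv φ 2 (U j) 0|)
      atTop (𝓝 0) := by
    have h := ((((g0.const_mul (C * 2 ^ (n + 1))).const_mul (((2 : ℝ) ^ n)⁻¹)).const_mul
      (((2 : ℝ) ^ n)⁻¹)).const_mul (M ^ 2)).add ha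
    simpa using h
  refine squeeze_zero (fun j => ?_) (fun j => ?_) g1
  · exact integral_nonneg fun y => mul_nonneg (d3d_nn hK y) (abs_nonneg _)
  · have hc := d3d_cont (hU j)
    have hφ : ContinuousOn φ (closedBall (0 : E n) 1) := hK.smooth.continuous.continuousOn
    have hc2 := d3d_comp hc
    have h1 := d3d_osc hK hM0 hM hc
    obtain ⟨Ω, o1, o2, o3⟩ := hU j
    have h2 := hP Ω (U j) 0 2 o1 o3.1 (by norm_num)
      ((closedBall_subset_closedBall (by norm_num)).trans o2)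
    have i1 : IntegrableOn (fun y => φ y * |U j ((2 : ℝ) • y) - cv φ 2 (U j) 0|)
        (ball (0 : E n) 1) := d3d_int (hφ.mul (hc2.sub continuousOn_const).abs)
    have i2 : IntegrableOn (fun y => φ y * |cv φ 2 (U j) 0|) (ball (0 : E n) 1) :=
      d3d_int (hφ.mul continuousOn_const)
    calc ∫ y in ball (0 : E n) 1, φ y * |U j ((2 : ℝ) • y)|
        ≤ ∫ y in ball (0 : E n) 1, (φ y * |U j ((2 : ℝ) • y) - cv φ 2 (U j) 0| +
            φ y * |cv φ 2 (U j) 0|) := by
          refine integral_mono (d3d_int (hφ.mul hc2.abs)) (i1.add i2) fun y => ?_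
          show φ y * |U j ((2 : ℝ) • y)| ≤ φ y * |U j ((2 : ℝ) • y) - cv φ 2 (U j) 0| +
            φ y * |cv φ 2 (U j) 0|
          rw [← mul_add]
          refine mul_le_mul_of_nonneg_left ?_ (d3d_nn hK y)
          have := abs_add_le (U j ((2 : ℝ) • y) - cv φ 2 (U j) 0) (cv φ 2 (U j) 0)
          rwa [sub_add_cancel] at this
      _ = (∫ y in ball (0 : E n) 1, φ y * |U j ((2 : ℝ) • y) - cv φ 2 (U j) 0|) +
            |cv φ 2 (U j) 0| := by
          rw [integral_add i1 i2, integral_mul_const, d3d_one hK, one_mul]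
      _ ≤ _ := by
          gcongr
          refine h1.trans ?_
          gcongr

/-- The difference has one sign, so its weighted `L¹` norm is the average. -/
theorem d3d_sign {n : ℕ} {φ Φ : E n → ℝ} (hK : Ker φ Φ) {U W : E n → ℝ}
    (hU : ContinuousOn U (closedBall (0 : E n) 2)) (hW : ContinuousOn W (closedBall (0 : E n) 2))
    (hs : (∀ y ∈ ball (0 : E n) 4, U y ≤ W y) ∨ ∀ y ∈ ball (0 : E n) 4, W y ≤ U y) :
    ∫ y in ball (0 : E n) 1, φ y * |W ((2 : ℝ) • y)| ≤
      |cv φ 2 W 0| + |cv φ 2 U 0| + ∫ y in ball (0 : E n) 1, φ y * |U ((2 : ℝ) • y)| := by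
  have hφ : ContinuousOn φ (closedBall (0 : E n) 1) := hK.smooth.continuous.continuousOn
  have hU2 := d3d_comp hU
  have hW2 := d3d_comp hW
  have iU : IntegrableOn (fun y => φ y * U ((2 : ℝ) • y)) (ball (0 : E n) 1) :=
    d3d_int (hφ.mul hU2)
  have iW : IntegrableOn (fun y => φ y * W ((2 : ℝ) • y)) (ball (0 : E n) 1) :=
    d3d_int (hφ.mul hW2)
  have iA : IntegrableOn (fun y => φ y * |U ((2 : ℝ) • y)|) (ball (0 : E n) 1) :=
    d3d_int (hφ.mul hU2.abs)
  have iD : IntegrableOn (fun y => φ y * |W ((2 : ℝ) • y) - U ((2 : ℝ) • y)|)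
      (ball (0 : E n) 1) := d3d_int (hφ.mul (hW2.sub hU2).abs)
  have hmem : ∀ y ∈ ball (0 : E n) 1, (2 : ℝ) • y ∈ ball (0 : E n) 4 := by
    intro y hy
    rw [mem_ball, dist_zero_right] at hy ⊢
    rw [norm_smul, Real.norm_eq_abs, abs_of_pos (by norm_num : (0 : ℝ) < 2)]
    linarith
  have key : ∫ y in ball (0 : E n) 1, φ y * |W ((2 : ℝ) • y) - U ((2 : ℝ) • y)| =
      |cv φ 2 W 0 - cv φ 2 U 0| := by
    rw [d3d_cv hK, d3d_cv hK, ← integral_sub iW iU]
    rcases hs with hs | hs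
    · have e : ∫ y in ball (0 : E n) 1, (φ y * W ((2 : ℝ) • y) - φ y * U ((2 : ℝ) • y)) =
          ∫ y in ball (0 : E n) 1, φ y * |W ((2 : ℝ) • y) - U ((2 : ℝ) • y)| := by
        refine setIntegral_congr_fun measurableSet_ball fun y hy => ?_
        have := hs _ (hmem y hy)
        show φ y * W ((2 : ℝ) • y) - φ y * U ((2 : ℝ) • y) =
          φ y * |W ((2 : ℝ) • y) - U ((2 : ℝ) • y)|
        rw [abs_of_nonneg (by linarith)]
        ring
      rw [e, abs_of_nonneg]
      exact integral_nonneg fun y => mul_nonneg (d3d_nn hK y) (abs_nonneg _)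
    · have e : ∫ y in ball (0 : E n) 1, (φ y * W ((2 : ℝ) • y) - φ y * U ((2 : ℝ) • y)) =
          -∫ y in ball (0 : E n) 1, φ y * |W ((2 : ℝ) • y) - U ((2 : ℝ) • y)| := by
        rw [← integral_neg]
        refine setIntegral_congr_fun measurableSet_ball fun y hy => ?_
        have := hs _ (hmem y hy)
        show φ y * W ((2 : ℝ) • y) - φ y * U ((2 : ℝ) • y) =
          -(φ y * |W ((2 : ℝ) • y) - U ((2 : ℝ) • y)|)
        rw [abs_of_nonpos (by linarith)]
        ring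
      rw [e, abs_neg, abs_of_nonneg]
      exact integral_nonneg fun y => mul_nonneg (d3d_nn hK y) (abs_nonneg _)
  calc ∫ y in ball (0 : E n) 1, φ y * |W ((2 : ℝ) • y)|
      ≤ ∫ y in ball (0 : E n) 1, (φ y * |W ((2 : ℝ) • y) - U ((2 : ℝ) • y)| +
          φ y * |U ((2 : ℝ) • y)|) := by
        refine integral_mono (d3d_int (hφ.mul hW2.abs)) (iD.add iA) fun y => ?_
        show φ y * |W ((2 : ℝ) • y)| ≤ φ y * |W ((2 : ℝ) • y) - U ((2 : ℝ) • y)| +
          φ y * |U ((2 : ℝ) • y)|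
        rw [← mul_add]
        refine mul_le_mul_of_nonneg_left ?_ (d3d_nn hK y)
        have := abs_add_le (W ((2 : ℝ) • y) - U ((2 : ℝ) • y)) (U ((2 : ℝ) • y))
        rwa [sub_add_cancel] at this
    _ = |cv φ 2 W 0 - cv φ 2 U 0| + ∫ y in ball (0 : E n) 1, φ y * |U ((2 : ℝ) • y)| := by
        rw [integral_add iD iA, key]
    _ ≤ _ := by
        gcongr
        exact abs_sub _ _

/-- The limit function is constant. -/
theorem d3d_lim {n : ℕ} {φ Φ : E n → ℝ} (hK : Ker φ Φ) {W : ℕ → E n → ℝ} {c : ℕ → ℝ}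
    {h : E n → ℝ} (hW : ∀ j, ContinuousOn (W j) (closedBall (0 : E n) (5 / 2)))
    (hh : ContinuousOn h (closedBall (0 : E n) (5 / 2)))
    (h1 : Tendsto (fun j => ∫ x in ball (0 : E n) (5 / 2), |W j x - c j - h x|) atTop (𝓝 0))
    (h2 : Tendsto (fun j => ∫ y in ball (0 : E n) 1, φ y * |W j ((2 : ℝ) • y)|) atTop (𝓝 0)) :
    ∃ b : ℝ, ∀ z ∈ ball (0 : E n) 2, h z = b := by
  obtain ⟨M, hM0, hM⟩ := d3d_bd hK
  have hφ : ContinuousOn φ (closedBall (0 : E n) 1) := hK.smooth.continuous.continuousOn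
  have hs : closedBall (0 : E n) 2 ⊆ closedBall (0 : E n) (5 / 2) :=
    closedBall_subset_closedBall (by norm_num)
  have hh2 := d3d_comp (hh.mono hs)
  set b : ℝ := cv φ 2 h 0 with hb
  have i0 : IntegrableOn (fun y => φ y * h ((2 : ℝ) • y)) (ball (0 : E n) 1) :=
    d3d_int (hφ.mul hh2)
  have k1 : ∀ j, ∫ y in ball (0 : E n) 1, φ y * |h ((2 : ℝ) • y) + c j| ≤
      M * (((2 : ℝ) ^ n)⁻¹ * ∫ x in ball (0 : E n) (5 / 2), |W j x - c j - h x|) +
        ∫ y in ball (0 : E n) 1, φ y * |W j ((2 : ℝ) • y)| := by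
    intro j
    have hW2 := d3d_comp ((hW j).mono hs)
    have hD : ContinuousOn (fun x => |W j x - c j - h x|) (closedBall (0 : E n) (5 / 2)) :=
      (((hW j).sub continuousOn_const).sub hh).abs
    have iD : IntegrableOn (fun y : E n => |W j ((2 : ℝ) • y) - c j - h ((2 : ℝ) • y)|)
        (ball (0 : E n) 1) := d3d_int (d3d_comp (hD.mono hs))
    have iA : IntegrableOn (fun y => φ y * |W j ((2 : ℝ) • y)|) (ball (0 : E n) 1) :=
      d3d_int (hφ.mul hW2.abs)
    have e1 : ∫ y in ball (0 : E n) 1, |W j ((2 : ℝ) • y) - c j - h ((2 : ℝ) • y)| ≤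
        ((2 : ℝ) ^ n)⁻¹ * ∫ x in ball (0 : E n) (5 / 2), |W j x - c j - h x| := by
      rw [d3d_cov (fun x => |W j x - c j - h x|) (by norm_num : (0 : ℝ) < 2)]
      refine mul_le_mul_of_nonneg_left ?_ (by positivity)
      exact setIntegral_mono_set
        ((hD.integrableOn_compact (isCompact_closedBall _ _)).mono_set ball_subset_closedBall)
        (Eventually.of_forall fun x => abs_nonneg _)
        (ball_subset_ball (by norm_num : (2 : ℝ) ≤ 5 / 2)).eventuallyLE
    calc ∫ y in ball (0 : E n) 1, φ y * |h ((2 : ℝ) • y) + c j|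
        ≤ ∫ y in ball (0 : E n) 1, (M * |W j ((2 : ℝ) • y) - c j - h ((2 : ℝ) • y)| +
            φ y * |W j ((2 : ℝ) • y)|) := by
          refine integral_mono (d3d_int (hφ.mul (hh2.add continuousOn_const).abs))
            ((iD.const_mul M).add iA) fun y => ?_
          show φ y * |h ((2 : ℝ) • y) + c j| ≤
            M * |W j ((2 : ℝ) • y) - c j - h ((2 : ℝ) • y)| + φ y * |W j ((2 : ℝ) • y)|
          have t1 : |h ((2 : ℝ) • y) + c j| ≤
              |W j ((2 : ℝ) • y) - c j - h ((2 : ℝ) • y)| + |W j ((2 : ℝ) • y)| := by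
            have := abs_sub (W j ((2 : ℝ) • y)) (W j ((2 : ℝ) • y) - c j - h ((2 : ℝ) • y))
            have e : W j ((2 : ℝ) • y) - (W j ((2 : ℝ) • y) - c j - h ((2 : ℝ) • y)) =
              h ((2 : ℝ) • y) + c j := by ring
            rw [e] at this
            linarith
          have t2 := mul_le_mul_of_nonneg_left t1 (d3d_nn hK y)
          have t3 := mul_le_mul_of_nonneg_right (hM y)
            (abs_nonneg (W j ((2 : ℝ) • y) - c j - h ((2 : ℝ) • y)))
          linarith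
      _ = M * (∫ y in ball (0 : E n) 1, |W j ((2 : ℝ) • y) - c j - h ((2 : ℝ) • y)|) +
            ∫ y in ball (0 : E n) 1, φ y * |W j ((2 : ℝ) • y)| := by
          rw [integral_add (iD.const_mul M) iA, integral_const_mul]
      _ ≤ _ := by gcongr
  have k2 : Tendsto (fun j => ∫ y in ball (0 : E n) 1, φ y * |h ((2 : ℝ) • y) + c j|) atTop
      (𝓝 0) := by
    refine squeeze_zero (fun j => integral_nonneg fun y =>
      mul_nonneg (d3d_nn hK y) (abs_nonneg _)) k1 ?_
    have h := ((h1.const_mul (((2 : ℝ) ^ n)⁻¹)).const_mul M).add h2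
    simpa using h
  have k3 : ∀ j, ∫ y in ball (0 : E n) 1, φ y * |h ((2 : ℝ) • y) - b| ≤
      2 * ∫ y in ball (0 : E n) 1, φ y * |h ((2 : ℝ) • y) + c j| := by
    intro j
    have i1 : IntegrableOn (fun y => φ y * |h ((2 : ℝ) • y) + c j|) (ball (0 : E n) 1) :=
      d3d_int (hφ.mul (hh2.add continuousOn_const).abs)
    have i2 : IntegrableOn (fun y => φ y * c j) (ball (0 : E n) 1) :=
      d3d_int (hφ.mul continuousOn_const)
    have i3 : IntegrableOn (fun y => φ y * |b + c j|) (ball (0 : E n) 1) :=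
      d3d_int (hφ.mul continuousOn_const)
    have e1 : b + c j = ∫ y in ball (0 : E n) 1, φ y * (h ((2 : ℝ) • y) + c j) := by
      simp only [mul_add]
      rw [integral_add i0 i2, integral_mul_const, d3d_one hK, one_mul, hb, d3d_cv hK]
    have e2 : |b + c j| ≤ ∫ y in ball (0 : E n) 1, φ y * |h ((2 : ℝ) • y) + c j| := by
      rw [e1]
      refine abs_integral_le_integral_abs.trans (le_of_eq ?_)
      congr 1
      funext y
      rw [abs_mul, abs_of_nonneg (d3d_nn hK y)]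
    calc ∫ y in ball (0 : E n) 1, φ y * |h ((2 : ℝ) • y) - b|
        ≤ ∫ y in ball (0 : E n) 1, (φ y * |h ((2 : ℝ) • y) + c j| + φ y * |b + c j|) := by
          refine integral_mono (d3d_int (hφ.mul (hh2.sub continuousOn_const).abs))
            (i1.add i3) fun y => ?_
          show φ y * |h ((2 : ℝ) • y) - b| ≤
            φ y * |h ((2 : ℝ) • y) + c j| + φ y * |b + c j|
          rw [← mul_add]
          refine mul_le_mul_of_nonneg_left ?_ (d3d_nn hK y)
          have := abs_sub (h ((2 : ℝ) • y) + c j) (b + c j)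
          rwa [add_sub_add_right_eq_sub] at this
      _ = (∫ y in ball (0 : E n) 1, φ y * |h ((2 : ℝ) • y) + c j|) + |b + c j| := by
          rw [integral_add i1 i3, integral_mul_const, d3d_one hK, one_mul]
      _ ≤ _ := by linarith
  have k4 : ∫ y in ball (0 : E n) 1, φ y * |h ((2 : ℝ) • y) - b| = 0 := by
    refine le_antisymm ?_ (integral_nonneg fun y => mul_nonneg (d3d_nn hK y) (abs_nonneg _))
    have := k2.const_mul 2
    rw [mul_zero] at this
    exact ge_of_tendsto' this k3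
  have i5 : ContinuousOn (fun y => φ y * |h ((2 : ℝ) • y) - b|) (closedBall (0 : E n) 1) :=
    hφ.mul (hh2.sub continuousOn_const).abs
  have k5 : (fun y => φ y * |h ((2 : ℝ) • y) - b|) =ᵐ[volume.restrict (ball (0 : E n) 1)]
      fun _ => (0 : ℝ) := by
    have := (setIntegral_eq_zero_iff_of_nonneg_ae
      (Eventually.of_forall fun y => mul_nonneg (d3d_nn hK y) (abs_nonneg _)) (d3d_int i5)).1 k4
    exact this
  have k6 : EqOn (fun y => φ y * |h ((2 : ℝ) • y) - b|) (fun _ => (0 : ℝ)) (ball (0 : E n) 1) :=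
    Measure.eqOn_open_of_ae_eq k5 isOpen_ball (i5.mono ball_subset_closedBall)
      continuousOn_const
  refine ⟨b, fun z hz => ?_⟩
  have hz1 : (1 / 2 : ℝ) • z ∈ ball (0 : E n) 1 := by
    rw [mem_ball, dist_zero_right] at hz ⊢
    rw [norm_smul, Real.norm_eq_abs, abs_of_pos (by norm_num : (0 : ℝ) < 1 / 2)]
    linarith
  have k7 : φ ((1 / 2 : ℝ) • z) * |h ((2 : ℝ) • (1 / 2 : ℝ) • z) - b| = 0 := k6 hz1
  rw [smul_smul, show (2 : ℝ) * (1 / 2) = 1 by norm_num, one_smul] at k7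
  have k8 : 0 < φ ((1 / 2 : ℝ) • z) := hK.pos _ (by rwa [mem_ball, dist_zero_right] at hz1)
  rcases mul_eq_zero.1 k7 with k | k
  · exact absurd k k8.ne'
  · exact sub_eq_zero.1 (abs_eq_zero.1 k)

theorem p_D3D (hKER : T_KER) (hS : T_SCL) (hCL : T_CL) (hMVE : T_MVE) (hPOI : T_POI) :
    T_D3D := by
  intro n G₀ hn
  obtain ⟨φ, Φ, hK⟩ := hKER n hn
  obtain ⟨C, e, hC, he, hM⟩ := hMVE n φ Φ hn hK
  set G : ℝ := max G₀ 1 with hG
  have hG1 : 1 ≤ G := le_max_right _ _
  set κ : ℝ := (2 ^ n * G ^ 3)⁻¹ with hκ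
  have hκ0 : 0 < κ := by positivity
  by_contra hcon
  push Not at hcon
  have key : ∀ j : ℕ, ∃ (p : ℝ) (U W : E n → ℝ), |p - 2| < 1 / ((j : ℝ) + 1) ∧ |p - 2| < e ∧
      1 ≤ p ∧ PB p 0 4 U ∧ PB p 0 4 W ∧ U 0 = 0 ∧ W 0 = 0 ∧
      ((∀ y ∈ ball (0 : E n) 4, U y ≤ W y) ∨ ∀ y ∈ ball (0 : E n) 4, W y ≤ U y) ∧
      en p W 0 4 ≤ 1 ∧ κ ≤ en p W 0 2 ∧ en p U 0 4 ≤ 2 ^ n / ((j : ℝ) + 1) := by
    intro j
    have hj0 : (0 : ℝ) ≤ (j : ℝ) := Nat.cast_nonneg j
    have hj : (0 : ℝ) < 1 / ((j : ℝ) + 1) := by positivity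
    have hj1 : 1 / ((j : ℝ) + 1) ≤ 1 := by
      rw [div_le_one (by positivity)]
      linarith
    obtain ⟨p, hp, u, v, x, r, hr, hu, hv, h0, hs, hm, hl⟩ :=
      hcon ((j : ℝ) + 1) (min (1 / ((j : ℝ) + 1)) e) (by positivity) (lt_min hj he)
    have hp1 := lt_of_lt_of_le hp (min_le_left _ _)
    have hp2 := lt_of_lt_of_le hp (min_le_right _ _)
    have hp3 := abs_lt.1 (hp1.trans_le hj1)
    have hmg := d3d_mg0 (p := p) (x := x) hr v
    obtain ⟨U, W, hUW⟩ := d3d_scale hS (G := G) (L := (j : ℝ) + 1) (by linarith) (by linarith)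
      hG1 (by linarith) u v x hr hu hv h0 hs
      (hm.trans (mul_le_mul_of_nonneg_right (le_max_left _ _) hmg)) hl
    exact ⟨p, U, W, hp1, hp2, by linarith, hUW⟩
  choose p U W hp hpe hp1 hU hW hU0 hW0 hs hW4 hW2 hU4 using key
  have hlim : Tendsto p atTop (𝓝 2) := by
    rw [tendsto_iff_norm_sub_tendsto_zero]
    refine squeeze_zero (fun _ => norm_nonneg _) (fun j => ?_)
      tendsto_one_div_add_atTop_nhds_zero_nat
    rw [Real.norm_eq_abs]
    exact (hp j).le
  have hUe : Tendsto (fun j => en (p j) (U j) 0 4) atTop (𝓝 0) := by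
    refine squeeze_zero (fun j => gro_nonneg _ _ _) hU4 ?_
    have h := (tendsto_one_div_add_atTop_nhds_zero_nat (𝕜 := ℝ)).const_mul (2 ^ n)
    simpa [div_eq_mul_inv] using h
  have hUa := d3d_av hC hM hlim hpe hp1 hU hU0 (d3d_ev hUe)
  have hWa := d3d_av hC hM hlim hpe hp1 hW hW0 (Eventually.of_forall hW4)
  have hUs := d3d_small hK hPOI hlim hp1 hU hUe hUa
  have hWs : Tendsto (fun j => ∫ y in ball (0 : E n) 1, φ y * |W j ((2 : ℝ) • y)|) atTop
      (𝓝 0) := by
    refine squeeze_zero (fun j => integral_nonneg fun y =>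
      mul_nonneg (d3d_nn hK y) (abs_nonneg _))
      (fun j => d3d_sign hK (d3d_cont (hU j)) (d3d_cont (hW j)) (hs j)) ?_
    have h := (hWa.add hUa).add hUs
    simpa using h
  obtain ⟨k, c, h, hk, hH, h1, -, hE⟩ := hCL n hn p W hlim hW hW4
  have hkt := hk.tendsto_atTop
  have hh : ContinuousOn h (closedBall (0 : E n) (5 / 2)) :=
    hH.1.continuousOn.mono (closedBall_subset_ball (by norm_num))
  have hWc : ∀ j, ContinuousOn (W (k j)) (closedBall (0 : E n) (5 / 2)) := by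
    intro j
    obtain ⟨Ω, o1, o2, o3⟩ := hW (k j)
    exact o3.1.continuousOn.mono ((closedBall_subset_closedBall (by norm_num)).trans o2)
  obtain ⟨b, hb⟩ := d3d_lim hK (W := fun j => W (k j)) (c := c) hWc hh h1 (hWs.comp hkt)
  have hz : ∫ x in ball (0 : E n) 2, ‖gradient h x‖ ^ 2 = 0 := by
    rw [← integral_zero (E n) ℝ (μ := volume.restrict (ball (0 : E n) 2))]
    refine setIntegral_congr_fun measurableSet_ball fun x hx => ?_
    have h2 : h =ᶠ[𝓝 x] fun _ => b := by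
      filter_upwards [isOpen_ball.mem_nhds hx] with z hz using hb z hz
    have h3 : gradient h x = 0 := by
      unfold gradient
      rw [h2.fderiv_eq]
      simp
    show ‖gradient h x‖ ^ 2 = 0
    rw [h3, norm_zero]
    norm_num
  have hl := hE 2 (by norm_num) (by norm_num)
  rw [hz] at hl
  have := ge_of_tendsto' hl (fun j => hW2 (k j))
  linarith

end Pool.Agent.SCN
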