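import Pool.Agent.SCN.Targets

/-! # SCN: the target DBA (doubling at all scales) -/

set_option autoImplicit false

open Set MeasureTheory Filter Topology Metric
open scoped RealInnerProductSpace

namespace Pool.Agent.SCN

open Pool.Agent.SCP (E PHarm V)

namespace DBA_

variable {n : ℕ} {p : ℝ} {u : E n → ℝ} {x : E n}

theorem mono (hp : 0 < p) {R : ℝ} (h : PB p x R u) {a b : ℝ} (hab : a ≤ b) (hb : b ≤ R) :
    en p u x a ≤ en p u x b := by
  obtain ⟨Ω, hΩ, h1, h2⟩ := h
  have h3 : ContinuousOn (fun y => ‖gradient u y‖ ^ p) (closedBall x R) :=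
    ((SCP.TEST_.continuousOn_gradient hΩ h2.1).mono h1).norm.rpow_const fun _ _ => Or.inr hp.le
  have h4 : IntegrableOn (fun y => ‖gradient u y‖ ^ p) (ball x b) :=
    (h3.integrableOn_compact (isCompact_closedBall x R)).mono_set
      (ball_subset_closedBall.trans (closedBall_subset_closedBall hb))
  exact setIntegral_mono_set h4 (Eventually.of_forall fun y => Real.rpow_nonneg (norm_nonneg _) p)
    (ball_subset_ball hab).eventuallyLE

theorem pb_mono {R R' : ℝ} (h : PB p x R u) (hR : R' ≤ R) : PB p x R' u := by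
  obtain ⟨Ω, hΩ, h1, h2⟩ := h
  exact ⟨Ω, hΩ, (closedBall_subset_closedBall hR).trans h1, h2⟩

end DBA_

open DBA_

theorem p_DBA (hD3A : T_D3A) : T_DBA := by
  intro n k hn
  obtain ⟨e, he, H⟩ := hD3A n k hn
  refine ⟨min e 1, lt_min he one_pos, ?_⟩
  intro p hp u x r hr hu h4 h1 ρ hρ hρr
  have hpe : |p - 2| < e := lt_of_lt_of_le hp (min_le_left _ _)
  have hp1 : |p - 2| < 1 := lt_of_lt_of_le hp (min_le_right _ _)
  have hp0 : 0 < p := by
    have := (abs_lt.mp hp1).1
    linarith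
  set M : ℝ := 2 ^ (n + 2 * k + 1) with hM
  have hM0 : 0 < M := by positivity
  -- the step
  have key : ∀ i : ℕ, en p u x (4 * (r / 2 ^ i)) ≤ M * en p u x (2 * (r / 2 ^ i)) ∧
      en p u x (2 * (r / 2 ^ i)) ≤ M * en p u x (r / 2 ^ i) ∧ 0 < en p u x (r / 2 ^ i) ∧
      en p u x (r / 2 ^ i) ≤ M * en p u x (r / 2 ^ i / 2) := by
    intro i
    induction i with
    | zero =>
      rw [pow_zero, div_one]
      have a1 : en p u x (4 * r) ≤ M * en p u x (2 * r) :=
        h4.trans (mul_le_mul_of_nonneg_left (mono hp0 hu (by linarith) (by linarith)) hM0.le)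
      have a2 : en p u x (2 * r) ≤ M * en p u x r :=
        (mono hp0 hu (by linarith) le_rfl).trans h4
      exact ⟨a1, a2, h1, H p hpe u x r hr hu a1 a2 h1⟩
    | succ i ih =>
      obtain ⟨b1, b2, b3, b4⟩ := ih
      have hi : 0 < r / 2 ^ i := by positivity
      have hir : r / 2 ^ i ≤ r := div_le_self hr.le (one_le_pow₀ (by norm_num))
      have e1 : r / 2 ^ (i + 1) = r / 2 ^ i / 2 := by rw [pow_succ, div_div]
      have e2 : 4 * (r / 2 ^ (i + 1)) = 2 * (r / 2 ^ i) := by rw [e1]; ring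
      have e3 : 2 * (r / 2 ^ (i + 1)) = r / 2 ^ i := by rw [e1]; ring
      have b5 : 0 < en p u x (r / 2 ^ (i + 1)) := by
        rw [e1]
        by_contra hneg
        have : M * en p u x (r / 2 ^ i / 2) ≤ 0 :=
          mul_nonpos_of_nonneg_of_nonpos hM0.le (not_lt.mp hneg)
        linarith
      have c1 : en p u x (4 * (r / 2 ^ (i + 1))) ≤ M * en p u x (2 * (r / 2 ^ (i + 1))) := by
        rw [e2, e3]
        exact b2
      have c2 : en p u x (2 * (r / 2 ^ (i + 1))) ≤ M * en p u x (r / 2 ^ (i + 1)) := by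
        rw [e3, e1]
        exact b4
      refine ⟨c1, c2, b5, H p hpe u x _ (by positivity) (pb_mono hu ?_) c1 c2 b5⟩
      rw [e2]
      linarith
  obtain ⟨i, hi1, hi2⟩ := exists_nat_pow_near (x := r / ρ) (y := (2 : ℝ))
    ((one_le_div hρ).mpr hρr) one_lt_two
  have hρ1 : ρ ≤ r / 2 ^ i := by
    rw [le_div_iff₀ (by positivity)]
    rw [le_div_iff₀ hρ] at hi1
    linarith
  have hρ2 : r / 2 ^ i / 2 ≤ ρ := by
    rw [div_div, ← pow_succ, div_le_iff₀ (by positivity)]
    rw [div_lt_iff₀ hρ] at hi2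
    linarith
  obtain ⟨b1, b2, b3, b4⟩ := key i
  have hir : r / 2 ^ i ≤ r := div_le_self hr.le (one_le_pow₀ (by norm_num))
  have m1 : en p u x (4 * ρ) ≤ en p u x (4 * (r / 2 ^ i)) :=
    mono hp0 hu (by linarith) (by linarith)
  have m2 : en p u x (r / 2 ^ i / 2) ≤ en p u x ρ := mono hp0 hu hρ2 (by linarith)
  have hM3 : (2 : ℝ) ^ (3 * (n + 2 * k + 1)) = M * (M * M) := by
    rw [hM, mul_comm 3, pow_mul]
    ring
  constructor
  · rw [hM3]
    calc en p u x (4 * ρ) ≤ en p u x (4 * (r / 2 ^ i)) := m1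
      _ ≤ M * en p u x (2 * (r / 2 ^ i)) := b1
      _ ≤ M * (M * en p u x (r / 2 ^ i)) := mul_le_mul_of_nonneg_left b2 hM0.le
      _ ≤ M * (M * (M * en p u x (r / 2 ^ i / 2))) :=
        mul_le_mul_of_nonneg_left (mul_le_mul_of_nonneg_left b4 hM0.le) hM0.le
      _ ≤ M * (M * (M * en p u x ρ)) :=
        mul_le_mul_of_nonneg_left (mul_le_mul_of_nonneg_left
          (mul_le_mul_of_nonneg_left m2 hM0.le) hM0.le) hM0.le
      _ = M * (M * M) * en p u x ρ := by ring
  · by_contra hneg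
    have : M * en p u x (r / 2 ^ i / 2) ≤ 0 :=
      mul_nonpos_of_nonneg_of_nonpos hM0.le (m2.trans (not_lt.mp hneg))
    linarith

end Pool.Agent.SCN
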