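import Pool.Agent.SCN.Targets

/-! # SCN-DBL: doubling near a point with bounded frequency -/

set_option autoImplicit false

open Set MeasureTheory Filter Topology Metric
open scoped RealInnerProductSpace

namespace Pool.Agent.SCN

open Pool.Agent.SCP (E PHarm V)

theorem dbl_int {n : ℕ} {p : ℝ} (hp : 0 < p) {Ω : Set (E n)} (hΩ : IsOpen Ω) {u : E n → ℝ}
    (hu : PHarm p Ω u) {x : E n} {r : ℝ} (h : closedBall x r ⊆ Ω) :
    IntegrableOn (fun y => ‖gradient u y‖ ^ p) (ball x r) := by
  have h1 : ContinuousOn (fun y => ‖gradient u y‖ ^ p) (closedBall x r) :=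
    (((SCP.TEST_.continuousOn_gradient hΩ hu.1).mono h).norm).rpow_const (fun y _ => Or.inr hp.le)
  exact (h1.integrableOn_compact (isCompact_closedBall x r)).mono_set ball_subset_closedBall

theorem dbl_mono {n : ℕ} {p : ℝ} {u : E n → ℝ} {x y : E n} {r s : ℝ}
    (h : IntegrableOn (fun z => ‖gradient u z‖ ^ p) (ball y s)) (hs : ball x r ⊆ ball y s) :
    en p u x r ≤ en p u y s := by
  unfold en
  refine setIntegral_mono_set h ?_ hs.eventuallyLE
  exact Eventually.of_forall fun z => Real.rpow_nonneg (norm_nonneg _) p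

/-- the energy is left continuous in the radius -/
theorem dbl_left {n : ℕ} {p : ℝ} {u : E n → ℝ} {x : E n} {r : ℝ} (hr : 0 < r)
    (h : IntegrableOn (fun z => ‖gradient u z‖ ^ p) (ball x r)) (hpos : 0 < en p u x r) :
    ∃ ρ : ℝ, 0 < ρ ∧ ρ < r ∧ en p u x r ≤ 2 * en p u x ρ := by
  set a : ℕ → ℝ := fun k => r - r / (k + 2) with ha
  have hk : ∀ k : ℕ, (0 : ℝ) < (k : ℝ) + 2 := fun k => by positivity
  have ha1 : ∀ k, 0 < a k := by
    intro k
    have : r / ((k : ℝ) + 2) < r := by
      rw [div_lt_iff₀ (hk k)]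
      have : (0 : ℝ) ≤ k := Nat.cast_nonneg k
      nlinarith
    simp only [ha]
    linarith
  have ha2 : ∀ k, a k < r := by
    intro k
    have : 0 < r / ((k : ℝ) + 2) := div_pos hr (hk k)
    simp only [ha]
    linarith
  have ham : Monotone a := by
    intro i j hij
    have : r / ((j : ℝ) + 2) ≤ r / ((i : ℝ) + 2) := by
      apply div_le_div_of_nonneg_left hr.le (hk i)
      have : (i : ℝ) ≤ j := by exact_mod_cast hij
      linarith
    simp only [ha]
    linarith
  have hat : Tendsto a atTop (𝓝 r) := by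
    have h1 : Tendsto (fun k : ℕ => r / ((k : ℝ) + 2)) atTop (𝓝 0) := by
      apply Tendsto.const_div_atTop
      exact tendsto_atTop_add_const_right _ _ tendsto_natCast_atTop_atTop
    have h2 := (tendsto_const_nhds (x := r)).sub h1
    simpa [ha] using h2
  have hU : (⋃ k, ball x (a k)) = ball x r := by
    apply Subset.antisymm
    · exact iUnion_subset fun k => ball_subset_ball (ha2 k).le
    · intro y hy
      rw [mem_ball] at hy
      have := (hat.eventually (lt_mem_nhds hy)).exists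
      obtain ⟨k, hk'⟩ := this
      exact mem_iUnion.2 ⟨k, mem_ball.2 hk'⟩
  have hlim : Tendsto (fun k => en p u x (a k)) atTop (𝓝 (en p u x r)) := by
    have h1 := tendsto_setIntegral_of_monotone (μ := (volume : Measure (E n)))
      (s := fun k => ball x (a k)) (f := fun z => ‖gradient u z‖ ^ p)
      (fun k => measurableSet_ball) (fun i j hij => ball_subset_ball (ham hij))
      (by rw [hU]; exact h)
    rw [hU] at h1
    exact h1
  have h3 : en p u x r / 2 < en p u x r := by linarith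
  obtain ⟨k, hk'⟩ := (hlim.eventually (lt_mem_nhds h3)).exists
  exact ⟨a k, ha1 k, ha2 k, by linarith⟩

theorem p_DBL (hDBA : T_DBA) : T_DBL := by
  intro n N hn
  obtain ⟨e, he, H⟩ := hDBA n N hn
  refine ⟨3 * (n + 2 * N + 1), min e 1, lt_min he one_pos, ?_⟩
  intro p hp Ω u x hΩ hu hF
  have hp1 : |p - 2| < e := lt_of_lt_of_le hp (min_le_left _ _)
  have hp2 : |p - 2| < 1 := lt_of_lt_of_le hp (min_le_right _ _)
  have hp0 : 0 < p := by
    have := (abs_lt.1 hp2).1
    linarith
  obtain ⟨r, hr, hsub, hpos, hle⟩ := hF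
  have hint4 : IntegrableOn (fun z => ‖gradient u z‖ ^ p) (ball x (4 * r)) :=
    dbl_int hp0 hΩ hu hsub
  have hint1 : IntegrableOn (fun z => ‖gradient u z‖ ^ p) (ball x r) :=
    hint4.mono_set (ball_subset_ball (by linarith))
  obtain ⟨ρ₀, h0, h1, h2⟩ := dbl_left hr hint1 hpos
  have hδ : 0 < r - ρ₀ := by linarith
  set s : ℝ := (ρ₀ + r) / 2 with hs
  set R : ℝ := (r - ρ₀) / 2 ⊓ s with hR
  have hs0 : 0 < s := by rw [hs]; linarith
  have hR0 : 0 < R := lt_inf_iff.2 ⟨by linarith, hs0⟩
  have hR1 : R ≤ (r - ρ₀) / 2 := inf_le_left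
  have hR2 : R ≤ s := inf_le_right
  refine ⟨R, hR0, ⟨Ω, hΩ, (closedBall_subset_closedBall (by linarith)).trans hsub, hu⟩, ?_⟩
  intro y hy ρ hρ hρR
  have hd : dist y x ≤ R := mem_closedBall.1 hy
  have hc : closedBall y (4 * s) ⊆ closedBall x (4 * r) := by
    apply closedBall_subset_closedBall'
    rw [hs]
    linarith
  have hb : ball y (4 * s) ⊆ ball x (4 * r) := by
    apply ball_subset_ball'
    rw [hs]
    linarith
  have hb2 : ball x ρ₀ ⊆ ball y s := by
    apply ball_subset_ball'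
    rw [dist_comm, hs]
    linarith
  have hinty : IntegrableOn (fun z => ‖gradient u z‖ ^ p) (ball y s) :=
    (hint4.mono_set hb).mono_set (ball_subset_ball (by linarith))
  have e1 : en p u y (4 * s) ≤ en p u x (4 * r) := dbl_mono hint4 hb
  have e2 : en p u x ρ₀ ≤ en p u y s := dbl_mono hinty hb2
  have e3 : 0 < en p u y s := by linarith
  have e4 : en p u y (4 * s) ≤ 2 ^ (n + 2 * N + 1) * en p u y s := by
    have h4 : (2 : ℝ) ^ (N + 1) ≤ 2 ^ (n + 2 * N + 1) :=
      pow_le_pow_right₀ (by norm_num) (by omega)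
    have h5 : (0 : ℝ) < 2 ^ N := by positivity
    calc en p u y (4 * s) ≤ 2 ^ N * en p u x r := e1.trans hle
      _ ≤ 2 ^ N * (2 * en p u y s) := by
        apply mul_le_mul_of_nonneg_left _ h5.le
        linarith
      _ = 2 ^ (N + 1) * en p u y s := by ring
      _ ≤ 2 ^ (n + 2 * N + 1) * en p u y s := mul_le_mul_of_nonneg_right h4 e3.le
  exact H p hp1 u y s hs0 ⟨Ω, hΩ, hc.trans hsub, hu⟩ e4 e3 ρ hρ (hρR.trans hR2)

end Pool.Agent.SCN
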