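import Pool.Agent.SCN.Targets

/-! # Strong comparison for `p`-harmonic functions, `p` near 2: the derivative of the average -/

set_option autoImplicit false

open Set MeasureTheory Filter Topology Metric
open scoped RealInnerProductSpace

namespace Pool.Agent.SCN

open Pool.Agent.SCP (E PHarm V)

variable {n : ℕ}

theorem dcv_mem {x y : E n} {b ρ : ℝ} (h0 : 0 ≤ ρ) (hb : ρ ≤ b) (hy : ‖y‖ ≤ 1) :
    x + ρ • y ∈ closedBall x b := by
  rw [mem_closedBall, dist_eq_norm, add_sub_cancel_left, norm_smul, Real.norm_of_nonneg h0]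
  nlinarith [norm_nonneg y]

theorem dcv_gz {φ Φ : E n → ℝ} (hK : Ker φ Φ) {y : E n} (hy : 1 ≤ ‖y‖) : gradient Φ y = 0 := by
  rw [hK.grad, hK.supp y hy, zero_smul]

theorem dcv_gradient {Ω : Set (E n)} {u : E n → ℝ} (hΩ : IsOpen Ω)
    (hu : ContDiffOn ℝ 1 u Ω) : ContinuousOn (gradient u) Ω :=
  (InnerProductSpace.toDual ℝ (E n)).symm.continuous.comp_continuousOn
    (hu.continuousOn_fderiv_of_isOpen hΩ le_rfl)

theorem dcv_gc {φ Φ : E n → ℝ} (hK : Ker φ Φ) : Continuous (gradient Φ) := by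
  have h : gradient Φ = fun y => φ y • y := funext hK.grad
  rw [h]
  exact hK.smooth.continuous.smul continuous_id

/-- The integrand. -/
noncomputable def dcv_G (f Φ : E n → ℝ) (x : E n) (ρ : ℝ) (y : E n) : ℝ :=
  ⟪gradient f (x + ρ • y), gradient Φ y⟫

theorem dcv_cont {φ Φ : E n → ℝ} (hK : Ker φ Φ) {Ω : Set (E n)} {f : E n → ℝ} {x : E n}
    {b : ℝ} (hΩ : IsOpen Ω) (hf : ContDiffOn ℝ 1 f Ω) (hb : closedBall x b ⊆ Ω) :
    ContinuousOn (Function.uncurry (dcv_G f Φ x)) (Icc 0 b ×ˢ univ) := by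
  rintro ⟨ρ, y⟩ ⟨hρ, -⟩
  rcases le_or_gt ‖y‖ 1 with hy | hy
  · refine ContinuousAt.continuousWithinAt ?_
    have h1 : x + ρ • y ∈ Ω := hb (dcv_mem hρ.1 hρ.2 hy)
    have h2 : ContinuousAt (gradient f) (x + ρ • y) :=
      (dcv_gradient hΩ hf).continuousAt (hΩ.mem_nhds h1)
    have h3 : ContinuousAt (fun q : ℝ × E n => gradient f (x + q.1 • q.2)) (ρ, y) := by
      refine ContinuousAt.comp (f := fun q : ℝ × E n => x + q.1 • q.2) (x := (ρ, y)) h2 ?_
      exact (continuous_const.add (continuous_fst.smul continuous_snd)).continuousAt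
    have h4 : ContinuousAt (fun q : ℝ × E n => gradient Φ q.2) (ρ, y) :=
      ((dcv_gc hK).comp continuous_snd).continuousAt
    exact h3.inner (𝕜 := ℝ) h4
  · refine ContinuousAt.continuousWithinAt ?_
    have h1 : ∀ᶠ q : ℝ × E n in 𝓝 (ρ, y), 1 < ‖q.2‖ := by
      have h2 : Continuous fun q : ℝ × E n => ‖q.2‖ := continuous_snd.norm
      exact (h2.tendsto (ρ, y)).eventually (lt_mem_nhds hy)
    have h3 : (fun _ : ℝ × E n => (0 : ℝ)) =ᶠ[𝓝 (ρ, y)] Function.uncurry (dcv_G f Φ x) := by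
      filter_upwards [h1] with q hq
      change (0 : ℝ) = ⟪gradient f (x + q.1 • q.2), gradient Φ q.2⟫
      rw [dcv_gz hK hq.le, inner_zero_right]
    exact continuousAt_const.congr h3

theorem dcv_contf {φ Φ : E n → ℝ} (hK : Ker φ Φ) {Ω : Set (E n)} {f : E n → ℝ} {x : E n}
    {b ρ : ℝ} (hΩ : IsOpen Ω) (hf : ContDiffOn ℝ 1 f Ω) (hb : closedBall x b ⊆ Ω) (h0 : 0 ≤ ρ)
    (h1 : ρ ≤ b) : Continuous fun y => φ y * f (x + ρ • y) := by
  rw [continuous_iff_continuousAt]
  intro y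
  rcases le_or_gt ‖y‖ 1 with hy | hy
  · have h2 : x + ρ • y ∈ Ω := hb (dcv_mem h0 h1 hy)
    have h3 : ContinuousAt f (x + ρ • y) := hf.continuousOn.continuousAt (hΩ.mem_nhds h2)
    have h4 : ContinuousAt (fun z : E n => f (x + ρ • z)) y := by
      refine ContinuousAt.comp (f := fun z : E n => x + ρ • z) (x := y) h3 ?_
      exact (continuous_const.add (continuous_id.const_smul ρ)).continuousAt
    exact hK.smooth.continuous.continuousAt.mul h4
  · have h2 : ∀ᶠ z : E n in 𝓝 y, 1 < ‖z‖ :=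
      (continuous_norm.tendsto y).eventually (lt_mem_nhds hy)
    have h3 : (fun _ : E n => (0 : ℝ)) =ᶠ[𝓝 y] fun z => φ z * f (x + ρ • z) := by
      filter_upwards [h2] with z hz
      rw [hK.supp z hz.le, zero_mul]
    exact continuousAt_const.congr h3

theorem dcv_intf {φ Φ : E n → ℝ} (hK : Ker φ Φ) {Ω : Set (E n)} {f : E n → ℝ} {x : E n}
    {b ρ : ℝ} (hΩ : IsOpen Ω) (hf : ContDiffOn ℝ 1 f Ω) (hb : closedBall x b ⊆ Ω) (h0 : 0 ≤ ρ)
    (h1 : ρ ≤ b) : Integrable fun y => φ y * f (x + ρ • y) := by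
  refine (dcv_contf hK hΩ hf hb h0 h1).integrable_of_hasCompactSupport ?_
  refine HasCompactSupport.intro (isCompact_closedBall (0 : E n) 1) fun y hy => ?_
  rw [mem_closedBall, dist_zero_right, not_le] at hy
  rw [hK.supp y hy.le, zero_mul]

/-- The fundamental theorem of calculus on a ray. -/
theorem dcv_ray {φ Φ : E n → ℝ} (hK : Ker φ Φ) {Ω : Set (E n)} {f : E n → ℝ} {x : E n}
    {a b : ℝ} (hΩ : IsOpen Ω) (hf : ContDiffOn ℝ 1 f Ω) (hb : closedBall x b ⊆ Ω) (h0 : 0 ≤ a)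
    (h1 : a ≤ b) (y : E n) :
    ∫ ρ in a..b, dcv_G f Φ x ρ y = φ y * f (x + b • y) - φ y * f (x + a • y) := by
  rcases le_or_gt 1 ‖y‖ with hy | hy
  · have h2 : ∀ ρ : ℝ, dcv_G f Φ x ρ y = 0 := by
      intro ρ
      unfold dcv_G
      rw [dcv_gz hK hy, inner_zero_right]
    simp only [h2, intervalIntegral.integral_zero, hK.supp y hy, zero_mul, sub_self]
  · refine intervalIntegral.integral_eq_sub_of_hasDerivAt (f := fun ρ => φ y * f (x + ρ • y))
      (fun ρ hρ => ?_) ?_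
    · rw [uIcc_of_le h1] at hρ
      have h2 : x + ρ • y ∈ Ω := hb (dcv_mem (h0.trans hρ.1) hρ.2 hy.le)
      have h3 : HasFDerivAt f (fderiv ℝ f (x + ρ • y)) (x + ρ • y) :=
        ((hf.contDiffAt (hΩ.mem_nhds h2)).differentiableAt one_ne_zero).hasFDerivAt
      have h4 : HasDerivAt (fun r : ℝ => x + r • y) y ρ := by
        have h5 := ((hasDerivAt_id ρ).smul_const y).const_add x
        simpa using h5
      have h5 := (h3.comp_hasDerivAt ρ h4).const_mul (φ y)
      have h6 : dcv_G f Φ x ρ y = φ y * (fderiv ℝ f (x + ρ • y)) y := by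
        unfold dcv_G
        rw [hK.grad, real_inner_smul_right, inner_gradient_left]
      rw [h6]
      exact h5
    · have h3 : Continuous (fun ρ : ℝ => (ρ, y)) := continuous_id.prodMk continuous_const
      have h4 : MapsTo (fun ρ : ℝ => (ρ, y)) (uIcc a b) (Icc 0 b ×ˢ univ) := by
        intro ρ hρ
        rw [uIcc_of_le h1] at hρ
        exact ⟨⟨h0.trans hρ.1, hρ.2⟩, mem_univ _⟩
      have h5 := ContinuousOn.comp (g := Function.uncurry (dcv_G f Φ x))
        (dcv_cont hK hΩ hf hb) h3.continuousOn h4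
      exact ContinuousOn.intervalIntegrable h5

theorem dcv_prod {φ Φ : E n → ℝ} (hK : Ker φ Φ) {Ω : Set (E n)} {f : E n → ℝ} {x : E n}
    {a b : ℝ} (hΩ : IsOpen Ω) (hf : ContDiffOn ℝ 1 f Ω) (hb : closedBall x b ⊆ Ω) (h0 : 0 ≤ a) :
    Integrable (Function.uncurry (dcv_G f Φ x)) ((volume.restrict (Ioc a b)).prod volume) := by
  have h1 : IntegrableOn (Function.uncurry (dcv_G f Φ x))
      (Icc a b ×ˢ closedBall (0 : E n) 1) (volume.prod volume) := by
    refine ContinuousOn.integrableOn_compact (isCompact_Icc.prod (isCompact_closedBall _ _)) ?_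
    refine (dcv_cont hK hΩ hf hb).mono (prod_mono ?_ (subset_univ _))
    exact Icc_subset_Icc_left h0
  have h2 : IntegrableOn (Function.uncurry (dcv_G f Φ x))
      (Ioc a b ×ˢ (univ : Set (E n))) (volume.prod volume) := by
    have h3 := h1.mono_set (prod_mono (Ioc_subset_Icc_self (a := a) (b := b)) (le_refl _))
    refine h3.of_forall_sdiff_eq_zero (measurableSet_Ioc.prod MeasurableSet.univ) ?_
    rintro ⟨ρ, y⟩ ⟨⟨hρ, -⟩, hn⟩
    have h4 : 1 ≤ ‖y‖ := by
      by_contra h5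
      refine hn ⟨hρ, ?_⟩
      rw [mem_closedBall, dist_zero_right]
      exact (not_le.mp h5).le
    change ⟪gradient f (x + ρ • y), gradient Φ y⟫ = 0
    rw [dcv_gz hK h4, inner_zero_right]
  rw [IntegrableOn, ← Measure.prod_restrict, Measure.restrict_univ] at h2
  exact h2

/-- DCV: the derivative of the average. -/
theorem p_DCV : T_DCV := by
  intro n φ Φ hK Ω f x b hΩ hf hb
  refine ⟨?_, fun a h0 h1 => ?_⟩
  · refine continuousOn_integral_of_compact_support (isCompact_closedBall (0 : E n) 1)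
      (f := dcv_G f Φ x) (dcv_cont hK hΩ hf hb) fun ρ y _ hy => ?_
    rw [mem_closedBall, dist_zero_right, not_le] at hy
    unfold dcv_G
    rw [dcv_gz hK hy.le, inner_zero_right]
  · have h2 := integral_integral_swap (dcv_prod hK hΩ hf hb h0 (a := a))
    have h3 : ∫ y, ∫ ρ in Ioc a b, dcv_G f Φ x ρ y
        = cv φ b f x - cv φ a f x := by
      have h4 : ∀ y : E n, ∫ ρ in Ioc a b, dcv_G f Φ x ρ y
          = φ y * f (x + b • y) - φ y * f (x + a • y) := by
        intro y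
        rw [← intervalIntegral.integral_of_le h1]
        exact dcv_ray hK hΩ hf hb h0 h1 y
      simp only [h4]
      rw [integral_sub (dcv_intf hK hΩ hf hb (h0.trans h1) le_rfl)
        (dcv_intf hK hΩ hf hb h0 h1)]
      rfl
    rw [intervalIntegral.integral_neg, intervalIntegral.integral_of_le h1]
    change _ = -∫ ρ in Ioc a b, ∫ y, dcv_G f Φ x ρ y
    rw [h2, h3]
    ring

end Pool.Agent.SCN
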