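import Pool.Agent.SCN.Targets
import Pool.Agent.SCP.IBP

set_option autoImplicit false

/-!
# SCN, target DER: derivatives of harmonic functions are harmonic
-/

open Set MeasureTheory Filter Topology Metric
open scoped RealInnerProductSpace

namespace Pool.Agent.SCN

open Pool.Agent.SCP (E PHarm V)

namespace DER_

variable {n : ℕ}

/-- smoothness of the derivative -/
theorem smooth_dir {Ω : Set (E n)} {h : E n → ℝ} (hΩ : IsOpen Ω)
    (hh : ContDiffOn ℝ (⊤ : ℕ∞) h Ω) (a : E n) :
    ContDiffOn ℝ (⊤ : ℕ∞) (fun x => fderiv ℝ h x a) Ω := by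
  have h1 : ContDiffOn ℝ (⊤ : ℕ∞) (fderiv ℝ h) Ω :=
    hh.fderiv_of_isOpen hΩ (by exact_mod_cast le_top)
  exact h1.clm_apply contDiffOn_const

theorem le2 : (2 : WithTop ℕ∞) ≤ ((⊤ : ℕ∞) : WithTop ℕ∞) := by
  have h : ((2 : ℕ∞) : WithTop ℕ∞) ≤ ((⊤ : ℕ∞) : WithTop ℕ∞) := WithTop.coe_le_coe.2 le_top
  exact h

theorem le11 : (1 : WithTop ℕ∞) + 1 ≤ ((⊤ : ℕ∞) : WithTop ℕ∞) :=
  le_of_eq_of_le one_add_one_eq_two le2

theorem symm2 {h : E n → ℝ} {x : E n} (hh : ContDiffAt ℝ (⊤ : ℕ∞) h x) (a v : E n) :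
    fderiv ℝ (fun y => fderiv ℝ h y a) x v = fderiv ℝ (fderiv ℝ h) x a v := by
  have h1 : DifferentiableAt ℝ (fderiv ℝ h) x :=
    (hh.fderiv_right (m := 1) le11).differentiableAt (by norm_num)
  have h3 := h1.hasFDerivAt.clm_apply (hasFDerivAt_const a x)
  rw [h3.fderiv]
  have h4 : IsSymmSndFDerivAt ℝ h x := (hh.of_le (m := 2) le2).isSymmSndFDerivAt (by simp)
  have h5 : (fderiv ℝ (fderiv ℝ h) x) v a = (fderiv ℝ (fderiv ℝ h) x) a v := h4 v a
  simp [h5]

/-- the linear map from functionals to vectors -/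
noncomputable def TL : (E n →L[ℝ] ℝ) →L[ℝ] E n where
  toFun f := (InnerProductSpace.toDual ℝ (E n)).symm f
  map_add' f g := map_add _ f g
  map_smul' r f := by simp
  cont := (InnerProductSpace.toDual ℝ (E n)).symm.continuous

theorem symm_grad {h : E n → ℝ} {x : E n} (hh : ContDiffAt ℝ (⊤ : ℕ∞) h x) (a : E n) :
    HasFDerivAt (gradient h) (TL.comp (fderiv ℝ (fderiv ℝ h) x)) x ∧
    TL (fderiv ℝ (fderiv ℝ h) x a) = gradient (fun y => fderiv ℝ h y a) x := by
  have h1 : DifferentiableAt ℝ (fderiv ℝ h) x :=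
    (hh.fderiv_right (m := 1) le11).differentiableAt (by norm_num)
  refine ⟨TL.hasFDerivAt.comp x h1.hasFDerivAt, ?_⟩
  have h2 : fderiv ℝ (fun y => fderiv ℝ h y a) x = fderiv ℝ (fderiv ℝ h) x a := by
    ext v
    exact symm2 hh a v
  unfold gradient
  rw [h2]
  rfl

end DER_

open DER_

theorem p_DER : T_DER := by
  intro n Ω h a hΩ hh
  obtain ⟨hs, h1, hw⟩ := hh
  have hsa := smooth_dir hΩ hs a
  refine ⟨hsa, hsa.of_le (by exact_mod_cast le_top), ?_⟩
  intro θ hθ hc hsub
  have hat : ∀ x ∈ Ω, ContDiffAt ℝ (⊤ : ℕ∞) h x := fun x hx => hs.contDiffAt (hΩ.mem_nhds hx)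
  -- the test function `∂_a θ`
  set ψ : E n → ℝ := fun x => fderiv ℝ θ x a with hψ
  have hψs : ContDiff ℝ (⊤ : ℕ∞) ψ := by
    have h2 : ContDiff ℝ (⊤ : ℕ∞) (fderiv ℝ θ) := hθ.fderiv_right (by exact_mod_cast le_top)
    exact h2.clm_apply contDiff_const
  have hψc : HasCompactSupport ψ := hc.fderiv_apply (𝕜 := ℝ) a
  have hψsub : tsupport ψ ⊆ tsupport θ := tsupport_fderiv_apply_subset ℝ a
  have hw1 := hw ψ hψs hψc (hψsub.trans hsub)
  -- the function `G`
  set G : E n → ℝ := fun x => fderiv ℝ θ x (gradient h x) with hG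
  have hθ2 : ContDiff ℝ (⊤ : ℕ∞) (fderiv ℝ θ) := hθ.fderiv_right (by exact_mod_cast le_top)
  have hout : ∀ x, x ∉ tsupport θ → fderiv ℝ θ =ᶠ[𝓝 x] 0 := by
    intro x hx
    have h2 : x ∉ tsupport (fderiv ℝ θ) := fun h3 => hx (tsupport_fderiv_subset ℝ h3)
    exact notMem_tsupport_iff_eventuallyEq.1 h2
  have hgr : ∀ x ∈ Ω, ContDiffAt ℝ (⊤ : ℕ∞) (gradient h) x := by
    intro x hx
    have h2 : ContDiffAt ℝ (⊤ : ℕ∞) (fderiv ℝ h) x :=
      (hat x hx).fderiv_right (by exact_mod_cast le_top)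
    exact (InnerProductSpace.toDual ℝ (E n)).symm.contDiff.contDiffAt.comp x h2
  have hGs : ContDiff ℝ 1 G := by
    refine contDiff_iff_contDiffAt.2 fun x => ?_
    by_cases hx : x ∈ tsupport θ
    · exact ((hθ2.contDiffAt (x := x)).clm_apply (hgr x (hsub hx))).of_le
        (by exact_mod_cast le_top)
    · have h2 : G =ᶠ[𝓝 x] 0 := by
        filter_upwards [hout x hx] with y hy
        simp [hG, hy]
      exact contDiffAt_const.congr_of_eventuallyEq h2
  have hGc : HasCompactSupport G := by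
    refine HasCompactSupport.intro hc.isCompact (fun x hx => ?_)
    have := (hout x hx).eq_of_nhds
    simp [hG, this]
  have hint := (SCP.IBP_.integral_dir G hGs hGc a).2
  -- the derivative of `G`
  have hdG : ∀ x, fderiv ℝ G x a
      = fderiv ℝ ψ x (gradient h x) + fderiv ℝ θ x (gradient (fun y => fderiv ℝ h y a) x) := by
    intro x
    by_cases hx : x ∈ tsupport θ
    · have hxΩ := hsub hx
      obtain ⟨e1, e2⟩ := symm_grad (hat x hxΩ) a
      have e3 : HasFDerivAt (fderiv ℝ θ) (fderiv ℝ (fderiv ℝ θ) x) x :=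
        (hθ2.differentiable (by norm_num) x).hasFDerivAt
      have e4 := (e3.clm_apply e1).fderiv
      rw [hG, e4]
      have e5 := symm2 (hθ.contDiffAt (x := x)) a (gradient h x)
      simp only [add_apply, ContinuousLinearMap.comp_apply,
        ContinuousLinearMap.flip_apply]
      rw [hψ, e5, ← e2, add_comm]
    · have h2 : G =ᶠ[𝓝 x] 0 := by
        filter_upwards [hout x hx] with y hy
        simp [hG, hy]
      have h3 : fderiv ℝ G x = 0 := by
        rw [h2.fderiv_eq]
        simp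
      have h4 : fderiv ℝ θ x = 0 := (hout x hx).eq_of_nhds
      have h5 : ψ =ᶠ[𝓝 x] 0 := by
        filter_upwards [hout x hx] with y hy
        simp [hψ, hy]
      have h6 : fderiv ℝ ψ x = 0 := by
        rw [h5.fderiv_eq]
        simp
      rw [h3, h4, h6]
      simp
  -- integrability
  have hi1 : Integrable (fun x => fderiv ℝ ψ x (gradient h x)) := by
    have hcs : HasCompactSupport (fun x => fderiv ℝ ψ x (gradient h x)) := by
      refine HasCompactSupport.intro hc.isCompact (fun x hx => ?_)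
      have h5 : ψ =ᶠ[𝓝 x] 0 := by
        filter_upwards [hout x hx] with y hy
        simp [hψ, hy]
      have h6 : fderiv ℝ ψ x = 0 := by
        rw [h5.fderiv_eq]
        simp
      rw [h6]
      simp
    refine Continuous.integrable_of_hasCompactSupport ?_ hcs
    refine continuous_iff_continuousAt.2 fun x => ?_
    by_cases hx : x ∈ tsupport θ
    · have h7 : ContDiff ℝ (⊤ : ℕ∞) (fderiv ℝ ψ) := hψs.fderiv_right (by exact_mod_cast le_top)
      exact h7.continuous.continuousAt.clm_apply (hgr x (hsub hx)).continuousAt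
    · have h8 : (fun x => fderiv ℝ ψ x (gradient h x)) =ᶠ[𝓝 x] 0 := by
        have h9 : ∀ᶠ y in 𝓝 x, y ∉ tsupport θ := (isClosed_tsupport θ).isOpen_compl.mem_nhds hx
        filter_upwards [h9] with y hy
        have h5 : ψ =ᶠ[𝓝 y] 0 := by
          filter_upwards [hout y hy] with z hz
          simp [hψ, hz]
        have h6 : fderiv ℝ ψ y = 0 := by
          rw [h5.fderiv_eq]
          simp
        simp [h6]
      exact (continuousAt_const (y := (0 : ℝ))).congr_of_eventuallyEq h8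
  have hi2 : Integrable (fun x => fderiv ℝ G x a) := (SCP.IBP_.integral_dir G hGs hGc a).1
  have hi3 : (fun x => fderiv ℝ θ x (gradient (fun y => fderiv ℝ h y a) x))
      = fun x => fderiv ℝ G x a - fderiv ℝ ψ x (gradient h x) := by
    funext x
    rw [hdG]
    ring
  have hz : (∫ x, fderiv ℝ ψ x (gradient h x)) = 0 := by
    rw [← hw1]
    congr 1
    funext x
    simp
  calc ∫ x, ‖gradient (fun x => fderiv ℝ h x a) x‖ ^ ((2 : ℝ) - 2)
        * (fderiv ℝ θ x (gradient (fun x => fderiv ℝ h x a) x))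
      = ∫ x, fderiv ℝ θ x (gradient (fun y => fderiv ℝ h y a) x) := by
        congr 1
        funext x
        simp
    _ = 0 := by
        rw [hi3, integral_sub hi2 hi1, hint, hz, sub_zero]

end Pool.Agent.SCN
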