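import Pool.Agent.SCN.Targets

/-! # DOM: domination at all small scales -/

set_option autoImplicit false

open Set MeasureTheory Filter Topology Metric
open scoped RealInnerProductSpace

namespace Pool.Agent.SCN

open Pool.Agent.SCP (E PHarm V)

theorem dom_PB {n : ℕ} {p : ℝ} {x : E n} {r s : ℝ} {u : E n → ℝ} (h : PB p x s u) (hr : r ≤ s) :
    PB p x r u := by
  obtain ⟨Ω, h1, h2, h3⟩ := h
  exact ⟨Ω, h1, (closedBall_subset_closedBall hr).trans h2, h3⟩

theorem dom_mono {n : ℕ} {p : ℝ} (hp : 0 < p) {x : E n} {r s R : ℝ} {u : E n → ℝ}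
    (h : PB p x R u) (hrs : r ≤ s) (hs : s ≤ R) : en p u x r ≤ en p u x s := by
  obtain ⟨Ω, hΩ, h2, h3⟩ := dom_PB h hs
  have hc : ContinuousOn (gradient u) (closedBall x s) :=
    (SCP.TEST_.continuousOn_gradient hΩ h3.1).mono h2
  have hc' : ContinuousOn (fun y => ‖gradient u y‖ ^ p) (closedBall x s) :=
    hc.norm.rpow_const fun _ _ => Or.inr hp.le
  have hi : IntegrableOn (fun y => ‖gradient u y‖ ^ p) (ball x s) :=
    (hc'.integrableOn_compact (isCompact_closedBall _ _)).mono_set ball_subset_closedBall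
  refine setIntegral_mono_set hi ?_ (HasSubset.Subset.eventuallyLE (ball_subset_ball hrs))
  exact Eventually.of_forall fun y => Real.rpow_nonneg (norm_nonneg _) _

theorem dom_en_nonneg {n : ℕ} (p : ℝ) (u : E n → ℝ) (x : E n) (r : ℝ) : 0 ≤ en p u x r :=
  integral_nonneg fun _ => Real.rpow_nonneg (norm_nonneg _) _

theorem dom_mg_nonneg {n : ℕ} (p : ℝ) (u : E n → ℝ) (x : E n) {r : ℝ} (hr : 0 < r) :
    0 ≤ mg p u x r :=
  Real.rpow_nonneg (div_nonneg (dom_en_nonneg _ _ _ _) (pow_pos hr n).le) _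

theorem p_DOM (hD : T_D3D) : T_DOM := by
  intro n m hn
  obtain ⟨L₀, e₀, hL₀, he₀, H⟩ := hD n (2 ^ (m + 1)) hn
  refine ⟨L₀ * 2 ^ m + 1, min e₀ 1, by positivity, lt_min he₀ one_pos, ?_⟩
  intro p hp u v x R hDbl hPv hxx hsign
  have hp1 : 1 < p := by
    have := abs_lt.1 (hp.trans_le (min_le_right _ _))
    linarith [this.1]
  have hp0 : 0 < p := by linarith
  have hpe : |p - 2| < e₀ := hp.trans_le (min_le_left _ _)
  obtain ⟨hR, hPu, hdb⟩ := hDbl
  have hx : x ∈ closedBall x R := mem_closedBall_self hR.le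
  -- positivity of `mg p u x r`
  have hupos : ∀ r : ℝ, 0 < r → r ≤ R → 0 < mg p u x r := by
    intro r hr hrR
    have h1 : 0 < en p u x r := (hdb x hx r hr hrR).2
    exact Real.rpow_pos_of_pos (div_pos h1 (pow_pos hr n)) _
  -- doubling of `mg p u x`
  have hdbl : ∀ r : ℝ, 0 < r → 2 * r ≤ R → mg p u x (2 * r) ≤ 2 ^ m * mg p u x r := by
    intro r hr hrR
    have h1 : en p u x (2 * r) ≤ 2 ^ m * en p u x r :=
      (dom_mono hp0 hPu (by linarith) (by linarith)).trans (hdb x hx r hr (by linarith)).1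
    have h2 : en p u x (2 * r) / (2 * r) ^ n ≤ 2 ^ m * (en p u x r / r ^ n) := by
      have h3 : r ^ n ≤ (2 * r) ^ n := pow_le_pow_left₀ hr.le (by linarith) n
      have h4 : 0 < r ^ n := pow_pos hr n
      calc en p u x (2 * r) / (2 * r) ^ n ≤ en p u x (2 * r) / r ^ n :=
            div_le_div_of_nonneg_left (dom_en_nonneg _ _ _ _) h4 h3
        _ ≤ (2 ^ m * en p u x r) / r ^ n := div_le_div_of_nonneg_right h1 h4.le
        _ = 2 ^ m * (en p u x r / r ^ n) := by ring
    have h5 : 0 ≤ en p u x r / r ^ n := div_nonneg (dom_en_nonneg _ _ _ _) (pow_pos hr n).le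
    calc mg p u x (2 * r) ≤ (2 ^ m * (en p u x r / r ^ n)) ^ (1 / p) :=
          Real.rpow_le_rpow (div_nonneg (dom_en_nonneg _ _ _ _)
            (pow_pos (by linarith : (0:ℝ) < 2 * r) n).le) h2 (by positivity)
      _ = (2 ^ m : ℝ) ^ (1 / p) * mg p u x r := by
          rw [Real.mul_rpow (by positivity) h5]; rfl
      _ ≤ 2 ^ m * mg p u x r := by
          refine mul_le_mul_of_nonneg_right ?_ (dom_mg_nonneg _ _ _ hr)
          calc ((2:ℝ) ^ m) ^ (1 / p) ≤ ((2:ℝ) ^ m) ^ (1 : ℝ) := by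
                refine Real.rpow_le_rpow_of_exponent_le (one_le_pow₀ (by norm_num)) ?_
                rw [div_le_one hp0]; exact hp1.le
            _ = 2 ^ m := Real.rpow_one _
  -- one step
  have hstep : ∀ r : ℝ, 0 < r → 2 * r ≤ R →
      mg p v x r ≤ (L₀ * 2 ^ m) * mg p u x r ∨
      mg p v x r / mg p u x r ≤ (mg p v x (2 * r) / mg p u x (2 * r)) / 2 := by
    intro r hr hrR
    have hu1 := hupos r hr (by linarith)
    have hu2 := hupos (2 * r) (by linarith) hrR
    by_cases hG : mg p v x (2 * r) ≤ 2 ^ (m + 1) * mg p v x r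
    · left
      have h1 := H p hpe u v x r hr (dom_PB hPu (by linarith)) (dom_PB hPv hrR) hxx ?_ hG
      · calc mg p v x r ≤ L₀ * mg p u x (2 * r) := h1
          _ ≤ L₀ * (2 ^ m * mg p u x r) := mul_le_mul_of_nonneg_left (hdbl r hr hrR) hL₀.le
          _ = (L₀ * 2 ^ m) * mg p u x r := by ring
      · have hsub : ball x (2 * r) ⊆ closedBall x R :=
          ball_subset_closedBall.trans (closedBall_subset_closedBall hrR)
        rcases hsign with h | h
        · exact Or.inl fun y hy => h y (hsub hy)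
        · exact Or.inr fun y hy => h y (hsub hy)
    · right
      push Not at hG
      have h1 := hdbl r hr hrR
      rw [div_div, div_le_div_iff₀ hu1 (by positivity)]
      have hv1 : 0 ≤ mg p v x r := dom_mg_nonneg _ _ _ hr
      calc mg p v x r * (mg p u x (2 * r) * 2)
          ≤ mg p v x r * (2 ^ m * mg p u x r * 2) := by
            refine mul_le_mul_of_nonneg_left ?_ hv1
            linarith
        _ = (2 ^ (m + 1) * mg p v x r) * mg p u x r := by ring
        _ ≤ mg p v x (2 * r) * mg p u x r :=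
            mul_le_mul_of_nonneg_right hG.le hu1.le
  -- the bound on the first interval
  obtain ⟨Q, hQ0, hQ⟩ : ∃ Q : ℝ, 0 ≤ Q ∧ ∀ r : ℝ, R / 4 < r → r ≤ R / 2 →
      mg p v x r / mg p u x r ≤ Q := by
    have hR4 : 0 < R / 4 := by linarith
    refine ⟨((en p v x (R / 2) / (R / 4) ^ n) ^ (1 / p)) /
      ((en p u x (R / 4) / (R / 2) ^ n) ^ (1 / p)), ?_, ?_⟩
    · refine div_nonneg (Real.rpow_nonneg (div_nonneg (dom_en_nonneg _ _ _ _) ?_) _)
        (Real.rpow_nonneg (div_nonneg (dom_en_nonneg _ _ _ _) ?_) _)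
      · exact (pow_pos hR4 n).le
      · exact (pow_pos (by linarith) n).le
    · intro r hr1 hr2
      have hr : 0 < r := by linarith
      have hB : 0 < (en p u x (R / 4) / (R / 2) ^ n) ^ (1 / p) :=
        Real.rpow_pos_of_pos (div_pos (hdb x hx (R / 4) hR4 (by linarith)).2
          (pow_pos (by linarith) n)) _
      refine div_le_div₀ (Real.rpow_nonneg (div_nonneg (dom_en_nonneg _ _ _ _)
        (pow_pos hR4 n).le) _) ?_ hB ?_
      · refine Real.rpow_le_rpow (div_nonneg (dom_en_nonneg _ _ _ _) (pow_pos hr n).le) ?_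
          (by positivity)
        exact div_le_div₀ (dom_en_nonneg _ _ _ _) (dom_mono hp0 hPv hr2 (by linarith))
          (pow_pos hR4 n) (pow_le_pow_left₀ hR4.le hr1.le n)
      · refine Real.rpow_le_rpow (div_nonneg (dom_en_nonneg _ _ _ _)
          (pow_pos (by linarith) n).le) ?_ (by positivity)
        exact div_le_div₀ (dom_en_nonneg _ _ _ _) (dom_mono hp0 hPu hr1.le (by linarith))
          (pow_pos hr n) (pow_le_pow_left₀ hr.le hr2 n)
  -- induction over the scales
  have hind : ∀ i : ℕ, ∀ r : ℝ, (1 / 2) ^ (i + 1) * (R / 2) < r → r ≤ (1 / 2) ^ i * (R / 2) →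
      mg p v x r / mg p u x r ≤ max (L₀ * 2 ^ m) ((1 / 2) ^ i * Q) := by
    intro i
    induction i with
    | zero =>
      intro r h1 h2
      refine (hQ r ?_ ?_).trans ?_
      · linarith
      · simpa using h2
      · simp
    | succ i ih =>
      intro r h1 h2
      have hr : 0 < r := lt_trans (by positivity) h1
      have hle : (1 / 2 : ℝ) ^ (i + 1) ≤ 1 / 2 := by
        rw [pow_succ]
        have : (1 / 2 : ℝ) ^ i ≤ 1 := pow_le_one₀ (by norm_num) (by norm_num)
        linarith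
      have h2R : 2 * r ≤ R := by nlinarith
      have hu1 := hupos r hr (by linarith)
      rcases hstep r hr h2R with h | h
      · refine le_max_of_le_left ?_
        rw [div_le_iff₀ hu1]; exact h
      · have h3 := ih (2 * r) (by rw [pow_succ] at h1; linarith) (by rw [pow_succ] at h2; linarith)
        have hLL : (0:ℝ) ≤ L₀ * 2 ^ m := by positivity
        refine h.trans ?_
        rcases le_max_iff.1 h3 with h4 | h4
        · exact le_max_of_le_left (by linarith)
        · refine le_max_of_le_right ?_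
          rw [pow_succ]; linarith
  -- conclusion
  obtain ⟨i₀, hi₀⟩ : ∃ i₀ : ℕ, ((1:ℝ) / 2) ^ i₀ * Q < 1 := by
    rcases hQ0.eq_or_lt with h | h
    · exact ⟨0, by rw [← h]; simp⟩
    · obtain ⟨i, hi⟩ := exists_pow_lt_of_lt_one (show (0:ℝ) < 1 / Q by positivity)
        (show (1/2 : ℝ) < 1 by norm_num)
      exact ⟨i, by rwa [lt_div_iff₀ h] at hi⟩
  refine ⟨(1 / 2) ^ i₀ * (R / 2), by positivity, ?_⟩
  intro r hr hrr
  have hpow1 : ((1:ℝ) / 2) ^ i₀ ≤ 1 := pow_le_one₀ (by norm_num) (by norm_num)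
  have hrR : r / (R / 2) ≤ 1 := by
    rw [div_le_one (by linarith)]
    refine hrr.trans ?_
    nlinarith
  obtain ⟨i, hi1, hi2⟩ := exists_nat_pow_near_of_lt_one (x := r / (R / 2)) (y := (1:ℝ) / 2)
    (by positivity) hrR (by norm_num) (by norm_num)
  rw [lt_div_iff₀ (by linarith)] at hi1
  rw [div_le_iff₀ (by linarith)] at hi2
  have hii : i₀ ≤ i := by
    by_contra hcon
    push Not at hcon
    have h1 : ((1:ℝ) / 2) ^ i₀ ≤ (1 / 2) ^ (i + 1) :=
      pow_le_pow_of_le_one (by norm_num) (by norm_num) (by omega)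
    have : ((1:ℝ) / 2) ^ i₀ * (R / 2) ≤ (1 / 2) ^ (i + 1) * (R / 2) :=
      mul_le_mul_of_nonneg_right h1 (by linarith)
    linarith
  have h1 := hind i r hi1 hi2
  have hu1 := hupos r hr (by
    refine hrr.trans ?_
    nlinarith)
  have h2 : ((1:ℝ) / 2) ^ i * Q ≤ (1 / 2) ^ i₀ * Q :=
    mul_le_mul_of_nonneg_right (pow_le_pow_of_le_one (by norm_num) (by norm_num) hii) hQ0
  have hLL : (0:ℝ) ≤ L₀ * 2 ^ m := by positivity
  have h3 : mg p v x r / mg p u x r ≤ L₀ * 2 ^ m + 1 := by
    refine h1.trans (max_le (by linarith) (by linarith))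
  rwa [div_le_iff₀ hu1] at h3

end Pool.Agent.SCN
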