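import Pool.Agent.SCN.Targets

/-! # Target ENC -/

set_option autoImplicit false

open Set MeasureTheory Filter Topology Metric
open scoped RealInnerProductSpace

namespace Pool.Agent.SCN

open Pool.Agent.SCP (E PHarm V)

/-- scalar inequality -/
theorem enc_scalar {a b d δ p : ℝ} (ha : 0 ≤ a) (hb : 0 ≤ b) (hd : |a - b| ≤ d) (hδ : 0 < δ)
    (hδ1 : δ ≤ 1) (hp0 : 1 ≤ p) (hp : p ≤ 3) :
    |a ^ p - b ^ p| ≤ δ * b ^ p + (1 + 7 / δ) ^ (3 : ℕ) * d ^ p := by
  have hd0 : 0 ≤ d := (abs_nonneg _).trans hd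
  obtain ⟨h1, h2⟩ := abs_le.1 hd
  have hp0' : 0 ≤ p := by linarith
  have hbp : 0 ≤ b ^ p := Real.rpow_nonneg hb p
  have hap : 0 ≤ a ^ p := Real.rpow_nonneg ha p
  have hdp : 0 ≤ d ^ p := Real.rpow_nonneg hd0 p
  have h7 : 0 < 7 / δ := by positivity
  by_cases hc : d ≤ δ / 7 * b
  · obtain ⟨η, hη⟩ : ∃ η : ℝ, η = δ / 7 := ⟨_, rfl⟩
    rw [← hη] at hc
    have hη0 : 0 < η := by rw [hη]; positivity
    have hη1 : η ≤ 1 / 7 := by rw [hη]; linarith
    have hu : a ≤ (1 + η) * b := by nlinarith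
    have hl : (1 - η) * b ≤ a := by nlinarith
    have hu' : a ^ p ≤ ((1 + η) * b) ^ p := Real.rpow_le_rpow ha hu hp0'
    have hl' : ((1 - η) * b) ^ p ≤ a ^ p :=
      Real.rpow_le_rpow (mul_nonneg (by linarith) hb) hl hp0'
    rw [Real.mul_rpow (by linarith) hb] at hu' hl'
    have e1 : (1 + η) ^ p ≤ 1 + δ := by
      calc (1 + η) ^ p ≤ (1 + η) ^ (3 : ℝ) := Real.rpow_le_rpow_of_exponent_le (by linarith) hp
        _ = (1 + η) ^ (3 : ℕ) := by
            rw [← Real.rpow_natCast]; norm_num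
        _ ≤ 1 + 7 * η := by nlinarith [mul_pos hη0 hη0]
        _ = 1 + δ := by rw [hη]; ring
    have e2 : 1 - δ ≤ (1 - η) ^ p := by
      calc 1 - δ = 1 - 7 * η := by rw [hη]; ring
        _ ≤ (1 - η) ^ (3 : ℕ) := by nlinarith [mul_pos hη0 hη0, mul_pos (mul_pos hη0 hη0) hη0]
        _ = (1 - η) ^ (3 : ℝ) := by
            rw [← Real.rpow_natCast]; norm_num
        _ ≤ (1 - η) ^ p := Real.rpow_le_rpow_of_exponent_ge (by linarith) (by linarith) hp
    have e3 : 0 ≤ (1 + 7 / δ) ^ (3 : ℕ) * d ^ p := by positivity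
    rw [abs_le]
    constructor <;> nlinarith
  · push Not at hc
    have hb1 : b ≤ 7 / δ * d := by
      have : δ / 7 * b * (7 / δ) ≤ d * (7 / δ) := mul_le_mul_of_nonneg_right hc.le h7.le
      have e : δ / 7 * b * (7 / δ) = b := by field_simp
      rw [e] at this
      linarith
    have hb2 : b ≤ (1 + 7 / δ) * d := by nlinarith
    have ha2 : a ≤ (1 + 7 / δ) * d := by nlinarith
    have hK : (1 : ℝ) ≤ 1 + 7 / δ := by linarith
    have key : ((1 + 7 / δ) * d) ^ p ≤ (1 + 7 / δ) ^ (3 : ℕ) * d ^ p := by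
      rw [Real.mul_rpow (by linarith) hd0]
      refine mul_le_mul_of_nonneg_right ?_ hdp
      calc (1 + 7 / δ) ^ p ≤ (1 + 7 / δ) ^ (3 : ℝ) := Real.rpow_le_rpow_of_exponent_le hK hp
        _ = (1 + 7 / δ) ^ (3 : ℕ) := by
            rw [← Real.rpow_natCast]; norm_num
    have ha3 : a ^ p ≤ (1 + 7 / δ) ^ (3 : ℕ) * d ^ p := (Real.rpow_le_rpow ha ha2 hp0').trans key
    have hb3 : b ^ p ≤ (1 + 7 / δ) ^ (3 : ℕ) * d ^ p := (Real.rpow_le_rpow hb hb2 hp0').trans key
    have e3 : 0 ≤ δ * b ^ p := by positivity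
    rw [abs_le]
    constructor <;> linarith

theorem p_ENC : T_ENC := by
  intro n p u h hp hPB hen hh hlim r hr hr2
  have hcl : closedBall (0 : E n) r ⊆ ball 0 (13 / 4) :=
    closedBall_subset_ball (by linarith)
  have hcl4 : closedBall (0 : E n) r ⊆ closedBall 0 4 := closedBall_subset_closedBall (by linarith)
  have hgh : ContinuousOn (gradient h) (ball (0 : E n) (13 / 4)) :=
    SCP.TEST_.continuousOn_gradient isOpen_ball
      (hh.1.of_le (by exact_mod_cast le_top))
  have hgu : ∀ j, ContinuousOn (gradient (u j)) (closedBall (0 : E n) 4) := by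
    intro j
    obtain ⟨Ω, hΩ, hsub, hu⟩ := hPB j
    exact (SCP.TEST_.continuousOn_gradient hΩ hu.1).mono hsub
  have hK : IsCompact (closedBall (0 : E n) r) := isCompact_closedBall _ _
  have hbh : ContinuousOn (fun x => ‖gradient h x‖) (closedBall (0 : E n) r) :=
    (hgh.mono hcl).norm
  have hbu : ∀ j, ContinuousOn (fun x => ‖gradient (u j) x‖) (closedBall (0 : E n) r) :=
    fun j => ((hgu j).mono hcl4).norm
  have hbd : ∀ j, ContinuousOn (fun x => ‖gradient (u j) x - gradient h x‖)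
      (closedBall (0 : E n) r) := fun j => (((hgu j).mono hcl4).sub (hgh.mono hcl)).norm
  have hint : ∀ f : E n → ℝ, ContinuousOn f (closedBall (0 : E n) r) →
      IntegrableOn f (ball (0 : E n) r) volume := fun f hf =>
    (hf.integrableOn_compact hK).mono_set ball_subset_closedBall
  obtain ⟨S, hS⟩ := hK.exists_bound_of_continuousOn hbh
  obtain ⟨M, hM⟩ : ∃ M : ℝ, M = max S 1 := ⟨_, rfl⟩
  have hM1 : 1 ≤ M := by rw [hM]; exact le_max_right _ _
  have hSM : ∀ x ∈ closedBall (0 : E n) r, ‖gradient h x‖ ≤ M := by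
    intro x hx
    have := hS x hx
    rw [norm_norm] at this
    rw [hM]
    exact this.trans (le_max_left _ _)
  have hp1 : ∀ᶠ j in atTop, 1 < p j := hp.eventually (lt_mem_nhds (by norm_num))
  have hp3 : ∀ᶠ j in atTop, p j < 3 := hp.eventually (gt_mem_nhds (by norm_num))
  -- bound of the power
  have hpow : ∀ j, 1 < p j → p j < 3 → ∀ x ∈ closedBall (0 : E n) r,
      ‖gradient h x‖ ^ p j ≤ M ^ (3 : ℝ) := by
    intro j h1 h3 x hx
    calc ‖gradient h x‖ ^ p j ≤ M ^ p j := Real.rpow_le_rpow (norm_nonneg _) (hSM x hx) (by linarith)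
      _ ≤ M ^ (3 : ℝ) := Real.rpow_le_rpow_of_exponent_le hM1 h3.le
  -- part 1: the energies of h
  have part1 : Tendsto (fun j => ∫ x in ball (0 : E n) r, ‖gradient h x‖ ^ p j) atTop
      (𝓝 (∫ x in ball (0 : E n) r, ‖gradient h x‖ ^ 2)) := by
    refine tendsto_integral_filter_of_dominated_convergence (fun _ => M ^ (3 : ℝ)) ?_ ?_ ?_ ?_
    · filter_upwards [hp1] with j h1
      exact (hint _ (hbh.rpow_const fun x _ => Or.inr (by linarith))).aestronglyMeasurable
    · filter_upwards [hp1, hp3] with j h1 h3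
      refine (ae_restrict_iff' measurableSet_ball).2 (Eventually.of_forall fun x hx => ?_)
      rw [Real.norm_of_nonneg (Real.rpow_nonneg (norm_nonneg _) _)]
      exact hpow j h1 h3 x (ball_subset_closedBall hx)
    · exact integrableOn_const (measure_ball_lt_top.ne)
    · refine Eventually.of_forall fun x => ?_
      have hc : ContinuousAt (fun y : ℝ => ‖gradient h x‖ ^ y) 2 :=
        Real.continuousAt_const_rpow' (by norm_num)
      have h2 := hc.tendsto.comp hp
      simpa [Function.comp_def] using h2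
  -- part 2: the difference
  have part2 : Tendsto (fun j => en (p j) (u j) 0 r - ∫ x in ball (0 : E n) r,
      ‖gradient h x‖ ^ p j) atTop (𝓝 0) := by
    rw [Metric.tendsto_atTop]
    intro ε hε
    obtain ⟨W, hW⟩ : ∃ W : ℝ, W = (volume (ball (0 : E n) r)).toReal * M ^ (3 : ℝ) := ⟨_, rfl⟩
    have hW0 : 0 ≤ W := by rw [hW]; positivity
    obtain ⟨δ, hδ⟩ : ∃ δ : ℝ, δ = min 1 (ε / (2 * (W + 1))) := ⟨_, rfl⟩
    have hδ0 : 0 < δ := by rw [hδ]; exact lt_min one_pos (by positivity)
    have hδ1 : δ ≤ 1 := by rw [hδ]; exact min_le_left _ _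
    have hδW : δ * W < ε / 2 := by
      have h1 : δ ≤ ε / (2 * (W + 1)) := by rw [hδ]; exact min_le_right _ _
      calc δ * W < δ * (W + 1) := by nlinarith
        _ ≤ ε / (2 * (W + 1)) * (W + 1) := mul_le_mul_of_nonneg_right h1 (by linarith)
        _ = ε / 2 := by field_simp
    have hlim' := hlim.const_mul ((1 + 7 / δ) ^ (3 : ℕ))
    rw [mul_zero] at hlim'
    have ev : ∀ᶠ j in atTop, (1 + 7 / δ) ^ (3 : ℕ) *
        ∫ x in ball (0 : E n) (5 / 2), ‖gradient (u j) x - gradient h x‖ ^ p j < ε / 2 :=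
      hlim'.eventually (gt_mem_nhds (by linarith))
    have fin : ∀ᶠ j in atTop, dist (en (p j) (u j) 0 r - ∫ x in ball (0 : E n) r,
        ‖gradient h x‖ ^ p j) 0 < ε := by
      filter_upwards [hp1, hp3, ev] with j h1 h3 hj
      have hp0 : 0 ≤ p j := by linarith
      have i1 : IntegrableOn (fun x => ‖gradient (u j) x‖ ^ p j) (ball (0 : E n) r) :=
        hint _ ((hbu j).rpow_const fun x _ => Or.inr hp0)
      have i2 : IntegrableOn (fun x => ‖gradient h x‖ ^ p j) (ball (0 : E n) r) :=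
        hint _ (hbh.rpow_const fun x _ => Or.inr hp0)
      have i3 : IntegrableOn (fun x => ‖gradient (u j) x - gradient h x‖ ^ p j)
          (ball (0 : E n) r) := hint _ ((hbd j).rpow_const fun x _ => Or.inr hp0)
      have i4 : IntegrableOn (fun x => ‖gradient (u j) x - gradient h x‖ ^ p j)
          (ball (0 : E n) (5 / 2)) := by
        have hc1 : closedBall (0 : E n) (5 / 2) ⊆ ball 0 (13 / 4) :=
          closedBall_subset_ball (by norm_num)
        have hc2 : closedBall (0 : E n) (5 / 2) ⊆ closedBall 0 4 :=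
          closedBall_subset_closedBall (by norm_num)
        have hcc : ContinuousOn (fun x => ‖gradient (u j) x - gradient h x‖)
            (closedBall (0 : E n) (5 / 2)) := (((hgu j).mono hc2).sub (hgh.mono hc1)).norm
        exact ((hcc.rpow_const fun x _ => Or.inr hp0).integrableOn_compact
          (isCompact_closedBall _ _)).mono_set ball_subset_closedBall
      rw [Real.dist_eq, sub_zero]
      have e1 : en (p j) (u j) 0 r - ∫ x in ball (0 : E n) r, ‖gradient h x‖ ^ p j =
          ∫ x in ball (0 : E n) r, (‖gradient (u j) x‖ ^ p j - ‖gradient h x‖ ^ p j) := by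
        unfold en
        rw [integral_sub i1 i2]
      rw [e1]
      have e2 : |∫ x in ball (0 : E n) r, (‖gradient (u j) x‖ ^ p j - ‖gradient h x‖ ^ p j)| ≤
          ∫ x in ball (0 : E n) r, |‖gradient (u j) x‖ ^ p j - ‖gradient h x‖ ^ p j| :=
        abs_integral_le_integral_abs
      have e3 : ∫ x in ball (0 : E n) r, |‖gradient (u j) x‖ ^ p j - ‖gradient h x‖ ^ p j| ≤
          ∫ x in ball (0 : E n) r, (δ * ‖gradient h x‖ ^ p j + (1 + 7 / δ) ^ (3 : ℕ) *
            ‖gradient (u j) x - gradient h x‖ ^ p j) := by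
        refine integral_mono (i1.sub i2).abs ((i2.const_mul δ).add (i3.const_mul _)) ?_
        intro x
        exact enc_scalar (norm_nonneg _) (norm_nonneg _) (abs_norm_sub_norm_le _ _) hδ0 hδ1
          h1.le h3.le
      have e4 : ∫ x in ball (0 : E n) r, (δ * ‖gradient h x‖ ^ p j + (1 + 7 / δ) ^ (3 : ℕ) *
            ‖gradient (u j) x - gradient h x‖ ^ p j) = δ * (∫ x in ball (0 : E n) r,
            ‖gradient h x‖ ^ p j) + (1 + 7 / δ) ^ (3 : ℕ) * ∫ x in ball (0 : E n) r,
            ‖gradient (u j) x - gradient h x‖ ^ p j := by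
        rw [integral_add (i2.const_mul δ) (i3.const_mul _), integral_const_mul,
          integral_const_mul]
      have e5 : ∫ x in ball (0 : E n) r, ‖gradient h x‖ ^ p j ≤ W := by
        have : ∫ x in ball (0 : E n) r, ‖gradient h x‖ ^ p j ≤
            ∫ x in ball (0 : E n) r, M ^ (3 : ℝ) := by
          refine setIntegral_mono_on i2 (integrableOn_const measure_ball_lt_top.ne)
            measurableSet_ball ?_
          intro x hx
          exact hpow j h1 h3 x (ball_subset_closedBall hx)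
        refine this.trans (le_of_eq ?_)
        rw [setIntegral_const, hW]
        rfl
      have e6 : ∫ x in ball (0 : E n) r, ‖gradient (u j) x - gradient h x‖ ^ p j ≤
          ∫ x in ball (0 : E n) (5 / 2), ‖gradient (u j) x - gradient h x‖ ^ p j := by
        refine setIntegral_mono_set i4 ?_ ?_
        · exact Eventually.of_forall fun x => Real.rpow_nonneg (norm_nonneg _) _
        · exact (ball_subset_ball hr2).eventuallyLE
      have e7 : 0 ≤ (1 + 7 / δ) ^ (3 : ℕ) := by positivity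
      calc _ ≤ _ := e2
        _ ≤ _ := e3
        _ = _ := e4
        _ ≤ δ * W + (1 + 7 / δ) ^ (3 : ℕ) *
            ∫ x in ball (0 : E n) (5 / 2), ‖gradient (u j) x - gradient h x‖ ^ p j :=
          add_le_add (mul_le_mul_of_nonneg_left e5 hδ0.le) (mul_le_mul_of_nonneg_left e6 e7)
        _ < ε := by linarith
    exact eventually_atTop.1 fin
  have := part2.add part1
  simpa using this

end Pool.Agent.SCN
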