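import Pool.Agent.SCN.Targets2
import Pool.Agent.SCP.All

/-! # Strong comparison near `p = 2` on compact sets: target `ENC2` -/

set_option autoImplicit false

open Set MeasureTheory Filter Topology Metric
open scoped RealInnerProductSpace

namespace Pool.Agent.SCN

open Pool.Agent.SCP (E PHarm V)

/-- The strong minimum principle in the whole space. -/
theorem enc2_const {n : ℕ} {p : ℝ} {w : E n → ℝ} {c : ℝ} (hn : 1 ≤ n) (hp : 1 < p)
    (hw : PHarm p univ w) (hc : ∀ x, c ≤ w x) (hx : ∃ x, w x = c) : ∀ x, w x = c := by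
  have hcont : Continuous w := by
    have := hw.1.continuousOn
    rwa [← continuousOn_univ]
  have hclosed : IsClosed {x | w x = c} := isClosed_eq hcont continuous_const
  have hopen : IsOpen {x | w x = c} := by
    rw [isOpen_iff_mem_nhds]
    intro x hx
    exact SCP.smp_ n p univ w c x hn hp isOpen_univ hw (mem_univ _)
      (Eventually.of_forall hc) hx
  have h : {x | w x = c} = univ := IsClopen.eq_univ ⟨hclosed, hopen⟩ hx
  intro x
  have : x ∈ {x | w x = c} := by
    rw [h]
    exact mem_univ x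
  exact this

theorem p_ENC2 (hENT : T_ENT) : T_ENC2 := by
  intro n K hn
  obtain ⟨e, he, hE⟩ := hENT n K hn
  refine ⟨min e 1, lt_min he one_pos, ?_⟩
  intro p hp u v hu hv huv hgr hx
  have hp1 : |p - 2| < e := lt_of_lt_of_le hp (min_le_left _ _)
  have hp2 : |p - 2| < 1 := lt_of_lt_of_le hp (min_le_right _ _)
  have hp3 : 1 < p := by linarith [(abs_lt.1 hp2).1]
  rcases hgr with hA | hA
  · by_cases hc : ∃ x y, u x ≠ u y
    · exact hE p hp1 u v hu hv (Or.inl huv) hA hc hx
    · push Not at hc
      obtain ⟨x₁, hx₁⟩ := hx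
      have h := enc2_const (c := u x₁) hn hp3 hv (fun x => by rw [hc x₁ x]; exact huv x)
        ⟨x₁, hx₁.symm⟩
      intro x
      rw [h x, hc x x₁]
  · by_cases hc : ∃ x y, v x ≠ v y
    · intro x
      obtain ⟨x₁, hx₁⟩ := hx
      exact (hE p hp1 v u hv hu (Or.inr huv) hA hc ⟨x₁, hx₁.symm⟩ x).symm
    · push Not at hc
      obtain ⟨x₁, hx₁⟩ := hx
      have h := enc2_const (c := - v x₁) hn hp3 ((SCP.neg n p 0 univ u).1 hu)
        (fun x => by rw [hc x₁ x]; exact neg_le_neg (huv x)) ⟨x₁, by rw [hx₁]⟩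
      intro x
      have := neg_injective (h x)
      rw [this, hc x x₁]

end Pool.Agent.SCN
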