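import Pool.Agent.SCN.Targets

/-! # ENG: energy estimate for the logarithm of the difference -/

set_option autoImplicit false

open Set MeasureTheory Filter Topology Metric
open scoped RealInnerProductSpace

namespace Pool.Agent.SCN

open Pool.Agent.SCP (E PHarm V)

/-- the cutoff functions -/
lemma eng_cutoff (n : ℕ) : ∃ K : ℝ, 0 < K ∧ ∀ (x : E n) (r : ℝ), 0 < r → ∃ η : E n → ℝ,
    ContDiff ℝ 1 η ∧ (∀ z, 0 ≤ η z) ∧ (∀ z, η z ≤ 1) ∧ (∀ z ∈ ball x r, η z = 1) ∧
    (∀ z, z ∉ ball x (2 * r) → η z = 0) ∧ tsupport η ⊆ closedBall x (2 * r) ∧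
    ∀ z, ‖gradient η z‖ ≤ K / r := by
  let f : ContDiffBump (0 : E n) := ⟨1, 2, one_pos, one_lt_two⟩
  have hf : ContDiff ℝ 1 (f : E n → ℝ) := f.contDiff
  have hfc : HasCompactSupport (f : E n → ℝ) := f.hasCompactSupport
  obtain ⟨K, hK⟩ : ∃ K, ∀ z, ‖fderiv ℝ (f : E n → ℝ) z‖ ≤ K :=
    (hf.continuous_fderiv (by norm_num)).bounded_above_of_compact_support (hfc.fderiv (𝕜 := ℝ))
  have hK0 : 0 ≤ K := (norm_nonneg _).trans (hK 0)
  refine ⟨K + 1, by linarith, fun x r hr => ?_⟩
  have hri : 0 < r⁻¹ := inv_pos.2 hr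
  have hnorm : ∀ z : E n, ‖r⁻¹ • (z - x)‖ = ‖z - x‖ / r := by
    intro z
    rw [norm_smul, Real.norm_of_nonneg hri.le]
    field_simp
  have hsupp : ∀ z : E n, z ∉ ball x (2 * r) → f (r⁻¹ • (z - x)) = 0 := by
    intro z hz
    apply f.zero_of_le_dist
    rw [dist_zero_right, hnorm]
    have h1 : 2 * r ≤ ‖z - x‖ := by
      rw [mem_ball, dist_eq_norm, not_lt] at hz
      exact hz
    change (2 : ℝ) ≤ _
    rw [le_div_iff₀ hr]
    exact h1
  refine ⟨fun z => f (r⁻¹ • (z - x)), ?_, fun z => f.nonneg, fun z => f.le_one, ?_, hsupp, ?_, ?_⟩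
  · have h1 : ContDiff ℝ 1 (fun z : E n => r⁻¹ • (z - x)) := by fun_prop
    exact hf.comp h1
  · intro z hz
    apply f.one_of_mem_closedBall
    rw [mem_closedBall, dist_zero_right, hnorm]
    change _ ≤ (1 : ℝ)
    rw [mem_ball, dist_eq_norm] at hz
    rw [div_le_one hr]
    exact hz.le
  · refine closure_minimal ?_ isClosed_closedBall
    intro z hz
    by_contra hcon
    exact hz (hsupp z fun h => hcon (ball_subset_closedBall h))
  · intro z
    have h1 : HasFDerivAt (fun z : E n => r⁻¹ • (z - x))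
        (r⁻¹ • ContinuousLinearMap.id ℝ (E n)) z :=
      ((hasFDerivAt_id z).sub_const x).const_smul r⁻¹
    have h2 : HasFDerivAt (f : E n → ℝ) (fderiv ℝ (f : E n → ℝ) (r⁻¹ • (z - x)))
        (r⁻¹ • (z - x)) := (hf.differentiable (by norm_num) _).hasFDerivAt
    have h3 := h2.comp z h1
    have h4 : fderiv ℝ (fun z => f (r⁻¹ • (z - x))) z =
        (fderiv ℝ (f : E n → ℝ) (r⁻¹ • (z - x))).comp (r⁻¹ • ContinuousLinearMap.id ℝ (E n)) :=
      h3.fderiv
    rw [SCP.gradient_eq_symm, LinearIsometryEquiv.norm_map, h4]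
    calc _ ≤ ‖fderiv ℝ (f : E n → ℝ) (r⁻¹ • (z - x))‖ * ‖r⁻¹ • ContinuousLinearMap.id ℝ (E n)‖ :=
          ContinuousLinearMap.opNorm_comp_le _ _
      _ ≤ K * r⁻¹ := by
          refine mul_le_mul (hK _) ?_ (norm_nonneg _) hK0
          rw [norm_smul, Real.norm_of_nonneg hri.le]
          exact mul_le_of_le_one_right hri.le ContinuousLinearMap.norm_id_le
      _ ≤ (K + 1) / r := by
          rw [div_eq_mul_inv]
          exact mul_le_mul_of_nonneg_right (by linarith) hri.le

/-- the derivative of the test function -/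
lemma eng_deriv {n : ℕ} {Ω : Set (E n)} (hΩ : IsOpen Ω) {u v η : E n → ℝ} {t : ℝ}
    (hu : ContDiffOn ℝ 1 u Ω) (hv : ContDiffOn ℝ 1 v Ω) (hη : ContDiff ℝ 1 η) {z : E n}
    (hz : z ∈ Ω) (hq : 0 < v z - u z + t) (b : E n) :
    ⟪b, gradient (fun y => η y ^ 2 / (v y - u y + t)) z⟫ =
      2 * η z / (v z - u z + t) * ⟪b, gradient η z⟫ -
        η z ^ 2 / (v z - u z + t) ^ 2 * ⟪b, gradient v z - gradient u z⟫ := by
  have hu' : HasFDerivAt u (fderiv ℝ u z) z :=
    ((hu.contDiffAt (hΩ.mem_nhds hz)).differentiableAt (by norm_num)).hasFDerivAt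
  have hv' : HasFDerivAt v (fderiv ℝ v z) z :=
    ((hv.contDiffAt (hΩ.mem_nhds hz)).differentiableAt (by norm_num)).hasFDerivAt
  have hη' : HasFDerivAt η (fderiv ℝ η z) z := (hη.differentiable (by norm_num) z).hasFDerivAt
  have h1 : HasFDerivAt (fun y => v y - u y + t) (fderiv ℝ v z - fderiv ℝ u z) z :=
    (hv'.sub hu').add_const t
  have h2 := (hasDerivAt_inv hq.ne').comp_hasFDerivAt z h1
  have h3 := (hη'.pow 2).mul h2
  have h5 : (fun y => η y ^ 2 / (v y - u y + t)) =
      (fun x => η x ^ 2) * ((fun y => y⁻¹) ∘ fun y => v y - u y + t) := by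
    funext y
    simp [div_eq_mul_inv]
  rw [← h5] at h3
  have h4 := h3.fderiv
  have key : ∀ f : E n → ℝ, ⟪b, gradient f z⟫ = fderiv ℝ f z b := fun f => by
    rw [real_inner_comm, inner_gradient_left]
  rw [key, h4, key, inner_sub_right, key, key]
  simp only [Function.comp_apply, ContinuousLinearMap.add_apply, ContinuousLinearMap.smul_apply,
    ContinuousLinearMap.sub_apply, smul_eq_mul, nsmul_eq_mul, pow_one, Nat.cast_ofNat,
    Nat.add_one_sub_one]
  field_simp
  ring

/-- the elementary inequality behind the Caccioppoli argument -/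
lemma eng_young {S X Y : ℝ} (hS : 0 ≤ S) : 3 * (S * X * Y) ≤ S * X ^ 2 / 4 + 9 * (Y ^ 2 * S) := by
  nlinarith [mul_nonneg hS (sq_nonneg (X / 2 - 3 * Y))]

theorem p_ENG (hVEC : T_VEC) : T_ENG := by
  intro n _
  obtain ⟨C0, e0, hC0, he0, hvec⟩ := hVEC
  obtain ⟨K, hK, hcut⟩ := eng_cutoff n
  refine ⟨36 * K ^ 2, min e0 (min (1 / 2) (1 / (2 * C0))), by positivity, by positivity, ?_⟩
  intro p hp Ω u v hΩ hu hv huv x r t hr ht hball hint
  have hp0 : |p - 2| < e0 := lt_of_lt_of_le hp (min_le_left _ _)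
  have hp1 : |p - 2| < 1 / 2 := lt_of_lt_of_le hp ((min_le_right _ _).trans (min_le_left _ _))
  have hp2 : C0 * |p - 2| ≤ 1 / 2 := by
    have h1 : |p - 2| < 1 / (2 * C0) :=
      lt_of_lt_of_le hp ((min_le_right _ _).trans (min_le_right _ _))
    have h2 := mul_le_mul_of_nonneg_left h1.le hC0.le
    calc C0 * |p - 2| ≤ C0 * (1 / (2 * C0)) := h2
      _ = 1 / 2 := by field_simp
  have hp3 : 1 < p := by
    have := (abs_lt.1 hp1).1
    linarith
  obtain ⟨η, hη, hη0, hη1, hηb, hηz, hηs, hηg⟩ := hcut x r hr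
  -- notation
  set q : E n → ℝ := fun z => v z - u z + t with hq
  set D : E n → E n := fun z => gradient v z - gradient u z with hD
  set a : E n → E n := fun z => V p (gradient v z) - V p (gradient u z) with ha
  set S : E n → ℝ := fun z => sg u v z ^ (p - 2) with hS
  set P : E n → ℝ := fun z => η z ^ 2 / q z ^ 2 * ⟪a z, D z⟫ with hP
  set Q : E n → ℝ := fun z => 2 * η z / q z * ⟪a z, gradient η z⟫ with hQ
  set θ : E n → ℝ := fun z => η z ^ 2 / (v z - u z + t) with hθ
  set B : Set (E n) := ball x (2 * r) with hB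
  have hBΩ : B ⊆ Ω := ball_subset_closedBall.trans hball
  have hqpos : ∀ z ∈ Ω, 0 < q z := fun z hz => by
    have := huv z hz
    simp only [hq]
    linarith
  have hS0 : ∀ z, 0 ≤ S z := fun z =>
    Real.rpow_nonneg (add_nonneg (norm_nonneg _) (norm_nonneg _)) _
  -- pointwise bounds
  have hvec' : ∀ z, ‖a z - S z • D z‖ ≤ 1 / 2 * (S z * ‖D z‖) := by
    intro z
    have h1 := hvec n p (gradient u z) (gradient v z) hp0
    calc ‖a z - S z • D z‖ ≤ C0 * |p - 2| * (‖gradient u z‖ + ‖gradient v z‖) ^ (p - 2) *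
          ‖gradient v z - gradient u z‖ := h1
      _ = C0 * |p - 2| * (S z * ‖D z‖) := by
          simp only [hS, hD, sg]
          ring
      _ ≤ 1 / 2 * (S z * ‖D z‖) :=
          mul_le_mul_of_nonneg_right hp2 (mul_nonneg (hS0 z) (norm_nonneg _))
  have hmono : ∀ z, 1 / 2 * (S z * ‖D z‖ ^ 2) ≤ ⟪a z, D z⟫ := by
    intro z
    have h1 : ⟪a z, D z⟫ = ⟪a z - S z • D z, D z⟫ + S z * ‖D z‖ ^ 2 := by
      have h := inner_sub_left (𝕜 := ℝ) (a z) (S z • D z) (D z)
      rw [h, real_inner_smul_left, real_inner_self_eq_norm_sq]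
      ring
    have h2 : -(‖a z - S z • D z‖ * ‖D z‖) ≤ ⟪a z - S z • D z, D z⟫ :=
      (abs_le.1 (abs_real_inner_le_norm _ _)).1
    have h3 := mul_le_mul_of_nonneg_right (hvec' z) (norm_nonneg (D z))
    rw [h1]
    nlinarith
  have hnorm : ∀ z, ‖a z‖ ≤ 3 / 2 * (S z * ‖D z‖) := by
    intro z
    have h1 : ‖a z‖ ≤ ‖a z - S z • D z‖ + ‖S z • D z‖ := by
      have := norm_add_le (a z - S z • D z) (S z • D z)
      rwa [sub_add_cancel] at this
    have h2 : ‖S z • D z‖ = S z * ‖D z‖ := by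
      rw [norm_smul, Real.norm_of_nonneg (hS0 z)]
    have h3 := hvec' z
    linarith
  have hPlow : ∀ z, 1 / 2 * (S z * (η z * ‖D z‖ / q z) ^ 2) ≤ P z := by
    intro z
    have h1 : 0 ≤ η z ^ 2 / q z ^ 2 := by positivity
    have h2 := mul_le_mul_of_nonneg_left (hmono z) h1
    calc 1 / 2 * (S z * (η z * ‖D z‖ / q z) ^ 2) = η z ^ 2 / q z ^ 2 *
          (1 / 2 * (S z * ‖D z‖ ^ 2)) := by ring
      _ ≤ P z := h2
  have hP0 : ∀ z, 0 ≤ P z := fun z =>
    le_trans (mul_nonneg (by norm_num) (mul_nonneg (hS0 z) (sq_nonneg _))) (hPlow z)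
  have hQup : ∀ z ∈ Ω, Q z ≤ 1 / 2 * P z + 9 * ((K / r) ^ 2 * S z) := by
    intro z hz
    have hqz := hqpos z hz
    have h1 : ⟪a z, gradient η z⟫ ≤ 3 / 2 * (S z * ‖D z‖) * (K / r) := by
      calc ⟪a z, gradient η z⟫ ≤ ‖a z‖ * ‖gradient η z‖ := real_inner_le_norm _ _
        _ ≤ 3 / 2 * (S z * ‖D z‖) * (K / r) := by
          refine mul_le_mul (hnorm z) (hηg z) (norm_nonneg _) ?_
          have := mul_nonneg (hS0 z) (norm_nonneg (D z))
          linarith
    have h2 : 0 ≤ 2 * η z / q z := div_nonneg (mul_nonneg (by norm_num) (hη0 z)) hqz.le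
    have h3 := mul_le_mul_of_nonneg_left h1 h2
    have h4 := eng_young (S := S z) (X := η z * ‖D z‖ / q z) (Y := K / r) (hS0 z)
    have h5 : 2 * η z / q z * (3 / 2 * (S z * ‖D z‖) * (K / r)) =
        3 * (S z * (η z * ‖D z‖ / q z) * (K / r)) := by ring
    have h6 := hPlow z
    have h7 : Q z ≤ 3 * (S z * (η z * ‖D z‖ / q z) * (K / r)) := by
      rw [← h5]
      exact h3
    linarith
  -- the test function
  have hθΩ : ∀ z, z ∉ Ω → θ =ᶠ[𝓝 z] fun _ => 0 := by
    intro z hz
    have h1 : z ∉ tsupport η := fun h => hz (hball (hηs h))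
    have h2 : η =ᶠ[𝓝 z] 0 := notMem_tsupport_iff_eventuallyEq.1 h1
    filter_upwards [h2] with y hy
    simp only [hθ]
    rw [hy]
    simp
  have hθc : ContDiff ℝ 1 θ := by
    rw [contDiff_iff_contDiffAt]
    intro z
    by_cases hz : z ∈ Ω
    · have h1 := hu.1.contDiffAt (hΩ.mem_nhds hz)
      have h2 := hv.1.contDiffAt (hΩ.mem_nhds hz)
      exact (hη.contDiffAt.pow 2).div ((h2.sub h1).add contDiffAt_const) (hqpos z hz).ne'
    · exact contDiffAt_const.congr_of_eventuallyEq (hθΩ z hz)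
  have hθs : tsupport θ ⊆ closedBall x (2 * r) := by
    refine (closure_mono ?_).trans hηs
    intro z hz h0
    apply hz
    simp only [hθ]
    rw [h0]
    simp
  have hθcs : HasCompactSupport θ :=
    (isCompact_closedBall x (2 * r)).of_isClosed_subset (isClosed_tsupport _) hθs
  have hwv := weak hp3 hΩ hv hθc hθcs (hθs.trans hball)
  have hwu := weak hp3 hΩ hu hθc hθcs (hθs.trans hball)
  have hgθ : ∀ z ∈ Ω, ∀ b : E n, ⟪b, gradient θ z⟫ =
      2 * η z / q z * ⟪b, gradient η z⟫ - η z ^ 2 / q z ^ 2 * ⟪b, D z⟫ := fun z hz b =>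
    eng_deriv hΩ hu.1 hv.1 hη hz (hqpos z hz) b
  have hgz : ∀ z, z ∉ B → gradient θ z = 0 := by
    intro z hz
    by_cases hzΩ : z ∈ Ω
    · have h1 := hgθ z hzΩ (gradient θ z)
      rw [hηz z hz] at h1
      rw [real_inner_self_eq_norm_sq] at h1
      have h2 : ‖gradient θ z‖ ^ 2 = 0 := by
        rw [h1]
        simp
      exact norm_eq_zero.1 (pow_eq_zero_iff (by norm_num)|>.1 h2)
    · rw [SCP.gradient_congr (hθΩ z hzΩ)]
      exact gradient_const z 0
  -- continuity and integrability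
  have hVc : Continuous (V p : E n → E n) := SCP.MONO_.cont hp3
  have hguc : ContinuousOn (gradient u) Ω := SCP.TEST_.continuousOn_gradient hΩ hu.1
  have hgvc : ContinuousOn (gradient v) Ω := SCP.TEST_.continuousOn_gradient hΩ hv.1
  have hgηc : Continuous (gradient η) := by
    rw [← continuousOn_univ]
    exact SCP.TEST_.continuousOn_gradient isOpen_univ hη.contDiffOn
  have hgθc : Continuous (gradient θ) := by
    rw [← continuousOn_univ]
    exact SCP.TEST_.continuousOn_gradient isOpen_univ hθc.contDiffOn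
  have hDc : ContinuousOn D Ω := hgvc.sub hguc
  have hac : ContinuousOn a Ω :=
    (hVc.comp_continuousOn hgvc).sub (hVc.comp_continuousOn hguc)
  have hqc : ContinuousOn q Ω := (hv.1.continuousOn.sub hu.1.continuousOn).add continuousOn_const
  have hcomp : IsCompact (closedBall x (2 * r)) := isCompact_closedBall _ _
  have hPc : ContinuousOn P Ω :=
    (((hη.continuous.pow 2).continuousOn).div (hqc.pow 2)
      (fun z hz => pow_ne_zero 2 (hqpos z hz).ne')).mul (hac.inner hDc)
  have hQc : ContinuousOn Q Ω :=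
    (((continuous_const.mul hη.continuous).continuousOn).div hqc
      (fun z hz => (hqpos z hz).ne')).mul (hac.inner hgηc.continuousOn)
  have hPi : IntegrableOn P B :=
    ((hPc.mono hball).integrableOn_compact hcomp).mono_set ball_subset_closedBall
  have hQi : IntegrableOn Q B :=
    ((hQc.mono hball).integrableOn_compact hcomp).mono_set ball_subset_closedBall
  have hvi : IntegrableOn (fun z => ⟪V p (gradient v z), gradient θ z⟫) B :=
    ((((hVc.comp_continuousOn hgvc).inner hgθc.continuousOn).mono hball).integrableOn_compact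
      hcomp).mono_set ball_subset_closedBall
  have hui : IntegrableOn (fun z => ⟪V p (gradient u z), gradient θ z⟫) B :=
    ((((hVc.comp_continuousOn hguc).inner hgθc.continuousOn).mono hball).integrableOn_compact
      hcomp).mono_set ball_subset_closedBall
  have hwv' : ∫ z in B, ⟪V p (gradient v z), gradient θ z⟫ = 0 := by
    rw [setIntegral_eq_integral_of_forall_compl_eq_zero, hwv]
    intro z hz
    rw [hgz z hz, inner_zero_right]
  have hwu' : ∫ z in B, ⟪V p (gradient u z), gradient θ z⟫ = 0 := by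
    rw [setIntegral_eq_integral_of_forall_compl_eq_zero, hwu]
    intro z hz
    rw [hgz z hz, inner_zero_right]
  have hPQ : ∫ z in B, P z = ∫ z in B, Q z := by
    have h1 : ∫ z in B, (Q z - P z) = 0 := by
      have h2 : ∫ z in B, (Q z - P z) = ∫ z in B, (⟪V p (gradient v z), gradient θ z⟫ -
          ⟪V p (gradient u z), gradient θ z⟫) := by
        refine setIntegral_congr_fun measurableSet_ball fun z hz => ?_
        have h3 := hgθ z (hBΩ hz) (a z)
        simp only [ha, inner_sub_left] at h3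
        simp only [hQ, hP, ha, inner_sub_left]
        rw [h3]
      rw [h2, integral_sub hvi hui, hwv', hwu', sub_zero]
    rw [integral_sub hQi hPi] at h1
    linarith
  have hSi : IntegrableOn S B := hint
  have hmain : ∫ z in B, P z ≤ 18 * ((K / r) ^ 2 * ∫ z in B, S z) := by
    have h1 : ∫ z in B, Q z ≤ ∫ z in B, (1 / 2 * P z + 9 * ((K / r) ^ 2 * S z)) := by
      refine setIntegral_mono_on hQi ?_ measurableSet_ball fun z hz => hQup z (hBΩ hz)
      exact (hPi.const_mul _).add ((hSi.const_mul _).const_mul _)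
    rw [integral_add (hPi.const_mul _) ((hSi.const_mul _).const_mul _), integral_const_mul,
      integral_const_mul, integral_const_mul] at h1
    linarith
  -- conclusion
  have hsub : ball x r ⊆ B := ball_subset_ball (by linarith)
  have hle : ∀ z ∈ ball x r, S z * (‖gradient v z - gradient u z‖ / (v z - u z + t)) ^ 2 ≤
      2 * P z := by
    intro z hz
    have h1 := hPlow z
    rw [hηb z hz, one_mul] at h1
    have h2 : S z * (‖gradient v z - gradient u z‖ / (v z - u z + t)) ^ 2 =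
        S z * (‖D z‖ / q z) ^ 2 := rfl
    rw [h2]
    linarith
  have hPi' : IntegrableOn P (ball x r) := hPi.mono_set hsub
  have hTi : IntegrableOn (fun z => S z *
      (‖gradient v z - gradient u z‖ / (v z - u z + t)) ^ 2) (ball x r) := by
    refine Integrable.mono' (hPi'.const_mul 2) ?_ ?_
    · refine (hSi.mono_set hsub).aestronglyMeasurable.mul ?_
      refine ContinuousOn.aestronglyMeasurable ?_ measurableSet_ball
      exact ((hDc.norm.div hqc fun z hz => (hqpos z hz).ne').pow 2).mono (hsub.trans hBΩ)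
    · refine (ae_restrict_iff' measurableSet_ball).2 (ae_of_all _ fun z hz => ?_)
      rw [Real.norm_of_nonneg (mul_nonneg (hS0 z) (sq_nonneg _))]
      exact hle z hz
  refine ⟨hTi, ?_⟩
  calc ∫ z in ball x r, S z * (‖gradient v z - gradient u z‖ / (v z - u z + t)) ^ 2
      ≤ ∫ z in ball x r, 2 * P z :=
        setIntegral_mono_on hTi (hPi'.const_mul 2) measurableSet_ball hle
    _ = 2 * ∫ z in ball x r, P z := integral_const_mul _ _
    _ ≤ 2 * ∫ z in B, P z := by
        refine mul_le_mul_of_nonneg_left ?_ (by norm_num)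
        exact setIntegral_mono_set hPi (ae_of_all _ hP0) hsub.eventuallyLE
    _ ≤ 2 * (18 * ((K / r) ^ 2 * ∫ z in B, S z)) := by linarith
    _ = 36 * K ^ 2 * (r ^ 2)⁻¹ * ∫ z in B, S z := by
        rw [div_pow]
        ring

end Pool.Agent.SCN
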