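import Pool.Agent.SCN.P_POI

/-! # Strong comparison for `p`-harmonic functions: equicontinuity of the averages -/

set_option autoImplicit false

open Set MeasureTheory Filter Topology Metric
open scoped RealInnerProductSpace ENNReal

namespace Pool.Agent.SCN

open Pool.Agent.SCP (E PHarm V)

variable {n : ℕ}

/-- Scaling and translation in a lower integral, exact form. -/
theorem eql_scale (G : E n → ℝ≥0∞) (a : E n) :
    ∫⁻ z, G (a + (1 / 4 : ℝ) • z) = 4 ^ n * ∫⁻ z, G z := by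
  have h0 : (1 / 4 : ℝ) ≠ 0 := by norm_num
  have he : MeasurableEmbedding (fun z : E n => (1 / 4 : ℝ) • z) :=
    (Homeomorph.smulOfNeZero (1 / 4 : ℝ) h0).measurableEmbedding
  have h1 : ∫⁻ z, G (a + (1 / 4 : ℝ) • z) =
      ∫⁻ w, G (a + w) ∂(Measure.map (fun z : E n => (1 / 4 : ℝ) • z) volume) :=
    (he.lintegral_map (fun w => G (a + w))).symm
  rw [h1, Measure.map_addHaar_smul volume h0, lintegral_smul_measure]
  have h2 : ∫⁻ w, G (a + w) = ∫⁻ w, G w := lintegral_add_left_eq_self G a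
  rw [h2]
  have h3 : Module.finrank ℝ (E n) = n := by simp
  rw [h3, smul_eq_mul]
  congr 1
  rw [abs_of_pos (by positivity), ← inv_pow, ENNReal.ofReal_pow (by positivity)]
  norm_num

/-- The bound along a segment. -/
theorem eql_seg {Ω : Set (E n)} {f : E n → ℝ} {x : E n} {r : ℝ} (hΩ : IsOpen Ω)
    (hf : ContDiffOn ℝ 1 f Ω) (hB : closedBall x r ⊆ Ω) {y z : E n}
    (hy : y ∈ ball x r) (hz : z ∈ ball x r) :
    ‖f y - f z‖ₑ ≤ ‖y - z‖ₑ * ∫⁻ t in Ioc (0 : ℝ) 1,
      (ball x r).indicator (fun w => ‖gradient f w‖ₑ) ((1 - t) • y + t • z) := by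
  have hseg : ∀ t ∈ Icc (0 : ℝ) 1, (1 - t) • y + t • z ∈ ball x r := by
    intro t ht
    exact (convex_ball x r) hy hz (by linarith [ht.2]) ht.1 (by ring)
  have hsub : ball x r ⊆ Ω := ball_subset_closedBall.trans hB
  have hd : ∀ w ∈ Ω, DifferentiableAt ℝ f w := fun w hw =>
    (hf.contDiffAt (hΩ.mem_nhds hw)).differentiableAt (by norm_num)
  have hc : ContinuousOn (fderiv ℝ f) Ω := hf.continuousOn_fderiv_of_isOpen hΩ (by norm_num)
  have hder : ∀ t ∈ Icc (0 : ℝ) 1, HasDerivAt (fun t : ℝ => f ((1 - t) • y + t • z))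
      (fderiv ℝ f ((1 - t) • y + t • z) (z - y)) t := by
    intro t ht
    have h1 : HasDerivAt (fun t : ℝ => (1 - t) • y + t • z) (z - y) t := by
      have h2 : HasDerivAt (fun t : ℝ => (1 - t) • y) ((-1 : ℝ) • y) t :=
        ((hasDerivAt_id t).const_sub 1).smul_const y
      have h3 : HasDerivAt (fun t : ℝ => t • z) ((1 : ℝ) • z) t :=
        (hasDerivAt_id t).smul_const z
      have h4 := h2.add h3
      have h5 : (-1 : ℝ) • y + (1 : ℝ) • z = z - y := by
        rw [one_smul, neg_one_smul]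
        abel
      rw [h5] at h4
      exact h4
    exact (hd _ (hsub (hseg t ht))).hasFDerivAt.comp_hasDerivAt t h1
  have hcont : ContinuousOn (fun t : ℝ => fderiv ℝ f ((1 - t) • y + t • z) (z - y))
      (Icc 0 1) := by
    have h1 : ContinuousOn (fun t : ℝ => fderiv ℝ f ((1 - t) • y + t • z)) (Icc 0 1) :=
      hc.comp (by fun_prop) (fun t ht => hsub (hseg t ht))
    exact h1.clm_apply continuousOn_const
  have hint : ∫ t in (0 : ℝ)..1, fderiv ℝ f ((1 - t) • y + t • z) (z - y) = f z - f y := by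
    have h1 := intervalIntegral.integral_eq_sub_of_hasDerivAt
      (f := fun t : ℝ => f ((1 - t) • y + t • z))
      (f' := fun t : ℝ => fderiv ℝ f ((1 - t) • y + t • z) (z - y)) (a := 0) (b := 1)
      (fun t ht => hder t (by rwa [uIcc_of_le zero_le_one] at ht))
      (by
        apply ContinuousOn.intervalIntegrable
        rwa [uIcc_of_le zero_le_one])
    rw [h1]
    simp
  have h0 : ‖f y - f z‖ₑ = ‖f z - f y‖ₑ := by
    rw [← enorm_neg, neg_sub]
  rw [h0, ← hint, intervalIntegral.integral_of_le zero_le_one]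
  refine (enorm_integral_le_lintegral_enorm _).trans ?_
  rw [← lintegral_const_mul' _ _ enorm_ne_top]
  apply setLIntegral_mono' measurableSet_Ioc
  intro t ht
  have ht' : t ∈ Icc (0 : ℝ) 1 := Ioc_subset_Icc_self ht
  rw [indicator_of_mem (hseg t ht')]
  have h1 : fderiv ℝ f ((1 - t) • y + t • z) (z - y)
      = ⟪gradient f ((1 - t) • y + t • z), z - y⟫ := by
    rw [gradient, InnerProductSpace.toDual_symm_apply]
  rw [h1, ← ofReal_norm, ← ofReal_norm, ← ofReal_norm,
    ← ENNReal.ofReal_mul (by positivity)]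
  apply ENNReal.ofReal_le_ofReal
  calc ‖⟪gradient f ((1 - t) • y + t • z), z - y⟫‖
      ≤ ‖gradient f ((1 - t) • y + t • z)‖ * ‖z - y‖ := norm_inner_le_norm _ _
    _ = ‖y - z‖ * ‖gradient f ((1 - t) • y + t • z)‖ := by rw [norm_sub_rev z y, mul_comm]

/-- A point of the large ball. -/
theorem eql_mem {x z : E n} (hx : x ∈ closedBall (0 : E n) (15 / 4)) (hz : ‖z‖ < 1) :
    x + (1 / 4 : ℝ) • z ∈ ball (0 : E n) 4 := by
  rw [mem_closedBall, dist_zero_right] at hx
  rw [mem_ball, dist_zero_right]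
  calc ‖x + (1 / 4 : ℝ) • z‖ ≤ ‖x‖ + ‖(1 / 4 : ℝ) • z‖ := norm_add_le _ _
    _ = ‖x‖ + 1 / 4 * ‖z‖ := by
        rw [norm_smul]
        norm_num
    _ < 4 := by linarith

/-- A kernel is bounded. -/
theorem eql_bdd {φ Φ : E n → ℝ} (h : Ker φ Φ) : ∃ K : ℝ, 0 < K ∧ ∀ y, ‖φ y‖ ≤ K := by
  have hc : HasCompactSupport φ := by
    apply HasCompactSupport.intro (isCompact_closedBall (0 : E n) 1)
    intro y hy
    apply h.supp
    rw [mem_closedBall, dist_zero_right, not_le] at hy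
    exact hy.le
  obtain ⟨K, hK⟩ := h.smooth.continuous.bounded_above_of_compact_support hc
  exact ⟨|K| + 1, by positivity, fun y => (hK y).trans ((le_abs_self K).trans (by linarith))⟩

/-- The weighted average of a nonnegative function. -/
theorem eql_avg {φ Φ : E n → ℝ} (h : Ker φ Φ) {K : ℝ} (hK : ∀ y, ‖φ y‖ ≤ K)
    (g : E n → ℝ≥0∞) {x : E n} (hx : x ∈ closedBall (0 : E n) (15 / 4)) :
    ∫⁻ y, ‖φ y‖ₑ * g (x + (1 / 4 : ℝ) • y) ≤
      ENNReal.ofReal K * (4 ^ n * ∫⁻ z in ball (0 : E n) 4, g z) := by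
  calc ∫⁻ y, ‖φ y‖ₑ * g (x + (1 / 4 : ℝ) • y)
      ≤ ∫⁻ y, ENNReal.ofReal K * (ball (0 : E n) 4).indicator g (x + (1 / 4 : ℝ) • y) := by
        apply lintegral_mono
        intro y
        rcases lt_or_ge ‖y‖ 1 with hy | hy
        · change ‖φ y‖ₑ * g (x + (1 / 4 : ℝ) • y) ≤
            ENNReal.ofReal K * (ball (0 : E n) 4).indicator g (x + (1 / 4 : ℝ) • y)
          rw [indicator_of_mem (eql_mem hx hy)]
          gcongr
          rw [← ofReal_norm]
          exact ENNReal.ofReal_le_ofReal (hK y)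
        · change ‖φ y‖ₑ * g (x + (1 / 4 : ℝ) • y) ≤ _
          rw [h.supp y hy]
          simp
    _ = ENNReal.ofReal K * (4 ^ n * ∫⁻ z in ball (0 : E n) 4, g z) := by
        rw [lintegral_const_mul' _ _ ENNReal.ofReal_ne_top, eql_scale,
          lintegral_indicator measurableSet_ball]

/-- The distance to the mean value. -/
theorem eql_mean {Ω : Set (E n)} {u : E n → ℝ} (hΩ : IsOpen Ω) (hu : ContDiffOn ℝ 1 u Ω)
    (hB : closedBall (0 : E n) 4 ⊆ Ω) : ∃ c : ℝ,
    ∫⁻ y in ball (0 : E n) 4, ‖u y - c‖ₑ ≤ ENNReal.ofReal (8 * 2 ^ n) *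
      ∫⁻ z in ball (0 : E n) 4, ‖gradient u z‖ₑ := by
  set B : Set (E n) := ball (0 : E n) 4 with hBdef
  have hv : volume B ≠ ∞ := measure_ball_lt_top.ne
  have hv0 : 0 < (volume B).toReal :=
    ENNReal.toReal_pos (measure_ball_pos volume _ (by norm_num)).ne' hv
  have : IsFiniteMeasure (volume.restrict B) := ⟨by
    rw [Measure.restrict_apply_univ]
    exact measure_ball_lt_top⟩
  have hui : IntegrableOn u B :=
    ((hu.continuousOn.mono hB).integrableOn_compact (isCompact_closedBall _ _)).mono_set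
      ball_subset_closedBall
  refine ⟨(volume B).toReal⁻¹ * ∫ z in B, u z, ?_⟩
  set G : E n → ℝ≥0∞ := B.indicator (fun w => ‖gradient u w‖ₑ) with hGdef
  have hG : Measurable G := (poi_meas u).enorm.indicator measurableSet_ball
  have h1 : ∀ y, ‖u y - (volume B).toReal⁻¹ * ∫ z in B, u z‖ₑ ≤
      ENNReal.ofReal (volume B).toReal⁻¹ * ∫⁻ z in B, ‖|u y - u z|‖ₑ := by
    intro y
    have h2 : u y - (volume B).toReal⁻¹ * ∫ z in B, u z
        = (volume B).toReal⁻¹ * ∫ z in B, (u y - u z) := by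
      rw [integral_sub (integrable_const _) hui, setIntegral_const, measureReal_def, smul_eq_mul]
      field_simp
    rw [h2, enorm_mul]
    have h3 : ‖(volume B).toReal⁻¹‖ₑ = ENNReal.ofReal (volume B).toReal⁻¹ :=
      Real.enorm_eq_ofReal (by positivity)
    rw [h3]
    gcongr
    refine (enorm_integral_le_lintegral_enorm _).trans (le_of_eq ?_)
    apply lintegral_congr
    intro z
    rw [← Real.norm_eq_abs, enorm_norm]
  calc ∫⁻ y in B, ‖u y - (volume B).toReal⁻¹ * ∫ z in B, u z‖ₑ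
      ≤ ∫⁻ y in B, ENNReal.ofReal (volume B).toReal⁻¹ * ∫⁻ z in B, ‖|u y - u z|‖ₑ :=
        lintegral_mono h1
    _ = ENNReal.ofReal (volume B).toReal⁻¹ * ∫⁻ y in B, ∫⁻ z in B, ‖|u y - u z|‖ₑ :=
        lintegral_const_mul' _ _ ENNReal.ofReal_ne_top
    _ ≤ ENNReal.ofReal (volume B).toReal⁻¹ * ∫⁻ y in B, ∫⁻ z in B, ENNReal.ofReal (2 * 4) *
            ∫⁻ t in Ioc (0 : ℝ) 1, G ((1 - t) • y + t • z) := by
        apply mul_le_mul' le_rfl
        exact setLIntegral_mono' measurableSet_ball fun y hy =>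
          setLIntegral_mono' measurableSet_ball fun z hz =>
            poi_seg hΩ hu (by norm_num) hB hy hz
    _ = ENNReal.ofReal (volume B).toReal⁻¹ * (ENNReal.ofReal (2 * 4) *
          ∫⁻ y in B, ∫⁻ z in B, ∫⁻ t in Ioc (0 : ℝ) 1, G ((1 - t) • y + t • z)) := by
        congr 1
        rw [← lintegral_const_mul' _ _ ENNReal.ofReal_ne_top]
        apply lintegral_congr
        intro y
        rw [lintegral_const_mul' _ _ ENNReal.ofReal_ne_top]
    _ ≤ ENNReal.ofReal (volume B).toReal⁻¹ * (ENNReal.ofReal (2 * 4) *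
          (2 ^ n * (volume B * ∫⁻ z, G z))) := by
        gcongr
        exact poi_triple G hG B
    _ = ENNReal.ofReal (8 * 2 ^ n) * ∫⁻ z in B, ‖gradient u z‖ₑ := by
        have h5 : (2 : ℝ≥0∞) ^ n = ENNReal.ofReal (2 ^ n) := by
          rw [ENNReal.ofReal_pow (by norm_num)]
          norm_num
        have h6 : ∫⁻ z, G z = ∫⁻ z in B, ‖gradient u z‖ₑ := by
          rw [hGdef, lintegral_indicator measurableSet_ball]
        rw [h6, h5]
        nth_rewrite 2 [← ENNReal.ofReal_toReal hv]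
        rw [← mul_assoc, ← mul_assoc, ← mul_assoc, ← ENNReal.ofReal_mul (by positivity),
          ← ENNReal.ofReal_mul (by positivity), ← ENNReal.ofReal_mul (by positivity)]
        congr 2
        field_simp
        norm_num

/-- The difference of two averages. -/
theorem eql_lip {φ Φ : E n → ℝ} (h : Ker φ Φ) {K : ℝ} (hK : ∀ y, ‖φ y‖ ≤ K)
    {Ω : Set (E n)} {u : E n → ℝ} (hΩ : IsOpen Ω) (hu : ContDiffOn ℝ 1 u Ω)
    (hB : closedBall (0 : E n) 4 ⊆ Ω) {x y : E n} (hx : x ∈ closedBall (0 : E n) (15 / 4))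
    (hy : y ∈ closedBall (0 : E n) (15 / 4)) :
    ∫⁻ z, ‖φ z * (u (x + (1 / 4 : ℝ) • z) - u (y + (1 / 4 : ℝ) • z))‖ₑ ≤
      ENNReal.ofReal K * (4 ^ n * (‖x - y‖ₑ *
        ∫⁻ z in ball (0 : E n) 4, ‖gradient u z‖ₑ)) := by
  set B : Set (E n) := ball (0 : E n) 4 with hBdef
  set G : E n → ℝ≥0∞ := B.indicator (fun w => ‖gradient u w‖ₑ) with hGdef
  have hG : Measurable G := (poi_meas u).enorm.indicator measurableSet_ball
  have hm : ∀ t : ℝ, ∀ z : E n, (1 - t) • (x + (1 / 4 : ℝ) • z) + t • (y + (1 / 4 : ℝ) • z) =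
      ((1 - t) • x + t • y) + (1 / 4 : ℝ) • z := by
    intro t z
    module
  calc ∫⁻ z, ‖φ z * (u (x + (1 / 4 : ℝ) • z) - u (y + (1 / 4 : ℝ) • z))‖ₑ
      ≤ ∫⁻ z, ENNReal.ofReal K * (‖x - y‖ₑ * ∫⁻ t in Ioc (0 : ℝ) 1,
          G (((1 - t) • x + t • y) + (1 / 4 : ℝ) • z)) := by
        apply lintegral_mono
        intro z
        change ‖φ z * (u (x + (1 / 4 : ℝ) • z) - u (y + (1 / 4 : ℝ) • z))‖ₑ ≤
          ENNReal.ofReal K * (‖x - y‖ₑ * ∫⁻ t in Ioc (0 : ℝ) 1,
          G (((1 - t) • x + t • y) + (1 / 4 : ℝ) • z))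
        rcases lt_or_ge ‖z‖ 1 with hz | hz
        · rw [enorm_mul]
          have h1 : ‖φ z‖ₑ ≤ ENNReal.ofReal K := by
            rw [← ofReal_norm]
            exact ENNReal.ofReal_le_ofReal (hK z)
          have h2 := eql_seg hΩ hu hB (eql_mem hx hz) (eql_mem hy hz)
          simp only [hm, add_sub_add_right_eq_sub] at h2
          exact mul_le_mul' h1 h2
        · rw [h.supp z hz]
          simp
    _ = ENNReal.ofReal K * (‖x - y‖ₑ * ∫⁻ z, ∫⁻ t in Ioc (0 : ℝ) 1,
          G (((1 - t) • x + t • y) + (1 / 4 : ℝ) • z)) := by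
        rw [lintegral_const_mul' _ _ ENNReal.ofReal_ne_top,
          lintegral_const_mul' _ _ enorm_ne_top]
    _ = ENNReal.ofReal K * (‖x - y‖ₑ * ∫⁻ t in Ioc (0 : ℝ) 1, ∫⁻ z,
          G (((1 - t) • x + t • y) + (1 / 4 : ℝ) • z)) := by
        congr 2
        apply lintegral_lintegral_swap
        have : Measurable (Function.uncurry fun (z : E n) (t : ℝ) =>
            G (((1 - t) • x + t • y) + (1 / 4 : ℝ) • z)) := by
          apply hG.comp
          fun_prop
        exact this.aemeasurable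
    _ = ENNReal.ofReal K * (‖x - y‖ₑ * (4 ^ n * ∫⁻ z, G z)) := by
        congr 2
        simp only [eql_scale]
        rw [lintegral_const, Measure.restrict_apply_univ, Real.volume_Ioc]
        norm_num
    _ = ENNReal.ofReal K * (4 ^ n * (‖x - y‖ₑ *
          ∫⁻ z in ball (0 : E n) 4, ‖gradient u z‖ₑ)) := by
        have h6 : ∫⁻ z, G z = ∫⁻ z in B, ‖gradient u z‖ₑ := by
          rw [hGdef, lintegral_indicator measurableSet_ball]
        rw [h6]
        ring

/-- The integrand of the average is integrable. -/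
theorem eql_int {φ Φ : E n → ℝ} (h : Ker φ Φ) {Ω : Set (E n)} {u : E n → ℝ}
    (hu : ContDiffOn ℝ 1 u Ω) (hB : closedBall (0 : E n) 4 ⊆ Ω) (c : ℝ) {x : E n}
    (hx : x ∈ closedBall (0 : E n) (15 / 4)) :
    Integrable (fun z => φ z * (u (x + (1 / 4 : ℝ) • z) - c)) := by
  have hsub : ∀ z ∈ closedBall (0 : E n) 1, x + (1 / 4 : ℝ) • z ∈ Ω := by
    intro z hz
    apply hB
    rw [mem_closedBall, dist_zero_right] at hx hz ⊢
    calc ‖x + (1 / 4 : ℝ) • z‖ ≤ ‖x‖ + ‖(1 / 4 : ℝ) • z‖ := norm_add_le _ _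
      _ = ‖x‖ + 1 / 4 * ‖z‖ := by
          rw [norm_smul]
          norm_num
      _ ≤ 4 := by linarith
  have h1 : ContinuousOn (fun z => φ z * (u (x + (1 / 4 : ℝ) • z) - c))
      (closedBall (0 : E n) 1) := by
    apply h.smooth.continuous.continuousOn.mul
    apply ContinuousOn.sub _ continuousOn_const
    exact hu.continuousOn.comp (by fun_prop) hsub
  have h2 := h1.integrableOn_compact (μ := volume) (isCompact_closedBall (0 : E n) 1)
  apply h2.integrable_of_forall_notMem_eq_zero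
  intro z hz
  rw [mem_closedBall, dist_zero_right, not_le] at hz
  rw [h.supp z hz.le, zero_mul]

theorem p_EQL : T_EQL := by
  intro n φ Φ h
  obtain ⟨K, hK0, hK⟩ := eql_bdd h
  refine ⟨K * 4 ^ n * (8 * 2 ^ n), by positivity, ?_⟩
  intro Ω u A hΩ hu hB hA
  obtain ⟨c, hc⟩ := eql_mean hΩ hu hB
  have h4 : (4 : ℝ≥0∞) ^ n = ENNReal.ofReal (4 ^ n) := by
    rw [ENNReal.ofReal_pow (by norm_num)]
    norm_num
  have hgc : ContinuousOn (gradient u) Ω := by
    have hc : ContinuousOn (fderiv ℝ u) Ω := hu.continuousOn_fderiv_of_isOpen hΩ (by norm_num)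
    exact (InnerProductSpace.toDual ℝ (E n)).symm.continuous.comp_continuousOn hc
  have hgi : IntegrableOn (gradient u) (ball (0 : E n) 4) :=
    ((hgc.mono hB).integrableOn_compact (isCompact_closedBall _ _)).mono_set
      ball_subset_closedBall
  have hA0 : 0 ≤ A := (integral_nonneg fun y => norm_nonneg _).trans hA
  have hGA : ∫⁻ z in ball (0 : E n) 4, ‖gradient u z‖ₑ ≤ ENNReal.ofReal A := by
    rw [← ofReal_integral_norm_eq_lintegral_enorm hgi]
    exact ENNReal.ofReal_le_ofReal hA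
  refine ⟨c, ?_, ?_⟩
  · intro x hx
    have h1 : ‖cv φ (1 / 4) (fun y => u y - c) x‖ₑ ≤
        ENNReal.ofReal (K * 4 ^ n * (8 * 2 ^ n) * A) := by
      calc ‖cv φ (1 / 4) (fun y => u y - c) x‖ₑ
          ≤ ∫⁻ y, ‖φ y * (u (x + (1 / 4 : ℝ) • y) - c)‖ₑ :=
            enorm_integral_le_lintegral_enorm _
        _ = ∫⁻ y, ‖φ y‖ₑ * ‖u (x + (1 / 4 : ℝ) • y) - c‖ₑ := by
            simp only [enorm_mul]
        _ ≤ ENNReal.ofReal K * (4 ^ n * ∫⁻ z in ball (0 : E n) 4, ‖u z - c‖ₑ) :=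
            eql_avg h hK (fun w => ‖u w - c‖ₑ) hx
        _ ≤ ENNReal.ofReal K * (4 ^ n * (ENNReal.ofReal (8 * 2 ^ n) * ENNReal.ofReal A)) := by
            gcongr
            exact hc.trans (by gcongr)
        _ = ENNReal.ofReal (K * 4 ^ n * (8 * 2 ^ n) * A) := by
            rw [h4, ← ENNReal.ofReal_mul (by positivity), ← ENNReal.ofReal_mul (by positivity),
              ← ENNReal.ofReal_mul (by positivity)]
            congr 1
            ring
    rw [← ofReal_norm] at h1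
    exact (ENNReal.ofReal_le_ofReal_iff (by positivity)).mp h1
  · intro x hx y hy
    have h0 : cv φ (1 / 4) (fun y => u y - c) x - cv φ (1 / 4) (fun y => u y - c) y =
        ∫ z, φ z * (u (x + (1 / 4 : ℝ) • z) - u (y + (1 / 4 : ℝ) • z)) := by
      have h1 := integral_sub (eql_int h hu hB c hx) (eql_int h hu hB c hy)
      change _ = cv φ (1 / 4) (fun y => u y - c) x - cv φ (1 / 4) (fun y => u y - c) y at h1
      rw [← h1]
      congr 1
      funext z
      ring
    have h1 : ‖cv φ (1 / 4) (fun y => u y - c) x - cv φ (1 / 4) (fun y => u y - c) y‖ₑ ≤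
        ENNReal.ofReal (K * 4 ^ n * (8 * 2 ^ n) * A * ‖x - y‖) := by
      rw [h0]
      calc ‖∫ z, φ z * (u (x + (1 / 4 : ℝ) • z) - u (y + (1 / 4 : ℝ) • z))‖ₑ
          ≤ ∫⁻ z, ‖φ z * (u (x + (1 / 4 : ℝ) • z) - u (y + (1 / 4 : ℝ) • z))‖ₑ :=
            enorm_integral_le_lintegral_enorm _
        _ ≤ ENNReal.ofReal K * (4 ^ n * (‖x - y‖ₑ *
              ∫⁻ z in ball (0 : E n) 4, ‖gradient u z‖ₑ)) :=
            eql_lip h hK hΩ hu hB hx hy
        _ ≤ ENNReal.ofReal K * (4 ^ n * (ENNReal.ofReal ‖x - y‖ * ENNReal.ofReal A)) := by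
            rw [ofReal_norm]
            gcongr
        _ = ENNReal.ofReal (K * 4 ^ n * A * ‖x - y‖) := by
            rw [h4, ← ENNReal.ofReal_mul (by positivity), ← ENNReal.ofReal_mul (by positivity),
              ← ENNReal.ofReal_mul (by positivity)]
            congr 1
            ring
        _ ≤ ENNReal.ofReal (K * 4 ^ n * (8 * 2 ^ n) * A * ‖x - y‖) := by
            apply ENNReal.ofReal_le_ofReal
            have h5 : (1 : ℝ) ≤ 8 * 2 ^ n := by
              have := one_le_pow₀ (M₀ := ℝ) (a := 2) (n := n) (by norm_num)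
              linarith
            have h6 : K * 4 ^ n * 1 ≤ K * 4 ^ n * (8 * 2 ^ n) := by gcongr
            rw [mul_one] at h6
            gcongr
    rw [← ofReal_norm] at h1
    exact (ENNReal.ofReal_le_ofReal_iff (by positivity)).mp h1

end Pool.Agent.SCN
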