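import Pool.Agent.SCN.Targets

set_option autoImplicit false

/-! # Target FB: the scalar inequality -/

open Set MeasureTheory Filter Topology Metric
open scoped RealInnerProductSpace

namespace Pool.Agent.SCN

open Pool.Agent.SCP (E PHarm V)

theorem fb_exp (a : ℝ) : |1 - Real.exp a| ≤ |a| * max 1 (Real.exp a) := by
  have h1 := Real.add_one_le_exp a
  have h2 := Real.add_one_le_exp (-a)
  have h0 := Real.exp_pos a
  have h3 : Real.exp a * Real.exp (-a) = 1 := by rw [← Real.exp_add]; simp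
  rcases le_total 0 a with h | h
  · have h4 : 1 ≤ Real.exp a := by linarith
    rw [max_eq_right h4, abs_of_nonpos (by linarith), abs_of_nonneg h]
    nlinarith [mul_le_mul_of_nonneg_left h2 h0.le]
  · have h4 : Real.exp a ≤ 1 := Real.exp_le_one_iff.2 h
    rw [max_eq_left h4, abs_of_nonneg (by linarith), abs_of_nonpos h]
    linarith

theorem fb_scalar (s ε : ℝ) (hs : 0 < s) (hε : |ε| ≤ 1 / 4) :
    s * |1 - s ^ ε| ≤ 4 * |ε| * (1 + s ^ (2 + ε)) := by
  have he := abs_le.1 hε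
  have h1 := fb_exp (ε * Real.log s)
  have h2 : Real.exp (ε * Real.log s) = s ^ ε := by
    rw [Real.rpow_def_of_pos hs, mul_comm]
  rw [h2, abs_mul] at h1
  have h3 : s * |1 - s ^ ε| ≤ |ε| * (s * |Real.log s| * max 1 (s ^ ε)) := by
    calc s * |1 - s ^ ε| ≤ s * (|ε| * |Real.log s| * max 1 (s ^ ε)) :=
          mul_le_mul_of_nonneg_left h1 hs.le
      _ = |ε| * (s * |Real.log s| * max 1 (s ^ ε)) := by ring
  have h4 : s * |Real.log s| * max 1 (s ^ ε) ≤ 4 * (1 + s ^ (2 + ε)) := by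
    have hp : 0 ≤ s ^ (2 + ε) := Real.rpow_nonneg hs.le _
    rcases le_total 1 s with h | h
    · have hl : Real.log s ≤ 4 * s ^ (1 / 4 : ℝ) := by
        have := Real.log_le_rpow_div hs.le (show (0 : ℝ) < 1 / 4 by norm_num)
        linarith
      have hl0 : 0 ≤ Real.log s := Real.log_nonneg h
      rw [abs_of_nonneg hl0]
      have hm : max 1 (s ^ ε) ≤ s ^ (3 / 4 + ε) := by
        apply max_le
        · exact Real.one_le_rpow h (by linarith)
        · exact Real.rpow_le_rpow_of_exponent_le h (by linarith)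
      calc s * Real.log s * max 1 (s ^ ε) ≤ s * (4 * s ^ (1 / 4 : ℝ)) * s ^ (3 / 4 + ε) := by
            gcongr
        _ = 4 * s ^ (2 + ε) := by
            rw [show (2 + ε : ℝ) = 1 + 1 / 4 + (3 / 4 + ε) by ring,
              Real.rpow_add hs (1 + 1 / 4) (3 / 4 + ε), Real.rpow_add hs 1 (1 / 4), Real.rpow_one]
            ring
        _ ≤ 4 * (1 + s ^ (2 + ε)) := by linarith
    · have hi : 1 ≤ s⁻¹ := (one_le_inv₀ hs).2 h
      have hl : Real.log s⁻¹ ≤ 4 * s⁻¹ ^ (1 / 4 : ℝ) := by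
        have := Real.log_le_rpow_div (inv_pos.2 hs).le (show (0 : ℝ) < 1 / 4 by norm_num)
        linarith
      have hl0 : Real.log s ≤ 0 := Real.log_nonpos hs.le h
      rw [abs_of_nonpos hl0, ← Real.log_inv]
      rw [Real.inv_rpow hs.le, ← Real.rpow_neg hs.le] at hl
      have hm : max 1 (s ^ ε) ≤ s ^ (-(1 / 4) : ℝ) := by
        apply max_le
        · have := Real.rpow_le_rpow_of_exponent_ge hs h (show (-(1 / 4) : ℝ) ≤ 0 by norm_num)
          rwa [Real.rpow_zero] at this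
        · exact Real.rpow_le_rpow_of_exponent_ge hs h (by linarith)
      have hl1 : 0 ≤ Real.log s⁻¹ := Real.log_nonneg hi
      calc s * Real.log s⁻¹ * max 1 (s ^ ε)
          ≤ s * (4 * s ^ (-(1 / 4) : ℝ)) * s ^ (-(1 / 4) : ℝ) := by
            gcongr
        _ = 4 * s ^ (1 / 2 : ℝ) := by
            rw [show (1 / 2 : ℝ) = 1 + -(1 / 4) + -(1 / 4) by norm_num, Real.rpow_add hs,
              Real.rpow_add hs, Real.rpow_one]
            ring
        _ ≤ 4 * (1 + s ^ (2 + ε)) := by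
            have := Real.rpow_le_one hs.le h (show (0 : ℝ) ≤ 1 / 2 by norm_num)
            linarith
  calc s * |1 - s ^ ε| ≤ |ε| * (s * |Real.log s| * max 1 (s ^ ε)) := h3
    _ ≤ |ε| * (4 * (1 + s ^ (2 + ε))) := mul_le_mul_of_nonneg_left h4 (abs_nonneg _)
    _ = 4 * |ε| * (1 + s ^ (2 + ε)) := by ring

theorem p_FB : T_FB := by
  refine ⟨4, by norm_num, fun n p M ξ hp hM => ?_⟩
  rcases eq_or_ne ξ 0 with h0 | h0
  · subst h0
    have h1 : ‖(0 : E n) - M ^ (2 - p) • V p (0 : E n)‖ = 0 := by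
      simp [V]
    rw [h1]
    have : 0 ≤ (‖(0 : E n)‖ / M) ^ p := Real.rpow_nonneg (by positivity) _
    positivity
  · have hξ : 0 < ‖ξ‖ := norm_pos_iff.2 h0
    have hs : 0 < ‖ξ‖ / M := div_pos hξ hM
    have h1 := fb_scalar (‖ξ‖ / M) (p - 2) hs hp
    have h2 : (‖ξ‖ / M) ^ (p - 2) = M ^ (2 - p) * ‖ξ‖ ^ (p - 2) := by
      rw [Real.div_rpow hξ.le hM.le, show (2 - p : ℝ) = -(p - 2) by ring, Real.rpow_neg hM.le]
      ring
    have h3 : ξ - M ^ (2 - p) • V p ξ = (1 - (‖ξ‖ / M) ^ (p - 2)) • ξ := by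
      rw [h2, V, smul_smul, sub_smul, one_smul]
    rw [h3, norm_smul, Real.norm_eq_abs]
    rw [show (2 + (p - 2) : ℝ) = p by ring] at h1
    calc |1 - (‖ξ‖ / M) ^ (p - 2)| * ‖ξ‖ = M * (‖ξ‖ / M * |1 - (‖ξ‖ / M) ^ (p - 2)|) := by
          field_simp
      _ ≤ M * (4 * |p - 2| * (1 + (‖ξ‖ / M) ^ p)) := mul_le_mul_of_nonneg_left h1 hM.le
      _ = 4 * |p - 2| * (M * (1 + (‖ξ‖ / M) ^ p)) := by ring

end Pool.Agent.SCN
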