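import Pool.Agent.SCN.Targets

/-! # FIN: the contact set is open and closed -/

set_option autoImplicit false

open Set MeasureTheory Filter Topology Metric
open scoped RealInnerProductSpace

namespace Pool.Agent.SCN

open Pool.Agent.SCP (E PHarm V)

/-- The topological part: if the contact set is open then it is everything. -/
theorem fin_top {n : ℕ} {Ω : Set (E n)} {u v : E n → ℝ} (hΩ : IsOpen Ω) (hc : IsConnected Ω)
    (hu : ContDiffOn ℝ 1 u Ω) (hv : ContDiffOn ℝ 1 v Ω)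
    (hloc : ∀ x ∈ Ω, u x = v x → ∃ r : ℝ, 0 < r ∧ ∀ y ∈ ball x r, u y = v y)
    (hex : ∃ x ∈ Ω, u x = v x) : ∀ x ∈ Ω, u x = v x := by
  set S : Set (E n) := {x | x ∈ Ω ∧ u x = v x} with hS
  have hmem : ∀ x, x ∈ S ↔ x ∈ Ω ∧ u x = v x := fun x => Iff.rfl
  have hopen : IsOpen S := by
    rw [isOpen_iff_mem_nhds]
    intro x hx
    obtain ⟨hxΩ, hxe⟩ := (hmem x).1 hx
    obtain ⟨r, hr, hb⟩ := hloc x hxΩ hxe
    filter_upwards [ball_mem_nhds x hr, hΩ.mem_nhds hxΩ] with y hy hyΩ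
    exact (hmem y).2 ⟨hyΩ, hb y hy⟩
  obtain ⟨x₀, hx₀, he₀⟩ := hex
  have hsub : Ω ⊆ S := by
    refine hc.isPreconnected.subset_of_closure_inter_subset hopen
      ⟨x₀, hx₀, (hmem x₀).2 ⟨hx₀, he₀⟩⟩ ?_
    rintro x ⟨hxc, hxΩ⟩
    refine (hmem x).2 ⟨hxΩ, ?_⟩
    by_contra hne
    have hcu : ContinuousAt u x := (hu.continuousOn).continuousAt (hΩ.mem_nhds hxΩ)
    have hcv : ContinuousAt v x := (hv.continuousOn).continuousAt (hΩ.mem_nhds hxΩ)
    have hev : ∀ᶠ y in 𝓝 x, u y ≠ v y := by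
      have h0 : ContinuousAt (fun y => u y - v y) x := hcu.sub hcv
      have h1 : u x - v x ≠ 0 := sub_ne_zero.2 hne
      filter_upwards [h0.eventually_ne h1] with y hy
      exact sub_ne_zero.1 hy
    have hfr : ∃ᶠ y in 𝓝 x, y ∈ S := mem_closure_iff_frequently.1 hxc
    obtain ⟨y, hy1, hy2⟩ := (hfr.and_eventually hev).exists
    exact hy2 ((hmem y).1 hy1).2
  intro x hx
  exact ((hmem x).1 (hsub hx)).2

/-- The theorem for ordered functions `u ≤ v`. -/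
theorem fin_le {n N m : ℕ} {p : ℝ}
    (hd : ∀ (Ω : Set (E n)) (u : E n → ℝ) (x : E n), IsOpen Ω → PHarm p Ω u → Freq p Ω u x N →
      ∃ R : ℝ, Dbl p u x R m)
    (hl : ∀ (Ω : Set (E n)) (u v : E n → ℝ) (x : E n) (R : ℝ), IsOpen Ω → PHarm p Ω u →
      PHarm p Ω v → (∀ y ∈ Ω, u y ≤ v y) → x ∈ Ω → u x = v x →
      (Dbl p u x R m ∨ Dbl p v x R m) → ∃ r : ℝ, 0 < r ∧ ∀ y ∈ ball x r, u y = v y)
    {Ω : Set (E n)} {u v : E n → ℝ} (hΩ : IsOpen Ω) (hc : IsConnected Ω)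
    (hu : PHarm p Ω u) (hv : PHarm p Ω v) (hle : ∀ x ∈ Ω, u x ≤ v x)
    (hf : ∀ x ∈ Ω, u x = v x → Freq p Ω u x N ∨ Freq p Ω v x N)
    (hex : ∃ x ∈ Ω, u x = v x) : ∀ x ∈ Ω, u x = v x := by
  refine fin_top hΩ hc hu.1 hv.1 ?_ hex
  intro x hx he
  rcases hf x hx he with h | h
  · obtain ⟨R, hR⟩ := hd Ω u x hΩ hu h
    exact hl Ω u v x R hΩ hu hv hle hx he (Or.inl hR)
  · obtain ⟨R, hR⟩ := hd Ω v x hΩ hv h
    exact hl Ω u v x R hΩ hu hv hle hx he (Or.inr hR)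

theorem p_FIN (hDBL : T_DBL) (hLOC : T_LOC) : T_FIN := by
  intro n N hn
  obtain ⟨m, e1, he1, h1⟩ := hDBL n N hn
  obtain ⟨e2, he2, h2⟩ := hLOC n m hn
  refine ⟨min e1 e2, lt_min he1 he2, ?_⟩
  intro p hp Ω u v hΩ hc hu hv hor hf hex
  have hp1 : |p - 2| < e1 := lt_of_lt_of_le hp (min_le_left _ _)
  have hp2 : |p - 2| < e2 := lt_of_lt_of_le hp (min_le_right _ _)
  rcases hor with hle | hle
  · exact fin_le (h1 p hp1) (h2 p hp2) hΩ hc hu hv hle hf hex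
  · have key : ∀ x ∈ Ω, v x = u x := by
      refine fin_le (h1 p hp1) (h2 p hp2) hΩ hc hv hu hle ?_ ?_
      · intro x hx he
        exact (hf x hx he.symm).symm
      · obtain ⟨x, hx, he⟩ := hex
        exact ⟨x, hx, he.symm⟩
    intro x hx
    exact (key x hx).symm

end Pool.Agent.SCN
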