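import Pool.Agent.SCN.Targets

/-! # SCN: the limit function has the mean value property (target FIX) -/

set_option autoImplicit false

open Set MeasureTheory Filter Topology Metric
open scoped RealInnerProductSpace ENNReal

namespace Pool.Agent.SCN

open Pool.Agent.SCP (E PHarm V)

namespace Fix

variable {n : ℕ}

theorem mem_big {r d : ℝ} (hd0 : 0 ≤ d) (hd : d ≤ 1 / 4) {x y : E n}
    (hx : x ∈ closedBall (0 : E n) r) (hy : ‖y‖ ≤ 1) :
    x + d • y ∈ closedBall (0 : E n) (r + 1 / 4) := by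
  rw [mem_closedBall_zero_iff] at *
  calc ‖x + d • y‖ ≤ ‖x‖ + ‖d • y‖ := norm_add_le _ _
    _ = ‖x‖ + d * ‖y‖ := by rw [norm_smul, Real.norm_of_nonneg hd0]
    _ ≤ r + 1 / 4 := by nlinarith [norm_nonneg y]

theorem mem_big' {d : ℝ} (hd0 : 0 ≤ d) (hd : d ≤ 1 / 4) {x y : E n}
    (hx : x ∈ ball (0 : E n) (7 / 2)) (hy : ‖y‖ ≤ 1) :
    x + d • y ∈ ball (0 : E n) (15 / 4) := by
  rw [mem_ball_zero_iff] at *
  calc ‖x + d • y‖ ≤ ‖x‖ + ‖d • y‖ := norm_add_le _ _
    _ = ‖x‖ + d * ‖y‖ := by rw [norm_smul, Real.norm_of_nonneg hd0]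
    _ < 15 / 4 := by nlinarith [norm_nonneg y]

/-- the integrand is jointly continuous -/
theorem cont_uncurry {φ Φ : E n → ℝ} (hK : Ker φ Φ) {r d : ℝ} (hd0 : 0 ≤ d) (hd : d ≤ 1 / 4)
    {f : E n → ℝ} (hf : ContinuousOn f (closedBall (0 : E n) (r + 1 / 4))) :
    ContinuousOn (Function.uncurry fun x y : E n => φ y * f (x + d • y))
      (closedBall (0 : E n) r ×ˢ univ) := by
  have hφ : Continuous φ := hK.smooth.continuous
  have hA : ContinuousOn (Function.uncurry fun x y : E n => φ y * f (x + d • y))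
      (closedBall (0 : E n) r ×ˢ closedBall (0 : E n) 1) := by
    refine ContinuousOn.mul (hφ.comp continuous_snd).continuousOn ?_
    refine hf.comp (Continuous.continuousOn (by fun_prop)) ?_
    rintro ⟨x, y⟩ ⟨hx, hy⟩
    exact mem_big hd0 hd hx (by simpa using hy)
  have hB : ContinuousOn (Function.uncurry fun x y : E n => φ y * f (x + d • y))
      (closedBall (0 : E n) r ×ˢ {y : E n | 1 ≤ ‖y‖}) := by
    refine (continuousOn_const (c := (0 : ℝ))).congr ?_
    rintro ⟨x, y⟩ ⟨hx, hy⟩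
    simp only [Function.uncurry_apply_pair]
    rw [hK.supp y hy, zero_mul]
  have h := hA.union_of_isClosed hB (isClosed_closedBall.prod isClosed_closedBall)
    (isClosed_closedBall.prod (isClosed_le continuous_const continuous_norm))
  refine h.mono ?_
  rintro ⟨x, y⟩ ⟨hx, -⟩
  rcases le_total ‖y‖ 1 with h1 | h1
  · exact Or.inl ⟨hx, by simpa using h1⟩
  · exact Or.inr ⟨hx, h1⟩

theorem cont_cv {φ Φ : E n → ℝ} (hK : Ker φ Φ) {r d : ℝ} (hd0 : 0 ≤ d) (hd : d ≤ 1 / 4)
    {f : E n → ℝ} (hf : ContinuousOn f (closedBall (0 : E n) (r + 1 / 4))) :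
    ContinuousOn (cv φ d f) (closedBall (0 : E n) r) := by
  refine continuousOn_integral_of_compact_support (isCompact_closedBall (0 : E n) 1)
    (cont_uncurry hK hd0 hd hf) ?_
  intro x y _ hy
  rw [hK.supp y (le_of_lt (by simpa using hy)), zero_mul]

theorem int_cv {φ Φ : E n → ℝ} (hK : Ker φ Φ) {r d : ℝ} (hd0 : 0 ≤ d) (hd : d ≤ 1 / 4)
    {f : E n → ℝ} (hf : ContinuousOn f (closedBall (0 : E n) (r + 1 / 4))) {x : E n}
    (hx : x ∈ closedBall (0 : E n) r) :
    Integrable (fun y => φ y * f (x + d • y)) := by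
  have h1 : IntegrableOn (fun y => φ y * f (x + d • y)) (closedBall (0 : E n) 1) := by
    refine ContinuousOn.integrableOn_compact (isCompact_closedBall (0 : E n) 1) ?_
    have h2 := cont_uncurry hK hd0 hd hf
    exact h2.comp (f := fun y : E n => (x, y)) (Continuous.continuousOn (by fun_prop))
      (fun y _ => ⟨hx, mem_univ _⟩)
  refine h1.integrable_of_forall_notMem_eq_zero fun y hy => ?_
  rw [hK.supp y (le_of_lt (by simpa using hy)), zero_mul]

theorem ker_int {φ Φ : E n → ℝ} (hK : Ker φ Φ) : Integrable φ := by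
  refine Continuous.integrable_of_hasCompactSupport hK.smooth.continuous ?_
  refine HasCompactSupport.intro (isCompact_closedBall (0 : E n) 1) fun y hy => ?_
  exact hK.supp y (le_of_lt (by simpa using hy))

/-- Tonelli -/
theorem tonelli {φ Φ : E n → ℝ} (hK : Ker φ Φ) {d : ℝ} (hd0 : 0 ≤ d) (hd : d ≤ 1 / 4)
    {g : E n → ℝ} (hg : ContinuousOn g (closedBall (0 : E n) (15 / 4))) :
    ∫⁻ x in ball (0 : E n) (7 / 2), ‖cv φ d g x‖ₑ ≤
      (∫⁻ y, ‖φ y‖ₑ) * ∫⁻ x in ball (0 : E n) (15 / 4), ‖g x‖ₑ := by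
  classical
  set G : E n → ℝ := (ball (0 : E n) (15 / 4)).piecewise g (fun _ => 0) with hG
  have hGm : Measurable G :=
    (hg.mono ball_subset_closedBall).measurable_piecewise continuousOn_const
      measurableSet_ball
  have h1 : ∀ x ∈ ball (0 : E n) (7 / 2), ∀ y, φ y * g (x + d • y) = φ y * G (x + d • y) := by
    intro x hx y
    by_cases hy : ‖y‖ ≤ 1
    · rw [hG, Set.piecewise_eq_of_mem _ _ _ (mem_big' hd0 hd hx hy)]
    · rw [hK.supp y (le_of_lt (not_le.mp hy)), zero_mul, zero_mul]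
  have hφm : Measurable φ := hK.smooth.continuous.measurable
  calc ∫⁻ x in ball (0 : E n) (7 / 2), ‖cv φ d g x‖ₑ
      ≤ ∫⁻ x in ball (0 : E n) (7 / 2), ∫⁻ y, ‖φ y‖ₑ * ‖G (x + d • y)‖ₑ := by
        refine setLIntegral_mono' measurableSet_ball fun x hx => ?_
        unfold cv
        refine (enorm_integral_le_lintegral_enorm _).trans (le_of_eq ?_)
        refine lintegral_congr fun y => ?_
        rw [h1 x hx y, enorm_mul]
    _ ≤ ∫⁻ x, ∫⁻ y, ‖φ y‖ₑ * ‖G (x + d • y)‖ₑ := setLIntegral_le_lintegral _ _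
    _ = ∫⁻ y, ∫⁻ x, ‖φ y‖ₑ * ‖G (x + d • y)‖ₑ := by
        refine lintegral_lintegral_swap ?_
        refine Measurable.aemeasurable ?_
        refine Measurable.mul (hφm.comp measurable_snd).enorm ?_
        exact (hGm.comp (by fun_prop)).enorm
    _ = ∫⁻ y, ‖φ y‖ₑ * ∫⁻ x, ‖G x‖ₑ := by
        refine lintegral_congr fun y => ?_
        have hme : Measurable fun x : E n => ‖G (x + d • y)‖ₑ :=
          (hGm.comp (by fun_prop : Measurable fun x : E n => x + d • y)).enorm
        rw [lintegral_const_mul _ hme]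
        congr 1
        exact lintegral_add_right_eq_self (fun x => ‖G x‖ₑ) (d • y)
    _ = (∫⁻ y, ‖φ y‖ₑ) * ∫⁻ x, ‖G x‖ₑ := lintegral_mul_const _ hφm.enorm
    _ = (∫⁻ y, ‖φ y‖ₑ) * ∫⁻ x in ball (0 : E n) (15 / 4), ‖g x‖ₑ := by
        congr 1
        rw [← lintegral_indicator measurableSet_ball]
        refine lintegral_congr fun x => ?_
        by_cases hx : x ∈ ball (0 : E n) (15 / 4)
        · rw [Set.indicator_of_mem hx, hG, Set.piecewise_eq_of_mem _ _ _ hx]
        · rw [Set.indicator_of_notMem hx, hG, Set.piecewise_eq_of_notMem _ _ _ hx, enorm_zero]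

theorem lint_eq {r : ℝ} {f : E n → ℝ} (hf : ContinuousOn f (closedBall (0 : E n) r)) :
    ∫⁻ x in ball (0 : E n) r, ‖f x‖ₑ = ENNReal.ofReal (∫ x in ball (0 : E n) r, |f x|) := by
  have h1 : IntegrableOn f (ball (0 : E n) r) :=
    (hf.integrableOn_compact (isCompact_closedBall (0 : E n) r)).mono_set ball_subset_closedBall
  rw [← ofReal_integral_norm_eq_lintegral_enorm h1]
  simp only [Real.norm_eq_abs]

end Fix

theorem p_FIX (hFST : T_FST) : T_FIX := by
  intro n φ Φ hK p u c h hp hPB hen hh hlim d hd0 hd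
  obtain ⟨C, hC, hC'⟩ := hFST n φ Φ hK
  have hu : ∀ j, ContinuousOn (u j) (closedBall (0 : E n) 4) := by
    intro j
    obtain ⟨Ω, hΩ, h1, h2⟩ := hPB j
    exact h2.1.continuousOn.mono h1
  have hu' : ∀ j, ContinuousOn (u j) (closedBall (0 : E n) (15 / 4)) := fun j =>
    (hu j).mono (closedBall_subset_closedBall (by norm_num))
  have hcvu : ∀ j, ContinuousOn (cv φ d (u j)) (closedBall (0 : E n) (15 / 4)) := by
    intro j
    refine Fix.cont_cv hK hd0 hd (r := 15 / 4) ?_
    convert hu j using 2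
    norm_num
  have hcvh : ContinuousOn (cv φ d h) (closedBall (0 : E n) (7 / 2)) := by
    refine Fix.cont_cv hK hd0 hd (r := 7 / 2) ?_
    convert hh using 2
    norm_num
  have hgj : ∀ j, ContinuousOn (fun x => u j x - c j - h x) (closedBall (0 : E n) (15 / 4)) :=
    fun j => ((hu' j).sub continuousOn_const).sub hh
  -- the pointwise identity
  have hid : ∀ j, ∀ x ∈ ball (0 : E n) (7 / 2), cv φ d h x - h x =
      -cv φ d (fun x => u j x - c j - h x) x - (u j x - cv φ d (u j) x) +
        (u j x - c j - h x) := by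
    intro j x hx
    have hx' : x ∈ closedBall (0 : E n) (7 / 2) := ball_subset_closedBall hx
    have e : (7 / 2 + 1 / 4 : ℝ) = 15 / 4 := by norm_num
    have i1 : Integrable (fun y => φ y * u j (x + d • y)) :=
      Fix.int_cv hK hd0 hd (r := 7 / 2) (by rw [e]; exact hu' j) hx'
    have i2 : Integrable (fun y => φ y * h (x + d • y)) :=
      Fix.int_cv hK hd0 hd (r := 7 / 2) (by rw [e]; exact hh) hx'
    have i3 : Integrable (fun y => φ y * c j) := (Fix.ker_int hK).mul_const _
    have h1 : cv φ d (fun x => u j x - c j - h x) x = cv φ d (u j) x - c j - cv φ d h x := by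
      unfold cv
      have h2 : (fun y => φ y * (u j (x + d • y) - c j - h (x + d • y))) =
          fun y => φ y * u j (x + d • y) - φ y * c j - φ y * h (x + d • y) := by
        funext y
        ring
      have i4 : Integrable (fun y => φ y * u j (x + d • y) - φ y * c j) := i1.sub i3
      rw [h2, integral_sub i4 i2, integral_sub i1 i3, integral_mul_const, hK.one,
        one_mul]
    rw [h1]
    ring
  -- the quantities tending to zero
  set L : ℕ → ℝ≥0∞ := fun j =>
    ENNReal.ofReal (∫ x in ball (0 : E n) (15 / 4), |u j x - c j - h x|) with hL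
  set M : ℕ → ℝ≥0∞ := fun j =>
    ENNReal.ofReal (∫ x in ball (0 : E n) (15 / 4), |u j x - cv φ d (u j) x|) with hM
  have hL0 : Tendsto L atTop (𝓝 0) := by
    have := ENNReal.tendsto_ofReal hlim
    simpa using this
  have hM0 : Tendsto M atTop (𝓝 0) := by
    have h1 : Tendsto (fun j => ENNReal.ofReal (C * |p j - 2|)) atTop (𝓝 0) := by
      have h2 : Tendsto (fun j => C * |p j - 2|) atTop (𝓝 0) := by
        have h3 : Tendsto (fun j => p j - 2) atTop (𝓝 (2 - 2)) := hp.sub_const 2
        have h4 := (h3.abs).const_mul C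
        simpa using h4
      simpa using ENNReal.tendsto_ofReal h2
    refine tendsto_of_tendsto_of_tendsto_of_le_of_le' tendsto_const_nhds h1
      (Eventually.of_forall fun j => bot_le) ?_
    have h5 : ∀ᶠ j in atTop, |p j - 2| < 1 / 4 := by
      have h6 : Tendsto (fun j => |p j - 2|) atTop (𝓝 |2 - 2|) := (hp.sub_const 2).abs
      rw [sub_self, abs_zero] at h6
      exact h6.eventually_lt_const (by norm_num)
    filter_upwards [h5] with j hj
    exact ENNReal.ofReal_le_ofReal (hC' (p j) (u j) hj.le (hPB j) (hen j) d hd0 hd)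
  have hKf : (∫⁻ y, ‖φ y‖ₑ) ≠ ⊤ := (Fix.ker_int hK).2.ne
  have hbound : ∀ j, ∫⁻ x in ball (0 : E n) (7 / 2), ‖cv φ d h x - h x‖ₑ ≤
      (∫⁻ y, ‖φ y‖ₑ) * L j + M j + L j := by
    intro j
    have hsub : ball (0 : E n) (7 / 2) ⊆ ball (0 : E n) (15 / 4) :=
      ball_subset_ball (by norm_num)
    have hLj : L j = ∫⁻ x in ball (0 : E n) (15 / 4), ‖u j x - c j - h x‖ₑ :=
      (Fix.lint_eq (hgj j)).symm
    have hMj : M j = ∫⁻ x in ball (0 : E n) (15 / 4), ‖u j x - cv φ d (u j) x‖ₑ :=
      (Fix.lint_eq ((hu' j).sub (hcvu j))).symm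
    have m1 : AEMeasurable (fun x => ‖u j x - c j - h x‖ₑ)
        (volume.restrict (ball (0 : E n) (7 / 2))) :=
      ((hgj j).mono (ball_subset_closedBall.trans
        (closedBall_subset_closedBall (by norm_num)))).aestronglyMeasurable
        measurableSet_ball |>.enorm
    have m2 : AEMeasurable (fun x => ‖u j x - cv φ d (u j) x‖ₑ)
        (volume.restrict (ball (0 : E n) (7 / 2))) :=
      (((hu' j).sub (hcvu j)).mono (ball_subset_closedBall.trans
        (closedBall_subset_closedBall (by norm_num)))).aestronglyMeasurable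
        measurableSet_ball |>.enorm
    calc ∫⁻ x in ball (0 : E n) (7 / 2), ‖cv φ d h x - h x‖ₑ
        ≤ ∫⁻ x in ball (0 : E n) (7 / 2), (‖cv φ d (fun x => u j x - c j - h x) x‖ₑ +
            ‖u j x - cv φ d (u j) x‖ₑ + ‖u j x - c j - h x‖ₑ) := by
          refine setLIntegral_mono' measurableSet_ball fun x hx => ?_
          rw [hid j x hx]
          refine (enorm_add_le _ _).trans ?_
          gcongr
          refine (enorm_sub_le).trans ?_
          rw [enorm_neg]
      _ = (∫⁻ x in ball (0 : E n) (7 / 2), ‖cv φ d (fun x => u j x - c j - h x) x‖ₑ) +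
            (∫⁻ x in ball (0 : E n) (7 / 2), ‖u j x - cv φ d (u j) x‖ₑ) +
            (∫⁻ x in ball (0 : E n) (7 / 2), ‖u j x - c j - h x‖ₑ) := by
          rw [lintegral_add_right' _ m1, lintegral_add_right' _ m2]
      _ ≤ (∫⁻ y, ‖φ y‖ₑ) * L j + M j + L j := by
          gcongr
          · rw [hLj]
            exact Fix.tonelli hK hd0 hd (hgj j)
          · rw [hMj]
            exact lintegral_mono_set hsub
          · rw [hLj]
            exact lintegral_mono_set hsub
  have hzero : ∫⁻ x in ball (0 : E n) (7 / 2), ‖cv φ d h x - h x‖ₑ = 0 := by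
    have h1 : Tendsto (fun j => (∫⁻ y, ‖φ y‖ₑ) * L j + M j + L j) atTop (𝓝 0) := by
      have h2 : Tendsto (fun j => (∫⁻ y, ‖φ y‖ₑ) * L j) atTop (𝓝 0) := by
        have := ENNReal.Tendsto.const_mul hL0 (Or.inr hKf)
        simpa using this
      have := (h2.add hM0).add hL0
      simpa using this
    exact le_antisymm (ge_of_tendsto' h1 hbound) bot_le
  -- conclusion
  have hsub7 : ball (0 : E n) (7 / 2) ⊆ closedBall (0 : E n) (15 / 4) :=
    ball_subset_closedBall.trans (closedBall_subset_closedBall (by norm_num))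
  have c1 : ContinuousOn (cv φ d h) (ball (0 : E n) (7 / 2)) := hcvh.mono ball_subset_closedBall
  have c2 : ContinuousOn h (ball (0 : E n) (7 / 2)) := hh.mono hsub7
  have hae : cv φ d h =ᵐ[volume.restrict (ball (0 : E n) (7 / 2))] h := by
    have hm : AEMeasurable (fun x => ‖cv φ d h x - h x‖ₑ)
        (volume.restrict (ball (0 : E n) (7 / 2))) :=
      ((c1.sub c2).aestronglyMeasurable measurableSet_ball).enorm
    have h1 := (lintegral_eq_zero_iff' hm).mp hzero
    filter_upwards [h1] with x hx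
    have h2 : ‖cv φ d h x - h x‖ₑ = 0 := hx
    rw [enorm_eq_zero] at h2
    linarith
  exact fun x hx => Measure.eqOn_open_of_ae_eq hae isOpen_ball c1 c2 hx

end Pool.Agent.SCN
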