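import Pool.Agent.SCN.Targets

/-! # Strong comparison for `p`-harmonic functions, `p` near 2: the target FST -/

set_option autoImplicit false

open Set MeasureTheory Filter Topology Metric
open scoped RealInnerProductSpace ENNReal

namespace Pool.Agent.SCN

open Pool.Agent.SCP (E PHarm V)

variable {n : ℕ}

theorem fst_bdd {φ Φ : E n → ℝ} (hK : Ker φ Φ) : ∃ K : ℝ, 0 < K ∧ ∀ y, ‖gradient Φ y‖ ≤ K := by
  have hc : Continuous fun y : E n => φ y • y := hK.smooth.continuous.smul continuous_id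
  obtain ⟨M, hM⟩ := (isCompact_closedBall (0 : E n) 1).exists_bound_of_continuousOn
    hc.continuousOn
  refine ⟨|M| + 1, by positivity, fun y => ?_⟩
  rw [hK.grad]
  rcases lt_or_ge ‖y‖ 1 with h | h
  · have h1 := hM y (by rw [mem_closedBall_zero_iff]; exact h.le)
    have h3 := le_abs_self M
    linarith
  · rw [hK.supp y h, zero_smul, norm_zero]; positivity

/-- The error field. -/
noncomputable def fst_F (p : ℝ) (u : E n → ℝ) (z : E n) : E n :=
  gradient u z - V p (gradient u z)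

theorem fst_meas_grad (u : E n → ℝ) : Measurable (gradient u) :=
  (InnerProductSpace.toDual ℝ (E n)).symm.continuous.measurable.comp (measurable_fderiv ℝ u)

theorem fst_meas_V (p : ℝ) : Measurable (V p : E n → E n) := by
  unfold V
  exact (measurable_norm.pow_const _).smul measurable_id

theorem fst_meas_F (p : ℝ) (u : E n → ℝ) : Measurable (fst_F p u) :=
  (fst_meas_grad u).sub ((fst_meas_V p).comp (fst_meas_grad u))

theorem fst_cont_grad {Ω : Set (E n)} {u : E n → ℝ} (hΩ : IsOpen Ω)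
    (hu : ContDiffOn ℝ 1 u Ω) : ContinuousOn (gradient u) Ω :=
  (InnerProductSpace.toDual ℝ (E n)).symm.continuous.comp_continuousOn
    (hu.continuousOn_fderiv_of_isOpen hΩ le_rfl)

/-- The function to be integrated. -/
noncomputable def fst_G (p : ℝ) (u : E n → ℝ) : E n → ℝ≥0∞ :=
  (ball (0 : E n) 4).indicator fun z => ‖fst_F p u z‖ₑ

theorem fst_meas_G (p : ℝ) (u : E n → ℝ) : Measurable (fst_G p u) :=
  (fst_meas_F p u).enorm.indicator measurableSet_ball

theorem fst_mem {x y : E n} {ρ d : ℝ} (hx : x ∈ ball (0 : E n) (15 / 4)) (hρ : 0 ≤ ρ)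
    (hρd : ρ ≤ d) (hd : d ≤ 1 / 4) (hy : ‖y‖ ≤ 1) : x + ρ • y ∈ ball (0 : E n) 4 := by
  rw [mem_ball_zero_iff] at hx ⊢
  calc ‖x + ρ • y‖ ≤ ‖x‖ + ‖ρ • y‖ := norm_add_le _ _
    _ = ‖x‖ + ρ * ‖y‖ := by rw [norm_smul, Real.norm_of_nonneg hρ]
    _ < 4 := by nlinarith [norm_nonneg y]

/-- The inner integral. -/
theorem fst_inner {φ Φ : E n → ℝ} (hK : Ker φ Φ) (hW : T_WAV) {p : ℝ} (hp : 1 < p)
    (hV : Continuous (V p : E n → E n)) {u : E n → ℝ} (hu : PB p 0 4 u) {K : ℝ}
    (hKb : ∀ y, ‖gradient Φ y‖ ≤ K) {x : E n} (hx : x ∈ ball (0 : E n) (15 / 4)) {ρ : ℝ}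
    (hρ : 0 < ρ) (hρd : ρ ≤ 1 / 4) :
    ‖-∫ y, ⟪gradient u (x + ρ • y), gradient Φ y⟫‖ₑ ≤
      ∫⁻ y in closedBall (0 : E n) 1, ENNReal.ofReal K * fst_G p u (x + ρ • y) := by
  obtain ⟨Ω, hΩ, hsub, hPH⟩ := hu
  have hgz : ∀ y : E n, y ∉ closedBall (0 : E n) 1 → gradient Φ y = 0 := by
    intro y hy
    rw [mem_closedBall_zero_iff, not_le] at hy
    rw [hK.grad, hK.supp y hy.le, zero_smul]
  have hgc : Continuous (gradient Φ) := by
    have h : gradient Φ = fun y => φ y • y := funext hK.grad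
    rw [h]
    exact hK.smooth.continuous.smul continuous_id
  have hmem : ∀ y ∈ closedBall (0 : E n) 1, x + ρ • y ∈ ball (0 : E n) 4 := by
    intro y hy
    rw [mem_closedBall_zero_iff] at hy
    exact fst_mem hx hρ.le le_rfl hρd hy
  have hgu : ContinuousOn (fun y : E n => gradient u (x + ρ • y)) (closedBall (0 : E n) 1) := by
    refine (fst_cont_grad hΩ hPH.1).comp (by fun_prop) ?_
    intro y hy
    exact hsub (ball_subset_closedBall (hmem y hy))
  have hPBx : PB p x ρ u := by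
    refine ⟨Ω, hΩ, ?_, hPH⟩
    intro z hz
    apply hsub
    rw [mem_closedBall, dist_eq_norm] at hz
    rw [mem_ball_zero_iff] at hx
    rw [mem_closedBall_zero_iff]
    have h1 := norm_add_le (z - x) x
    rw [sub_add_cancel] at h1
    linarith
  have hw := hW n φ Φ hK p u x ρ hp hρ hPBx
  have i1 : IntegrableOn (fun y : E n => ⟪gradient u (x + ρ • y), gradient Φ y⟫)
      (closedBall (0 : E n) 1) :=
    (hgu.inner hgc.continuousOn).integrableOn_compact (isCompact_closedBall _ _)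
  have i2 : IntegrableOn (fun y : E n => ⟪V p (gradient u (x + ρ • y)), gradient Φ y⟫)
      (closedBall (0 : E n) 1) :=
    ((hV.comp_continuousOn hgu).inner hgc.continuousOn).integrableOn_compact
      (isCompact_closedBall _ _)
  have e1 : ∫ y, ⟪gradient u (x + ρ • y), gradient Φ y⟫ =
      ∫ y in closedBall (0 : E n) 1, ⟪gradient u (x + ρ • y), gradient Φ y⟫ := by
    symm
    apply setIntegral_eq_integral_of_forall_compl_eq_zero
    intro y hy
    rw [hgz y hy, inner_zero_right]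
  have e2 : ∫ y, ⟪V p (gradient u (x + ρ • y)), gradient Φ y⟫ =
      ∫ y in closedBall (0 : E n) 1, ⟪V p (gradient u (x + ρ • y)), gradient Φ y⟫ := by
    symm
    apply setIntegral_eq_integral_of_forall_compl_eq_zero
    intro y hy
    rw [hgz y hy, inner_zero_right]
  have e3 : ∫ y, ⟪gradient u (x + ρ • y), gradient Φ y⟫ =
      ∫ y in closedBall (0 : E n) 1, ⟪fst_F p u (x + ρ • y), gradient Φ y⟫ := by
    have e4 := integral_sub i1 i2
    rw [← e1, ← e2, hw, sub_zero] at e4
    rw [← e4]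
    refine integral_congr_ae (Eventually.of_forall fun y => ?_)
    simp only [fst_F, inner_sub_left]
  rw [e3, enorm_neg]
  refine (enorm_integral_le_lintegral_enorm _).trans ?_
  refine setLIntegral_mono' measurableSet_closedBall fun y hy => ?_
  rw [fst_G, indicator_of_mem (hmem y hy)]
  have h5 : ‖⟪fst_F p u (x + ρ • y), gradient Φ y⟫‖ ≤ K * ‖fst_F p u (x + ρ • y)‖ := by
    refine (norm_inner_le_norm _ _).trans ?_
    rw [mul_comm]
    exact mul_le_mul_of_nonneg_right (hKb y) (norm_nonneg _)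
  have hK0 : 0 ≤ K := (norm_nonneg _).trans (hKb 0)
  rw [← ofReal_norm, ← ofReal_norm, ← ENNReal.ofReal_mul hK0]
  exact ENNReal.ofReal_le_ofReal h5

/-- The pointwise bound. -/
theorem fst_pt {φ Φ : E n → ℝ} (hK : Ker φ Φ) (hD : T_DCV) (hW : T_WAV) {p : ℝ} (hp : 1 < p)
    (hV : Continuous (V p : E n → E n)) {u : E n → ℝ} (hu : PB p 0 4 u) {K : ℝ}
    (hKb : ∀ y, ‖gradient Φ y‖ ≤ K) {x : E n} (hx : x ∈ ball (0 : E n) (15 / 4)) {d : ℝ}
    (hd : 0 ≤ d) (hd4 : d ≤ 1 / 4) :
    ‖u x - cv φ d u x‖ₑ ≤ ∫⁻ ρ in Ioc 0 d, ∫⁻ y in closedBall (0 : E n) 1,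
      ENNReal.ofReal K * fst_G p u (x + ρ • y) := by
  have hu' := hu
  obtain ⟨Ω, hΩ, hsub, hPH⟩ := hu'
  have hsx : closedBall x d ⊆ Ω := by
    intro z hz
    apply hsub
    rw [mem_closedBall, dist_eq_norm] at hz
    rw [mem_ball_zero_iff] at hx
    rw [mem_closedBall_zero_iff]
    have h1 := norm_add_le (z - x) x
    rw [sub_add_cancel] at h1
    linarith
  have h0 : cv φ 0 u x = u x := by
    unfold cv
    simp only [zero_smul, add_zero]
    rw [integral_mul_const, hK.one, one_mul]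
  have h1 := (hD n φ Φ hK Ω u x d hΩ hPH.1 hsx).2 0 le_rfl hd
  rw [h0, intervalIntegral.integral_of_le hd] at h1
  rw [h1]
  refine (enorm_integral_le_lintegral_enorm _).trans ?_
  refine setLIntegral_mono' measurableSet_Ioc fun ρ hρ => ?_
  exact fst_inner hK hW hp hV hu hKb hx hρ.1 (hρ.2.trans hd4)

/-- Tonelli. -/
theorem fst_ton {p : ℝ} {u : E n → ℝ} {K d : ℝ} :
    ∫⁻ x in ball (0 : E n) (15 / 4), ∫⁻ ρ in Ioc 0 d, ∫⁻ y in closedBall (0 : E n) 1,
      ENNReal.ofReal K * fst_G p u (x + ρ • y) ≤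
    ENNReal.ofReal K * (∫⁻ z, fst_G p u z) *
      (ENNReal.ofReal d * volume (closedBall (0 : E n) 1)) := by
  have hG := fst_meas_G p u
  have hm : Measurable fun q : E n × (ℝ × E n) =>
      ENNReal.ofReal K * fst_G p u (q.1 + q.2.1 • q.2.2) := by
    refine Measurable.const_mul (hG.comp ?_) _
    exact measurable_fst.add (measurable_snd.fst.smul measurable_snd.snd)
  set ν : Measure (ℝ × E n) := (volume.restrict (Ioc 0 d)).prod
    (volume.restrict (closedBall (0 : E n) 1)) with hν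
  have e1 : ∀ x : E n, ∫⁻ ρ in Ioc 0 d, ∫⁻ y in closedBall (0 : E n) 1,
      ENNReal.ofReal K * fst_G p u (x + ρ • y) =
      ∫⁻ q, ENNReal.ofReal K * fst_G p u (x + q.1 • q.2) ∂ν := by
    intro x
    have h3 : Measurable fun q : ℝ × E n => ENNReal.ofReal K * fst_G p u (x + q.1 • q.2) := by
      refine Measurable.const_mul (hG.comp ?_) _
      exact measurable_const.add (measurable_fst.smul measurable_snd)
    have h4 := lintegral_prod (μ := (volume : Measure ℝ).restrict (Ioc 0 d))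
      (ν := (volume : Measure (E n)).restrict (closedBall (0 : E n) 1))
      (fun q : ℝ × E n => ENNReal.ofReal K * fst_G p u (x + q.1 • q.2)) h3.aemeasurable
    exact h4.symm
  simp only [e1]
  refine (setLIntegral_le_lintegral _ _).trans ?_
  rw [lintegral_lintegral_swap hm.aemeasurable]
  have e2 : ∀ q : ℝ × E n, ∫⁻ x, ENNReal.ofReal K * fst_G p u (x + q.1 • q.2) =
      ENNReal.ofReal K * ∫⁻ z, fst_G p u z := by
    intro q
    have h3 : Measurable fun x : E n => fst_G p u (x + q.1 • q.2) :=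
      hG.comp (measurable_id.add_const _)
    rw [lintegral_const_mul _ h3, lintegral_add_right_eq_self (fun z => fst_G p u z)]
  simp only [e2]
  rw [lintegral_const, hν, ← univ_prod_univ, Measure.prod_prod, Measure.restrict_apply_univ,
    Measure.restrict_apply_univ, Real.volume_Ioc, sub_zero]

/-- The integral of the error field. -/
theorem fst_int {C : ℝ} (hC : 0 < C) (hF : ∀ (n : ℕ) (p M : ℝ) (ξ : E n), |p - 2| ≤ 1 / 4 →
      0 < M → ‖ξ - M ^ (2 - p) • V p ξ‖ ≤ C * |p - 2| * (M * (1 + (‖ξ‖ / M) ^ p)))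
    {p : ℝ} (hp : |p - 2| ≤ 1 / 4) {u : E n → ℝ} (hu : PB p 0 4 u) (he : en p u 0 4 ≤ 1) :
    ∫⁻ z, fst_G p u z ≤
      ENNReal.ofReal (C * |p - 2| * ((volume (ball (0 : E n) 4)).toReal + 1)) := by
  obtain ⟨Ω, hΩ, hsub, hPH⟩ := hu
  have hp0 : 0 ≤ p := by
    have := abs_le.mp hp
    linarith
  have hgu : ContinuousOn (gradient u) (closedBall (0 : E n) 4) :=
    (fst_cont_grad hΩ hPH.1).mono hsub
  have hi : IntegrableOn (fun z => ‖gradient u z‖ ^ p) (ball (0 : E n) 4) := by
    have h1 : ContinuousOn (fun z => ‖gradient u z‖ ^ p) (closedBall (0 : E n) 4) :=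
      hgu.norm.rpow_const fun x _ => Or.inr hp0
    exact (h1.integrableOn_compact (isCompact_closedBall _ _)).mono_set ball_subset_closedBall
  have hk : IntegrableOn (fun _ : E n => (1 : ℝ)) (ball (0 : E n) 4) :=
    integrableOn_const measure_ball_lt_top.ne
  have hpt : ∀ z : E n, ‖fst_F p u z‖ₑ ≤
      ENNReal.ofReal (C * |p - 2| * (1 + ‖gradient u z‖ ^ p)) := by
    intro z
    have h1 := hF n p 1 (gradient u z) hp one_pos
    rw [Real.one_rpow, one_smul, one_mul, div_one] at h1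
    rw [← ofReal_norm]
    exact ENNReal.ofReal_le_ofReal h1
  have h2 : ∫⁻ z, fst_G p u z ≤ ∫⁻ z in ball (0 : E n) 4,
      ENNReal.ofReal (C * |p - 2| * (1 + ‖gradient u z‖ ^ p)) := by
    unfold fst_G
    rw [lintegral_indicator measurableSet_ball]
    exact setLIntegral_mono' measurableSet_ball fun z _ => hpt z
  have h3 : IntegrableOn (fun z => C * |p - 2| * (1 + ‖gradient u z‖ ^ p))
      (ball (0 : E n) 4) := (hk.add hi).const_mul _
  have h4 : ∫⁻ z in ball (0 : E n) 4,
      ENNReal.ofReal (C * |p - 2| * (1 + ‖gradient u z‖ ^ p)) =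
      ENNReal.ofReal (∫ z in ball (0 : E n) 4, C * |p - 2| * (1 + ‖gradient u z‖ ^ p)) := by
    symm
    apply ofReal_integral_eq_lintegral_ofReal h3
    refine Eventually.of_forall fun z => ?_
    have : 0 ≤ ‖gradient u z‖ ^ p := Real.rpow_nonneg (norm_nonneg _) _
    positivity
  have h5 : ∫ z in ball (0 : E n) 4, C * |p - 2| * (1 + ‖gradient u z‖ ^ p) =
      C * |p - 2| * ((volume (ball (0 : E n) 4)).toReal + en p u 0 4) := by
    have e6 := integral_add hk hi
    have e7 : ∫ z in ball (0 : E n) 4, (1 : ℝ) = (volume (ball (0 : E n) 4)).toReal := by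
      rw [setIntegral_const, smul_eq_mul, mul_one]
      rfl
    rw [integral_const_mul]
    have e8 : ∫ z in ball (0 : E n) 4, (1 + ‖gradient u z‖ ^ p) =
        (volume (ball (0 : E n) 4)).toReal + en p u 0 4 := by
      rw [← e7]
      exact e6
    rw [e8]
  refine h2.trans ?_
  rw [h4, h5]
  apply ENNReal.ofReal_le_ofReal
  have h6 : 0 ≤ C * |p - 2| := by positivity
  nlinarith

/-- **FST**. -/
theorem p_FST (hD : T_DCV) (hW : T_WAV) (hB : T_FB) : T_FST := by
  intro n φ Φ hK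
  obtain ⟨K, hK0, hKb⟩ := fst_bdd hK
  obtain ⟨C, hC, hF⟩ := hB
  set v1 : ℝ := (volume (closedBall (0 : E n) 1)).toReal with hv1
  set v4 : ℝ := (volume (ball (0 : E n) 4)).toReal with hv4
  have hv1' : 0 ≤ v1 := ENNReal.toReal_nonneg
  have hv4' : 0 ≤ v4 := ENNReal.toReal_nonneg
  refine ⟨K * (C * (v4 + 1)) * (v1 + 1), by positivity, ?_⟩
  intro p u hp hu he d hd hd4
  have hp1 : 1 < p := by
    have := abs_le.mp hp
    linarith
  have hV : Continuous (V p : E n → E n) := (SCP.mono n p hp1).1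
  have h1 : ∫ x in ball (0 : E n) (15 / 4), |u x - cv φ d u x| ≤
      ‖∫ x in ball (0 : E n) (15 / 4), |u x - cv φ d u x|‖ := Real.le_norm_self _
  have h2 : ‖∫ x in ball (0 : E n) (15 / 4), |u x - cv φ d u x|‖ₑ ≤
      ENNReal.ofReal (K * (C * (v4 + 1)) * (v1 + 1) * |p - 2|) := by
    refine (enorm_integral_le_lintegral_enorm _).trans ?_
    have h3 : ∫⁻ x in ball (0 : E n) (15 / 4), ‖|u x - cv φ d u x|‖ₑ ≤
        ∫⁻ x in ball (0 : E n) (15 / 4), ∫⁻ ρ in Ioc 0 d, ∫⁻ y in closedBall (0 : E n) 1,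
          ENNReal.ofReal K * fst_G p u (x + ρ • y) := by
      refine setLIntegral_mono' measurableSet_ball fun x hx => ?_
      have h4 := fst_pt hK hD hW hp1 hV hu hKb hx hd hd4
      have h5 : ‖|u x - cv φ d u x|‖ₑ = ‖u x - cv φ d u x‖ₑ := by
        rw [← ofReal_norm, ← ofReal_norm, Real.norm_eq_abs, abs_abs,
          Real.norm_eq_abs]
      rw [h5]
      exact h4
    refine h3.trans (fst_ton.trans ?_)
    have h6 := fst_int hC hF hp hu he
    have h7 : volume (closedBall (0 : E n) 1) = ENNReal.ofReal v1 := by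
      rw [hv1, ENNReal.ofReal_toReal measure_closedBall_lt_top.ne]
    calc ENNReal.ofReal K * (∫⁻ z, fst_G p u z) *
          (ENNReal.ofReal d * volume (closedBall (0 : E n) 1))
        ≤ ENNReal.ofReal K * ENNReal.ofReal (C * |p - 2| * (v4 + 1)) *
          (ENNReal.ofReal d * ENNReal.ofReal v1) := by
          rw [h7]
          gcongr
      _ = ENNReal.ofReal (K * (C * |p - 2| * (v4 + 1)) * (d * v1)) := by
          rw [← ENNReal.ofReal_mul hK0.le, ← ENNReal.ofReal_mul hd,
            ← ENNReal.ofReal_mul (by positivity)]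
      _ ≤ ENNReal.ofReal (K * (C * (v4 + 1)) * (v1 + 1) * |p - 2|) := by
          apply ENNReal.ofReal_le_ofReal
          have h8 : d * v1 ≤ v1 + 1 := by nlinarith
          have h9 : 0 ≤ K * (C * |p - 2| * (v4 + 1)) := by positivity
          calc K * (C * |p - 2| * (v4 + 1)) * (d * v1)
              ≤ K * (C * |p - 2| * (v4 + 1)) * (v1 + 1) :=
                mul_le_mul_of_nonneg_left h8 h9
            _ = K * (C * (v4 + 1)) * (v1 + 1) * |p - 2| := by ring
  have h10 : 0 ≤ K * (C * (v4 + 1)) * (v1 + 1) * |p - 2| := by positivity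
  rw [← ofReal_norm] at h2
  exact h1.trans ((ENNReal.ofReal_le_ofReal_iff h10).mp h2)

end Pool.Agent.SCN
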