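import Pool.Agent.SCN.Targets

/-! # Strong comparison for `p`-harmonic functions, `p` near 2: target `GRC` -/

set_option autoImplicit false

open Set MeasureTheory Filter Topology Metric
open scoped RealInnerProductSpace

namespace Pool.Agent.SCN

open Pool.Agent.SCP (E PHarm V)

/-- The pointwise inequality. -/
theorem grc_pt {n : ℕ} {p C : ℝ} {ξ ζ : E n} (hp1 : 1 ≤ p) (hC : C * |p - 2| ≤ 1 / 2)
    (hV : ‖V p ζ - V p ξ - (‖ξ‖ + ‖ζ‖) ^ (p - 2) • (ζ - ξ)‖ ≤
      C * |p - 2| * (‖ξ‖ + ‖ζ‖) ^ (p - 2) * ‖ζ - ξ‖) :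
    ‖ζ - ξ‖ ^ p ≤ 2 * ⟪V p ζ - V p ξ, ζ - ξ⟫ + |p - 2| * (‖ξ‖ + ‖ζ‖) ^ p := by
  set s := ‖ξ‖ + ‖ζ‖ with hs
  set D := ζ - ξ with hD
  have hs0 : 0 ≤ s := by positivity
  have hDs : ‖D‖ ≤ s := by
    rw [hD, hs]
    have := norm_sub_le ζ ξ
    linarith
  have hsp : 0 ≤ s ^ (p - 2) := Real.rpow_nonneg hs0 _
  -- lower bound for the inner product
  have key : s ^ (p - 2) * ‖D‖ ^ 2 ≤ 2 * ⟪V p ζ - V p ξ, D⟫ := by
    have h1 : ⟪V p ζ - V p ξ, D⟫ = ⟪V p ζ - V p ξ - s ^ (p - 2) • D, D⟫
        + s ^ (p - 2) * ‖D‖ ^ 2 := by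
      have h : V p ζ - V p ξ = (V p ζ - V p ξ - s ^ (p - 2) • D) + s ^ (p - 2) • D := by abel
      conv_lhs => rw [h]
      rw [inner_add_left, real_inner_smul_left, real_inner_self_eq_norm_sq]
    have h2 : |⟪V p ζ - V p ξ - s ^ (p - 2) • D, D⟫| ≤
        ‖V p ζ - V p ξ - s ^ (p - 2) • D‖ * ‖D‖ := abs_real_inner_le_norm _ _
    have h3 : ‖V p ζ - V p ξ - s ^ (p - 2) • D‖ * ‖D‖ ≤ 1 / 2 * (s ^ (p - 2) * ‖D‖ ^ 2) := by
      calc ‖V p ζ - V p ξ - s ^ (p - 2) • D‖ * ‖D‖
          ≤ (C * |p - 2| * s ^ (p - 2) * ‖D‖) * ‖D‖ :=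
            mul_le_mul_of_nonneg_right hV (norm_nonneg _)
        _ = (C * |p - 2|) * (s ^ (p - 2) * ‖D‖ ^ 2) := by ring
        _ ≤ 1 / 2 * (s ^ (p - 2) * ‖D‖ ^ 2) :=
            mul_le_mul_of_nonneg_right hC (by positivity)
    have h4 := abs_le.1 (h2.trans h3)
    linarith [h4.1]
  have hrest : 0 ≤ |p - 2| * s ^ p := mul_nonneg (abs_nonneg _) (Real.rpow_nonneg hs0 _)
  rcases eq_or_lt_of_le (norm_nonneg D) with h0 | hpos
  · rw [← h0, Real.zero_rpow (by linarith)]
    have : 0 ≤ s ^ (p - 2) * ‖D‖ ^ 2 := by positivity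
    linarith
  · have hs1 : 0 < s := lt_of_lt_of_le hpos hDs
    rcases le_total 2 p with h2 | h2
    · have h5 : ‖D‖ ^ p ≤ s ^ (p - 2) * ‖D‖ ^ 2 := by
        calc ‖D‖ ^ p = ‖D‖ ^ (p - 2) * ‖D‖ ^ 2 := by
              rw [← Real.rpow_two, ← Real.rpow_add hpos]
              congr 1
              ring
          _ ≤ s ^ (p - 2) * ‖D‖ ^ 2 :=
            mul_le_mul_of_nonneg_right
              (Real.rpow_le_rpow hpos.le hDs (by linarith)) (by positivity)
      linarith
    · have h6 : ‖D‖ ^ p = (s ^ (p - 2) * ‖D‖ ^ 2) ^ (p / 2) * (s ^ p) ^ (1 - p / 2) := by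
        rw [Real.mul_rpow hsp (by positivity), ← Real.rpow_mul hs1.le, ← Real.rpow_two,
          ← Real.rpow_mul hpos.le, ← Real.rpow_mul hs1.le,
          mul_comm (s ^ ((p - 2) * (p / 2))), mul_assoc, ← Real.rpow_add hs1]
        have e1 : (p - 2) * (p / 2) + p * (1 - p / 2) = 0 := by ring
        have e2 : 2 * (p / 2) = p := by ring
        rw [e1, e2, Real.rpow_zero, mul_one]
      have h7 := Real.geom_mean_le_arith_mean2_weighted (w₁ := p / 2) (w₂ := 1 - p / 2)
        (p₁ := s ^ (p - 2) * ‖D‖ ^ 2) (p₂ := s ^ p) (by linarith) (by linarith)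
        (by positivity) (Real.rpow_nonneg hs0 _) (by ring)
      rw [← h6] at h7
      have h8 : |p - 2| = 2 - p := by
        rw [abs_of_nonpos (by linarith)]
        ring
      rw [h8]
      have h9 : p / 2 * (s ^ (p - 2) * ‖D‖ ^ 2) ≤ 1 * (s ^ (p - 2) * ‖D‖ ^ 2) :=
        mul_le_mul_of_nonneg_right (by linarith) (by positivity)
      have h10 : (1 - p / 2) * s ^ p ≤ (2 - p) * s ^ p :=
        mul_le_mul_of_nonneg_right (by linarith) (Real.rpow_nonneg hs0 _)
      linarith

/-- A continuous function on the closed ball is integrable on the open ball. -/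
theorem grc_int {n : ℕ} {F : Type*} [NormedAddCommGroup F] {f : E n → F} {r : ℝ}
    (hf : ContinuousOn f (closedBall (0 : E n) r)) :
    IntegrableOn f (ball (0 : E n) r) :=
  (hf.integrableOn_compact (isCompact_closedBall _ _)).mono_set ball_subset_closedBall

theorem grc_cont {n : ℕ} {p : ℝ} {u : E n → ℝ} (hu : PB p 0 4 u) :
    ContinuousOn (gradient u) (closedBall (0 : E n) 4) := by
  obtain ⟨Ω, hΩ, hs, hP⟩ := hu
  exact (SCP.TEST_.continuousOn_gradient hΩ hP.1).mono hs

theorem p_GRC (hVEC : T_VEC) : T_GRC := by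
  obtain ⟨C, e, hC, he, hV⟩ := hVEC
  intro n p u h hp hu hen hh hX
  -- regularity
  have hgu : ∀ j, ContinuousOn (gradient (u j)) (closedBall (0 : E n) (5 / 2)) := fun j =>
    (grc_cont (hu j)).mono (closedBall_subset_closedBall (by norm_num))
  have hgh : ContinuousOn (gradient h) (closedBall (0 : E n) (5 / 2)) := by
    refine (SCP.TEST_.continuousOn_gradient isOpen_ball (hh.1.of_le ?_)).mono
      (closedBall_subset_ball (by norm_num))
    exact_mod_cast le_top
  obtain ⟨S, hS⟩ := (isCompact_closedBall (0 : E n) (5 / 2)).exists_bound_of_continuousOn hgh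
  have hS0 : 0 ≤ S := (norm_nonneg _).trans (hS 0 (mem_closedBall_self (by norm_num)))
  set M : ℝ := ∫ x in ball (0 : E n) (5 / 2), (1 + S) ^ (3 : ℝ) with hM
  have hM0 : 0 ≤ M := integral_nonneg fun x => by positivity
  -- eventual bound
  have hev : ∀ᶠ j in atTop, ∫ x in ball (0 : E n) (5 / 2),
      ‖gradient (u j) x - gradient h x‖ ^ p j ≤
      2 * (∫ x in ball (0 : E n) (5 / 2),
        ⟪V (p j) (gradient (u j) x) - V (p j) (gradient h x), gradient (u j) x - gradient h x⟫)
      + |p j - 2| * (8 * (1 + M)) := by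
    have hnear : ∀ᶠ j in atTop, |p j - 2| < min e (min (1 / 2) (1 / (2 * C))) := by
      have := (Metric.tendsto_nhds.1 hp) (min e (min (1 / 2) (1 / (2 * C))))
        (by positivity)
      simpa [Real.dist_eq] using this
    filter_upwards [hnear] with j hj
    have hj1 : |p j - 2| < e := lt_of_lt_of_le hj (min_le_left _ _)
    have hj2 : |p j - 2| < 1 / 2 :=
      lt_of_lt_of_le hj ((min_le_right _ _).trans (min_le_left _ _))
    have hj3 : |p j - 2| < 1 / (2 * C) :=
      lt_of_lt_of_le hj ((min_le_right _ _).trans (min_le_right _ _))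
    have hj4 : C * |p j - 2| ≤ 1 / 2 := by
      have := mul_le_mul_of_nonneg_left hj3.le hC.le
      have h2 : C * (1 / (2 * C)) = 1 / 2 := by field_simp
      linarith
    have hpj := abs_lt.1 hj2
    have hp1 : 1 < p j := by linarith [hpj.1]
    have hp3 : p j ≤ 3 := by linarith [hpj.2]
    -- continuity
    have cV1 : ContinuousOn (fun x => V (p j) (gradient (u j) x))
        (closedBall (0 : E n) (5 / 2)) := (SCP.MONO_.cont hp1).comp_continuousOn (hgu j)
    have cV2 : ContinuousOn (fun x => V (p j) (gradient h x))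
        (closedBall (0 : E n) (5 / 2)) := (SCP.MONO_.cont hp1).comp_continuousOn hgh
    have iX : IntegrableOn (fun x => ⟪V (p j) (gradient (u j) x) - V (p j) (gradient h x),
        gradient (u j) x - gradient h x⟫) (ball (0 : E n) (5 / 2)) :=
      grc_int ((cV1.sub cV2).inner ((hgu j).sub hgh))
    have iu : IntegrableOn (fun x => ‖gradient (u j) x‖ ^ p j) (ball (0 : E n) (5 / 2)) :=
      grc_int ((hgu j).norm.rpow_const fun x _ => Or.inr (by linarith))
    have iu4 : IntegrableOn (fun x => ‖gradient (u j) x‖ ^ p j) (ball (0 : E n) 4) :=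
      grc_int ((grc_cont (hu j)).norm.rpow_const fun x _ => Or.inr (by linarith))
    have is : IntegrableOn (fun x => (‖gradient h x‖ + ‖gradient (u j) x‖) ^ p j)
        (ball (0 : E n) (5 / 2)) :=
      grc_int ((hgh.norm.add (hgu j).norm).rpow_const fun x _ => Or.inr (by linarith))
    have ic : IntegrableOn (fun _ : E n => (1 + S) ^ (3 : ℝ)) (ball (0 : E n) (5 / 2)) :=
      grc_int continuousOn_const
    -- bound for the integral of `s ^ p`
    have hs : ∫ x in ball (0 : E n) (5 / 2), (‖gradient h x‖ + ‖gradient (u j) x‖) ^ p j ≤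
        8 * (1 + M) := by
      have h1 : ∫ x in ball (0 : E n) (5 / 2), (‖gradient h x‖ + ‖gradient (u j) x‖) ^ p j ≤
          ∫ x in ball (0 : E n) (5 / 2), 8 * (‖gradient (u j) x‖ ^ p j + (1 + S) ^ (3 : ℝ)) := by
        refine setIntegral_mono_on is ((iu.add ic).const_mul 8) measurableSet_ball ?_
        intro x hx
        have hb := hS x (ball_subset_closedBall hx)
        have ha0 := norm_nonneg (gradient (u j) x)
        have hb0 := norm_nonneg (gradient h x)
        have h8 : (2 : ℝ) ^ p j ≤ 8 := by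
          calc (2 : ℝ) ^ p j ≤ 2 ^ (3 : ℝ) :=
                Real.rpow_le_rpow_of_exponent_le (by norm_num) hp3
            _ = 8 := by norm_num
        have hbS : ‖gradient h x‖ ^ p j ≤ (1 + S) ^ (3 : ℝ) := by
          calc ‖gradient h x‖ ^ p j ≤ (1 + S) ^ p j :=
                Real.rpow_le_rpow hb0 (by linarith) (by linarith)
            _ ≤ (1 + S) ^ (3 : ℝ) :=
                Real.rpow_le_rpow_of_exponent_le (by linarith) hp3
        have hap : 0 ≤ ‖gradient (u j) x‖ ^ p j := Real.rpow_nonneg ha0 _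
        have hbp : 0 ≤ ‖gradient h x‖ ^ p j := Real.rpow_nonneg hb0 _
        have hmax : (‖gradient h x‖ + ‖gradient (u j) x‖) ^ p j ≤
            2 ^ p j * (‖gradient (u j) x‖ ^ p j + ‖gradient h x‖ ^ p j) := by
          rcases le_total ‖gradient h x‖ ‖gradient (u j) x‖ with hle | hle
          · calc (‖gradient h x‖ + ‖gradient (u j) x‖) ^ p j ≤
                (2 * ‖gradient (u j) x‖) ^ p j :=
                  Real.rpow_le_rpow (by positivity) (by linarith) (by linarith)
              _ = 2 ^ p j * ‖gradient (u j) x‖ ^ p j := Real.mul_rpow (by norm_num) ha0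
              _ ≤ _ := mul_le_mul_of_nonneg_left (by linarith) (by positivity)
          · calc (‖gradient h x‖ + ‖gradient (u j) x‖) ^ p j ≤
                (2 * ‖gradient h x‖) ^ p j :=
                  Real.rpow_le_rpow (by positivity) (by linarith) (by linarith)
              _ = 2 ^ p j * ‖gradient h x‖ ^ p j := Real.mul_rpow (by norm_num) hb0
              _ ≤ _ := mul_le_mul_of_nonneg_left (by linarith) (by positivity)
        calc (‖gradient h x‖ + ‖gradient (u j) x‖) ^ p j ≤
            2 ^ p j * (‖gradient (u j) x‖ ^ p j + ‖gradient h x‖ ^ p j) := hmax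
          _ ≤ 8 * (‖gradient (u j) x‖ ^ p j + ‖gradient h x‖ ^ p j) :=
            mul_le_mul_of_nonneg_right h8 (by linarith)
          _ ≤ 8 * (‖gradient (u j) x‖ ^ p j + (1 + S) ^ (3 : ℝ)) := by linarith
      have h2 : ∫ x in ball (0 : E n) (5 / 2),
          8 * (‖gradient (u j) x‖ ^ p j + (1 + S) ^ (3 : ℝ)) =
          8 * ((∫ x in ball (0 : E n) (5 / 2), ‖gradient (u j) x‖ ^ p j) + M) := by
        rw [integral_const_mul, integral_add iu ic]
      have h3 : ∫ x in ball (0 : E n) (5 / 2), ‖gradient (u j) x‖ ^ p j ≤ 1 := by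
        refine le_trans ?_ (hen j)
        exact setIntegral_mono_set iu4
          (Eventually.of_forall fun x => Real.rpow_nonneg (norm_nonneg _) _)
          (ball_subset_ball (by norm_num)).eventuallyLE
      linarith
    -- put together
    have h1 : ∫ x in ball (0 : E n) (5 / 2), ‖gradient (u j) x - gradient h x‖ ^ p j ≤
        ∫ x in ball (0 : E n) (5 / 2),
          (2 * ⟪V (p j) (gradient (u j) x) - V (p j) (gradient h x),
            gradient (u j) x - gradient h x⟫
          + |p j - 2| * (‖gradient h x‖ + ‖gradient (u j) x‖) ^ p j) := by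
      refine integral_mono_of_nonneg
        (Eventually.of_forall fun x => Real.rpow_nonneg (norm_nonneg _) _)
        ((iX.const_mul 2).add (is.const_mul _)) ?_
      exact Eventually.of_forall fun x =>
        grc_pt hp1.le hj4 (hV n (p j) (gradient h x) (gradient (u j) x) hj1)
    rw [integral_add (iX.const_mul 2) (is.const_mul _), integral_const_mul,
      integral_const_mul] at h1
    have h4 := mul_le_mul_of_nonneg_left hs (abs_nonneg (p j - 2))
    linarith
  -- conclusion
  have hlim : Tendsto (fun j => 2 * (∫ x in ball (0 : E n) (5 / 2),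
        ⟪V (p j) (gradient (u j) x) - V (p j) (gradient h x), gradient (u j) x - gradient h x⟫)
      + |p j - 2| * (8 * (1 + M))) atTop (𝓝 0) := by
    have h1 : Tendsto (fun j => |p j - 2|) atTop (𝓝 0) := by
      have := (hp.sub_const 2).abs
      simpa using this
    have h2 := (hX.const_mul 2).add (h1.mul_const (8 * (1 + M)))
    simpa using h2
  refine tendsto_of_tendsto_of_tendsto_of_le_of_le' tendsto_const_nhds hlim ?_ hev
  exact Eventually.of_forall fun j =>
    integral_nonneg fun x => Real.rpow_nonneg (norm_nonneg _) _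

end Pool.Agent.SCN
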