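import Pool.Agent.SCN.Targets

set_option autoImplicit false

open Set MeasureTheory Filter Topology Metric
open scoped RealInnerProductSpace

namespace Pool.Agent.SCN

open Pool.Agent.SCP (E PHarm V)

/-- The gradient is continuous where the function is `C¹`. -/
theorem gro_cont {n : ℕ} {Ω : Set (E n)} (hΩ : IsOpen Ω) {u : E n → ℝ}
    (hu : ContDiffOn ℝ 1 u Ω) : ContinuousOn (gradient u) Ω := by
  have h1 : ContinuousOn (fderiv ℝ u) Ω := hu.continuousOn_fderiv_of_isOpen hΩ le_rfl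
  have h2 : gradient u = fun x => (InnerProductSpace.toDual ℝ (E n)).symm (fderiv ℝ u x) := rfl
  rw [h2]
  exact (InnerProductSpace.toDual ℝ (E n)).symm.continuous.comp_continuousOn h1

theorem gro_PB {n : ℕ} {p : ℝ} {x : E n} {r s : ℝ} {u : E n → ℝ} (h : PB p x r u)
    (hs : s ≤ r) : PB p x s u := by
  obtain ⟨Ω, h1, h2, h3⟩ := h
  exact ⟨Ω, h1, (closedBall_subset_closedBall hs).trans h2, h3⟩

theorem gro_int {n : ℕ} {p : ℝ} (hp : 0 ≤ p) {x : E n} {r : ℝ} {u : E n → ℝ} (h : PB p x r u) :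
    IntegrableOn (fun y => ‖gradient u y‖ ^ p) (ball x r) := by
  obtain ⟨Ω, h1, h2, h3⟩ := h
  have hc : ContinuousOn (fun y => ‖gradient u y‖ ^ p) (closedBall x r) := by
    refine ContinuousOn.rpow_const ?_ (fun _ _ => Or.inr hp)
    exact ((gro_cont h1 h3.1).mono h2).norm
  exact (hc.integrableOn_compact (isCompact_closedBall x r)).mono_set ball_subset_closedBall

theorem gro_mono {n : ℕ} {p : ℝ} (hp : 0 ≤ p) {x : E n} {r s : ℝ} {u : E n → ℝ}
    (h : PB p x r u) (hs : s ≤ r) : en p u x s ≤ en p u x r := by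
  unfold en
  exact setIntegral_mono_set (gro_int hp h)
    (Eventually.of_forall fun y => Real.rpow_nonneg (norm_nonneg _) _)
    (ball_subset_ball hs).eventuallyLE

theorem gro_nonneg {n : ℕ} {p : ℝ} (u : E n → ℝ) (x : E n) (r : ℝ) : 0 ≤ en p u x r := by
  unfold en
  exact integral_nonneg fun y => Real.rpow_nonneg (norm_nonneg _) _

theorem p_GRO (hD : T_D3B) : T_GRO := by
  intro n hn
  obtain ⟨m, e, hm, he, h⟩ := hD n hn
  have hB : (1 : ℝ) < 2 ^ m := one_lt_pow₀ (by norm_num) (by omega)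
  refine ⟨(2 ^ m) ^ (n - 1), min e 1, by positivity, lt_min he one_pos, ?_⟩
  intro p hp v x r hr hPB ρ hρ hρr
  have hp1 := lt_of_lt_of_le hp (min_le_left _ _)
  have hp2 := lt_of_lt_of_le hp (min_le_right _ _)
  have hp0 : 0 ≤ p := by
    have := (abs_lt.1 hp2).1
    linarith
  have hB0 : (0 : ℝ) < 2 ^ m := by positivity
  have it : ∀ i : ℕ, ((2 ^ m) ^ i) ^ (n - 1) * en p v x (r / (2 ^ m) ^ i) ≤ en p v x r := by
    intro i
    induction i with
    | zero => simp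
    | succ i ih =>
      have hle : r / (2 ^ m) ^ i ≤ r := div_le_self hr.le (one_le_pow₀ hB.le)
      have h1 := h p hp1 v x (r / (2 ^ m) ^ i) (by positivity) (gro_PB hPB hle)
      have h2 : r / (2 ^ m) ^ i / 2 ^ m = r / (2 ^ m) ^ (i + 1) := by
        rw [div_div, ← pow_succ]
      rw [h2] at h1
      calc ((2 ^ m : ℝ) ^ (i + 1)) ^ (n - 1) * en p v x (r / (2 ^ m) ^ (i + 1))
          = ((2 ^ m) ^ i) ^ (n - 1) * ((2 ^ m) ^ (n - 1) * en p v x (r / (2 ^ m) ^ (i + 1))) := by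
            rw [pow_succ (2 ^ m : ℝ) i, mul_pow, mul_assoc]
        _ ≤ ((2 ^ m) ^ i) ^ (n - 1) * en p v x (r / (2 ^ m) ^ i) :=
            mul_le_mul_of_nonneg_left h1 (by positivity)
        _ ≤ en p v x r := ih
  obtain ⟨i, hi1, hi2⟩ := exists_nat_pow_near (x := r / ρ) (y := (2 : ℝ) ^ m)
    ((one_le_div hρ).2 hρr) hB
  have hρi : ρ ≤ r / (2 ^ m) ^ i := by
    rw [le_div_iff₀ (by positivity)]
    rw [le_div_iff₀ hρ] at hi1
    linarith
  have hle : r / (2 ^ m) ^ i ≤ r := div_le_self hr.le (one_le_pow₀ hB.le)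
  have h1 := gro_mono hp0 (gro_PB hPB hle) hρi
  have h2 := it i
  set D : ℝ := (2 ^ m) ^ i with hD'
  have hD0 : 0 < D := by positivity
  have h3 : 1 ≤ (2 ^ m) * (ρ / r) * D := by
    rw [pow_succ, div_lt_iff₀ hρ] at hi2
    rw [mul_div_assoc', div_mul_eq_mul_div, one_le_div hr]
    have : (2 : ℝ) ^ m * ρ * D = (2 ^ m) ^ i * 2 ^ m * ρ := by rw [hD']; ring
    rw [this]
    exact hi2.le
  have h4 : 1 ≤ ((2 ^ m) * (ρ / r) * D) ^ (n - 1) := one_le_pow₀ h3
  calc en p v x ρ ≤ en p v x (r / D) := h1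
    _ = 1 * en p v x (r / D) := (one_mul _).symm
    _ ≤ ((2 ^ m) * (ρ / r) * D) ^ (n - 1) * en p v x (r / D) :=
        mul_le_mul_of_nonneg_right h4 (gro_nonneg _ _ _)
    _ = (2 ^ m) ^ (n - 1) * (ρ / r) ^ (n - 1) * (D ^ (n - 1) * en p v x (r / D)) := by
        rw [mul_pow, mul_pow]
        ring
    _ ≤ (2 ^ m) ^ (n - 1) * (ρ / r) ^ (n - 1) * en p v x r :=
        mul_le_mul_of_nonneg_left h2 (by positivity)

end Pool.Agent.SCN
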