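import Pool.Agent.SCN.Targets

set_option autoImplicit false

open Set MeasureTheory Filter Topology Metric
open scoped RealInnerProductSpace

namespace Pool.Agent.SCN

open Pool.Agent.SCP (E PHarm V)

theorem itg_mem {a t : ℝ} (ha : 0 < a) (ht : t ∈ Ioo (-a) a) : t / 4 ∈ Ioo (-a) a :=
  ⟨by linarith [ht.1], by linarith [ht.2]⟩

theorem itg_base {a : ℝ} (ha : 0 < a) {c : ℝ → ℝ} (hc : ContDiffOn ℝ (⊤ : ℕ∞) c (Ioo (-a) a))
    (h : ∀ t ∈ Ioo (-a) a, c t = 1 / 2 * c (t / 4)) : ∀ t ∈ Ioo (-a) a, c t = 0 := by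
  intro t ht
  have h1 : ∀ j : ℕ, t / 4 ^ j ∈ Ioo (-a) a ∧ c t = (1 / 2) ^ j * c (t / 4 ^ j) := by
    intro j
    induction j with
    | zero => exact ⟨by simpa using ht, by simp⟩
    | succ j ih =>
      obtain ⟨ih1, ih2⟩ := ih
      have h2 : t / 4 ^ (j + 1) = t / 4 ^ j / 4 := by rw [pow_succ, div_div]
      refine ⟨?_, ?_⟩
      · rw [h2]
        exact itg_mem ha ih1
      · rw [ih2, h _ ih1, h2, pow_succ]
        ring
  have h0 : (0 : ℝ) ∈ Ioo (-a) a := ⟨by linarith, ha⟩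
  have h3 : Tendsto (fun j : ℕ => t / 4 ^ j) atTop (𝓝 0) := by
    have h5 : Tendsto (fun j : ℕ => t * (1 / 4 : ℝ) ^ j) atTop (𝓝 (t * 0)) :=
      (tendsto_pow_atTop_nhds_zero_of_lt_one (by norm_num) (by norm_num)).const_mul t
    rw [mul_zero] at h5
    refine h5.congr fun j => ?_
    rw [one_div, inv_pow, div_eq_mul_inv]
  have h4 : ContinuousAt c 0 := (hc.continuousOn).continuousAt (isOpen_Ioo.mem_nhds h0)
  have h5 : Tendsto (fun j : ℕ => (1 / 2 : ℝ) ^ j * c (t / 4 ^ j)) atTop (𝓝 (0 * c 0)) :=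
    (tendsto_pow_atTop_nhds_zero_of_lt_one (by norm_num) (by norm_num)).mul
      (h4.tendsto.comp h3)
  have h6 : Tendsto (fun _ : ℕ => c t) atTop (𝓝 (0 * c 0)) :=
    h5.congr fun j => (h1 j).2.symm
  rw [zero_mul] at h6
  exact tendsto_nhds_unique tendsto_const_nhds h6

theorem itg_one {a : ℝ} (ha : 0 < a) (m : ℕ) : ∀ c : ℝ → ℝ,
    ContDiffOn ℝ (⊤ : ℕ∞) c (Ioo (-a) a) →
    (∀ t ∈ Ioo (-a) a, c t = 4 ^ m / 2 * c (t / 4)) → ∀ t ∈ Ioo (-a) a, c t = 0 := by
  induction m with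
  | zero =>
    intro c hc h
    exact itg_base ha hc (by simpa using h)
  | succ m ih =>
    intro c hc h
    have h0 : (0 : ℝ) ∈ Ioo (-a) a := ⟨by linarith, ha⟩
    have hd : ∀ t ∈ Ioo (-a) a, DifferentiableAt ℝ c t := fun t ht =>
      ((hc.differentiableOn (by simp)) t ht).differentiableAt (isOpen_Ioo.mem_nhds ht)
    have hc' : ContDiffOn ℝ (⊤ : ℕ∞) (deriv c) (Ioo (-a) a) :=
      hc.deriv_of_isOpen isOpen_Ioo (by simp)
    have h' : ∀ t ∈ Ioo (-a) a, deriv c t = 4 ^ m / 2 * deriv c (t / 4) := by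
      intro t ht
      have e1 : c =ᶠ[𝓝 t] fun s => 4 ^ (m + 1) / 2 * c (s / 4) := by
        filter_upwards [isOpen_Ioo.mem_nhds ht] with s hs
        exact h s hs
      have e2 : HasDerivAt (fun s : ℝ => s / 4) (1 / 4) t := (hasDerivAt_id t).div_const 4
      have e3 : HasDerivAt c (deriv c (t / 4)) (t / 4) := (hd _ (itg_mem ha ht)).hasDerivAt
      have e4 : HasDerivAt (fun s => 4 ^ (m + 1) / 2 * c (s / 4))
          (4 ^ (m + 1) / 2 * (deriv c (t / 4) * (1 / 4))) t :=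
        (e3.comp t e2).const_mul _
      rw [e1.deriv_eq, e4.deriv]
      ring
    have h2 := ih (deriv c) hc' h'
    have h3 : ∀ t ∈ Ioo (-a) a, c t = c 0 := fun t ht =>
      isOpen_Ioo.is_const_of_deriv_eq_zero isPreconnected_Ioo
        (hc.differentiableOn (by simp)) (fun s hs => h2 s hs) ht h0
    have h4 : c 0 = 0 := by
      have h5 := h 0 h0
      rw [zero_div] at h5
      have h6 : (2 : ℝ) ≤ 4 ^ (m + 1) / 2 := by
        have h7 : (1 : ℝ) ≤ 4 ^ m := one_le_pow₀ (by norm_num)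
        rw [pow_succ]
        linarith
      have h8 : (4 ^ (m + 1) / 2 - 1) * c 0 = 0 := by linarith
      rcases mul_eq_zero.mp h8 with h9 | h9
      · linarith
      · exact h9
    intro t ht
    rw [h3 t ht, h4]

/-- The components of the gradient. -/
noncomputable def itg_g {n : ℕ} (h : E n → ℝ) (i : Fin n) (x : E n) : ℝ :=
  fderiv ℝ h x (EuclideanSpace.single i (1 : ℝ))

theorem itg_norm {n : ℕ} (h : E n → ℝ) (x : E n) :
    ‖gradient h x‖ ^ 2 = ∑ i, itg_g h i x ^ 2 := by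
  rw [EuclideanSpace.real_norm_sq_eq]
  refine Finset.sum_congr rfl fun i _ => ?_
  have h1 : itg_g h i x = ⟪gradient h x, EuclideanSpace.single i (1 : ℝ)⟫ := by
    unfold itg_g gradient
    rw [InnerProductSpace.toDual_symm_apply]
  have h2 : ⟪gradient h x, EuclideanSpace.single i (1 : ℝ)⟫ = (gradient h x) i := by
    rw [real_inner_comm, EuclideanSpace.inner_single_left]
    simp
  rw [h1, h2]

theorem itg_sub {n : ℕ} {R : ℝ} (hR : 0 < R) (F : E n → ℝ) :
    ∫ y in ball (0 : E n) 1, F (R • y) = (R ^ n)⁻¹ * ∫ y in ball (0 : E n) R, F y := by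
  have h1 := Measure.setIntegral_comp_smul_of_pos (μ := (volume : Measure (E n))) F
    (ball (0 : E n) 1) hR
  rw [smul_unitBall_of_pos hR, finrank_euclideanSpace_fin, smul_eq_mul] at h1
  exact h1

theorem itg_int {n : ℕ} {f : E n → ℝ} {R : ℝ} (hR : R ≤ 2)
    (hf : ContinuousOn f (ball (0 : E n) 3)) : IntegrableOn f (ball (0 : E n) R) := by
  have h1 : ContinuousOn f (closedBall (0 : E n) 2) :=
    hf.mono (closedBall_subset_ball (by norm_num))
  exact (h1.integrableOn_compact (isCompact_closedBall _ _)).mono_set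
    ((ball_subset_ball hR).trans ball_subset_closedBall)

theorem itg_smul_mem {n : ℕ} {y : E n} (hy : y ∈ ball (0 : E n) 1) {R : ℝ} (h0 : 0 < R)
    (hR : R ≤ 3) : R • y ∈ ball (0 : E n) 3 := by
  rw [mem_ball_zero_iff] at hy ⊢
  rw [norm_smul, Real.norm_of_nonneg h0.le]
  nlinarith [norm_nonneg y]

theorem itg_pt {n : ℕ} {g : E n → ℝ} {K : ℝ} (hg : ContinuousOn g (ball (0 : E n) 3))
    (h : ∫ y in ball (0 : E n) 1, (g ((2 : ℝ) • y) - K * g ((1 / 2 : ℝ) • y)) ^ 2 = 0) :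
    ∀ y ∈ ball (0 : E n) 1, g ((2 : ℝ) • y) = K * g ((1 / 2 : ℝ) • y) := by
  have c1 : ContinuousOn (fun y : E n => g ((2 : ℝ) • y)) (closedBall (0 : E n) 1) := by
    refine hg.comp (continuous_const_smul (2 : ℝ)).continuousOn fun y hy => ?_
    rw [mem_closedBall_zero_iff] at hy
    rw [mem_ball_zero_iff, norm_smul, Real.norm_of_nonneg (by norm_num)]
    linarith
  have c2 : ContinuousOn (fun y : E n => g ((1 / 2 : ℝ) • y)) (closedBall (0 : E n) 1) := by
    refine hg.comp (continuous_const_smul (1 / 2 : ℝ)).continuousOn fun y hy => ?_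
    rw [mem_closedBall_zero_iff] at hy
    rw [mem_ball_zero_iff, norm_smul, Real.norm_of_nonneg (by norm_num)]
    linarith
  have c3 : ContinuousOn (fun y : E n => (g ((2 : ℝ) • y) - K * g ((1 / 2 : ℝ) • y)) ^ 2)
      (closedBall (0 : E n) 1) := (c1.sub (continuousOn_const.mul c2)).pow 2
  have i3 : IntegrableOn (fun y : E n => (g ((2 : ℝ) • y) - K * g ((1 / 2 : ℝ) • y)) ^ 2)
      (ball (0 : E n) 1) :=
    (c3.integrableOn_compact (isCompact_closedBall _ _)).mono_set ball_subset_closedBall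
  have h1 := (setIntegral_eq_zero_iff_of_nonneg_ae
    (Eventually.of_forall fun y => sq_nonneg _) i3).mp h
  have h2 := Measure.eqOn_open_of_ae_eq h1 isOpen_ball (c3.mono ball_subset_closedBall)
    continuousOn_const
  intro y hy
  have h3 : (g ((2 : ℝ) • y) - K * g ((1 / 2 : ℝ) • y)) ^ 2 = 0 := h2 hy
  have h4 := pow_eq_zero_iff (two_ne_zero) |>.mp h3
  linarith

theorem itg_sq {n : ℕ} {g : E n → ℝ} (K : ℝ) (hg : ContinuousOn g (ball (0 : E n) 3))
    (h : ∫ y in ball (0 : E n) 1, g ((2 : ℝ) • y) * g ((1 / 2 : ℝ) • y) =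
      ∫ y in ball (0 : E n) 1, g y ^ 2) :
    ∫ y in ball (0 : E n) 1, (g ((2 : ℝ) • y) - K * g ((1 / 2 : ℝ) • y)) ^ 2 =
      ((2 : ℝ) ^ n)⁻¹ * (∫ y in ball (0 : E n) 2, g y ^ 2)
        - 2 * K * (∫ y in ball (0 : E n) 1, g y ^ 2)
        + K ^ 2 * 2 ^ n * ∫ y in ball (0 : E n) (1 / 2), g y ^ 2 := by
  have c1 : ContinuousOn (fun y : E n => g ((2 : ℝ) • y)) (closedBall (0 : E n) 1) := by
    refine hg.comp (continuous_const_smul (2 : ℝ)).continuousOn fun y hy => ?_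
    rw [mem_closedBall_zero_iff] at hy
    rw [mem_ball_zero_iff, norm_smul, Real.norm_of_nonneg (by norm_num)]
    linarith
  have c2 : ContinuousOn (fun y : E n => g ((1 / 2 : ℝ) • y)) (closedBall (0 : E n) 1) := by
    refine hg.comp (continuous_const_smul (1 / 2 : ℝ)).continuousOn fun y hy => ?_
    rw [mem_closedBall_zero_iff] at hy
    rw [mem_ball_zero_iff, norm_smul, Real.norm_of_nonneg (by norm_num)]
    linarith
  have toi : ∀ F : E n → ℝ, ContinuousOn F (closedBall (0 : E n) 1) →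
      IntegrableOn F (ball (0 : E n) 1) := fun F hF =>
    (hF.integrableOn_compact (isCompact_closedBall _ _)).mono_set ball_subset_closedBall
  have i1 : IntegrableOn (fun y : E n => (g ((2 : ℝ) • y)) ^ 2) (ball (0 : E n) 1) :=
    toi _ (c1.pow 2)
  have i2 : IntegrableOn (fun y : E n => 2 * K * (g ((2 : ℝ) • y) * g ((1 / 2 : ℝ) • y)))
      (ball (0 : E n) 1) := toi _ (continuousOn_const.mul (c1.mul c2))
  have i3 : IntegrableOn (fun y : E n => K ^ 2 * (g ((1 / 2 : ℝ) • y)) ^ 2)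
      (ball (0 : E n) 1) := toi _ (continuousOn_const.mul (c2.pow 2))
  have i12 : IntegrableOn (fun y : E n => (g ((2 : ℝ) • y)) ^ 2
      - 2 * K * (g ((2 : ℝ) • y) * g ((1 / 2 : ℝ) • y))) (ball (0 : E n) 1) := i1.sub i2
  have e1 : ∫ y in ball (0 : E n) 1, (g ((2 : ℝ) • y)) ^ 2
      = ((2 : ℝ) ^ n)⁻¹ * ∫ y in ball (0 : E n) 2, g y ^ 2 :=
    itg_sub (by norm_num) fun y => g y ^ 2
  have e2 : ∫ y in ball (0 : E n) 1, (g ((1 / 2 : ℝ) • y)) ^ 2
      = 2 ^ n * ∫ y in ball (0 : E n) (1 / 2), g y ^ 2 := by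
    have h1 := itg_sub (n := n) (R := 1 / 2) (by norm_num) fun y => g y ^ 2
    rw [h1]
    congr 1
    rw [one_div, inv_pow, inv_inv]
  have e3 : ∫ y in ball (0 : E n) 1, (g ((2 : ℝ) • y) - K * g ((1 / 2 : ℝ) • y)) ^ 2
      = ∫ y in ball (0 : E n) 1, ((g ((2 : ℝ) • y)) ^ 2
        - 2 * K * (g ((2 : ℝ) • y) * g ((1 / 2 : ℝ) • y))
        + K ^ 2 * (g ((1 / 2 : ℝ) • y)) ^ 2) := by
    congr 1
    funext y
    ring
  rw [e3, integral_add i12 i3, integral_sub i1 i2, integral_const_mul, integral_const_mul, h,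
    e1, e2]
  ring

theorem itg_van {n k : ℕ} {g : E n → ℝ} (hg : ContDiffOn ℝ (⊤ : ℕ∞) g (ball (0 : E n) 3))
    (h : ∀ y ∈ ball (0 : E n) 1, g ((2 : ℝ) • y) = 2 ^ (2 * k + 1) * g ((1 / 2 : ℝ) • y)) :
    ∀ z ∈ ball (0 : E n) 1, g z = 0 := by
  intro z hz
  rw [mem_ball_zero_iff] at hz
  have hm : ∀ t ∈ Ioo (-2 : ℝ) 2, ‖t • z‖ < 2 := by
    intro t ht
    rw [norm_smul, Real.norm_eq_abs]
    have h1 : |t| < 2 := abs_lt.mpr ht
    nlinarith [norm_nonneg z, abs_nonneg t]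
  have h1 := itg_one (a := 2) (by norm_num) (k + 1) (fun t => g (t • z))
    (by
      refine hg.comp ((contDiff_id.smul contDiff_const).contDiffOn) fun t ht => ?_
      rw [mem_ball_zero_iff]
      have h3 := hm t ht
      change ‖t • z‖ < 3
      linarith)
    (by
      intro t ht
      have h2 : (1 / 2 * t) • z ∈ ball (0 : E n) 1 := by
        have h3 := hm t ht
        rw [mem_ball_zero_iff, mul_smul, norm_smul, Real.norm_of_nonneg (by norm_num)]
        linarith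
      have h3 := h _ h2
      rw [smul_smul, smul_smul] at h3
      have h4 : (2 : ℝ) * (1 / 2 * t) = t := by ring
      have h5 : (1 / 2 : ℝ) * (1 / 2 * t) = t / 4 := by ring
      rw [h4, h5] at h3
      change g (t • z) = 4 ^ (k + 1) / 2 * g ((t / 4) • z)
      rw [h3]
      congr 1
      rw [pow_succ, pow_mul, pow_succ]
      norm_num
      ring)
  have h2 := h1 1 (by norm_num)
  simpa using h2

theorem p_ITG (hD : T_DER) (hK : T_KPR) : T_ITG := by
  intro n k h hh h2 h12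
  have hg : ∀ i, Hrm (ball (0 : E n) 3) (itg_g h i) := fun i =>
    hD n (ball 0 3) h (EuclideanSpace.single i (1 : ℝ)) isOpen_ball hh
  have hc : ∀ i, ContinuousOn (itg_g h i) (ball (0 : E n) 3) := fun i => (hg i).1.continuousOn
  have hk : ∀ i, ∫ y in ball (0 : E n) 1, itg_g h i ((2 : ℝ) • y) * itg_g h i ((1 / 2 : ℝ) • y) =
      ∫ y in ball (0 : E n) 1, itg_g h i y ^ 2 := by
    intro i
    have h1 := hK n (ball 0 3) (itg_g h i) 0 1 isOpen_ball (hg i) one_pos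
      (closedBall_subset_ball (by norm_num))
    simpa only [zero_add] using h1
  have hs : ∀ R : ℝ, R ≤ 2 → ∫ x in ball (0 : E n) R, ‖gradient h x‖ ^ 2 =
      ∑ i, ∫ x in ball (0 : E n) R, itg_g h i x ^ 2 := by
    intro R hR
    rw [← integral_finsetSum]
    · congr 1
      funext x
      exact itg_norm h x
    · intro i _
      exact itg_int hR ((hc i).pow 2)
  set K : ℝ := 2 ^ (2 * k + 1) with hKdef
  have hKpos : 0 < K := by positivity
  have hsum : ∑ i, ∫ y in ball (0 : E n) 1,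
      (itg_g h i ((2 : ℝ) • y) - K * itg_g h i ((1 / 2 : ℝ) • y)) ^ 2 ≤ 0 := by
    have e1 : ∑ i, ∫ y in ball (0 : E n) 1,
        (itg_g h i ((2 : ℝ) • y) - K * itg_g h i ((1 / 2 : ℝ) • y)) ^ 2 =
        ((2 : ℝ) ^ n)⁻¹ * (∫ x in ball (0 : E n) 2, ‖gradient h x‖ ^ 2)
        - 2 * K * (∫ x in ball (0 : E n) 1, ‖gradient h x‖ ^ 2)
        + K ^ 2 * 2 ^ n * ∫ x in ball (0 : E n) (1 / 2), ‖gradient h x‖ ^ 2 := by
      rw [hs 2 le_rfl, hs 1 (by norm_num), hs (1 / 2) (by norm_num), Finset.mul_sum,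
        Finset.mul_sum, Finset.mul_sum, ← Finset.sum_sub_distrib, ← Finset.sum_add_distrib]
      exact Finset.sum_congr rfl fun i _ => itg_sq K (hc i) (hk i)
    have p1 : (2 : ℝ) ^ (n + 2 * k + 1) = 2 ^ n * K := by
      rw [hKdef, ← pow_add, add_assoc]
    rw [p1] at h2 h12
    have hn : (0 : ℝ) < 2 ^ n := by positivity
    have q1 : ((2 : ℝ) ^ n)⁻¹ * (∫ x in ball (0 : E n) 2, ‖gradient h x‖ ^ 2)
        ≤ K * ∫ x in ball (0 : E n) 1, ‖gradient h x‖ ^ 2 := by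
      rw [inv_mul_le_iff₀ hn, ← mul_assoc]
      exact h2
    have q2 : K ^ 2 * 2 ^ n * (∫ x in ball (0 : E n) (1 / 2), ‖gradient h x‖ ^ 2)
        ≤ K * ∫ x in ball (0 : E n) 1, ‖gradient h x‖ ^ 2 := by
      have h3 := mul_le_mul_of_nonneg_left h12 hKpos.le
      calc _ = K * (2 ^ n * K * ∫ x in ball (0 : E n) (1 / 2), ‖gradient h x‖ ^ 2) := by ring
        _ ≤ _ := h3
    rw [e1]
    linarith
  have hz : ∀ i, ∫ y in ball (0 : E n) 1,
      (itg_g h i ((2 : ℝ) • y) - K * itg_g h i ((1 / 2 : ℝ) • y)) ^ 2 = 0 := by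
    have hnn : ∀ i ∈ Finset.univ, 0 ≤ ∫ y in ball (0 : E n) 1,
        (itg_g h i ((2 : ℝ) • y) - K * itg_g h i ((1 / 2 : ℝ) • y)) ^ 2 := fun i _ =>
      integral_nonneg fun y => sq_nonneg _
    have h3 := (Finset.sum_eq_zero_iff_of_nonneg hnn).mp
      (le_antisymm hsum (Finset.sum_nonneg hnn))
    exact fun i => h3 i (Finset.mem_univ i)
  have hv : ∀ x ∈ ball (0 : E n) 1, ‖gradient h x‖ ^ 2 = 0 := by
    intro x hx
    rw [itg_norm]
    refine Finset.sum_eq_zero fun i _ => ?_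
    rw [itg_van (hg i).1 (itg_pt (hc i) (hz i)) x hx]
    norm_num
  rw [setIntegral_congr_fun measurableSet_ball hv]
  simp

end Pool.Agent.SCN
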