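import Pool.Agent.SCN.Targets2

set_option autoImplicit false

/-! # Target KB: strong comparison near `p = 2` on compact sets, one ball of reference -/

open Set MeasureTheory Filter Topology Metric
open scoped RealInnerProductSpace

namespace Pool.Agent.SCN

open Pool.Agent.SCP (E PHarm V)

variable {n : ℕ}

theorem kb_ev (P : ℝ → Prop) :
    (∃ e : ℝ, 0 < e ∧ ∀ p : ℝ, |p - 2| < e → P p) ↔ ∀ᶠ p in 𝓝 (2 : ℝ), P p := by
  rw [Metric.eventually_nhds_iff]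
  constructor
  · rintro ⟨e, he, h⟩
    exact ⟨e, he, fun p hp => h p (by rwa [Real.dist_eq] at hp)⟩
  · rintro ⟨e, he, h⟩
    exact ⟨e, he, fun p hp => h (by rwa [Real.dist_eq])⟩

/-- The set where the two functions are equal is open. -/
theorem kb_open (hC : T_CHN) (hD : T_DBL) (hL : T_LOC) (Ω : Set (E n)) (x₀ : E n) (ρ L : ℝ)
    (K : Set (E n)) (hn : 1 ≤ n) (hΩ : IsOpen Ω) (hc : IsPreconnected Ω) (hρ : 0 < ρ)
    (hb : closedBall x₀ (4 * ρ) ⊆ Ω) (hK : IsCompact K) (hKΩ : K ⊆ Ω) :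
    ∀ᶠ p in 𝓝 (2 : ℝ), ∀ u v : E n → ℝ, Adm p Ω x₀ ρ L u → PHarm p Ω v →
      ((∀ x ∈ Ω, u x ≤ v x) ∨ ∀ x ∈ Ω, v x ≤ u x) → ∀ x ∈ K, u x = v x →
      ∃ r : ℝ, 0 < r ∧ ∀ y ∈ ball x r, u y = v y := by
  obtain ⟨N, h1⟩ := hC n Ω x₀ ρ L K hn hΩ hc hρ hb hK hKΩ
  obtain ⟨m, h2⟩ := hD n N hn
  have h3 := hL n m hn
  rw [kb_ev] at h1 h2 h3
  filter_upwards [h1, h2, h3] with p k1 k2 k3 u v hu hv ho x hx hxe
  obtain ⟨R, hR⟩ := k2 Ω u x hΩ hu.1 (k1 u hu x hx)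
  rcases ho with ho | ho
  · exact k3 Ω u v x R hΩ hu.1 hv ho (hKΩ hx) hxe (Or.inl hR)
  · obtain ⟨r, hr, h⟩ := k3 Ω v u x R hΩ hv hu.1 ho (hKΩ hx) hxe.symm (Or.inr hR)
    exact ⟨r, hr, fun y hy => (h y hy).symm⟩

/-- In a ball with closure in `Ω` the functions are equal everywhere or nowhere. -/
theorem kb_ball (hC : T_CHN) (hD : T_DBL) (hL : T_LOC) (Ω : Set (E n)) (x₀ : E n) (ρ L : ℝ)
    (hn : 1 ≤ n) (hΩ : IsOpen Ω) (hc : IsPreconnected Ω) (hρ : 0 < ρ)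
    (hb : closedBall x₀ (4 * ρ) ⊆ Ω) (z : E n) (s : ℝ) (hz : closedBall z s ⊆ Ω) :
    ∀ᶠ p in 𝓝 (2 : ℝ), ∀ u v : E n → ℝ, Adm p Ω x₀ ρ L u → PHarm p Ω v →
      ((∀ x ∈ Ω, u x ≤ v x) ∨ ∀ x ∈ Ω, v x ≤ u x) → ∀ x ∈ ball z s, u x = v x →
      ∀ y ∈ ball z s, u y = v y := by
  have h := kb_open hC hD hL Ω x₀ ρ L (closedBall z s) hn hΩ hc hρ hb
    (isCompact_closedBall z s) hz
  filter_upwards [h] with p hp u v hu hv ho x hx hxe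
  have h1 := hp u v hu hv ho
  have hbz : ball z s ⊆ Ω := ball_subset_closedBall.trans hz
  have hw : ContinuousOn (fun y => u y - v y) (ball z s) :=
    (hu.1.1.continuousOn.sub hv.1.continuousOn).mono hbz
  have hV := hw.isOpen_inter_preimage isOpen_ball (t := {(0 : ℝ)}ᶜ) isOpen_compl_singleton
  have hU : IsOpen {y | y ∈ ball z s ∧ u y = v y} := by
    rw [Metric.isOpen_iff]
    rintro y ⟨hy, hye⟩
    obtain ⟨r, hr, h2⟩ := h1 y (ball_subset_closedBall hy) hye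
    obtain ⟨r', hr', h3⟩ := Metric.isOpen_iff.1 isOpen_ball y hy
    refine ⟨min r r', lt_min hr hr', fun t ht => ⟨h3 ?_, h2 t ?_⟩⟩
    · exact ball_subset_ball (min_le_right _ _) ht
    · exact ball_subset_ball (min_le_left _ _) ht
  have h4 : ball z s ⊆ {y | y ∈ ball z s ∧ u y = v y} := by
    refine IsPreconnected.subset_left_of_subset_union hU hV ?_ ?_ ?_
      (convex_ball z s).isPreconnected
    · rw [Set.disjoint_left]
      rintro y ⟨_, hy⟩ ⟨_, hy'⟩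
      exact hy' (sub_eq_zero.2 hy)
    · intro y hy
      rcases eq_or_ne (u y) (v y) with he | he
      · exact Or.inl ⟨hy, he⟩
      · exact Or.inr ⟨hy, fun h0 => he (sub_eq_zero.1 h0)⟩
    · exact ⟨x, hx, hx, hxe⟩
  intro y hy
  exact (h4 hy).2

/-- Every point of `Ω` is the centre of a closed ball in `Ω`. -/
theorem kb_ex {Ω : Set (E n)} (hΩ : IsOpen Ω) {x : E n} (hx : x ∈ Ω) :
    ∃ s : ℝ, 0 < s ∧ closedBall x s ⊆ Ω :=
  Metric.nhds_basis_closedBall.mem_iff.1 (hΩ.mem_nhds hx)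

/-- Equality at a point implies equality at any other point. -/
theorem kb_two (hC : T_CHN) (hD : T_DBL) (hL : T_LOC) (Ω : Set (E n)) (x₀ : E n) (ρ L : ℝ)
    (hn : 1 ≤ n) (hΩ : IsOpen Ω) (hc : IsPreconnected Ω) (hρ : 0 < ρ)
    (hb : closedBall x₀ (4 * ρ) ⊆ Ω) {y y' : E n} (hy : y ∈ Ω) (hy' : y' ∈ Ω) :
    ∀ᶠ p in 𝓝 (2 : ℝ), ∀ u v : E n → ℝ, Adm p Ω x₀ ρ L u → PHarm p Ω v →
      ((∀ x ∈ Ω, u x ≤ v x) ∨ ∀ x ∈ Ω, v x ≤ u x) → u y = v y → u y' = v y' := by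
  refine hc.induction₂' (fun y y' : E n => ∀ᶠ p in 𝓝 (2 : ℝ), ∀ u v : E n → ℝ,
    Adm p Ω x₀ ρ L u → PHarm p Ω v →
      ((∀ x ∈ Ω, u x ≤ v x) ∨ ∀ x ∈ Ω, v x ≤ u x) → u y = v y → u y' = v y') ?_ ?_ hy hy'
  · intro x hx
    obtain ⟨s, hs, hsΩ⟩ := kb_ex hΩ hx
    have h := kb_ball hC hD hL Ω x₀ ρ L hn hΩ hc hρ hb x s hsΩ
    filter_upwards [nhdsWithin_le_nhds (ball_mem_nhds x hs)] with z hz
    have hxx : x ∈ ball x s := mem_ball_self hs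
    constructor
    · filter_upwards [h] with p hp u v hu hv ho he
      exact hp u v hu hv ho x hxx he z hz
    · filter_upwards [h] with p hp u v hu hv ho he
      exact hp u v hu hv ho z hz he x hxx
  · intro a b c _ _ _ h1 h2
    filter_upwards [h1, h2] with p k1 k2 u v hu hv ho he
    exact k2 u v hu hv ho (k1 u v hu hv ho he)

theorem p_KB (hC : T_CHN) (hD : T_DBL) (hL : T_LOC) : T_KB := by
  intro n Ω x₀ ρ L K hn hΩ hc hρ hb hK hKΩ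
  rw [kb_ev (fun p => ∀ u v : E n → ℝ, Adm p Ω x₀ ρ L u → PHarm p Ω v →
    ((∀ x ∈ Ω, u x ≤ v x) ∨ ∀ x ∈ Ω, v x ≤ u x) → (∃ x ∈ K, u x = v x) → ∀ x ∈ K, u x = v x)]
  have h0 : ∀ x : E n, ∃ s : ℝ, 0 < s ∧ (x ∈ K → closedBall x s ⊆ Ω) := by
    intro x
    by_cases hx : x ∈ K
    · obtain ⟨s, hs, h⟩ := kb_ex hΩ (hKΩ hx)
      exact ⟨s, hs, fun _ => h⟩
    · exact ⟨1, one_pos, fun h => absurd h hx⟩
  choose s hs hsΩ using h0
  obtain ⟨t, htK, htc⟩ := hK.elim_nhds_subcover (fun x => ball x (s x))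
    (fun x _ => ball_mem_nhds x (hs x))
  have hA : ∀ᶠ p in 𝓝 (2 : ℝ), ∀ z ∈ t, ∀ u v : E n → ℝ, Adm p Ω x₀ ρ L u → PHarm p Ω v →
      ((∀ x ∈ Ω, u x ≤ v x) ∨ ∀ x ∈ Ω, v x ≤ u x) → ∀ x ∈ ball z (s z), u x = v x →
      ∀ y ∈ ball z (s z), u y = v y := by
    rw [Filter.eventually_all_finset]
    intro z hz
    exact kb_ball hC hD hL Ω x₀ ρ L hn hΩ hc hρ hb z (s z) (hsΩ z (htK z hz))
  have hB : ∀ᶠ p in 𝓝 (2 : ℝ), ∀ z ∈ t, ∀ z' ∈ t, ∀ u v : E n → ℝ, Adm p Ω x₀ ρ L u →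
      PHarm p Ω v → ((∀ x ∈ Ω, u x ≤ v x) ∨ ∀ x ∈ Ω, v x ≤ u x) → u z = v z →
      u z' = v z' := by
    rw [Filter.eventually_all_finset]
    intro z hz
    rw [Filter.eventually_all_finset]
    intro z' hz'
    exact kb_two hC hD hL Ω x₀ ρ L hn hΩ hc hρ hb (hKΩ (htK z hz)) (hKΩ (htK z' hz'))
  filter_upwards [hA, hB] with p hA hB u v hu hv ho he x hx
  obtain ⟨y, hy, hye⟩ := he
  obtain ⟨z, hz, hyz⟩ := Set.mem_iUnion₂.1 (htc hy)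
  obtain ⟨z', hz', hxz⟩ := Set.mem_iUnion₂.1 (htc hx)
  have e1 := hA z hz u v hu hv ho y hyz hye z (mem_ball_self (hs z))
  have e2 := hB z hz z' hz' u v hu hv ho e1
  exact hA z' hz' u v hu hv ho z' (mem_ball_self (hs z')) e2 x hxz

end Pool.Agent.SCN
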