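import Pool.Agent.SCN.Targets

/-! # The kernel -/

set_option autoImplicit false

open Set MeasureTheory Filter Topology Metric
open scoped RealInnerProductSpace

namespace Pool.Agent.SCN

open Pool.Agent.SCP (E PHarm V)

/-- The profile. -/
noncomputable def ker_c (t : ℝ) : ℝ := Real.smoothTransition (1 - t)

/-- Half of its primitive. -/
noncomputable def ker_X (t : ℝ) : ℝ := (1 / 2) * ∫ s in (1 : ℝ)..t, ker_c s

theorem ker_c_smooth : ContDiff ℝ (⊤ : ℕ∞) ker_c :=
  Real.smoothTransition.contDiff.comp (contDiff_const.sub contDiff_id)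

theorem ker_c_zero {t : ℝ} (ht : 1 ≤ t) : ker_c t = 0 :=
  Real.smoothTransition.zero_of_nonpos (by linarith)

theorem ker_c_pos {t : ℝ} (ht : t < 1) : 0 < ker_c t :=
  Real.smoothTransition.pos_of_pos (by linarith)

theorem ker_c_nonneg (t : ℝ) : 0 ≤ ker_c t := Real.smoothTransition.nonneg _

theorem ker_X_deriv (t : ℝ) : HasDerivAt ker_X ((1 / 2) * ker_c t) t :=
  ((ker_c_smooth.continuous.integral_hasStrictDerivAt 1 t).hasDerivAt).const_mul (1 / 2)

theorem ker_X_smooth : ContDiff ℝ (⊤ : ℕ∞) ker_X := by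
  rw [contDiff_infty_iff_deriv]
  refine ⟨fun t => (ker_X_deriv t).differentiableAt, ?_⟩
  have h : deriv ker_X = fun t => (1 / 2) * ker_c t := funext fun t => (ker_X_deriv t).deriv
  rw [h]
  exact contDiff_const.mul ker_c_smooth

theorem ker_X_zero {t : ℝ} (ht : 1 ≤ t) : ker_X t = 0 := by
  unfold ker_X
  have h : ∫ s in (1 : ℝ)..t, ker_c s = ∫ s in (1 : ℝ)..t, (0 : ℝ) := by
    refine intervalIntegral.integral_congr fun s hs => ?_
    rw [uIcc_of_le ht] at hs
    exact ker_c_zero hs.1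
  rw [h]
  simp

theorem ker_X_neg {t : ℝ} (ht : t < 1) : ker_X t < 0 := by
  unfold ker_X
  have h : 0 < ∫ s in t..(1 : ℝ), ker_c s :=
    intervalIntegral.intervalIntegral_pos_of_pos_on
      (ker_c_smooth.continuous.intervalIntegrable _ _) (fun s hs => ker_c_pos hs.2) ht
  rw [intervalIntegral.integral_symm]
  linarith

theorem ker_grad {n : ℕ} (y : E n) :
    HasGradientAt (fun y : E n => ker_X (‖y‖ ^ 2)) (ker_c (‖y‖ ^ 2) • y) y := by
  have h1 := (ker_X_deriv (‖y‖ ^ 2)).comp_hasFDerivAt y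
    (hasStrictFDerivAt_norm_sq y).hasFDerivAt
  rw [hasGradientAt_iff_hasFDerivAt]
  refine h1.congr_fderiv ?_
  ext z
  simp only [smul_apply, InnerProductSpace.toDual_apply_apply, inner_smul_left,
    innerSL_apply_apply, smul_eq_mul, nsmul_eq_mul, conj_trivial]
  norm_num
  ring

theorem ker_int {n : ℕ} : 0 < ∫ y : E n, ker_c (‖y‖ ^ 2) := by
  have hc : Continuous fun y : E n => ker_c (‖y‖ ^ 2) :=
    ker_c_smooth.continuous.comp (continuous_norm.pow 2)
  refine hc.integral_pos_of_hasCompactSupport_nonneg_nonzero (x := 0) ?_ ?_ ?_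
  · refine HasCompactSupport.intro (isCompact_closedBall (0 : E n) 1) fun y hy => ?_
    refine ker_c_zero ?_
    rw [mem_closedBall, dist_zero_right, not_le] at hy
    nlinarith
  · exact fun y => ker_c_nonneg _
  · have : 0 < ker_c (‖(0 : E n)‖ ^ 2) := ker_c_pos (by simp)
    exact this.ne'

theorem p_KER : T_KER := by
  intro n _
  set I : ℝ := ∫ y : E n, ker_c (‖y‖ ^ 2) with hI
  have hI0 : 0 < I := ker_int
  refine ⟨fun y => I⁻¹ * ker_c (‖y‖ ^ 2), fun y => I⁻¹ * ker_X (‖y‖ ^ 2), ?_⟩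
  constructor
  · exact contDiff_const.mul (ker_c_smooth.comp (contDiff_norm_sq ℝ))
  · exact contDiff_const.mul (ker_X_smooth.comp (contDiff_norm_sq ℝ))
  · intro y hy
    rw [ker_c_zero (by nlinarith), mul_zero]
  · intro y hy
    rw [ker_X_zero (by nlinarith), mul_zero]
  · intro y hy
    have h : ‖y‖ ^ 2 < 1 := by
      have := norm_nonneg y
      nlinarith
    exact mul_pos (inv_pos.2 hI0) (ker_c_pos h)
  · intro y hy
    have h : ‖y‖ ^ 2 < 1 := by
      have := norm_nonneg y
      nlinarith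
    exact mul_neg_of_pos_of_neg (inv_pos.2 hI0) (ker_X_neg h)
  · rw [integral_const_mul, ← hI]
    exact inv_mul_cancel₀ hI0.ne'
  · intro y
    have h := ker_grad y
    rw [hasGradientAt_iff_hasFDerivAt] at h
    have h2 : HasGradientAt (fun y : E n => I⁻¹ * ker_X (‖y‖ ^ 2))
        ((I⁻¹ * ker_c (‖y‖ ^ 2)) • y) y := by
      rw [hasGradientAt_iff_hasFDerivAt]
      refine (h.const_mul I⁻¹).congr_fderiv ?_
      ext z
      simp only [smul_apply, InnerProductSpace.toDual_apply_apply,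
        inner_smul_left, smul_eq_mul, conj_trivial]
      ring
    exact h2.gradient

end Pool.Agent.SCN
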