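import Pool.Agent.SCN.Targets

/-! # The target KES -/

set_option autoImplicit false

open Set MeasureTheory Filter Topology Metric
open scoped RealInnerProductSpace

namespace Pool.Agent.SCN

open Pool.Agent.SCP (E PHarm V)

theorem kes_le_pos (s p lam t : ℝ) (hs : 0 < s) (h1 : -lam ≤ t) (h2 : t ≤ p) :
    s ^ t ≤ 1 + s ^ p + s ^ (-lam) := by
  have hp : 0 < s ^ p := Real.rpow_pos_of_pos hs p
  have hl : 0 < s ^ (-lam) := Real.rpow_pos_of_pos hs (-lam)
  rcases le_total 1 s with h | h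
  · have := Real.rpow_le_rpow_of_exponent_le h h2
    linarith
  · have := Real.rpow_le_rpow_of_exponent_ge hs h h1
    linarith

theorem kes_exp (x : ℝ) : |Real.exp x - 1| ≤ |x| * (1 + Real.exp x) := by
  rcases le_total 0 x with h | h
  · have h1 : 1 ≤ Real.exp x := Real.one_le_exp h
    rw [abs_of_nonneg (by linarith), abs_of_nonneg h]
    have h2 : 1 - Real.exp (-x) ≤ x := by
      have := Real.add_one_le_exp (-x)
      linarith
    have h3 : Real.exp x * Real.exp (-x) = 1 := by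
      rw [← Real.exp_add]; simp
    nlinarith
  · have h1 : Real.exp x ≤ 1 := Real.exp_le_one_iff.2 h
    rw [abs_of_nonpos (by linarith), abs_of_nonpos h]
    have h2 := Real.add_one_le_exp x
    have h3 := Real.exp_pos x
    nlinarith

theorem kes_log (s p lam ε : ℝ) (hs : 0 < s) (hl : 0 < lam) (hl1 : lam ≤ 1) (h1 : |ε| ≤ 1 / 4)
    (h2 : |ε| ≤ lam / 2) (hp : p = 2 + ε) :
    (Real.log s) ^ 2 * (s ^ (-ε) + 2 + s ^ ε) ≤ 64 / lam ^ 2 * (1 + s ^ p + s ^ (-lam)) := by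
  have hpp : 0 < s ^ p := Real.rpow_pos_of_pos hs p
  have hll : 0 < s ^ (-lam) := Real.rpow_pos_of_pos hs (-lam)
  obtain ⟨ha, hb⟩ := abs_le.1 h1
  obtain ⟨hc, hd⟩ := abs_le.1 h2
  have hC : (64 : ℝ) ≤ 64 / lam ^ 2 := by
    rw [le_div_iff₀ (by positivity)]
    nlinarith [pow_le_one₀ hl.le hl1 (n := 2)]
  have hC0 : (0 : ℝ) < 64 / lam ^ 2 := by positivity
  have he : 0 < s ^ ε := Real.rpow_pos_of_pos hs _
  have he' : 0 < s ^ (-ε) := Real.rpow_pos_of_pos hs _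
  rcases le_total 1 s with h | h
  · have e1 : s ^ ε ≤ s ^ (1 / 4 : ℝ) := Real.rpow_le_rpow_of_exponent_le h hb
    have e2 : s ^ (-ε) ≤ s ^ (1 / 4 : ℝ) := Real.rpow_le_rpow_of_exponent_le h (by linarith)
    have e3 : (1 : ℝ) ≤ s ^ (1 / 4 : ℝ) := Real.one_le_rpow h (by norm_num)
    have e4 : Real.log s ≤ 4 * s ^ (1 / 4 : ℝ) := by
      have := Real.log_le_rpow_div hs.le (show (0 : ℝ) < 1 / 4 by norm_num)
      linarith
    have e5 : 0 ≤ Real.log s := Real.log_nonneg h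
    have e6 : (Real.log s) ^ 2 ≤ 16 * (s ^ (1 / 4 : ℝ)) ^ 2 := by nlinarith
    have e7 : (s ^ (1 / 4 : ℝ)) ^ 2 * s ^ (1 / 4 : ℝ) ≤ s ^ p := by
      have : (s ^ (1 / 4 : ℝ)) ^ 2 * s ^ (1 / 4 : ℝ) = s ^ (3 / 4 : ℝ) := by
        rw [← pow_succ, ← Real.rpow_natCast, ← Real.rpow_mul hs.le]
        norm_num
      rw [this]
      exact Real.rpow_le_rpow_of_exponent_le h (by linarith)
    calc (Real.log s) ^ 2 * (s ^ (-ε) + 2 + s ^ ε)
        ≤ (16 * (s ^ (1 / 4 : ℝ)) ^ 2) * (4 * s ^ (1 / 4 : ℝ)) := by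
          apply mul_le_mul e6 (by linarith) (by positivity) (by positivity)
      _ = 64 * ((s ^ (1 / 4 : ℝ)) ^ 2 * s ^ (1 / 4 : ℝ)) := by ring
      _ ≤ 64 * s ^ p := by linarith
      _ ≤ 64 / lam ^ 2 * s ^ p := by gcongr
      _ ≤ 64 / lam ^ 2 * (1 + s ^ p + s ^ (-lam)) := by
          apply mul_le_mul_of_nonneg_left _ hC0.le
          linarith
  · set q : ℝ := s ^ (-(lam / 4)) with hq
    have hq0 : 0 < q := Real.rpow_pos_of_pos hs _
    have q2 : q ^ 2 = s ^ (-(lam / 2)) := by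
      rw [hq, ← Real.rpow_natCast, ← Real.rpow_mul hs.le]
      congr 1
      push_cast
      ring
    have q4 : q ^ 2 * q ^ 2 = s ^ (-lam) := by
      rw [q2, ← Real.rpow_add hs]
      congr 1
      ring
    have e1 : s ^ ε ≤ q ^ 2 := by
      rw [q2]; exact Real.rpow_le_rpow_of_exponent_ge hs h (by linarith)
    have e2 : s ^ (-ε) ≤ q ^ 2 := by
      rw [q2]; exact Real.rpow_le_rpow_of_exponent_ge hs h (by linarith)
    have e3 : (1 : ℝ) ≤ q ^ 2 := by
      rw [q2]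
      exact Real.one_le_rpow_of_pos_of_le_one_of_nonpos hs h (by linarith)
    have e4 : -Real.log s ≤ 4 / lam * q := by
      have h5 := Real.log_le_rpow_div (inv_pos.2 hs).le (show (0 : ℝ) < lam / 4 by positivity)
      rw [Real.log_inv, Real.inv_rpow hs.le, ← Real.rpow_neg hs.le, ← hq] at h5
      calc -Real.log s ≤ q / (lam / 4) := h5
        _ = 4 / lam * q := by field_simp
    have e5 : 0 ≤ -Real.log s := by
      have := Real.log_nonpos hs.le h
      linarith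
    have e6 : (Real.log s) ^ 2 ≤ (4 / lam * q) ^ 2 := by
      have := pow_le_pow_left₀ e5 e4 2
      rwa [neg_sq] at this
    calc (Real.log s) ^ 2 * (s ^ (-ε) + 2 + s ^ ε)
        ≤ (4 / lam * q) ^ 2 * (4 * q ^ 2) := by
          apply mul_le_mul e6 (by linarith) (by positivity) (by positivity)
      _ = 64 / lam ^ 2 * (q ^ 2 * q ^ 2) := by
          field_simp
          ring
      _ = 64 / lam ^ 2 * s ^ (-lam) := by rw [q4]
      _ ≤ 64 / lam ^ 2 * (1 + s ^ p + s ^ (-lam)) := by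
          apply mul_le_mul_of_nonneg_left _ hC0.le
          linarith

theorem kes_point (s p lam : ℝ) (hs : 0 < s) (hl : 0 < lam) (hl1 : lam ≤ 1)
    (h1 : |p - 2| ≤ 1 / 4) (h2 : |p - 2| ≤ lam / 2) :
    Kf p s ≤ (2 + 128 / lam ^ 2) * |p - 2| ^ 2 * (1 + s ^ p + s ^ (-lam)) := by
  obtain ⟨ε, rfl⟩ : ∃ ε, p = 2 + ε := ⟨p - 2, by ring⟩
  unfold Kf
  rw [show (2 + ε - 2 : ℝ) = ε by ring] at h1 h2 ⊢
  rw [show (2 - (2 + ε) : ℝ) = -ε by ring]
  have he : 0 < s ^ ε := Real.rpow_pos_of_pos hs _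
  have he' : 0 < s ^ (-ε) := Real.rpow_pos_of_pos hs _
  have hmul : s ^ ε * s ^ (-ε) = 1 := by
    rw [← Real.rpow_add hs]; simp
  have hlog := kes_log s (2 + ε) lam ε hs hl hl1 h1 h2 rfl
  obtain ⟨hc, hd⟩ := abs_le.1 h2
  obtain ⟨ha, hb⟩ := abs_le.1 h1
  have hpos := kes_le_pos s (2 + ε) lam ε hs (by linarith) (by linarith)
  have hexp : |s ^ ε - 1| ≤ |ε| * |Real.log s| * (1 + s ^ ε) := by
    have := kes_exp (Real.log s * ε)
    rw [← Real.rpow_def_of_pos hs, abs_mul] at this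
    linarith [mul_comm (|Real.log s|) (|ε|)]
  have hsq : |s ^ ε - 1| ^ 2 ≤ ε ^ 2 * (Real.log s) ^ 2 * (1 + s ^ ε) ^ 2 := by
    have := pow_le_pow_left₀ (abs_nonneg _) hexp 2
    calc |s ^ ε - 1| ^ 2 ≤ (|ε| * |Real.log s| * (1 + s ^ ε)) ^ 2 := this
      _ = |ε| ^ 2 * |Real.log s| ^ 2 * (1 + s ^ ε) ^ 2 := by ring
      _ = _ := by rw [sq_abs, sq_abs]
  have h3 : (|ε| * s ^ ε + |s ^ ε - 1|) ^ 2 ≤ 2 * (|ε| ^ 2 * (s ^ ε) ^ 2) +
      2 * |s ^ ε - 1| ^ 2 := by
    nlinarith [sq_nonneg (|ε| * s ^ ε - |s ^ ε - 1|)]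
  set G : ℝ := 1 + s ^ (2 + ε) + s ^ (-lam) with hG
  calc (|ε| * s ^ ε + |s ^ ε - 1|) ^ 2 * s ^ (-ε)
      ≤ (2 * (|ε| ^ 2 * (s ^ ε) ^ 2) + 2 * (ε ^ 2 * (Real.log s) ^ 2 * (1 + s ^ ε) ^ 2))
        * s ^ (-ε) := by
        apply mul_le_mul_of_nonneg_right _ he'.le
        linarith
    _ = 2 * |ε| ^ 2 * (s ^ ε * (s ^ ε * s ^ (-ε))) + 2 * ε ^ 2 * ((Real.log s) ^ 2 *
        (s ^ (-ε) + 2 * (s ^ ε * s ^ (-ε)) + s ^ ε * (s ^ ε * s ^ (-ε)))) := by ring
    _ = 2 * |ε| ^ 2 * s ^ ε + 2 * ε ^ 2 * ((Real.log s) ^ 2 * (s ^ (-ε) + 2 + s ^ ε)) := by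
        rw [hmul, mul_one, mul_one]
    _ ≤ 2 * |ε| ^ 2 * G + 2 * ε ^ 2 * (64 / lam ^ 2 * G) := by
        gcongr
    _ = (2 + 128 / lam ^ 2) * |ε| ^ 2 * G := by
        rw [sq_abs]; ring

theorem kes_nonneg (p s : ℝ) (hs : 0 < s) : 0 ≤ Kf p s := by
  unfold Kf
  have := Real.rpow_pos_of_pos hs (2 - p)
  positivity

theorem kes_volume (n : ℕ) (x : E n) (r : ℝ) (hr : 0 < r) :
    (volume (ball x (2 * r))).toReal = 2 ^ n * (volume (ball (0 : E n) 1)).toReal * r ^ n := by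
  rw [Measure.addHaar_ball_of_pos volume x (by positivity : (0 : ℝ) < 2 * r), ENNReal.toReal_mul,
    ENNReal.toReal_ofReal (by positivity), finrank_euclideanSpace_fin, mul_pow]
  ring

theorem p_KES : T_KES := by
  intro n lam A hn hl hl1 hA
  set ω : ℝ := (volume (ball (0 : E n) 1)).toReal with hω
  have hω0 : 0 ≤ ω := ENNReal.toReal_nonneg
  refine ⟨(2 + 128 / lam ^ 2) * (2 ^ n * ω + 2 * A + 1), min (1 / 4) (lam / 2), by positivity,
    by positivity, ?_⟩
  intro p hp σ x r hr hσ hpos hi1 hb1 hi2 hb2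
  have h1 : |p - 2| ≤ 1 / 4 := (hp.le).trans (min_le_left _ _)
  have h2 : |p - 2| ≤ lam / 2 := (hp.le).trans (min_le_right _ _)
  obtain ⟨ha, hb⟩ := abs_le.1 h1
  obtain ⟨hc, hd⟩ := abs_le.1 h2
  have hrn : 0 < r ^ n := by positivity
  have hfin : volume (ball x (2 * r)) ≠ ⊤ := measure_ball_lt_top.ne
  have hmem : ∀ q : ℝ, AEStronglyMeasurable (fun y => σ y ^ q)
      (volume.restrict (ball x (2 * r))) := by
    intro q
    exact (hσ.aemeasurable.pow_const q).aestronglyMeasurable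
  have hg : IntegrableOn (fun y => 1 + σ y ^ p + σ y ^ (-lam)) (ball x (2 * r)) :=
    ((integrableOn_const hfin).add hi1).add hi2
  have hgint : ∫ y in ball x (2 * r), (1 + σ y ^ p + σ y ^ (-lam)) ≤
      (2 ^ n * ω + 2 * A) * r ^ n := by
    have hc1 : IntegrableOn (fun _ : E n => (1 : ℝ)) (ball x (2 * r)) := integrableOn_const hfin
    have hc2 : IntegrableOn (fun y => 1 + σ y ^ p) (ball x (2 * r)) := hc1.add hi1
    rw [integral_add hc2 hi2, integral_add hc1 hi1, integral_const, smul_eq_mul, mul_one,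
      measureReal_def, Measure.restrict_apply_univ, kes_volume n x r hr]
    rw [← hω]
    linarith
  have hsub : ball x r ⊆ ball x (2 * r) := ball_subset_ball (by linarith)
  have hpow : ∀ t : ℝ, -lam ≤ t → t ≤ p →
      IntegrableOn (fun y => σ y ^ t) (ball x (2 * r)) := by
    intro t ht1 ht2
    refine Integrable.mono' hg (hmem t) ?_
    filter_upwards [hpos] with y hy
    rw [Real.norm_of_nonneg (Real.rpow_nonneg hy.le t)]
    exact kes_le_pos (σ y) p lam t hy ht1 ht2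
  have hK : IntegrableOn (fun y => Kf p (σ y)) (ball x (2 * r)) := by
    refine Integrable.mono' (hg.const_mul ((2 + 128 / lam ^ 2) * |p - 2| ^ 2)) ?_ ?_
    · unfold Kf
      exact ((((hmem (p - 2)).const_mul _).add
        (((hmem (p - 2)).sub aestronglyMeasurable_const).norm)).pow 2).mul (hmem (2 - p))
    · filter_upwards [hpos] with y hy
      rw [Real.norm_of_nonneg (kes_nonneg p _ hy)]
      exact kes_point (σ y) p lam hy hl hl1 h1 h2
  refine ⟨hpow (p - 2) (by linarith) (by linarith), ?_, hK.mono_set hsub, ?_,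
    (hpow (2 - p) (by linarith) (by linarith)).mono_set hsub⟩
  · have h3 : ∫ y in ball x (2 * r), σ y ^ (p - 2) ≤
        ∫ y in ball x (2 * r), (1 + σ y ^ p + σ y ^ (-lam)) := by
      apply integral_mono_ae (hpow (p - 2) (by linarith) (by linarith)) hg
      filter_upwards [hpos] with y hy
      exact kes_le_pos (σ y) p lam (p - 2) hy (by linarith) (by linarith)
    have h4 : (1 : ℝ) ≤ 2 + 128 / lam ^ 2 := by
      have : 0 < 128 / lam ^ 2 := by positivity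
      linarith
    have h5 : 0 ≤ (2 ^ n * ω + 2 * A + 1) * r ^ n := by positivity
    calc _ ≤ (2 ^ n * ω + 2 * A) * r ^ n := h3.trans hgint
      _ ≤ 1 * ((2 ^ n * ω + 2 * A + 1) * r ^ n) := by nlinarith
      _ ≤ (2 + 128 / lam ^ 2) * ((2 ^ n * ω + 2 * A + 1) * r ^ n) := by gcongr
      _ = _ := by ring
  · have h3 : ∫ y in ball x r, Kf p (σ y) ≤ ∫ y in ball x (2 * r), Kf p (σ y) := by
      apply setIntegral_mono_set hK _ (LE.le.eventuallyLE hsub)
      filter_upwards [hpos] with y hy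
      exact kes_nonneg p _ hy
    have h4 : ∫ y in ball x (2 * r), Kf p (σ y) ≤
        ∫ y in ball x (2 * r), (2 + 128 / lam ^ 2) * |p - 2| ^ 2 *
          (1 + σ y ^ p + σ y ^ (-lam)) := by
      apply integral_mono_ae hK (hg.const_mul _)
      filter_upwards [hpos] with y hy
      exact kes_point (σ y) p lam hy hl hl1 h1 h2
    rw [integral_const_mul] at h4
    calc _ ≤ _ := h3.trans h4
      _ ≤ (2 + 128 / lam ^ 2) * |p - 2| ^ 2 * ((2 ^ n * ω + 2 * A) * r ^ n) := by gcongr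
      _ ≤ (2 + 128 / lam ^ 2) * |p - 2| ^ 2 * ((2 ^ n * ω + 2 * A + 1) * r ^ n) := by
          apply mul_le_mul_of_nonneg_left _ (by positivity)
          nlinarith
      _ = _ := by ring

end Pool.Agent.SCN
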