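import Pool.Agent.SCN.Targets2
import Pool.Agent.SCP.All

/-! # KK: the theorem on compact sets -/

set_option autoImplicit false

open Set MeasureTheory Filter Topology Metric
open scoped RealInnerProductSpace

namespace Pool.Agent.SCN

open Pool.Agent.SCP (E PHarm V)

variable {n : ℕ}

theorem kk_const {p : ℝ} (hn : 1 ≤ n) (hp : 1 < p) {Ω : Set (E n)} (hΩ : IsOpen Ω)
    (hc : IsPreconnected Ω) {u v : E n → ℝ} {c : ℝ} (hu : ∀ x ∈ Ω, u x = c) (hv : PHarm p Ω v)
    (h : (∀ x ∈ Ω, u x ≤ v x) ∨ ∀ x ∈ Ω, v x ≤ u x) (hex : ∃ x ∈ Ω, u x = v x) :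
    ∀ x ∈ Ω, u x = v x := by
  have hcu : ContinuousOn u Ω := (continuousOn_const (c := c)).congr fun x hx => hu x hx
  refine SCP.GLOBAL_.openClosed hΩ hcu hv.1.continuousOn hc Subset.rfl ?_ hex
  intro x hx hxe
  have hΩx := hΩ.mem_nhds hx
  rcases h with h | h
  · have h1 := SCP.smp_ n p Ω v c x hn hp hΩ hv hx
      (by filter_upwards [hΩx] with y hy; rw [← hu y hy]; exact h y hy) (by rw [← hxe, hu x hx])
    filter_upwards [h1, hΩx] with y hy1 hy2
    rw [hu y hy2, hy1]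
  · have hneg := (SCP.neg n p 0 Ω v).1 hv
    have h1 := SCP.smp_ n p Ω (fun x => - v x) (-c) x hn hp hΩ hneg hx
      (by
        filter_upwards [hΩx] with y hy
        have := h y hy
        rw [hu y hy] at this
        linarith) (by rw [← hxe, hu x hx])
    filter_upwards [h1, hΩx] with y hy1 hy2
    rw [hu y hy2]
    have h2 : - v y = - c := hy1
    linarith

theorem kk_min {X : Type} (t : Finset X) (f : X → ℝ) (hf : ∀ z ∈ t, 0 < f z) :
    ∃ e : ℝ, 0 < e ∧ ∀ z ∈ t, e ≤ f z := by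
  classical
  induction t using Finset.induction_on with
  | empty => exact ⟨1, one_pos, fun z hz => by simp at hz⟩
  | insert a s _ ih =>
    obtain ⟨e, he, h⟩ := ih fun z hz => hf z (Finset.mem_insert_of_mem hz)
    refine ⟨min e (f a), lt_min he (hf a (Finset.mem_insert_self a s)), fun z hz => ?_⟩
    rcases Finset.mem_insert.1 hz with rfl | hz
    · exact min_le_right _ _
    · exact (min_le_left _ _).trans (h z hz)

theorem kk_union {X : Type} [MeasurableSpace X] {μ : Measure X} {f : X → ℝ} (hf0 : ∀ x, 0 ≤ f x)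
    {A B : Set X} (hA : MeasurableSet A) (hB : MeasurableSet B) (hfA : IntegrableOn f A μ)
    (hfB : IntegrableOn f B μ) : ∫ x in A ∪ B, f x ∂μ ≤ ∫ x in A, f x ∂μ + ∫ x in B, f x ∂μ := by
  rw [← union_diff_self, setIntegral_union disjoint_sdiff_right (hB.diff hA) hfA
    (hfB.mono_set diff_subset)]
  have := setIntegral_mono_set (μ := μ) (s := B \ A) (t := B) hfB
    (ae_of_all _ hf0) (HasSubset.Subset.eventuallyLE diff_subset)
  linarith

theorem kk_biUnion {X : Type} [MeasurableSpace X] {μ : Measure X} {f : X → ℝ}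
    (hf0 : ∀ x, 0 ≤ f x) {Ω : Set X} (hf : IntegrableOn f Ω μ) (t : Finset X) (B : X → Set X)
    (hB : ∀ z ∈ t, MeasurableSet (B z) ∧ B z ⊆ Ω) :
    ∫ x in ⋃ z ∈ t, B z, f x ∂μ ≤ ∑ z ∈ t, ∫ x in B z, f x ∂μ := by
  classical
  induction t using Finset.induction_on with
  | empty => simp
  | insert a s ha ih =>
    have hs : ∀ z ∈ s, MeasurableSet (B z) ∧ B z ⊆ Ω := fun z hz =>
      hB z (Finset.mem_insert_of_mem hz)
    have h1 := ih hs
    rw [Finset.set_biUnion_insert, Finset.sum_insert ha]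
    have h2 := kk_union (μ := μ) hf0 (hB a (Finset.mem_insert_self a s)).1
      (s.measurableSet_biUnion fun z hz => (hs z hz).1)
      (hf.mono_set (hB a (Finset.mem_insert_self a s)).2)
      (hf.mono_set (iUnion₂_subset fun z hz => (hs z hz).2))
    linarith

theorem p_KK (hKB : T_KB) : T_KK := by
  classical
  intro n Ω K₀ K L hn hΩ hconn hK₀ hK₀Ω hK hKΩ
  have h1 : ∀ z ∈ K₀, ∃ ρ : ℝ, 0 < ρ ∧ closedBall z (4 * ρ) ⊆ Ω := by
    intro z hz
    obtain ⟨ε, hε, h⟩ := nhds_basis_closedBall.mem_iff.1 (hΩ.mem_nhds (hK₀Ω hz))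
    exact ⟨ε / 4, by positivity, by rwa [mul_div_cancel₀ _ (by norm_num : (4 : ℝ) ≠ 0)]⟩
  choose! ρ hρ hρΩ using h1
  obtain ⟨t, ht, htc⟩ := hK₀.elim_nhds_subcover (fun z => ball z (ρ z))
    fun z hz => ball_mem_nhds z (hρ z hz)
  have h2 : ∀ z ∈ t, ∃ e : ℝ, 0 < e ∧ ∀ p : ℝ, |p - 2| < e → ∀ u v : E n → ℝ,
      Adm p Ω z (ρ z) (L * t.card) u → PHarm p Ω v →
      ((∀ x ∈ Ω, u x ≤ v x) ∨ ∀ x ∈ Ω, v x ≤ u x) → (∃ x ∈ K, u x = v x) →
      ∀ x ∈ K, u x = v x := fun z hz =>
    hKB n Ω z (ρ z) (L * t.card) K hn hΩ hconn.isPreconnected (hρ z (ht z hz)) (hρΩ z (ht z hz))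
      hK hKΩ
  choose! e he0 he using h2
  obtain ⟨e', he', hemin⟩ := kk_min t e he0
  refine ⟨min e' 1, lt_min he' one_pos, ?_⟩
  intro p hp u v hu hv hord hint hL hex
  have hp1 : 1 < p := by
    have := (abs_lt.1 (hp.trans_le (min_le_right _ _))).1
    linarith
  have hpe : ∀ z ∈ t, |p - 2| < e z := fun z hz =>
    (hp.trans_le (min_le_left _ _)).trans_le (hemin z hz)
  have hf0 : ∀ x, 0 ≤ ‖gradient u x‖ ^ p := fun x => by positivity
  have hW0 : 0 ≤ ∫ y in Ω, ‖gradient u y‖ ^ p := integral_nonneg hf0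
  have hcont : ContinuousOn (fun y => ‖gradient u y‖ ^ p) Ω :=
    (SCP.TEST_.continuousOn_gradient hΩ hu.1).norm.rpow_const fun _ _ => Or.inr (by linarith)
  rcases hW0.eq_or_lt with hW | hW
  · -- `u` is constant
    have h3 : (fun y => ‖gradient u y‖ ^ p) =ᵐ[volume.restrict Ω] 0 := by
      rw [← integral_eq_zero_iff_of_nonneg hf0 hint]
      exact hW.symm
    have h4 : EqOn (fun y => ‖gradient u y‖ ^ p) 0 Ω :=
      Measure.eqOn_open_of_ae_eq h3 hΩ hcont continuousOn_const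
    have h5 : EqOn (fderiv ℝ u) 0 Ω := by
      intro y hy
      have h6 : ‖gradient u y‖ ^ p = 0 := h4 hy
      have h7 : ‖gradient u y‖ = 0 := by
        by_contra hne
        have h8 : 0 < ‖gradient u y‖ := lt_of_le_of_ne (norm_nonneg _) (Ne.symm hne)
        exact (Real.rpow_pos_of_pos h8 p).ne' h6
      have h9 : gradient u y = 0 := norm_eq_zero.1 h7
      rw [SCP.gradient_eq_symm] at h9
      have h10 := (InnerProductSpace.toDual ℝ (E n)).symm.map_eq_zero_iff.1 h9
      exact h10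
    obtain ⟨c, hc⟩ := hΩ.exists_is_const_of_fderiv_eq_zero hconn.isPreconnected
      (hu.1.differentiableOn (by norm_num)) h5
    have h11 := kk_const hn hp1 hΩ hconn.isPreconnected (fun x hx => hc x hx) hv hord
      (by obtain ⟨x, hx, h⟩ := hex; exact ⟨x, hKΩ hx, h⟩)
    exact fun x hx => h11 x (hKΩ hx)
  · have hK0 : 0 ≤ ∫ y in K₀, ‖gradient u y‖ ^ p := integral_nonneg hf0
    have hLpos : 0 < L := by
      by_contra hn
      have : L * ∫ y in K₀, ‖gradient u y‖ ^ p ≤ 0 :=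
        mul_nonpos_of_nonpos_of_nonneg (not_lt.1 hn) hK0
      linarith
    have hbΩ : ∀ z ∈ t, ball z (ρ z) ⊆ Ω := fun z hz =>
      (ball_subset_closedBall.trans (closedBall_subset_closedBall
        (by have := hρ z (ht z hz); linarith))).trans (hρΩ z (ht z hz))
    have h3 : ∫ y in K₀, ‖gradient u y‖ ^ p ≤ ∑ z ∈ t, en p u z (ρ z) := by
      have h4 := kk_biUnion hf0 hint t (fun z => ball z (ρ z)) fun z hz =>
        ⟨measurableSet_ball, hbΩ z hz⟩
      have h5 := setIntegral_mono_set (μ := volume) (s := K₀) (t := ⋃ z ∈ t, ball z (ρ z))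
        (f := fun y => ‖gradient u y‖ ^ p)
        (hint.mono_set (iUnion₂_subset fun z hz => hbΩ z hz))
        (ae_of_all _ hf0) (HasSubset.Subset.eventuallyLE htc)
      exact h5.trans h4
    have h6 : ∃ z ∈ t, ∫ y in Ω, ‖gradient u y‖ ^ p ≤ L * t.card * en p u z (ρ z) := by
      by_contra hno
      push Not at hno
      have hne : t.Nonempty := by
        rw [Finset.nonempty_iff_ne_empty]
        rintro rfl
        simp only [Finset.sum_empty] at h3
        have : L * ∫ y in K₀, ‖gradient u y‖ ^ p ≤ 0 := mul_nonpos_of_nonneg_of_nonpos hLpos.le h3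
        linarith
      have h7 := Finset.sum_lt_sum_of_nonempty hne hno
      rw [← Finset.mul_sum, Finset.sum_const, nsmul_eq_mul] at h7
      have hcard : (0 : ℝ) < t.card := by exact_mod_cast hne.card_pos
      have h8 : L * ∫ y in K₀, ‖gradient u y‖ ^ p ≤ L * ∑ z ∈ t, en p u z (ρ z) :=
        mul_le_mul_of_nonneg_left h3 hLpos.le
      have h9 : (t.card : ℝ) * ∫ y in Ω, ‖gradient u y‖ ^ p ≤
          L * t.card * ∑ z ∈ t, en p u z (ρ z) := by
        calc (t.card : ℝ) * ∫ y in Ω, ‖gradient u y‖ ^ p ≤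
            t.card * (L * ∑ z ∈ t, en p u z (ρ z)) :=
              mul_le_mul_of_nonneg_left (hL.trans h8) hcard.le
          _ = L * t.card * ∑ z ∈ t, en p u z (ρ z) := by ring
      linarith
    obtain ⟨z, hz, hzW⟩ := h6
    exact he z hz p (hpe z hz) u v ⟨hu, hint, hW, hzW⟩ hv hord hex

end Pool.Agent.SCN
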