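import Pool.Agent.SCN.Targets

/-! # Strong comparison for `p`-harmonic functions: target KPR -/

set_option autoImplicit false

open Set MeasureTheory Filter Topology Metric
open scoped RealInnerProductSpace

namespace Pool.Agent.SCN

open Pool.Agent.SCP (E PHarm V)

section kpr

variable {n : ℕ}

theorem kpr_room {Ω : Set (E n)} {x : E n} {r : ℝ} (hΩ : IsOpen Ω) (hr : 0 < r)
    (hb : closedBall x (2 * r) ⊆ Ω) : ∃ δ : ℝ, 0 < δ ∧ closedBall x (2 * r + δ) ⊆ Ω := by
  obtain ⟨δ, h1, h2⟩ := (isCompact_closedBall x (2 * r)).exists_cthickening_subset_open hΩ hb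
  refine ⟨δ, h1, ?_⟩
  rw [cthickening_closedBall h1.le (by positivity), add_comm] at h2
  exact h2

theorem kpr_grad_mul {a b : E n → ℝ} {y : E n} (ha : DifferentiableAt ℝ a y)
    (hb : DifferentiableAt ℝ b y) :
    gradient (fun z => a z * b z) y = a y • gradient b y + b y • gradient a y := by
  apply ext_inner_right ℝ
  intro v
  rw [inner_add_left, real_inner_smul_left, real_inner_smul_left, inner_gradient_left,
    inner_gradient_left, inner_gradient_left, fderiv_fun_mul ha hb]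
  simp

theorem kpr_grad_scale {g : E n → ℝ} {x y : E n} {s : ℝ} (h : DifferentiableAt ℝ g (x + s • y)) :
    gradient (fun z => g (x + s • z)) y = s • gradient g (x + s • y) := by
  apply ext_inner_right ℝ
  intro v
  have h1 : HasFDerivAt (fun z : E n => x + s • z) (s • ContinuousLinearMap.id ℝ (E n)) y := by
    exact ((hasFDerivAt_id y).const_smul s).const_add x
  have h2 := (h.hasFDerivAt.comp y h1).fderiv
  have h3 : fderiv ℝ (fun z => g (x + s • z)) y = (fderiv ℝ g (x + s • y)).comp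
      (s • ContinuousLinearMap.id ℝ (E n)) := h2
  rw [real_inner_smul_left, inner_gradient_left, inner_gradient_left, h3]
  simp

theorem kpr_weak {Ω : Set (E n)} {g : E n → ℝ} (hΩ : IsOpen Ω) (hg : Hrm Ω g) (x : E n) {s : ℝ}
    (hs : 0 < s) {φ : E n → ℝ} (h1 : ContDiff ℝ 1 φ) (h2 : HasCompactSupport φ)
    (h3 : ∀ y ∈ tsupport φ, x + s • y ∈ Ω) :
    ∫ y, ⟪gradient g (x + s • y), gradient φ y⟫ = 0 := by
  set K : Set (E n) := (fun y : E n => x + s • y) '' tsupport φ with hK
  have hKc : IsCompact K := h2.isCompact.image (by fun_prop)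
  have hinv : ∀ z : E n, x + s • (s⁻¹ • (z - x)) = z := by
    intro z
    rw [smul_inv_smul₀ hs.ne']
    abel
  have hinv' : ∀ y : E n, s⁻¹ • (x + s • y - x) = y := by
    intro y
    rw [add_sub_cancel_left, inv_smul_smul₀ hs.ne']
  have hzero : ∀ z, z ∉ K → φ (s⁻¹ • (z - x)) = 0 := by
    intro z hz
    by_contra hne
    exact hz ⟨s⁻¹ • (z - x), subset_tsupport _ hne, hinv z⟩
  have d1 : ContDiff ℝ 1 (fun z : E n => φ (s⁻¹ • (z - x))) :=
    h1.comp ((contDiff_id.sub contDiff_const).const_smul s⁻¹)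
  have d2 : HasCompactSupport (fun z : E n => φ (s⁻¹ • (z - x))) :=
    HasCompactSupport.intro hKc hzero
  have d3 : tsupport (fun z : E n => φ (s⁻¹ • (z - x))) ⊆ Ω := by
    refine (closure_minimal ?_ hKc.isClosed).trans ?_
    · intro z hz
      by_contra hne
      exact hz (hzero z hne)
    · rintro _ ⟨y, hy, rfl⟩
      exact h3 y hy
  have key := weak (p := 2) one_lt_two hΩ hg.2 d1 d2 d3
  have hgr : ∀ y : E n, gradient (fun z : E n => φ (s⁻¹ • (z - x))) (x + s • y) =
      s⁻¹ • gradient φ y := by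
    intro y
    have e1 : (fun z : E n => φ (s⁻¹ • (z - x))) = fun z => φ (-(s⁻¹ • x) + s⁻¹ • z) := by
      funext z
      congr 1
      rw [smul_sub]
      abel
    have e2 : -(s⁻¹ • x) + s⁻¹ • (x + s • y) = y := by
      rw [smul_add, inv_smul_smul₀ hs.ne']
      abel
    rw [e1, kpr_grad_scale (by rw [e2]; exact h1.differentiable (by norm_num) y), e2]
  have e3 := Measure.integral_comp_smul (volume : Measure (E n))
    (fun w => ⟪V 2 (gradient g (x + w)),
      gradient (fun z : E n => φ (s⁻¹ • (z - x))) (x + w)⟫) s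
  rw [integral_add_left_eq_self (fun w => ⟪V 2 (gradient g w),
      gradient (fun z : E n => φ (s⁻¹ • (z - x))) w⟫) x, key, smul_zero] at e3
  simp only [hgr, real_inner_smul_right] at e3
  rw [integral_const_mul] at e3
  have e4 := (mul_eq_zero.mp e3).resolve_left (inv_ne_zero hs.ne')
  rw [← e4]
  congr 1
  funext y
  simp [V]

variable {Ω : Set (E n)} {g : E n → ℝ} {x : E n} {r : ℝ}

theorem kpr_mem (hb : closedBall x (2 * r) ⊆ Ω) {s : ℝ} (hs0 : 0 ≤ s) (hs : s ≤ 2) {y : E n}
    (hy : y ∈ closedBall (0 : E n) r) : x + s • y ∈ Ω := by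
  apply hb
  rw [mem_closedBall, dist_eq_norm, add_sub_cancel_left, norm_smul, Real.norm_eq_abs,
    abs_of_nonneg hs0]
  rw [mem_closedBall, dist_zero_right] at hy
  exact mul_le_mul hs hy (norm_nonneg _) (by norm_num)

theorem kpr_cg (hg : Hrm Ω g) (hb : closedBall x (2 * r) ⊆ Ω) {s : ℝ} (hs0 : 0 ≤ s)
    (hs : s ≤ 2) : ContinuousOn (fun y => g (x + s • y)) (closedBall (0 : E n) r) :=
  hg.1.continuousOn.comp (by fun_prop) fun _ hy => kpr_mem hb hs0 hs hy

theorem kpr_cgr (hΩ : IsOpen Ω) (hg : Hrm Ω g) : ContinuousOn (gradient g) Ω := by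
  have h1 : ContinuousOn (fderiv ℝ g) Ω :=
    hg.1.continuousOn_fderiv_of_isOpen hΩ (by simp)
  exact (InnerProductSpace.toDual ℝ (E n)).symm.continuous.comp_continuousOn h1

theorem kpr_cG (hΩ : IsOpen Ω) (hg : Hrm Ω g) (hb : closedBall x (2 * r) ⊆ Ω) {s : ℝ}
    (hs0 : 0 ≤ s) (hs : s ≤ 2) :
    ContinuousOn (fun y => gradient g (x + s • y)) (closedBall (0 : E n) r) :=
  (kpr_cgr hΩ hg).comp (by fun_prop) fun _ hy => kpr_mem hb hs0 hs hy

theorem kpr_diff (hΩ : IsOpen Ω) (hg : Hrm Ω g) {z : E n} (hz : z ∈ Ω) :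
    DifferentiableAt ℝ g z :=
  (hg.1.contDiffAt (hΩ.mem_nhds hz)).differentiableAt (by simp)

/-- The weak equation with the test function `g (x + t y) Ψ y`. -/
theorem kpr_AB (hΩ : IsOpen Ω) (hg : Hrm Ω g) (hb : closedBall x (2 * r) ⊆ Ω)
    {a t : ℝ} (ha0 : 0 < a) (ha : a ≤ 2) (ht0 : 0 < t) (ht : t ≤ 2) {Ψ : E n → ℝ}
    (hΨ : ContDiff ℝ 1 Ψ) (hΨ0 : ∀ y : E n, r ≤ ‖y‖ → Ψ y = 0)
    (hΨg : ∀ y : E n, ContinuousAt (gradient Ψ) y) :
    (∫ y in closedBall (0 : E n) r, g (x + t • y) * ⟪gradient g (x + a • y), gradient Ψ y⟫) +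
      t * ∫ y in closedBall (0 : E n) r,
        Ψ y * ⟪gradient g (x + a • y), gradient g (x + t • y)⟫ = 0 := by
  have hz : ∀ y, y ∉ closedBall (0 : E n) r → g (x + t • y) * Ψ y = 0 := by
    intro y hy
    rw [mem_closedBall, dist_zero_right, not_le] at hy
    rw [hΨ0 y hy.le, mul_zero]
  have hC : ContDiff ℝ 1 (fun y => g (x + t • y) * Ψ y) := by
    have hopen : IsOpen ((fun y : E n => x + t • y) ⁻¹' Ω) := hΩ.preimage (by fun_prop)
    refine contDiff_of_contDiffOn_union_of_isOpen (s := (fun y : E n => x + t • y) ⁻¹' Ω)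
      (t := (closedBall (0 : E n) r)ᶜ) ?_ ?_ ?_ hopen isClosed_closedBall.isOpen_compl
    · refine ContDiffOn.mul ?_ hΨ.contDiffOn
      refine ContDiffOn.comp (hg.1.of_le (by exact_mod_cast le_top)) ?_ fun y hy => hy
      exact (contDiff_const.add (contDiff_id.const_smul t)).contDiffOn
    · refine (contDiffOn_const (c := (0 : ℝ))).congr ?_
      intro y hy
      exact hz y hy
    · rw [eq_univ_iff_forall]
      intro y
      by_cases hy : y ∈ closedBall (0 : E n) r
      · exact Or.inl (kpr_mem hb ht0.le ht hy)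
      · exact Or.inr hy
  have hts : tsupport (fun y => g (x + t • y) * Ψ y) ⊆ closedBall (0 : E n) r := by
    refine closure_minimal ?_ isClosed_closedBall
    intro y hy
    by_contra hne
    exact hy (hz y hne)
  have key := kpr_weak hΩ hg x ha0 hC (HasCompactSupport.intro (isCompact_closedBall 0 r) hz)
    (fun y hy => kpr_mem hb ha0.le ha (hts hy))
  rw [← setIntegral_eq_integral_of_forall_compl_eq_zero (s := closedBall (0 : E n) r)] at key
  swap
  · intro y hy
    have h1 : (fun y => g (x + t • y) * Ψ y) =ᶠ[𝓝 y] fun _ => (0 : ℝ) := by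
      filter_upwards [isClosed_closedBall.isOpen_compl.mem_nhds hy] with z hz'
      exact hz z hz'
    rw [h1.gradient_eq, gradient_fun_const, inner_zero_right]
  have hΨc : ContinuousOn Ψ (closedBall (0 : E n) r) := hΨ.continuous.continuousOn
  have hΨgc : ContinuousOn (gradient Ψ) (closedBall (0 : E n) r) :=
    fun y _ => (hΨg y).continuousWithinAt
  have i1 : IntegrableOn (fun y => g (x + t • y) * ⟪gradient g (x + a • y), gradient Ψ y⟫)
      (closedBall (0 : E n) r) :=
    ((kpr_cg hg hb ht0.le ht).mul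
      (ContinuousOn.inner (𝕜 := ℝ) (kpr_cG hΩ hg hb ha0.le ha) hΨgc)).integrableOn_compact
      (isCompact_closedBall 0 r)
  have i2 : IntegrableOn (fun y => t * (Ψ y * ⟪gradient g (x + a • y), gradient g (x + t • y)⟫))
      (closedBall (0 : E n) r) :=
    (continuousOn_const.mul (hΨc.mul (ContinuousOn.inner (𝕜 := ℝ) (kpr_cG hΩ hg hb ha0.le ha)
      (kpr_cG hΩ hg hb ht0.le ht)))).integrableOn_compact (isCompact_closedBall 0 r)
  rw [← integral_const_mul, ← integral_add i1 i2, ← key]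
  refine setIntegral_congr_fun isClosed_closedBall.measurableSet ?_
  intro y hy
  have hd1 : DifferentiableAt ℝ g (x + t • y) := kpr_diff hΩ hg (kpr_mem hb ht0.le ht hy)
  have hd2 : DifferentiableAt ℝ (fun y => g (x + t • y)) y :=
    DifferentiableAt.comp y hd1 (by fun_prop)
  simp only
  rw [kpr_grad_mul hd2 (hΨ.differentiable (by norm_num) y), kpr_grad_scale hd1, inner_add_right,
    real_inner_smul_right, real_inner_smul_right, real_inner_smul_right]
  ring

/-- The radial function with the gradient `ω(‖y‖²) y`. -/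
theorem kpr_ker {r : ℝ} {ω : ℝ → ℝ} (hω : Continuous ω) (hω0 : ∀ s, r ^ 2 ≤ s → ω s = 0)
    (hr : 0 < r) : ∃ Ψ : E n → ℝ, ContDiff ℝ 1 Ψ ∧ (∀ y, r ≤ ‖y‖ → Ψ y = 0) ∧
      ∀ y, gradient Ψ y = ω (‖y‖ ^ 2) • y := by
  set Wf : ℝ → ℝ := fun t => (1 / 2) * ∫ s in (r ^ 2)..t, ω s with hW
  have hd : ∀ t, HasDerivAt Wf ((1 / 2) * ω t) t := by
    intro t
    exact ((hω.integral_hasStrictDerivAt (r ^ 2) t).hasDerivAt).const_mul (1 / 2)
  have hC : ContDiff ℝ 1 Wf := by
    rw [contDiff_one_iff_deriv]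
    refine ⟨fun t => (hd t).differentiableAt, ?_⟩
    have h1 : deriv Wf = fun t => (1 / 2) * ω t := funext fun t => (hd t).deriv
    rw [h1]
    fun_prop
  refine ⟨fun y => Wf (‖y‖ ^ 2), hC.comp (contDiff_norm_sq ℝ), ?_, ?_⟩
  · intro y hy
    have h1 : r ^ 2 ≤ ‖y‖ ^ 2 := pow_le_pow_left₀ hr.le hy 2
    have h2 : ∫ s in (r ^ 2)..(‖y‖ ^ 2), ω s = 0 := by
      rw [intervalIntegral.integral_congr (g := fun _ => (0 : ℝ))]
      · simp
      · intro s hs
        rw [uIcc_of_le h1] at hs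
        exact hω0 s hs.1
    simp only [hW, h2, mul_zero]
  · intro y
    apply ext_inner_right ℝ
    intro v
    have h0 : HasDerivAt Wf ((1 / 2) * ω (‖y‖ ^ 2)) ((fun z : E n => ‖z‖ ^ 2) y) := hd (‖y‖ ^ 2)
    have h1 : HasFDerivAt (Wf ∘ fun z : E n => ‖z‖ ^ 2)
        (((1 / 2) * ω (‖y‖ ^ 2)) • (2 • innerSL ℝ y)) y :=
      HasDerivAt.comp_hasFDerivAt y h0 (hasStrictFDerivAt_norm_sq y).hasFDerivAt
    have h2 : fderiv ℝ (fun z : E n => Wf (‖z‖ ^ 2)) y =
        ((1 / 2) * ω (‖y‖ ^ 2)) • (2 • innerSL ℝ y) := h1.fderiv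
    rw [inner_gradient_left, h2, real_inner_smul_left]
    simp
    ring

/-- The identity with a continuous radial weight. -/
theorem kpr_weight (hΩ : IsOpen Ω) (hg : Hrm Ω g) (hr : 0 < r) (hb : closedBall x (2 * r) ⊆ Ω)
    {ω : ℝ → ℝ} (hω : Continuous ω) (hω0 : ∀ s, r ^ 2 ≤ s → ω s = 0) :
    ∫ y in closedBall (0 : E n) r,
        ω (‖y‖ ^ 2) * (g (x + (2 : ℝ) • y) * g (x + (2 : ℝ)⁻¹ • y)) =
      ∫ y in closedBall (0 : E n) r,
        ω (‖y‖ ^ 2) * (g (x + (1 : ℝ) • y) * g (x + (1 : ℝ)⁻¹ • y)) := by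
  obtain ⟨Ψ, hΨ, hΨ0, hΨg⟩ := kpr_ker (n := n) hω hω0 hr
  obtain ⟨δ, hδ, hbδ⟩ := kpr_room hΩ hr hb
  have hBc : IsCompact (closedBall (0 : E n) r) := isCompact_closedBall 0 r
  have hKc : IsCompact (closedBall x (2 * r + δ)) := isCompact_closedBall x _
  obtain ⟨A, hA⟩ := hKc.exists_bound_of_continuousOn (hg.1.continuousOn.mono hbδ)
  obtain ⟨D, hD⟩ := hKc.exists_bound_of_continuousOn ((kpr_cgr hΩ hg).mono hbδ)
  obtain ⟨Wb, hWb⟩ := hBc.exists_bound_of_continuousOn
    (f := fun y : E n => ω (‖y‖ ^ 2)) (by fun_prop)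
  have h2r : (2 : ℝ) < 2 + δ / r := by
    have : 0 < δ / r := div_pos hδ hr
    linarith
  have hmem : ∀ s ∈ Ioo (1 / 2 : ℝ) (2 + δ / r), ∀ y ∈ closedBall (0 : E n) r,
      x + s • y ∈ closedBall x (2 * r + δ) ∧ x + s⁻¹ • y ∈ closedBall x (2 * r + δ) := by
    intro s hs y hy
    rw [mem_closedBall, dist_zero_right] at hy
    have hs0 : 0 < s := by linarith [hs.1]
    constructor
    · rw [mem_closedBall, dist_eq_norm, add_sub_cancel_left, norm_smul, Real.norm_eq_abs,
        abs_of_pos hs0]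
      calc s * ‖y‖ ≤ (2 + δ / r) * r :=
            mul_le_mul hs.2.le hy (norm_nonneg _) (by linarith)
        _ = 2 * r + δ := by field_simp
    · rw [mem_closedBall, dist_eq_norm, add_sub_cancel_left, norm_smul, Real.norm_eq_abs,
        abs_of_pos (inv_pos.2 hs0)]
      have h1 : s⁻¹ ≤ 2 := by
        rw [inv_le_comm₀ hs0 (by norm_num)]
        linarith [hs.1]
      calc s⁻¹ * ‖y‖ ≤ 2 * r := mul_le_mul h1 hy (norm_nonneg _) (by norm_num)
        _ ≤ 2 * r + δ := by linarith
  set Fn : ℝ → E n → ℝ := fun s y => ω (‖y‖ ^ 2) * (g (x + s • y) * g (x + s⁻¹ • y)) with hFn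
  set Fd : ℝ → E n → ℝ := fun s y => ω (‖y‖ ^ 2) * (⟪gradient g (x + s • y), y⟫ *
    g (x + s⁻¹ • y) + g (x + s • y) * (-(s ^ 2)⁻¹ * ⟪gradient g (x + s⁻¹ • y), y⟫)) with hFd
  have hder : ∀ s ∈ Ioo (1 / 2 : ℝ) (2 + δ / r), ∀ y ∈ closedBall (0 : E n) r,
      HasDerivAt (fun s => Fn s y) (Fd s y) s := by
    intro s hs y hy
    have hs0 : s ≠ 0 := by linarith [hs.1]
    obtain ⟨m1, m2⟩ := hmem s hs y hy
    have d1 := kpr_diff hΩ hg (hbδ m1)
    have d2 := kpr_diff hΩ hg (hbδ m2)
    have l1 : HasDerivAt (fun s : ℝ => x + s • y) y s := by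
      have := ((hasDerivAt_id s).smul_const y).const_add x
      rwa [one_smul] at this
    have l2 : HasDerivAt (fun s : ℝ => x + s⁻¹ • y) (-(s ^ 2)⁻¹ • y) s :=
      ((hasDerivAt_inv hs0).smul_const y).const_add x
    have e1 := d1.hasFDerivAt.comp_hasDerivAt s l1
    have e2 := d2.hasFDerivAt.comp_hasDerivAt s l2
    have e3 := (e1.mul e2).const_mul (ω (‖y‖ ^ 2))
    rw [map_smul, smul_eq_mul, ← inner_gradient_left (𝕜 := ℝ) (f := g),
      ← inner_gradient_left (𝕜 := ℝ) (f := g)] at e3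
    exact e3
  have hcF : ∀ s ∈ Ioo (1 / 2 : ℝ) (2 + δ / r),
      ContinuousOn (Fn s) (closedBall (0 : E n) r) := by
    intro s hs
    have c0 : ContinuousOn (fun y : E n => ω (‖y‖ ^ 2)) (closedBall (0 : E n) r) := by fun_prop
    exact c0.mul ((hg.1.continuousOn.comp (by fun_prop)
      fun y hy => hbδ (hmem s hs y hy).1).mul (hg.1.continuousOn.comp (by fun_prop)
      fun y hy => hbδ (hmem s hs y hy).2))
  have hQ : ∀ s ∈ Icc (1 : ℝ) 2,
      HasDerivAt (fun s => ∫ y in closedBall (0 : E n) r, Fn s y) 0 s := by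
    intro s hs
    have hs0 : 0 < s := by linarith [hs.1]
    have hsI : s ∈ Ioo (1 / 2 : ℝ) (2 + δ / r) := ⟨by linarith [hs.1], by linarith [hs.2]⟩
    have hnh : Ioo (1 / 2 : ℝ) (2 + δ / r) ∈ 𝓝 s := Ioo_mem_nhds hsI.1 hsI.2
    have hs2 : s⁻¹ ≤ 2 := by
      rw [inv_le_comm₀ hs0 (by norm_num)]
      linarith [hs.1]
    have hsi : 0 < s⁻¹ := inv_pos.2 hs0
    have cy : ContinuousOn (fun y : E n => y) (closedBall (0 : E n) r) := continuousOn_id
    have c0 : ContinuousOn (fun y : E n => ω (‖y‖ ^ 2)) (closedBall (0 : E n) r) := by fun_prop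
    have c1 := kpr_cg hg hb hs0.le hs.2
    have c2 := kpr_cg hg hb hsi.le hs2
    have c3 := kpr_cG hΩ hg hb hs0.le hs.2
    have c4 := kpr_cG hΩ hg hb hsi.le hs2
    have cFd : ContinuousOn (Fd s) (closedBall (0 : E n) r) :=
      c0.mul (((ContinuousOn.inner (𝕜 := ℝ) c3 cy).mul c2).add
        (c1.mul (continuousOn_const.mul (ContinuousOn.inner (𝕜 := ℝ) c4 cy))))
    have hres := hasDerivAt_integral_of_dominated_loc_of_deriv_le
      (μ := volume.restrict (closedBall (0 : E n) r)) (F := Fn) (F' := Fd) (x₀ := s)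
      (bound := fun _ => Wb * (D * r * A + A * (4 * (D * r)))) hnh ?_ ?_ ?_ ?_ ?_ ?_
    · have h1 := hres.2
      have h2 : ∫ y in closedBall (0 : E n) r, Fd s y = 0 := by
        have k1 := kpr_AB hΩ hg hb hs0 hs.2 hsi hs2 hΨ hΨ0 (fun y => by
          have : gradient Ψ = fun y => ω (‖y‖ ^ 2) • y := funext hΨg
          rw [this]; fun_prop)
        have k2 := kpr_AB hΩ hg hb hsi hs2 hs0 hs.2 hΨ hΨ0 (fun y => by
          have : gradient Ψ = fun y => ω (‖y‖ ^ 2) • y := funext hΨg
          rw [this]; fun_prop)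
        have k3 : ∫ y in closedBall (0 : E n) r,
            Ψ y * ⟪gradient g (x + s⁻¹ • y), gradient g (x + s • y)⟫ =
            ∫ y in closedBall (0 : E n) r,
              Ψ y * ⟪gradient g (x + s • y), gradient g (x + s⁻¹ • y)⟫ := by
          congr 1
          funext y
          rw [real_inner_comm]
        rw [k3] at k2
        have i1 : IntegrableOn (fun y => g (x + s⁻¹ • y) *
            ⟪gradient g (x + s • y), gradient Ψ y⟫) (closedBall (0 : E n) r) := by
          simp only [hΨg]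
          exact (c2.mul (ContinuousOn.inner (𝕜 := ℝ) c3 (c0.smul cy))).integrableOn_compact hBc
        have i2 : IntegrableOn (fun y => (-(s ^ 2)⁻¹) * (g (x + s • y) *
            ⟪gradient g (x + s⁻¹ • y), gradient Ψ y⟫)) (closedBall (0 : E n) r) := by
          simp only [hΨg]
          exact (continuousOn_const.mul
            (c1.mul (ContinuousOn.inner (𝕜 := ℝ) c4 (c0.smul cy)))).integrableOn_compact hBc
        have k4 : ∫ y in closedBall (0 : E n) r, Fd s y =
            (∫ y in closedBall (0 : E n) r, g (x + s⁻¹ • y) *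
              ⟪gradient g (x + s • y), gradient Ψ y⟫) + (-(s ^ 2)⁻¹) *
            ∫ y in closedBall (0 : E n) r, g (x + s • y) *
              ⟪gradient g (x + s⁻¹ • y), gradient Ψ y⟫ := by
          rw [← integral_const_mul, ← integral_add i1 i2]
          congr 1
          funext y
          simp only [hFd, hΨg, real_inner_smul_right]
          ring
        rw [k4]
        have k5 := eq_neg_of_add_eq_zero_left k1
        have k6 := eq_neg_of_add_eq_zero_left k2
        rw [k5, k6]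
        field_simp
        ring
      rwa [h2] at h1
    · filter_upwards [hnh] with t ht
      exact (hcF t ht).aestronglyMeasurable isClosed_closedBall.measurableSet
    · exact (hcF s hsI).integrableOn_compact hBc
    · exact cFd.aestronglyMeasurable isClosed_closedBall.measurableSet
    · refine (ae_restrict_mem isClosed_closedBall.measurableSet).mono ?_
      intro y hy t ht
      obtain ⟨m1, m2⟩ := hmem t ht y hy
      have hy' : ‖y‖ ≤ r := by rwa [mem_closedBall, dist_zero_right] at hy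
      have a1 := hA _ m1
      have a2 := hA _ m2
      have b1 := hD _ m1
      have b2 := hD _ m2
      have w := hWb y hy
      have A0 : 0 ≤ A := (norm_nonneg _).trans a1
      have D0 : 0 ≤ D := (norm_nonneg _).trans b1
      have W0 : 0 ≤ Wb := (norm_nonneg _).trans w
      have t0 : (0 : ℝ) < t := by linarith [ht.1]
      have e1 : ‖⟪gradient g (x + t • y), y⟫‖ ≤ D * r :=
        (norm_inner_le_norm _ _).trans (mul_le_mul b1 hy' (norm_nonneg _) D0)
      have e2 : ‖⟪gradient g (x + t⁻¹ • y), y⟫‖ ≤ D * r :=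
        (norm_inner_le_norm _ _).trans (mul_le_mul b2 hy' (norm_nonneg _) D0)
      have e3 : ‖-(t ^ 2)⁻¹‖ ≤ 4 := by
        rw [norm_neg, norm_inv, Real.norm_eq_abs, abs_of_pos (by positivity),
          inv_le_comm₀ (by positivity) (by norm_num)]
        nlinarith [ht.1]
      rw [norm_mul]
      refine mul_le_mul w ?_ (norm_nonneg _) W0
      refine (norm_add_le _ _).trans (add_le_add ?_ ?_)
      · rw [norm_mul]
        exact mul_le_mul e1 a2 (norm_nonneg _) (by positivity)
      · rw [norm_mul, norm_mul]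
        exact mul_le_mul a1 (mul_le_mul e3 e2 (norm_nonneg _) (by norm_num))
          (by positivity) A0
    · exact continuousOn_const.integrableOn_compact hBc
    · refine (ae_restrict_mem isClosed_closedBall.measurableSet).mono ?_
      intro y hy t ht
      exact hder t ht y hy
  have hconst := constant_of_has_deriv_right_zero
    (fun s hs => (hQ s hs).continuousAt.continuousWithinAt)
    (fun s hs => (hQ s (Ico_subset_Icc_self hs)).hasDerivWithinAt) 2 ⟨by norm_num, le_refl _⟩
  exact hconst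

end kpr

open Classical in
/-- KPR: the product identity. -/
theorem p_KPR : T_KPR := by
  intro n Ω g x r hΩ hg hr hb
  have hBm : MeasurableSet (closedBall (0 : E n) r) := isClosed_closedBall.measurableSet
  set ω : ℕ → ℝ → ℝ := fun k s => Real.smoothTransition ((k : ℝ) * (r ^ 2 - s)) with hω
  have hωc : ∀ k, Continuous (ω k) := fun k =>
    Real.smoothTransition.continuous.comp (by fun_prop)
  have hω0 : ∀ k s, r ^ 2 ≤ s → ω k s = 0 := by
    intro k s hs
    refine Real.smoothTransition.zero_of_nonpos ?_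
    exact mul_nonpos_of_nonneg_of_nonpos (Nat.cast_nonneg k) (by linarith)
  have hω1 : ∀ s, s < r ^ 2 → Tendsto (fun k => ω k s) atTop (𝓝 1) := by
    intro s hs
    obtain ⟨m, hm⟩ := exists_nat_ge (r ^ 2 - s)⁻¹
    refine tendsto_const_nhds.congr' ?_
    filter_upwards [eventually_ge_atTop m] with k hk
    refine (Real.smoothTransition.one_of_one_le ?_).symm
    have h1 : 0 < r ^ 2 - s := by linarith
    have h2 : (r ^ 2 - s)⁻¹ ≤ k := hm.trans (by exact_mod_cast hk)
    calc (1 : ℝ) = (r ^ 2 - s)⁻¹ * (r ^ 2 - s) := (inv_mul_cancel₀ h1.ne').symm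
      _ ≤ k * (r ^ 2 - s) := mul_le_mul_of_nonneg_right h2 h1.le
  have lim : ∀ a t : ℝ, 0 ≤ a → a ≤ 2 → 0 ≤ t → t ≤ 2 →
      Tendsto (fun k => ∫ y in closedBall (0 : E n) r,
        ω k (‖y‖ ^ 2) * (g (x + a • y) * g (x + t • y))) atTop
        (𝓝 (∫ y in ball (0 : E n) r, g (x + a • y) * g (x + t • y))) := by
    intro a t ha0 ha ht0 ht
    have hc : ContinuousOn (fun y => g (x + a • y) * g (x + t • y)) (closedBall (0 : E n) r) :=
      (kpr_cg hg hb ha0 ha).mul (kpr_cg hg hb ht0 ht)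
    have hi : IntegrableOn (fun y => g (x + a • y) * g (x + t • y)) (ball (0 : E n) r) :=
      (hc.integrableOn_compact (isCompact_closedBall 0 r)).mono_set ball_subset_closedBall
    have h1 : ∀ k, ∫ y in closedBall (0 : E n) r,
        ω k (‖y‖ ^ 2) * (g (x + a • y) * g (x + t • y)) = ∫ y in ball (0 : E n) r,
        ω k (‖y‖ ^ 2) * (g (x + a • y) * g (x + t • y)) := by
      intro k
      refine setIntegral_eq_of_subset_of_forall_sdiff_eq_zero hBm ball_subset_closedBall ?_
      intro y hy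
      have h2 : r ≤ ‖y‖ := by
        have := hy.2
        rwa [mem_ball, dist_zero_right, not_lt] at this
      rw [hω0 k _ (pow_le_pow_left₀ hr.le h2 2), zero_mul]
    simp only [h1]
    refine tendsto_integral_of_dominated_convergence
      (fun y => ‖g (x + a • y) * g (x + t • y)‖) ?_ hi.norm ?_ ?_
    · intro k
      refine AEStronglyMeasurable.mul ?_ hi.aestronglyMeasurable
      exact ((hωc k).comp (by fun_prop)).aestronglyMeasurable
    · intro k
      refine Eventually.of_forall fun y => ?_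
      rw [norm_mul]
      have h3 : ‖ω k (‖y‖ ^ 2)‖ ≤ 1 := by
        rw [Real.norm_eq_abs, abs_of_nonneg (Real.smoothTransition.nonneg _)]
        exact Real.smoothTransition.le_one _
      calc ‖ω k (‖y‖ ^ 2)‖ * ‖g (x + a • y) * g (x + t • y)‖
          ≤ 1 * ‖g (x + a • y) * g (x + t • y)‖ :=
            mul_le_mul_of_nonneg_right h3 (norm_nonneg _)
        _ = _ := one_mul _
    · refine (ae_restrict_mem measurableSet_ball).mono ?_
      intro y hy
      rw [mem_ball, dist_zero_right] at hy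
      have h4 := (hω1 (‖y‖ ^ 2) (pow_lt_pow_left₀ hy (norm_nonneg _) (by norm_num))).mul_const
        (g (x + a • y) * g (x + t • y))
      rwa [one_mul] at h4
  have L1 := lim 2 (2 : ℝ)⁻¹ (by norm_num) le_rfl (by norm_num) (by norm_num)
  have L2 := lim 1 (1 : ℝ)⁻¹ (by norm_num) (by norm_num) (by norm_num) (by norm_num)
  have h5 : ∀ k, _ := fun k => kpr_weight hΩ hg hr hb (hωc k) (hω0 k)
  simp only [h5] at L1
  have h6 := tendsto_nhds_unique L1 L2
  rw [one_div, h6]
  congr 1
  funext y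
  rw [inv_one, one_smul, sq]

end Pool.Agent.SCN
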