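import Pool.Agent.SCN.Targets

/-! # Strong comparison for `p`-harmonic functions, `p` near 2: target `KSC` -/

set_option autoImplicit false

open Set MeasureTheory Filter Topology Metric
open scoped RealInnerProductSpace

namespace Pool.Agent.SCN

open Pool.Agent.SCP (E PHarm V)

theorem ksc_cont {n : ℕ} {p R : ℝ} {x : E n} {u : E n → ℝ} (hu : PB p x R u) :
    ContinuousOn (gradient u) (closedBall x R) := by
  obtain ⟨Ω, hΩ, hs, hP⟩ := hu
  exact (SCP.TEST_.continuousOn_gradient hΩ hP.1).mono hs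

theorem ksc_int {n : ℕ} {p q R : ℝ} {x : E n} {u : E n → ℝ} (hu : PB p x R u) (hq : 0 ≤ q) :
    IntegrableOn (fun y => ‖gradient u y‖ ^ q) (ball x R) := by
  have h : ContinuousOn (fun y => ‖gradient u y‖ ^ q) (closedBall x R) :=
    (ksc_cont hu).norm.rpow_const (fun _ _ => Or.inr hq)
  exact (h.integrableOn_compact (isCompact_closedBall _ _)).mono_set ball_subset_closedBall

theorem ksc_mono {n : ℕ} {p R a b : ℝ} {x : E n} {u : E n → ℝ} (hu : PB p x R u) (hp : 0 ≤ p)
    (hab : a ≤ b) (hb : b ≤ R) : en p u x a ≤ en p u x b := by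
  unfold en
  refine setIntegral_mono_set ((ksc_int hu hp).mono_set (ball_subset_ball hb)) ?_ ?_
  · exact Eventually.of_forall fun y => Real.rpow_nonneg (norm_nonneg _) _
  · exact (ball_subset_ball hab).eventuallyLE

theorem ksc_en_nonneg {n : ℕ} (p r : ℝ) (x : E n) (u : E n → ℝ) : 0 ≤ en p u x r :=
  integral_nonneg fun _ => Real.rpow_nonneg (norm_nonneg _) _

theorem ksc_mg_nonneg {n : ℕ} {p r : ℝ} (hr : 0 < r) (x : E n) (u : E n → ℝ) :
    0 ≤ mg p u x r :=
  Real.rpow_nonneg (div_nonneg (ksc_en_nonneg p r x u) (by positivity)) _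

theorem ksc_mg_pow {n : ℕ} {p r : ℝ} {x : E n} {u : E n → ℝ} (hp : 0 < p) (hr : 0 < r) :
    mg p u x r ^ p * r ^ n = en p u x r := by
  have h0 : 0 ≤ en p u x r / r ^ n := div_nonneg (ksc_en_nonneg p r x u) (by positivity)
  unfold mg
  rw [← Real.rpow_mul h0, one_div_mul_cancel hp.ne', Real.rpow_one]
  field_simp

/-- `(a + b)^p ≤ 2^p (a^p + b^p)`. -/
theorem ksc_add_rpow {a b p : ℝ} (ha : 0 ≤ a) (hb : 0 ≤ b) (hp : 0 ≤ p) :
    (a + b) ^ p ≤ 2 ^ p * (a ^ p + b ^ p) := by
  have h1 : (a + b) ^ p ≤ (2 * max a b) ^ p := by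
    refine Real.rpow_le_rpow (by positivity) ?_ hp
    have h2 := le_max_left a b
    have h3 := le_max_right a b
    linarith
  refine h1.trans ?_
  rw [Real.mul_rpow (by norm_num) (le_max_of_le_left ha)]
  refine mul_le_mul_of_nonneg_left ?_ (by positivity)
  have ha' : 0 ≤ a ^ p := Real.rpow_nonneg ha _
  have hb' : 0 ≤ b ^ p := Real.rpow_nonneg hb _
  rcases le_total a b with h | h
  · rw [max_eq_right h]; linarith
  · rw [max_eq_left h]; linarith

theorem p_KSC (hMOM : T_MOM) (hDOM : T_DOM) (hKES : T_KES) : T_KSC := by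
  intro n m hn
  obtain ⟨lam, C₁, e₁, hlam, hlam1, hC₁, he₁, hM⟩ := hMOM n m hn
  obtain ⟨L, e₂, hL, he₂, hD⟩ := hDOM n m hn
  set L' : ℝ := max 1 L with hL'
  have hL'1 : 1 ≤ L' := le_max_left _ _
  set A₁ : ℝ := 8 * (1 + L' ^ 3) * 2 ^ m with hA₁
  set A₂ : ℝ := 2 ^ n * (C₁ * 2 ^ n) with hA₂
  have hA₁0 : 0 ≤ A₁ := by positivity
  have hA₂0 : 0 ≤ A₂ := by positivity
  obtain ⟨C₃, e₃, hC₃, he₃, hK⟩ := hKES n lam (A₁ + A₂) hn hlam hlam1 (by positivity)
  refine ⟨C₃, min (min e₁ e₂) (min e₃ (1 / 2)), hC₃, by positivity, ?_⟩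
  intro p hp u v x R hDbl hv huv hord
  have hp1 : |p - 2| < e₁ := hp.trans_le ((min_le_left _ _).trans (min_le_left _ _))
  have hp2 : |p - 2| < e₂ := hp.trans_le ((min_le_left _ _).trans (min_le_right _ _))
  have hp3 : |p - 2| < e₃ := hp.trans_le ((min_le_right _ _).trans (min_le_left _ _))
  have hp4 : |p - 2| < 1 / 2 := hp.trans_le ((min_le_right _ _).trans (min_le_right _ _))
  have hpa : 3 / 2 < p := by have := (abs_lt.1 hp4).1; linarith
  have hpb : p < 5 / 2 := by have := (abs_lt.1 hp4).2; linarith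
  have hp0 : 0 < p := by linarith
  obtain ⟨r₀, hr₀, hr₀D⟩ := hD p hp2 u v x R hDbl hv huv hord
  have hM' := hM p hp1 u x R hDbl
  obtain ⟨hR, hu5, hdbl⟩ := hDbl
  refine ⟨min (r₀ / 2) (R / 16), by positivity, ?_⟩
  intro r hr hrr
  have hr1 : 2 * r ≤ r₀ := by
    have := hrr.trans (min_le_left _ _); linarith
  have hr2 : 2 * r ≤ R / 8 := by
    have := hrr.trans (min_le_right _ _); linarith
  have h2r : 0 < 2 * r := by linarith
  obtain ⟨hd4, hpos⟩ := hdbl x (mem_closedBall_self hR.le) r hr (by linarith)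
  have hu : PB p x (4 * r) u := by
    obtain ⟨Ω, hΩ, hs, hP⟩ := hu5
    exact ⟨Ω, hΩ, (closedBall_subset_closedBall (by linarith)).trans hs, hP⟩
  have hv' : PB p x (4 * r) v := by
    obtain ⟨Ω, hΩ, hs, hP⟩ := hv
    exact ⟨Ω, hΩ, (closedBall_subset_closedBall (by linarith)).trans hs, hP⟩
  set S : ℝ := mg p u x r with hS
  set T : ℝ := mg p u x (2 * r) with hT
  have hS0 : 0 ≤ S := ksc_mg_nonneg hr x u
  have hSp : S ^ p * r ^ n = en p u x r := ksc_mg_pow hp0 hr
  have hSpos : 0 < S := by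
    rcases hS0.lt_or_eq with h | h
    · exact h
    · exfalso
      rw [← h, Real.zero_rpow hp0.ne', zero_mul] at hSp
      linarith
  have hT0 : 0 ≤ T := ksc_mg_nonneg h2r x u
  have hTp : T ^ p * (2 * r) ^ n = en p u x (2 * r) := ksc_mg_pow hp0 h2r
  have hen12 : en p u x r ≤ en p u x (2 * r) := ksc_mono hu hp0.le (by linarith) (by linarith)
  have hen24 : en p u x (2 * r) ≤ en p u x (4 * r) := ksc_mono hu hp0.le (by linarith) le_rfl
  have hTpos : 0 < T := by
    rcases hT0.lt_or_eq with h | h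
    · exact h
    · exfalso
      rw [← h, Real.zero_rpow hp0.ne', zero_mul] at hTp
      linarith
  have hrn : 0 < r ^ n := by positivity
  -- `S ≤ 2^n T`
  have hST : S ≤ 2 ^ n * T := by
    have h1 : S ^ p ≤ (2 ^ n * T) ^ p := by
      have h2 : S ^ p * r ^ n ≤ (2 ^ n * T ^ p) * r ^ n := by
        rw [hSp]
        refine hen12.trans ?_
        rw [← hTp, mul_pow]
        exact le_of_eq (by ring)
      have h3 : S ^ p ≤ 2 ^ n * T ^ p := le_of_mul_le_mul_right h2 hrn
      refine h3.trans ?_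
      rw [Real.mul_rpow (by positivity) hT0]
      refine mul_le_mul_of_nonneg_right ?_ (Real.rpow_nonneg hT0 _)
      have h4 : (1 : ℝ) ≤ 2 ^ n := one_le_pow₀ (by norm_num)
      calc (2 : ℝ) ^ n = ((2 : ℝ) ^ n) ^ (1 : ℝ) := (Real.rpow_one _).symm
        _ ≤ ((2 : ℝ) ^ n) ^ p := Real.rpow_le_rpow_of_exponent_le h4 (by linarith)
    exact (Real.rpow_le_rpow_iff hS0 (by positivity) hp0).1 h1
  -- energy of `v`
  have hvE : en p v x (2 * r) ≤ L' ^ 3 * en p u x (2 * r) := by
    have h1 : mg p v x (2 * r) ≤ L * T := hr₀D (2 * r) h2r hr1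
    have h2 : mg p v x (2 * r) ^ p ≤ (L * T) ^ p :=
      Real.rpow_le_rpow (ksc_mg_nonneg h2r x v) h1 hp0.le
    rw [Real.mul_rpow hL.le hT0] at h2
    have h3 : L ^ p ≤ L' ^ 3 := by
      calc L ^ p ≤ L' ^ p := Real.rpow_le_rpow hL.le (le_max_right _ _) hp0.le
        _ ≤ L' ^ (3 : ℝ) := Real.rpow_le_rpow_of_exponent_le hL'1 (by linarith)
        _ = L' ^ 3 := by norm_cast
    have h4 : mg p v x (2 * r) ^ p * (2 * r) ^ n = en p v x (2 * r) := ksc_mg_pow hp0 h2r
    rw [← h4, ← hTp]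
    have h5 : 0 ≤ T ^ p := Real.rpow_nonneg hT0 _
    have h6 : 0 < (2 * r) ^ n := by positivity
    calc mg p v x (2 * r) ^ p * (2 * r) ^ n ≤ (L ^ p * T ^ p) * (2 * r) ^ n :=
          mul_le_mul_of_nonneg_right h2 h6.le
      _ ≤ (L' ^ 3 * T ^ p) * (2 * r) ^ n :=
          mul_le_mul_of_nonneg_right (mul_le_mul_of_nonneg_right h3 h5) h6.le
      _ = L' ^ 3 * (T ^ p * (2 * r) ^ n) := by ring
  obtain ⟨hnull, hmi, hmb⟩ := hM' (2 * r) h2r hr2
  -- the function `σ`
  set σ : E n → ℝ := fun y => sg u v y / S with hσ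
  have hcu : ContinuousOn (gradient u) (closedBall x (2 * r)) :=
    (ksc_cont hu).mono (closedBall_subset_closedBall (by linarith))
  have hcv : ContinuousOn (gradient v) (closedBall x (2 * r)) :=
    (ksc_cont hv').mono (closedBall_subset_closedBall (by linarith))
  have hcσ : ContinuousOn σ (closedBall x (2 * r)) :=
    (hcu.norm.add hcv.norm).div_const S
  have hσ0 : ∀ y, 0 ≤ σ y := fun y => by
    show 0 ≤ (‖gradient u y‖ + ‖gradient v y‖) / S
    positivity
  have hmeas : AEStronglyMeasurable σ (volume.restrict (ball x (2 * r))) :=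
    (hcσ.mono ball_subset_closedBall).aestronglyMeasurable measurableSet_ball
  have hae : ∀ᵐ y ∂(volume.restrict (ball x (2 * r))), gradient u y ≠ 0 := by
    rw [ae_restrict_iff' measurableSet_ball, ae_iff]
    refine measure_mono_null ?_ hnull
    intro y hy
    simp only [mem_ofPred_eq, Classical.not_imp, not_not] at hy
    exact ⟨hy.1, hy.2⟩
  have hσpos : ∀ᵐ y ∂(volume.restrict (ball x (2 * r))), 0 < σ y := by
    filter_upwards [hae] with y hy
    show 0 < (‖gradient u y‖ + ‖gradient v y‖) / S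
    have := norm_pos_iff.2 hy
    positivity
  -- positive power
  have hσp : IntegrableOn (fun y => σ y ^ p) (ball x (2 * r)) :=
    ((hcσ.rpow_const fun _ _ => Or.inr hp0.le).integrableOn_compact
      (isCompact_closedBall _ _)).mono_set ball_subset_closedBall
  have hI : ∫ y in ball x (2 * r), σ y ^ p ≤ A₁ * r ^ n := by
    have hiu : IntegrableOn (fun y => ‖gradient u y‖ ^ p) (ball x (2 * r)) :=
      (ksc_int hu hp0.le).mono_set (ball_subset_ball (by linarith))
    have hiv : IntegrableOn (fun y => ‖gradient v y‖ ^ p) (ball x (2 * r)) :=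
      (ksc_int hv' hp0.le).mono_set (ball_subset_ball (by linarith))
    have h1 : ∫ y in ball x (2 * r), σ y ^ p ≤ ∫ y in ball x (2 * r),
        (2 ^ p / S ^ p) * (‖gradient u y‖ ^ p + ‖gradient v y‖ ^ p) := by
      refine integral_mono hσp ((hiu.add hiv).const_mul _) fun y => ?_
      show ((‖gradient u y‖ + ‖gradient v y‖) / S) ^ p ≤ _
      rw [Real.div_rpow (by positivity) hS0, div_mul_eq_mul_div]
      exact div_le_div_of_nonneg_right (ksc_add_rpow (norm_nonneg _) (norm_nonneg _) hp0.le)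
        (Real.rpow_nonneg hS0 _)
    have h2 : ∫ y in ball x (2 * r),
        (2 ^ p / S ^ p) * (‖gradient u y‖ ^ p + ‖gradient v y‖ ^ p) =
        (2 ^ p / S ^ p) * (en p u x (2 * r) + en p v x (2 * r)) := by
      rw [integral_const_mul, integral_add hiu hiv]
      rfl
    rw [h2] at h1
    refine h1.trans ?_
    have hSp0 : 0 < S ^ p := Real.rpow_pos_of_pos hSpos _
    have h3 : en p u x (2 * r) + en p v x (2 * r) ≤ (1 + L' ^ 3) * (2 ^ m * (S ^ p * r ^ n)) := by
      have h4 : en p u x (2 * r) ≤ 2 ^ m * (S ^ p * r ^ n) := by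
        rw [hSp]; exact hen24.trans hd4
      calc en p u x (2 * r) + en p v x (2 * r) ≤
            en p u x (2 * r) + L' ^ 3 * en p u x (2 * r) := by linarith
        _ = (1 + L' ^ 3) * en p u x (2 * r) := by ring
        _ ≤ _ := mul_le_mul_of_nonneg_left h4 (by positivity)
    have h5 : (2 : ℝ) ^ p ≤ 8 := by
      calc (2 : ℝ) ^ p ≤ 2 ^ (3 : ℝ) :=
            Real.rpow_le_rpow_of_exponent_le (by norm_num) (by linarith)
        _ = 8 := by norm_num
    have h2p : (0 : ℝ) < 2 ^ p := by positivity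
    calc (2 ^ p / S ^ p) * (en p u x (2 * r) + en p v x (2 * r)) ≤
          (2 ^ p / S ^ p) * ((1 + L' ^ 3) * (2 ^ m * (S ^ p * r ^ n))) :=
          mul_le_mul_of_nonneg_left h3 (by positivity)
      _ = 2 ^ p * ((1 + L' ^ 3) * 2 ^ m * r ^ n) := by field_simp
      _ ≤ 8 * ((1 + L' ^ 3) * 2 ^ m * r ^ n) :=
          mul_le_mul_of_nonneg_right h5 (by positivity)
      _ = A₁ * r ^ n := by rw [hA₁]; ring
  -- negative power
  have hpt : ∀ᵐ y ∂(volume.restrict (ball x (2 * r))),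
      σ y ^ (-lam) ≤ 2 ^ n * (T / ‖gradient u y‖) ^ lam := by
    filter_upwards [hae] with y hy
    have hgy : 0 < ‖gradient u y‖ := norm_pos_iff.2 hy
    have h1 : ‖gradient u y‖ / S ≤ σ y := by
      show ‖gradient u y‖ / S ≤ (‖gradient u y‖ + ‖gradient v y‖) / S
      exact div_le_div_of_nonneg_right (by linarith [norm_nonneg (gradient v y)]) hS0
    have h2 : 0 < ‖gradient u y‖ / S := by positivity
    calc σ y ^ (-lam) ≤ (‖gradient u y‖ / S) ^ (-lam) :=
          Real.rpow_le_rpow_of_nonpos h2 h1 (by linarith)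
      _ = (S / ‖gradient u y‖) ^ lam := by
          rw [Real.rpow_neg h2.le, ← Real.inv_rpow h2.le, inv_div]
      _ ≤ (2 ^ n * (T / ‖gradient u y‖)) ^ lam := by
          refine Real.rpow_le_rpow (by positivity) ?_ hlam.le
          rw [← mul_div_assoc]
          exact div_le_div_of_nonneg_right hST hgy.le
      _ = (2 ^ n) ^ lam * (T / ‖gradient u y‖) ^ lam :=
          Real.mul_rpow (by positivity) (by positivity)
      _ ≤ 2 ^ n * (T / ‖gradient u y‖) ^ lam := by
          refine mul_le_mul_of_nonneg_right ?_ (Real.rpow_nonneg (by positivity) _)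
          have h4 : (1 : ℝ) ≤ 2 ^ n := one_le_pow₀ (by norm_num)
          calc ((2 : ℝ) ^ n) ^ lam ≤ ((2 : ℝ) ^ n) ^ (1 : ℝ) :=
                Real.rpow_le_rpow_of_exponent_le h4 hlam1
            _ = 2 ^ n := Real.rpow_one _
  have hmeasn : AEStronglyMeasurable (fun y => σ y ^ (-lam))
      (volume.restrict (ball x (2 * r))) :=
    (hmeas.aemeasurable.pow_const (-lam)).aestronglyMeasurable
  have hσn : IntegrableOn (fun y => σ y ^ (-lam)) (ball x (2 * r)) := by
    refine Integrable.mono' (hmi.const_mul (2 ^ n)) hmeasn ?_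
    filter_upwards [hpt] with y hy
    rw [Real.norm_eq_abs, abs_of_nonneg (Real.rpow_nonneg (hσ0 y) _)]
    exact hy
  have hJ : ∫ y in ball x (2 * r), σ y ^ (-lam) ≤ A₂ * r ^ n := by
    calc ∫ y in ball x (2 * r), σ y ^ (-lam) ≤
          ∫ y in ball x (2 * r), 2 ^ n * (T / ‖gradient u y‖) ^ lam :=
          integral_mono_ae hσn (hmi.const_mul (2 ^ n)) hpt
      _ = 2 ^ n * ∫ y in ball x (2 * r), (T / ‖gradient u y‖) ^ lam := integral_const_mul _ _
      _ ≤ 2 ^ n * (C₁ * (2 * r) ^ n) := mul_le_mul_of_nonneg_left hmb (by positivity)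
      _ = A₂ * r ^ n := by rw [hA₂, mul_pow]; ring
  obtain ⟨k1, k2, k3, k4, k5⟩ := hK p hp3 σ x r hr hmeas hσpos hσp
    (hI.trans (mul_le_mul_of_nonneg_right (by linarith) hrn.le)) hσn
    (hJ.trans (mul_le_mul_of_nonneg_right (by linarith) hrn.le))
  refine ⟨S, hSpos, ?_, k1, k2, k3, k4, k5⟩
  refine measure_mono_null ?_ hnull
  rintro y ⟨hy1, hy2⟩
  refine ⟨ball_subset_ball (by linarith) hy1, ?_⟩
  have h1 : ‖gradient u y‖ + ‖gradient v y‖ = 0 := hy2
  have h2 := norm_nonneg (gradient u y)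
  have h3 := norm_nonneg (gradient v y)
  exact norm_eq_zero.1 (by linarith)

end Pool.Agent.SCN
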