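import Pool.Agent.SCN.Targets

/-! # Strong comparison for `p`-harmonic functions, `p` near 2: the target LPC -/

set_option autoImplicit false

open Set MeasureTheory Filter Topology Metric
open scoped RealInnerProductSpace

namespace Pool.Agent.SCN

open Pool.Agent.SCP (E PHarm V)

variable {n : ℕ}

/-- The elementary inequality for powers. -/
theorem lpc_pow {p a b c : ℝ} (hp : 1 ≤ p) (hp3 : p ≤ 3) (hb : 0 ≤ b) (hc : 0 ≤ c)
    (h : |a| ≤ b + c) : |a| ^ p ≤ 4 * (b ^ p + c ^ p) := by
  have h0 : 0 ≤ p := by linarith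
  have h1 : |a| ^ p ≤ (b + c) ^ p := Real.rpow_le_rpow (abs_nonneg a) h h0
  have h4 : (b + c) ^ p ≤ 2 ^ (p - 1) * (b ^ p + c ^ p) := by
    lift b to NNReal using hb
    lift c to NNReal using hc
    exact_mod_cast NNReal.rpow_add_le_mul_rpow_add_rpow b c hp
  have h5 : (2 : ℝ) ^ (p - 1) ≤ 2 ^ (2 : ℝ) :=
    Real.rpow_le_rpow_of_exponent_le (by norm_num) (by linarith)
  have h6 : (2 : ℝ) ^ (2 : ℝ) = 4 := by norm_num
  have h7 : 0 ≤ b ^ p + c ^ p := add_nonneg (Real.rpow_nonneg hb p) (Real.rpow_nonneg hc p)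
  calc |a| ^ p ≤ (b + c) ^ p := h1
    _ ≤ 2 ^ (p - 1) * (b ^ p + c ^ p) := h4
    _ ≤ 4 * (b ^ p + c ^ p) := by
        rw [h6] at h5
        exact mul_le_mul_of_nonneg_right h5 h7

/-- The kernel is nonnegative. -/
theorem lpc_nn {φ Φ : E n → ℝ} (hK : Ker φ Φ) (y : E n) : 0 ≤ φ y := by
  rcases lt_or_ge ‖y‖ 1 with h | h
  · exact (hK.pos y h).le
  · exact (hK.supp y h).ge

/-- The kernel is bounded. -/
theorem lpc_bdd {φ Φ : E n → ℝ} (hK : Ker φ Φ) : ∃ M : ℝ, 0 < M ∧ ∀ y, φ y ≤ M := by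
  obtain ⟨M, hM⟩ := (isCompact_closedBall (0 : E n) 1).exists_bound_of_continuousOn
    (hK.smooth.continuous.continuousOn)
  refine ⟨|M| + 1, by positivity, fun y => ?_⟩
  rcases lt_or_ge ‖y‖ 1 with h | h
  · have h1 := hM y (by rw [mem_closedBall_zero_iff]; exact h.le)
    have h2 : φ y ≤ ‖φ y‖ := Real.le_norm_self _
    have h3 := le_abs_self M
    linarith
  · rw [hK.supp y h]; positivity

/-- The integrand of the average is continuous. -/
theorem lpc_cont {φ Φ : E n → ℝ} (hK : Ker φ Φ) {Ω : Set (E n)} (hΩ : IsOpen Ω) {f : E n → ℝ}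
    (hf : ContinuousOn f Ω) {S : Set (E n)} {d : ℝ}
    (hS : ∀ x ∈ S, ∀ y : E n, ‖y‖ ≤ 1 → x + d • y ∈ Ω) :
    ContinuousOn (Function.uncurry fun (x y : E n) => φ y * f (x + d • y)) (S ×ˢ univ) := by
  rintro ⟨x, y⟩ ⟨hx, -⟩
  simp only at hx
  apply ContinuousAt.continuousWithinAt
  rcases le_or_gt ‖y‖ 1 with h | h
  · have h1 : ContinuousAt f (x + d • y) := hf.continuousAt (hΩ.mem_nhds (hS x hx y h))
    have h2 : ContinuousAt (fun q : E n × E n => q.1 + d • q.2) (x, y) := by fun_prop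
    have h3 : ContinuousAt (fun q : E n × E n => f (q.1 + d • q.2)) (x, y) :=
      ContinuousAt.comp (f := fun q : E n × E n => q.1 + d • q.2) (g := f) h1 h2
    have h4 : ContinuousAt (fun q : E n × E n => φ q.2) (x, y) :=
      (hK.smooth.continuous.comp continuous_snd).continuousAt
    exact h4.mul h3
  · have h1 : ∀ᶠ q : E n × E n in 𝓝 (x, y), 1 < ‖q.2‖ :=
      (continuous_snd.norm.continuousAt (x := (x, y))).eventually (lt_mem_nhds h)
    refine ContinuousAt.congr (f := fun _ => (0 : ℝ)) continuousAt_const ?_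
    filter_upwards [h1] with q hq
    simp only [Function.uncurry]
    rw [hK.supp q.2 hq.le, zero_mul]

/-- The average is continuous. -/
theorem lpc_cv {φ Φ : E n → ℝ} (hK : Ker φ Φ) {Ω : Set (E n)} (hΩ : IsOpen Ω) {f : E n → ℝ}
    (hf : ContinuousOn f Ω) {S : Set (E n)} {d : ℝ}
    (hS : ∀ x ∈ S, ∀ y : E n, ‖y‖ ≤ 1 → x + d • y ∈ Ω) : ContinuousOn (cv φ d f) S := by
  have h := continuousOn_integral_of_compact_support (μ := (volume : Measure (E n)))
    (isCompact_closedBall (0 : E n) 1) (lpc_cont hK hΩ hf hS) (by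
      intro x y _ hy
      rw [mem_closedBall_zero_iff, not_le] at hy
      rw [hK.supp y hy.le, zero_mul])
  exact h

/-- The integrand of the average is integrable. -/
theorem lpc_int {φ Φ : E n → ℝ} (hK : Ker φ Φ) {f : E n → ℝ} {x : E n} {d : ℝ} (hd : 0 ≤ d)
    (hf : ContinuousOn f (closedBall x d)) : Integrable fun y => φ y * f (x + d • y) := by
  rw [← integrableOn_iff_integrable_of_support_subset (s := closedBall (0 : E n) 1)]
  · refine ContinuousOn.integrableOn_compact (isCompact_closedBall _ _) ?_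
    refine hK.smooth.continuous.continuousOn.mul ?_
    refine hf.comp (by fun_prop) ?_
    intro y hy
    rw [mem_closedBall_zero_iff] at hy
    rw [mem_closedBall, dist_eq_norm, add_sub_cancel_left, norm_smul, Real.norm_of_nonneg hd]
    nlinarith
  · intro y hy
    rw [mem_closedBall_zero_iff]
    by_contra h
    rw [not_le] at h
    apply hy
    simp only
    rw [hK.supp y h.le, zero_mul]

/-- The bound of the average by the `L¹` norm. -/
theorem lpc_avg {φ Φ : E n → ℝ} (hK : Ker φ Φ) {M : ℝ} (hM : ∀ y, φ y ≤ M) (hM0 : 0 < M)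
    {f : E n → ℝ} (hf : ContinuousOn f (closedBall (0 : E n) (15 / 4))) {x : E n} {d : ℝ}
    (hx : x ∈ ball (0 : E n) 3) (hd : 0 < d) (hd4 : d ≤ 1 / 4) :
    |∫ y, φ y * f (x + d • y)| ≤ M * (d ^ n)⁻¹ * ∫ z in ball (0 : E n) (15 / 4), |f z| := by
  set G : E n → ℝ := (ball (0 : E n) (15 / 4)).indicator fun z => |f z| with hG
  have hG0 : ∀ z, 0 ≤ G z := fun z => indicator_nonneg (fun z _ => abs_nonneg (f z)) z
  have hGi : Integrable G := by
    rw [hG, integrable_indicator_iff measurableSet_ball]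
    exact ((hf.abs).integrableOn_compact (isCompact_closedBall _ _)).mono_set
      ball_subset_closedBall
  have h1 : Integrable fun y => G (x + d • y) := by
    have h2 : Integrable fun y => G (x + y) := hGi.comp_add_left x
    exact h2.comp_smul hd.ne'
  have h2 : ∫ y, G (x + d • y) = (d ^ n)⁻¹ * ∫ z, G z := by
    have h3 := Measure.integral_comp_smul (volume : Measure (E n)) (fun y => G (x + y)) d
    rw [integral_add_left_eq_self] at h3
    rw [h3, finrank_euclideanSpace, Fintype.card_fin, abs_of_nonneg (by positivity), smul_eq_mul]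
  have h3 : ‖∫ y, φ y * f (x + d • y)‖ ≤ ∫ y, M * G (x + d • y) := by
    refine norm_integral_le_of_norm_le (h1.const_mul M) (Eventually.of_forall fun y => ?_)
    rcases lt_or_ge ‖y‖ 1 with h | h
    · have h4 : x + d • y ∈ ball (0 : E n) (15 / 4) := by
        rw [mem_ball_zero_iff] at hx ⊢
        calc ‖x + d • y‖ ≤ ‖x‖ + ‖d • y‖ := norm_add_le _ _
          _ = ‖x‖ + d * ‖y‖ := by rw [norm_smul, Real.norm_of_nonneg hd.le]
          _ < 15 / 4 := by nlinarith [norm_nonneg y]
      have h5 : G (x + d • y) = |f (x + d • y)| := by rw [hG, indicator_of_mem h4]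
      rw [h5, Real.norm_eq_abs, abs_mul, abs_of_nonneg (lpc_nn hK y)]
      exact mul_le_mul_of_nonneg_right (hM y) (abs_nonneg _)
    · rw [hK.supp y h, zero_mul, norm_zero]
      exact mul_nonneg hM0.le (hG0 _)
  rw [Real.norm_eq_abs, integral_const_mul, h2, hG, integral_indicator measurableSet_ball] at h3
  rw [mul_assoc]
  exact h3

/-- The inequality for one function. -/
theorem lpc_one {φ Φ : E n → ℝ} (hK : Ker φ Φ) (hL : T_LPK) {M : ℝ} (hM : ∀ y, φ y ≤ M)
    (hM0 : 0 < M) {p c : ℝ} {u h : E n → ℝ} (hp : 1 ≤ p) (hp3 : p ≤ 3) (hu : PB p 0 4 u)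
    (he : en p u 0 4 ≤ 1) (hh : ContinuousOn h (closedBall (0 : E n) (15 / 4)))
    (hc : ∀ d : ℝ, 0 ≤ d → d ≤ 1 / 4 → ∀ x ∈ ball (0 : E n) (7 / 2), cv φ d h x = h x)
    {d : ℝ} (hd : 0 < d) (hd4 : d ≤ 1 / 4) :
    ∫ x in ball (0 : E n) 3, |u x - c - h x| ^ p ≤ 4 * d ^ p + 4 *
      ((M * (d ^ n)⁻¹ * ∫ x in ball (0 : E n) (15 / 4), |u x - c - h x|) ^ p *
        (volume (ball (0 : E n) 3)).toReal) := by
  obtain ⟨Ω, hΩ, hsub, hPH⟩ := hu
  have hp0 : 0 ≤ p := by linarith
  have hlk := hL n φ Φ hK p Ω u hp hΩ hPH.1 hsub d hd.le hd4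
  set B : ℝ := M * (d ^ n)⁻¹ * ∫ x in ball (0 : E n) (15 / 4), |u x - c - h x| with hB
  have hB0 : 0 ≤ B := by
    have : 0 ≤ ∫ x in ball (0 : E n) (15 / 4), |u x - c - h x| :=
      integral_nonneg fun x => abs_nonneg _
    positivity
  have huc : ContinuousOn u Ω := hPH.1.continuousOn
  have hu4 : ContinuousOn u (closedBall (0 : E n) 4) := huc.mono hsub
  have hu15 : ContinuousOn u (closedBall (0 : E n) (15 / 4)) :=
    hu4.mono (closedBall_subset_closedBall (by norm_num))
  have hg : ContinuousOn (fun x => u x - c - h x) (closedBall (0 : E n) (15 / 4)) :=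
    (hu15.sub continuousOn_const).sub hh
  have hcv : ContinuousOn (cv φ d u) (closedBall (0 : E n) (15 / 4)) := by
    refine lpc_cv hK hΩ huc ?_
    intro x hx y hy
    apply hsub
    rw [mem_closedBall_zero_iff] at hx ⊢
    calc ‖x + d • y‖ ≤ ‖x‖ + ‖d • y‖ := norm_add_le _ _
      _ = ‖x‖ + d * ‖y‖ := by rw [norm_smul, Real.norm_of_nonneg hd.le]
      _ ≤ 4 := by nlinarith [norm_nonneg y]
  have hcp : ContinuousOn (fun x => |u x - cv φ d u x| ^ p) (closedBall (0 : E n) (15 / 4)) :=
    (hu15.sub hcv).abs.rpow_const fun x _ => Or.inr hp0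
  have hi15 : IntegrableOn (fun x => |u x - cv φ d u x| ^ p) (ball (0 : E n) (15 / 4)) :=
    (hcp.integrableOn_compact (isCompact_closedBall _ _)).mono_set ball_subset_closedBall
  have hi3 : IntegrableOn (fun x => |u x - cv φ d u x| ^ p) (ball (0 : E n) 3) :=
    hi15.mono_set (ball_subset_ball (by norm_num))
  have hk : IntegrableOn (fun _ : E n => B ^ p) (ball (0 : E n) 3) :=
    integrableOn_const measure_ball_lt_top.ne
  have hpt : ∀ x ∈ ball (0 : E n) 3, |u x - c - h x| ≤ |u x - cv φ d u x| + B := by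
    intro x hx
    have hx' : x ∈ ball (0 : E n) (7 / 2) := ball_subset_ball (by norm_num) hx
    have hxd : closedBall x d ⊆ closedBall (0 : E n) (15 / 4) := by
      intro y hy
      rw [mem_closedBall, dist_eq_norm] at hy
      rw [mem_ball_zero_iff] at hx
      rw [mem_closedBall_zero_iff]
      have : ‖y‖ ≤ ‖y - x‖ + ‖x‖ := by
        have := norm_add_le (y - x) x
        rwa [sub_add_cancel] at this
      linarith
    have i1 := lpc_int hK hd.le (hu15.mono hxd)
    have i2 := lpc_int hK hd.le (hh.mono hxd)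
    have i3 : Integrable fun y => φ y * c := by
      have := lpc_int hK (x := x) hd.le (continuousOn_const (c := c) (s := closedBall x d))
      exact this
    have e1 : ∫ y, φ y * (u (x + d • y) - c - h (x + d • y)) = cv φ d u x - c - h x := by
      have e2 : ∫ y, φ y * c = c := by rw [integral_mul_const, hK.one, one_mul]
      have e3 : (fun y => φ y * (u (x + d • y) - c - h (x + d • y))) =
          fun y => φ y * u (x + d • y) - φ y * c - φ y * h (x + d • y) := by
        funext y; ring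
      have e6 := integral_sub (i1.sub i3) i2
      have e7 := integral_sub i1 i3
      simp only [Pi.sub_apply] at e6
      rw [e3, e6, e7, e2]
      have e4 : ∫ y, φ y * h (x + d • y) = h x := hc d hd.le hd4 x hx'
      rw [e4]
      rfl
    have e5 := lpc_avg hK hM hM0 hg hx hd hd4
    rw [e1] at e5
    calc |u x - c - h x| = |(u x - cv φ d u x) + (cv φ d u x - c - h x)| := by
          congr 1; ring
      _ ≤ |u x - cv φ d u x| + |cv φ d u x - c - h x| := abs_add_le _ _
      _ ≤ |u x - cv φ d u x| + B := by linarith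
  have hV : ∫ x in ball (0 : E n) 3, B ^ p = B ^ p * (volume (ball (0 : E n) 3)).toReal := by
    rw [setIntegral_const, smul_eq_mul, mul_comm]
    rfl
  have hmain : ∫ x in ball (0 : E n) 3, |u x - c - h x| ^ p ≤
      ∫ x in ball (0 : E n) 3, 4 * (|u x - cv φ d u x| ^ p + B ^ p) := by
    refine setIntegral_mono_on ?_ ((hi3.add hk).const_mul 4) measurableSet_ball ?_
    · have : ContinuousOn (fun x => |u x - c - h x| ^ p) (closedBall (0 : E n) (15 / 4)) :=
        hg.abs.rpow_const fun x _ => Or.inr hp0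
      exact (this.integrableOn_compact (isCompact_closedBall _ _)).mono_set
        (ball_subset_closedBall.trans (closedBall_subset_closedBall (by norm_num)))
    · intro x hx
      exact lpc_pow hp hp3 (abs_nonneg _) hB0 (hpt x hx)
  have hsum : ∫ x in ball (0 : E n) 3, 4 * (|u x - cv φ d u x| ^ p + B ^ p) =
      4 * (∫ x in ball (0 : E n) 3, |u x - cv φ d u x| ^ p) +
        4 * (B ^ p * (volume (ball (0 : E n) 3)).toReal) := by
    rw [integral_const_mul, integral_add hi3 hk, hV, mul_add]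
  have hmono : ∫ x in ball (0 : E n) 3, |u x - cv φ d u x| ^ p ≤
      ∫ x in ball (0 : E n) (15 / 4), |u x - cv φ d u x| ^ p := by
    refine setIntegral_mono_set hi15 (Eventually.of_forall fun x => ?_)
      (ball_subset_ball (by norm_num)).eventuallyLE
    exact Real.rpow_nonneg (abs_nonneg _) p
  have hen : ∫ x in ball (0 : E n) 4, ‖gradient u x‖ ^ p ≤ 1 := he
  have hdp : 0 ≤ d ^ p := Real.rpow_nonneg hd.le p
  have hfin : ∫ x in ball (0 : E n) 3, |u x - cv φ d u x| ^ p ≤ d ^ p := by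
    refine hmono.trans (hlk.trans ?_)
    nlinarith
  linarith

/-- **LPC**. -/
theorem p_LPC (hL : T_LPK) : T_LPC := by
  intro n φ Φ hK p u c h hp hu he hh hc ht
  obtain ⟨M, hM0, hM⟩ := lpc_bdd hK
  set v : ℝ := (volume (ball (0 : E n) 3)).toReal with hv
  have hv0 : 0 ≤ v := ENNReal.toReal_nonneg
  have hp1 : ∀ᶠ j in atTop, 1 < p j := hp.eventually (lt_mem_nhds (by norm_num))
  have hp3 : ∀ᶠ j in atTop, p j < 3 := hp.eventually (gt_mem_nhds (by norm_num))
  rw [Metric.tendsto_nhds]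
  intro ε hε
  set d : ℝ := min (1 / 4) (ε / 16) with hd
  have hd0 : 0 < d := lt_min (by norm_num) (by positivity)
  have hd4 : d ≤ 1 / 4 := min_le_left _ _
  have hdε : d ≤ ε / 16 := min_le_right _ _
  have hB : Tendsto (fun j => M * (d ^ n)⁻¹ *
      ∫ x in ball (0 : E n) (15 / 4), |u j x - c j - h x|) atTop (𝓝 0) := by
    have := ht.const_mul (M * (d ^ n)⁻¹)
    rwa [mul_zero] at this
  have hB1 := hB.eventually (gt_mem_nhds (show (0 : ℝ) < 1 by norm_num))
  have hB2 : ∀ᶠ j in atTop, 4 * (M * (d ^ n)⁻¹ *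
      (∫ x in ball (0 : E n) (15 / 4), |u j x - c j - h x|) * v) < ε / 2 := by
    have h1 := (hB.mul_const v).const_mul 4
    rw [zero_mul, mul_zero] at h1
    exact h1.eventually (gt_mem_nhds (by positivity))
  filter_upwards [hp1, hp3, hB1, hB2] with j h1 h3 hb1 hb2
  have hone := lpc_one (c := c j) hK hL hM hM0 h1.le h3.le (hu j) (he j) hh hc hd0 hd4
  set B : ℝ := M * (d ^ n)⁻¹ * ∫ x in ball (0 : E n) (15 / 4), |u j x - c j - h x| with hBd
  have hB0 : 0 ≤ B := by
    have : 0 ≤ ∫ x in ball (0 : E n) (15 / 4), |u j x - c j - h x| :=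
      integral_nonneg fun x => abs_nonneg _
    positivity
  have hBp : B ^ p j ≤ B := by
    rcases hB0.eq_or_lt with h0 | h0
    · rw [← h0, Real.zero_rpow (by linarith)]
    · have := Real.rpow_le_rpow_of_exponent_ge h0 hb1.le h1.le
      rwa [Real.rpow_one] at this
  have hdp : d ^ p j ≤ d := by
    have := Real.rpow_le_rpow_of_exponent_ge hd0 (by linarith) h1.le
    rwa [Real.rpow_one] at this
  have hnn : 0 ≤ ∫ x in ball (0 : E n) 3, |u j x - c j - h x| ^ p j :=
    integral_nonneg fun x => Real.rpow_nonneg (abs_nonneg _) _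
  rw [Real.dist_eq, sub_zero, abs_of_nonneg hnn]
  have hBv : B ^ p j * v ≤ B * v := mul_le_mul_of_nonneg_right hBp hv0
  calc ∫ x in ball (0 : E n) 3, |u j x - c j - h x| ^ p j
      ≤ 4 * d ^ p j + 4 * (B ^ p j * v) := hone
    _ ≤ 4 * d + 4 * (B * v) := by linarith
    _ < ε := by linarith

end Pool.Agent.SCN
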