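import Pool.Agent.SCN.P_CL
import Pool.Agent.SCN.P_LPC
import Pool.Agent.SCN.P_EQL

/-! # L1C: compactness in `L¹` -/

set_option autoImplicit false

open Set MeasureTheory Filter Topology Metric
open scoped RealInnerProductSpace

namespace Pool.Agent.SCN

open Pool.Agent.SCP (E PHarm V)

variable {n : ℕ}

theorem l1c_grad {p : ℝ} {u : E n → ℝ} (hp : 1 < p) (hu : PB p 0 4 u) (he : en p u 0 4 ≤ 1) :
    ∫ x in ball (0 : E n) 4, ‖gradient u x‖ ≤ volume.real (ball (0 : E n) 4) + 1 := by
  obtain ⟨Ω, hΩ, h1, h2⟩ := hu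
  have hc : ContinuousOn (fun x => ‖gradient u x‖) (closedBall (0 : E n) 4) :=
    ((SCP.TEST_.continuousOn_gradient hΩ h2.1).mono h1).norm
  have hi1 : IntegrableOn (fun x => ‖gradient u x‖) (ball (0 : E n) 4) :=
    (hc.integrableOn_compact (isCompact_closedBall _ _)).mono_set ball_subset_closedBall
  have hc2 : ContinuousOn (fun x => ‖gradient u x‖ ^ p) (closedBall (0 : E n) 4) :=
    hc.rpow_const fun _ _ => Or.inr (by linarith)
  have hi2 : IntegrableOn (fun x => ‖gradient u x‖ ^ p) (ball (0 : E n) 4) :=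
    (hc2.integrableOn_compact (isCompact_closedBall _ _)).mono_set ball_subset_closedBall
  have hi3 : IntegrableOn (fun _ : E n => (1 : ℝ)) (ball (0 : E n) 4) :=
    integrableOn_const (by exact measure_ball_lt_top.ne)
  calc ∫ x in ball (0 : E n) 4, ‖gradient u x‖ ≤
      ∫ x in ball (0 : E n) 4, (1 + ‖gradient u x‖ ^ p) := by
        refine setIntegral_mono hi1 (hi3.add hi2) fun x => ?_
        rcases le_total ‖gradient u x‖ 1 with h | h
        · have : 0 ≤ ‖gradient u x‖ ^ p := by positivity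
          show ‖gradient u x‖ ≤ 1 + ‖gradient u x‖ ^ p
          linarith
        · have := Real.rpow_le_rpow_of_exponent_le h hp.le
          rw [Real.rpow_one] at this
          show ‖gradient u x‖ ≤ 1 + ‖gradient u x‖ ^ p
          linarith
    _ = volume.real (ball (0 : E n) 4) + en p u 0 4 := by
        rw [integral_add hi3 hi2, setIntegral_const, smul_eq_mul, mul_one]
        rfl
    _ ≤ _ := by linarith

theorem l1c_sub {φ Φ : E n → ℝ} (hK : Ker φ Φ) {Ω : Set (E n)} {u : E n → ℝ}
    (hu : ContDiffOn ℝ 1 u Ω) (hB : closedBall (0 : E n) 4 ⊆ Ω) (c : ℝ) {x : E n}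
    (hx : x ∈ closedBall (0 : E n) (15 / 4)) :
    cv φ (1 / 4) (fun y => u y - c) x = cv φ (1 / 4) u x - c := by
  have h0 := eql_int hK hu hB 0 hx
  simp only [sub_zero] at h0
  have hφ : Integrable φ := by
    by_contra hno
    have h1 := hK.one
    rw [integral_undef hno] at h1
    exact zero_ne_one h1
  unfold cv
  have h1 : ∀ y, φ y * (u (x + (1 / 4 : ℝ) • y) - c) = φ y * u (x + (1 / 4 : ℝ) • y) - φ y * c :=
    fun y => by ring
  rw [integral_congr_ae (ae_of_all _ h1), integral_sub h0 (hφ.mul_const c), integral_mul_const,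
    hK.one, one_mul]

theorem p_L1C (hE : T_EQL) (hA : T_AAS) (hF : T_FST) : T_L1C := by
  intro n φ Φ hK p u hp hu he
  obtain ⟨C, hC, HE⟩ := hE n φ Φ hK
  obtain ⟨C', hC', HF⟩ := hF n φ Φ hK
  have h1 : ∀ᶠ j in atTop, |p j - 2| < 1 / 4 := by
    have := (tendsto_order.1 (((hp.sub_const 2).abs))).2 (1 / 4) (by norm_num)
    exact this
  obtain ⟨j₀, hj₀⟩ := eventually_atTop.1 h1
  set A : ℝ := volume.real (ball (0 : E n) 4) + 1 with hAdef
  have hA0 : 0 < A := by positivity
  have h2 : ∀ j, ∃ c : ℝ,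
      (∀ x ∈ closedBall (0 : E n) (15 / 4),
        |cv φ (1 / 4) (fun y => u (j + j₀) y - c) x| ≤ C * A) ∧
      ∀ x ∈ closedBall (0 : E n) (15 / 4), ∀ y ∈ closedBall (0 : E n) (15 / 4),
        |cv φ (1 / 4) (fun y => u (j + j₀) y - c) x - cv φ (1 / 4) (fun y => u (j + j₀) y - c) y| ≤
          C * A * ‖x - y‖ := by
    intro j
    have hj := hj₀ (j + j₀) (Nat.le_add_left _ _)
    obtain ⟨Ω, hΩ, hB, hh⟩ := hu (j + j₀)
    refine HE Ω (u (j + j₀)) A hΩ hh.1 hB ?_
    refine l1c_grad ?_ (hu (j + j₀)) (he (j + j₀))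
    have := (abs_lt.1 hj).1
    linarith
  choose c hc1 hc2 using h2
  obtain ⟨k, h, hk, hh, hlim⟩ := hA n (15 / 4) (C * A)
    (fun j => cv φ (1 / 4) (fun y => u (j + j₀) y - c j)) hc1 hc2
  refine ⟨fun j => k j + j₀, fun j => c (k j), h, fun a b hab => Nat.add_lt_add_right (hk hab) j₀,
    hh, ?_⟩
  -- the bound
  have hcvc : ∀ j, ContinuousOn (cv φ (1 / 4) (fun y => u (j + j₀) y - c j))
      (closedBall (0 : E n) (15 / 4)) := by
    intro j
    have hl : LipschitzOnWith (C * A).toNNReal (cv φ (1 / 4) (fun y => u (j + j₀) y - c j))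
        (closedBall (0 : E n) (15 / 4)) := by
      refine LipschitzOnWith.of_dist_le_mul fun x hx y hy => ?_
      rw [Real.dist_eq, dist_eq_norm, Real.coe_toNNReal _ (by positivity)]
      exact hc2 j x hx y hy
    exact hl.continuousOn
  have hu1 : ∀ j, ContinuousOn (u j) (closedBall (0 : E n) (15 / 4)) := by
    intro j
    obtain ⟨Ω, hΩ, hB, hh⟩ := hu j
    exact hh.1.continuousOn.mono ((closedBall_subset_closedBall (by norm_num)).trans hB)
  have hint : ∀ f : E n → ℝ, ContinuousOn f (closedBall (0 : E n) (15 / 4)) →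
      IntegrableOn f (ball (0 : E n) (15 / 4)) := fun f hf =>
    (hf.integrableOn_compact (isCompact_closedBall _ _)).mono_set ball_subset_closedBall
  have key : ∀ j, ∫ x in ball (0 : E n) (15 / 4), |u (k j + j₀) x - c (k j) - h x| ≤
      C' * |p (k j + j₀) - 2| + ∫ x in ball (0 : E n) (15 / 4),
        |cv φ (1 / 4) (fun y => u (k j + j₀) y - c (k j)) x - h x| := by
    intro j
    have hj := hj₀ (k j + j₀) (Nat.le_add_left _ _)
    have h3 := HF (p (k j + j₀)) (u (k j + j₀)) hj.le (hu _) (he _) (1 / 4) (by norm_num) le_rfl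
    have h4 : ∫ x in ball (0 : E n) (15 / 4),
        |u (k j + j₀) x - cv φ (1 / 4) (u (k j + j₀)) x| =
        ∫ x in ball (0 : E n) (15 / 4),
        |u (k j + j₀) x - c (k j) - cv φ (1 / 4) (fun y => u (k j + j₀) y - c (k j)) x| := by
      refine setIntegral_congr_fun measurableSet_ball fun x hx => ?_
      obtain ⟨Ω, hΩ, hB, hh⟩ := hu (k j + j₀)
      show |u (k j + j₀) x - cv φ (1 / 4) (u (k j + j₀)) x| = _
      rw [l1c_sub hK hh.1 hB (c (k j)) (ball_subset_closedBall hx)]
      congr 1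
      ring
    rw [h4] at h3
    have hi1 := hint (fun x => |u (k j + j₀) x - c (k j) -
      cv φ (1 / 4) (fun y => u (k j + j₀) y - c (k j)) x|)
      (((hu1 _).sub continuousOn_const).sub (hcvc (k j))).abs
    have hi2 := hint (fun x => |cv φ (1 / 4) (fun y => u (k j + j₀) y - c (k j)) x - h x|)
      ((hcvc (k j)).sub hh).abs
    have hi3 := hint (fun x => |u (k j + j₀) x - c (k j) - h x|)
      (((hu1 _).sub continuousOn_const).sub hh).abs
    have h5 := setIntegral_mono hi3 (hi1.add hi2) fun x =>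
      abs_sub_le (u (k j + j₀) x - c (k j))
        (cv φ (1 / 4) (fun y => u (k j + j₀) y - c (k j)) x) (h x)
    rw [Pi.add_def, integral_add hi1 hi2] at h5
    linarith
  have hpk : Tendsto (fun j => C' * |p (k j + j₀) - 2|) atTop (𝓝 0) := by
    have h6 : Tendsto (fun j => k j + j₀) atTop atTop :=
      (tendsto_add_atTop_nat j₀).comp hk.tendsto_atTop
    have h7 := ((hp.comp h6).sub_const 2).abs.const_mul C'
    simpa using h7
  have hun : Tendsto (fun j => ∫ x in ball (0 : E n) (15 / 4),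
        |cv φ (1 / 4) (fun y => u (k j + j₀) y - c (k j)) x - h x|) atTop (𝓝 0) := by
    rw [Metric.tendsto_nhds]
    intro ε hε
    set v := volume.real (ball (0 : E n) (15 / 4)) with hv
    have hv0 : 0 ≤ v := by positivity
    have h8 := hlim (ε / (v + 1)) (by positivity)
    filter_upwards [h8] with j hj
    rw [Real.dist_0_eq_abs, abs_of_nonneg (integral_nonneg fun x => abs_nonneg _)]
    calc ∫ x in ball (0 : E n) (15 / 4),
        |cv φ (1 / 4) (fun y => u (k j + j₀) y - c (k j)) x - h x| ≤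
        ∫ x in ball (0 : E n) (15 / 4), ε / (v + 1) := by
          refine setIntegral_mono_on (hint _ ((hcvc (k j)).sub hh).abs)
            (integrableOn_const (by exact measure_ball_lt_top.ne)) measurableSet_ball
            fun x hx => (hj x (ball_subset_closedBall hx)).le
      _ = v * (ε / (v + 1)) := by rw [setIntegral_const, smul_eq_mul]
      _ < ε := by
          rw [← mul_div_assoc, div_lt_iff₀ (by positivity)]
          nlinarith
  refine squeeze_zero (fun j => integral_nonneg fun x => abs_nonneg _) key ?_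
  simpa using hpk.add hun

end Pool.Agent.SCN
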