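import Pool.Agent.SCN.Targets

/-! # Target LGC -/

set_option autoImplicit false

open Set MeasureTheory Filter Topology Metric
open scoped RealInnerProductSpace

namespace Pool.Agent.SCN

open Pool.Agent.SCP (E PHarm V)

/-- Scaling and translation. -/
theorem lgc_sub {n : ℕ} {c r : ℝ} (hc : 0 < c) (x : E n) (G : E n → ℝ) :
    ∫ y in ball (0 : E n) r, G (x + c • y) = (c ^ n)⁻¹ * ∫ y in ball x (c * r), G y := by
  rw [← integral_indicator measurableSet_ball, ← integral_indicator measurableSet_ball]
  have h1 : ((ball (0 : E n) r).indicator fun y => G (x + c • y)) =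
      fun y => (fun u => (ball x (c * r)).indicator G (x + u)) (c • y) := by
    funext y
    have hiff : y ∈ ball (0 : E n) r ↔ x + c • y ∈ ball x (c * r) := by
      rw [mem_ball, mem_ball, dist_zero_right, dist_eq_norm, add_sub_cancel_left, norm_smul,
        Real.norm_eq_abs, abs_of_pos hc]
      exact (mul_lt_mul_iff_right₀ hc).symm
    by_cases hy : y ∈ ball (0 : E n) r
    · rw [indicator_of_mem hy]
      show G (x + c • y) = (ball x (c * r)).indicator G (x + c • y)
      rw [indicator_of_mem (hiff.1 hy)]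
    · rw [indicator_of_notMem hy]
      show 0 = (ball x (c * r)).indicator G (x + c • y)
      rw [indicator_of_notMem (fun h => hy (hiff.2 h))]
  rw [h1, Measure.integral_comp_smul volume (fun u => (ball x (c * r)).indicator G (x + u)) c,
    integral_add_left_eq_self (fun u => (ball x (c * r)).indicator G u) x,
    finrank_euclideanSpace_fin, abs_of_pos (by positivity), smul_eq_mul]

/-- Continuity of the rescaled function. -/
theorem lgc_cont {n : ℕ} {Ω : Set (E n)} {g : E n → ℝ} (hg : ContinuousOn g Ω) {x : E n} {r : ℝ}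
    (hr : 0 < r) (hsub : closedBall x (2 * r) ⊆ Ω) {c : ℝ} (hc0 : 0 ≤ c) (hc : c ≤ 2) :
    ContinuousOn (fun y : E n => g (x + c • y)) (closedBall (0 : E n) r) := by
  refine hg.comp ((continuous_const.add (continuous_const_smul c)).continuousOn) fun y hy => ?_
  apply hsub
  rw [mem_closedBall_zero_iff] at hy
  rw [mem_closedBall, dist_eq_norm, add_sub_cancel_left, norm_smul, Real.norm_of_nonneg hc0]
  have := norm_nonneg y
  nlinarith

theorem lgc_int {n : ℕ} {f : E n → ℝ} {r : ℝ} (hf : ContinuousOn f (closedBall (0 : E n) r)) :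
    IntegrableOn f (ball (0 : E n) r) :=
  (hf.integrableOn_compact (isCompact_closedBall _ _)).mono_set ball_subset_closedBall

/-- Cauchy and Schwarz. -/
theorem lgc_cs {n : ℕ} {F G : E n → ℝ} {r : ℝ} (hF : ContinuousOn F (closedBall (0 : E n) r))
    (hG : ContinuousOn G (closedBall (0 : E n) r)) :
    (∫ y in ball (0 : E n) r, F y * G y) ^ 2 ≤
      (∫ y in ball (0 : E n) r, F y ^ 2) * ∫ y in ball (0 : E n) r, G y ^ 2 := by
  have iF : IntegrableOn (fun y => F y ^ 2) (ball (0 : E n) r) := lgc_int (hF.pow 2)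
  have iG : IntegrableOn (fun y => G y ^ 2) (ball (0 : E n) r) := lgc_int (hG.pow 2)
  have iM : IntegrableOn (fun y => F y * G y) (ball (0 : E n) r) := lgc_int (hF.mul hG)
  set a := ∫ y in ball (0 : E n) r, F y ^ 2 with ha
  set b := ∫ y in ball (0 : E n) r, F y * G y with hb
  set c := ∫ y in ball (0 : E n) r, G y ^ 2 with hc
  have h1 : ∀ t : ℝ, 0 ≤ c * (t * t) + (-2 * b) * t + a := by
    intro t
    have h2 : ∫ y in ball (0 : E n) r, (F y - t * G y) ^ 2 =
        c * (t * t) + (-2 * b) * t + a := by
      have h3 : (fun y : E n => (F y - t * G y) ^ 2) =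
          fun y => (F y ^ 2 + (-2 * t) * (F y * G y)) + (t * t) * G y ^ 2 := by
        funext y; ring
      have i1 : IntegrableOn (fun y => (-2 * t) * (F y * G y)) (ball (0 : E n) r) :=
        iM.const_mul _
      have i2 : IntegrableOn (fun y => F y ^ 2 + (-2 * t) * (F y * G y)) (ball (0 : E n) r) :=
        iF.add i1
      have i3 : IntegrableOn (fun y => (t * t) * G y ^ 2) (ball (0 : E n) r) := iG.const_mul _
      rw [h3, integral_add i2 i3, integral_add iF i1, integral_const_mul, integral_const_mul,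
        ← ha, ← hb, ← hc]
      ring
    rw [← h2]
    exact integral_nonneg fun y => sq_nonneg _
  have h2 := discrim_le_zero h1
  unfold discrim at h2
  nlinarith

theorem p_LGC (hKPR : T_KPR) : T_LGC := by
  intro n Ω g x r hΩ hg hr hsub
  have hgc : ContinuousOn g Ω := hg.1.continuousOn
  have h1 := hKPR n Ω g x r hΩ hg hr hsub
  have c2 := lgc_cont hgc hr hsub (c := 2) (by norm_num) (by norm_num)
  have c3 := lgc_cont hgc hr hsub (c := 1 / 2) (by norm_num) (by norm_num)
  have h2 := lgc_cs c2 c3
  rw [h1] at h2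
  have e1 := lgc_sub (c := 1) (r := r) one_pos x fun y => g y ^ 2
  have e2 := lgc_sub (c := 2) (r := r) two_pos x fun y => g y ^ 2
  have e3 := lgc_sub (c := 1 / 2) (r := r) (by norm_num) x fun y => g y ^ 2
  simp only [one_smul, one_pow, inv_one, one_mul] at e1
  rw [e1, e2, e3] at h2
  have h3 : ((1 / 2 : ℝ) ^ n)⁻¹ = 2 ^ n := by
    rw [one_div, inv_pow, inv_inv]
  have h4 : (2 ^ n : ℝ) ≠ 0 := by positivity
  rw [h3, show (1 / 2 : ℝ) * r = r / 2 by ring] at h2
  calc _ ≤ _ := h2
    _ = _ := by
      field_simp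

end Pool.Agent.SCN
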