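import Pool.Agent.SCN.Targets

/-! # Strong comparison for `p`-harmonic functions, `p` near 2: LOC -/

set_option autoImplicit false

open Set MeasureTheory Filter Topology Metric
open scoped RealInnerProductSpace

namespace Pool.Agent.SCN

open Pool.Agent.SCP (E PHarm V)

variable {n : ℕ}

/-- Decreasing the radius in `Dbl`. -/
theorem loc_dbl {p : ℝ} {f : E n → ℝ} {x : E n} {R R' : ℝ} {m : ℕ} (h : Dbl p f x R m)
    (h0 : 0 < R') (h1 : R' ≤ R) : Dbl p f x R' m := by
  obtain ⟨_, ⟨Ω, hΩ, hs, hf⟩, h3⟩ := h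
  refine ⟨h0, ⟨Ω, hΩ, (closedBall_subset_closedBall (by linarith)).trans hs, hf⟩, ?_⟩
  intro y hy ρ hρ hρ'
  exact h3 y (closedBall_subset_closedBall h1 hy) ρ hρ (hρ'.trans h1)

theorem loc_sg (u v : E n → ℝ) : sg v u = sg u v := by
  funext y
  unfold sg
  exact add_comm _ _

/-- What is used of KSC. -/
def LocK (p C : ℝ) (u v : E n → ℝ) (x : E n) (r : ℝ) : Prop :=
  ∃ S : ℝ, 0 < S ∧
      volume (ball x r ∩ {y | sg u v y = 0}) = 0 ∧
      IntegrableOn (fun y => (sg u v y / S) ^ (p - 2)) (ball x (2 * r)) ∧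
      ∫ y in ball x (2 * r), (sg u v y / S) ^ (p - 2) ≤ C * r ^ n ∧
      IntegrableOn (fun y => Kf p (sg u v y / S)) (ball x r) ∧
      ∫ y in ball x r, Kf p (sg u v y / S) ≤ C * |p - 2| ^ 2 * r ^ n ∧
      IntegrableOn (fun y => (sg u v y / S) ^ (2 - p)) (ball x r)

/-- Scaling of integrability. -/
theorem loc_int {u v : E n → ℝ} {S q : ℝ} (hS : 0 < S) {A : Set (E n)}
    (h : IntegrableOn (fun y => (sg u v y / S) ^ q) A) :
    IntegrableOn (fun y => sg u v y ^ q) A := by
  have h1 := h.const_mul (S ^ q)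
  refine h1.congr (Eventually.of_forall fun y => ?_)
  have hs : 0 ≤ sg u v y := add_nonneg (norm_nonneg _) (norm_nonneg _)
  change S ^ q * (sg u v y / S) ^ q = sg u v y ^ q
  rw [← Real.mul_rpow hS.le (by positivity), mul_div_cancel₀ _ hS.ne']

theorem loc_grad {u v : E n → ℝ} {y : E n} (hu : DifferentiableAt ℝ u y)
    (hv : DifferentiableAt ℝ v y) :
    gradient (fun z => v z - u z) y = gradient v y - gradient u y := by
  unfold gradient
  rw [fderiv_fun_sub hv hu, map_sub]


/-- The upper bound for the average of the logarithm. -/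
theorem loc_up {φ Φ : E n → ℝ} (hK : Ker φ Φ) {Ω : Set (E n)} {w : E n → ℝ}
    (hw : ContinuousOn w Ω) {x : E n} {r K t : ℝ} (hr : 0 < r) (hs : closedBall x r ⊆ Ω)
    (h0 : ∀ y ∈ closedBall x r, 0 ≤ w y) (hK' : ∀ y ∈ closedBall x r, w y ≤ K * ‖y - x‖)
    (hK0 : 0 < K) (ht : 0 < t) :
    cv φ r (fun y => Real.log (w y + t)) x ≤ Real.log (K * r + t) := by
  have hmap : ∀ y ∈ closedBall (0 : E n) 1, x + r • y ∈ closedBall x r := by
    intro y hy
    rw [mem_closedBall_zero_iff] at hy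
    rw [mem_closedBall, dist_eq_norm, add_sub_cancel_left, norm_smul, Real.norm_of_nonneg hr.le]
    nlinarith
  have hφ0 : ∀ y, 0 ≤ φ y := by
    intro y
    rcases lt_or_ge ‖y‖ 1 with h | h
    · exact (hK.pos y h).le
    · exact (hK.supp y h).ge
  have hφi : Integrable φ := by
    by_contra h
    have h1 := hK.one
    rw [integral_undef h] at h1
    exact zero_ne_one h1
  have hc : ContinuousOn (fun y : E n => φ y * Real.log (w (x + r • y) + t))
      (closedBall 0 1) := by
    refine hK.smooth.continuous.continuousOn.mul (ContinuousOn.log ?_ ?_)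
    · exact (hw.comp (by fun_prop) fun y hy => hs (hmap y hy)).add continuousOn_const
    · intro y hy
      have := h0 _ (hmap y hy)
      positivity
  have hi : Integrable (fun y : E n => φ y * Real.log (w (x + r • y) + t)) := by
    have h1 : IntegrableOn (fun y : E n => φ y * Real.log (w (x + r • y) + t))
        (closedBall (0 : E n) 1) := hc.integrableOn_compact (isCompact_closedBall 0 1)
    rw [← integrable_indicator_iff measurableSet_closedBall] at h1
    have h2 : (closedBall (0 : E n) 1).indicator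
        (fun y : E n => φ y * Real.log (w (x + r • y) + t)) =
        fun y => φ y * Real.log (w (x + r • y) + t) := by
      rw [Set.indicator_eq_self]
      intro y hy
      by_contra h
      apply hy
      rw [mem_closedBall_zero_iff, not_le] at h
      change φ y * _ = 0
      rw [hK.supp y h.le, zero_mul]
    rwa [h2] at h1
  unfold cv
  have h3 : ∫ y, φ y * Real.log (K * r + t) = Real.log (K * r + t) := by
    rw [integral_mul_const, hK.one, one_mul]
  rw [← h3]
  apply integral_mono hi (hφi.mul_const _)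
  intro y
  change φ y * Real.log (w (x + r • y) + t) ≤ φ y * Real.log (K * r + t)
  rcases lt_or_ge ‖y‖ 1 with h | h
  · apply mul_le_mul_of_nonneg_left _ (hφ0 y)
    have hy := hmap y (mem_closedBall_zero_iff.2 h.le)
    have h4 := h0 _ hy
    apply Real.log_le_log (by positivity)
    have h5 := hK' _ hy
    rw [add_sub_cancel_left, norm_smul, Real.norm_of_nonneg hr.le] at h5
    have h6 : K * (r * ‖y‖) ≤ K * (r * 1) := by gcongr
    linarith
  · rw [hK.supp y h, zero_mul, zero_mul]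

/-- **LOC** -/
theorem p_LOC (hKER : T_KER) (hKSC : T_KSC) (hENG : T_ENG) (hLGS : T_LGS) (hLOW : T_LOW) :
    T_LOC := by
  intro n m hn
  obtain ⟨φ, Φ, hK⟩ := hKER n hn
  obtain ⟨C1, e1, hC1, he1, h1⟩ := hKSC n m hn
  obtain ⟨C2, e2, hC2, he2, h2⟩ := hENG n hn
  obtain ⟨C3, e3, hC3, he3, h3⟩ := hLGS n φ Φ hn hK
  have hl2 : 0 < Real.log 2 := Real.log_pos (by norm_num)
  refine ⟨min (min e1 e2) (min e3 (Real.log 2 / (2 * (C3 * C1)))), by positivity, ?_⟩
  intro p hp Ω u v x R₀ hΩ hu hv huv hx hxx hdbl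
  have hp1 : |p - 2| < e1 := hp.trans_le ((min_le_left _ _).trans (min_le_left _ _))
  have hp2 : |p - 2| < e2 := hp.trans_le ((min_le_left _ _).trans (min_le_right _ _))
  have hp3 : |p - 2| < e3 := hp.trans_le ((min_le_right _ _).trans (min_le_left _ _))
  have hp4 : |p - 2| < Real.log 2 / (2 * (C3 * C1)) :=
    hp.trans_le ((min_le_right _ _).trans (min_le_right _ _))
  have hp5 : C3 * C1 * |p - 2| ≤ Real.log 2 / 2 := by
    rw [lt_div_iff₀ (by positivity)] at hp4
    linarith
  -- the radius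
  have hR0 : 0 < R₀ := by
    rcases hdbl with h | h
    · exact h.1
    · exact h.1
  obtain ⟨ε, hε, hεs⟩ := Metric.isOpen_iff.1 hΩ x hx
  obtain ⟨R, hR, hRR, hRs⟩ : ∃ R : ℝ, 0 < R ∧ R ≤ R₀ ∧ closedBall x R ⊆ Ω := by
    refine ⟨min R₀ (ε / 2), by positivity, min_le_left _ _, ?_⟩
    refine subset_trans ?_ hεs
    intro y hy
    rw [mem_closedBall] at hy
    rw [mem_ball]
    have := min_le_right R₀ (ε / 2)
    linarith
  have hPBu : PB p x R u := ⟨Ω, hΩ, hRs, hu⟩
  have hPBv : PB p x R v := ⟨Ω, hΩ, hRs, hv⟩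
  have key : ∃ r₁ : ℝ, 0 < r₁ ∧ ∀ r : ℝ, 0 < r → r ≤ r₁ → LocK p C1 u v x r := by
    rcases hdbl with h | h
    · exact h1 p hp1 u v x R (loc_dbl h hR hRR) hPBv hxx
        (Or.inl fun y hy => huv y (hRs hy))
    · have h4 := h1 p hp1 v u x R (loc_dbl h hR hRR) hPBu hxx.symm
        (Or.inr fun y hy => huv y (hRs hy))
      rw [loc_sg u v] at h4
      exact h4
  obtain ⟨r₁, hr₁, key⟩ := key
  obtain ⟨r₂, hr₂, hr21, hr2R⟩ : ∃ r₂ : ℝ, 0 < r₂ ∧ r₂ ≤ r₁ ∧ 2 * r₂ ≤ R :=
    ⟨min r₁ (R / 2), by positivity, min_le_left _ _, by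
      have := min_le_right r₁ (R / 2)
      linarith⟩
  by_cases hex : ∃ y ∈ ball x r₂, 0 < v y - u y
  swap
  · refine ⟨r₂, hr₂, fun y hy => ?_⟩
    by_contra hne
    apply hex
    refine ⟨y, hy, ?_⟩
    have h4 := huv y (hRs ((ball_subset_closedBall.trans
      (closedBall_subset_closedBall (by linarith))) hy))
    rcases h4.lt_or_eq with h5 | h5
    · linarith
    · exact absurd h5 hne
  exfalso
  have hs2 : closedBall x r₂ ⊆ Ω := (closedBall_subset_closedBall (by linarith)).trans hRs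
  have hs3 : closedBall x (2 * r₂) ⊆ Ω := (closedBall_subset_closedBall hr2R).trans hRs
  have hw : ContDiffOn ℝ 1 (fun y => v y - u y) Ω := hv.1.sub hu.1
  have hw0 : ∀ y ∈ closedBall x r₂, 0 ≤ v y - u y := fun y hy =>
    sub_nonneg.2 (huv y (hs2 hy))
  -- the Lipschitz bound
  obtain ⟨K, hK0, hKb⟩ : ∃ K : ℝ, 0 < K ∧ ∀ y ∈ closedBall x r₂,
      v y - u y ≤ K * ‖y - x‖ := by
    have hd : ContinuousOn (fderiv ℝ fun y => v y - u y) Ω :=
      hw.continuousOn_fderiv_of_isOpen hΩ le_rfl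
    obtain ⟨K, hKK⟩ := (isCompact_closedBall x r₂).exists_bound_of_continuousOn (hd.mono hs2)
    refine ⟨max K 0 + 1, by positivity, fun y hy => ?_⟩
    have h5 := (convex_closedBall x r₂).norm_image_sub_le_of_norm_fderiv_le (𝕜 := ℝ)
      (f := fun y => v y - u y) (C := K) (fun z hz =>
        ((hw.contDiffAt (hΩ.mem_nhds (hs2 hz))).differentiableAt one_ne_zero)) hKK
      (mem_closedBall_self hr₂.le) hy
    simp only [hxx, sub_self, sub_zero] at h5
    have h6 : v y - u y ≤ K * ‖y - x‖ := by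
      rw [Real.norm_eq_abs] at h5
      exact (le_abs_self (v y - u y)).trans h5
    have h7 : K * ‖y - x‖ ≤ (max K 0 + 1) * ‖y - x‖ := by
      apply mul_le_mul_of_nonneg_right _ (norm_nonneg _)
      have := le_max_left K 0
      linarith
    linarith
  -- the uniform bound for the gradient of the logarithm
  obtain ⟨S, hS, hnull, i1, -, -, -, i2⟩ := key r₂ hr₂ hr21
  have j1 : IntegrableOn (fun y => sg u v y ^ (p - 2)) (ball x (2 * r₂)) := loc_int hS i1
  have j2 : IntegrableOn (fun y => sg u v y ^ (2 - p)) (ball x r₂) := loc_int hS i2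
  obtain ⟨B, hB⟩ : ∃ B : ℝ, B = (1 / 2) * (C2 * (r₂ ^ 2)⁻¹ *
      (∫ y in ball x (2 * r₂), sg u v y ^ (p - 2)) + ∫ y in ball x r₂, sg u v y ^ (2 - p)) :=
    ⟨_, rfl⟩
  have hBb : ∀ t : ℝ, 0 < t → t ≤ 1 →
      ∫ y in ball x r₂, ‖gradient (fun z => v z - u z) y‖ / (v y - u y + t) ≤ B := by
    intro t ht _
    obtain ⟨j3, j4⟩ := h2 p hp2 Ω u v hΩ hu hv huv x r₂ t hr₂ ht hs3 j1
    have h5 : ∫ y in ball x r₂, ‖gradient (fun z => v z - u z) y‖ / (v y - u y + t) ≤
        ∫ y in ball x r₂, (1 / 2) * (sg u v y ^ (p - 2) *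
          (‖gradient v y - gradient u y‖ / (v y - u y + t)) ^ 2 + sg u v y ^ (2 - p)) := by
      have hae : ∀ᵐ y ∂(volume.restrict (ball x r₂)), y ∈ ball x r₂ ∧ sg u v y ≠ 0 := by
        have h6 : ∀ᵐ y ∂(volume.restrict (ball x r₂)), y ∈ ball x r₂ :=
          ae_restrict_mem measurableSet_ball
        have h7 : ∀ᵐ y ∂(volume.restrict (ball x r₂)), sg u v y ≠ 0 := by
          rw [ae_restrict_iff' measurableSet_ball, ae_iff]
          refine measure_mono_null ?_ hnull
          intro y hy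
          simp only [mem_ofPred_eq, not_forall, not_not] at hy
          obtain ⟨h8, h9⟩ := hy
          exact ⟨h8, h9⟩
        filter_upwards [h6, h7] with y h8 h9 using ⟨h8, h9⟩
      refine integral_mono_of_nonneg ?_ ((j3.add j2).const_mul _) ?_
      · filter_upwards [hae] with y hy
        have := hw0 y (ball_subset_closedBall hy.1)
        change (0 : ℝ) ≤ _
        positivity
      · filter_upwards [hae] with y hy
        have hyΩ : y ∈ Ω := hs2 (ball_subset_closedBall hy.1)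
        have hdu : DifferentiableAt ℝ u y :=
          (hu.1.contDiffAt (hΩ.mem_nhds hyΩ)).differentiableAt one_ne_zero
        have hdv : DifferentiableAt ℝ v y :=
          (hv.1.contDiffAt (hΩ.mem_nhds hyΩ)).differentiableAt one_ne_zero
        rw [loc_grad hdu hdv]
        have hsg : 0 < sg u v y :=
          lt_of_le_of_ne (add_nonneg (norm_nonneg _) (norm_nonneg _)) (Ne.symm hy.2)
        have hP : 0 < sg u v y ^ (p - 2) := Real.rpow_pos_of_pos hsg _
        have hQ : sg u v y ^ (2 - p) = (sg u v y ^ (p - 2))⁻¹ := by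
          rw [← Real.rpow_neg hsg.le, neg_sub]
        rw [hQ]
        generalize sg u v y ^ (p - 2) = P at hP
        generalize ‖gradient v y - gradient u y‖ / (v y - u y + t) = a
        have h8 : 0 ≤ (P * a - 1) ^ 2 / P := by positivity
        have h9 : (P * a - 1) ^ 2 / P = P * a ^ 2 + P⁻¹ - 2 * a := by
          field_simp
          ring
        linarith
    refine h5.trans ?_
    rw [integral_const_mul, integral_add j3 j2, hB]
    gcongr
  obtain ⟨C0, hC0⟩ := hLOW n φ Φ hn hK Ω (fun y => v y - u y) x r₂ B hΩ hw hr₂ hs2 hw0 hex hBb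
  -- iteration
  have hit : ∀ i : ℕ, ∀ t : ℝ, 0 < t → t ≤ 1 → C0 - i * (Real.log 2 / 2) ≤
      cv φ (r₂ / 2 ^ i) (fun y => Real.log (v y - u y + t)) x := by
    intro i
    induction i with
    | zero =>
      intro t ht ht1
      have := hC0 t ht ht1
      simpa using this
    | succ i ih =>
      intro t ht ht1
      have h5 := ih t ht ht1
      have hri : 0 < r₂ / 2 ^ i := by positivity
      have hri2 : r₂ / 2 ^ i ≤ r₂ := div_le_self hr₂.le (one_le_pow₀ (by norm_num))
      obtain ⟨S', hS', -, k1, k2, k3, k4, -⟩ := key (r₂ / 2 ^ i) hri (hri2.trans hr21)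
      have h6 := h3 p hp3 Ω u v hΩ hu hv huv x (r₂ / 2 ^ i) t S' _ _ hri ht hS'
        ((closedBall_subset_closedBall (by linarith)).trans hs3) k1 k2 k3 k4
      have h7 : Real.sqrt (C1 * |p - 2| ^ 2 * (r₂ / 2 ^ i) ^ n * (C1 * (r₂ / 2 ^ i) ^ n)) =
          C1 * |p - 2| * (r₂ / 2 ^ i) ^ n := by
        rw [show C1 * |p - 2| ^ 2 * (r₂ / 2 ^ i) ^ n * (C1 * (r₂ / 2 ^ i) ^ n) =
          (C1 * |p - 2| * (r₂ / 2 ^ i) ^ n) ^ 2 by ring]
        exact Real.sqrt_sq (by positivity)
      rw [h7] at h6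
      have h8 : C3 * ((r₂ / 2 ^ i) ^ n)⁻¹ * (C1 * |p - 2| * (r₂ / 2 ^ i) ^ n) =
          C3 * C1 * |p - 2| := by
        have h9 : (r₂ / 2 ^ i) ^ n ≠ 0 := by positivity
        field_simp
      rw [h8] at h6
      have h10 : r₂ / 2 ^ i / 2 = r₂ / 2 ^ (i + 1) := by
        rw [div_div, pow_succ]
      rw [h10] at h6
      push_cast
      linarith
  -- conclusion
  obtain ⟨i, hi⟩ := exists_nat_gt (max (K * r₂) ((Real.log (2 * (K * r₂)) - C0) /
    (Real.log 2 / 2)))
  have hi1 : K * r₂ < i := (le_max_left _ _).trans_lt hi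
  have hi2 : (Real.log (2 * (K * r₂)) - C0) / (Real.log 2 / 2) < i :=
    (le_max_right _ _).trans_lt hi
  rw [div_lt_iff₀ (by positivity)] at hi2
  have hri : 0 < r₂ / 2 ^ i := by positivity
  have hri2 : r₂ / 2 ^ i ≤ r₂ := div_le_self hr₂.le (one_le_pow₀ (by norm_num))
  have ht0 : 0 < K * (r₂ / 2 ^ i) := by positivity
  have ht1 : K * (r₂ / 2 ^ i) ≤ 1 := by
    rw [← mul_div_assoc, div_le_one (by positivity)]
    have h5 : (i : ℝ) < 2 ^ i := by
      exact_mod_cast Nat.lt_two_pow_self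
    linarith
  have h5 := hit i _ ht0 ht1
  have hsi : closedBall x (r₂ / 2 ^ i) ⊆ closedBall x r₂ := closedBall_subset_closedBall hri2
  have h6 := loc_up (w := fun y => v y - u y) hK hw.continuousOn hri (hsi.trans hs2)
    (fun y hy => hw0 y (hsi hy)) (fun y hy => hKb y (hsi hy)) hK0 ht0
  have h7 : Real.log (K * (r₂ / 2 ^ i) + K * (r₂ / 2 ^ i)) =
      Real.log (2 * (K * r₂)) - i * Real.log 2 := by
    rw [show K * (r₂ / 2 ^ i) + K * (r₂ / 2 ^ i) = (2 * (K * r₂)) / 2 ^ i by ring,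
      Real.log_div (by positivity) (by positivity), Real.log_pow]
  rw [h7] at h6
  linarith

end Pool.Agent.SCN
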