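import Pool.Agent.SCN.Targets

set_option autoImplicit false

open Set MeasureTheory Filter Topology Metric
open scoped RealInnerProductSpace

namespace Pool.Agent.SCN

open Pool.Agent.SCP (E PHarm V)

theorem low_cov {n : ℕ} (G : E n → ℝ) (x : E n) {r : ℝ} (hr : 0 < r) :
    ∫ y in ball (0 : E n) 1, G (x + r • y) = (r ^ n)⁻¹ * ∫ z in ball x r, G z := by
  rw [← integral_indicator measurableSet_ball, ← integral_indicator measurableSet_ball]
  have h1 : (fun y => (ball (0 : E n) 1).indicator (fun y => G (x + r • y)) y) =
      fun y => (fun u => (ball x r).indicator G (x + u)) (r • y) := by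
    funext y
    have hiff : y ∈ ball (0 : E n) 1 ↔ x + r • y ∈ ball x r := by
      rw [mem_ball, mem_ball, dist_zero_right, dist_eq_norm, add_sub_cancel_left, norm_smul,
        Real.norm_eq_abs, abs_of_pos hr]
      constructor
      · intro h; nlinarith
      · intro h
        by_contra h2
        push Not at h2
        nlinarith
    by_cases hy : y ∈ ball (0 : E n) 1
    · rw [indicator_of_mem hy]
      show G (x + r • y) = (ball x r).indicator G (x + r • y)
      rw [indicator_of_mem (hiff.1 hy)]
    · rw [indicator_of_notMem hy]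
      show 0 = (ball x r).indicator G (x + r • y)
      rw [indicator_of_notMem (fun h => hy (hiff.2 h))]
  rw [h1, Measure.integral_comp_smul volume (fun u => (ball x r).indicator G (x + u)) r,
    integral_add_left_eq_self (fun u => (ball x r).indicator G u) x, finrank_euclideanSpace_fin,
    abs_of_pos (by positivity), smul_eq_mul]

theorem low_grad {n : ℕ} {Ω : Set (E n)} (hΩ : IsOpen Ω) {w : E n → ℝ}
    (hw : ContDiffOn ℝ 1 w Ω) {y : E n} (hy : y ∈ Ω) {t : ℝ} (ht : 0 < w y + t) :
    ‖gradient (fun z => Real.log (w z + t)) y‖ = ‖gradient w y‖ / (w y + t) := by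
  have hd : DifferentiableAt ℝ w y :=
    (hw.contDiffAt (hΩ.mem_nhds hy)).differentiableAt (by norm_num)
  have h1 : HasFDerivAt (fun z => Real.log (w z + t)) ((w y + t)⁻¹ • fderiv ℝ w y) y :=
    (hd.hasFDerivAt.add_const t).log ht.ne'
  rw [gradient, gradient, LinearIsometryEquiv.norm_map, LinearIsometryEquiv.norm_map, h1.fderiv,
    norm_smul, norm_inv, Real.norm_eq_abs, abs_of_pos ht, div_eq_inv_mul]

theorem p_LOW (hPOI : T_POI) : T_LOW := by
  intro n φ Φ hn hK Ω w x r B hΩ hw hr hsub hw0 hpos hB
  obtain ⟨C₀, hC₀, hC⟩ := hPOI n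
  obtain ⟨y₀, hy₀, hwy₀⟩ := hpos
  have hwc : ContinuousOn w Ω := hw.continuousOn
  -- a small ball where `w` is bounded below
  have hy₀Ω : y₀ ∈ Ω := hsub (ball_subset_closedBall hy₀)
  set c : ℝ := w y₀ / 2 with hc
  have hcpos : 0 < c := by positivity
  have hnb : ball x r ∩ {y | c < w y} ∈ 𝓝 y₀ := by
    refine inter_mem (isOpen_ball.mem_nhds hy₀) ?_
    have h1 : ContinuousAt w y₀ := hwc.continuousAt (hΩ.mem_nhds hy₀Ω)
    exact h1 (isOpen_Ioi.mem_nhds (show c < w y₀ by rw [hc]; linarith))
  obtain ⟨δ, hδ, hball⟩ := Metric.mem_nhds_iff.1 hnb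
  -- the kernel
  have hφ0 : ∀ y, 0 ≤ φ y := fun y => by
    rcases lt_or_ge ‖y‖ 1 with h | h
    · exact (hK.pos y h).le
    · rw [hK.supp y h]
  obtain ⟨M, hM⟩ := (isCompact_closedBall (0 : E n) 1).exists_bound_of_continuousOn
    hK.smooth.continuous.continuousOn
  have hM0 : 0 ≤ M := (norm_nonneg _).trans (hM 0 (by simp))
  have hφM : ∀ y, φ y ≤ M := fun y => by
    rcases lt_or_ge ‖y‖ 1 with h | h
    · have := hM y (by simpa using h.le)
      exact (le_abs_self _).trans this
    · rw [hK.supp y h]; exact hM0
  have hφint : Integrable φ := by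
    by_contra h
    have := hK.one
    rw [integral_undef h] at this
    exact zero_ne_one this
  have hvol : 0 < volume.real (ball y₀ δ) :=
    ENNReal.toReal_pos (isOpen_ball.measure_pos _ ⟨y₀, mem_ball_self hδ⟩).ne'
      measure_ball_lt_top.ne
  refine ⟨Real.log c - (M * (r ^ n)⁻¹ * (C₀ * r ^ (n + 1) * B)) / volume.real (ball y₀ δ), ?_⟩
  intro t ht ht1
  set l : E n → ℝ := fun y => Real.log (w y + t) with hl
  -- `l` near the closed ball
  set Ω' : Set (E n) := Ω ∩ w ⁻¹' Ioi (-t) with hΩ'
  have hΩ'o : IsOpen Ω' := hwc.isOpen_inter_preimage hΩ isOpen_Ioi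
  have hsub' : closedBall x r ⊆ Ω' := fun y hy => ⟨hsub hy, by
    have := hw0 y hy
    show -t < w y
    linarith⟩
  have hlc : ContDiffOn ℝ 1 l Ω' := by
    refine ContDiffOn.log ((hw.mono inter_subset_left).add contDiffOn_const) ?_
    intro y hy
    have : -t < w y := hy.2
    linarith
  have hlcont : ContinuousOn l (closedBall x r) := hlc.continuousOn.mono hsub'
  have hP := hC Ω' l x r hΩ'o hlc hr hsub'
  have hgr : ∫ y in ball x r, ‖gradient l y‖ = ∫ y in ball x r, ‖gradient w y‖ / (w y + t) := by
    refine setIntegral_congr_fun measurableSet_ball fun y hy => ?_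
    have hy' : y ∈ closedBall x r := ball_subset_closedBall hy
    exact low_grad hΩ hw (hsub hy') (by have := hw0 y hy'; linarith)
  rw [hgr] at hP
  have hP' := hP.trans (mul_le_mul_of_nonneg_left (hB t ht ht1) (by positivity))
  -- integrability
  have hlint : IntegrableOn l (ball x r) :=
    (hlcont.integrableOn_compact (isCompact_closedBall x r)).mono_set ball_subset_closedBall
  set J : E n → ℝ := fun y => ∫ z in ball x r, |l y - l z| with hJ
  have hfin : IsFiniteMeasure (volume.restrict (ball x r)) :=
    ⟨by rw [Measure.restrict_apply_univ]; exact measure_ball_lt_top⟩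
  have hJint : IntegrableOn J (ball x r) := by
    have h1 : Integrable (fun q : E n × E n => |l q.1 - l q.2|)
        ((volume.restrict (ball x r)).prod (volume.restrict (ball x r))) :=
      ((hlint.comp_fst _).sub (hlint.comp_snd _)).norm
    exact h1.integral_prod_left
  have hJ0 : ∀ y, 0 ≤ J y := fun y => integral_nonneg fun z => abs_nonneg _
  -- the pointwise estimate
  have hlr : ContinuousOn (fun y => l (x + r • y)) (closedBall (0 : E n) 1) := by
    refine hlcont.comp (by fun_prop) ?_
    intro y hy
    rw [mem_closedBall, dist_zero_right] at hy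
    rw [mem_closedBall, dist_eq_norm, add_sub_cancel_left, norm_smul, Real.norm_eq_abs,
      abs_of_pos hr]
    nlinarith
  have hint : Integrable (fun y => φ y * l (x + r • y)) := by
    have h1 : IntegrableOn (fun y => φ y * l (x + r • y)) (closedBall (0 : E n) 1) :=
      (hK.smooth.continuous.continuousOn.mul hlr).integrableOn_compact (isCompact_closedBall _ _)
    refine (integrableOn_iff_integrable_of_support_subset ?_).1 h1
    intro y hy
    rw [mem_closedBall, dist_zero_right]
    by_contra h2
    push Not at h2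
    exact hy (by show φ y * _ = 0; rw [hK.supp y h2.le, zero_mul])
  have key : ∀ a ∈ ball y₀ δ, Real.log c - cv φ r l x ≤ M * (r ^ n)⁻¹ * J a := by
    intro a ha
    have hca : c < w a := (hball ha).2
    have hla : Real.log c ≤ l a := Real.log_le_log hcpos (by linarith)
    have h1 : l a - cv φ r l x = ∫ y, φ y * (l a - l (x + r • y)) := by
      have h2 : ∀ y, φ y * (l a - l (x + r • y)) = φ y * l a - φ y * l (x + r • y) := fun y => by
        ring
      simp_rw [h2]
      rw [integral_sub (hφint.mul_const _) hint, integral_mul_const, hK.one, one_mul]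
      rfl
    have h3 : ∫ y, φ y * (l a - l (x + r • y)) ≤
        ∫ y in ball (0 : E n) 1, M * |l a - l (x + r • y)| := by
      rw [← integral_indicator measurableSet_ball]
      refine integral_mono ?_ ?_ ?_
      · have h2 : ∀ y, φ y * (l a - l (x + r • y)) = φ y * l a - φ y * l (x + r • y) := fun y => by
          ring
        simp_rw [h2]
        exact (hφint.mul_const _).sub hint
      · rw [integrable_indicator_iff measurableSet_ball]
        refine IntegrableOn.mono_set ?_ (ball_subset_closedBall (x := (0 : E n)) (ε := 1))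
        exact (continuousOn_const.mul (continuousOn_const.sub hlr).abs).integrableOn_compact
          (isCompact_closedBall _ _)
      · intro y
        by_cases hy : y ∈ ball (0 : E n) 1
        · rw [indicator_of_mem hy]
          exact (mul_le_mul_of_nonneg_left (le_abs_self _) (hφ0 y)).trans
            (mul_le_mul_of_nonneg_right (hφM y) (abs_nonneg _))
        · rw [indicator_of_notMem hy]
          rw [mem_ball, dist_zero_right] at hy
          show φ y * _ ≤ 0
          rw [hK.supp y (not_lt.1 hy), zero_mul]
    have h4 : ∫ y in ball (0 : E n) 1, M * |l a - l (x + r • y)| = M * (r ^ n)⁻¹ * J a := by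
      rw [integral_const_mul, low_cov (fun z => |l a - l z|) x hr, mul_assoc]
    linarith
  have h5 := setIntegral_ge_of_const_le_real (μ := volume) (s := ball y₀ δ)
    (f := fun a => M * (r ^ n)⁻¹ * J a) measurableSet_ball measure_ball_lt_top.ne key
    (((hJint.mono_set fun a ha => (hball ha).1)).const_mul _)
  have h6 : ∫ a in ball y₀ δ, M * (r ^ n)⁻¹ * J a ≤ M * (r ^ n)⁻¹ * ∫ a in ball x r, J a := by
    rw [integral_const_mul]
    refine mul_le_mul_of_nonneg_left ?_ (by positivity)
    exact setIntegral_mono_set hJint (Eventually.of_forall hJ0)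
      (Eventually.of_forall fun a ha => (hball ha).1)
  have h7 : (Real.log c - cv φ r l x) * volume.real (ball y₀ δ) ≤
      M * (r ^ n)⁻¹ * (C₀ * r ^ (n + 1) * B) :=
    h5.trans (h6.trans (mul_le_mul_of_nonneg_left hP' (by positivity)))
  have h8 : Real.log c - cv φ r l x ≤
      (M * (r ^ n)⁻¹ * (C₀ * r ^ (n + 1) * B)) / volume.real (ball y₀ δ) := by
    rw [le_div_iff₀ hvol]
    exact h7
  linarith

end Pool.Agent.SCN
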