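import Pool.Agent.SCN.P_POI
import Pool.Agent.SCN.P_EQL
import Pool.Agent.SCN.P_LPC

/-! # Strong comparison for `p`-harmonic functions: the `L^p` bound of `u - cv u` -/

set_option autoImplicit false

open Set MeasureTheory Filter Topology Metric
open scoped RealInnerProductSpace ENNReal

namespace Pool.Agent.SCN

open Pool.Agent.SCP (E PHarm V)

variable {n : ℕ}

/-- Jensen for a probability measure. -/
theorem lpk_jensen {α : Type*} [MeasurableSpace α] {μ : Measure α} [IsProbabilityMeasure μ] {p : ℝ}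
    (hp : 1 ≤ p) {f : α → ℝ≥0∞} (hf : Measurable f) :
    (∫⁻ a, f a ∂μ) ^ p ≤ ∫⁻ a, f a ^ p ∂μ := by
  have h := eLpNorm'_le_eLpNorm'_of_exponent_le (f := f) one_pos hp μ hf.aestronglyMeasurable
  have hp0 : 0 < p := by linarith
  rw [eLpNorm'_eq_lintegral_enorm, eLpNorm'_eq_lintegral_enorm] at h
  simp only [enorm_eq_self, ENNReal.rpow_one, div_one] at h
  calc (∫⁻ a, f a ∂μ) ^ p ≤ ((∫⁻ a, f a ^ p ∂μ) ^ (1 / p)) ^ p :=
        ENNReal.rpow_le_rpow h hp0.le
    _ = ∫⁻ a, f a ^ p ∂μ := by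
        rw [← ENNReal.rpow_mul, one_div, inv_mul_cancel₀ hp0.ne', ENNReal.rpow_one]

/-- Jensen for a density. -/
theorem lpk_density {w : E n → ℝ≥0∞} (hw : Measurable w) (h1 : ∫⁻ y, w y = 1) {p : ℝ}
    (hp : 1 ≤ p) {F : E n → ℝ≥0∞} (hF : Measurable F) :
    (∫⁻ y, w y * F y) ^ p ≤ ∫⁻ y, w y * F y ^ p := by
  have hpm : IsProbabilityMeasure ((volume : Measure (E n)).withDensity w) := by
    refine ⟨?_⟩
    rw [withDensity_apply _ MeasurableSet.univ, Measure.restrict_univ, h1]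
  have h2 := lpk_jensen (μ := (volume : Measure (E n)).withDensity w) hp hF
  rw [lintegral_withDensity_eq_lintegral_mul _ hw hF,
    lintegral_withDensity_eq_lintegral_mul _ hw (hF.pow_const p)] at h2
  exact h2

/-- The total mass. -/
theorem lpk_mass {φ Φ : E n → ℝ} (hK : Ker φ Φ) : ∫⁻ y, ‖φ y‖ₑ = 1 := by
  have hi : Integrable φ := by
    by_contra h
    have h1 := hK.one
    rw [integral_undef h] at h1
    exact zero_ne_one h1
  rw [← ofReal_integral_norm_eq_lintegral_enorm hi]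
  have h2 : ∫ y, ‖φ y‖ = 1 := by
    rw [← hK.one]
    apply integral_congr_ae
    exact Eventually.of_forall fun y => Real.norm_of_nonneg (lpc_nn hK y)
  rw [h2, ENNReal.ofReal_one]

/-- Tonelli. -/
theorem lpk_tonelli {w : E n → ℝ≥0∞} (hw : Measurable w) (h1 : ∫⁻ y, w y = 1)
    {H : E n → ℝ≥0∞} (hH : Measurable H) (d : ℝ) :
    ∫⁻ x, ∫⁻ y, w y * ∫⁻ t in Ioc (0 : ℝ) 1, H ((1 - t) • x + t • (x + d • y)) =
      ∫⁻ z, H z := by
  have hm : Measurable (fun q : (E n × E n) × ℝ =>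
      H ((1 - q.2) • q.1.1 + q.2 • (q.1.1 + d • q.1.2))) := by
    apply hH.comp
    fun_prop
  have hm1 : Measurable (fun q : E n × E n =>
      ∫⁻ t in Ioc (0 : ℝ) 1, H ((1 - t) • q.1 + t • (q.1 + d • q.2))) :=
    hm.lintegral_prod_right'
  have hm2 : Measurable (fun q : E n × E n =>
      w q.2 * ∫⁻ t in Ioc (0 : ℝ) 1, H ((1 - t) • q.1 + t • (q.1 + d • q.2))) :=
    (hw.comp measurable_snd).mul hm1
  rw [lintegral_lintegral_swap hm2.aemeasurable]
  have h2 : ∀ y : E n, ∫⁻ x, w y * ∫⁻ t in Ioc (0 : ℝ) 1, H ((1 - t) • x + t • (x + d • y)) =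
      w y * ∫⁻ z, H z := by
    intro y
    have hmy : Measurable (fun q : E n × ℝ => H ((1 - q.2) • q.1 + q.2 • (q.1 + d • y))) := by
      apply hH.comp
      fun_prop
    have hmy1 : Measurable (fun x : E n =>
        ∫⁻ t in Ioc (0 : ℝ) 1, H ((1 - t) • x + t • (x + d • y))) := hmy.lintegral_prod_right'
    rw [lintegral_const_mul _ hmy1]
    congr 1
    rw [lintegral_lintegral_swap]
    · have h3 : ∀ t : ℝ, ∫⁻ x, H ((1 - t) • x + t • (x + d • y)) = ∫⁻ z, H z := by
        intro t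
        have h4 : ∀ x : E n, (1 - t) • x + t • (x + d • y) = x + (t * d) • y := by
          intro x
          rw [smul_add, smul_smul, ← add_assoc, ← add_smul, sub_add_cancel, one_smul]
        simp only [h4]
        exact lintegral_add_right_eq_self H _
      simp only [h3]
      rw [lintegral_const, Measure.restrict_apply_univ, Real.volume_Ioc]
      norm_num
    · exact hmy.aemeasurable
  simp only [h2]
  rw [lintegral_mul_const _ hw, h1, one_mul]

/-- The pointwise bound. -/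
theorem lpk_point {φ Φ : E n → ℝ} (hK : Ker φ Φ) {Ω : Set (E n)} {u : E n → ℝ} (hΩ : IsOpen Ω)
    (hu : ContDiffOn ℝ 1 u Ω) (hB : closedBall 0 4 ⊆ Ω) {d : ℝ} (hd : 0 ≤ d) (hd4 : d ≤ 1 / 4)
    {x : E n} (hx : x ∈ ball (0 : E n) (15 / 4)) :
    ‖u x - cv φ d u x‖ₑ ≤ ENNReal.ofReal d * ∫⁻ y, ‖φ y‖ₑ * ∫⁻ t in Ioc (0 : ℝ) 1,
      (ball (0 : E n) 4).indicator (fun w => ‖gradient u w‖ₑ)
        ((1 - t) • x + t • (x + d • y)) := by
  have hx' : ‖x‖ < 15 / 4 := by rwa [mem_ball_zero_iff] at hx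
  have hxB : x ∈ ball (0 : E n) 4 := by
    rw [mem_ball_zero_iff]
    linarith
  have hcont : ContinuousOn u (closedBall x d) := by
    refine hu.continuousOn.mono ((closedBall_subset_closedBall' ?_).trans hB)
    rw [dist_zero_right]
    linarith
  have hi1 := lpc_int hK hd hcont
  have hi0 : Integrable φ := by
    by_contra h
    have h1 := hK.one
    rw [integral_undef h] at h1
    exact zero_ne_one h1
  have h1 : u x - cv φ d u x = ∫ y, φ y * (u x - u (x + d • y)) := by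
    have h2 : ∀ y, φ y * (u x - u (x + d • y)) = φ y * u x - φ y * u (x + d • y) := by
      intro y
      ring
    simp only [h2]
    rw [integral_sub (hi0.mul_const _) hi1, integral_mul_const, hK.one, one_mul]
    rfl
  rw [h1]
  refine (enorm_integral_le_lintegral_enorm _).trans ?_
  rw [← lintegral_const_mul' _ _ ENNReal.ofReal_ne_top]
  apply lintegral_mono
  intro y
  rcases lt_or_ge ‖y‖ 1 with h | h
  · have hy : x + d • y ∈ ball (0 : E n) 4 := by
      rw [mem_ball_zero_iff]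
      calc ‖x + d • y‖ ≤ ‖x‖ + ‖d • y‖ := norm_add_le _ _
        _ = ‖x‖ + d * ‖y‖ := by rw [norm_smul, Real.norm_of_nonneg hd]
        _ < 4 := by nlinarith [norm_nonneg y]
    have h2 := eql_seg hΩ hu hB hxB hy
    have h3 : ‖x - (x + d • y)‖ₑ ≤ ENNReal.ofReal d := by
      rw [← ofReal_norm]
      apply ENNReal.ofReal_le_ofReal
      rw [sub_add_cancel_left, norm_neg, norm_smul, Real.norm_of_nonneg hd]
      nlinarith [norm_nonneg y]
    simp only
    rw [enorm_mul]
    calc ‖φ y‖ₑ * ‖u x - u (x + d • y)‖ₑ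
        ≤ ‖φ y‖ₑ * (ENNReal.ofReal d * ∫⁻ t in Ioc (0 : ℝ) 1,
          (ball (0 : E n) 4).indicator (fun w => ‖gradient u w‖ₑ)
            ((1 - t) • x + t • (x + d • y))) := by
          gcongr
          exact h2.trans (mul_le_mul_left h3 _)
      _ = _ := by ring
  · simp only
    rw [hK.supp y h, zero_mul, enorm_zero]
    simp

theorem p_LPK : T_LPK := by
  intro n φ Φ hK p Ω u hp hΩ hu hB d hd hd4
  have hp0 : 0 < p := by linarith
  set G : E n → ℝ≥0∞ := (ball (0 : E n) 4).indicator (fun w => ‖gradient u w‖ₑ) with hGdef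
  have hG : Measurable G := (poi_meas u).enorm.indicator measurableSet_ball
  have hw : Measurable fun y : E n => ‖φ y‖ₑ := hK.smooth.continuous.measurable.enorm
  have hw1 : ∫⁻ y, ‖φ y‖ₑ = 1 := lpk_mass hK
  have hgc : ContinuousOn (gradient u) Ω := by
    have hc : ContinuousOn (fderiv ℝ u) Ω := hu.continuousOn_fderiv_of_isOpen hΩ (by norm_num)
    exact (InnerProductSpace.toDual ℝ (E n)).symm.continuous.comp_continuousOn hc
  have hgp : ContinuousOn (fun z => ‖gradient u z‖ ^ p) (closedBall (0 : E n) 4) :=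
    ((hgc.mono hB).norm).rpow_const fun z _ => Or.inr hp0.le
  have hgi : IntegrableOn (fun z => ‖gradient u z‖ ^ p) (ball (0 : E n) 4) :=
    (hgp.integrableOn_compact (isCompact_closedBall _ _)).mono_set ball_subset_closedBall
  have hGint : ∫⁻ z, G z ^ p = ENNReal.ofReal (∫ z in ball (0 : E n) 4, ‖gradient u z‖ ^ p) := by
    rw [ofReal_integral_eq_lintegral_ofReal hgi
      (Eventually.of_forall fun z => Real.rpow_nonneg (norm_nonneg _) _),
      ← lintegral_indicator measurableSet_ball]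
    apply lintegral_congr
    intro z
    by_cases hz : z ∈ ball (0 : E n) 4
    · rw [hGdef, indicator_of_mem hz, indicator_of_mem hz, ← ofReal_norm,
        ENNReal.ofReal_rpow_of_nonneg (norm_nonneg _) hp0.le]
    · rw [hGdef, indicator_of_notMem hz, indicator_of_notMem hz, ENNReal.zero_rpow_of_pos hp0]
  have hm : Measurable (fun q : (E n × E n) × ℝ =>
      G ((1 - q.2) • q.1.1 + q.2 • (q.1.1 + d • q.1.2))) := by
    apply hG.comp
    fun_prop
  have hpt : ∀ x ∈ ball (0 : E n) (15 / 4), ‖|u x - cv φ d u x| ^ p‖ₑ ≤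
      ENNReal.ofReal (d ^ p) * ∫⁻ y, ‖φ y‖ₑ * ∫⁻ t in Ioc (0 : ℝ) 1,
        G ((1 - t) • x + t • (x + d • y)) ^ p := by
    intro x hx
    have h1 : ‖|u x - cv φ d u x| ^ p‖ₑ = ‖u x - cv φ d u x‖ₑ ^ p := by
      rw [← ofReal_norm, ← ofReal_norm, ENNReal.ofReal_rpow_of_nonneg (norm_nonneg _) hp0.le,
        Real.norm_of_nonneg (Real.rpow_nonneg (abs_nonneg _) _), Real.norm_eq_abs]
    have h2 := lpk_point hK hΩ hu hB hd hd4 hx
    have hmx : Measurable (fun q : E n × ℝ => G ((1 - q.2) • x + q.2 • (x + d • q.1))) := by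
      apply hG.comp
      fun_prop
    have hmx1 : Measurable (fun y : E n =>
        ∫⁻ t in Ioc (0 : ℝ) 1, G ((1 - t) • x + t • (x + d • y))) := hmx.lintegral_prod_right'
    rw [h1]
    calc ‖u x - cv φ d u x‖ₑ ^ p
        ≤ (ENNReal.ofReal d * ∫⁻ y, ‖φ y‖ₑ * ∫⁻ t in Ioc (0 : ℝ) 1,
          G ((1 - t) • x + t • (x + d • y))) ^ p := ENNReal.rpow_le_rpow h2 hp0.le
      _ = ENNReal.ofReal (d ^ p) * (∫⁻ y, ‖φ y‖ₑ * ∫⁻ t in Ioc (0 : ℝ) 1,
          G ((1 - t) • x + t • (x + d • y))) ^ p := by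
          rw [ENNReal.mul_rpow_of_nonneg _ _ hp0.le, ENNReal.ofReal_rpow_of_nonneg hd hp0.le]
      _ ≤ ENNReal.ofReal (d ^ p) * ∫⁻ y, ‖φ y‖ₑ * (∫⁻ t in Ioc (0 : ℝ) 1,
          G ((1 - t) • x + t • (x + d • y))) ^ p := by
          gcongr
          exact lpk_density hw hw1 hp hmx1
      _ ≤ _ := by
          gcongr with y
          have hpm : IsProbabilityMeasure (volume.restrict (Ioc (0 : ℝ) 1)) := by
            refine ⟨?_⟩
            rw [Measure.restrict_apply_univ, Real.volume_Ioc]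
            norm_num
          have hmt : Measurable fun t : ℝ => G ((1 - t) • x + t • (x + d • y)) := by
            apply hG.comp
            fun_prop
          exact lpk_jensen hp hmt
  have hmain : ‖∫ x in ball (0 : E n) (15 / 4), |u x - cv φ d u x| ^ p‖ₑ ≤
      ENNReal.ofReal (d ^ p * ∫ x in ball (0 : E n) 4, ‖gradient u x‖ ^ p) := by
    calc ‖∫ x in ball (0 : E n) (15 / 4), |u x - cv φ d u x| ^ p‖ₑ
        ≤ ∫⁻ x in ball (0 : E n) (15 / 4), ‖|u x - cv φ d u x| ^ p‖ₑ :=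
          enorm_integral_le_lintegral_enorm _
      _ ≤ ∫⁻ x in ball (0 : E n) (15 / 4), ENNReal.ofReal (d ^ p) * ∫⁻ y, ‖φ y‖ₑ *
          ∫⁻ t in Ioc (0 : ℝ) 1, G ((1 - t) • x + t • (x + d • y)) ^ p :=
          setLIntegral_mono' measurableSet_ball hpt
      _ ≤ ∫⁻ x, ENNReal.ofReal (d ^ p) * ∫⁻ y, ‖φ y‖ₑ *
          ∫⁻ t in Ioc (0 : ℝ) 1, G ((1 - t) • x + t • (x + d • y)) ^ p :=
          setLIntegral_le_lintegral _ _
      _ = ENNReal.ofReal (d ^ p) * ∫⁻ x, ∫⁻ y, ‖φ y‖ₑ *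
          ∫⁻ t in Ioc (0 : ℝ) 1, G ((1 - t) • x + t • (x + d • y)) ^ p :=
          lintegral_const_mul' _ _ ENNReal.ofReal_ne_top
      _ = ENNReal.ofReal (d ^ p) * ∫⁻ z, G z ^ p := by
          rw [lpk_tonelli hw hw1 (H := fun z => G z ^ p) (hG.pow_const p) d]
      _ = _ := by
          rw [hGint, ENNReal.ofReal_mul (Real.rpow_nonneg hd _)]
  have h5 : 0 ≤ ∫ x in ball (0 : E n) 4, ‖gradient u x‖ ^ p :=
    integral_nonneg fun y => Real.rpow_nonneg (norm_nonneg _) _
  rw [← ofReal_norm] at hmain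
  have h6 := (ENNReal.ofReal_le_ofReal_iff (mul_nonneg (Real.rpow_nonneg hd _) h5)).mp hmain
  exact (le_abs_self _).trans h6

end Pool.Agent.SCN
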