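import Pool.Agent.SCN.Targets

/-!
# SCN: target MIN
-/

set_option autoImplicit false

open Set MeasureTheory Filter Topology Metric
open scoped RealInnerProductSpace

namespace Pool.Agent.SCN

open Pool.Agent.SCP (E PHarm V)

variable {n : ℕ}

lemma min_contGrad {Ω : Set (E n)} {u : E n → ℝ} (hΩ : IsOpen Ω)
    (hu : ContDiffOn ℝ 1 u Ω) : ContinuousOn (gradient u) Ω := by
  have h1 : ContinuousOn (fderiv ℝ u) Ω := hu.continuousOn_fderiv_of_isOpen hΩ (le_refl _)
  exact (InnerProductSpace.toDual ℝ (E n)).symm.continuous.comp_continuousOn h1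

lemma min_grad_mul {f e : E n → ℝ} {x : E n} (he : DifferentiableAt ℝ e x)
    (hf : DifferentiableAt ℝ f x) :
    gradient (fun y => e y * f y) x = e x • gradient f x + f x • gradient e x := by
  unfold gradient
  rw [fderiv_fun_mul he hf, map_add]
  simp

lemma min_grad_sub {f e : E n → ℝ} {x : E n} (he : DifferentiableAt ℝ e x)
    (hf : DifferentiableAt ℝ f x) (c : ℝ) :
    gradient (fun y => e y - c - f y) x = gradient e x - gradient f x := by
  unfold gradient
  rw [fderiv_fun_sub (he.sub_const c) hf, fderiv_sub_const, map_sub]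

lemma min_young {x y δ p : ℝ} (hx : 0 ≤ x) (hy : 0 ≤ y) (hδ : 0 < δ) (hδ1 : δ ≤ 1)
    (hp : 1 < p) (hp3 : p ≤ 3) : x * y ^ (p - 1) ≤ δ * y ^ p + δ⁻¹ ^ 2 * x ^ p := by
  have hd : 1 ≤ δ⁻¹ := (one_le_inv₀ hδ).mpr hδ1
  rcases le_or_gt x (δ * y) with h | h
  · have h1 : x * y ^ (p - 1) ≤ δ * y ^ p := by
      rcases hy.eq_or_lt with h0 | h0
      · rw [← h0, Real.zero_rpow (by linarith), Real.zero_rpow (by linarith)]
        simp
      · have h2 : y ^ p = y * y ^ (p - 1) := by
          rw [← Real.rpow_one_add' hy (by linarith)]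
          congr 1
          ring
        rw [h2, ← mul_assoc]
        exact mul_le_mul_of_nonneg_right h (Real.rpow_nonneg hy _)
    have h2 : 0 ≤ δ⁻¹ ^ 2 * x ^ p := by positivity
    linarith
  · have hx0 : 0 < x := lt_of_le_of_lt (by positivity) h
    have h1 : y ≤ δ⁻¹ * x := by
      rw [le_inv_mul_iff₀ hδ]
      exact h.le
    have h2 : x * y ^ (p - 1) ≤ x * (δ⁻¹ * x) ^ (p - 1) := by
      refine mul_le_mul_of_nonneg_left ?_ hx
      exact Real.rpow_le_rpow hy h1 (by linarith)
    have h3 : x * (δ⁻¹ * x) ^ (p - 1) = δ⁻¹ ^ (p - 1) * x ^ p := by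
      rw [Real.mul_rpow (by positivity) hx]
      have h4 : x ^ p = x * x ^ (p - 1) := by
        rw [← Real.rpow_one_add' hx (by linarith)]
        congr 1
        ring
      rw [h4]
      ring
    have h4 : δ⁻¹ ^ (p - 1) ≤ δ⁻¹ ^ 2 := by
      rw [← Real.rpow_natCast]
      exact Real.rpow_le_rpow_of_exponent_le hd (by push_cast; linarith)
    have h5 : δ⁻¹ ^ (p - 1) * x ^ p ≤ δ⁻¹ ^ 2 * x ^ p :=
      mul_le_mul_of_nonneg_right h4 (Real.rpow_nonneg hx _)
    have h6 : 0 ≤ δ * y ^ p := by positivity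
    linarith

lemma min_normV {p : ℝ} (hp : 1 < p) (ξ : E n) : ‖V p ξ‖ = ‖ξ‖ ^ (p - 1) :=
  SCP.MONO_.norm_V hp ξ

lemma min_V2 (ξ : E n) : V 2 ξ = ξ := by
  simp [V]

/-- the cut-off function -/
noncomputable def min_bp : ContDiffBump (0 : E n) where
  rIn := 5 / 2
  rOut := 11 / 4
  rIn_pos := by norm_num
  rIn_lt_rOut := by norm_num

lemma min_key {p K : ℝ} (hp : 1 < p) {Ω : Set (E n)} (hΩ : IsOpen Ω)
    (hΩ3 : closedBall (0 : E n) 3 ⊆ Ω) {u h : E n → ℝ} (c : ℝ) (hu : PHarm p Ω u)
    (hh : PHarm 2 Ω h) (hK : ∀ x, 2 * ‖gradient (min_bp : ContDiffBump (0 : E n)) x‖ ≤ K) :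
    ∫ x in ball (0 : E n) (5 / 2),
      ⟪V p (gradient u x) - V p (gradient h x), gradient u x - gradient h x⟫ ≤
    K * (∫ x in ball (0 : E n) 3, |u x - c - h x| * ‖gradient u x‖ ^ (p - 1)) +
    (∫ x in ball (0 : E n) 3, ‖gradient h x - V p (gradient h x)‖ *
      ‖gradient u x - gradient h x‖) +
    K * ∫ x in ball (0 : E n) 3, |u x - c - h x| * ‖gradient h x‖ := by
  have cV : Continuous (V p : E n → E n) := (SCP.mono n p hp).1
  set η : E n → ℝ := ⇑(min_bp : ContDiffBump (0 : E n)) with hη
  have ηs : ContDiff ℝ (⊤ : ℕ∞) η := (min_bp : ContDiffBump (0 : E n)).contDiff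
  have ηs1 : ContDiff ℝ 1 η := (min_bp : ContDiffBump (0 : E n)).contDiff
  have ηt : tsupport η = closedBall (0 : E n) (11 / 4) :=
    (min_bp : ContDiffBump (0 : E n)).tsupport_eq
  have η0 : ∀ x, 0 ≤ η x := fun x => (min_bp : ContDiffBump (0 : E n)).nonneg
  have η1 : ∀ x, η x ≤ 1 := fun x => (min_bp : ContDiffBump (0 : E n)).le_one
  have ηi : ∀ x ∈ ball (0 : E n) (5 / 2), η x = 1 := fun x hx =>
    (min_bp : ContDiffBump (0 : E n)).one_of_mem_closedBall (ball_subset_closedBall hx)
  set g : E n → ℝ := fun x => u x - c - h x with hg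
  have gC : ContDiffOn ℝ 1 g Ω := (hu.1.sub contDiffOn_const).sub hh.1
  set ψ : E n → ℝ := fun x => (η x * η x) * g x with hψ
  have hsub : tsupport ψ ⊆ closedBall (0 : E n) (11 / 4) := by
    rw [← ηt]
    refine closure_mono ?_
    intro x hx hx0
    apply hx
    show (η x * η x) * g x = 0
    rw [hx0]
    simp
  have hb3 : closedBall (0 : E n) (11 / 4) ⊆ ball (0 : E n) 3 :=
    closedBall_subset_ball (by norm_num)
  have hψC : ContDiff ℝ 1 ψ := by
    refine contDiff_iff_contDiffAt.mpr fun x => ?_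
    by_cases hx : x ∈ tsupport ψ
    · have hx' : x ∈ Ω := hΩ3 (ball_subset_closedBall (hb3 (hsub hx)))
      exact (ηs1.contDiffAt.mul ηs1.contDiffAt).mul (gC.contDiffAt (hΩ.mem_nhds hx'))
    · exact contDiffAt_const.congr_of_eventuallyEq (notMem_tsupport_iff_eventuallyEq.mp hx)
  have hψc : HasCompactSupport ψ :=
    (isCompact_closedBall (0 : E n) (11 / 4)).of_isClosed_subset (isClosed_tsupport _) hsub
  have hψΩ : tsupport ψ ⊆ Ω := hsub.trans (hb3.trans (ball_subset_closedBall.trans hΩ3))
  have hψg : ∀ x, x ∉ ball (0 : E n) 3 → gradient ψ x = 0 := by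
    intro x hx
    have h1 : fderiv ℝ ψ x = 0 := by
      by_contra h2
      exact hx (hb3 (hsub (support_fderiv_subset ℝ h2)))
    unfold gradient
    rw [h1, map_zero]
  have wu := weak hp hΩ hu hψC hψc hψΩ
  have wh := weak (by norm_num) hΩ hh hψC hψc hψΩ
  rw [← setIntegral_eq_integral_of_forall_compl_eq_zero (s := ball (0 : E n) 3)
    (fun x hx => by rw [hψg x hx, inner_zero_right])] at wu wh
  simp only [min_V2] at wh
  have hgr : ∀ x ∈ closedBall (0 : E n) 3, gradient ψ x = (η x * η x) •
      (gradient u x - gradient h x) + (2 * η x * g x) • gradient η x := by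
    intro x hx
    have hx' : x ∈ Ω := hΩ3 hx
    have du : DifferentiableAt ℝ u x :=
      (hu.1.contDiffAt (hΩ.mem_nhds hx')).differentiableAt (by norm_num)
    have dh : DifferentiableAt ℝ h x :=
      (hh.1.contDiffAt (hΩ.mem_nhds hx')).differentiableAt (by norm_num)
    have dη : DifferentiableAt ℝ η x := (ηs1.differentiable (by norm_num)) x
    have e1 : gradient ψ x = (η x * η x) • gradient g x +
        g x • gradient (fun y => η y * η y) x :=
      min_grad_mul (e := fun y => η y * η y) (f := g) (dη.mul dη) ((du.sub_const c).sub dh)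
    have e2 : gradient (fun y => η y * η y) x = η x • gradient η x + η x • gradient η x :=
      min_grad_mul dη dη
    have e3 : gradient g x = gradient u x - gradient h x := min_grad_sub du dh c
    rw [e1, e2, e3]
    module
  have cu : ContinuousOn (gradient u) (closedBall (0 : E n) 3) :=
    (min_contGrad hΩ hu.1).mono hΩ3
  have ch : ContinuousOn (gradient h) (closedBall (0 : E n) 3) :=
    (min_contGrad hΩ hh.1).mono hΩ3
  have cη : Continuous (gradient η) :=
    (InnerProductSpace.toDual ℝ (E n)).symm.continuous.comp (ηs1.continuous_fderiv (by norm_num))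
  have cψ : Continuous (gradient ψ) :=
    (InnerProductSpace.toDual ℝ (E n)).symm.continuous.comp (hψC.continuous_fderiv (by norm_num))
  have cg : ContinuousOn g (closedBall (0 : E n) 3) := gC.continuousOn.mono hΩ3
  have cVu : ContinuousOn (fun x => V p (gradient u x)) (closedBall (0 : E n) 3) :=
    cV.comp_continuousOn cu
  have cVh : ContinuousOn (fun x => V p (gradient h x)) (closedBall (0 : E n) 3) :=
    cV.comp_continuousOn ch
  have cηη : ContinuousOn (fun x => η x * η x) (closedBall (0 : E n) 3) :=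
    (ηs1.continuous.mul ηs1.continuous).continuousOn
  have int : ∀ f : E n → ℝ, ContinuousOn f (closedBall (0 : E n) 3) →
      IntegrableOn f (ball (0 : E n) 3) volume := fun f hf =>
    (hf.integrableOn_compact (isCompact_closedBall _ _)).mono_set ball_subset_closedBall
  set F : E n → ℝ := fun x => (η x * η x) *
    ⟪V p (gradient u x) - V p (gradient h x), gradient u x - gradient h x⟫ with hF
  have iF : IntegrableOn F (ball (0 : E n) 3) volume :=
    int _ (cηη.mul ((cVu.sub cVh).inner (cu.sub ch)))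
  have F0 : ∀ x, 0 ≤ F x := by
    intro x
    refine mul_nonneg (mul_nonneg (η0 x) (η0 x)) ?_
    by_cases hx : gradient u x = gradient h x
    · rw [hx]; simp
    · exact ((SCP.mono n p hp).2 _ _ hx).le
  have s1 : ∫ x in ball (0 : E n) (5 / 2),
      ⟪V p (gradient u x) - V p (gradient h x), gradient u x - gradient h x⟫ =
      ∫ x in ball (0 : E n) (5 / 2), F x := by
    refine setIntegral_congr_fun measurableSet_ball fun x hx => ?_
    simp only [hF, ηi x hx, one_mul]
  have s2 : ∫ x in ball (0 : E n) (5 / 2), F x ≤ ∫ x in ball (0 : E n) 3, F x :=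
    setIntegral_mono_set iF (Eventually.of_forall F0)
      (ball_subset_ball (by norm_num)).eventuallyLE
  have i1 : IntegrableOn (fun x => ⟪V p (gradient u x), gradient ψ x⟫) (ball (0 : E n) 3)
      volume := int _ (cVu.inner cψ.continuousOn)
  have i2 : IntegrableOn (fun x => ⟪gradient h x, gradient ψ x⟫) (ball (0 : E n) 3)
      volume := int _ (ch.inner cψ.continuousOn)
  have i3 : IntegrableOn (fun x => |g x| * ‖gradient u x‖ ^ (p - 1)) (ball (0 : E n) 3)
      volume := int _ (cg.abs.mul (cu.norm.rpow_const fun x _ => Or.inr (by linarith)))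
  have i4 : IntegrableOn (fun x => ‖gradient h x - V p (gradient h x)‖ *
      ‖gradient u x - gradient h x‖) (ball (0 : E n) 3)
      volume := int _ ((ch.sub cVh).norm.mul (cu.sub ch).norm)
  have i5 : IntegrableOn (fun x => |g x| * ‖gradient h x‖) (ball (0 : E n) 3)
      volume := int _ (cg.abs.mul ch.norm)
  have s3 : ∫ x in ball (0 : E n) 3, F x ≤ ∫ x in ball (0 : E n) 3,
      (⟪V p (gradient u x), gradient ψ x⟫ - ⟪gradient h x, gradient ψ x⟫ +
      (K * (|g x| * ‖gradient u x‖ ^ (p - 1)) + ‖gradient h x - V p (gradient h x)‖ *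
      ‖gradient u x - gradient h x‖ + K * (|g x| * ‖gradient h x‖))) := by
    refine setIntegral_mono_on iF ((i1.sub i2).add (((i3.const_mul K).add i4).add
      (i5.const_mul K))) measurableSet_ball fun x hx => ?_
    have hx' := ball_subset_closedBall hx
    have e1 : F x = ⟪V p (gradient u x), gradient ψ x⟫ - ⟪gradient h x, gradient ψ x⟫ +
        (-(2 * η x * g x * ⟪V p (gradient u x), gradient η x⟫) +
        (η x * η x) * ⟪gradient h x - V p (gradient h x), gradient u x - gradient h x⟫ +
        2 * η x * g x * ⟪gradient h x, gradient η x⟫) := by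
      rw [hgr x hx', hF]
      simp only [inner_add_right, inner_sub_left, inner_smul_right]
      ring
    rw [e1]
    have b1 : -(2 * η x * g x * ⟪V p (gradient u x), gradient η x⟫) ≤
        K * (|g x| * ‖gradient u x‖ ^ (p - 1)) := by
      refine (neg_le_abs _).trans ?_
      rw [abs_mul, abs_mul, abs_mul, abs_two, abs_of_nonneg (η0 x)]
      have h1 : |⟪V p (gradient u x), gradient η x⟫| ≤
          ‖gradient u x‖ ^ (p - 1) * ‖gradient η x‖ := by
        rw [← min_normV hp]
        exact abs_real_inner_le_norm _ _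
      calc 2 * η x * |g x| * |⟪V p (gradient u x), gradient η x⟫|
          ≤ 2 * 1 * |g x| * (‖gradient u x‖ ^ (p - 1) * ‖gradient η x‖) := by
            gcongr
            exact η1 x
        _ = 2 * ‖gradient η x‖ * (|g x| * ‖gradient u x‖ ^ (p - 1)) := by ring
        _ ≤ K * (|g x| * ‖gradient u x‖ ^ (p - 1)) := by
            gcongr
            exact hK x
    have b2 : (η x * η x) * ⟪gradient h x - V p (gradient h x), gradient u x - gradient h x⟫ ≤
        ‖gradient h x - V p (gradient h x)‖ * ‖gradient u x - gradient h x‖ := by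
      refine (le_abs_self _).trans ?_
      rw [abs_mul, abs_of_nonneg (mul_nonneg (η0 x) (η0 x))]
      have h1 := abs_real_inner_le_norm (gradient h x - V p (gradient h x))
        (gradient u x - gradient h x)
      have h2 : η x * η x ≤ 1 := by
        have := mul_le_mul (η1 x) (η1 x) (η0 x) zero_le_one
        simpa using this
      calc (η x * η x) * |⟪gradient h x - V p (gradient h x), gradient u x - gradient h x⟫|
          ≤ 1 * (‖gradient h x - V p (gradient h x)‖ * ‖gradient u x - gradient h x‖) :=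
            mul_le_mul h2 h1 (abs_nonneg _) zero_le_one
        _ = _ := one_mul _
    have b3 : 2 * η x * g x * ⟪gradient h x, gradient η x⟫ ≤
        K * (|g x| * ‖gradient h x‖) := by
      refine (le_abs_self _).trans ?_
      rw [abs_mul, abs_mul, abs_mul, abs_two, abs_of_nonneg (η0 x)]
      have h1 := abs_real_inner_le_norm (gradient h x) (gradient η x)
      calc 2 * η x * |g x| * |⟪gradient h x, gradient η x⟫|
          ≤ 2 * 1 * |g x| * (‖gradient h x‖ * ‖gradient η x‖) := by
            gcongr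
            exact η1 x
        _ = 2 * ‖gradient η x‖ * (|g x| * ‖gradient h x‖) := by ring
        _ ≤ K * (|g x| * ‖gradient h x‖) := by
            gcongr
            exact hK x
    linarith
  rw [s1]
  refine s2.trans (s3.trans (le_of_eq ?_))
  have j1 : IntegrableOn (fun x => ⟪V p (gradient u x), gradient ψ x⟫ -
      ⟪gradient h x, gradient ψ x⟫) (ball (0 : E n) 3) volume := i1.sub i2
  have j3 : IntegrableOn (fun x => K * (|g x| * ‖gradient u x‖ ^ (p - 1))) (ball (0 : E n) 3)
      volume := i3.const_mul K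
  have j5 : IntegrableOn (fun x => K * (|g x| * ‖gradient h x‖)) (ball (0 : E n) 3)
      volume := i5.const_mul K
  have j34 : IntegrableOn (fun x => K * (|g x| * ‖gradient u x‖ ^ (p - 1)) +
      ‖gradient h x - V p (gradient h x)‖ * ‖gradient u x - gradient h x‖) (ball (0 : E n) 3)
      volume := j3.add i4
  have j345 : IntegrableOn (fun x => K * (|g x| * ‖gradient u x‖ ^ (p - 1)) +
      ‖gradient h x - V p (gradient h x)‖ * ‖gradient u x - gradient h x‖ +
      K * (|g x| * ‖gradient h x‖)) (ball (0 : E n) 3) volume := j34.add j5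
  rw [integral_add j1 j345, integral_sub i1 i2, wu, wh, integral_add j34 j5,
    integral_add j3 i4, integral_const_mul, integral_const_mul]
  ring

lemma min_bound {p C S δ : ℝ} (hC : 0 < C) (hS : 0 ≤ S) (hδ : 0 < δ) (hδ1 : δ ≤ 1)
    (hFB : ∀ ξ : E n, ‖ξ - V p ξ‖ ≤ C * |p - 2| * (1 + ‖ξ‖ ^ p))
    (hp : 1 < p) (hp3 : p ≤ 3) {Ω : Set (E n)} (hΩ : IsOpen Ω)
    (hΩ3 : closedBall (0 : E n) 3 ⊆ Ω) {u h : E n → ℝ} (c : ℝ) (hu : ContDiffOn ℝ 1 u Ω)
    (hh : ContDiffOn ℝ 1 h Ω) (hS' : ∀ x ∈ closedBall (0 : E n) 3, ‖gradient h x‖ ≤ S)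
    (he : ∫ x in ball (0 : E n) 3, ‖gradient u x‖ ^ p ≤ 1) :
    (∫ x in ball (0 : E n) 3, |u x - c - h x| * ‖gradient u x‖ ^ (p - 1)) ≤
      δ + δ⁻¹ ^ 2 * ∫ x in ball (0 : E n) 3, |u x - c - h x| ^ p ∧
    (∫ x in ball (0 : E n) 3, ‖gradient h x - V p (gradient h x)‖ *
      ‖gradient u x - gradient h x‖) ≤
      C * |p - 2| * (1 + (S + 1) ^ 3) * ((1 + S) * volume.real (ball (0 : E n) 3) + 1) ∧
    (∫ x in ball (0 : E n) 3, |u x - c - h x| * ‖gradient h x‖) ≤
      S * (δ * volume.real (ball (0 : E n) 3) +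
        δ⁻¹ ^ 2 * ∫ x in ball (0 : E n) 3, |u x - c - h x| ^ p) := by
  have cV : Continuous (V p : E n → E n) := (SCP.mono n p hp).1
  set g : E n → ℝ := fun x => u x - c - h x with hg
  have gC : ContDiffOn ℝ 1 g Ω := (hu.sub contDiffOn_const).sub hh
  have cu : ContinuousOn (gradient u) (closedBall (0 : E n) 3) :=
    (min_contGrad hΩ hu).mono hΩ3
  have ch : ContinuousOn (gradient h) (closedBall (0 : E n) 3) :=
    (min_contGrad hΩ hh).mono hΩ3
  have cVh : ContinuousOn (fun x => V p (gradient h x)) (closedBall (0 : E n) 3) :=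
    cV.comp_continuousOn ch
  have cg : ContinuousOn g (closedBall (0 : E n) 3) := gC.continuousOn.mono hΩ3
  have int : ∀ f : E n → ℝ, ContinuousOn f (closedBall (0 : E n) 3) →
      IntegrableOn f (ball (0 : E n) 3) volume := fun f hf =>
    (hf.integrableOn_compact (isCompact_closedBall _ _)).mono_set ball_subset_closedBall
  have i1 : IntegrableOn (fun x => |g x| * ‖gradient u x‖ ^ (p - 1)) (ball (0 : E n) 3)
      volume := int _ (cg.abs.mul (cu.norm.rpow_const fun x _ => Or.inr (by linarith)))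
  have i2 : IntegrableOn (fun x => ‖gradient u x‖ ^ p) (ball (0 : E n) 3)
      volume := int _ (cu.norm.rpow_const fun x _ => Or.inr (by linarith))
  have i3 : IntegrableOn (fun x => |g x| ^ p) (ball (0 : E n) 3)
      volume := int _ (cg.abs.rpow_const fun x _ => Or.inr (by linarith))
  have i4 : IntegrableOn (fun x => ‖gradient h x - V p (gradient h x)‖ *
      ‖gradient u x - gradient h x‖) (ball (0 : E n) 3)
      volume := int _ ((ch.sub cVh).norm.mul (cu.sub ch).norm)
  have i5 : IntegrableOn (fun x => |g x| * ‖gradient h x‖) (ball (0 : E n) 3)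
      volume := int _ (cg.abs.mul ch.norm)
  have ic : ∀ a : ℝ, IntegrableOn (fun _ : E n => a) (ball (0 : E n) 3) volume :=
    fun a => int _ continuousOn_const
  have vol : ∀ a : ℝ, ∫ _ in ball (0 : E n) 3, a = a * volume.real (ball (0 : E n) 3) := by
    intro a
    rw [setIntegral_const, smul_eq_mul, mul_comm]
  refine ⟨?_, ?_, ?_⟩
  · calc (∫ x in ball (0 : E n) 3, |g x| * ‖gradient u x‖ ^ (p - 1))
        ≤ ∫ x in ball (0 : E n) 3, (δ * ‖gradient u x‖ ^ p + δ⁻¹ ^ 2 * |g x| ^ p) := by
          refine setIntegral_mono_on i1 ((i2.const_mul _).add (i3.const_mul _))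
            measurableSet_ball fun x _ => ?_
          exact min_young (abs_nonneg _) (norm_nonneg _) hδ hδ1 hp hp3
      _ = δ * (∫ x in ball (0 : E n) 3, ‖gradient u x‖ ^ p) +
          δ⁻¹ ^ 2 * ∫ x in ball (0 : E n) 3, |g x| ^ p := by
          rw [integral_add (i2.const_mul _) (i3.const_mul _), integral_const_mul,
            integral_const_mul]
      _ ≤ _ := by
          have := mul_le_mul_of_nonneg_left he hδ.le
          linarith
  · set M : ℝ := C * |p - 2| * (1 + (S + 1) ^ 3) with hM
    have hM0 : 0 ≤ M := by positivity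
    calc (∫ x in ball (0 : E n) 3, ‖gradient h x - V p (gradient h x)‖ *
          ‖gradient u x - gradient h x‖)
        ≤ ∫ x in ball (0 : E n) 3, M * ((1 + S) + ‖gradient u x‖ ^ p) := by
          refine setIntegral_mono_on i4 (((ic _).add i2).const_mul _)
            measurableSet_ball fun x hx => ?_
          have hx' := hS' x (ball_subset_closedBall hx)
          refine mul_le_mul ?_ ?_ (norm_nonneg _) hM0
          · refine (hFB _).trans ?_
            refine mul_le_mul_of_nonneg_left ?_ (by positivity)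
            have h1 : ‖gradient h x‖ ^ p ≤ (S + 1) ^ (3 : ℕ) := by
              rw [← Real.rpow_natCast]
              calc ‖gradient h x‖ ^ p ≤ (S + 1) ^ p :=
                    Real.rpow_le_rpow (norm_nonneg _) (by linarith) (by linarith)
                _ ≤ (S + 1) ^ ((3 : ℕ) : ℝ) :=
                    Real.rpow_le_rpow_of_exponent_le (by linarith) (by push_cast; linarith)
            linarith
          · refine (norm_sub_le _ _).trans ?_
            have h1 : ‖gradient u x‖ ≤ 1 + ‖gradient u x‖ ^ p := by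
              rcases le_or_gt ‖gradient u x‖ 1 with h | h
              · have : 0 ≤ ‖gradient u x‖ ^ p := by positivity
                linarith
              · have := Real.rpow_le_rpow_of_exponent_le h.le hp.le
                rw [Real.rpow_one] at this
                linarith
            linarith
      _ = M * ((1 + S) * volume.real (ball (0 : E n) 3) +
            ∫ x in ball (0 : E n) 3, ‖gradient u x‖ ^ p) := by
          rw [integral_const_mul, integral_add (ic _) i2, vol]
      _ ≤ _ := by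
          refine mul_le_mul_of_nonneg_left ?_ hM0
          linarith
  · calc (∫ x in ball (0 : E n) 3, |g x| * ‖gradient h x‖)
        ≤ ∫ x in ball (0 : E n) 3, S * (δ + δ⁻¹ ^ 2 * |g x| ^ p) := by
          refine setIntegral_mono_on i5 (((ic _).add (i3.const_mul _)).const_mul _)
            measurableSet_ball fun x hx => ?_
          have hx' := hS' x (ball_subset_closedBall hx)
          have h1 := min_young (y := 1) (abs_nonneg (g x)) zero_le_one hδ hδ1 hp hp3
          rw [Real.one_rpow, Real.one_rpow, mul_one, mul_one] at h1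
          rw [mul_comm S]
          refine mul_le_mul h1 hx' (norm_nonneg _) (by positivity)
      _ = _ := by
          rw [integral_const_mul, integral_add (ic _) (i3.const_mul _), vol, integral_const_mul]

theorem p_MIN (hFB : T_FB) : T_MIN := by
  intro n p u c h hp hPB hen hh hlim
  obtain ⟨C, hC, hFB⟩ := hFB
  obtain ⟨K, hK⟩ : ∃ K : ℝ, ∀ x, 2 * ‖gradient (min_bp : ContDiffBump (0 : E n)) x‖ ≤ K := by
    have hc : HasCompactSupport (⇑(min_bp : ContDiffBump (0 : E n))) :=
      (min_bp : ContDiffBump (0 : E n)).hasCompactSupport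
    have hs : ContDiff ℝ 1 (⇑(min_bp : ContDiffBump (0 : E n))) :=
      (min_bp : ContDiffBump (0 : E n)).contDiff
    obtain ⟨K, hK⟩ := (hs.continuous_fderiv (by norm_num)).bounded_above_of_compact_support
      (hc.fderiv (𝕜 := ℝ))
    refine ⟨2 * K, fun x => ?_⟩
    have h1 : ‖gradient (min_bp : ContDiffBump (0 : E n)) x‖ =
        ‖fderiv ℝ (min_bp : ContDiffBump (0 : E n)) x‖ := by
      unfold gradient
      exact LinearIsometryEquiv.norm_map _ _
    rw [h1]
    linarith [hK x]
  have hK0 : 0 ≤ K := le_trans (by positivity) (hK 0)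
  have hb : closedBall (0 : E n) 3 ⊆ ball (0 : E n) (13 / 4) :=
    closedBall_subset_ball (by norm_num)
  have h1 : ContDiffOn ℝ 1 h (ball (0 : E n) (13 / 4)) := hh.2.1
  obtain ⟨S, hS⟩ := (isCompact_closedBall (0 : E n) 3).exists_bound_of_continuousOn
    ((min_contGrad isOpen_ball h1).mono hb)
  have hS0 : 0 ≤ S := le_trans (norm_nonneg _) (hS 0 (by simp))
  set v : ℝ := volume.real (ball (0 : E n) 3) with hv
  have hv0 : 0 ≤ v := measureReal_nonneg
  set a : ℕ → ℝ := fun j => ∫ x in ball (0 : E n) 3, |u j x - c j - h x| ^ p j with ha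
  set I : ℕ → ℝ := fun j => ∫ x in ball (0 : E n) (5 / 2),
    ⟪V (p j) (gradient (u j) x) - V (p j) (gradient h x), gradient (u j) x - gradient h x⟫
    with hI
  have hp1 : ∀ᶠ j in atTop, |p j - 2| ≤ 1 / 4 := by
    have h2 : Tendsto (fun j => |p j - 2|) atTop (𝓝 |2 - 2|) := (hp.sub_const 2).abs
    rw [sub_self, abs_zero] at h2
    exact (h2.eventually (gt_mem_nhds (show (0 : ℝ) < 1 / 4 by norm_num))).mono
      fun j hj => hj.le
  have I0 : ∀ᶠ j in atTop, 0 ≤ I j := by
    filter_upwards [hp1] with j hj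
    have hj1 : 1 < p j := by have := (abs_le.mp hj).1; linarith
    refine setIntegral_nonneg measurableSet_ball fun x _ => ?_
    by_cases hx : gradient (u j) x = gradient h x
    · rw [hx]; simp
    · exact ((SCP.mono n (p j) hj1).2 _ _ hx).le
  have main : ∀ δ : ℝ, 0 < δ → δ ≤ 1 → ∀ᶠ j in atTop, I j ≤
      K * (δ + δ⁻¹ ^ 2 * a j) + C * |p j - 2| * (1 + (S + 1) ^ 3) * ((1 + S) * v + 1) +
      K * (S * (δ * v + δ⁻¹ ^ 2 * a j)) := by
    intro δ hδ hδ1
    filter_upwards [hp1] with j hj
    have hj1 : 1 < p j := by have := (abs_le.mp hj).1; linarith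
    have hj3 : p j ≤ 3 := by have := (abs_le.mp hj).2; linarith
    obtain ⟨Ω', hΩ', hsub, hu⟩ := hPB j
    set Ω : Set (E n) := Ω' ∩ ball (0 : E n) (13 / 4) with hΩd
    have hΩ : IsOpen Ω := hΩ'.inter isOpen_ball
    have hΩ3 : closedBall (0 : E n) 3 ⊆ Ω :=
      subset_inter ((closedBall_subset_closedBall (by norm_num)).trans hsub) hb
    have hu' : PHarm (p j) Ω (u j) := hu.mono inter_subset_left
    have hh' : PHarm 2 Ω h := hh.2.mono inter_subset_right
    have key := min_key hj1 hΩ hΩ3 (c j) hu' hh' hK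
    have he : ∫ x in ball (0 : E n) 3, ‖gradient (u j) x‖ ^ p j ≤ 1 := by
      refine le_trans ?_ (hen j)
      have hcu : ContinuousOn (fun x => ‖gradient (u j) x‖ ^ p j) (closedBall (0 : E n) 4) :=
        ((min_contGrad hΩ' hu.1).mono hsub).norm.rpow_const
          fun x _ => Or.inr (by linarith)
      exact setIntegral_mono_set ((hcu.integrableOn_compact (isCompact_closedBall _ _)).mono_set
        ball_subset_closedBall) (Eventually.of_forall fun x => by positivity)
        (ball_subset_ball (by norm_num)).eventuallyLE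
    have hfb : ∀ ξ : E n, ‖ξ - V (p j) ξ‖ ≤ C * |p j - 2| * (1 + ‖ξ‖ ^ p j) := by
      intro ξ
      have := hFB n (p j) 1 ξ hj one_pos
      rwa [Real.one_rpow, one_smul, one_mul, div_one] at this
    obtain ⟨b1, b2, b3⟩ := min_bound hC hS0 hδ hδ1 hfb hj1 hj3 hΩ hΩ3 (c j) hu'.1 hh'.1 hS he
    have k1 := mul_le_mul_of_nonneg_left b1 hK0
    have k3 := mul_le_mul_of_nonneg_left b3 hK0
    refine key.trans ?_
    linarith
  rw [Metric.tendsto_atTop']
  intro ε hε
  obtain ⟨δ, hδ, hδ1, hδε⟩ : ∃ δ : ℝ, 0 < δ ∧ δ ≤ 1 ∧ K * δ + K * (S * (δ * v)) < ε / 2 := by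
    set Q : ℝ := K + K * (S * v) with hQ
    have hQ0 : 0 ≤ Q := by positivity
    refine ⟨min 1 (ε / (4 * (Q + 1))), by positivity, min_le_left _ _, ?_⟩
    have h2 : min 1 (ε / (4 * (Q + 1))) ≤ ε / (4 * (Q + 1)) := min_le_right _ _
    have h3 : K * min 1 (ε / (4 * (Q + 1))) + K * (S * (min 1 (ε / (4 * (Q + 1))) * v)) =
        Q * min 1 (ε / (4 * (Q + 1))) := by rw [hQ]; ring
    rw [h3]
    calc Q * min 1 (ε / (4 * (Q + 1))) ≤ (Q + 1) * (ε / (4 * (Q + 1))) :=
          mul_le_mul (by linarith) h2 (by positivity) (by linarith)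
      _ = ε / 4 := by field_simp
      _ < ε / 2 := by linarith
  have hz : Tendsto (fun j => K * (δ⁻¹ ^ 2 * a j) +
      C * |p j - 2| * (1 + (S + 1) ^ 3) * ((1 + S) * v + 1) +
      K * (S * (δ⁻¹ ^ 2 * a j))) atTop (𝓝 0) := by
    have h2 : Tendsto (fun j => |p j - 2|) atTop (𝓝 |2 - 2|) := (hp.sub_const 2).abs
    rw [sub_self, abs_zero] at h2
    have h3 := (((hlim.const_mul (δ⁻¹ ^ 2)).const_mul K).add (((h2.const_mul C).mul_const
      (1 + (S + 1) ^ 3)).mul_const ((1 + S) * v + 1))).add
      (((hlim.const_mul (δ⁻¹ ^ 2)).const_mul S).const_mul K)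
    simpa using h3
  have hz' := hz.eventually (gt_mem_nhds (show (0 : ℝ) < ε / 2 by linarith))
  obtain ⟨N, hN⟩ := eventually_atTop.mp (hz'.and ((main δ hδ hδ1).and I0))
  refine ⟨N, fun j hj => ?_⟩
  obtain ⟨e1, e2, e3⟩ := hN j (le_of_lt hj)
  rw [Real.dist_eq, sub_zero, abs_of_nonneg e3]
  have e4 : K * (δ + δ⁻¹ ^ 2 * a j) + C * |p j - 2| * (1 + (S + 1) ^ 3) * ((1 + S) * v + 1) +
      K * (S * (δ * v + δ⁻¹ ^ 2 * a j)) = (K * δ + K * (S * (δ * v))) +
      (K * (δ⁻¹ ^ 2 * a j) + C * |p j - 2| * (1 + (S + 1) ^ 3) * ((1 + S) * v + 1) +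
      K * (S * (δ⁻¹ ^ 2 * a j))) := by ring
  rw [e4] at e2
  linarith

end Pool.Agent.SCN
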