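import Pool.Agent.SCN.Targets

/-! # SCN-MOM: negative moments of the gradient -/

set_option autoImplicit false

open Set MeasureTheory Filter Topology Metric
open scoped RealInnerProductSpace ENNReal

namespace Pool.Agent.SCN

open Pool.Agent.SCP (E PHarm V)

theorem mom_meas_grad {n : ℕ} (u : E n → ℝ) : Measurable (gradient u) := by
  have h : Measurable (fderiv ℝ u) := measurable_fderiv ℝ u
  exact (InnerProductSpace.toDual ℝ (E n)).symm.continuous.measurable.comp h

theorem mom_meas_set {n : ℕ} (u : E n → ℝ) (t : ℝ) : MeasurableSet {y | ‖gradient u y‖ < t} :=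
  measurableSet_lt (mom_meas_grad u).norm measurable_const

theorem mom_sqrt : √2 ≤ 3 / 2 := by
  rw [Real.sqrt_le_left (by norm_num)]
  norm_num

/-- The choice of the exponent. -/
theorem mom_lam {τ : ℝ} (h0 : 0 < τ) (h1 : τ < 1) :
    ∃ lam : ℝ, 0 < lam ∧ lam ≤ 1 ∧ τ⁻¹ ^ lam ≤ √2 := by
  have hi : 1 < τ⁻¹ := (one_lt_inv₀ h0).2 h1
  have hL : 0 < Real.log τ⁻¹ := Real.log_pos hi
  have hs : (1 : ℝ) < √2 := by
    rw [Real.lt_sqrt (by norm_num)]
    norm_num
  have hS : 0 < Real.log √2 := Real.log_pos hs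
  refine ⟨min 1 (Real.log √2 / Real.log τ⁻¹), lt_min one_pos (div_pos hS hL), min_le_left _ _, ?_⟩
  rw [Real.rpow_def_of_pos (by positivity)]
  have h2 : Real.log τ⁻¹ * min 1 (Real.log √2 / Real.log τ⁻¹) ≤ Real.log √2 := by
    calc Real.log τ⁻¹ * min 1 (Real.log √2 / Real.log τ⁻¹)
        ≤ Real.log τ⁻¹ * (Real.log √2 / Real.log τ⁻¹) :=
          mul_le_mul_of_nonneg_left (min_le_right _ _) hL.le
      _ = Real.log √2 := by rw [mul_comm, div_mul_cancel₀ _ hL.ne']
  calc Real.exp (Real.log τ⁻¹ * min 1 (Real.log √2 / Real.log τ⁻¹))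
      ≤ Real.exp (Real.log √2) := Real.exp_le_exp.2 h2
    _ = √2 := Real.exp_log (by linarith)

/-- The layers, in real numbers. -/
theorem mom_layer {τ lam S g : ℝ} (h0 : 0 < τ) (hl0 : 0 < lam) (hl : τ⁻¹ ^ lam ≤ √2)
    (hS : 0 < S) (hg : 0 < g) (k : ℕ) (h : τ ^ (k + 1) * S ≤ g) :
    (S / g) ^ lam ≤ √2 ^ (k + 1) := by
  have h1 : S / g ≤ τ⁻¹ ^ (k + 1) := by
    rw [div_le_iff₀ hg, inv_pow]
    rw [le_inv_mul_iff₀ (by positivity)]
    exact h
  calc (S / g) ^ lam ≤ (τ⁻¹ ^ (k + 1)) ^ lam := Real.rpow_le_rpow (by positivity) h1 hl0.le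
    _ = (τ⁻¹ ^ lam) ^ (k + 1) := by
      rw [← Real.rpow_natCast (τ⁻¹ ^ lam), ← Real.rpow_mul (by positivity),
        ← Real.rpow_natCast τ⁻¹, ← Real.rpow_mul (by positivity), mul_comm]
    _ ≤ √2 ^ (k + 1) := pow_le_pow_left₀ (by positivity) hl _

/-- The pointwise bound. -/
theorem mom_point {n : ℕ} {τ lam S : ℝ} (u : E n → ℝ) (h0 : 0 < τ) (h1 : τ < 1)
    (hl0 : 0 < lam) (hl : τ⁻¹ ^ lam ≤ √2) (hS : 0 < S) (y : E n) :
    ENNReal.ofReal ((S / ‖gradient u y‖) ^ lam) ≤ ENNReal.ofReal √2 +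
      ∑' k : ℕ, {z : E n | ‖gradient u z‖ < τ ^ (k + 1) * S}.indicator
        (fun _ => ENNReal.ofReal (√2 ^ (k + 2))) y := by
  rcases (norm_nonneg (gradient u y)).eq_or_lt with hg | hg
  · rw [← hg, div_zero, Real.zero_rpow hl0.ne']
    simp
  by_cases hc : τ ^ (0 + 1) * S ≤ ‖gradient u y‖
  · have h2 := mom_layer h0 hl0 hl hS hg 0 hc
    rw [zero_add, pow_one] at h2
    exact (ENNReal.ofReal_le_ofReal h2).trans le_self_add
  · have hex : ∃ N : ℕ, τ ^ (N + 1) * S ≤ ‖gradient u y‖ := by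
      have ht : Tendsto (fun N : ℕ => τ ^ (N + 1) * S) atTop (𝓝 (0 * S)) :=
        ((tendsto_pow_atTop_nhds_zero_of_lt_one h0.le h1).comp
          (tendsto_add_atTop_nat 1)).mul_const S
      rw [zero_mul] at ht
      obtain ⟨N, hN⟩ := (ht.eventually (gt_mem_nhds hg)).exists
      exact ⟨N, hN.le⟩
    classical
    have hN := Nat.find_spec hex
    have hpos : Nat.find hex ≠ 0 := by
      intro h
      rw [h] at hN
      exact hc hN
    obtain ⟨k, hk⟩ := Nat.exists_eq_succ_of_ne_zero hpos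
    rw [hk] at hN
    have hlt : ‖gradient u y‖ < τ ^ (k + 1) * S := by
      have := Nat.find_min hex (m := k) (by omega)
      exact not_le.1 this
    have h2 := mom_layer h0 hl0 hl hS hg (k + 1) hN
    have h3 : ENNReal.ofReal ((S / ‖gradient u y‖) ^ lam) ≤
        {z : E n | ‖gradient u z‖ < τ ^ (k + 1) * S}.indicator
        (fun _ => ENNReal.ofReal (√2 ^ (k + 2))) y := by
      rw [indicator_of_mem (by exact hlt)]
      exact ENNReal.ofReal_le_ofReal h2
    exact (h3.trans (ENNReal.le_tsum k)).trans le_add_self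

/-- The sum of the geometric series. -/
theorem mom_sum : ∑' k : ℕ, ENNReal.ofReal (√2 ^ (k + 2)) * ENNReal.ofReal ((1 / 2) ^ k) ≤
    ENNReal.ofReal 8 := by
  have hs := mom_sqrt
  have hs0 : 0 ≤ √2 := Real.sqrt_nonneg 2
  have hs2 : √2 ^ 2 = 2 := Real.sq_sqrt (by norm_num)
  have e : ∀ k : ℕ, ENNReal.ofReal (√2 ^ (k + 2)) * ENNReal.ofReal ((1 / 2) ^ k) =
      ENNReal.ofReal (2 * (√2 / 2) ^ k) := by
    intro k
    rw [← ENNReal.ofReal_mul (by positivity), pow_add, hs2]
    congr 1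
    rw [div_pow, div_pow, one_pow]
    ring
  simp_rw [e]
  have hr1 : √2 / 2 < 1 := by linarith
  rw [← ENNReal.ofReal_tsum_of_nonneg (fun k => by positivity)
    ((summable_geometric_of_lt_one (by positivity) hr1).mul_left 2), tsum_mul_left,
    tsum_geometric_of_lt_one (by positivity) hr1]
  apply ENNReal.ofReal_le_ofReal
  have h1 : (1 - √2 / 2)⁻¹ ≤ 4 := by
    rw [inv_le_comm₀ (by linarith) (by norm_num)]
    linarith
  linarith

/-- The integral of the layers. -/
theorem mom_lint {n : ℕ} {τ lam S : ℝ} (u : E n → ℝ) (h0 : 0 < τ) (h1 : τ < 1)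
    (hl0 : 0 < lam) (hl : τ⁻¹ ^ lam ≤ √2) (hS : 0 < S) (x : E n) {r : ℝ} (hr : 0 < r)
    (H : ∀ k : ℕ, volume (ball x r ∩ {y | ‖gradient u y‖ < τ ^ (k + 1) * S}) ≤
      ENNReal.ofReal ((1 / 2) ^ k) * volume (ball x (2 * r))) :
    ∫⁻ y in ball x r, ENNReal.ofReal ((S / ‖gradient u y‖) ^ lam) ≤
      ENNReal.ofReal 10 * volume (ball x (2 * r)) := by
  have hV : volume (ball x r) ≤ volume (ball x (2 * r)) :=
    measure_mono (ball_subset_ball (by linarith))
  calc ∫⁻ y in ball x r, ENNReal.ofReal ((S / ‖gradient u y‖) ^ lam)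
      ≤ ∫⁻ y in ball x r, (ENNReal.ofReal √2 +
          ∑' k : ℕ, {z : E n | ‖gradient u z‖ < τ ^ (k + 1) * S}.indicator
            (fun _ => ENNReal.ofReal (√2 ^ (k + 2))) y) :=
        lintegral_mono (fun y => mom_point u h0 h1 hl0 hl hS y)
    _ = ENNReal.ofReal √2 * volume (ball x r) + ∑' k : ℕ, ENNReal.ofReal (√2 ^ (k + 2)) *
          volume (ball x r ∩ {y | ‖gradient u y‖ < τ ^ (k + 1) * S}) := by
        rw [lintegral_add_left measurable_const, lintegral_const, Measure.restrict_apply_univ,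
          lintegral_tsum (fun k => (measurable_const.indicator (mom_meas_set u _)).aemeasurable)]
        congr 1
        refine tsum_congr (fun k => ?_)
        rw [lintegral_indicator_const (mom_meas_set u _),
          Measure.restrict_apply (mom_meas_set u _), inter_comm]
    _ ≤ ENNReal.ofReal √2 * volume (ball x (2 * r)) + ∑' k : ℕ, ENNReal.ofReal (√2 ^ (k + 2)) *
          (ENNReal.ofReal ((1 / 2) ^ k) * volume (ball x (2 * r))) := by
        gcongr with k
        exact H k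
    _ = (ENNReal.ofReal √2 + ∑' k : ℕ, ENNReal.ofReal (√2 ^ (k + 2)) *
          ENNReal.ofReal ((1 / 2) ^ k)) * volume (ball x (2 * r)) := by
        rw [add_mul, ← ENNReal.tsum_mul_right]
        congr 1
        exact tsum_congr (fun k => (mul_assoc _ _ _).symm)
    _ ≤ (ENNReal.ofReal 2 + ENNReal.ofReal 8) * volume (ball x (2 * r)) := by
        gcongr
        · have := mom_sqrt
          linarith
        · exact mom_sum
    _ = ENNReal.ofReal 10 * volume (ball x (2 * r)) := by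
        rw [← ENNReal.ofReal_add (by norm_num) (by norm_num)]
        norm_num

theorem p_MOM (hT : T_TAIL) : T_MOM := by
  intro n m hn
  obtain ⟨τ, e, hτ0, hτ1, he, H⟩ := hT n m hn
  obtain ⟨lam, hl0, hl1, hl⟩ := mom_lam hτ0 hτ1
  set v : ℝ := (volume (ball (0 : E n) 1)).toReal with hv
  have hv0 : 0 ≤ v := ENNReal.toReal_nonneg
  refine ⟨lam, 10 * 2 ^ n * v + 1, e, hl0, hl1, by positivity, he, ?_⟩
  intro p hp u x R hD r hr hrR
  have hR : 0 < R := hD.1
  have hen : 0 < en p u x r :=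
    (hD.2.2 x (mem_closedBall_self hR.le) r hr (by linarith)).2
  have hS : 0 < mg p u x r := by
    unfold mg
    positivity
  have Hk := H p hp u x R hD r hr hrR
  have hVt : volume (ball x (2 * r)) ≠ ⊤ := measure_ball_lt_top.ne
  have hVe : volume (ball x (2 * r)) = ENNReal.ofReal (2 ^ n * v * r ^ n) := by
    rw [Measure.addHaar_ball_of_pos _ _ (by positivity), finrank_euclideanSpace_fin,
      ← ENNReal.ofReal_toReal (measure_ball_lt_top (μ := volume) (x := (0 : E n)) (r := 1)).ne,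
      ← hv, ← ENNReal.ofReal_mul (by positivity)]
    congr 1
    rw [mul_pow]
    ring
  have hl2 := mom_lint u hτ0 hτ1 hl0 hl hS x hr Hk
  have hb : ENNReal.ofReal 10 * volume (ball x (2 * r)) ≤
      ENNReal.ofReal ((10 * 2 ^ n * v + 1) * r ^ n) := by
    rw [hVe, ← ENNReal.ofReal_mul (by norm_num)]
    apply ENNReal.ofReal_le_ofReal
    have : 0 < r ^ n := by positivity
    nlinarith
  have hmeas : Measurable (fun y => (mg p u x r / ‖gradient u y‖) ^ lam) :=
    (measurable_const.div (mom_meas_grad u).norm).pow_const lam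
  have hnn : ∀ y, 0 ≤ (mg p u x r / ‖gradient u y‖) ^ lam := fun y => by positivity
  refine ⟨?_, ?_, ?_⟩
  · have hle : ∀ k : ℕ, volume (ball x r ∩ {y | gradient u y = 0}) ≤
        ENNReal.ofReal ((1 / 2) ^ k) * volume (ball x (2 * r)) := by
      intro k
      refine (measure_mono ?_).trans (Hk k)
      rintro y ⟨h1, h2⟩
      refine ⟨h1, ?_⟩
      have h2' : gradient u y = 0 := h2
      simp only [mem_ofPred_eq, h2', norm_zero]
      positivity
    have ht : Tendsto (fun k : ℕ => ENNReal.ofReal ((1 / 2) ^ k) * volume (ball x (2 * r)))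
        atTop (𝓝 (ENNReal.ofReal 0 * volume (ball x (2 * r)))) := by
      refine ENNReal.Tendsto.mul_const ?_ (Or.inr hVt)
      exact ENNReal.tendsto_ofReal (tendsto_pow_atTop_nhds_zero_of_lt_one (by norm_num)
        (by norm_num))
    rw [ENNReal.ofReal_zero, zero_mul] at ht
    exact le_antisymm (ge_of_tendsto' ht hle) bot_le
  · refine ⟨hmeas.aestronglyMeasurable, ?_⟩
    rw [hasFiniteIntegral_iff_ofReal (Eventually.of_forall hnn)]
    exact (hl2.trans hb).trans_lt ENNReal.ofReal_lt_top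
  · rw [integral_eq_lintegral_of_nonneg_ae (Eventually.of_forall hnn)
      hmeas.aestronglyMeasurable]
    exact ENNReal.toReal_le_of_le_ofReal (by positivity) (hl2.trans hb)

end Pool.Agent.SCN
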