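import Pool.Agent.SCN.Targets

/-! # Strong comparison for `p`-harmonic functions, `p` near 2: MVE -/

set_option autoImplicit false

open Set MeasureTheory Filter Topology Metric
open scoped RealInnerProductSpace

namespace Pool.Agent.SCN

open Pool.Agent.SCP (E PHarm V)

variable {n : ℕ}

/-- Substitution. -/
theorem mve_sub (F : E n → ℝ) (x : E n) {ρ : ℝ} (hρ : 0 < ρ) :
    ∫ y in ball (0 : E n) 1, F (x + ρ • y) = (ρ ^ n)⁻¹ * ∫ z in ball x ρ, F z := by
  rw [← integral_indicator measurableSet_ball, ← integral_indicator measurableSet_ball]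
  have h1 : (fun y : E n => (ball (0 : E n) 1).indicator (fun y => F (x + ρ • y)) y) =
      fun y => (fun z => (ball x ρ).indicator F (x + z)) (ρ • y) := by
    funext y
    have h2 : y ∈ ball (0 : E n) 1 ↔ x + ρ • y ∈ ball x ρ := by
      rw [mem_ball_zero_iff, mem_ball, dist_eq_norm, add_sub_cancel_left, norm_smul,
        Real.norm_of_nonneg hρ.le]
      constructor
      · intro h
        nlinarith
      · intro h
        by_contra h3
        nlinarith [not_lt.1 h3]
    by_cases h : y ∈ ball (0 : E n) 1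
    · simp only [Set.indicator_of_mem h, Set.indicator_of_mem (h2.1 h)]
    · simp only [Set.indicator_of_notMem h, Set.indicator_of_notMem (fun h3 => h (h2.2 h3))]
  rw [h1, Measure.integral_comp_smul volume (fun z => (ball x ρ).indicator F (x + z)) ρ,
    integral_add_left_eq_self (μ := volume) ((ball x ρ).indicator F) x,
    finrank_euclideanSpace_fin, smul_eq_mul, abs_of_nonneg (by positivity)]

/-- The kernel is bounded. -/
theorem mve_bdd {φ Φ : E n → ℝ} (hK : Ker φ Φ) : ∃ K : ℝ, 0 < K ∧ ∀ y, ‖gradient Φ y‖ ≤ K := by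
  obtain ⟨C, hC⟩ := (isCompact_closedBall (0 : E n) 1).exists_bound_of_continuousOn
    hK.smooth.continuous.continuousOn
  refine ⟨max C 0 + 1, by positivity, fun y => ?_⟩
  rw [hK.grad y]
  rcases lt_or_ge ‖y‖ 1 with h | h
  · have h1 := hC y (mem_closedBall_zero_iff.2 h.le)
    rw [norm_smul]
    have h2 : ‖φ y‖ * ‖y‖ ≤ ‖φ y‖ * 1 := mul_le_mul_of_nonneg_left h.le (norm_nonneg _)
    have h3 := le_max_left C 0
    linarith
  · rw [hK.supp y h, zero_smul, norm_zero]
    positivity

theorem mve_gz {φ Φ : E n → ℝ} (hK : Ker φ Φ) {y : E n} (h : y ∉ ball (0 : E n) 1) :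
    gradient Φ y = 0 := by
  rw [mem_ball_zero_iff, not_lt] at h
  rw [hK.grad y, hK.supp y h, zero_smul]

theorem mve_gc {φ Φ : E n → ℝ} (hK : Ker φ Φ) : Continuous (gradient Φ) := by
  have h1 : gradient Φ = fun y => φ y • y := funext hK.grad
  rw [h1]
  exact hK.smooth.continuous.smul continuous_id

/-- Integrability of the integrands. -/
theorem mve_int {φ Φ : E n → ℝ} (hK : Ker φ Φ) {G : E n → E n}
    (hG : ContinuousOn G (closedBall 0 1)) : Integrable fun y => ⟪G y, gradient Φ y⟫ := by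
  have h1 : IntegrableOn (fun y => ⟪G y, gradient Φ y⟫) (ball (0 : E n) 1) :=
    ((hG.inner (mve_gc hK).continuousOn).integrableOn_compact
      (isCompact_closedBall 0 1)).mono_set ball_subset_closedBall
  rw [← integrable_indicator_iff measurableSet_ball] at h1
  have h2 : (ball (0 : E n) 1).indicator (fun y => ⟪G y, gradient Φ y⟫) =
      fun y => ⟪G y, gradient Φ y⟫ := by
    rw [Set.indicator_eq_self]
    intro y hy
    by_contra h
    apply hy
    simp only [mve_gz hK h, inner_zero_right]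
  rwa [h2] at h1

/-- The inner integral. -/
theorem mve_inner (hWAV : T_WAV) {φ Φ : E n → ℝ} (hK : Ker φ Φ) {K C : ℝ} (hKK : 0 < K)
    (hC : 0 < C) (hb : ∀ y, ‖gradient Φ y‖ ≤ K) {p : ℝ}
    (hFB : ∀ (M : ℝ) (ξ : E n), 0 < M →
      ‖ξ - M ^ (2 - p) • V p ξ‖ ≤ C * |p - 2| * (M * (1 + (‖ξ‖ / M) ^ p)))
    (hp : 1 < p) {Ω : Set (E n)} (hΩ : IsOpen Ω) {v : E n → ℝ} (hv : PHarm p Ω v) {x : E n}
    {ρ : ℝ} (hρ : 0 < ρ) (hs : closedBall x ρ ⊆ Ω) :
    |∫ y, ⟪gradient v (x + ρ • y), gradient Φ y⟫| ≤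
      K * C * (volume.real (ball (0 : E n) 1) + 1) * |p - 2| * mg p v x ρ := by
  have hgc : ContinuousOn (gradient v) Ω := SCP.TEST_.continuousOn_gradient hΩ hv.1
  have hmap : ∀ y ∈ closedBall (0 : E n) 1, x + ρ • y ∈ closedBall x ρ := by
    intro y hy
    rw [mem_closedBall_zero_iff] at hy
    rw [mem_closedBall, dist_eq_norm, add_sub_cancel_left, norm_smul,
      Real.norm_of_nonneg hρ.le]
    nlinarith
  have hG : ContinuousOn (fun y : E n => gradient v (x + ρ • y)) (closedBall 0 1) :=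
    hgc.comp (by fun_prop) fun y hy => hs (hmap y hy)
  have hVc : Continuous (V p : E n → E n) := (SCP.mono n p hp).1
  have hGV : ContinuousOn (fun y : E n => V p (gradient v (x + ρ • y))) (closedBall 0 1) :=
    hVc.comp_continuousOn hG
  have en0 : 0 ≤ en p v x ρ := integral_nonneg fun y => Real.rpow_nonneg (norm_nonneg _) _
  have e0 : 0 ≤ en p v x ρ / ρ ^ n := by positivity
  have hM0 : 0 ≤ mg p v x ρ := Real.rpow_nonneg e0 _
  rcases hM0.eq_or_lt with hM | hM
  · -- the gradient vanishes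
    have h1 : en p v x ρ / ρ ^ n = 0 := by
      have h2 := hM.symm
      unfold mg at h2
      exact (Real.rpow_eq_zero e0 (by positivity)).1 h2
    have h2 : en p v x ρ = 0 := by
      rcases div_eq_zero_iff.1 h1 with h3 | h3
      · exact h3
      · exact absurd h3 (by positivity)
    have hca : ContinuousOn (fun y => ‖gradient v y‖ ^ p) (closedBall x ρ) :=
      (hgc.mono hs).norm.rpow_const fun _ _ => Or.inr (by linarith)
    have hia : IntegrableOn (fun y => ‖gradient v y‖ ^ p) (ball x ρ) :=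
      (hca.integrableOn_compact (isCompact_closedBall x ρ)).mono_set ball_subset_closedBall
    have h3 : ∀ z ∈ ball x ρ, gradient v z = 0 := by
      have h4 : (fun y => ‖gradient v y‖ ^ p) =ᵐ[volume.restrict (ball x ρ)] 0 :=
        (setIntegral_eq_zero_iff_of_nonneg_ae
          (Eventually.of_forall fun y => Real.rpow_nonneg (norm_nonneg _) _) hia).1 h2
      have h5 := MeasureTheory.Measure.eqOn_open_of_ae_eq h4 isOpen_ball
        (hca.mono ball_subset_closedBall) continuousOn_const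
      intro z hz
      have h6 := h5 hz
      simp only [Pi.zero_apply] at h6
      exact norm_eq_zero.1 ((Real.rpow_eq_zero (norm_nonneg _) (by linarith)).1 h6)
    have h4 : (fun y => ⟪gradient v (x + ρ • y), gradient Φ y⟫) = fun _ => (0 : ℝ) := by
      funext y
      by_cases h : y ∈ ball (0 : E n) 1
      · rw [h3, inner_zero_left]
        rw [mem_ball_zero_iff] at h
        rw [mem_ball, dist_eq_norm, add_sub_cancel_left, norm_smul, Real.norm_of_nonneg hρ.le]
        nlinarith
      · rw [mve_gz hK h, inner_zero_right]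
    rw [h4, integral_zero, abs_zero, ← hM, mul_zero]
  · obtain ⟨M, hMd⟩ : ∃ M : ℝ, M = mg p v x ρ := ⟨_, rfl⟩
    rw [← hMd] at hM ⊢
    have hMp : M ^ p = en p v x ρ / ρ ^ n := by
      rw [hMd]
      unfold mg
      rw [← Real.rpow_mul e0, one_div_mul_cancel (by linarith), Real.rpow_one]
    have hPB : PB p x ρ v := ⟨Ω, hΩ, hs, hv⟩
    have hw := hWAV n φ Φ hK p v x ρ hp hρ hPB
    have i1 := mve_int hK hG
    have i2 := mve_int hK hGV
    have h1 : ∫ y, ⟪gradient v (x + ρ • y), gradient Φ y⟫ =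
        ∫ y, ⟪gradient v (x + ρ • y) - M ^ (2 - p) • V p (gradient v (x + ρ • y)),
          gradient Φ y⟫ := by
      have h2 : ∀ y : E n,
          ⟪gradient v (x + ρ • y) - M ^ (2 - p) • V p (gradient v (x + ρ • y)),
            gradient Φ y⟫ = ⟪gradient v (x + ρ • y), gradient Φ y⟫ -
            M ^ (2 - p) * ⟪V p (gradient v (x + ρ • y)), gradient Φ y⟫ := by
        intro y
        rw [inner_sub_left, real_inner_smul_left]
      simp only [h2]
      rw [integral_sub i1 (i2.const_mul _), integral_const_mul, hw, mul_zero, sub_zero]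
    rw [h1]
    have h3 : ∫ y, ⟪gradient v (x + ρ • y) - M ^ (2 - p) • V p (gradient v (x + ρ • y)),
          gradient Φ y⟫ = ∫ y in ball (0 : E n) 1,
          ⟪gradient v (x + ρ • y) - M ^ (2 - p) • V p (gradient v (x + ρ • y)),
          gradient Φ y⟫ := by
      symm
      apply setIntegral_eq_integral_of_forall_compl_eq_zero
      intro y hy
      rw [mve_gz hK hy, inner_zero_right]
    rw [h3, ← Real.norm_eq_abs]
    have hca : ContinuousOn (fun y : E n => ‖gradient v (x + ρ • y)‖ ^ p) (closedBall 0 1) :=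
      hG.norm.rpow_const fun _ _ => Or.inr (by linarith)
    have hia : IntegrableOn (fun y : E n => ‖gradient v (x + ρ • y)‖ ^ p) (ball 0 1) :=
      (hca.integrableOn_compact (isCompact_closedBall 0 1)).mono_set ball_subset_closedBall
    have hi1 : IntegrableOn (fun _ : E n => (1 : ℝ)) (ball 0 1) :=
      integrableOn_const measure_ball_lt_top.ne
    have hbd : ∀ y : E n, K * (C * |p - 2| * (M * (1 + (‖gradient v (x + ρ • y)‖ / M) ^ p))) =
        K * C * |p - 2| * M * 1 + K * C * |p - 2| * M * (M ^ p)⁻¹ *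
          ‖gradient v (x + ρ • y)‖ ^ p := by
      intro y
      rw [Real.div_rpow (norm_nonneg _) hM.le, div_eq_mul_inv]
      ring
    have hib : IntegrableOn (fun y : E n =>
        K * (C * |p - 2| * (M * (1 + (‖gradient v (x + ρ • y)‖ / M) ^ p)))) (ball 0 1) := by
      simp only [hbd]
      exact (hi1.const_mul _).add (hia.const_mul _)
    have hle : ‖∫ y in ball (0 : E n) 1,
          ⟪gradient v (x + ρ • y) - M ^ (2 - p) • V p (gradient v (x + ρ • y)),
          gradient Φ y⟫‖ ≤ ∫ y in ball (0 : E n) 1,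
          K * (C * |p - 2| * (M * (1 + (‖gradient v (x + ρ • y)‖ / M) ^ p))) := by
      refine norm_integral_le_of_norm_le hib (Eventually.of_forall fun y => ?_)
      have h4 := norm_inner_le_norm (𝕜 := ℝ)
        (gradient v (x + ρ • y) - M ^ (2 - p) • V p (gradient v (x + ρ • y))) (gradient Φ y)
      have h5 := hFB M (gradient v (x + ρ • y)) hM
      have h6 := hb y
      calc _ ≤ _ := h4
        _ ≤ (C * |p - 2| * (M * (1 + (‖gradient v (x + ρ • y)‖ / M) ^ p))) * K :=
            mul_le_mul h5 h6 (norm_nonneg _) ((norm_nonneg _).trans h5)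
        _ = _ := by ring
    refine hle.trans (le_of_eq ?_)
    simp only [hbd]
    rw [integral_add (hi1.const_mul _) (hia.const_mul _), integral_const_mul,
      integral_const_mul, mve_sub (fun z => ‖gradient v z‖ ^ p) x hρ]
    have h7 : (ρ ^ n)⁻¹ * ∫ z in ball x ρ, ‖gradient v z‖ ^ p = M ^ p := by
      rw [hMp]
      unfold en
      rw [div_eq_mul_inv, mul_comm]
    rw [h7, setIntegral_const, smul_eq_mul, mul_one]
    have h8 : M ^ p ≠ 0 := (Real.rpow_pos_of_pos hM p).ne'
    field_simp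

/-- **MVE** -/
theorem p_MVE (hDCV : T_DCV) (hWAV : T_WAV) (hFB : T_FB) (hGRO : T_GRO) : T_MVE := by
  intro n φ Φ hn hK
  obtain ⟨K, hKK, hb⟩ := mve_bdd hK
  obtain ⟨C, hC, hC'⟩ := hFB
  obtain ⟨G, e, hG, he, hG'⟩ := hGRO n hn
  obtain ⟨G1, hG1⟩ : ∃ G1 : ℝ, G1 = max G 1 := ⟨_, rfl⟩
  have hG11 : 1 ≤ G1 := by rw [hG1]; exact le_max_right _ _
  have hGG : G ≤ G1 := by rw [hG1]; exact le_max_left _ _
  obtain ⟨ω, hω⟩ : ∃ ω : ℝ, ω = volume.real (ball (0 : E n) 1) := ⟨_, rfl⟩
  have hω0 : 0 ≤ ω := by rw [hω]; exact measureReal_nonneg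
  refine ⟨K * C * (ω + 1) * G1 * 3, min e (1 / 4), by positivity, by positivity, ?_⟩
  intro p hp v x r hr hPB
  have hp1 : |p - 2| < e := hp.trans_le (min_le_left _ _)
  have hp2 : |p - 2| < 1 / 4 := hp.trans_le (min_le_right _ _)
  obtain ⟨hp3, hp4⟩ := abs_lt.1 hp2
  have hp5 : 1 < p := by linarith
  obtain ⟨Ω, hΩ, hs, hv⟩ := hPB
  have hz : cv φ 0 v x = v x := by
    unfold cv
    simp only [zero_smul, add_zero]
    rw [integral_mul_const, hK.one, one_mul]
  have hd := (hDCV n φ Φ hK Ω v x r hΩ hv.1 hs).2 0 le_rfl hr.le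
  rw [hz] at hd
  rw [abs_sub_comm, hd]
  have en0 : ∀ s, 0 ≤ en p v x s := fun s =>
    integral_nonneg fun y => Real.rpow_nonneg (norm_nonneg _) _
  -- the bound
  have hbound : ∀ ρ : ℝ, 0 < ρ → ρ ≤ r →
      ‖-∫ y, ⟪gradient v (x + ρ • y), gradient Φ y⟫‖ ≤
        K * C * (ω + 1) * |p - 2| * G1 * mg p v x r * r ^ (2 / 3 : ℝ) * ρ ^ (-(2 / 3) : ℝ) := by
    intro ρ hρ hρr
    have hsρ : closedBall x ρ ⊆ Ω := (closedBall_subset_closedBall hρr).trans hs
    have h1 := mve_inner hWAV hK hKK hC hb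
      (fun M ξ hM => hC' n p M ξ hp2.le hM) hp5 hΩ hv hρ hsρ
    rw [norm_neg, Real.norm_eq_abs]
    refine h1.trans ?_
    rw [← hω]
    have h2 := hG' p hp1 v x r hr ⟨Ω, hΩ, hs, hv⟩ ρ hρ hρr
    have h3 : mg p v x ρ ≤ G1 * (r ^ (2 / 3 : ℝ) * ρ ^ (-(2 / 3) : ℝ)) * mg p v x r := by
      have h4 : en p v x ρ / ρ ^ n ≤ (G1 * (r / ρ)) * (en p v x r / r ^ n) := by
        have h5 : en p v x ρ ≤ G1 * (ρ / r) ^ (n - 1) * en p v x r := by
          refine h2.trans ?_
          have := en0 r
          gcongr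
        obtain ⟨m, rfl⟩ : ∃ m, n = m + 1 := ⟨n - 1, by omega⟩
        rw [Nat.add_sub_cancel] at h5
        rw [div_le_iff₀ (by positivity)]
        refine h5.trans (le_of_eq ?_)
        rw [div_pow]
        field_simp
        ring
      have h6 : 1 ≤ r / ρ := (one_le_div hρ).2 hρr
      have h7 : 1 / p ≤ 2 / 3 := by
        rw [div_le_div_iff₀ (by linarith) (by norm_num)]
        linarith
      unfold mg
      calc (en p v x ρ / ρ ^ n) ^ (1 / p) ≤
            ((G1 * (r / ρ)) * (en p v x r / r ^ n)) ^ (1 / p) := by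
              apply Real.rpow_le_rpow _ h4 (by positivity)
              have := en0 ρ
              positivity
        _ = (G1 * (r / ρ)) ^ (1 / p) * (en p v x r / r ^ n) ^ (1 / p) := by
              rw [Real.mul_rpow (by positivity) (by have := en0 r; positivity)]
        _ ≤ (G1 * (r ^ (2 / 3 : ℝ) * ρ ^ (-(2 / 3) : ℝ))) * (en p v x r / r ^ n) ^ (1 / p) := by
              apply mul_le_mul_of_nonneg_right _
                (Real.rpow_nonneg (by have := en0 r; positivity) _)
              rw [Real.mul_rpow (by positivity) (by positivity)]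
              apply mul_le_mul
              · calc G1 ^ (1 / p) ≤ G1 ^ (1 : ℝ) := by
                      apply Real.rpow_le_rpow_of_exponent_le hG11
                      linarith
                  _ = G1 := Real.rpow_one _
              · calc (r / ρ) ^ (1 / p) ≤ (r / ρ) ^ (2 / 3 : ℝ) :=
                      Real.rpow_le_rpow_of_exponent_le h6 h7
                  _ = r ^ (2 / 3 : ℝ) * ρ ^ (-(2 / 3) : ℝ) := by
                      rw [Real.div_rpow hr.le hρ.le, Real.rpow_neg hρ.le, div_eq_mul_inv]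
              · positivity
              · positivity
    calc K * C * (ω + 1) * |p - 2| * mg p v x ρ ≤ K * C * (ω + 1) * |p - 2| *
          (G1 * (r ^ (2 / 3 : ℝ) * ρ ^ (-(2 / 3) : ℝ)) * mg p v x r) := by gcongr
      _ = _ := by ring
  have hint : IntervalIntegrable (fun ρ : ℝ =>
      K * C * (ω + 1) * |p - 2| * G1 * mg p v x r * r ^ (2 / 3 : ℝ) * ρ ^ (-(2 / 3) : ℝ))
      volume 0 r :=
    (intervalIntegral.intervalIntegrable_rpow' (by norm_num)).const_mul _
  have hfin := intervalIntegral.norm_integral_le_of_norm_le hr.le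
    (Eventually.of_forall fun ρ hρ => hbound ρ hρ.1 hρ.2) hint
  rw [Real.norm_eq_abs] at hfin
  refine hfin.trans (le_of_eq ?_)
  rw [intervalIntegral.integral_const_mul, integral_rpow (Or.inl (by norm_num)),
    Real.zero_rpow (by norm_num), sub_zero]
  have h9 : r ^ (2 / 3 : ℝ) * (r ^ (-(2 / 3) + 1 : ℝ) / (-(2 / 3) + 1)) = 3 * r := by
    have h10 : r ^ (2 / 3 : ℝ) * r ^ (-(2 / 3) + 1 : ℝ) = r := by
      rw [← Real.rpow_add hr]
      norm_num
    have h11 : r ^ (2 / 3 : ℝ) * (r ^ (-(2 / 3) + 1 : ℝ) / (-(2 / 3) + 1)) =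
        3 * (r ^ (2 / 3 : ℝ) * r ^ (-(2 / 3) + 1 : ℝ)) := by ring
    rw [h11, h10]
  calc _ = K * C * (ω + 1) * |p - 2| * G1 * mg p v x r *
        (r ^ (2 / 3 : ℝ) * (r ^ (-(2 / 3) + 1 : ℝ) / (-(2 / 3) + 1))) := by ring
    _ = _ := by rw [h9]; ring

end Pool.Agent.SCN
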