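import Pool.Agent.SCN.Targets

/-! # Strong comparison for `p`-harmonic functions: the mean value property -/

set_option autoImplicit false

open Set MeasureTheory Filter Topology Metric
open scoped RealInnerProductSpace

namespace Pool.Agent.SCN

open Pool.Agent.SCP (E PHarm V)

theorem mvp_V {n : ℕ} (ξ : E n) : V 2 ξ = ξ := by
  simp [SCP.V]

theorem p_MVP (hD : T_DCV) (hP : T_PSG) : T_MVP := by
  intro n φ Φ hK Ω g x d hΩ hg hd hB
  obtain ⟨C, -, hC⟩ := hP n φ Φ hK
  obtain ⟨-, h1⟩ := hD n φ Φ hK Ω g x d hΩ (hg.1.of_le (by exact_mod_cast le_top)) hB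
  have h2 := h1 0 le_rfl hd
  have h0 : cv φ 0 g x = g x := by
    unfold cv
    simp only [zero_smul, add_zero]
    rw [integral_mul_const, hK.one, one_mul]
  have h3 : ∀ ρ ∈ Ioc (0 : ℝ) d, ∫ y, ⟪gradient g (x + ρ • y), gradient Φ y⟫ = 0 := by
    intro ρ hρ
    obtain ⟨k1, k2, k3, -, -, -, k7⟩ := hC x ρ hρ.1
    have k8 := k7 (gradient g)
    have k9 : ∫ z, ⟪gradient g z, gradient (ps Φ x ρ) z⟫ = 0 := by
      have h := weak (p := 2) (by norm_num) hΩ hg.2 (k1.of_le (by exact_mod_cast le_top)) k2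
        (k3.trans ((closedBall_subset_closedBall hρ.2).trans hB))
      simpa only [mvp_V] using h
    rw [k9, mul_zero, neg_zero] at k8
    rcases mul_eq_zero.mp k8 with h | h
    · exact absurd h (pow_pos hρ.1 n).ne'
    · exact h
  have h4 : ∫ ρ in (0 : ℝ)..d, -∫ y, ⟪gradient g (x + ρ • y), gradient Φ y⟫ = 0 := by
    rw [intervalIntegral.integral_of_le hd]
    apply setIntegral_eq_zero_of_forall_eq_zero
    intro ρ hρ
    rw [h3 ρ hρ, neg_zero]
  rw [h4, h0] at h2
  linarith

end Pool.Agent.SCN
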