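import Pool.Agent.SCN.Targets

/-! # NUG: the zero set of a harmonic function is a null set -/

set_option autoImplicit false

open Set MeasureTheory Filter Topology Metric
open scoped RealInnerProductSpace

namespace Pool.Agent.SCN

open Pool.Agent.SCP (E PHarm V)

variable {n : ℕ}

/-- The mean square. -/
noncomputable def nug_e (g : E n → ℝ) (x : E n) (r : ℝ) : ℝ := ∫ y in ball x r, g y ^ 2

theorem nug_sub {x : E n} {r : ℝ} (h : ‖x‖ + r < 3) : closedBall x r ⊆ ball (0 : E n) 3 := by
  intro y hy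
  rw [mem_ball_zero_iff]
  rw [mem_closedBall, dist_eq_norm] at hy
  have := norm_le_norm_add_norm_sub' y x
  linarith

theorem nug_int {g : E n → ℝ} (hg : ContinuousOn g (ball (0 : E n) 3)) {x : E n} {r : ℝ}
    (h : ‖x‖ + r < 3) : IntegrableOn (fun y => g y ^ 2) (ball x r) :=
  (((hg.mono (nug_sub h)).pow 2).integrableOn_compact (isCompact_closedBall _ _)).mono_set
    ball_subset_closedBall

theorem nug_nn (g : E n → ℝ) (x : E n) (r : ℝ) : 0 ≤ nug_e g x r :=
  integral_nonneg fun _ => sq_nonneg _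

theorem nug_mono {g : E n → ℝ} (hg : ContinuousOn g (ball (0 : E n) 3)) {x : E n} {r s : ℝ}
    (hrs : r ≤ s) (h : ‖x‖ + s < 3) : nug_e g x r ≤ nug_e g x s :=
  setIntegral_mono_set (nug_int hg h) (ae_of_all _ fun _ => sq_nonneg _)
    (ball_subset_ball hrs).eventuallyLE

theorem nug_zero {g : E n → ℝ} (hg : ContinuousOn g (ball (0 : E n) 3)) {x : E n} {r : ℝ}
    (h : ‖x‖ + r < 3) (h0 : nug_e g x r = 0) : ∀ y ∈ ball x r, g y = 0 := by
  have h1 : (fun y => g y ^ 2) =ᵐ[volume.restrict (ball x r)] 0 := by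
    rw [← integral_eq_zero_iff_of_nonneg (fun y => sq_nonneg _) (nug_int hg h)]
    exact h0
  have h2 : EqOn (fun y => g y ^ 2) 0 (ball x r) :=
    Measure.eqOn_open_of_ae_eq h1 isOpen_ball
      (((hg.mono (nug_sub h)).pow 2).mono ball_subset_closedBall) continuousOn_const
  intro y hy
  exact pow_eq_zero_iff (two_ne_zero) |>.1 (h2 hy)

/-- log-convexity -/
theorem nug_log (hL : T_LGC) {g : E n → ℝ} (hg : Hrm (ball (0 : E n) 3) g) {x : E n} {r : ℝ}
    (hr : 0 < r) (h : ‖x‖ + 2 * r < 3) :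
    nug_e g x r ^ 2 ≤ nug_e g x (2 * r) * nug_e g x (r / 2) :=
  hL n (ball (0 : E n) 3) g x r isOpen_ball hg hr (nug_sub h)

/-- going up -/
theorem nug_up (hL : T_LGC) {g : E n → ℝ} (hg : Hrm (ball (0 : E n) 3) g) {x : E n}
    (hx : ‖x‖ < 1) : ∀ k : ℕ, ∀ s : ℝ, (1 / 2 : ℝ) ^ k ≤ s → s ≤ 1 → nug_e g x s = 0 →
      nug_e g x 1 = 0 := by
  have hc : ContinuousOn g (ball (0 : E n) 3) := hg.1.continuousOn
  have step : ∀ s : ℝ, 0 < s → s ≤ 1 / 2 → nug_e g x s = 0 → nug_e g x (2 * s) = 0 := by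
    intro s hs hs2 h0
    have h1 := nug_log hL hg (x := x) (r := 2 * s) (by linarith) (by linarith)
    rw [mul_div_cancel_left₀ s (two_ne_zero), h0, mul_zero] at h1
    have h2 := sq_nonneg (nug_e g x (2 * s))
    exact pow_eq_zero_iff (two_ne_zero) |>.1 (le_antisymm h1 h2)
  intro k
  induction k with
  | zero =>
    intro s h1 h2 h0
    rw [pow_zero] at h1
    rwa [le_antisymm h2 h1] at h0
  | succ k ih =>
    intro s h1 h2 h0
    have hs : 0 < s := lt_of_lt_of_le (by positivity) h1
    rcases le_or_gt s (1 / 2) with h | h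
    · refine ih (2 * s) ?_ (by linarith) (step s hs h h0)
      rw [pow_succ] at h1
      linarith
    · have h3 : nug_e g x (1 / 2) = 0 :=
        le_antisymm ((nug_mono hc h.le (by linarith)).trans h0.le) (nug_nn _ _ _)
      have h4 := step (1 / 2) (by norm_num) le_rfl h3
      rwa [show (2 : ℝ) * (1 / 2) = 1 by norm_num] at h4

theorem nug_up' (hL : T_LGC) {g : E n → ℝ} (hg : Hrm (ball (0 : E n) 3) g) {x : E n}
    (hx : ‖x‖ < 1) {s : ℝ} (hs : 0 < s) (hs1 : s ≤ 1) (h0 : nug_e g x s = 0) :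
    nug_e g x 1 = 0 := by
  obtain ⟨k, hk⟩ := exists_pow_lt_of_lt_one hs (by norm_num : (1 / 2 : ℝ) < 1)
  exact nug_up hL hg hx k s hk.le hs1 h0

theorem nug_pos (hL : T_LGC) {g : E n → ℝ} (hg : Hrm (ball (0 : E n) 3) g)
    (hex : ∃ x ∈ ball (0 : E n) 1, g x ≠ 0) {x : E n} (hx : ‖x‖ < 1) {s : ℝ} (hs : 0 < s)
    (hs1 : s ≤ 1) : 0 < nug_e g x s := by
  have hc : ContinuousOn g (ball (0 : E n) 3) := hg.1.continuousOn
  refine lt_of_le_of_ne (nug_nn _ _ _) fun h0 => ?_
  have h1 := nug_up' hL hg hx hs hs1 h0.symm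
  have h2 := nug_zero hc (by linarith) h1
  have h3 : nug_e g 0 (1 - ‖x‖) = 0 := by
    unfold nug_e
    rw [setIntegral_congr_fun (g := fun _ => (0 : ℝ)) measurableSet_ball fun y hy => ?_]
    · simp
    · have h4 : y ∈ ball x 1 := by
        rw [mem_ball_zero_iff] at hy
        rw [mem_ball, dist_eq_norm]
        have := norm_sub_le y x
        linarith
      show g y ^ 2 = 0
      rw [h2 y h4]
      ring
  have h5 := nug_up' hL hg (x := 0) (by simp) (by linarith) (by linarith [norm_nonneg x]) h3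
  obtain ⟨y, hy, hy0⟩ := hex
  exact hy0 (nug_zero hc (by simp) h5 y hy)

/-- doubling -/
theorem nug_dbl (hL : T_LGC) {g : E n → ℝ} (hg : Hrm (ball (0 : E n) 3) g)
    (hex : ∃ x ∈ ball (0 : E n) 1, g x ≠ 0) {x : E n} (hx : ‖x‖ < 1) :
    ∃ C₀ : ℝ, 0 < C₀ ∧ ∀ r : ℝ, 0 < r → r ≤ 1 / 2 → nug_e g x r ≤ C₀ * nug_e g x (r / 2) := by
  have hc : ContinuousOn g (ball (0 : E n) 3) := hg.1.continuousOn
  have hp8 := nug_pos hL hg hex hx (s := 1 / 8) (by norm_num) (by norm_num)
  have hp1 := nug_pos hL hg hex hx (s := 1) (by norm_num) (by norm_num)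
  set C₀ := nug_e g x 1 / nug_e g x (1 / 8) with hC₀
  have hC : 0 < C₀ := div_pos hp1 hp8
  refine ⟨C₀, hC, ?_⟩
  have key : ∀ k : ℕ, ∀ r : ℝ, (1 / 2 : ℝ) ^ k * (1 / 4) ≤ r → r ≤ 1 / 2 →
      nug_e g x r ≤ C₀ * nug_e g x (r / 2) := by
    intro k
    induction k with
    | zero =>
      intro r h1 h2
      rw [pow_zero, one_mul] at h1
      calc nug_e g x r ≤ nug_e g x 1 := nug_mono hc (by linarith) (by linarith)
        _ = C₀ * nug_e g x (1 / 8) := by rw [hC₀, div_mul_cancel₀ _ hp8.ne']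
        _ ≤ C₀ * nug_e g x (r / 2) :=
          mul_le_mul_of_nonneg_left (nug_mono hc (by linarith) (by linarith)) hC.le
    | succ k ih =>
      intro r h1 h2
      have hr : 0 < r := lt_of_lt_of_le (by positivity) h1
      rcases le_or_gt (1 / 4) r with h | h
      · calc nug_e g x r ≤ nug_e g x 1 := nug_mono hc (by linarith) (by linarith)
          _ = C₀ * nug_e g x (1 / 8) := by rw [hC₀, div_mul_cancel₀ _ hp8.ne']
          _ ≤ C₀ * nug_e g x (r / 2) :=
            mul_le_mul_of_nonneg_left (nug_mono hc (by linarith) (by linarith)) hC.le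
      · have h3 := ih (2 * r) (by rw [pow_succ] at h1; linarith) (by linarith)
        rw [mul_div_cancel_left₀ r (two_ne_zero)] at h3
        have h4 := nug_log hL hg (x := x) hr (by linarith)
        have h5 := nug_pos hL hg hex hx hr (by linarith)
        have h6 : nug_e g x r ^ 2 ≤ C₀ * nug_e g x r * nug_e g x (r / 2) :=
          h4.trans (mul_le_mul_of_nonneg_right h3 (nug_nn _ _ _))
        have h7 : nug_e g x r * nug_e g x r ≤ nug_e g x r * (C₀ * nug_e g x (r / 2)) := by
          calc nug_e g x r * nug_e g x r = nug_e g x r ^ 2 := by ring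
            _ ≤ _ := h6
            _ = _ := by ring
        exact le_of_mul_le_mul_left h7 h5
  intro r hr hr2
  obtain ⟨k, hk⟩ := exists_pow_lt_of_lt_one (show (0 : ℝ) < 4 * r by linarith)
    (by norm_num : (1 / 2 : ℝ) < 1)
  exact key k r (by linarith) hr2

theorem p_NUG (hL : T_LGC) (hS : T_SUP) : T_NUG := by
  intro n g hn hg hex
  have hc : ContinuousOn g (ball (0 : E n) 3) := hg.1.continuousOn
  by_contra hZ
  set Z : Set (E n) := ball (0 : E n) 1 ∩ {x | g x = 0} with hZdef
  have hZm : MeasurableSet Z := by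
    have h1 : IsOpen (ball (0 : E n) 1 ∩ g ⁻¹' {0}ᶜ) :=
      (hc.mono (ball_subset_ball (by norm_num))).isOpen_inter_preimage isOpen_ball
        isOpen_compl_singleton
    have h2 : Z = ball (0 : E n) 1 \ (ball (0 : E n) 1 ∩ g ⁻¹' {0}ᶜ) := by
      ext y
      constructor
      · rintro ⟨hy1, hy2⟩
        exact ⟨hy1, fun hy3 => hy3.2 hy2⟩
      · rintro ⟨hy1, hy2⟩
        refine ⟨hy1, ?_⟩
        by_contra hno
        exact hy2 ⟨hy1, hno⟩
    rw [h2]
    exact measurableSet_ball.diff h1.measurableSet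
  -- a density point
  have hd := Besicovitch.ae_tendsto_measure_inter_div (volume : Measure (E n)) Z
  have hne : (ae (volume.restrict Z)).NeBot := by
    rw [ae_neBot, ne_eq, Measure.restrict_eq_zero]
    exact hZ
  obtain ⟨x, hxd, hxZ⟩ := (hd.and (ae_restrict_mem hZm)).exists
  have hx : ‖x‖ < 1 := by
    have := hxZ.1
    rwa [mem_ball_zero_iff] at this
  obtain ⟨C₀, hC₀, hdbl⟩ := nug_dbl hL hg hex hx
  obtain ⟨C, hC, hsup⟩ := hS n hn
  set w : ℝ := volume.real (ball (0 : E n) 1) with hw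
  have hw0 : 0 ≤ w := by positivity
  -- the constant
  set δ : ℝ := 1 / (2 * (C * C₀ * (w + 1))) with hδ
  have hδ0 : 0 < δ := by positivity
  have h3 : ∀ᶠ r in 𝓝[>] (0 : ℝ), 1 - ENNReal.ofReal δ <
      volume (Z ∩ closedBall x r) / volume (closedBall x r) := by
    refine hxd.eventually (lt_mem_nhds ?_)
    exact ENNReal.sub_lt_self (by simp) (by simp) (by simpa using hδ0)
  have h4 : ∀ᶠ r in 𝓝[>] (0 : ℝ), r < 1 / 2 := by
    filter_upwards [Ioo_mem_nhdsGT (show (0 : ℝ) < 1 / 2 by norm_num)] with r hr using hr.2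
  obtain ⟨r, hr3, hr4, hr0⟩ := (h3.and (h4.and self_mem_nhdsWithin)).exists
  have hr0 : 0 < r := hr0
  -- measure of the complement
  have hvr : volume.real (closedBall x r) = r ^ n * w := by
    rw [Measure.addHaar_real_closedBall _ _ hr0.le, finrank_euclideanSpace, Fintype.card_fin]
  have hcomp : volume.real (closedBall x r \ Z) ≤ δ * (r ^ n * w) := by
    have hfin : volume (closedBall x r) ≠ ⊤ := measure_closedBall_lt_top.ne
    have hpos : volume (closedBall x r) ≠ 0 := (measure_closedBall_pos _ _ hr0).ne'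
    have h5 : (1 - ENNReal.ofReal δ) * volume (closedBall x r) ≤ volume (Z ∩ closedBall x r) := by
      rw [ENNReal.lt_div_iff_mul_lt (Or.inl hpos) (Or.inl hfin)] at hr3
      exact hr3.le
    have h6 : volume (Z ∩ closedBall x r) + volume (closedBall x r \ Z) =
        volume (closedBall x r) := by
      rw [inter_comm]
      exact measure_inter_add_sdiff _ hZm
    have h7 : volume (closedBall x r \ Z) ≤ ENNReal.ofReal δ * volume (closedBall x r) := by
      have h8 : volume (closedBall x r) ≤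
          volume (Z ∩ closedBall x r) + ENNReal.ofReal δ * volume (closedBall x r) := by
        calc volume (closedBall x r) = 1 * volume (closedBall x r) := (one_mul _).symm
          _ ≤ ((1 - ENNReal.ofReal δ) + ENNReal.ofReal δ) * volume (closedBall x r) :=
            mul_le_mul_left le_tsub_add _
          _ = (1 - ENNReal.ofReal δ) * volume (closedBall x r) +
              ENNReal.ofReal δ * volume (closedBall x r) := add_mul _ _ _
          _ ≤ _ := by gcongr
      have h9 : volume (Z ∩ closedBall x r) ≠ ⊤ := measure_ne_top_of_subset inter_subset_right hfin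
      exact (ENNReal.add_le_add_iff_left h9).1 (h6.le.trans h8)
    rw [← hvr]
    have h10 := ENNReal.toReal_mono (ENNReal.mul_ne_top ENNReal.ofReal_ne_top hfin) h7
    rw [ENNReal.toReal_mul, ENNReal.toReal_ofReal hδ0.le] at h10
    exact h10
  -- the bound for e (r / 2)
  have hsub : closedBall x r ⊆ ball (0 : E n) 3 := nug_sub (by linarith)
  set M : ℝ := C * (r ^ n)⁻¹ * nug_e g x r with hM
  have hbound : ∀ y ∈ ball x (r / 2), g y ^ 2 ≤ M :=
    fun y hy => hsup (ball (0 : E n) 3) g x r isOpen_ball hg hr0 hsub y hy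
  have hM0 : 0 ≤ M := by
    have := nug_nn g x r
    positivity
  have he : nug_e g x (r / 2) ≤ M * (δ * (r ^ n * w)) := by
    have h5 : nug_e g x (r / 2) = ∫ y in ball x (r / 2) \ Z, g y ^ 2 := by
      unfold nug_e
      refine setIntegral_eq_of_subset_of_forall_sdiff_eq_zero measurableSet_ball
        sdiff_subset fun y hy => ?_
      have h6 : y ∈ Z := by
        by_contra hno
        exact hy.2 ⟨hy.1, hno⟩
      show g y ^ 2 = 0
      rw [h6.2]
      ring
    have hfin : volume (ball x (r / 2) \ Z) ≠ ⊤ :=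
      measure_ne_top_of_subset sdiff_subset measure_ball_lt_top.ne
    rw [h5]
    calc ∫ y in ball x (r / 2) \ Z, g y ^ 2 ≤ ∫ _y in ball x (r / 2) \ Z, M := by
          refine setIntegral_mono_on ((nug_int hc (by linarith)).mono_set sdiff_subset)
            (integrableOn_const hfin) (measurableSet_ball.diff hZm) fun y hy => hbound y hy.1
      _ = volume.real (ball x (r / 2) \ Z) * M := by rw [setIntegral_const, smul_eq_mul]
      _ ≤ (δ * (r ^ n * w)) * M := by
          refine mul_le_mul_of_nonneg_right (le_trans ?_ hcomp) hM0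
          refine measureReal_mono ?_ ?_
          · exact sdiff_subset_sdiff_left ((ball_subset_ball (by linarith)).trans
              ball_subset_closedBall)
          · exact measure_ne_top_of_subset sdiff_subset measure_closedBall_lt_top.ne
      _ = _ := mul_comm _ _
  have h6 := hdbl r hr0 hr4.le
  have hp := nug_pos hL hg hex hx (s := r / 2) (by linarith) (by linarith)
  have hrn : 0 < r ^ n := by positivity
  have h7 : M * (δ * (r ^ n * w)) = C * w * δ * nug_e g x r := by
    rw [hM]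
    field_simp
  have h8 : C * w * δ * C₀ < 1 := by
    rw [hδ]
    have h9 : 0 < C * C₀ * (w + 1) := by positivity
    rw [show C * w * (1 / (2 * (C * C₀ * (w + 1)))) * C₀ = (C * C₀ * w) / (2 * (C * C₀ * (w + 1)))
      by ring, div_lt_one (by positivity)]
    nlinarith [mul_pos hC hC₀]
  have h10 : nug_e g x (r / 2) ≤ C * w * δ * C₀ * nug_e g x (r / 2) := by
    calc nug_e g x (r / 2) ≤ C * w * δ * nug_e g x r := by rw [← h7]; exact he
      _ ≤ C * w * δ * (C₀ * nug_e g x (r / 2)) :=
        mul_le_mul_of_nonneg_left h6 (by positivity)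
      _ = _ := by ring
  nlinarith [mul_lt_mul_of_pos_right h8 hp]

end Pool.Agent.SCN
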