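import Pool.Agent.SCN.Targets

/-! # Target NUL -/

set_option autoImplicit false

open Set MeasureTheory Filter Topology Metric
open scoped RealInnerProductSpace

namespace Pool.Agent.SCN

open Pool.Agent.SCP (E PHarm V)

theorem p_NUL (hDER : T_DER) (hNUG : T_NUG) : T_NUL := by
  intro n h hn hH hint
  have key : ∀ x, gradient h x = 0 ↔ fderiv ℝ h x = 0 := by
    intro x
    unfold gradient
    exact LinearIsometryEquiv.map_eq_zero_iff _
  obtain ⟨a, x, hx, hax⟩ : ∃ a x, x ∈ ball (0 : E n) 1 ∧ fderiv ℝ h x a ≠ 0 := by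
    by_contra hcon
    push Not at hcon
    apply hint
    have h1 : ∀ x ∈ ball (0 : E n) 1, ‖gradient h x‖ ^ 2 = (fun _ : E n => (0 : ℝ)) x := by
      intro x hx
      have h2 : fderiv ℝ h x = 0 := by
        ext a
        exact hcon a x hx
      rw [(key x).2 h2]
      simp
    rw [setIntegral_congr_fun measurableSet_ball h1]
    simp
  have h1 := hNUG n (fun x => fderiv ℝ h x a) hn (hDER n (ball 0 3) h a isOpen_ball hH)
    ⟨x, hx, hax⟩
  refine measure_mono_null ?_ h1
  rintro y ⟨hy1, hy2⟩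
  refine ⟨hy1, ?_⟩
  have h2 : fderiv ℝ h y = 0 := (key y).1 hy2
  simp [h2]

end Pool.Agent.SCN
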