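import Pool.Agent.SCN.Targets

/-! # Strong comparison for `p`-harmonic functions: the Poincaré inequality -/

set_option autoImplicit false

open Set MeasureTheory Filter Topology Metric
open scoped RealInnerProductSpace ENNReal

namespace Pool.Agent.SCN

open Pool.Agent.SCP (E PHarm V)

variable {n : ℕ}

/-- Scaling and translation in a lower integral. -/
theorem poi_scale (G : E n → ℝ≥0∞) (hG : Measurable G) (a : E n) {t : ℝ} (ht : 1 / 2 ≤ t) :
    ∫⁻ z, G (a + t • z) ≤ 2 ^ n * ∫⁻ z, G z := by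
  have ht0 : 0 < t := by linarith
  have h1 : ∫⁻ z, G (a + t • z) = ∫⁻ w, G (a + w) ∂(Measure.map (fun z : E n => t • z) volume) :=
    (lintegral_map (hG.comp (measurable_const_add a)) (measurable_const_smul t)).symm
  rw [h1, Measure.map_addHaar_smul volume ht0.ne', lintegral_smul_measure]
  have h2 : ∫⁻ w, G (a + w) = ∫⁻ w, G w := lintegral_add_left_eq_self G a
  rw [h2]
  have h3 : Module.finrank ℝ (E n) = n := by simp
  rw [h3, smul_eq_mul]
  gcongr
  rw [abs_of_pos (by positivity)]
  calc ENNReal.ofReal (t ^ n)⁻¹ ≤ ENNReal.ofReal (2 ^ n) := by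
        apply ENNReal.ofReal_le_ofReal
        rw [← inv_pow]
        apply pow_le_pow_left₀ (by positivity)
        rw [inv_le_comm₀ ht0 (by norm_num)]
        linarith
    _ = 2 ^ n := by
        rw [ENNReal.ofReal_pow (by norm_num)]
        norm_num

/-- The double integral at a fixed time. -/
theorem poi_time (G : E n → ℝ≥0∞) (hG : Measurable G) (B : Set (E n)) (t : ℝ) :
    ∫⁻ y in B, ∫⁻ z in B, G ((1 - t) • y + t • z) ≤ 2 ^ n * (volume B * ∫⁻ z, G z) := by
  have key : ∀ s : ℝ, 1 / 2 ≤ s → ∀ h : E n → E n → E n, (∀ y z, h y z = (1 - s) • y + s • z) →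
      ∫⁻ y in B, ∫⁻ z in B, G (h y z) ≤ 2 ^ n * (volume B * ∫⁻ z, G z) := by
    intro s hs h hh
    calc ∫⁻ y in B, ∫⁻ z in B, G (h y z) ≤ ∫⁻ _y in B, (2 ^ n * ∫⁻ z, G z) := by
          apply lintegral_mono
          intro y
          simp only [hh]
          exact (setLIntegral_le_lintegral _ _).trans (poi_scale G hG _ hs)
      _ = 2 ^ n * (volume B * ∫⁻ z, G z) := by
          rw [lintegral_const, Measure.restrict_apply_univ]
          ring
  rcases le_total (1 / 2) t with ht | ht
  · exact key t ht _ (fun y z => rfl)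
  · rw [lintegral_lintegral_swap]
    · exact key (1 - t) (by linarith) (fun y z => (1 - t) • z + t • y) (fun y z => by
        rw [sub_sub_cancel, add_comm])
    · have : Measurable (Function.uncurry fun y z : E n => G ((1 - t) • y + t • z)) := by
        apply hG.comp
        fun_prop
      exact this.aemeasurable

/-- Integration over the time. -/
theorem poi_triple (G : E n → ℝ≥0∞) (hG : Measurable G) (B : Set (E n)) :
    ∫⁻ y in B, ∫⁻ z in B, ∫⁻ t in Ioc (0 : ℝ) 1, G ((1 - t) • y + t • z) ≤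
      2 ^ n * (volume B * ∫⁻ z, G z) := by
  have hm : Measurable (fun p : (E n × E n) × ℝ => G ((1 - p.2) • p.1.1 + p.2 • p.1.2)) := by
    apply hG.comp
    fun_prop
  calc ∫⁻ y in B, ∫⁻ z in B, ∫⁻ t in Ioc (0 : ℝ) 1, G ((1 - t) • y + t • z)
      = ∫⁻ y in B, ∫⁻ t in Ioc (0 : ℝ) 1, ∫⁻ z in B, G ((1 - t) • y + t • z) := by
        apply lintegral_congr
        intro y
        apply lintegral_lintegral_swap
        have : Measurable (Function.uncurry fun (z : E n) (t : ℝ) => G ((1 - t) • y + t • z)) := by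
          apply hG.comp
          fun_prop
        exact this.aemeasurable
    _ = ∫⁻ t in Ioc (0 : ℝ) 1, ∫⁻ y in B, ∫⁻ z in B, G ((1 - t) • y + t • z) := by
        apply lintegral_lintegral_swap
        have h1 : Measurable (fun q : (E n × ℝ) × E n =>
            G ((1 - q.1.2) • q.1.1 + q.1.2 • q.2)) := by
          apply hG.comp
          fun_prop
        have h2 : Measurable (fun q : E n × ℝ => ∫⁻ z in B, G ((1 - q.2) • q.1 + q.2 • z)) :=
          h1.lintegral_prod_right'
        exact h2.aemeasurable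
    _ ≤ ∫⁻ _t in Ioc (0 : ℝ) 1, 2 ^ n * (volume B * ∫⁻ z, G z) :=
        lintegral_mono fun t => poi_time G hG B t
    _ = 2 ^ n * (volume B * ∫⁻ z, G z) := by
        rw [lintegral_const, Measure.restrict_apply_univ, Real.volume_Ioc]
        norm_num

/-- The bound along a segment. -/
theorem poi_seg {Ω : Set (E n)} {f : E n → ℝ} {x : E n} {r : ℝ} (hΩ : IsOpen Ω)
    (hf : ContDiffOn ℝ 1 f Ω) (hr : 0 < r) (hB : closedBall x r ⊆ Ω) {y z : E n}
    (hy : y ∈ ball x r) (hz : z ∈ ball x r) :
    ‖|f y - f z|‖ₑ ≤ ENNReal.ofReal (2 * r) * ∫⁻ t in Ioc (0 : ℝ) 1,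
      (ball x r).indicator (fun w => ‖gradient f w‖ₑ) ((1 - t) • y + t • z) := by
  have hseg : ∀ t ∈ Icc (0 : ℝ) 1, (1 - t) • y + t • z ∈ ball x r := by
    intro t ht
    exact (convex_ball x r) hy hz (by linarith [ht.2]) ht.1 (by ring)
  have hsub : ball x r ⊆ Ω := ball_subset_closedBall.trans hB
  have hd : ∀ w ∈ Ω, DifferentiableAt ℝ f w := fun w hw =>
    (hf.contDiffAt (hΩ.mem_nhds hw)).differentiableAt (by norm_num)
  have hc : ContinuousOn (fderiv ℝ f) Ω := hf.continuousOn_fderiv_of_isOpen hΩ (by norm_num)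
  have hder : ∀ t ∈ Icc (0 : ℝ) 1, HasDerivAt (fun t : ℝ => f ((1 - t) • y + t • z))
      (fderiv ℝ f ((1 - t) • y + t • z) (z - y)) t := by
    intro t ht
    have h1 : HasDerivAt (fun t : ℝ => (1 - t) • y + t • z) (z - y) t := by
      have h2 : HasDerivAt (fun t : ℝ => (1 - t) • y) ((-1 : ℝ) • y) t :=
        ((hasDerivAt_id t).const_sub 1).smul_const y
      have h3 : HasDerivAt (fun t : ℝ => t • z) ((1 : ℝ) • z) t :=
        (hasDerivAt_id t).smul_const z
      have h4 := h2.add h3
      have h5 : (-1 : ℝ) • y + (1 : ℝ) • z = z - y := by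
        rw [one_smul, neg_one_smul]
        abel
      rw [h5] at h4
      exact h4
    exact (hd _ (hsub (hseg t ht))).hasFDerivAt.comp_hasDerivAt t h1
  have hcont : ContinuousOn (fun t : ℝ => fderiv ℝ f ((1 - t) • y + t • z) (z - y))
      (Icc 0 1) := by
    have h1 : ContinuousOn (fun t : ℝ => fderiv ℝ f ((1 - t) • y + t • z)) (Icc 0 1) :=
      hc.comp (by fun_prop) (fun t ht => hsub (hseg t ht))
    exact h1.clm_apply continuousOn_const
  have hint : ∫ t in (0 : ℝ)..1, fderiv ℝ f ((1 - t) • y + t • z) (z - y) = f z - f y := by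
    have h1 := intervalIntegral.integral_eq_sub_of_hasDerivAt
      (f := fun t : ℝ => f ((1 - t) • y + t • z))
      (f' := fun t : ℝ => fderiv ℝ f ((1 - t) • y + t • z) (z - y)) (a := 0) (b := 1)
      (fun t ht => hder t (by rwa [uIcc_of_le zero_le_one] at ht))
      (by
        apply ContinuousOn.intervalIntegrable
        rwa [uIcc_of_le zero_le_one])
    rw [h1]
    simp
  have h0 : ‖|f y - f z|‖ₑ = ‖f z - f y‖ₑ := by
    rw [← Real.norm_eq_abs, enorm_norm, ← enorm_neg, neg_sub]
  rw [h0, ← hint, intervalIntegral.integral_of_le zero_le_one]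
  refine (enorm_integral_le_lintegral_enorm _).trans ?_
  rw [← lintegral_const_mul' _ _ ENNReal.ofReal_ne_top]
  apply setLIntegral_mono' measurableSet_Ioc
  intro t ht
  have ht' : t ∈ Icc (0 : ℝ) 1 := Ioc_subset_Icc_self ht
  rw [indicator_of_mem (hseg t ht')]
  have h1 : fderiv ℝ f ((1 - t) • y + t • z) (z - y)
      = ⟪gradient f ((1 - t) • y + t • z), z - y⟫ := by
    rw [gradient, InnerProductSpace.toDual_symm_apply]
  rw [h1]
  have h2 : ‖z - y‖ ≤ 2 * r := by
    have h3 : dist z x < r := hz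
    have h4 : dist y x < r := hy
    rw [← dist_eq_norm]
    linarith [dist_triangle_right z y x]
  rw [← ofReal_norm_eq_enorm, ← ofReal_norm_eq_enorm,
    ← ENNReal.ofReal_mul (by positivity)]
  apply ENNReal.ofReal_le_ofReal
  calc ‖⟪gradient f ((1 - t) • y + t • z), z - y⟫‖
      ≤ ‖gradient f ((1 - t) • y + t • z)‖ * ‖z - y‖ := norm_inner_le_norm _ _
    _ ≤ ‖gradient f ((1 - t) • y + t • z)‖ * (2 * r) := by gcongr
    _ = 2 * r * ‖gradient f ((1 - t) • y + t • z)‖ := mul_comm _ _

theorem poi_meas (f : E n → ℝ) : Measurable (gradient f) := by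
  have h1 : Measurable (fderiv ℝ f) := measurable_fderiv ℝ f
  exact (InnerProductSpace.toDual ℝ (E n)).symm.continuous.measurable.comp h1

theorem p_POI : T_POI := by
  intro n
  have hv : volume (ball (0 : E n) 1) ≠ ∞ := measure_ball_lt_top.ne
  have hv0 : 0 < (volume (ball (0 : E n) 1)).toReal :=
    ENNReal.toReal_pos (measure_ball_pos volume _ one_pos).ne' hv
  refine ⟨2 * 2 ^ n * (volume (ball (0 : E n) 1)).toReal, by positivity, ?_⟩
  intro Ω f x r hΩ hf hr hB
  set G : E n → ℝ≥0∞ := (ball x r).indicator (fun w => ‖gradient f w‖ₑ) with hGdef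
  have hG : Measurable G := (poi_meas f).enorm.indicator measurableSet_ball
  have hsub : ball x r ⊆ Ω := ball_subset_closedBall.trans hB
  have hgc : ContinuousOn (gradient f) Ω := by
    have hc : ContinuousOn (fderiv ℝ f) Ω := hf.continuousOn_fderiv_of_isOpen hΩ (by norm_num)
    exact (InnerProductSpace.toDual ℝ (E n)).symm.continuous.comp_continuousOn hc
  have hgi : IntegrableOn (gradient f) (ball x r) :=
    ((hgc.mono hB).integrableOn_compact (isCompact_closedBall x r)).mono_set
      ball_subset_closedBall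
  have hGint : ∫⁻ z, G z = ENNReal.ofReal (∫ y in ball x r, ‖gradient f y‖) := by
    rw [hGdef, lintegral_indicator measurableSet_ball]
    exact (ofReal_integral_norm_eq_lintegral_enorm hgi).symm
  have h1 : ‖∫ y in ball x r, ∫ z in ball x r, |f y - f z|‖ₑ ≤
      ENNReal.ofReal (2 * r) * (2 ^ n * (volume (ball x r) * ∫⁻ z, G z)) := by
    calc ‖∫ y in ball x r, ∫ z in ball x r, |f y - f z|‖ₑ
        ≤ ∫⁻ y in ball x r, ‖∫ z in ball x r, |f y - f z|‖ₑ :=
          enorm_integral_le_lintegral_enorm _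
      _ ≤ ∫⁻ y in ball x r, ∫⁻ z in ball x r, ‖|f y - f z|‖ₑ :=
          lintegral_mono fun y => enorm_integral_le_lintegral_enorm _
      _ ≤ ∫⁻ y in ball x r, ∫⁻ z in ball x r, ENNReal.ofReal (2 * r) *
            ∫⁻ t in Ioc (0 : ℝ) 1, G ((1 - t) • y + t • z) :=
          setLIntegral_mono' measurableSet_ball fun y hy =>
            setLIntegral_mono' measurableSet_ball fun z hz => poi_seg hΩ hf hr hB hy hz
      _ = ENNReal.ofReal (2 * r) * ∫⁻ y in ball x r, ∫⁻ z in ball x r,
            ∫⁻ t in Ioc (0 : ℝ) 1, G ((1 - t) • y + t • z) := by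
          rw [← lintegral_const_mul' _ _ ENNReal.ofReal_ne_top]
          apply lintegral_congr
          intro y
          rw [lintegral_const_mul' _ _ ENNReal.ofReal_ne_top]
      _ ≤ ENNReal.ofReal (2 * r) * (2 ^ n * (volume (ball x r) * ∫⁻ z, G z)) := by
          gcongr
          exact poi_triple G hG _
  have h2 : volume (ball x r) = ENNReal.ofReal (r ^ n) * volume (ball (0 : E n) 1) := by
    have h3 := Measure.addHaar_ball_of_pos volume x hr
    rw [h3]
    simp
  have h3 : ENNReal.ofReal (2 * r) * (2 ^ n * (volume (ball x r) * ∫⁻ z, G z)) =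
      ENNReal.ofReal (2 * 2 ^ n * (volume (ball (0 : E n) 1)).toReal * r ^ (n + 1) *
        ∫ y in ball x r, ‖gradient f y‖) := by
    have h4 : 0 ≤ ∫ y in ball x r, ‖gradient f y‖ := integral_nonneg fun y => norm_nonneg _
    have h5 : (2 : ℝ≥0∞) ^ n = ENNReal.ofReal (2 ^ n) := by
      rw [ENNReal.ofReal_pow (by norm_num)]
      norm_num
    rw [h2, hGint, h5]
    nth_rewrite 1 [← ENNReal.ofReal_toReal hv]
    rw [← ENNReal.ofReal_mul (by positivity), ← ENNReal.ofReal_mul (by positivity),
      ← ENNReal.ofReal_mul (by positivity), ← ENNReal.ofReal_mul (by positivity)]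
    congr 1
    ring
  rw [h3] at h1
  have h4 : 0 ≤ ∫ y in ball x r, ‖gradient f y‖ := integral_nonneg fun y => norm_nonneg _
  rw [← ofReal_norm_eq_enorm] at h1
  have h5 := (ENNReal.ofReal_le_ofReal_iff (by positivity)).mp h1
  exact (le_abs_self _).trans h5

end Pool.Agent.SCN
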