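import Pool.Agent.SCN.Targets

/-!
# SCN-PSG: the test function
-/

set_option autoImplicit false

open Set MeasureTheory Filter Topology Metric
open scoped RealInnerProductSpace

namespace Pool.Agent.SCN

open Pool.Agent.SCP (E PHarm V)

namespace psg_

variable {n : ℕ}

theorem fd (f : E n → ℝ) (x : E n) (r : ℝ) (z : E n) :
    fderiv ℝ (fun z => f (r • (z - x))) z = r • fderiv ℝ f (r • (z - x)) := by
  have h2 := fderiv_comp_smul (𝕜 := ℝ) (f := fun w : E n => f (-(r • x) + w)) (x := z) r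
  rw [fderiv_comp_add_left] at h2
  have h4 : ∀ w : E n, r • (w - x) = -(r • x) + r • w := by
    intro w
    rw [smul_sub]
    abel
  have h3 : (fun z : E n => f (r • (z - x))) = fun z => f (-(r • x) + r • z) := by
    funext w
    rw [h4]
  rw [h3, h2, h4]

theorem gr (Φ : E n → ℝ) (x : E n) (ρ : ℝ) (z : E n) :
    gradient (ps Φ x ρ) z = -(ρ⁻¹ • gradient Φ (ρ⁻¹ • (z - x))) := by
  have h1 : ps Φ x ρ = fun z => -((fun z => Φ (ρ⁻¹ • (z - x))) z) := rfl
  rw [gradient, h1, fderiv_fun_neg, fd]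
  simp only [gradient]
  simp

theorem norm_arg {x z : E n} {ρ : ℝ} (hρ : 0 < ρ) (h : z ∉ ball x ρ) :
    1 ≤ ‖ρ⁻¹ • (z - x)‖ := by
  rw [mem_ball, not_lt, dist_eq_norm] at h
  rw [norm_smul, norm_inv, Real.norm_of_nonneg hρ.le, inv_mul_eq_div, le_div_iff₀ hρ, one_mul]
  exact h

end psg_

theorem p_PSG : T_PSG := by
  intro n φ Φ hK
  have hcont : Continuous (fun y : E n => ‖φ y • y‖) :=
    (hK.smooth.continuous.smul continuous_id).norm
  obtain ⟨M, hM⟩ := (isCompact_closedBall (0 : E n) 1).exists_bound_of_continuousOn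
    hcont.continuousOn
  have hbd : ∀ y : E n, ‖gradient Φ y‖ ≤ |M| + 1 := by
    intro y
    rw [hK.grad]
    by_cases hy : 1 ≤ ‖y‖
    · rw [hK.supp y hy, zero_smul, norm_zero]
      positivity
    · push Not at hy
      have h1 := hM y (by rw [mem_closedBall, dist_zero_right]; exact hy.le)
      rw [norm_norm] at h1
      linarith [le_abs_self M]
  refine ⟨|M| + 1, by positivity, fun x ρ hρ => ?_⟩
  have hzero : ∀ z, z ∉ ball x ρ → ps Φ x ρ z = 0 := by
    intro z hz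
    rw [ps, hK.supp' _ (psg_.norm_arg hρ hz), neg_zero]
  refine ⟨?_, ?_, ?_, ?_, ?_, ?_, ?_⟩
  · have h1 : ContDiff ℝ (⊤ : ℕ∞) (fun z : E n => ρ⁻¹ • (z - x)) :=
      (contDiff_id.sub contDiff_const).const_smul ρ⁻¹
    exact (hK.smooth'.comp h1).neg
  · refine HasCompactSupport.intro (isCompact_closedBall x ρ) (fun z hz => ?_)
    exact hzero z (fun h => hz (ball_subset_closedBall h))
  · refine closure_minimal (fun z hz => ?_) isClosed_closedBall
    by_contra h
    exact hz (hzero z (fun h' => h (ball_subset_closedBall h')))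
  · intro z
    rw [ps]
    by_cases hy : 1 ≤ ‖ρ⁻¹ • (z - x)‖
    · rw [hK.supp' _ hy, neg_zero]
    · push Not at hy
      have := hK.neg _ hy
      linarith
  · intro z
    rw [psg_.gr, norm_neg, norm_smul, norm_inv, Real.norm_of_nonneg hρ.le, inv_mul_eq_div]
    exact div_le_div_of_nonneg_right (hbd _) hρ.le
  · intro z hz
    rw [psg_.gr, hK.grad, hK.supp _ (psg_.norm_arg hρ hz), zero_smul, smul_zero, neg_zero]
  · intro F
    have e1 : ∀ z, ⟪F z, gradient (ps Φ x ρ) z⟫ =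
        (-ρ⁻¹) * (fun w : E n => ⟪F (x + w), gradient Φ (ρ⁻¹ • w)⟫) (z - x) := by
      intro z
      rw [psg_.gr, inner_neg_right, inner_smul_right]
      simp only [add_sub_cancel]
      ring
    have e2 : ∫ z, ⟪F z, gradient (ps Φ x ρ) z⟫ =
        (-ρ⁻¹) * ∫ w : E n, ⟪F (x + w), gradient Φ (ρ⁻¹ • w)⟫ := by
      rw [← integral_sub_right_eq_self (fun w : E n => ⟪F (x + w), gradient Φ (ρ⁻¹ • w)⟫) x,
        ← integral_const_mul]
      exact integral_congr_ae (Filter.Eventually.of_forall e1)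
    have e3 := Measure.integral_comp_smul (volume : Measure (E n))
      (fun w : E n => ⟪F (x + w), gradient Φ (ρ⁻¹ • w)⟫) ρ
    rw [finrank_euclideanSpace, Fintype.card_fin, abs_of_pos (by positivity), smul_eq_mul] at e3
    have e4 : ∀ y : E n, ρ⁻¹ • ρ • y = y := fun y => inv_smul_smul₀ hρ.ne' y
    simp only [e4] at e3
    rw [e2, e3]
    have h1 : ρ ^ n * (ρ ^ n)⁻¹ = 1 := mul_inv_cancel₀ (by positivity)
    have h2 : ρ * ρ⁻¹ = 1 := mul_inv_cancel₀ hρ.ne'
    generalize (∫ w : E n, ⟪F (x + w), gradient Φ (ρ⁻¹ • w)⟫) = J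
    calc ρ ^ n * ((ρ ^ n)⁻¹ * J) = (ρ ^ n * (ρ ^ n)⁻¹) * J := by ring
      _ = (ρ * ρ⁻¹) * J := by rw [h1, h2]
      _ = -(ρ * (-ρ⁻¹ * J)) := by ring

end Pool.Agent.SCN
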