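import Pool.Agent.SCN.Targets

/-!
# SCN-SCL: scaling
-/

set_option autoImplicit false

open Set MeasureTheory Filter Topology Metric
open scoped RealInnerProductSpace Pointwise

namespace Pool.Agent.SCN

open Pool.Agent.SCP (E PHarm V)

variable {n : ℕ}

/-- the affine change of variables in the Lebesgue integral -/
theorem scl_integral (F : E n → ℝ) (x₀ : E n) {r : ℝ} (hr : 0 < r) :
    ∫ y, F (x₀ + r • y) = (r ^ n)⁻¹ * ∫ y, F y := by
  have h1 := Measure.integral_comp_smul (volume : Measure (E n)) (fun z => F (x₀ + z)) r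
  rw [finrank_euclideanSpace, Fintype.card_fin, integral_add_left_eq_self F x₀,
    abs_of_pos (by positivity), smul_eq_mul] at h1
  exact h1

/-- the chain rule -/
theorem scl_fderiv (u : E n → ℝ) (x₀ : E n) (r c : ℝ) (y : E n) :
    fderiv ℝ (fun y => c * u (x₀ + r • y)) y = (c * r) • fderiv ℝ u (x₀ + r • y) := by
  have h1 : fderiv ℝ (fun y => u (x₀ + r • y)) y = r • fderiv ℝ u (x₀ + r • y) := by
    have h2 := fderiv_comp_smul (𝕜 := ℝ) (f := fun z : E n => u (x₀ + z)) (x := y) r
    rw [h2, fderiv_comp_add_left]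
  have h3 : (fun y => c * u (x₀ + r • y)) = c • (fun y => u (x₀ + r • y)) := by
    funext z
    simp
  rw [h3, fderiv_const_smul_field]
  show c • fderiv ℝ (fun y => u (x₀ + r • y)) y = _
  rw [h1, smul_smul]

theorem scl_gradient (u : E n → ℝ) (x₀ : E n) (r c : ℝ) (y : E n) :
    gradient (fun y => c * u (x₀ + r • y)) y = (c * r) • gradient u (x₀ + r • y) := by
  rw [gradient, scl_fderiv]
  simp only [map_smulₛₗ, gradient]
  simp

theorem scl_mem (x₀ y : E n) {r : ℝ} (hr : 0 < r) (t : ℝ) (z : E n) :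
    x₀ + r • z ∈ ball (x₀ + r • y) (r * t) ↔ z ∈ ball y t := by
  rw [mem_ball, mem_ball, dist_add_left, dist_smul₀, Real.norm_of_nonneg hr.le,
    mul_lt_mul_iff_right₀ hr]

theorem scl_energy (p : ℝ) (u : E n → ℝ) (x₀ : E n) {r c : ℝ} (hr : 0 < r) (hc : 0 < c)
    (y : E n) (t : ℝ) : en p (fun y => c * u (x₀ + r • y)) y t =
    (c * r) ^ p * (r ^ n)⁻¹ * en p u (x₀ + r • y) (r * t) := by
  unfold en
  rw [← integral_indicator measurableSet_ball, ← integral_indicator measurableSet_ball]
  have h1 := scl_integral ((ball (x₀ + r • y) (r * t)).indicator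
    (fun z => ‖gradient u z‖ ^ p)) x₀ hr
  rw [mul_assoc, ← h1, ← integral_const_mul]
  congr 1
  funext z
  by_cases hz : z ∈ ball y t
  · rw [indicator_of_mem hz, indicator_of_mem ((scl_mem x₀ y hr t z).2 hz), scl_gradient,
      norm_smul, Real.norm_of_nonneg (by positivity),
      Real.mul_rpow (by positivity) (norm_nonneg _)]
  · rw [indicator_of_notMem hz, indicator_of_notMem (fun h => hz ((scl_mem x₀ y hr t z).1 h)),
      mul_zero]

theorem scl_volume (u : E n → ℝ) (x₀ : E n) {r c : ℝ} (hr : 0 < r) (hc : 0 < c) (t a : ℝ) :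
    volume (ball x₀ (r * t) ∩ {z | ‖gradient u z‖ < a}) = ENNReal.ofReal (r ^ n) *
    volume (ball (0 : E n) t ∩
      {y | ‖gradient (fun y => c * u (x₀ + r • y)) y‖ < c * r * a}) := by
  set S : Set (E n) := ball (0 : E n) t ∩
      {y | ‖gradient (fun y => c * u (x₀ + r • y)) y‖ < c * r * a} with hS
  have h1 := Measure.addHaar_smul (volume : Measure (E n)) r S
  rw [finrank_euclideanSpace, Fintype.card_fin, abs_of_pos (by positivity)] at h1
  rw [← h1, ← measure_preimage_add volume x₀ (ball x₀ (r * t) ∩ {z | ‖gradient u z‖ < a})]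
  congr 1
  ext z
  rw [mem_smul_set_iff_inv_smul_mem₀ hr.ne', mem_preimage, hS, mem_inter_iff, mem_inter_iff,
    mem_ofPred_eq, mem_ofPred_eq, scl_gradient, norm_smul, Real.norm_of_nonneg (by positivity),
    mul_lt_mul_iff_right₀ (by positivity), smul_smul, mul_inv_cancel₀ hr.ne', one_smul]
  have h2 := scl_mem x₀ 0 hr t (r⁻¹ • z)
  rw [smul_zero, add_zero, smul_smul, mul_inv_cancel₀ hr.ne', one_smul] at h2
  rw [h2]

theorem scl_pb (p : ℝ) (u : E n → ℝ) (x₀ : E n) {r c : ℝ} (hr : 0 < r) (hc : 0 < c) (R : ℝ)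
    (h : PB p x₀ (r * R) u) : PB p 0 R (fun y => c * u (x₀ + r • y)) := by
  obtain ⟨Ω, hΩ, hsub, hC, hw⟩ := h
  have hφ : Continuous (fun y : E n => x₀ + r • y) := by fun_prop
  refine ⟨(fun y : E n => x₀ + r • y) ⁻¹' Ω, hΩ.preimage hφ, ?_, ?_, ?_⟩
  · intro y hy
    apply hsub
    rw [mem_closedBall, dist_zero_right] at hy
    rw [mem_closedBall, dist_eq_norm, add_sub_cancel_left, norm_smul,
      Real.norm_of_nonneg hr.le]
    exact mul_le_mul_of_nonneg_left hy hr.le
  · have h1 : ContDiff ℝ 1 (fun y : E n => x₀ + r • y) := by fun_prop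
    have h2 : ContDiffOn ℝ 1 (fun y => u (x₀ + r • y)) ((fun y : E n => x₀ + r • y) ⁻¹' Ω) :=
      hC.comp h1.contDiffOn (fun y hy => hy)
    exact contDiffOn_const.mul h2
  · intro θ h1 h2 h3
    -- the test function for `u`
    set A : E n → E n := fun z => r⁻¹ • (z - x₀) with hA
    have hAc : ContDiff ℝ (⊤ : ℕ∞) A := by
      rw [hA]
      fun_prop
    have hAA : ∀ y, A (x₀ + r • y) = y := by
      intro y
      rw [hA]
      show r⁻¹ • (x₀ + r • y - x₀) = y
      rw [add_sub_cancel_left, smul_smul, inv_mul_cancel₀ hr.ne', one_smul]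
    have hAA' : ∀ z, x₀ + r • A z = z := by
      intro z
      rw [hA]
      show x₀ + r • r⁻¹ • (z - x₀) = z
      rw [smul_smul, mul_inv_cancel₀ hr.ne', one_smul, add_sub_cancel]
    have hts : tsupport (fun z => θ (A z)) ⊆ (fun y : E n => x₀ + r • y) '' tsupport θ := by
      refine closure_minimal ?_ ?_
      · intro z hz
        exact ⟨A z, subset_tsupport _ hz, hAA' z⟩
      · exact (h2.isCompact.image hφ).isClosed
    have hcs : HasCompactSupport (fun z => θ (A z)) :=
      (h2.isCompact.image hφ).of_isClosed_subset (isClosed_tsupport _) hts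
    have hsub' : tsupport (fun z => θ (A z)) ⊆ Ω := by
      intro z hz
      obtain ⟨y, hy, rfl⟩ := hts hz
      exact h3 hy
    have hd : ∀ y, fderiv ℝ (fun z => θ (A z)) (x₀ + r • y) = r⁻¹ • fderiv ℝ θ y := by
      intro y
      have e1 : (fun z => θ (A z)) = fun z => (fun w => θ (r⁻¹ • w)) (-x₀ + z) := by
        funext z
        rw [hA]
        show θ (r⁻¹ • (z - x₀)) = θ (r⁻¹ • (-x₀ + z))
        rw [sub_eq_neg_add]
      have e2 := fderiv_comp_add_left (𝕜 := ℝ) (f := fun w : E n => θ (r⁻¹ • w))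
        (x := x₀ + r • y) (-x₀)
      have e3 := fderiv_comp_smul (𝕜 := ℝ) (f := θ) (x := -x₀ + (x₀ + r • y)) r⁻¹
      rw [e1]
      refine e2.trans (e3.trans ?_)
      rw [neg_add_cancel_left, smul_smul, inv_mul_cancel₀ hr.ne', one_smul]
    have key := hw (fun z => θ (A z)) (h1.comp hAc) hcs hsub'
    have h5 := scl_integral (fun z => ‖gradient u z‖ ^ (p - 2) *
      (fderiv ℝ (fun z => θ (A z)) z (gradient u z))) x₀ hr
    rw [key, mul_zero] at h5
    have h6 : ∀ y, ‖gradient (fun y => c * u (x₀ + r • y)) y‖ ^ (p - 2) *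
        (fderiv ℝ θ y (gradient (fun y => c * u (x₀ + r • y)) y)) =
        ((c * r) ^ (p - 2) * (c * r) * r) * (‖gradient u (x₀ + r • y)‖ ^ (p - 2) *
      (fderiv ℝ (fun z => θ (A z)) (x₀ + r • y) (gradient u (x₀ + r • y)))) := by
      intro y
      rw [scl_gradient, hd, norm_smul, Real.norm_of_nonneg (by positivity),
        Real.mul_rpow (by positivity) (norm_nonneg _), map_smul]
      simp only [FunLike.coe_smul, Pi.smul_apply, smul_eq_mul]
      field_simp
    simp_rw [h6]
    rw [integral_const_mul, h5, mul_zero]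

theorem p_SCL : T_SCL := by
  intro n p u x₀ r c hr hc
  exact ⟨fun R h => scl_pb p u x₀ hr hc R h, fun y => scl_gradient u x₀ r c y,
    fun y t => scl_energy p u x₀ hr hc y t, fun t a => scl_volume u x₀ hr hc t a⟩

end Pool.Agent.SCN
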