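import Pool.Agent.SCN.Targets
import Pool.Agent.SCP.IBP

/-! # Strong comparison for `p`-harmonic functions, `p` near 2: SMO -/

set_option autoImplicit false

open Set MeasureTheory Filter Topology Metric
open scoped RealInnerProductSpace Convolution

namespace Pool.Agent.SCN

open Pool.Agent.SCP (E PHarm V)

variable {n : ℕ}

/-- The averages of a continuous function are smooth. -/
theorem smo_smooth {φ Φ : E n → ℝ} (hK : Ker φ Φ) {h : E n → ℝ}
    (hc : ContinuousOn h (closedBall (0 : E n) (15 / 4)))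
    (hm : ∀ d : ℝ, 0 ≤ d → d ≤ 1 / 4 → ∀ x ∈ ball (0 : E n) (7 / 2), cv φ d h x = h x) :
    ContDiffOn ℝ (⊤ : ℕ∞) h (ball 0 (7 / 2)) := by
  set h₁ : E n → ℝ := (closedBall (0 : E n) (15 / 4)).indicator h with hh
  have hi : Integrable h₁ := by
    rw [hh, integrable_indicator_iff measurableSet_closedBall]
    exact hc.integrableOn_compact (isCompact_closedBall _ _)
  set g : E n → ℝ := fun w => φ (-(8 : ℝ) • w) with hg
  have hgs : ContDiff ℝ (⊤ : ℕ∞) g := hK.smooth.comp (contDiff_id.const_smul (-(8 : ℝ)))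
  have hgc : HasCompactSupport g := by
    refine HasCompactSupport.intro (isCompact_closedBall (0 : E n) 1) fun w hw => ?_
    rw [mem_closedBall_zero_iff, not_le] at hw
    refine hK.supp _ ?_
    rw [norm_smul]
    norm_num
    linarith
  have hKs : ContDiff ℝ (⊤ : ℕ∞) (h₁ ⋆[ContinuousLinearMap.lsmul ℝ ℝ, volume] g) :=
    hgc.contDiff_convolution_right _ hi.locallyIntegrable hgs
  have key : ∀ x ∈ ball (0 : E n) (7 / 2), h x =
      |((1 / 8 : ℝ) ^ Module.finrank ℝ (E n))⁻¹| *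
        (h₁ ⋆[ContinuousLinearMap.lsmul ℝ ℝ, volume] g) x := by
    intro x hx
    rw [mem_ball_zero_iff] at hx
    set F : E n → ℝ := fun t => φ ((8 : ℝ) • (t - x)) * h₁ t with hF
    have e1 : h x = ∫ y, F (x + (1 / 8 : ℝ) • y) := by
      rw [← hm (1 / 8) (by norm_num) (by norm_num) x (mem_ball_zero_iff.2 hx)]
      unfold cv
      congr 1
      funext y
      have e2 : (8 : ℝ) • (x + (1 / 8 : ℝ) • y - x) = y := by
        rw [add_sub_cancel_left, smul_smul]
        norm_num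
      simp only [hF]
      rw [e2]
      by_cases hy : 1 ≤ ‖y‖
      · rw [hK.supp y hy, zero_mul, zero_mul]
      · rw [not_le] at hy
        have e3 : x + (1 / 8 : ℝ) • y ∈ closedBall (0 : E n) (15 / 4) := by
          rw [mem_closedBall_zero_iff]
          calc ‖x + (1 / 8 : ℝ) • y‖ ≤ ‖x‖ + ‖(1 / 8 : ℝ) • y‖ := norm_add_le _ _
            _ = ‖x‖ + 1 / 8 * ‖y‖ := by rw [norm_smul]; norm_num
            _ ≤ 15 / 4 := by linarith
        rw [hh, indicator_of_mem e3]
    have e4 := Measure.integral_comp_smul (volume : Measure (E n)) (fun z => F (x + z)) (1 / 8 : ℝ)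
    rw [integral_add_left_eq_self F x] at e4
    rw [e1, e4, smul_eq_mul]
    congr 1
    unfold MeasureTheory.convolution
    congr 1
    funext t
    simp only [hF, hg, ContinuousLinearMap.lsmul_apply, smul_eq_mul]
    rw [mul_comm, neg_smul, ← smul_neg, neg_sub]
  refine (ContDiff.contDiffOn (hKs.const_smul
    |((1 / 8 : ℝ) ^ Module.finrank ℝ (E n))⁻¹|)).congr fun x hx => ?_
  rw [key x hx]
  rfl

/-- The derivative of the averages vanishes. -/
theorem smo_zero (hDCV : T_DCV) {φ Φ : E n → ℝ} (hK : Ker φ Φ) {h : E n → ℝ}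
    (hs : ContDiffOn ℝ 1 h (ball 0 (7 / 2)))
    (hm : ∀ d : ℝ, 0 ≤ d → d ≤ 1 / 4 → ∀ x ∈ ball (0 : E n) (7 / 2), cv φ d h x = h x)
    {x : E n} (hx : x ∈ ball (0 : E n) (13 / 4)) {ρ : ℝ} (h0 : 0 < ρ) (h1 : ρ < 1 / 4) :
    ∫ y, ⟪gradient h (x + ρ • y), gradient Φ y⟫ = 0 := by
  rw [mem_ball_zero_iff] at hx
  have hsub : closedBall x (1 / 4) ⊆ ball (0 : E n) (7 / 2) := by
    intro y hy
    rw [mem_closedBall, dist_eq_norm] at hy
    rw [mem_ball_zero_iff]
    calc ‖y‖ = ‖(y - x) + x‖ := by rw [sub_add_cancel]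
      _ ≤ ‖y - x‖ + ‖x‖ := norm_add_le _ _
      _ < 7 / 2 := by linarith
  obtain ⟨hcont, hint⟩ := hDCV n φ Φ hK (ball 0 (7 / 2)) h x (1 / 4) isOpen_ball hs hsub
  set ψ : ℝ → ℝ := fun ρ : ℝ => ∫ y, ⟪gradient h (x + ρ • y), gradient Φ y⟫ with hψ
  have hxb : x ∈ ball (0 : E n) (7 / 2) := by
    rw [mem_ball_zero_iff]
    linarith
  have hz : ∀ a : ℝ, 0 ≤ a → a ≤ 1 / 4 → ∫ t in a..(1 / 4), -ψ t = 0 := by
    intro a ha0 ha1
    rw [← hint a ha0 ha1, hm a ha0 ha1 x hxb, hm (1 / 4) (by norm_num) le_rfl x hxb, sub_self]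
  have hcn : ContinuousOn (fun t => -ψ t) (Icc 0 (1 / 4)) := hcont.neg
  have hd : HasDerivAt (fun a => ∫ t in a..(1 / 4), -ψ t) (-(-ψ ρ)) ρ := by
    refine intervalIntegral.integral_hasDerivAt_left ?_ ?_ ?_
    · refine ContinuousOn.intervalIntegrable (hcn.mono ?_)
      rw [uIcc_of_le h1.le]
      exact Icc_subset_Icc_left h0.le
    · exact (hcn.mono Ioo_subset_Icc_self).stronglyMeasurableAtFilter isOpen_Ioo ρ ⟨h0, h1⟩
    · exact hcn.continuousAt (Icc_mem_nhds h0 h1)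
  have hd0 : HasDerivAt (fun a => ∫ t in a..(1 / 4), -ψ t) 0 ρ := by
    refine (hasDerivAt_const ρ (0 : ℝ)).congr_of_eventuallyEq ?_
    filter_upwards [Ioo_mem_nhds h0 h1] with a ha
    exact hz a ha.1.le ha.2.le
  have h2 := hd.unique hd0
  rw [neg_neg] at h2
  exact h2

/-- The gradient of a `C²` function on an open set. -/
theorem smo_grad {Ω : Set (E n)} (hΩ : IsOpen Ω) {h : E n → ℝ} (hs : ContDiffOn ℝ 2 h Ω) :
    ContDiffOn ℝ 1 (gradient h) Ω := fun _ hx =>
  (SCP.contDiffAt_gradient (hs.contDiffAt (hΩ.mem_nhds hx))).contDiffWithinAt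

/-- The divergence of a `C¹` field is continuous. -/
theorem smo_dv {Ω : Set (E n)} (hΩ : IsOpen Ω) {W : E n → E n} (hW : ContDiffOn ℝ 1 W Ω) :
    ContinuousOn (SCP.dv W) Ω := by
  have h1 : ContinuousOn (fderiv ℝ W) Ω := hW.continuousOn_fderiv_of_isOpen hΩ le_rfl
  have h2 : SCP.dv W = fun x => ∑ i, ⟪EuclideanSpace.basisFun (Fin n) ℝ i,
      fderiv ℝ W x (EuclideanSpace.basisFun (Fin n) ℝ i)⟫ := by
    funext x
    unfold SCP.dv
    rw [SCP.tr_eq_sum _ (EuclideanSpace.basisFun (Fin n) ℝ)]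
  rw [h2]
  refine continuousOn_finsetSum _ fun i _ => ?_
  exact continuousOn_const.inner (h1.clm_apply continuousOn_const)

/-- The Laplace equation. -/
theorem smo_lap (hDCV : T_DCV) (hPSG : T_PSG) {φ Φ : E n → ℝ} (hK : Ker φ Φ) {h : E n → ℝ}
    (hs : ContDiffOn ℝ 2 h (ball 0 (7 / 2)))
    (hm : ∀ d : ℝ, 0 ≤ d → d ≤ 1 / 4 → ∀ x ∈ ball (0 : E n) (7 / 2), cv φ d h x = h x)
    {x : E n} (hx : x ∈ ball (0 : E n) (13 / 4)) : SCP.dv (gradient h) x = 0 := by
  have hW := smo_grad isOpen_ball hs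
  have hD := smo_dv isOpen_ball hW
  set D := SCP.dv (gradient h) with hDd
  obtain ⟨C, -, hP⟩ := hPSG n φ Φ hK
  by_contra hne
  have hx1 : ‖x‖ < 13 / 4 := mem_ball_zero_iff.1 hx
  have hxb : x ∈ ball (0 : E n) (7 / 2) := by
    rw [mem_ball_zero_iff]
    linarith
  have hcx : ContinuousAt (fun z => D x * D z) x :=
    continuousAt_const.mul (hD.continuousAt (isOpen_ball.mem_nhds hxb))
  have hpos : 0 < D x * D x := mul_self_pos.2 hne
  obtain ⟨δ, hδ, hball⟩ := Metric.eventually_nhds_iff_ball.1 (hcx.eventually (lt_mem_nhds hpos))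
  obtain ⟨ρ, h0, hρδ, h1⟩ : ∃ ρ : ℝ, 0 < ρ ∧ ρ ≤ δ ∧ ρ < 1 / 4 :=
    ⟨min δ (1 / 8), lt_min hδ (by norm_num), min_le_left _ _,
      lt_of_le_of_lt (min_le_right _ _) (by norm_num)⟩
  obtain ⟨q1, q2, q3, q4, -, -, q7⟩ := hP x ρ h0
  have hsub : closedBall x ρ ⊆ ball (0 : E n) (7 / 2) := by
    intro y hy
    rw [mem_closedBall, dist_eq_norm] at hy
    rw [mem_ball_zero_iff]
    calc ‖y‖ = ‖(y - x) + x‖ := by rw [sub_add_cancel]
      _ ≤ ‖y - x‖ + ‖x‖ := norm_add_le _ _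
      _ < 7 / 2 := by linarith
  have i1 : ∫ z, ⟪gradient h z, gradient (ps Φ x ρ) z⟫ = 0 := by
    have e := q7 (gradient h)
    rw [smo_zero hDCV hK (hs.of_le (by norm_num)) hm hx h0 h1, mul_zero] at e
    have e' : ρ * ∫ z, ⟪gradient h z, gradient (ps Φ x ρ) z⟫ = 0 := by linarith
    exact (mul_eq_zero.1 e').resolve_left h0.ne'
  have i2 := SCP.ibp n (ball 0 (7 / 2)) (gradient h) (ps Φ x ρ) isOpen_ball hW
    (q1.of_le (by exact_mod_cast le_top)) q2 (q3.trans hsub)
  have i3 : ∫ z, fderiv ℝ (ps Φ x ρ) z (gradient h z) = 0 := by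
    rw [← i1]
    congr 1
    funext z
    rw [real_inner_comm, inner_gradient_left]
  rw [i3] at i2
  have i4 : ∫ z, ps Φ x ρ z * (D x * D z) = 0 := by
    have e : (fun z => ps Φ x ρ z * (D x * D z)) = fun z => D x * (ps Φ x ρ z * D z) := by
      funext z
      ring
    have e2 : ∫ z, ps Φ x ρ z * D z = 0 := by linarith
    rw [e, integral_const_mul, e2, mul_zero]
  have hzero : ∀ z, z ∉ ball x ρ → ps Φ x ρ z = 0 := by
    intro z hz
    rw [mem_ball, not_lt, dist_eq_norm] at hz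
    unfold ps
    rw [hK.supp', neg_zero]
    rw [norm_smul, norm_inv, Real.norm_of_nonneg h0.le, ← div_eq_inv_mul, one_le_div h0]
    exact hz
  have hpps : ∀ z ∈ ball x ρ, 0 < ps Φ x ρ z := by
    intro z hz
    rw [mem_ball, dist_eq_norm] at hz
    unfold ps
    have := hK.neg (ρ⁻¹ • (z - x)) (by
      rw [norm_smul, norm_inv, Real.norm_of_nonneg h0.le, ← div_eq_inv_mul, div_lt_one h0]
      exact hz)
    linarith
  have hgpos : ∀ z ∈ ball x ρ, 0 < ps Φ x ρ z * (D x * D z) := fun z hz =>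
    mul_pos (hpps z hz) (hball z (ball_subset_ball hρδ hz))
  have hg0 : 0 ≤ fun z => ps Φ x ρ z * (D x * D z) := by
    intro z
    by_cases hz : z ∈ ball x ρ
    · exact (hgpos z hz).le
    · change 0 ≤ ps Φ x ρ z * (D x * D z)
      rw [hzero z hz, zero_mul]
  have hsup : Function.support (fun z => ps Φ x ρ z * (D x * D z)) ⊆ closedBall x ρ := by
    intro z hz
    by_contra hzz
    refine hz ?_
    change ps Φ x ρ z * (D x * D z) = 0
    rw [hzero z fun hb => hzz (ball_subset_closedBall hb), zero_mul]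
  have hint : Integrable fun z => ps Φ x ρ z * (D x * D z) := by
    rw [← integrableOn_iff_integrable_of_support_subset hsup]
    refine ContinuousOn.integrableOn_compact (isCompact_closedBall _ _) ?_
    exact q1.continuous.continuousOn.mul (continuousOn_const.mul (hD.mono hsub))
  have h2 := (integral_pos_iff_support_of_nonneg hg0 hint).2
    (lt_of_lt_of_le (measure_ball_pos volume x h0)
      (measure_mono fun z hz => (hgpos z hz).ne'))
  rw [i4] at h2
  exact lt_irrefl _ h2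

theorem p_SMO (hDCV : T_DCV) (hPSG : T_PSG) : T_SMO := by
  intro n φ Φ hK h hc hm
  have hs := smo_smooth hK hc hm
  have hs2 : ContDiffOn ℝ 2 h (ball 0 (7 / 2)) := contDiffOn_infty.1 hs 2
  have hsub : ball (0 : E n) (13 / 4) ⊆ ball (0 : E n) (7 / 2) :=
    ball_subset_ball (by norm_num)
  refine ⟨hs.mono hsub, (hs2.mono hsub).of_le (by norm_num), ?_⟩
  intro θ hθ hθc hθs
  have e1 := SCP.ibp n (ball 0 (7 / 2)) (gradient h) θ isOpen_ball
    (smo_grad isOpen_ball hs2) (hθ.of_le (by exact_mod_cast le_top)) hθc (hθs.trans hsub)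
  have e2 : ∀ x, θ x * SCP.dv (gradient h) x = 0 := by
    intro x
    by_cases hx : x ∈ tsupport θ
    · rw [smo_lap hDCV hPSG hK hs2 hm (hθs hx), mul_zero]
    · rw [image_eq_zero_of_notMem_tsupport hx, zero_mul]
  simp only [e2, integral_zero, neg_zero] at e1
  rw [← e1]
  congr 1
  funext x
  rw [sub_self, Real.rpow_zero, one_mul]

end Pool.Agent.SCN
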