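import Pool.Agent.SCN.Targets2

/-! # Target SPR: spreading of the energy -/

set_option autoImplicit false

open Set MeasureTheory Filter Topology Metric
open scoped RealInnerProductSpace

namespace Pool.Agent.SCN

open Pool.Agent.SCP (E PHarm V)

theorem spr_en_nonneg {n : ℕ} (p : ℝ) (u : E n → ℝ) (x : E n) (r : ℝ) : 0 ≤ en p u x r :=
  integral_nonneg fun _ => Real.rpow_nonneg (norm_nonneg _) _

/-- Rescaling to the ball of radius four with energy one. -/
theorem spr_scale (hS : T_SCL) {n : ℕ} {p : ℝ} (hp : 0 < p) (u : E n → ℝ) (x : E n)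
    {r δ θ κ : ℝ} (hr : 0 < r) (h4 : PB p x (4 * r) u) (hκ : 0 < κ)
    (hδ : δ * en p u x (4 * r) ≤ en p u x r) {y : E n} (hy : y ∈ closedBall x r)
    (he : en p u y (θ * r) < κ * en p u x (4 * r)) :
    ∃ (U : E n → ℝ) (z : E n), z ∈ closedBall (0 : E n) 1 ∧ PB p 0 4 U ∧ en p U 0 4 ≤ 1 ∧
      δ ≤ en p U 0 1 ∧ en p U z θ ≤ κ := by
  have e4 : 0 < en p u x (4 * r) := by
    by_contra hc
    push Not at hc
    have h1 : κ * en p u x (4 * r) ≤ 0 := mul_nonpos_of_nonneg_of_nonpos hκ.le hc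
    have h2 := spr_en_nonneg p u y (θ * r)
    linarith
  set t : ℝ := r ^ n / en p u x (4 * r) with ht
  have ht0 : 0 < t := by positivity
  have htp : 0 < t ^ (1 / p) := Real.rpow_pos_of_pos ht0 _
  set c : ℝ := t ^ (1 / p) / r with hc
  have hc0 : 0 < c := div_pos htp hr
  have hcr : (c * r) ^ p = t := by
    rw [hc, div_mul_cancel₀ _ hr.ne', ← Real.rpow_mul ht0.le, one_div, inv_mul_cancel₀ hp.ne',
      Real.rpow_one]
  obtain ⟨s1, _, s3, _⟩ := hS n p u x r c hr hc0
  have hrn : (r ^ n : ℝ) ≠ 0 := by positivity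
  have hen : ∀ (w : E n) (ρ : ℝ), en p (fun y => c * u (x + r • y)) w ρ =
      (en p u x (4 * r))⁻¹ * en p u (x + r • w) (r * ρ) := by
    intro w ρ
    rw [s3 w ρ, hcr, ht]
    field_simp
  have hf : 0 < (en p u x (4 * r))⁻¹ := by positivity
  refine ⟨fun y => c * u (x + r • y), r⁻¹ • (y - x), ?_, s1 4 (by rw [mul_comm]; exact h4),
    ?_, ?_, ?_⟩
  · rw [mem_closedBall_zero_iff, norm_smul, norm_inv, Real.norm_of_nonneg hr.le]
    rw [mem_closedBall, dist_eq_norm] at hy
    calc r⁻¹ * ‖y - x‖ ≤ r⁻¹ * r := mul_le_mul_of_nonneg_left hy (by positivity)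
      _ = 1 := inv_mul_cancel₀ hr.ne'
  · rw [hen 0 4, smul_zero, add_zero, mul_comm r 4, inv_mul_cancel₀ e4.ne']
  · rw [hen 0 1, smul_zero, add_zero, mul_one]
    calc δ = (en p u x (4 * r))⁻¹ * (δ * en p u x (4 * r)) := by field_simp
      _ ≤ (en p u x (4 * r))⁻¹ * en p u x r := mul_le_mul_of_nonneg_left hδ hf.le
  · rw [hen _ θ, smul_smul, mul_inv_cancel₀ hr.ne', one_smul, add_sub_cancel, mul_comm r θ]
    calc (en p u x (4 * r))⁻¹ * en p u y (θ * r)
        ≤ (en p u x (4 * r))⁻¹ * (κ * en p u x (4 * r)) := mul_le_mul_of_nonneg_left he.le hf.le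
      _ = κ := by field_simp

theorem spr_pow {A B q : ℝ} (hA : 0 ≤ A) (hB : 0 ≤ B) (hq : 0 ≤ q) :
    (A + B) ^ q ≤ 2 ^ q * (A ^ q + B ^ q) := by
  have hA' := Real.rpow_nonneg hA q
  have hB' := Real.rpow_nonneg hB q
  have h2 : (0 : ℝ) ≤ 2 ^ q := Real.rpow_nonneg (by norm_num) q
  rcases le_total A B with h | h
  · calc (A + B) ^ q ≤ (2 * B) ^ q := Real.rpow_le_rpow (by linarith) (by linarith) hq
      _ = 2 ^ q * B ^ q := Real.mul_rpow (by norm_num) hB
      _ ≤ 2 ^ q * (A ^ q + B ^ q) := mul_le_mul_of_nonneg_left (by linarith) h2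
  · calc (A + B) ^ q ≤ (2 * A) ^ q := Real.rpow_le_rpow (by linarith) (by linarith) hq
      _ = 2 ^ q * A ^ q := Real.mul_rpow (by norm_num) hA
      _ ≤ 2 ^ q * (A ^ q + B ^ q) := mul_le_mul_of_nonneg_left (by linarith) h2

/-- The limit function is constant where the energies tend to zero. -/
theorem spr_zero {n : ℕ} {θ : ℝ} (hθ : 0 < θ) (hθ1 : θ ≤ 1) {q : ℕ → ℝ} {W : ℕ → E n → ℝ}
    {ζ : ℕ → E n} {z : E n} {h : E n → ℝ} (hq : Tendsto q atTop (𝓝 2))
    (hPB : ∀ j, PB (q j) 0 4 (W j)) (hh : Hrm (ball 0 (13 / 4)) h)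
    (hζ1 : ∀ j, ζ j ∈ closedBall (0 : E n) 1) (hz1 : z ∈ closedBall (0 : E n) 1)
    (hζ : Tendsto ζ atTop (𝓝 z)) (hen : Tendsto (fun j => en (q j) (W j) (ζ j) θ) atTop (𝓝 0))
    (hG : Tendsto (fun j => ∫ x in ball (0 : E n) (5 / 2),
      ‖gradient (W j) x - gradient h x‖ ^ q j) atTop (𝓝 0)) :
    ∀ w ∈ ball z (θ / 2), gradient h w = 0 := by
  intro w hw
  by_contra hne
  have hz2 : ‖z‖ ≤ 1 := mem_closedBall_zero_iff.1 hz1
  have hsub : ball z (θ / 2) ⊆ ball (0 : E n) (5 / 2) := by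
    intro y hy
    rw [mem_ball, dist_eq_norm] at hy
    rw [mem_ball_zero_iff]
    calc ‖y‖ = ‖(y - z) + z‖ := by rw [sub_add_cancel]
      _ ≤ ‖y - z‖ + ‖z‖ := norm_add_le _ _
      _ < 5 / 2 := by linarith
  have hgh : ContinuousOn (gradient h) (ball (0 : E n) (13 / 4)) :=
    SCP.TEST_.continuousOn_gradient isOpen_ball (hh.1.of_le (by exact_mod_cast le_top))
  have hgu : ∀ j, ContinuousOn (gradient (W j)) (closedBall (0 : E n) 4) := by
    intro j
    obtain ⟨Ω, hΩ, hs, hu⟩ := hPB j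
    exact (SCP.TEST_.continuousOn_gradient hΩ hu.1).mono hs
  have hwb : w ∈ ball (0 : E n) (13 / 4) := ball_subset_ball (by norm_num) (hsub hw)
  have hcw : ContinuousAt (fun y => ‖gradient h y‖) w :=
    (hgh.continuousAt (isOpen_ball.mem_nhds hwb)).norm
  set a : ℝ := ‖gradient h w‖ / 2 with ha
  have hpos : 0 < ‖gradient h w‖ := norm_pos_iff.2 hne
  have ha0 : 0 < a := by positivity
  have hev : ∀ᶠ y in 𝓝 w, a < ‖gradient h y‖ :=
    hcw.eventually (lt_mem_nhds (by rw [ha]; linarith))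
  obtain ⟨ρ, hρ, hρs⟩ := Metric.mem_nhds_iff.1
    (Filter.inter_mem hev (isOpen_ball.mem_nhds hw))
  have hρa : ∀ y ∈ ball w ρ, a ≤ ‖gradient h y‖ := fun y hy => (hρs hy).1.le
  have hρz : ball w ρ ⊆ ball z (θ / 2) := fun y hy => (hρs hy).2
  have hvol : 0 < (volume (ball w ρ)).toReal :=
    ENNReal.toReal_pos (measure_ball_pos volume w hρ).ne' measure_ball_lt_top.ne
  have hq0 : ∀ᶠ j in atTop, 0 < q j := hq.eventually (lt_mem_nhds (by norm_num))
  have hζe : ∀ᶠ j in atTop, dist (ζ j) z < θ / 2 := by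
    have := (tendsto_iff_dist_tendsto_zero.1 hζ).eventually
      (gt_mem_nhds (show (0 : ℝ) < θ / 2 by linarith))
    exact this
  have main : ∀ᶠ j in atTop, (volume (ball w ρ)).toReal * a ^ q j ≤
      2 ^ q j * (en (q j) (W j) (ζ j) θ + ∫ x in ball (0 : E n) (5 / 2),
        ‖gradient (W j) x - gradient h x‖ ^ q j) := by
    filter_upwards [hq0, hζe] with j hj hζj
    have hball : ball w ρ ⊆ ball (ζ j) θ := by
      intro y hy
      have h1 := mem_ball.1 (hρz hy)
      rw [mem_ball]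
      calc dist y (ζ j) ≤ dist y z + dist z (ζ j) := dist_triangle _ _ _
        _ < θ := by rw [dist_comm z]; linarith
    have hb4 : closedBall (ζ j) θ ⊆ closedBall (0 : E n) 4 := by
      have := mem_closedBall_zero_iff.1 (hζ1 j)
      refine closedBall_subset_closedBall' ?_
      rw [dist_zero_right]
      linarith
    have i1 : IntegrableOn (fun x => ‖gradient (W j) x‖ ^ q j) (ball (ζ j) θ) :=
      ((((hgu j).mono hb4).norm.rpow_const fun x _ => Or.inr hj.le).integrableOn_compact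
        (isCompact_closedBall _ _)).mono_set ball_subset_closedBall
    have i4 : IntegrableOn (fun x => ‖gradient (W j) x - gradient h x‖ ^ q j)
        (ball (0 : E n) (5 / 2)) := by
      have hc1 : closedBall (0 : E n) (5 / 2) ⊆ ball 0 (13 / 4) :=
        closedBall_subset_ball (by norm_num)
      have hc2 : closedBall (0 : E n) (5 / 2) ⊆ closedBall 0 4 :=
        closedBall_subset_closedBall (by norm_num)
      have hcc : ContinuousOn (fun x => ‖gradient (W j) x - gradient h x‖)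
          (closedBall (0 : E n) (5 / 2)) := (((hgu j).mono hc2).sub (hgh.mono hc1)).norm
      exact ((hcc.rpow_const fun x _ => Or.inr hj.le).integrableOn_compact
        (isCompact_closedBall _ _)).mono_set ball_subset_closedBall
    have j1 := i1.mono_set hball
    have j4 := i4.mono_set (hρz.trans hsub)
    have e1 : (volume (ball w ρ)).toReal * a ^ q j = ∫ x in ball w ρ, a ^ q j := by
      rw [setIntegral_const]
      rfl
    have e2 : ∫ x in ball w ρ, a ^ q j ≤ ∫ x in ball w ρ, 2 ^ q j *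
        (‖gradient (W j) x‖ ^ q j + ‖gradient (W j) x - gradient h x‖ ^ q j) := by
      refine setIntegral_mono_on (integrableOn_const measure_ball_lt_top.ne)
        ((j1.add j4).const_mul _) measurableSet_ball ?_
      intro x hx
      have h1 : a ≤ ‖gradient (W j) x‖ + ‖gradient (W j) x - gradient h x‖ := by
        refine (hρa x hx).trans ?_
        calc ‖gradient h x‖ = ‖gradient (W j) x - (gradient (W j) x - gradient h x)‖ := by
              rw [sub_sub_cancel]
          _ ≤ _ := norm_sub_le _ _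
      exact (Real.rpow_le_rpow ha0.le h1 hj.le).trans
        (spr_pow (norm_nonneg _) (norm_nonneg _) hj.le)
    have e3 : ∫ x in ball w ρ, 2 ^ q j *
        (‖gradient (W j) x‖ ^ q j + ‖gradient (W j) x - gradient h x‖ ^ q j) =
        2 ^ q j * ((∫ x in ball w ρ, ‖gradient (W j) x‖ ^ q j) +
          ∫ x in ball w ρ, ‖gradient (W j) x - gradient h x‖ ^ q j) := by
      rw [integral_const_mul, integral_add j1 j4]
    have e4 : ∫ x in ball w ρ, ‖gradient (W j) x‖ ^ q j ≤ en (q j) (W j) (ζ j) θ :=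
      setIntegral_mono_set i1
        (Eventually.of_forall fun x => Real.rpow_nonneg (norm_nonneg _) _) hball.eventuallyLE
    have e5 : ∫ x in ball w ρ, ‖gradient (W j) x - gradient h x‖ ^ q j ≤
        ∫ x in ball (0 : E n) (5 / 2), ‖gradient (W j) x - gradient h x‖ ^ q j :=
      setIntegral_mono_set i4
        (Eventually.of_forall fun x => Real.rpow_nonneg (norm_nonneg _) _)
        (hρz.trans hsub).eventuallyLE
    rw [e1]
    refine e2.trans (e3.le.trans ?_)
    exact mul_le_mul_of_nonneg_left (add_le_add e4 e5) (Real.rpow_nonneg (by norm_num) _)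
  have lim1 : Tendsto (fun j => (volume (ball w ρ)).toReal * a ^ q j) atTop
      (𝓝 ((volume (ball w ρ)).toReal * a ^ (2 : ℝ))) := by
    have hc : ContinuousAt (fun y : ℝ => a ^ y) 2 := Real.continuousAt_const_rpow ha0.ne'
    exact (hc.tendsto.comp hq).const_mul _
  have lim2 : Tendsto (fun j => (2 : ℝ) ^ q j * (en (q j) (W j) (ζ j) θ +
      ∫ x in ball (0 : E n) (5 / 2), ‖gradient (W j) x - gradient h x‖ ^ q j)) atTop
      (𝓝 ((2 : ℝ) ^ (2 : ℝ) * (0 + 0))) := by
    have hc : ContinuousAt (fun y : ℝ => (2 : ℝ) ^ y) 2 :=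
      Real.continuousAt_const_rpow two_ne_zero
    exact (hc.tendsto.comp hq).mul (hen.add hG)
  have hfin := le_of_tendsto_of_tendsto lim1 lim2 main
  have hap : 0 < a ^ (2 : ℝ) := Real.rpow_pos_of_pos ha0 _
  have := mul_pos hvol hap
  rw [add_zero, mul_zero] at hfin
  linarith

theorem p_SPR (hS : T_SCL) (hC : T_CL) (hN : T_NUL) : T_SPR := by
  intro n δ θ hn hδ hθ hθ1
  by_contra hcon
  push Not at hcon
  have key : ∀ j : ℕ, ∃ (p : ℝ) (U : E n → ℝ) (z : E n), |p - 2| < 1 / ((j : ℝ) + 1) ∧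
      z ∈ closedBall (0 : E n) 1 ∧ PB p 0 4 U ∧ en p U 0 4 ≤ 1 ∧ δ ≤ en p U 0 1 ∧
      en p U z θ ≤ 1 / ((j : ℝ) + 1) := by
    intro j
    have hj : (0 : ℝ) < 1 / ((j : ℝ) + 1) := by positivity
    obtain ⟨p, hp, u, x, r, hr, h4, e1, y, hy, e2⟩ := hcon _ _ hj hj
    have hj1 : 1 / ((j : ℝ) + 1) ≤ 1 := by
      rw [div_le_one (by positivity)]
      have : (0 : ℝ) ≤ (j : ℝ) := Nat.cast_nonneg j
      linarith
    have hp0 : 0 < p := by
      have := (abs_lt.1 hp).1
      linarith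
    obtain ⟨U, z, hU⟩ := spr_scale hS hp0 u x hr h4 hj e1 hy e2
    exact ⟨p, U, z, hp, hU⟩
  choose p U z hp hz hPB h4 h1 hs using key
  have hlim : Tendsto p atTop (𝓝 2) := by
    rw [tendsto_iff_norm_sub_tendsto_zero]
    refine squeeze_zero (fun _ => norm_nonneg _) (fun j => ?_)
      tendsto_one_div_add_atTop_nhds_zero_nat
    rw [Real.norm_eq_abs]
    exact (hp j).le
  have hsl : Tendsto (fun j => en (p j) (U j) (z j) θ) atTop (𝓝 0) :=
    squeeze_zero (fun j => spr_en_nonneg _ _ _ _) hs tendsto_one_div_add_atTop_nhds_zero_nat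
  obtain ⟨z0, hz0, k, hk, hzk⟩ := (isCompact_closedBall (0 : E n) 1).tendsto_subseq hz
  obtain ⟨K, c, h, hK, hH, -, hG, hE⟩ := hC n hn (p ∘ k) (U ∘ k)
    (hlim.comp hk.tendsto_atTop) (fun j => hPB _) (fun j => h4 _)
  have hzero := spr_zero (q := fun j => p (k (K j))) (W := fun j => U (k (K j)))
    (ζ := fun j => z (k (K j))) hθ hθ1
    ((hlim.comp hk.tendsto_atTop).comp hK.tendsto_atTop) (fun j => hPB _) hH (fun j => hz _) hz0
    (hzk.comp hK.tendsto_atTop) ((hsl.comp hk.tendsto_atTop).comp hK.tendsto_atTop) hG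
  have v1 : δ ≤ ∫ x in ball (0 : E n) 1, ‖gradient h x‖ ^ 2 :=
    ge_of_tendsto (hE 1 (by norm_num) (by norm_num)) (Eventually.of_forall fun j => h1 _)
  have hs3 : ball (0 : E n) 3 ⊆ ball 0 (13 / 4) := ball_subset_ball (by norm_num)
  have hnul := hN n h hn ⟨hH.1.mono hs3, SCP.PHarm.mono hH.2 hs3⟩ (by linarith)
  have hz0' : z0 ∈ closure (ball (0 : E n) 1) := by
    rw [closure_ball _ one_ne_zero]
    exact hz0
  obtain ⟨w, hw1, hw2⟩ := mem_closure_iff.1 hz0' (ball z0 (θ / 2)) isOpen_ball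
    (mem_ball_self (by linarith))
  have hopen : IsOpen (ball z0 (θ / 2) ∩ ball (0 : E n) 1) := isOpen_ball.inter isOpen_ball
  have hpos : 0 < volume (ball z0 (θ / 2) ∩ ball (0 : E n) 1) :=
    hopen.measure_pos volume ⟨w, hw1, hw2⟩
  have hle : volume (ball z0 (θ / 2) ∩ ball (0 : E n) 1) ≤
      volume (ball (0 : E n) 1 ∩ {x | gradient h x = 0}) :=
    measure_mono fun y hy => ⟨hy.2, hzero y hy.1⟩
  rw [hnul] at hle
  exact absurd hpos (not_lt.2 hle)

end Pool.Agent.SCN
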