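import Pool.Agent.SCN.Targets

/-! # The supremum of a harmonic function -/

set_option autoImplicit false

open Set MeasureTheory Filter Topology Metric
open scoped RealInnerProductSpace

namespace Pool.Agent.SCN

open Pool.Agent.SCP (E PHarm V)

namespace SUP_

variable {n : ℕ}

theorem ker_nonneg {φ Φ : E n → ℝ} (h : Ker φ Φ) (z : E n) : 0 ≤ φ z := by
  by_cases hz : ‖z‖ < 1
  · exact (h.pos z hz).le
  · rw [h.supp z (not_lt.mp hz)]

theorem ker_bound {φ Φ : E n → ℝ} (h : Ker φ Φ) : ∃ S : ℝ, 0 < S ∧ ∀ z, φ z ≤ S := by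
  obtain ⟨C, hC⟩ := (isCompact_closedBall (0 : E n) 1).exists_bound_of_continuousOn
    h.smooth.continuous.continuousOn
  refine ⟨|C| + 1, by positivity, fun z => ?_⟩
  by_cases hz : ‖z‖ < 1
  · have h1 := hC z (by rw [mem_closedBall_zero_iff]; exact hz.le)
    have h2 := le_abs_self (φ z)
    have h3 := le_abs_self C
    rw [Real.norm_eq_abs] at h1
    linarith
  · rw [h.supp z (not_lt.mp hz)]
    positivity

/-- Integrability of the products with the kernel. -/
theorem integ {φ Φ : E n → ℝ} (h : Ker φ Φ) {F : E n → ℝ}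
    (hF : ContinuousOn F (closedBall 0 1)) : Integrable (fun z => φ z * F z) := by
  have h1 : IntegrableOn (fun z => φ z * F z) (closedBall 0 1) :=
    (h.smooth.continuous.continuousOn.mul hF).integrableOn_compact (isCompact_closedBall 0 1)
  refine (integrableOn_iff_integrable_of_support_subset ?_).mp h1
  intro z hz
  by_contra hcon
  rw [mem_closedBall_zero_iff, not_le] at hcon
  exact hz (by simp [h.supp z hcon.le])

/-- Jensen's inequality for the kernel. -/
theorem jensen {φ Φ : E n → ℝ} (h : Ker φ Φ) {F : E n → ℝ}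
    (hF : ContinuousOn F (closedBall 0 1)) :
    (∫ z, φ z * F z) ^ 2 ≤ ∫ z, φ z * F z ^ 2 := by
  set m := ∫ z, φ z * F z with hm
  have i1 : Integrable (fun z => φ z * F z ^ 2) := integ h (hF.pow 2)
  have i2 : Integrable (fun z => φ z * F z) := integ h hF
  have i3 : Integrable φ := by
    have := integ h (F := fun _ => 1) continuousOn_const
    simpa using this
  have h0 : 0 ≤ ∫ z, φ z * (F z - m) ^ 2 :=
    integral_nonneg (fun z => mul_nonneg (ker_nonneg h z) (sq_nonneg _))
  have h1 : ∫ z, φ z * (F z - m) ^ 2 = (∫ z, φ z * F z ^ 2) - m ^ 2 := by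
    have e1 : ∀ z, φ z * (F z - m) ^ 2 = φ z * F z ^ 2 - (2 * m) * (φ z * F z) + m ^ 2 * φ z := by
      intro z
      ring
    have i4 : Integrable (fun z => φ z * F z ^ 2 - (2 * m) * (φ z * F z)) :=
      i1.sub (i2.const_mul _)
    simp only [e1]
    rw [integral_add i4 (i3.const_mul _), integral_sub i1 (i2.const_mul _),
      integral_const_mul, integral_const_mul, h.one, ← hm]
    ring
  linarith

end SUP_

theorem p_SUP (h_KER : T_KER) (h_MVP : T_MVP) : T_SUP := by
  intro n hn
  obtain ⟨φ, Φ, hk⟩ := h_KER n hn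
  obtain ⟨S, hS0, hS⟩ := SUP_.ker_bound hk
  refine ⟨S * 2 ^ n, by positivity, ?_⟩
  intro Ω g x r hΩ hg hr hsub y hy
  set d : ℝ := r / 2 with hd
  have hd0 : 0 < d := by positivity
  have hbb : closedBall y d ⊆ closedBall x r := by
    refine closedBall_subset_closedBall' ?_
    rw [mem_ball] at hy
    linarith
  have hsub' : closedBall y d ⊆ Ω := hbb.trans hsub
  have hmv := h_MVP n φ Φ hk Ω g y d hΩ hg hd0.le hsub'
  have hgc : ContinuousOn g (closedBall x r) := hg.1.continuousOn.mono hsub
  have hmaps : MapsTo (fun z : E n => y + d • z) (closedBall 0 1) (closedBall y d) := by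
    intro z hz
    rw [mem_closedBall_zero_iff] at hz
    rw [mem_closedBall, dist_eq_norm, add_sub_cancel_left, norm_smul, Real.norm_of_nonneg hd0.le]
    nlinarith
  have hF : ContinuousOn (fun z : E n => g (y + d • z)) (closedBall 0 1) :=
    (hgc.mono hbb).comp (by fun_prop) hmaps
  have h1 : g y ^ 2 ≤ ∫ z, φ z * g (y + d • z) ^ 2 := by
    rw [← hmv]
    exact SUP_.jensen hk hF
  set G : E n → ℝ := (ball y d).indicator (fun w => g w ^ 2) with hG
  have hGi : Integrable G := by
    rw [hG, integrable_indicator_iff measurableSet_ball]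
    exact (((hgc.mono hbb).pow 2).integrableOn_compact (isCompact_closedBall y d)).mono_set
      ball_subset_closedBall
  have hGi2 : Integrable (fun z : E n => G (y + d • z)) := by
    have h3 : Integrable (fun w : E n => G (y + w)) := hGi.comp_add_left y
    exact h3.comp_smul hd0.ne'
  have h2 : ∫ z, φ z * g (y + d • z) ^ 2 ≤ ∫ z, S * G (y + d • z) := by
    refine integral_mono (SUP_.integ hk (hF.pow 2)) (hGi2.const_mul S) ?_
    intro z
    change φ z * g (y + d • z) ^ 2 ≤ S * G (y + d • z)
    by_cases hz : ‖z‖ < 1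
    · have hmem : y + d • z ∈ ball y d := by
        rw [mem_ball, dist_eq_norm, add_sub_cancel_left, norm_smul,
          Real.norm_of_nonneg hd0.le]
        nlinarith
      rw [hG, indicator_of_mem hmem]
      exact mul_le_mul_of_nonneg_right (hS z) (sq_nonneg _)
    · rw [hk.supp z (not_lt.mp hz), zero_mul]
      refine mul_nonneg hS0.le ?_
      rw [hG]
      exact indicator_nonneg (fun w _ => sq_nonneg (g w)) _
  have h3 : ∫ z, S * G (y + d • z) = S * ((d ^ n)⁻¹ * ∫ w in ball y d, g w ^ 2) := by
    rw [integral_const_mul]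
    congr 1
    have e1 : ∫ z : E n, G (y + d • z) = |(d ^ Module.finrank ℝ (E n))⁻¹| • ∫ w, G (y + w) :=
      Measure.integral_comp_smul volume (fun w : E n => G (y + w)) d
    rw [e1, integral_add_left_eq_self G y, smul_eq_mul, hG, integral_indicator measurableSet_ball,
      finrank_euclideanSpace_fin, abs_of_nonneg (by positivity)]
  have h4 : ∫ w in ball y d, g w ^ 2 ≤ ∫ w in ball x r, g w ^ 2 := by
    refine setIntegral_mono_set ?_ (Eventually.of_forall fun w => sq_nonneg _) ?_
    · exact ((hgc.pow 2).integrableOn_compact (isCompact_closedBall x r)).mono_set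
        ball_subset_closedBall
    · refine Eventually.of_forall ?_
      refine ball_subset_ball' ?_
      rw [mem_ball] at hy
      linarith
  calc g y ^ 2 ≤ S * ((d ^ n)⁻¹ * ∫ w in ball y d, g w ^ 2) := (h1.trans h2).trans h3.le
    _ ≤ S * ((d ^ n)⁻¹ * ∫ w in ball x r, g w ^ 2) := by gcongr
    _ = S * 2 ^ n * (r ^ n)⁻¹ * ∫ w in ball x r, g w ^ 2 := by
      rw [hd, div_pow, inv_div]
      ring

end Pool.Agent.SCN
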