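import Pool.Agent.SCN.Targets

/-! # VEC: the elementary vector inequality with constant `10`, `e = 1/4` -/

set_option autoImplicit false

namespace Pool.Agent.SCN

open Pool.Agent.SCP (E PHarm V)

theorem vec_e (x y M : ℝ) (hx : x ≤ M) (hy : y ≤ M) :
    |Real.exp x - Real.exp y| ≤ |x - y| * Real.exp M := by
  have key : ∀ u v : ℝ, v ≤ u → u ≤ M → |Real.exp u - Real.exp v| ≤ |u - v| * Real.exp M := by
    intro u v huv hu
    have h1 : 0 ≤ Real.exp u - Real.exp v := sub_nonneg.2 (Real.exp_le_exp.2 huv)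
    rw [abs_of_nonneg h1, abs_of_nonneg (sub_nonneg.2 huv)]
    have h2 := Real.add_one_le_exp (v - u)
    have h3 : Real.exp v = Real.exp u * Real.exp (v - u) := by
      rw [← Real.exp_add]; congr 1; ring
    have h4 : Real.exp u ≤ Real.exp M := Real.exp_le_exp.2 hu
    have h5 := Real.exp_pos u
    rw [h3]
    nlinarith [mul_le_mul_of_nonneg_left h2 h5.le,
      mul_le_mul_of_nonneg_left h4 (sub_nonneg.2 huv)]
  rcases le_total y x with h | h
  · exact key x y h hx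
  · rw [abs_sub_comm, abs_sub_comm x y]
    exact key y x h hy

theorem vec_first (ε a s : ℝ) (hε : |ε| ≤ 1 / 4) (ha : 0 < a) (has : a ≤ s) (hs : s ≤ 2 * a) :
    |a ^ ε - s ^ ε| ≤ 2 * |ε| * s ^ ε := by
  have hs0 : 0 < s := lt_of_lt_of_le ha has
  rw [Real.rpow_def_of_pos ha, Real.rpow_def_of_pos hs0]
  have hl0 : 0 ≤ Real.log s - Real.log a := sub_nonneg.2 (Real.log_le_log ha has)
  have hl1 : Real.log s - Real.log a ≤ 1 := by
    rw [← Real.log_div hs0.ne' ha.ne']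
    have h1 := Real.log_le_sub_one_of_pos (div_pos hs0 ha)
    have h2 : s / a ≤ 2 := by rw [div_le_iff₀ ha]; exact hs
    linarith
  obtain ⟨he1, he2⟩ := abs_le.1 (le_refl |ε|)
  have hM1 : Real.log a * ε ≤ Real.log s * ε + 1 / 4 := by
    have : (Real.log a - Real.log s) * ε ≤ 1 / 4 := by
      nlinarith [abs_nonneg ε]
    linarith
  have hM2 : Real.log s * ε ≤ Real.log s * ε + 1 / 4 := by linarith
  have h := vec_e _ _ _ hM1 hM2
  have h3 : Real.exp (1 / 4 : ℝ) ≤ 2 := by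
    have h4 := Real.add_one_le_exp (-(1 / 4 : ℝ))
    have h5 : Real.exp (1 / 4 : ℝ) * Real.exp (-(1 / 4 : ℝ)) = 1 := by
      rw [← Real.exp_add]; norm_num
    have h6 := Real.exp_pos (1 / 4 : ℝ)
    nlinarith
  have h7 : |Real.log a * ε - Real.log s * ε| ≤ |ε| := by
    rw [← sub_mul, abs_mul]
    have : |Real.log a - Real.log s| ≤ 1 := by
      rw [abs_sub_comm, abs_of_nonneg hl0]; exact hl1
    nlinarith [abs_nonneg ε]
  rw [Real.exp_add] at h
  have h8 := Real.exp_pos (Real.log s * ε)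
  calc |Real.exp (Real.log a * ε) - Real.exp (Real.log s * ε)|
      ≤ |Real.log a * ε - Real.log s * ε| *
        (Real.exp (Real.log s * ε) * Real.exp (1 / 4 : ℝ)) := h
    _ ≤ |ε| * (Real.exp (Real.log s * ε) * 2) :=
        mul_le_mul h7 (mul_le_mul_of_nonneg_left h3 h8.le)
          (mul_nonneg h8.le (Real.exp_pos _).le) (abs_nonneg ε)
    _ = 2 * |ε| * Real.exp (Real.log s * ε) := by ring

theorem vec_second (ε a b s : ℝ) (hε : |ε| ≤ 1 / 4) (hb : 0 < b) (hba : b ≤ a) (has : a ≤ s)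
    (hs : s ≤ 2 * a) : |a ^ ε - b ^ ε| * b ≤ 8 * |ε| * s ^ ε * (a - b) := by
  have ha : 0 < a := lt_of_lt_of_le hb hba
  have hs0 : 0 < s := lt_of_lt_of_le ha has
  rw [Real.rpow_def_of_pos ha, Real.rpow_def_of_pos hs0, Real.rpow_def_of_pos hb]
  have hl0 : 0 ≤ Real.log s - Real.log a := sub_nonneg.2 (Real.log_le_log ha has)
  have hl1 : Real.log s - Real.log a ≤ 1 := by
    rw [← Real.log_div hs0.ne' ha.ne']
    have h1 := Real.log_le_sub_one_of_pos (div_pos hs0 ha)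
    have h2 : s / a ≤ 2 := by rw [div_le_iff₀ ha]; exact hs
    linarith
  have hl2 : 0 ≤ Real.log a - Real.log b := sub_nonneg.2 (Real.log_le_log hb hba)
  obtain ⟨he1, he2⟩ := abs_le.1 hε
  set t := (Real.log a - Real.log b) / 4 with ht
  set r := Real.exp t with hr
  have ht0 : 0 ≤ t := by rw [ht]; linarith
  have hr1 : t + 1 ≤ r := Real.add_one_le_exp t
  have hr4 : a = b * r ^ 4 := by
    rw [hr, ← Real.exp_nat_mul]
    have : ((4 : ℕ) : ℝ) * t = Real.log a - Real.log b := by rw [ht]; push_cast; ring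
    rw [this, Real.exp_sub, Real.exp_log ha, Real.exp_log hb]
    field_simp
  have hM1 : Real.log a * ε ≤ Real.log s * ε + (t + 1 / 4) := by
    have : (Real.log a - Real.log s) * ε ≤ 1 / 4 := by nlinarith
    linarith
  have hM2 : Real.log b * ε ≤ Real.log s * ε + (t + 1 / 4) := by
    have : (Real.log b - Real.log s) * ε ≤ t + 1 / 4 := by
      have h1 : Real.log s - Real.log b ≤ 1 + 4 * t := by rw [ht]; linarith
      have h2 : 0 ≤ Real.log s - Real.log b := by linarith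
      nlinarith
    linarith
  have h := vec_e _ _ _ hM1 hM2
  have h3 : Real.exp (1 / 4 : ℝ) ≤ 2 := by
    have h4 := Real.add_one_le_exp (-(1 / 4 : ℝ))
    have h5 : Real.exp (1 / 4 : ℝ) * Real.exp (-(1 / 4 : ℝ)) = 1 := by
      rw [← Real.exp_add]; norm_num
    have h6 := Real.exp_pos (1 / 4 : ℝ)
    nlinarith
  have h7 : |Real.log a * ε - Real.log b * ε| = |ε| * (4 * t) := by
    rw [← sub_mul, abs_mul, abs_of_nonneg hl2, ht]; ring
  rw [Real.exp_add, Real.exp_add, h7] at h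
  have h8 := Real.exp_pos (Real.log s * ε)
  have hrp : 0 < r := Real.exp_pos t
  have h9 : 4 * t * (r * Real.exp (1 / 4 : ℝ)) * b ≤ 8 * (a - b) := by
    have h10 : 4 * t * (r * Real.exp (1 / 4 : ℝ)) ≤ 4 * (r - 1) * (r * 2) := by
      apply mul_le_mul _ (mul_le_mul_of_nonneg_left h3 hrp.le)
        (mul_nonneg hrp.le (Real.exp_pos _).le) (by linarith)
      linarith
    have h11 : (r - 1) * r ≤ r ^ 4 - 1 := by
      have : r ^ 4 - 1 - (r - 1) * r = (r - 1) * (r ^ 3 + r ^ 2 + 1) := by ring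
      have h12 : 0 ≤ (r - 1) * (r ^ 3 + r ^ 2 + 1) :=
        mul_nonneg (by linarith) (by positivity)
      linarith
    rw [hr4]
    nlinarith [mul_le_mul_of_nonneg_right h10 hb.le, mul_le_mul_of_nonneg_right h11 hb.le]
  calc |Real.exp (Real.log a * ε) - Real.exp (Real.log b * ε)| * b
      ≤ |ε| * (4 * t) *
        (Real.exp (Real.log s * ε) * (Real.exp t * Real.exp (1 / 4 : ℝ))) * b :=
        mul_le_mul_of_nonneg_right h hb.le
    _ = |ε| * Real.exp (Real.log s * ε) * (4 * t * (r * Real.exp (1 / 4 : ℝ)) * b) := by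
        rw [hr]; ring
    _ ≤ |ε| * Real.exp (Real.log s * ε) * (8 * (a - b)) :=
        mul_le_mul_of_nonneg_left h9 (mul_nonneg (abs_nonneg ε) h8.le)
    _ = 8 * |ε| * Real.exp (Real.log s * ε) * (a - b) := by ring

theorem vec_ord (n : ℕ) (p : ℝ) (ξ ζ : E n) (hp : |p - 2| ≤ 1 / 4) (h : ‖ξ‖ ≤ ‖ζ‖) :
    ‖V p ζ - V p ξ - (‖ξ‖ + ‖ζ‖) ^ (p - 2) • (ζ - ξ)‖ ≤
      10 * |p - 2| * (‖ξ‖ + ‖ζ‖) ^ (p - 2) * ‖ζ - ξ‖ := by
  rcases eq_or_lt_of_le (norm_nonneg ζ) with h0 | h0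
  · have h1 : ζ = 0 := norm_eq_zero.1 h0.symm
    have h2 : ξ = 0 := norm_eq_zero.1 (le_antisymm (by rw [h0]; exact h) (norm_nonneg ξ))
    subst h1; subst h2
    simp
  set a := ‖ζ‖ with ha
  set b := ‖ξ‖ with hb
  set s := b + a with hs
  have hb0 : 0 ≤ b := norm_nonneg ξ
  have hsp : 0 < s := by rw [hs]; linarith
  have hse : 0 < s ^ (p - 2) := Real.rpow_pos_of_pos hsp _
  have e1 : V p ζ - V p ξ - s ^ (p - 2) • (ζ - ξ) =
      (a ^ (p - 2) - s ^ (p - 2)) • (ζ - ξ) + (a ^ (p - 2) - b ^ (p - 2)) • ξ := by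
    simp only [V, ← ha, ← hb]
    module
  have hab : a - b ≤ ‖ζ - ξ‖ := norm_sub_norm_le ζ ξ
  have f1 := vec_first (p - 2) a s hp h0 (by rw [hs]; linarith) (by rw [hs]; linarith)
  have f2 : |a ^ (p - 2) - b ^ (p - 2)| * b ≤ 8 * |p - 2| * s ^ (p - 2) * (a - b) := by
    rcases eq_or_lt_of_le hb0 with h1 | h1
    · rw [← h1]
      simp only [mul_zero, sub_zero]
      positivity
    · exact vec_second (p - 2) a b s hp h1 h (by rw [hs]; linarith) (by rw [hs]; linarith)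
  rw [e1]
  calc ‖(a ^ (p - 2) - s ^ (p - 2)) • (ζ - ξ) + (a ^ (p - 2) - b ^ (p - 2)) • ξ‖
      ≤ ‖(a ^ (p - 2) - s ^ (p - 2)) • (ζ - ξ)‖ + ‖(a ^ (p - 2) - b ^ (p - 2)) • ξ‖ :=
        norm_add_le _ _
    _ = |a ^ (p - 2) - s ^ (p - 2)| * ‖ζ - ξ‖ + |a ^ (p - 2) - b ^ (p - 2)| * b := by
        rw [norm_smul, norm_smul, Real.norm_eq_abs, Real.norm_eq_abs, ← hb]
    _ ≤ 2 * |p - 2| * s ^ (p - 2) * ‖ζ - ξ‖ + 8 * |p - 2| * s ^ (p - 2) * (a - b) :=
        add_le_add (mul_le_mul_of_nonneg_right f1 (norm_nonneg _)) f2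
    _ ≤ 2 * |p - 2| * s ^ (p - 2) * ‖ζ - ξ‖ + 8 * |p - 2| * s ^ (p - 2) * ‖ζ - ξ‖ := by
        have := mul_le_mul_of_nonneg_left hab
          (mul_nonneg (mul_nonneg (by norm_num : (0:ℝ) ≤ 8) (abs_nonneg (p - 2))) hse.le)
        linarith
    _ = 10 * |p - 2| * s ^ (p - 2) * ‖ζ - ξ‖ := by ring

theorem p_VEC : T_VEC := by
  refine ⟨10, 1 / 4, by norm_num, by norm_num, ?_⟩
  intro n p ξ ζ hp
  rcases le_total ‖ξ‖ ‖ζ‖ with h | h
  · exact vec_ord n p ξ ζ hp.le h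
  · have h1 := vec_ord n p ζ ξ hp.le h
    rw [add_comm ‖ζ‖ ‖ξ‖] at h1
    have h2 : V p ζ - V p ξ - (‖ξ‖ + ‖ζ‖) ^ (p - 2) • (ζ - ξ) =
        -(V p ξ - V p ζ - (‖ξ‖ + ‖ζ‖) ^ (p - 2) • (ξ - ζ)) := by module
    rw [h2, norm_neg, norm_sub_rev ζ ξ]
    exact h1

end Pool.Agent.SCN
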