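import Pool.Agent.SCN.Targets

/-! # Proof of the target `T_WAV` -/

set_option autoImplicit false

open Set MeasureTheory Filter Topology Metric
open scoped RealInnerProductSpace

namespace Pool.Agent.SCN

open Pool.Agent.SCP (E PHarm V)

theorem p_WAV (hPSG : T_PSG) : T_WAV := by
  intro n φ Φ hK p u x ρ hp hρ hu
  obtain ⟨Ω, hΩ, hB, hPu⟩ := hu
  obtain ⟨C, _, h⟩ := hPSG n φ Φ hK
  obtain ⟨h1, h2, h3, _, _, _, h7⟩ := h x ρ hρ
  have hw := weak hp hΩ hPu (h1.of_le (by exact_mod_cast le_top)) h2 (h3.trans hB)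
  have h8 := h7 (fun z => V p (gradient u z))
  rw [hw, mul_zero, neg_zero] at h8
  have hρn : ρ ^ n ≠ 0 := pow_ne_zero _ hρ.ne'
  exact (mul_eq_zero.mp h8).resolve_left hρn

end Pool.Agent.SCN
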