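import Pool.Agent.SCN.P_AAS
import Pool.Agent.SCN.P_CAC
import Pool.Agent.SCN.P_CHN
import Pool.Agent.SCN.P_CL
import Pool.Agent.SCN.P_D3A
import Pool.Agent.SCN.P_D3B
import Pool.Agent.SCN.P_D3C
import Pool.Agent.SCN.P_D3D
import Pool.Agent.SCN.P_DBA
import Pool.Agent.SCN.P_DBL
import Pool.Agent.SCN.P_DCV
import Pool.Agent.SCN.P_DER
import Pool.Agent.SCN.P_DOM
import Pool.Agent.SCN.P_ENC
import Pool.Agent.SCN.P_ENC2
import Pool.Agent.SCN.P_ENG
import Pool.Agent.SCN.P_ENT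
import Pool.Agent.SCN.P_EQL
import Pool.Agent.SCN.P_FB
import Pool.Agent.SCN.P_FIN
import Pool.Agent.SCN.P_FIX
import Pool.Agent.SCN.P_FST
import Pool.Agent.SCN.P_GRC
import Pool.Agent.SCN.P_GRO
import Pool.Agent.SCN.P_ITG
import Pool.Agent.SCN.P_KB
import Pool.Agent.SCN.P_KER
import Pool.Agent.SCN.P_KES
import Pool.Agent.SCN.P_KK
import Pool.Agent.SCN.P_KPR
import Pool.Agent.SCN.P_KSC
import Pool.Agent.SCN.P_L1C
import Pool.Agent.SCN.P_LGC
import Pool.Agent.SCN.P_LGS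
import Pool.Agent.SCN.P_LOC
import Pool.Agent.SCN.P_LOW
import Pool.Agent.SCN.P_LPC
import Pool.Agent.SCN.P_LPK
import Pool.Agent.SCN.P_MIN
import Pool.Agent.SCN.P_MOM
import Pool.Agent.SCN.P_MVE
import Pool.Agent.SCN.P_MVP
import Pool.Agent.SCN.P_NUG
import Pool.Agent.SCN.P_NUL
import Pool.Agent.SCN.P_POI
import Pool.Agent.SCN.P_PSG
import Pool.Agent.SCN.P_SCL
import Pool.Agent.SCN.P_SMO
import Pool.Agent.SCN.P_SPR
import Pool.Agent.SCN.P_SUP
import Pool.Agent.SCN.P_TAIL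
import Pool.Agent.SCN.P_VEC
import Pool.Agent.SCN.P_WAV

/-! # Assembly of the strong comparison principle near `p = 2` -/

set_option autoImplicit false

namespace Pool.Agent.SCN

theorem a_WAV : T_WAV := p_WAV p_PSG

theorem a_FST : T_FST := p_FST p_DCV a_WAV p_FB

theorem a_L1C : T_L1C := p_L1C p_EQL p_AAS a_FST

theorem a_FIX : T_FIX := p_FIX a_FST

theorem a_SMO : T_SMO := p_SMO p_DCV p_PSG

theorem a_LPC : T_LPC := p_LPC p_LPK

theorem a_MIN : T_MIN := p_MIN p_FB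

theorem a_GRC : T_GRC := p_GRC p_VEC

theorem a_CL : T_CL := p_CL p_KER a_L1C a_FIX a_SMO a_LPC a_MIN a_GRC p_ENC

theorem a_MVP : T_MVP := p_MVP p_DCV p_PSG

theorem a_SUP : T_SUP := p_SUP p_KER a_MVP

theorem a_LGC : T_LGC := p_LGC p_KPR

theorem a_ITG : T_ITG := p_ITG p_DER p_KPR

theorem a_NUG : T_NUG := p_NUG a_LGC a_SUP

theorem a_NUL : T_NUL := p_NUL p_DER a_NUG

theorem a_D3A : T_D3A := p_D3A p_SCL a_CL a_ITG

theorem a_D3B : T_D3B := p_D3B p_SCL a_CL p_DER a_SUP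

theorem a_GRO : T_GRO := p_GRO a_D3B

theorem a_MVE : T_MVE := p_MVE p_DCV a_WAV p_FB a_GRO

theorem a_D3C : T_D3C := p_D3C p_SCL a_CL a_NUL

theorem a_D3D : T_D3D := p_D3D p_KER p_SCL a_CL a_MVE p_POI

theorem a_DBA : T_DBA := p_DBA a_D3A

theorem a_DBL : T_DBL := p_DBL a_DBA

theorem a_TAIL : T_TAIL := p_TAIL a_D3C

theorem a_MOM : T_MOM := p_MOM a_TAIL

theorem a_DOM : T_DOM := p_DOM a_D3D

theorem a_ENG : T_ENG := p_ENG p_VEC

theorem a_LGS : T_LGS := p_LGS p_DCV p_PSG p_VEC a_ENG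

theorem a_KSC : T_KSC := p_KSC a_MOM a_DOM p_KES

theorem a_LOW : T_LOW := p_LOW p_POI

theorem a_LOC : T_LOC := p_LOC p_KER a_KSC a_ENG a_LGS a_LOW

/-- The strong comparison principle near `p = 2` under a frequency bound at the contact points. -/
theorem a_FIN : T_FIN := p_FIN a_DBL a_LOC

theorem a_ENT : T_ENT := p_ENT a_FIN p_CAC

/-- The theorem for entire functions of polynomial growth. -/
theorem a_ENC2 : T_ENC2 := p_ENC2 a_ENT

theorem a_SPR : T_SPR := p_SPR p_SCL a_CL a_NUL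

theorem a_CHN : T_CHN := p_CHN a_SPR

theorem a_KB : T_KB := p_KB a_CHN a_DBL a_LOC

/-- The theorem on compact sets. -/
theorem a_KK : T_KK := p_KK a_KB

end Pool.Agent.SCN
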