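import Pool.Agent.SCP.TEST
import Pool.Agent.SCP.MONO

/-! # Strong comparison for `p`-harmonic functions, `p` near 2: definitions -/

set_option autoImplicit false

open Set MeasureTheory Filter Topology Metric
open scoped RealInnerProductSpace

namespace Pool.Agent.SCN

open Pool.Agent.SCP (E PHarm V)

variable {n : ℕ}

/-- `u` is `p`-harmonic in a neighbourhood of the closed ball. -/
def PB (p : ℝ) (x : E n) (r : ℝ) (u : E n → ℝ) : Prop :=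
  ∃ Ω : Set (E n), IsOpen Ω ∧ closedBall x r ⊆ Ω ∧ PHarm p Ω u

/-- The energy in a ball. -/
noncomputable def en (p : ℝ) (u : E n → ℝ) (x : E n) (r : ℝ) : ℝ :=
  ∫ y in ball x r, ‖gradient u y‖ ^ p

/-- The size of the gradient in a ball (up to a dimensional constant). -/
noncomputable def mg (p : ℝ) (u : E n → ℝ) (x : E n) (r : ℝ) : ℝ :=
  (en p u x r / r ^ n) ^ (1 / p)

/-- Smooth harmonic functions. -/
def Hrm (Ω : Set (E n)) (h : E n → ℝ) : Prop := ContDiffOn ℝ (⊤ : ℕ∞) h Ω ∧ PHarm 2 Ω h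

/-- A smooth radial kernel `φ` and the function `Φ` with `∇Φ(y) = φ(y) y`. -/
structure Ker (φ Φ : E n → ℝ) : Prop where
  smooth : ContDiff ℝ (⊤ : ℕ∞) φ
  smooth' : ContDiff ℝ (⊤ : ℕ∞) Φ
  supp : ∀ y, 1 ≤ ‖y‖ → φ y = 0
  supp' : ∀ y, 1 ≤ ‖y‖ → Φ y = 0
  pos : ∀ y, ‖y‖ < 1 → 0 < φ y
  neg : ∀ y, ‖y‖ < 1 → Φ y < 0
  one : ∫ y, φ y = 1
  grad : ∀ y, gradient Φ y = φ y • y

/-- The smooth average of `f` at the scale `d`. -/
noncomputable def cv (φ : E n → ℝ) (d : ℝ) (f : E n → ℝ) (x : E n) : ℝ :=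
  ∫ y, φ y * f (x + d • y)

/-- The test function `-Φ((z - x)/ρ) ≥ 0`. -/
noncomputable def ps (Φ : E n → ℝ) (x : E n) (ρ : ℝ) (z : E n) : ℝ := - Φ (ρ⁻¹ • (z - x))

/-- The sum of the sizes of the gradients. -/
noncomputable def sg (u v : E n → ℝ) (y : E n) : ℝ := ‖gradient u y‖ + ‖gradient v y‖

/-- Doubling with the exponent `m` at all centres near `x₀` and all small scales. -/
def Dbl (p : ℝ) (u : E n → ℝ) (x₀ : E n) (R : ℝ) (m : ℕ) : Prop :=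
  0 < R ∧ PB p x₀ (5 * R) u ∧ ∀ y ∈ closedBall x₀ R, ∀ ρ : ℝ, 0 < ρ → ρ ≤ R →
    en p u y (4 * ρ) ≤ 2 ^ m * en p u y ρ ∧ 0 < en p u y ρ

/-- The hypothesis of the theorem at the point `x`: at one scale the frequency of `f` is bounded. -/
def Freq (p : ℝ) (Ω : Set (E n)) (f : E n → ℝ) (x : E n) (N : ℕ) : Prop :=
  ∃ r : ℝ, 0 < r ∧ closedBall x (4 * r) ⊆ Ω ∧ 0 < en p f x r ∧
    en p f x (4 * r) ≤ 2 ^ N * en p f x r

/-! ## Basic facts -/

theorem weak {p : ℝ} (hp : 1 < p) {Ω : Set (E n)} (hΩ : IsOpen Ω) {u φ : E n → ℝ}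
    (hu : PHarm p Ω u) (h1 : ContDiff ℝ 1 φ) (h2 : HasCompactSupport φ) (h3 : tsupport φ ⊆ Ω) :
    ∫ x, ⟪V p (gradient u x), gradient φ x⟫ = 0 := by
  have h := SCP.test n p Ω u φ hp hΩ hu h1 h2 h3
  rw [← h]
  congr 1
  funext x
  rw [SCP.flux_inner]

end Pool.Agent.SCN
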