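import Pool.Agent.SCN.All

/-!
# The strong comparison principle for entire `p`-harmonic functions, `p` near 2
-/

set_option autoImplicit false

open Set MeasureTheory Metric

namespace Pool.Agent.SCN.Entire

/-- The Euclidean space `ℝⁿ`. -/
abbrev R (n : ℕ) : Type := EuclideanSpace ℝ (Fin n)

variable {n : ℕ}

/-- `u` is `p`-harmonic in `Ω`: a `C¹` weak solution of the `p`-Laplace equation. -/
def PHarmonic (p : ℝ) (Ω : Set (R n)) (u : R n → ℝ) : Prop :=
  ContDiffOn ℝ 1 u Ω ∧ ∀ φ : R n → ℝ, ContDiff ℝ (⊤ : ℕ∞) φ → HasCompactSupport φ →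
    tsupport φ ⊆ Ω → ∫ x, ‖gradient u x‖ ^ (p - 2) * (fderiv ℝ φ x (gradient u x)) = 0

/-- `f` has polynomial growth of order at most `K`. -/
def Growth (K : ℕ) (f : R n → ℝ) : Prop := ∃ A : ℝ, ∀ x, |f x| ≤ A * (1 + ‖x‖) ^ K

/-- For every dimension `n` and every `K` there is `ε > 0` such that for `|p - 2| < ε` the strong
comparison principle holds for `p`-harmonic functions `u ≤ v` on `ℝⁿ`, if one of them has
polynomial growth of order at most `K`. -/
theorem result (n : ℕ) (hn : 1 ≤ n) (K : ℕ) :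
    ∃ ε : ℝ, 0 < ε ∧ ∀ p : ℝ, |p - 2| < ε →
      ∀ u v : R n → ℝ, PHarmonic p univ u → PHarmonic p univ v → (∀ x, u x ≤ v x) →
        (Growth K u ∨ Growth K v) → (∃ x, u x = v x) → ∀ x, u x = v x :=
  Pool.Agent.SCN.a_ENC2 n K hn

end Pool.Agent.SCN.Entire
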