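import Pool.Agent.SCN.Targets

/-! # Strong comparison for `p`-harmonic functions, `p` near 2: the compactness of AAS -/

set_option autoImplicit false

open Set MeasureTheory Filter Topology Metric
open scoped RealInnerProductSpace

namespace Pool.Agent.SCN

open Pool.Agent.SCP (E PHarm V)

theorem p_AAS : T_AAS := by
  intro n R A f hb hl
  have : CompactSpace (closedBall (0 : E n) R) :=
    isCompact_iff_compactSpace.mp (isCompact_closedBall _ _)
  have hlip : ∀ j, LipschitzWith (Real.toNNReal A)
      (fun x : closedBall (0 : E n) R => f j x) := by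
    intro j
    apply LipschitzWith.of_dist_le'
    intro x y
    rw [Real.dist_eq, Subtype.dist_eq, dist_eq_norm]
    exact hl j x x.2 y y.2
  let G : ℕ → BoundedContinuousFunction (closedBall (0 : E n) R) ℝ := fun j =>
    BoundedContinuousFunction.mkOfCompact ⟨fun x => f j x, (hlip j).continuous⟩
  have hcomp : IsCompact (closure (range G)) := by
    apply BoundedContinuousFunction.arzela_ascoli (Icc (-A) A) isCompact_Icc
    · rintro g x ⟨j, rfl⟩
      exact abs_le.mp (hb j x x.2)
    · refine LipschitzWith.uniformEquicontinuous _ (Real.toNNReal A) ?_ |>.equicontinuous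
      rintro ⟨g, j, rfl⟩
      exact hlip j
  obtain ⟨g, -, k, hk, hg⟩ := hcomp.tendsto_subseq (fun j => subset_closure (mem_range_self j))
  classical
  refine ⟨k, fun x => if hx : x ∈ closedBall (0 : E n) R then g ⟨x, hx⟩ else 0, hk, ?_, ?_⟩
  · rw [continuousOn_iff_continuous_domRestrict]
    have h1 : (closedBall (0 : E n) R).domRestrict
        (fun x => if hx : x ∈ closedBall (0 : E n) R then g ⟨x, hx⟩ else 0) = g := by
      funext x
      rw [domRestrict_apply, dif_pos x.2]
    rw [h1]
    exact g.continuous
  · intro δ hδ
    have h1 := (Metric.tendsto_nhds.mp hg) δ hδ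
    filter_upwards [h1] with j hj x hx
    rw [dif_pos hx]
    have h2 := BoundedContinuousFunction.dist_coe_le_dist (f := G (k j)) (g := g) ⟨x, hx⟩
    rw [Real.dist_eq] at h2
    exact lt_of_le_of_lt h2 hj

end Pool.Agent.SCN
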