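import Pool.Agent.SCN.Targets

/-! # Entire solutions of polynomial growth -/

set_option autoImplicit false

open Set MeasureTheory Filter Topology Metric
open scoped RealInnerProductSpace

namespace Pool.Agent.SCN

open Pool.Agent.SCP (E PHarm V)

namespace ENT_

variable {n : ℕ}

theorem cont_grad {u : E n → ℝ} (h : ContDiff ℝ 1 u) : Continuous (fun y => gradient u y) := by
  unfold gradient
  exact (InnerProductSpace.toDual ℝ (E n)).symm.continuous.comp
    (h.continuous_fderiv (by norm_num))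

theorem cont_en {u : E n → ℝ} (h : ContDiff ℝ 1 u) {p : ℝ} (hp : 0 < p) :
    Continuous (fun y => ‖gradient u y‖ ^ p) :=
  (cont_grad h).norm.rpow_const (fun _ => Or.inr hp.le)

theorem intOn {f : E n → ℝ} (h : Continuous f) (x : E n) (r : ℝ) :
    IntegrableOn f (ball x r) :=
  (h.locallyIntegrable.integrableOn_isCompact (isCompact_closedBall x r)).mono_set
    ball_subset_closedBall

theorem en_pos {u : E n → ℝ} (h : ContDiff ℝ 1 u) {p : ℝ} (hp : 0 < p) {x z : E n} {r : ℝ}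
    (hz : gradient u z ≠ 0) (hr : z ∈ ball x r) : 0 < en p u x r := by
  unfold en
  rw [setIntegral_pos_iff_support_of_nonneg_ae
    (Eventually.of_forall fun y => Real.rpow_nonneg (norm_nonneg _) _)
    (intOn (cont_en h hp) x r)]
  have ho : IsOpen (Function.support (fun y => ‖gradient u y‖ ^ p) ∩ ball x r) :=
    (cont_en h hp).isOpen_support.inter isOpen_ball
  refine ho.measure_pos volume ⟨z, ?_, hr⟩
  exact (Real.rpow_pos_of_pos (norm_pos_iff.mpr hz) p).ne'

theorem nonconst {u : E n → ℝ} (h : ContDiff ℝ 1 u) (hne : ∃ x y, u x ≠ u y) :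
    ∃ z, gradient u z ≠ 0 := by
  by_contra hcon
  push Not at hcon
  obtain ⟨x, y, hxy⟩ := hne
  refine hxy (is_const_of_fderiv_eq_zero (𝕜 := ℝ) (h.differentiable (by norm_num)) ?_ x y)
  intro w
  have h1 := hcon w
  unfold gradient at h1
  exact (InnerProductSpace.toDual ℝ (E n)).symm.map_eq_zero_iff.mp h1

/-- The growth of the energy. -/
theorem growth {u : E n → ℝ} {p : ℝ} {x : E n} {N : ℕ} {r₀ : ℝ} (hr : 0 < r₀)
    (h0 : 0 < en p u x r₀) (hF : ¬ Freq p univ u x N) (j : ℕ) :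
    (2 : ℝ) ^ (N * j) * en p u x r₀ ≤ en p u x (4 ^ j * r₀) := by
  induction j with
  | zero => simp
  | succ j ih =>
    have hpos : 0 < en p u x (4 ^ j * r₀) := lt_of_lt_of_le (by positivity) ih
    have hr' : 0 < 4 ^ j * r₀ := by positivity
    have h1 : 2 ^ N * en p u x (4 ^ j * r₀) < en p u x (4 * (4 ^ j * r₀)) := by
      by_contra hcon
      exact hF ⟨4 ^ j * r₀, hr', subset_univ _, hpos, not_lt.mp hcon⟩
    have e1 : (4 : ℝ) ^ (j + 1) * r₀ = 4 * (4 ^ j * r₀) := by ring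
    rw [e1, Nat.mul_succ, add_comm, pow_add, mul_assoc]
    exact (mul_le_mul_of_nonneg_left ih (by positivity)).trans h1.le

/-- Upper bound for the energy. -/
theorem upper {u : E n → ℝ} (hu : ContDiff ℝ 1 u) {p C A : ℝ} {K : ℕ} (hp0 : 0 < p)
    (hp3 : p ≤ 3) (hC : 0 < C) (x : E n) {r₀ : ℝ} (hr₀ : 1 ≤ r₀) (hA1 : 1 ≤ A)
    (hA : ∀ y, |u y| ≤ A * (1 + ‖y‖) ^ K)
    (hcac : ∀ r : ℝ, 0 < r →
      en p u x r ≤ C * (r⁻¹) ^ p * ∫ y in ball x (2 * r), |u y| ^ p) :
    ∃ D : ℝ, ∀ j : ℕ, en p u x (4 ^ j * r₀) ≤ D * (2 : ℝ) ^ (2 * (n + 3 * K) * j) := by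
  set M : ℝ := 1 + ‖x‖ + 2 * r₀ with hM
  have hM1 : 1 ≤ M := by
    have := norm_nonneg x
    rw [hM]
    linarith
  set ω : ℝ := (volume (ball (0 : E n) 1)).toReal with hω
  have hω0 : 0 ≤ ω := ENNReal.toReal_nonneg
  refine ⟨C * ((A * M ^ K) ^ 3 * ((2 * r₀) ^ n * ω)), fun j => ?_⟩
  set q : ℝ := 4 ^ j with hq
  have hq1 : 1 ≤ q := one_le_pow₀ (by norm_num)
  set r : ℝ := q * r₀ with hr
  have hr1 : 1 ≤ r := by
    rw [hr]
    nlinarith
  have hr0 : 0 < r := lt_of_lt_of_le one_pos hr1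
  set b : ℝ := A * (q * M) ^ K with hb
  have hb1 : 1 ≤ b := by
    rw [hb]
    have h1 : 1 ≤ (q * M) ^ K := one_le_pow₀ (by nlinarith)
    nlinarith
  have hint : ∫ y in ball x (2 * r), |u y| ^ p ≤ b ^ 3 * ((2 * r) ^ n * ω) := by
    have h1 : ∫ y in ball x (2 * r), |u y| ^ p ≤ ∫ _ in ball x (2 * r), b ^ 3 := by
      refine setIntegral_mono_on ?_ ?_ measurableSet_ball ?_
      · exact intOn (hu.continuous.abs.rpow_const (fun _ => Or.inr hp0.le)) _ _
      · exact intOn continuous_const _ _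
      · intro y hy
        have hy1 : ‖y‖ ≤ ‖x‖ + 2 * r := by
          have h2 : ‖y - x‖ < 2 * r := by rwa [mem_ball, dist_eq_norm] at hy
          have h3 : ‖y‖ ≤ ‖y - x‖ + ‖x‖ := by
            have := norm_add_le (y - x) x
            rwa [sub_add_cancel] at this
          linarith
        have hy2 : 1 + ‖y‖ ≤ q * M := by
          rw [hM]
          have h4 := norm_nonneg x
          have h5 : ‖x‖ ≤ q * ‖x‖ := le_mul_of_one_le_left h4 hq1
          have h6 : 2 * r = q * (2 * r₀) := by rw [hr]; ring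
          rw [h6] at hy1
          nlinarith
        have hy3 : |u y| ≤ b := by
          refine (hA y).trans ?_
          rw [hb]
          gcongr
        calc |u y| ^ p ≤ b ^ p := Real.rpow_le_rpow (abs_nonneg _) hy3 hp0.le
          _ ≤ b ^ (3 : ℝ) := Real.rpow_le_rpow_of_exponent_le hb1 hp3
          _ = b ^ 3 := by rw [← Real.rpow_natCast]; norm_num
    refine h1.trans (le_of_eq ?_)
    rw [setIntegral_const, smul_eq_mul, Measure.real,
      Measure.addHaar_ball_of_pos volume x (by positivity : 0 < 2 * r), ENNReal.toReal_mul,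
      ENNReal.toReal_ofReal (by positivity), finrank_euclideanSpace_fin, mul_comm]
  have hinv : (r⁻¹) ^ p ≤ 1 :=
    Real.rpow_le_one (inv_nonneg.mpr hr0.le) (inv_le_one_of_one_le₀ hr1) hp0.le
  have hI0 : 0 ≤ ∫ y in ball x (2 * r), |u y| ^ p :=
    integral_nonneg (fun y => Real.rpow_nonneg (abs_nonneg _) _)
  calc en p u x r ≤ C * (r⁻¹) ^ p * ∫ y in ball x (2 * r), |u y| ^ p := hcac r hr0
    _ ≤ C * 1 * ∫ y in ball x (2 * r), |u y| ^ p := by gcongr
    _ ≤ C * 1 * (b ^ 3 * ((2 * r) ^ n * ω)) := by gcongr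
    _ = C * ((A * M ^ K) ^ 3 * ((2 * r₀) ^ n * ω)) * q ^ (n + 3 * K) := by
      rw [hb, hr]
      ring_nf
    _ = C * ((A * M ^ K) ^ 3 * ((2 * r₀) ^ n * ω)) * (2 : ℝ) ^ (2 * (n + 3 * K) * j) := by
      rw [hq, ← pow_mul]
      have : (4 : ℝ) = 2 ^ 2 := by norm_num
      rw [this, ← pow_mul]
      ring_nf

end ENT_

theorem p_ENT (h_FIN : T_FIN) (h_CAC : T_CAC) : T_ENT := by
  intro n K hn
  obtain ⟨C, hC, hcac⟩ := h_CAC n
  obtain ⟨e, he, hfin⟩ := h_FIN n (2 * (n + 3 * K) + 1) hn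
  refine ⟨min e (1 / 2), lt_min he (by norm_num), ?_⟩
  intro p hp u v hu hv huv ⟨A, hA⟩ hne hmeet
  have hp1 : |p - 2| < e := lt_of_lt_of_le hp (min_le_left _ _)
  have hp2 : |p - 2| ≤ 1 / 2 := (lt_of_lt_of_le hp (min_le_right _ _)).le
  have hp3 := abs_le.mp hp2
  have hp0 : 0 < p := by linarith
  have huC : ContDiff ℝ 1 u := contDiffOn_univ.mp hu.1
  obtain ⟨z, hz⟩ := ENT_.nonconst huC hne
  have hfreq : ∀ x, Freq p univ u x (2 * (n + 3 * K) + 1) := by
    intro x
    by_contra hF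
    set r₀ : ℝ := ‖z - x‖ + 1 with hr₀
    have hr1 : 1 ≤ r₀ := by
      have := norm_nonneg (z - x)
      rw [hr₀]
      linarith
    have h0 : 0 < en p u x r₀ := by
      refine ENT_.en_pos huC hp0 hz ?_
      rw [mem_ball, dist_eq_norm, hr₀]
      linarith
    have hA' : ∀ y, |u y| ≤ max A 1 * (1 + ‖y‖) ^ K := by
      intro y
      refine (hA y).trans ?_
      gcongr
      exact le_max_left _ _
    obtain ⟨D, hD⟩ := ENT_.upper huC (K := K) hp0 (by linarith) hC x hr1 (le_max_right A 1) hA'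
      (fun r hr => hcac p hp2 u x r hr ⟨univ, isOpen_univ, subset_univ _, hu⟩)
    obtain ⟨j, hj⟩ := pow_unbounded_of_one_lt (D / en p u x r₀) (by norm_num : (1 : ℝ) < 2)
    have h1 := ENT_.growth (lt_of_lt_of_le one_pos hr1) h0 hF j
    have h2 := h1.trans (hD j)
    rw [Nat.add_mul, one_mul, pow_add, mul_assoc, mul_comm D] at h2
    have h3 : (2 : ℝ) ^ j * en p u x r₀ ≤ D := le_of_mul_le_mul_left h2 (by positivity)
    rw [div_lt_iff₀ h0] at hj
    exact absurd h3 (not_le.mpr hj)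
  intro x
  refine hfin p hp1 univ u v isOpen_univ isConnected_univ hu hv ?_ ?_ ?_ x (mem_univ x)
  · rcases huv with h | h
    · exact Or.inl fun x _ => h x
    · exact Or.inr fun x _ => h x
  · exact fun x _ _ => Or.inl (hfreq x)
  · obtain ⟨x, hx⟩ := hmeet
    exact ⟨x, mem_univ x, hx⟩

end Pool.Agent.SCN
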