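import Pool.Agent.SCN.Targets

/-! # Target LGS -/

set_option autoImplicit false

open Set MeasureTheory Filter Topology Metric
open scoped RealInnerProductSpace

namespace Pool.Agent.SCN

open Pool.Agent.SCP (E PHarm V)

namespace lgs_

variable {n : ℕ}

/-- The weight. -/
noncomputable def kap (p s : ℝ) : ℝ := |p - 2| * s ^ (p - 2) + |s ^ (p - 2) - 1|

theorem kap_nonneg {p s : ℝ} (hs : 0 ≤ s) : 0 ≤ kap p s :=
  add_nonneg (mul_nonneg (abs_nonneg _) (Real.rpow_nonneg hs _)) (abs_nonneg _)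

theorem Kf_eq (p s : ℝ) : Kf p s = kap p s ^ 2 * s ^ (2 - p) := rfl

theorem grad_of {f : E n → ℝ} {L : E n →L[ℝ] ℝ} {z : E n} (h : HasFDerivAt f L z) :
    gradient f z = (InnerProductSpace.toDual ℝ (E n)).symm L := by
  unfold gradient
  rw [h.fderiv]

theorem has {Ω : Set (E n)} {u : E n → ℝ} (hΩ : IsOpen Ω) (hu : ContDiffOn ℝ 1 u Ω) {z : E n}
    (hz : z ∈ Ω) : HasFDerivAt u (fderiv ℝ u z) z :=
  ((hu.contDiffAt (hΩ.mem_nhds hz)).differentiableAt (by norm_num)).hasFDerivAt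

theorem grad_log {Ω : Set (E n)} {u v : E n → ℝ} (hΩ : IsOpen Ω) (hu : ContDiffOn ℝ 1 u Ω)
    (hv : ContDiffOn ℝ 1 v Ω) {z : E n} (hz : z ∈ Ω) {t : ℝ} (ht : 0 < v z - u z + t) :
    gradient (fun y => Real.log (v y - u y + t)) z =
      (v z - u z + t)⁻¹ • (gradient v z - gradient u z) := by
  have h1 : HasFDerivAt (fun y => v y - u y + t) (fderiv ℝ v z - fderiv ℝ u z) z :=
    ((has hΩ hv hz).sub (has hΩ hu hz)).add_const t
  rw [grad_of (h1.log ht.ne'), map_smul, map_sub]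
  rfl

theorem grad_quot {Ω : Set (E n)} {u v ψ : E n → ℝ} (hΩ : IsOpen Ω) (hu : ContDiffOn ℝ 1 u Ω)
    (hv : ContDiffOn ℝ 1 v Ω) (hψ : ContDiffOn ℝ 1 ψ Ω) {z : E n} (hz : z ∈ Ω) {t : ℝ}
    (ht : 0 < v z - u z + t) :
    gradient (fun y => ψ y * (v y - u y + t)⁻¹) z =
      (v z - u z + t)⁻¹ • gradient ψ z -
        (ψ z * ((v z - u z + t) ^ 2)⁻¹) • (gradient v z - gradient u z) := by
  have h1 : HasFDerivAt (fun y => v y - u y + t) (fderiv ℝ v z - fderiv ℝ u z) z :=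
    ((has hΩ hv hz).sub (has hΩ hu hz)).add_const t
  have h2 := (hasDerivAt_inv ht.ne').comp_hasFDerivAt z h1
  have h3 := (has hΩ hψ hz).mul h2
  have h4 : gradient (fun y => ψ y * (v y - u y + t)⁻¹) z = _ := grad_of h3
  rw [h4, map_add, map_smul, map_smul, map_smul, map_sub]
  have e1 : (InnerProductSpace.toDual ℝ (E n)).symm (fderiv ℝ v z) = gradient v z := rfl
  have e2 : (InnerProductSpace.toDual ℝ (E n)).symm (fderiv ℝ u z) = gradient u z := rfl
  have e3 : (InnerProductSpace.toDual ℝ (E n)).symm (fderiv ℝ ψ z) = gradient ψ z := rfl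
  rw [e1, e2, e3]
  simp only [Function.comp_apply]
  rw [neg_smul, smul_neg, smul_smul, neg_add_eq_sub]

theorem cont_grad {Ω : Set (E n)} {u : E n → ℝ} (hΩ : IsOpen Ω) (hu : ContDiffOn ℝ 1 u Ω) :
    ContinuousOn (gradient u) Ω := by
  have h1 := hu.continuousOn_fderiv_of_isOpen hΩ le_rfl
  exact (InnerProductSpace.toDual ℝ (E n)).symm.continuous.comp_continuousOn h1

theorem integrable_of {Ω K : Set (E n)} {G : E n → ℝ} (hK : IsCompact K) (hKΩ : K ⊆ Ω)
    (hG : ContinuousOn G Ω) (h0 : ∀ z, z ∉ K → G z = 0) : Integrable G := by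
  have h1 : IntegrableOn G K := (hG.mono hKΩ).integrableOn_compact hK
  refine (integrableOn_iff_integrable_of_support_subset ?_).1 h1
  intro z hz
  by_contra h2
  exact hz (h0 z h2)

theorem grad_zero {ψ : E n → ℝ} {z : E n} (hz : z ∉ tsupport ψ) : gradient ψ z = 0 := by
  unfold gradient
  rw [fderiv_of_notMem_tsupport ℝ hz, map_zero]

theorem mono_nonneg {p : ℝ} (hp : 1 < p) (ξ ζ : E n) : 0 ≤ ⟪V p ζ - V p ξ, ζ - ξ⟫ := by
  by_cases h : ζ = ξ
  · rw [h]
    simp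
  · exact ((SCP.mono n p hp).2 ζ ξ h).le

/-- The weak equations with the test function `ψ / (w + t)`. -/
theorem test_nonneg {p : ℝ} (hp : 1 < p) {Ω : Set (E n)} {u v : E n → ℝ} (hΩ : IsOpen Ω)
    (hu : PHarm p Ω u) (hv : PHarm p Ω v) (huv : ∀ y ∈ Ω, u y ≤ v y) {t : ℝ} (ht : 0 < t)
    {ψ : E n → ℝ} (hψ : ContDiff ℝ (⊤ : ℕ∞) ψ) (hc : HasCompactSupport ψ)
    (hsub : tsupport ψ ⊆ Ω) (hψ0 : ∀ z, 0 ≤ ψ z) :
    Integrable (fun z => (v z - u z + t)⁻¹ *
      ⟪V p (gradient v z) - V p (gradient u z), gradient ψ z⟫) ∧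
    0 ≤ ∫ z, (v z - u z + t)⁻¹ *
      ⟪V p (gradient v z) - V p (gradient u z), gradient ψ z⟫ := by
  have hpos : ∀ z ∈ Ω, 0 < v z - u z + t := by
    intro z hz
    have := huv z hz
    linarith
  have hw : ContDiffOn ℝ 1 (fun z => v z - u z + t) Ω := (hv.1.sub hu.1).add contDiffOn_const
  have hψ1 : ContDiff ℝ 1 ψ := hψ.of_le (by exact_mod_cast le_top)
  have hVc : Continuous (V p : E n → E n) := (SCP.mono n p hp).1
  have hVu : ContinuousOn (fun z => V p (gradient u z)) Ω :=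
    hVc.comp_continuousOn (cont_grad hΩ hu.1)
  have hVv : ContinuousOn (fun z => V p (gradient v z)) Ω :=
    hVc.comp_continuousOn (cont_grad hΩ hv.1)
  set χ : E n → ℝ := fun z => ψ z * (v z - u z + t)⁻¹ with hχ
  have hχs : tsupport χ ⊆ tsupport ψ := tsupport_mul_subset_left
  have hχ1 : ContDiff ℝ 1 χ := by
    rw [contDiff_iff_contDiffAt]
    intro z
    by_cases hz : z ∈ Ω
    · have h1 : ContDiffAt ℝ 1 (fun z => v z - u z + t) z := hw.contDiffAt (hΩ.mem_nhds hz)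
      exact hψ1.contDiffAt.mul (h1.inv (hpos z hz).ne')
    · have h1 : z ∉ tsupport χ := fun h2 => hz (hsub (hχs h2))
      have h2 : χ =ᶠ[𝓝 z] 0 := notMem_tsupport_iff_eventuallyEq.1 h1
      exact contDiffAt_const.congr_of_eventuallyEq h2
  have hχ2 : HasCompactSupport χ := hc.mul_right
  have hχ3 : tsupport χ ⊆ Ω := hχs.trans hsub
  have w1 := weak hp hΩ hv hχ1 hχ2 hχ3
  have w2 := weak hp hΩ hu hχ1 hχ2 hχ3
  have hgχ : ContinuousOn (gradient χ) Ω := cont_grad hΩ hχ1.contDiffOn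
  have hgψ : ContinuousOn (gradient ψ) Ω := cont_grad hΩ hψ1.contDiffOn
  have hgχ0 : ∀ z, z ∉ tsupport ψ → gradient χ z = 0 := fun z hz =>
    grad_zero fun h2 => hz (hχs h2)
  have I1 : Integrable fun z => ⟪V p (gradient v z), gradient χ z⟫ := by
    refine integrable_of hc hsub (hVv.inner hgχ) ?_
    intro z hz
    rw [hgχ0 z hz, inner_zero_right]
  have I2 : Integrable fun z => ⟪V p (gradient u z), gradient χ z⟫ := by
    refine integrable_of hc hsub (hVu.inner hgχ) ?_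
    intro z hz
    rw [hgχ0 z hz, inner_zero_right]
  have I3 : Integrable (fun z => (v z - u z + t)⁻¹ *
      ⟪V p (gradient v z) - V p (gradient u z), gradient ψ z⟫) := by
    refine integrable_of hc hsub ?_ ?_
    · exact (hw.continuousOn.inv₀ fun z hz => (hpos z hz).ne').mul ((hVv.sub hVu).inner hgψ)
    · intro z hz
      rw [grad_zero hz, inner_zero_right, mul_zero]
  refine ⟨I3, ?_⟩
  have h0 : ∫ z, (⟪V p (gradient v z), gradient χ z⟫ - ⟪V p (gradient u z), gradient χ z⟫) = 0 := by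
    rw [integral_sub I1 I2, w1, w2, sub_zero]
  rw [← h0]
  refine integral_mono (I1.sub I2) I3 ?_
  intro z
  change ⟪V p (gradient v z), gradient χ z⟫ - ⟪V p (gradient u z), gradient χ z⟫ ≤
    (v z - u z + t)⁻¹ * ⟪V p (gradient v z) - V p (gradient u z), gradient ψ z⟫
  rw [← inner_sub_left]
  by_cases hz : z ∈ Ω
  · rw [grad_quot hΩ hu.1 hv.1 hψ1.contDiffOn hz (hpos z hz), inner_sub_right,
      inner_smul_right, inner_smul_right]
    have h1 := mono_nonneg hp (gradient u z) (gradient v z)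
    have h2 : 0 ≤ ψ z * ((v z - u z + t) ^ 2)⁻¹ :=
      mul_nonneg (hψ0 z) (inv_nonneg.2 (sq_nonneg _))
    have h3 := mul_nonneg h2 h1
    linarith
  · have h1 : z ∉ tsupport ψ := fun h2 => hz (hsub h2)
    rw [hgχ0 z h1, grad_zero h1]
    simp

/-- The vector inequality, rescaled. -/
theorem vec_bd {C p S : ℝ} (hC : 0 < C) (hS : 0 < S) (ξ ζ : E n)
    (h : ‖V p ζ - V p ξ - (‖ξ‖ + ‖ζ‖) ^ (p - 2) • (ζ - ξ)‖ ≤
      C * |p - 2| * (‖ξ‖ + ‖ζ‖) ^ (p - 2) * ‖ζ - ξ‖) :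
    ‖(ζ - ξ) - (S ^ (p - 2))⁻¹ • (V p ζ - V p ξ)‖ ≤
      (1 + C) * (kap p ((‖ξ‖ + ‖ζ‖) / S) * ‖ζ - ξ‖) := by
  have hs : 0 ≤ ‖ξ‖ + ‖ζ‖ := by positivity
  have hSp : 0 < S ^ (p - 2) := Real.rpow_pos_of_pos hS _
  set s := ‖ξ‖ + ‖ζ‖ with hsdef
  have hdiv : (s / S) ^ (p - 2) = (S ^ (p - 2))⁻¹ * s ^ (p - 2) := by
    rw [Real.div_rpow hs hS.le, div_eq_inv_mul]
  set T := (S ^ (p - 2))⁻¹ with hT
  have hT0 : 0 < T := inv_pos.2 hSp
  have e1 : (ζ - ξ) - T • (V p ζ - V p ξ) =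
      (1 - (s / S) ^ (p - 2)) • (ζ - ξ) - T • (V p ζ - V p ξ - s ^ (p - 2) • (ζ - ξ)) := by
    rw [hdiv, smul_sub T (V p ζ - V p ξ), smul_smul, sub_smul, one_smul]
    abel
  rw [e1]
  have h1 : ‖(1 - (s / S) ^ (p - 2)) • (ζ - ξ)‖ = |(s / S) ^ (p - 2) - 1| * ‖ζ - ξ‖ := by
    rw [norm_smul, Real.norm_eq_abs, abs_sub_comm]
  have h2 : ‖T • (V p ζ - V p ξ - s ^ (p - 2) • (ζ - ξ))‖ ≤
      C * (|p - 2| * (s / S) ^ (p - 2)) * ‖ζ - ξ‖ := by
    rw [norm_smul, Real.norm_of_nonneg hT0.le, hdiv]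
    calc T * ‖V p ζ - V p ξ - s ^ (p - 2) • (ζ - ξ)‖ ≤
          T * (C * |p - 2| * s ^ (p - 2) * ‖ζ - ξ‖) := mul_le_mul_of_nonneg_left h hT0.le
      _ = _ := by ring
  refine (norm_sub_le _ _).trans ?_
  rw [h1]
  refine (add_le_add_right h2 _).trans ?_
  have a1 : 0 ≤ |p - 2| * (s / S) ^ (p - 2) * ‖ζ - ξ‖ := by positivity
  have a2 : 0 ≤ |(s / S) ^ (p - 2) - 1| * ‖ζ - ξ‖ := by positivity
  have a3 : (1 + C) * (kap p (s / S) * ‖ζ - ξ‖) =
      |(s / S) ^ (p - 2) - 1| * ‖ζ - ξ‖ + C * (|p - 2| * (s / S) ^ (p - 2)) * ‖ζ - ξ‖ +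
        (|p - 2| * (s / S) ^ (p - 2) * ‖ζ - ξ‖ +
          C * (|(s / S) ^ (p - 2) - 1| * ‖ζ - ξ‖)) := by
    unfold kap
    ring
  rw [a3]
  have a4 : 0 ≤ C * (|(s / S) ^ (p - 2) - 1| * ‖ζ - ξ‖) := mul_nonneg hC.le a2
  linarith

/-- The lower bound for a fixed radius. -/
theorem inner_bd {p : ℝ} (hp : 1 < p) {Ω : Set (E n)} {u v : E n → ℝ} (hΩ : IsOpen Ω)
    (hu : PHarm p Ω u) (hv : PHarm p Ω v) (huv : ∀ y ∈ Ω, u y ≤ v y) {t : ℝ} (ht : 0 < t)
    {ψ : E n → ℝ} (hψ : ContDiff ℝ (⊤ : ℕ∞) ψ) (hc : HasCompactSupport ψ)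
    (hψ0 : ∀ z, 0 ≤ ψ z) {x : E n} {ρ C₂ C₃ S : ℝ} (hS : 0 < S) (hC₃ : 0 < C₃)
    (hsub : closedBall x ρ ⊆ Ω) (hsup : tsupport ψ ⊆ closedBall x ρ)
    (hgb : ∀ z, ‖gradient ψ z‖ ≤ C₂) (hg0 : ∀ z, z ∉ ball x ρ → gradient ψ z = 0)
    (hvec : ∀ ξ ζ : E n, ‖V p ζ - V p ξ - (‖ξ‖ + ‖ζ‖) ^ (p - 2) • (ζ - ξ)‖ ≤
      C₃ * |p - 2| * (‖ξ‖ + ‖ζ‖) ^ (p - 2) * ‖ζ - ξ‖)
    (hI : IntegrableOn (fun z => kap p (sg u v z / S) *
      (‖gradient v z - gradient u z‖ / (v z - u z + t))) (ball x ρ)) :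
    -(C₂ * (1 + C₃)) * ∫ z in ball x ρ, kap p (sg u v z / S) *
      (‖gradient v z - gradient u z‖ / (v z - u z + t)) ≤
      ∫ z, ⟪gradient (fun y => Real.log (v y - u y + t)) z, gradient ψ z⟫ := by
  have hpos : ∀ z ∈ Ω, 0 < v z - u z + t := by
    intro z hz
    have := huv z hz
    linarith
  have hψ1 : ContDiff ℝ 1 ψ := hψ.of_le (by exact_mod_cast le_top)
  have hw : ContDiffOn ℝ 1 (fun z => v z - u z + t) Ω := (hv.1.sub hu.1).add contDiffOn_const
  have hlog : ContDiffOn ℝ 1 (fun y => Real.log (v y - u y + t)) Ω :=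
    hw.log fun z hz => (hpos z hz).ne'
  obtain ⟨I2, J2⟩ := test_nonneg hp hΩ hu hv huv ht hψ hc (hsup.trans hsub) hψ0
  have I1 : Integrable fun z =>
      ⟪gradient (fun y => Real.log (v y - u y + t)) z, gradient ψ z⟫ := by
    refine integrable_of hc (hsup.trans hsub)
      ((cont_grad hΩ hlog).inner (cont_grad hΩ hψ1.contDiffOn)) ?_
    intro z hz
    rw [grad_zero hz, inner_zero_right]
  have I3 : Integrable ((ball x ρ).indicator fun z => kap p (sg u v z / S) *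
      (‖gradient v z - gradient u z‖ / (v z - u z + t))) :=
    (integrable_indicator_iff measurableSet_ball).2 hI
  set T := (S ^ (p - 2))⁻¹ with hT
  have hT0 : 0 < T := inv_pos.2 (Real.rpow_pos_of_pos hS _)
  have key : ∀ z, T * ((v z - u z + t)⁻¹ *
      ⟪V p (gradient v z) - V p (gradient u z), gradient ψ z⟫) +
      -(C₂ * (1 + C₃)) * ((ball x ρ).indicator (fun z => kap p (sg u v z / S) *
      (‖gradient v z - gradient u z‖ / (v z - u z + t))) z) ≤
      ⟪gradient (fun y => Real.log (v y - u y + t)) z, gradient ψ z⟫ := by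
    intro z
    by_cases hz : z ∈ ball x ρ
    · have hzΩ : z ∈ Ω := hsub (ball_subset_closedBall hz)
      have hp0 := hpos z hzΩ
      rw [indicator_of_mem hz, grad_log hΩ hu.1 hv.1 hzΩ hp0, inner_smul_left]
      simp only [conj_trivial]
      set D := gradient v z - gradient u z with hD
      set a := V p (gradient v z) - V p (gradient u z) with ha
      have h1 := vec_bd hC₃ hS (gradient u z) (gradient v z)
        (hvec (gradient u z) (gradient v z))
      rw [← hD, ← ha, ← hT] at h1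
      have h2 : |⟪D - T • a, gradient ψ z⟫| ≤
          (1 + C₃) * (kap p (sg u v z / S) * ‖D‖) * C₂ := by
        refine (abs_real_inner_le_norm _ _).trans ?_
        exact mul_le_mul h1 (hgb z) (norm_nonneg _) ((norm_nonneg _).trans h1)
      have h3 : ⟪D - T • a, gradient ψ z⟫ = ⟪D, gradient ψ z⟫ - T * ⟪a, gradient ψ z⟫ := by
        rw [inner_sub_left, inner_smul_left]
        simp
      have h4 := (abs_le.1 h2).1
      rw [h3] at h4
      have h5 := mul_le_mul_of_nonneg_left h4 (inv_pos.2 hp0).le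
      rw [div_eq_inv_mul ‖D‖]
      linarith
    · rw [indicator_of_notMem hz, hg0 z hz]
      simp
  have h1 := integral_mono ((I2.const_mul T).add (I3.const_mul (-(C₂ * (1 + C₃))))) I1 key
  rw [integral_add' (I2.const_mul T) (I3.const_mul (-(C₂ * (1 + C₃)))),
    integral_const_mul, integral_const_mul, integral_indicator measurableSet_ball] at h1
  have h2 := mul_nonneg hT0.le J2
  linarith

theorem cs {X A Q : ℝ} (hA : 0 ≤ A) (hQ : 0 ≤ Q)
    (h : ∀ δ : ℝ, 0 < δ → 2 * X ≤ δ * A + Q / δ) : X ≤ Real.sqrt (A * Q) := by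
  by_contra hcon
  push Not at hcon
  have hX : 0 < X := (Real.sqrt_nonneg _).trans_lt hcon
  have h1 : A * Q < X ^ 2 := (Real.sqrt_lt' hX).1 hcon
  rcases hA.eq_or_lt with h0 | h0
  · have h2 := h ((Q + 1) / X) (by positivity)
    rw [← h0, mul_zero, zero_add] at h2
    have h3 : Q / ((Q + 1) / X) = Q * X / (Q + 1) := by
      rw [div_div_eq_mul_div]
    rw [h3, le_div_iff₀ (by linarith)] at h2
    nlinarith
  · have h2 := h (X / A) (by positivity)
    have h3 : X / A * A = X := by field_simp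
    have h4 : Q / (X / A) = A * Q / X := by
      rw [div_div_eq_mul_div, mul_comm]
    rw [h3, h4] at h2
    have h5 : X ≤ A * Q / X := by linarith
    rw [le_div_iff₀ hX] at h5
    nlinarith

theorem amgm {k N s₁ s₂ δ : ℝ} (hs : s₁ * s₂ = 1) (h1 : 0 ≤ s₁) (hδ : 0 < δ) :
    2 * (k * N) ≤ δ * (k ^ 2 * s₁) + (s₂ * N ^ 2) / δ := by
  have h2 : δ * (k ^ 2 * s₁) + (s₂ * N ^ 2) / δ - 2 * (k * N) =
      s₁ * δ * (k - N * s₂ / δ) ^ 2 + (1 - s₁ * s₂) * (s₂ * N ^ 2 / δ - 2 * (k * N)) := by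
    field_simp
    ring
  rw [hs, sub_self, zero_mul, add_zero] at h2
  have h3 : 0 ≤ s₁ * δ * (k - N * s₂ / δ) ^ 2 := by positivity
  linarith

theorem point {p S t : ℝ} {ξ ζ : E n} {s δ : ℝ} (hs : s = (‖ξ‖ + ‖ζ‖) / S)
    (hS : 0 < S) (hδ : 0 < δ) :
    2 * (kap p s * (‖ζ - ξ‖ / t)) ≤ δ * Kf p s + (s ^ (p - 2) * (‖ζ - ξ‖ / t) ^ 2) / δ := by
  have hs0 : 0 ≤ s := by rw [hs]; positivity
  rcases hs0.eq_or_lt with h0 | h0
  · have h1 : ‖ξ‖ + ‖ζ‖ = 0 := by
      rw [hs] at h0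
      rcases (div_eq_zero_iff.1 h0.symm) with h2 | h2
      · exact h2
      · exact absurd h2 hS.ne'
    have h2 : ‖ζ - ξ‖ = 0 := by
      have := norm_sub_le ζ ξ
      have := norm_nonneg (ζ - ξ)
      linarith
    rw [h2, zero_div, mul_zero, mul_zero, Kf_eq]
    have h3 : 0 ≤ s ^ (2 - p) := Real.rpow_nonneg hs0 _
    have h4 : 0 ≤ s ^ (p - 2) := Real.rpow_nonneg hs0 _
    positivity
  · rw [Kf_eq]
    refine amgm ?_ (Real.rpow_nonneg hs0 _) hδ
    rw [← Real.rpow_add h0]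
    simp

theorem meas_kap (p : ℝ) : Measurable (fun s : ℝ => kap p s) := by
  unfold kap
  have h1 : Measurable (fun s : ℝ => s ^ (p - 2)) := measurable_id.pow_const _
  exact (h1.const_mul _).add (continuous_abs.measurable.comp (h1.sub_const 1))

end lgs_

open lgs_ in
theorem p_LGS (hDCV : T_DCV) (hPSG : T_PSG) (hVEC : T_VEC) (hENG : T_ENG) : T_LGS := by
  intro n φ Φ hn hK
  obtain ⟨C₂, hC₂, hps⟩ := hPSG n φ Φ hK
  obtain ⟨C₃, e₃, hC₃, he₃, hvec⟩ := hVEC
  obtain ⟨C₄, e₄, hC₄, he₄, heng⟩ := hENG n hn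
  have hsC₄ : 0 < Real.sqrt C₄ := Real.sqrt_pos.2 hC₄
  refine ⟨2 ^ n * (C₂ * (1 + C₃)) * Real.sqrt C₄, min (min e₃ e₄) (1 / 2), by positivity,
    by positivity, ?_⟩
  intro p hp Ω u v hΩ hu hv huv x r t S A B hr ht hS hsub IB hB IA hA
  have hp3 : |p - 2| < e₃ := hp.trans_le ((min_le_left _ _).trans (min_le_left _ _))
  have hp4 : |p - 2| < e₄ := hp.trans_le ((min_le_left _ _).trans (min_le_right _ _))
  have hp1 : 1 < p := by
    have := abs_lt.1 (hp.trans_le (min_le_right _ _))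
    linarith
  have hpos : ∀ z ∈ Ω, 0 < v z - u z + t := by
    intro z hz
    have := huv z hz
    linarith
  have hsg0 : ∀ y, 0 ≤ sg u v y := fun y => add_nonneg (norm_nonneg _) (norm_nonneg _)
  have hSp : 0 < S ^ (p - 2) := Real.rpow_pos_of_pos hS _
  have e1 : ∀ y, (sg u v y / S) ^ (p - 2) = (S ^ (p - 2))⁻¹ * sg u v y ^ (p - 2) := by
    intro y
    rw [Real.div_rpow (hsg0 y) hS.le, div_eq_inv_mul]
  have hB0 : 0 ≤ B := by
    refine le_trans ?_ hB
    exact setIntegral_nonneg measurableSet_ball fun y _ =>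
      Real.rpow_nonneg (div_nonneg (hsg0 y) hS.le) _
  have hKf0 : ∀ y, 0 ≤ Kf p (sg u v y / S) := by
    intro y
    rw [Kf_eq]
    exact mul_nonneg (sq_nonneg _) (Real.rpow_nonneg (div_nonneg (hsg0 y) hS.le) _)
  have hA0 : 0 ≤ A := by
    refine le_trans ?_ hA
    exact setIntegral_nonneg measurableSet_ball fun y _ => hKf0 y
  -- the energy estimate
  have IB0 : IntegrableOn (fun y => sg u v y ^ (p - 2)) (ball x (2 * r)) := by
    have h : (fun y => sg u v y ^ (p - 2)) =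
        fun y => S ^ (p - 2) * (sg u v y / S) ^ (p - 2) := by
      funext y
      rw [e1, mul_inv_cancel_left₀ hSp.ne']
    rw [h]
    exact IB.const_mul _
  obtain ⟨J1, J2⟩ := heng p hp4 Ω u v hΩ hu hv huv x r t hr ht hsub IB0
  set N : E n → ℝ := fun y => ‖gradient v y - gradient u y‖ / (v y - u y + t) with hN
  have e2 : (fun y => (sg u v y / S) ^ (p - 2) * N y ^ 2) =
      fun y => (S ^ (p - 2))⁻¹ * (sg u v y ^ (p - 2) * N y ^ 2) := by
    funext y
    rw [e1, mul_assoc]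
  have J1' : IntegrableOn (fun y => (sg u v y / S) ^ (p - 2) * N y ^ 2) (ball x r) := by
    rw [e2]
    exact J1.const_mul _
  set Q := C₄ * (r ^ 2)⁻¹ * B with hQ
  have hQ0 : 0 ≤ Q := by positivity
  have J2' : ∫ y in ball x r, (sg u v y / S) ^ (p - 2) * N y ^ 2 ≤ Q := by
    rw [e2, integral_const_mul]
    have h1 : ∫ y in ball x (2 * r), (sg u v y / S) ^ (p - 2) =
        (S ^ (p - 2))⁻¹ * ∫ y in ball x (2 * r), sg u v y ^ (p - 2) := by
      rw [← integral_const_mul]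
      simp only [e1]
    rw [h1] at hB
    have h2 := mul_le_mul_of_nonneg_left J2 (inv_pos.2 hSp).le
    have h3 := mul_le_mul_of_nonneg_left hB (by positivity : 0 ≤ C₄ * (r ^ 2)⁻¹)
    refine h2.trans (le_trans (le_of_eq ?_) h3)
    ring
  -- integrability
  have hbΩ : ball x r ⊆ Ω := fun y hy => hsub (by
    rw [mem_closedBall]
    rw [mem_ball] at hy
    linarith)
  have hcbΩ : closedBall x r ⊆ Ω := fun y hy => hsub (by
    rw [mem_closedBall] at hy ⊢
    linarith)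
  have hcu := (cont_grad hΩ hu.1).mono hbΩ
  have hcv := (cont_grad hΩ hv.1).mono hbΩ
  have hσc : ContinuousOn (fun y => sg u v y / S) (ball x r) :=
    (hcu.norm.add hcv.norm).div_const S
  have hNc : ContinuousOn N (ball x r) := by
    refine ContinuousOn.div (hcv.sub hcu).norm ?_ fun z hz => (hpos z (hbΩ hz)).ne'
    exact ((hv.1.continuousOn.mono hbΩ).sub (hu.1.continuousOn.mono hbΩ)).add continuousOn_const
  have hm : AEStronglyMeasurable (fun y => kap p (sg u v y / S) * N y)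
      (volume.restrict (ball x r)) := by
    have h0 : AEMeasurable (fun y => sg u v y / S) (volume.restrict (ball x r)) :=
      hσc.aemeasurable measurableSet_ball
    have h1 : AEMeasurable (fun y => kap p (sg u v y / S)) (volume.restrict (ball x r)) :=
      (meas_kap p).comp_aemeasurable h0
    exact (h1.mul (hNc.aemeasurable measurableSet_ball)).aestronglyMeasurable
  have hpt : ∀ δ : ℝ, 0 < δ → ∀ y, 2 * (kap p (sg u v y / S) * N y) ≤
      δ * Kf p (sg u v y / S) + ((sg u v y / S) ^ (p - 2) * N y ^ 2) / δ := by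
    intro δ hδ y
    exact point rfl hS hδ
  have hN0 : ∀ y ∈ ball x r, 0 ≤ N y := fun y hy =>
    div_nonneg (norm_nonneg _) (hpos y (hbΩ hy)).le
  have hI : IntegrableOn (fun y => kap p (sg u v y / S) * N y) (ball x r) := by
    refine Integrable.mono' (IA.add J1') hm ?_
    refine (ae_restrict_iff' measurableSet_ball).2 (Eventually.of_forall fun y hy => ?_)
    have h1 := hpt 1 one_pos y
    have h2 : 0 ≤ kap p (sg u v y / S) * N y :=
      mul_nonneg (kap_nonneg (div_nonneg (hsg0 y) hS.le)) (hN0 y hy)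
    rw [Real.norm_of_nonneg h2]
    rw [div_one, one_mul] at h1
    change kap p (sg u v y / S) * N y ≤
      Kf p (sg u v y / S) + (sg u v y / S) ^ (p - 2) * N y ^ 2
    linarith
  set X := ∫ y in ball x r, kap p (sg u v y / S) * N y with hX
  have hX0 : 0 ≤ X := setIntegral_nonneg measurableSet_ball fun y hy =>
    mul_nonneg (kap_nonneg (div_nonneg (hsg0 y) hS.le)) (hN0 y hy)
  have hXle : X ≤ Real.sqrt (A * Q) := by
    refine cs hA0 hQ0 fun δ hδ => ?_
    have h1 : 2 * X ≤ ∫ y in ball x r, (δ * Kf p (sg u v y / S) +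
        ((sg u v y / S) ^ (p - 2) * N y ^ 2) / δ) := by
      rw [hX, ← integral_const_mul]
      exact integral_mono (hI.const_mul 2) ((IA.const_mul δ).add (J1'.div_const δ)) (hpt δ hδ)
    rw [integral_add (IA.const_mul δ) (J1'.div_const δ), integral_const_mul,
      integral_div] at h1
    refine h1.trans (add_le_add (mul_le_mul_of_nonneg_left hA hδ.le) ?_)
    exact div_le_div_of_nonneg_right J2' hδ.le
  have hsq : Real.sqrt (A * Q) = Real.sqrt C₄ * r⁻¹ * Real.sqrt (A * B) := by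
    have h1 : A * Q = C₄ * (r⁻¹ ^ 2 * (A * B)) := by
      rw [hQ, inv_pow]
      ring
    rw [h1, Real.sqrt_mul hC₄.le, Real.sqrt_mul (by positivity), Real.sqrt_sq (by positivity),
      mul_assoc]
  rw [hsq] at hXle
  -- the derivative
  have hlog : ContDiffOn ℝ 1 (fun y => Real.log (v y - u y + t)) Ω :=
    ((hv.1.sub hu.1).add contDiffOn_const).log fun z hz => (hpos z hz).ne'
  obtain ⟨D1, D2⟩ := hDCV n φ Φ hK Ω (fun y => Real.log (v y - u y + t)) x r hΩ hlog hcbΩ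
  have D3 := D2 (r / 2) (by linarith) (by linarith)
  set M := 2 ^ n / r ^ n * (C₂ * (1 + C₃) * X) with hM
  have hlow : ∀ ρ ∈ Icc (r / 2) r, -M ≤ -∫ y,
      ⟪gradient (fun y => Real.log (v y - u y + t)) (x + ρ • y), gradient Φ y⟫ := by
    rintro ρ ⟨hρ1, hρ2⟩
    have hρ : 0 < ρ := by linarith
    obtain ⟨s1, s2, s3, s4, s5, s6, s7⟩ := hps x ρ hρ
    have hbb : ball x ρ ⊆ ball x r := ball_subset_ball hρ2
    have h1 := inner_bd hp1 hΩ hu hv huv ht s1 s2 s4 hS hC₃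
      ((closedBall_subset_closedBall hρ2).trans hcbΩ) s3 s5 s6
      (fun ξ ζ => hvec n p ξ ζ hp3) (hI.mono_set hbb)
    have h2 := s7 (gradient (fun y => Real.log (v y - u y + t)))
    have h3 : ∫ z in ball x ρ, kap p (sg u v z / S) *
        (‖gradient v z - gradient u z‖ / (v z - u z + t)) ≤ X := by
      refine setIntegral_mono_set hI ?_ (Eventually.of_forall hbb)
      refine (ae_restrict_iff' measurableSet_ball).2 (Eventually.of_forall fun y hy => ?_)
      exact mul_nonneg (kap_nonneg (div_nonneg (hsg0 y) hS.le)) (hN0 y hy)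
    set J := ∫ y, ⟪gradient (fun y => Real.log (v y - u y + t)) (x + ρ • y), gradient Φ y⟫
    set G := ∫ z, ⟪gradient (fun y => Real.log (v y - u y + t)) z, gradient (ps Φ x ρ) z⟫
    have h4 : -(C₂ / ρ * (1 + C₃)) * X ≤ G := by
      refine le_trans ?_ h1
      have h5 : 0 ≤ C₂ / ρ * (1 + C₃) := by positivity
      have h6 := mul_le_mul_of_nonneg_left h3 h5
      linarith
    have h5 : -(C₂ * (1 + C₃) * X) ≤ ρ * G := by
      have h6 := mul_le_mul_of_nonneg_left h4 hρ.le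
      have h7 : ρ * (-(C₂ / ρ * (1 + C₃)) * X) = -(C₂ * (1 + C₃) * X) := by
        field_simp
      linarith
    have hρn : 0 < ρ ^ n := by positivity
    have h6 : ρ ^ n * J ≤ C₂ * (1 + C₃) * X := by linarith
    have h7 : r ^ n ≤ 2 ^ n * ρ ^ n := by
      rw [← mul_pow]
      exact pow_le_pow_left₀ hr.le (by linarith) n
    have h8 : J ≤ M := by
      by_cases hJ : J ≤ 0
      · exact hJ.trans (by positivity)
      · push Not at hJ
        rw [hM, div_mul_eq_mul_div, le_div_iff₀ (by positivity)]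
        calc J * r ^ n ≤ J * (2 ^ n * ρ ^ n) := mul_le_mul_of_nonneg_left h7 hJ.le
          _ = 2 ^ n * (ρ ^ n * J) := by ring
          _ ≤ 2 ^ n * (C₂ * (1 + C₃) * X) := mul_le_mul_of_nonneg_left h6 (by positivity)
    linarith
  have hint : IntervalIntegrable (fun ρ : ℝ => -∫ y,
      ⟪gradient (fun y => Real.log (v y - u y + t)) (x + ρ • y), gradient Φ y⟫)
      volume (r / 2) r := by
    refine ContinuousOn.intervalIntegrable ?_
    rw [uIcc_of_le (by linarith)]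
    exact (D1.mono (Icc_subset_Icc (by linarith) le_rfl)).neg
  have h1 := intervalIntegral.integral_mono_on (by linarith : r / 2 ≤ r)
    (intervalIntegrable_const (c := -M)) hint hlow
  rw [← D3, intervalIntegral.integral_const, smul_eq_mul] at h1
  have h2 : (r - r / 2) * M ≤
      2 ^ n * (C₂ * (1 + C₃)) * Real.sqrt C₄ * (r ^ n)⁻¹ * Real.sqrt (A * B) := by
    have h3 : (r - r / 2) * M = 2 ^ n * (r ^ n)⁻¹ * (C₂ * (1 + C₃)) * (r / 2 * X) := by
      rw [hM, div_eq_mul_inv]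
      ring
    have h4 : r / 2 * X ≤ Real.sqrt C₄ * Real.sqrt (A * B) := by
      have h5 := mul_le_mul_of_nonneg_left hXle (by positivity : 0 ≤ r / 2)
      have h6 : r / 2 * (Real.sqrt C₄ * r⁻¹ * Real.sqrt (A * B)) =
          1 / 2 * (Real.sqrt C₄ * Real.sqrt (A * B)) := by
        field_simp
      have h7 : 0 ≤ Real.sqrt C₄ * Real.sqrt (A * B) := by positivity
      linarith
    rw [h3]
    refine (mul_le_mul_of_nonneg_left h4 (by positivity)).trans (le_of_eq ?_)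
    ring
  linarith

end Pool.Agent.SCN
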