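import Pool.Agent.SCN.Targets

/-!
# SCN-TAIL: the measure of the set where the gradient is small
-/

set_option autoImplicit false

open Set MeasureTheory Filter Topology Metric
open scoped RealInnerProductSpace ENNReal

namespace Pool.Agent.SCN

open Pool.Agent.SCP (E PHarm V)

namespace TAIL_

variable {n : ℕ}

theorem meas_grad (u : E n → ℝ) : Measurable (gradient u) := by
  have h : Measurable (fderiv ℝ u) := measurable_fderiv ℝ u
  exact (InnerProductSpace.toDual ℝ (E n)).symm.continuous.measurable.comp h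

theorem meas_set (u : E n → ℝ) (t : ℝ) : MeasurableSet {y | ‖gradient u y‖ < t} :=
  measurableSet_lt (meas_grad u).norm measurable_const

theorem PB.mono {p : ℝ} {x z : E n} {r s : ℝ} {u : E n → ℝ} (h : PB p x r u)
    (hs : closedBall z s ⊆ closedBall x r) : PB p z s u := by
  obtain ⟨Ω, hΩ, hsub, hu⟩ := h
  exact ⟨Ω, hΩ, hs.trans hsub, hu⟩

theorem intg {p : ℝ} (hp : 0 ≤ p) {x : E n} {r : ℝ} {u : E n → ℝ} (h : PB p x r u) :
    IntegrableOn (fun y => ‖gradient u y‖ ^ p) (closedBall x r) := by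
  obtain ⟨Ω, hΩ, hsub, hu⟩ := h
  have hc : ContinuousOn (gradient u) (closedBall x r) :=
    (SCP.TEST_.continuousOn_gradient hΩ hu.1).mono hsub
  have hc2 : ContinuousOn (fun y => ‖gradient u y‖ ^ p) (closedBall x r) :=
    hc.norm.rpow_const (fun y _ => Or.inr hp)
  exact hc2.integrableOn_compact (isCompact_closedBall x r)

theorem en_nonneg (p : ℝ) (u : E n → ℝ) (x : E n) (r : ℝ) : 0 ≤ en p u x r := by
  unfold en
  exact integral_nonneg (fun y => by positivity)

theorem en_mono {p : ℝ} (hp : 0 ≤ p) {x z : E n} {r s : ℝ} {u : E n → ℝ} (h : PB p z s u)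
    (hsub : ball x r ⊆ ball z s) : en p u x r ≤ en p u z s := by
  unfold en
  refine setIntegral_mono_set ((intg hp h).mono_set ball_subset_closedBall) ?_
    hsub.eventuallyLE
  exact Eventually.of_forall (fun y => by positivity)

theorem mg_nonneg (p : ℝ) (u : E n → ℝ) (x : E n) {r : ℝ} (hr : 0 ≤ r) : 0 ≤ mg p u x r := by
  unfold mg
  have := en_nonneg p u x r
  positivity

theorem iter {p : ℝ} {u : E n → ℝ} {z : E n} {R : ℝ} {m : ℕ}
    (h : ∀ ρ : ℝ, 0 < ρ → ρ ≤ R → en p u z (4 * ρ) ≤ 2 ^ m * en p u z ρ) {r : ℝ} (hr : 0 < r)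
    (hrR : r ≤ R) (i : ℕ) : en p u z (4 * r) ≤ 2 ^ (m * (i + 1)) * en p u z (r / 4 ^ i) := by
  induction i with
  | zero =>
    simpa using h r hr hrR
  | succ i ih =>
    have h4 : (1 : ℝ) ≤ 4 ^ (i + 1) := one_le_pow₀ (by norm_num)
    have h1 := h (r / 4 ^ (i + 1)) (by positivity) ((div_le_self hr.le h4).trans hrR)
    have h2 : 4 * (r / 4 ^ (i + 1)) = r / 4 ^ i := by
      rw [pow_succ]
      field_simp
    rw [h2] at h1
    calc en p u z (4 * r) ≤ 2 ^ (m * (i + 1)) * en p u z (r / 4 ^ i) := ih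
      _ ≤ 2 ^ (m * (i + 1)) * (2 ^ m * en p u z (r / 4 ^ (i + 1))) := by gcongr
      _ = 2 ^ (m * (i + 1 + 1)) * en p u z (r / 4 ^ (i + 1)) := by
        rw [← mul_assoc, ← pow_add]
        congr 2

/-- lower bound for the size of the gradient at smaller scales -/
theorem mg_ge {p : ℝ} (hp : 1 ≤ p) {u : E n → ℝ} {x z : E n} {r s K : ℝ} (hr : 0 < r)
    (hs : 0 < s) (hsr : s ≤ r) (hK : 1 ≤ K) (h : en p u x r ≤ K * en p u z s) :
    mg p u x r ≤ K * mg p u z s := by
  have hp0 : 0 < p := by linarith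
  have he := en_nonneg p u x r
  have he' := en_nonneg p u z s
  unfold mg
  calc (en p u x r / r ^ n) ^ (1 / p) ≤ (K * (en p u z s / s ^ n)) ^ (1 / p) := by
        apply Real.rpow_le_rpow (by positivity) _ (by positivity)
        rw [← mul_div_assoc]
        apply div_le_div₀ (by positivity) h (by positivity)
        exact pow_le_pow_left₀ hs.le hsr n
    _ = K ^ (1 / p) * (en p u z s / s ^ n) ^ (1 / p) := by
        rw [Real.mul_rpow (by positivity) (by positivity)]
    _ ≤ K * (en p u z s / s ^ n) ^ (1 / p) := by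
        apply mul_le_mul_of_nonneg_right _ (by positivity)
        calc K ^ (1 / p) ≤ K ^ (1 : ℝ) := by
              apply Real.rpow_le_rpow_of_exponent_le hK
              rw [div_le_one hp0]
              exact hp
          _ = K := Real.rpow_one K

theorem vball (hn : 1 ≤ n) (x : E n) {r : ℝ} (hr : 0 ≤ r) :
    volume.real (ball x r) = r ^ n * volume.real (ball (0 : E n) 1) := by
  have : Nonempty (Fin n) := ⟨⟨0, hn⟩⟩
  unfold Measure.real
  rw [Measure.addHaar_ball volume x hr, ENNReal.toReal_mul, ENNReal.toReal_ofReal (by positivity)]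
  simp

theorem om_pos : 0 < volume.real (ball (0 : E n) 1) := by
  unfold Measure.real
  exact ENNReal.toReal_pos (measure_ball_pos volume _ one_pos).ne' measure_ball_lt_top.ne

/-- the lower bound of the size of the gradient from the measure of a superlevel set -/
theorem low (hn : 1 ≤ n) {p : ℝ} (hp : 1 ≤ p) {u : E n → ℝ} {z : E n} {ρ T : ℝ} (hρ : 0 < ρ)
    (hT : 0 ≤ T) (hPB : PB p z (5 * ρ) u)
    (h : volume.real ({y | ‖gradient u y‖ < T} ∩ ball z (2 * ρ)) <
      1 / 2 * volume.real (ball z (2 * ρ))) :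
    min 1 (volume.real (ball (0 : E n) 1) / (2 * 5 ^ n)) * T ≤ mg p u z (5 * ρ) := by
  have hp0 : 0 < p := by linarith
  have hω := om_pos (n := n)
  set ω := volume.real (ball (0 : E n) 1) with hωd
  set F : Set (E n) := {y | ‖gradient u y‖ < T} with hF
  have hFm : MeasurableSet F := meas_set u T
  have h1 : volume.real (ball z (2 * ρ) ∩ F) + volume.real (ball z (2 * ρ) \ F) =
      volume.real (ball z (2 * ρ)) := measureReal_inter_add_sdiff hFm
  rw [inter_comm] at h
  have h2 : ω * ρ ^ n / 2 ≤ volume.real (ball z (2 * ρ) \ F) := by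
    have h3 : volume.real (ball z (2 * ρ)) = (2 * ρ) ^ n * ω := vball hn z (by positivity)
    have h4 : ρ ^ n * ω ≤ (2 * ρ) ^ n * ω := by
      apply mul_le_mul_of_nonneg_right _ hω.le
      apply pow_le_pow_left₀ hρ.le
      linarith
    nlinarith
  have hint := intg (n := n) hp0.le hPB
  have hsub : ball z (2 * ρ) \ F ⊆ ball z (5 * ρ) :=
    sdiff_subset.trans (ball_subset_ball (by linarith))
  have h5 : T ^ p * volume.real (ball z (2 * ρ) \ F) ≤ en p u z (5 * ρ) := by
    have hA : MeasurableSet (ball z (2 * ρ) \ F) := measurableSet_ball.diff hFm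
    have hfin : volume (ball z (2 * ρ) \ F) ≠ ∞ :=
      ((measure_mono sdiff_subset).trans_lt measure_ball_lt_top).ne
    calc T ^ p * volume.real (ball z (2 * ρ) \ F)
        ≤ ∫ y in ball z (2 * ρ) \ F, ‖gradient u y‖ ^ p := by
          refine setIntegral_ge_of_const_le_real hA hfin ?_ ?_
          · intro y hy
            have : T ≤ ‖gradient u y‖ := not_lt.mp hy.2
            exact Real.rpow_le_rpow hT this hp0.le
          · exact hint.mono_set (hsub.trans ball_subset_closedBall)
      _ ≤ en p u z (5 * ρ) := by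
          unfold en
          refine setIntegral_mono_set (hint.mono_set ball_subset_closedBall) ?_
            hsub.eventuallyLE
          exact Eventually.of_forall (fun y => by positivity)
  have hTp : 0 ≤ T ^ p := by positivity
  have h6 : T ^ p * (ω / (2 * 5 ^ n)) ≤ en p u z (5 * ρ) / (5 * ρ) ^ n := by
    rw [le_div_iff₀ (by positivity)]
    calc T ^ p * (ω / (2 * 5 ^ n)) * (5 * ρ) ^ n = T ^ p * (ω * ρ ^ n / 2) := by
          rw [mul_pow]
          field_simp
      _ ≤ T ^ p * volume.real (ball z (2 * ρ) \ F) := by gcongr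
      _ ≤ _ := h5
  have hc : 0 < ω / (2 * 5 ^ n) := by positivity
  have h7 : min 1 (ω / (2 * 5 ^ n)) ≤ (ω / (2 * 5 ^ n)) ^ (1 / p) := by
    rcases le_total 1 (ω / (2 * 5 ^ n)) with h8 | h8
    · rw [min_eq_left h8]
      exact Real.one_le_rpow h8 (by positivity)
    · rw [min_eq_right h8]
      calc ω / (2 * 5 ^ n) = (ω / (2 * 5 ^ n)) ^ (1 : ℝ) := (Real.rpow_one _).symm
        _ ≤ (ω / (2 * 5 ^ n)) ^ (1 / p) := by
          apply Real.rpow_le_rpow_of_exponent_ge hc h8
          rw [div_le_one hp0]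
          exact hp
  unfold mg
  calc min 1 (ω / (2 * 5 ^ n)) * T ≤ (ω / (2 * 5 ^ n)) ^ (1 / p) * T := by gcongr
    _ = (ω / (2 * 5 ^ n)) ^ (1 / p) * (T ^ p) ^ (1 / p) := by
        rw [← Real.rpow_mul hT, mul_one_div, div_self hp0.ne', Real.rpow_one]
    _ = (T ^ p * (ω / (2 * 5 ^ n))) ^ (1 / p) := by
        rw [Real.mul_rpow hTp hc.le, mul_comm]
    _ ≤ (en p u z (5 * ρ) / (5 * ρ) ^ n) ^ (1 / p) := by
        apply Real.rpow_le_rpow (by positivity) h6 (by positivity)

/-- selection of the radius -/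
theorem sel {p : ℝ} {u : E n → ℝ} {z : E n} {s T : ℝ} (hs : 0 < s) (hPB : PB p z s u)
    (hz : ‖gradient u z‖ < T)
    (h : volume.real ({y | ‖gradient u y‖ < T} ∩ ball z s) < 1 / 2 * volume.real (ball z s)) :
    ∃ ρ : ℝ, 0 < ρ ∧ ρ ≤ s / 2 ∧
      1 / 2 * volume.real (ball z ρ) ≤ volume.real ({y | ‖gradient u y‖ < T} ∩ ball z ρ) ∧
      volume.real ({y | ‖gradient u y‖ < T} ∩ ball z (2 * ρ)) <
        1 / 2 * volume.real (ball z (2 * ρ)) := by
  classical
  set F : Set (E n) := {y | ‖gradient u y‖ < T} with hF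
  have hnb : F ∈ 𝓝 z := by
    obtain ⟨Ω, hΩ, hsub, hu⟩ := hPB
    have hzΩ : z ∈ Ω := hsub (mem_closedBall_self hs.le)
    have hc : ContinuousAt (gradient u) z :=
      (SCP.TEST_.continuousOn_gradient hΩ hu.1).continuousAt (hΩ.mem_nhds hzΩ)
    exact hc.norm.eventually_lt continuousAt_const hz
  obtain ⟨ε, hε, hεF⟩ := Metric.mem_nhds_iff.mp hnb
  have hex : ∃ j : ℕ, 1 / 2 * volume.real (ball z (s / 2 ^ j)) ≤
      volume.real (F ∩ ball z (s / 2 ^ j)) := by
    obtain ⟨j, hj⟩ := exists_pow_lt_of_lt_one (show 0 < ε / s by positivity)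
      (show (1 / 2 : ℝ) < 1 by norm_num)
    refine ⟨j, ?_⟩
    have h1 : s / 2 ^ j ≤ ε := by
      rw [lt_div_iff₀ hs] at hj
      have h2 : (1 / 2 : ℝ) ^ j * s = s / 2 ^ j := by
        rw [one_div, inv_pow, inv_mul_eq_div]
      linarith
    have h2 : F ∩ ball z (s / 2 ^ j) = ball z (s / 2 ^ j) :=
      inter_eq_right.mpr ((ball_subset_ball h1).trans hεF)
    rw [h2]
    have := measureReal_nonneg (μ := (volume : Measure (E n))) (s := ball z (s / 2 ^ j))
    linarith
  have h1 := Nat.find_spec hex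
  have h2 : Nat.find hex ≠ 0 := by
    intro h0
    rw [h0, pow_zero, div_one] at h1
    linarith
  obtain ⟨i, hi⟩ := Nat.exists_eq_succ_of_ne_zero h2
  have h3 := Nat.find_min hex (show i < Nat.find hex by omega)
  rw [hi] at h1
  have h4 : 2 * (s / 2 ^ (i + 1)) = s / 2 ^ i := by
    rw [pow_succ]
    field_simp
  refine ⟨s / 2 ^ (i + 1), by positivity, ?_, h1, ?_⟩
  · have h5 : (1 : ℝ) ≤ 2 ^ i := one_le_pow₀ (by norm_num)
    have h6 : s / 2 ^ i ≤ s := div_le_self hs.le h5
    linarith
  · rw [h4]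
    exact not_le.mp h3

/-- the covering step -/
theorem cover {F F' D D' : Set (E n)} (hF : MeasurableSet F) {M : ℝ}
    (h : ∀ z ∈ F' ∩ D', ∃ ρ : ℝ, 0 < ρ ∧ ρ ≤ M ∧ ball z ρ ⊆ D ∧
      volume.real (F' ∩ ball z (5 * ρ)) ≤ 1 / 2 * volume.real (F ∩ ball z ρ)) :
    volume (F' ∩ D') ≤ ENNReal.ofReal (1 / 2) * volume (F ∩ D) := by
  choose! ρ h0 h1 h2 h3 using h
  obtain ⟨w, hwt, hdis, hcov⟩ := Vitali.exists_disjoint_subfamily_covering_enlargement_closedBall
    (F' ∩ D') (fun z => z) ρ M h1 4 (by norm_num)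
  have hcount : w.Countable := by
    refine hdis.countable_of_nonempty_interior fun z hz => ?_
    exact ⟨z, interior_mono ball_subset_closedBall
      (by rw [isOpen_ball.interior_eq]; exact mem_ball_self (h0 z (hwt hz)))⟩
  have hsub : F' ∩ D' ⊆ ⋃ z ∈ w, F' ∩ ball z (5 * ρ z) := by
    intro a ha
    obtain ⟨b, hb, hab⟩ := hcov a ha
    have h4 : a ∈ closedBall b (4 * ρ b) := hab (mem_closedBall_self (h0 a ha).le)
    have h5 : 0 < ρ b := h0 b (hwt hb)
    refine mem_biUnion hb ⟨ha.1, ?_⟩
    exact closedBall_subset_ball (by linarith) h4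
  calc volume (F' ∩ D') ≤ volume (⋃ z ∈ w, F' ∩ ball z (5 * ρ z)) := measure_mono hsub
    _ ≤ ∑' z : w, volume (F' ∩ ball (z : E n) (5 * ρ z)) := measure_biUnion_le _ hcount _
    _ ≤ ∑' z : w, ENNReal.ofReal (1 / 2) * volume (F ∩ ball (z : E n) (ρ z)) := by
        refine ENNReal.tsum_le_tsum fun z => ?_
        have h6 := h3 z (hwt z.2)
        have f1 : volume (F' ∩ ball (z : E n) (5 * ρ z)) ≠ ∞ :=
          ((measure_mono inter_subset_right).trans_lt measure_ball_lt_top).ne
        have f2 : volume (F ∩ ball (z : E n) (ρ z)) ≠ ∞ :=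
          ((measure_mono inter_subset_right).trans_lt measure_ball_lt_top).ne
        rw [← ENNReal.ofReal_toReal f1, ← ENNReal.ofReal_toReal f2,
          ← ENNReal.ofReal_mul (by norm_num)]
        exact ENNReal.ofReal_le_ofReal h6
    _ = ENNReal.ofReal (1 / 2) * ∑' z : w, volume (F ∩ ball (z : E n) (ρ z)) :=
        ENNReal.tsum_mul_left
    _ = ENNReal.ofReal (1 / 2) * volume (⋃ z ∈ w, F ∩ ball z (ρ z)) := by
        rw [measure_biUnion hcount]
        · intro a ha b hb hab
          exact (hdis ha hb hab).mono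
            (inter_subset_right.trans ball_subset_closedBall)
            (inter_subset_right.trans ball_subset_closedBall)
        · intro b _
          exact hF.inter measurableSet_ball
    _ ≤ ENNReal.ofReal (1 / 2) * volume (F ∩ D) := by
        gcongr
        refine iUnion₂_subset fun z hz => ?_
        exact inter_subset_inter_right F (h2 z (hwt hz))

end TAIL_

open TAIL_ in
theorem p_TAIL (h_D3C : T_D3C) : T_TAIL := by
  intro n m hn
  obtain ⟨c₀, e₀, hc₀, he₀, hD0⟩ := h_D3C n m (1 / (4 * 5 ^ n)) hn (by positivity)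
  have hω := om_pos (n := n)
  obtain ⟨c, hc, hc1, hcc⟩ : ∃ c : ℝ, 0 < c ∧ c ≤ 1 ∧ c ≤ c₀ :=
    ⟨min c₀ 1, lt_min hc₀ one_pos, min_le_right _ _, min_le_left _ _⟩
  -- the real version of the hypothesis
  have hD : ∀ p : ℝ, |p - 2| < e₀ → ∀ (u : E n → ℝ) (z : E n) (s T : ℝ), 0 < s →
      PB p z (4 * s) u → en p u z (4 * s) ≤ 2 ^ m * en p u z s → 0 < en p u z s →
      T ≤ c * mg p u z s →
      volume.real ({y | ‖gradient u y‖ < T} ∩ ball z s) ≤
        1 / (4 * 5 ^ n) * volume.real (ball z s) := by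
    intro p hp u z s T hs hPB hdb hpos hT
    have h1 := hD0 p hp u z s hs hPB hdb hpos
    have h2 : volume ({y | ‖gradient u y‖ < T} ∩ ball z s) ≤
        ENNReal.ofReal (1 / (4 * 5 ^ n)) * volume (ball z s) := by
      refine (measure_mono ?_).trans h1
      intro y hy
      refine ⟨hy.2, ?_⟩
      have h3 : ‖gradient u y‖ < T := hy.1
      have h4 := mg_nonneg p u z hs.le
      have h5 : c * mg p u z s ≤ c₀ * mg p u z s := by gcongr
      exact h3.trans_le (hT.trans h5)
    unfold Measure.real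
    have h3 := ENNReal.toReal_mono
      (ENNReal.mul_ne_top ENNReal.ofReal_ne_top measure_ball_lt_top.ne) h2
    rwa [ENNReal.toReal_mul, ENNReal.toReal_ofReal (by positivity)] at h3
  obtain ⟨q, hq0, hq1, hq2, hq3⟩ : ∃ q : ℝ, 0 < q ∧ q ≤ c * (2 ^ (3 * m))⁻¹ ∧
      q ≤ c * min 1 (volume.real (ball (0 : E n) 1) / (2 * 5 ^ n)) ∧ q ≤ 1 / 2 := by
    have a1 : 0 < c * ((2 : ℝ) ^ (3 * m))⁻¹ := by positivity
    have a2 : 0 < c * min 1 (volume.real (ball (0 : E n) 1) / (2 * 5 ^ n)) := by
      have : 0 < min 1 (volume.real (ball (0 : E n) 1) / (2 * 5 ^ n)) :=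
        lt_min one_pos (by positivity)
      positivity
    exact ⟨min (c * (2 ^ (3 * m))⁻¹) (min (c * min 1 (volume.real (ball (0 : E n) 1) /
      (2 * 5 ^ n))) (1 / 2)), lt_min a1 (lt_min a2 (by norm_num)), min_le_left _ _,
      (min_le_right _ _).trans (min_le_left _ _), (min_le_right _ _).trans (min_le_right _ _)⟩
  refine ⟨q, min e₀ (1 / 2), hq0, by linarith, lt_min he₀ (by norm_num), ?_⟩
  intro p hp u x R hDbl r hr hrR
  have hp1 : |p - 2| < e₀ := hp.trans_le (min_le_left _ _)
  have hp2 : |p - 2| < 1 / 2 := hp.trans_le (min_le_right _ _)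
  have hp3 : 1 ≤ p := by
    rw [abs_lt] at hp2
    linarith
  obtain ⟨hR, hPB, hdb⟩ := hDbl
  set S := mg p u x r with hS
  have hS0 : 0 ≤ S := mg_nonneg p u x hr.le
  have key : ∀ k : ℕ, volume ({y | ‖gradient u y‖ < q ^ (k + 1) * S} ∩
      ball x (r * (1 + (1 / 2) ^ k))) ≤ ENNReal.ofReal ((1 / 2) ^ k) * volume (ball x (2 * r)) := by
    intro k
    induction k with
    | zero =>
      rw [pow_zero, ENNReal.ofReal_one, one_mul]
      refine measure_mono (inter_subset_right.trans ?_)
      apply ball_subset_ball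
      linarith
    | succ k ih =>
      have hstep : volume ({y | ‖gradient u y‖ < q ^ (k + 1 + 1) * S} ∩
          ball x (r * (1 + (1 / 2) ^ (k + 1)))) ≤ ENNReal.ofReal (1 / 2) *
          volume ({y | ‖gradient u y‖ < q ^ (k + 1) * S} ∩ ball x (r * (1 + (1 / 2) ^ k))) := by
        refine cover (meas_set u _) (M := r) ?_
        rintro z ⟨hz1, hz2⟩
        have hz1' : ‖gradient u z‖ < q ^ (k + 1 + 1) * S := hz1
        rw [mem_ball] at hz2
        have hk1 : (1 / 2 : ℝ) ^ (k + 1) ≤ 1 / 2 := by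
          rw [pow_succ]
          have : (1 / 2 : ℝ) ^ k ≤ 1 := pow_le_one₀ (by norm_num) (by norm_num)
          linarith
        have hz3 : dist z x < 3 / 2 * r := by nlinarith
        have hzR : z ∈ closedBall x R := by
          rw [mem_closedBall]
          linarith
        have hdz := hdb z hzR
        have hPBz : ∀ s : ℝ, s ≤ 4 * R → PB p z s u := by
          intro s hs
          rw [mem_closedBall] at hzR
          exact PB.mono hPB (closedBall_subset_closedBall' (by linarith))
        have hen : en p u x r ≤ en p u z (4 * r) := by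
          refine en_mono (by linarith) (hPBz _ (by linarith)) (ball_subset_ball' ?_)
          rw [dist_comm]
          linarith
        have hit := iter (fun ρ a b => (hdz ρ a b).1) hr (by linarith) (k + 2)
        obtain ⟨s, hs⟩ : ∃ s : ℝ, s = r / 4 ^ (k + 2) := ⟨_, rfl⟩
        rw [← hs] at hit
        have hs0 : 0 < s := by
          rw [hs]
          positivity
        have hs1 : s ≤ r / 16 := by
          rw [hs]
          apply div_le_div_of_nonneg_left hr.le (by norm_num)
          rw [pow_add]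
          have : (1 : ℝ) ≤ 4 ^ k := one_le_pow₀ (by norm_num)
          linarith
        have hs2 : s ≤ r * (1 / 2) ^ (k + 1) := by
          rw [hs, div_eq_mul_inv, one_div, inv_pow]
          apply mul_le_mul_of_nonneg_left _ hr.le
          apply inv_anti₀ (by positivity)
          calc (2 : ℝ) ^ (k + 1) ≤ 4 ^ (k + 1) :=
                pow_le_pow_left₀ (by norm_num) (by norm_num) _
            _ ≤ 4 ^ (k + 2) := pow_le_pow_right₀ (by norm_num) (by omega)
        have hK : (1 : ℝ) ≤ 2 ^ (m * (k + 2 + 1)) := one_le_pow₀ (by norm_num)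
        have hmg := mg_ge hp3 hr hs0 (by linarith) hK (hen.trans hit)
        have hqk : q ^ (k + 1) ≤ c * (2 ^ (m * (k + 2 + 1)))⁻¹ := by
          calc q ^ (k + 1) ≤ (c * (2 ^ (3 * m))⁻¹) ^ (k + 1) := pow_le_pow_left₀ hq0.le hq1 _
            _ = c ^ (k + 1) * (2 ^ (3 * m * (k + 1)))⁻¹ := by
                rw [mul_pow, inv_pow, ← pow_mul]
            _ ≤ c * (2 ^ (m * (k + 2 + 1)))⁻¹ := by
                apply mul_le_mul _ _ (by positivity) hc.le
                · exact pow_le_of_le_one hc.le hc1 (by omega)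
                · apply inv_anti₀ (by positivity)
                  apply pow_le_pow_right₀ (by norm_num)
                  nlinarith [Nat.zero_le (m * k)]
        have hT : q ^ (k + 1) * S ≤ c * mg p u z s := by
          have hm0 := mg_nonneg p u z hs0.le
          calc q ^ (k + 1) * S ≤ c * (2 ^ (m * (k + 2 + 1)))⁻¹ *
                (2 ^ (m * (k + 2 + 1)) * mg p u z s) := by
                apply mul_le_mul hqk hmg hS0 (by positivity)
            _ = c * mg p u z s := by
                field_simp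
        have hb := hD p hp1 u z s (q ^ (k + 1) * S) hs0 (hPBz _ (by linarith))
          (hdz s hs0 (by linarith)).1 (hdz s hs0 (by linarith)).2 hT
        have hvs : 0 < volume.real (ball z s) := by
          rw [vball hn z hs0.le]
          positivity
        have h5n : (1 : ℝ) ≤ 5 ^ n := one_le_pow₀ (by norm_num)
        have hη : 1 / (4 * 5 ^ n) ≤ (1 / 4 : ℝ) := by
          apply one_div_le_one_div_of_le (by norm_num)
          linarith
        have hhalf : volume.real ({y | ‖gradient u y‖ < q ^ (k + 1) * S} ∩ ball z s) <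
            1 / 2 * volume.real (ball z s) := by
          refine hb.trans_lt ?_
          nlinarith
        have hqS : q ^ (k + 1 + 1) * S = q * (q ^ (k + 1) * S) := by
          rw [pow_succ]
          ring
        have hTn : 0 ≤ q ^ (k + 1) * S := by positivity
        have hz4 : ‖gradient u z‖ < q ^ (k + 1) * S := by
          rw [hqS] at hz1'
          nlinarith
        obtain ⟨ρ, hρ, hρs, hρ1, hρ2⟩ := sel hs0 (hPBz _ (by linarith)) hz4 hhalf
        refine ⟨ρ, hρ, by linarith, ball_subset_ball' ?_, ?_⟩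
        · have : (1 / 2 : ℝ) ^ (k + 1) = (1 / 2) ^ k * (1 / 2) := pow_succ _ _
          nlinarith
        · have hlow := low hn hp3 hρ hTn (hPBz _ (by linarith)) hρ2
          have hT2 : q ^ (k + 1 + 1) * S ≤ c * mg p u z (5 * ρ) := by
            rw [hqS]
            calc q * (q ^ (k + 1) * S) ≤ c * min 1 (volume.real (ball (0 : E n) 1) /
                  (2 * 5 ^ n)) * (q ^ (k + 1) * S) := by gcongr
              _ = c * (min 1 (volume.real (ball (0 : E n) 1) /
                  (2 * 5 ^ n)) * (q ^ (k + 1) * S)) := by ring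
              _ ≤ c * mg p u z (5 * ρ) := by gcongr
          have hb2 := hD p hp1 u z (5 * ρ) (q ^ (k + 1 + 1) * S) (by positivity)
            (hPBz _ (by linarith)) (hdz (5 * ρ) (by positivity) (by linarith)).1
            (hdz (5 * ρ) (by positivity) (by linarith)).2 hT2
          refine hb2.trans ?_
          rw [vball hn z hρ.le] at hρ1
          rw [vball hn z (by positivity), mul_pow]
          have : 1 / (4 * 5 ^ n) * (5 ^ n * ρ ^ n * volume.real (ball (0 : E n) 1)) =
              1 / 4 * (ρ ^ n * volume.real (ball (0 : E n) 1)) := by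
            field_simp
          rw [this]
          linarith
      calc _ ≤ _ := hstep
        _ ≤ ENNReal.ofReal (1 / 2) * (ENNReal.ofReal ((1 / 2) ^ k) * volume (ball x (2 * r))) := by
            gcongr
        _ = ENNReal.ofReal ((1 / 2) ^ (k + 1)) * volume (ball x (2 * r)) := by
            rw [← mul_assoc, ← ENNReal.ofReal_mul (by norm_num), ← pow_succ']
  intro k
  refine (measure_mono ?_).trans (key k)
  intro y hy
  refine ⟨hy.2, ball_subset_ball ?_ hy.1⟩
  have : 0 < r * (1 / 2 : ℝ) ^ k := by positivity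
  linarith

end Pool.Agent.SCN
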