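import Pool.Agent.SCN.Defs

/-! # Strong comparison for `p`-harmonic functions, `p` near 2: targets

General remarks. `E n`, `PHarm`, `V` are from `Pool.Agent.SCP`; `weak` (in Defs) is the weak equation
with `C¹` test functions; `SCP.mono` is the (strict) monotonicity and continuity of `V`, and
`SCP.PHarm.mono`, `SCP.PHarm.add_const` are in `Pool.Agent.SCP.Core`. In all targets `u`, `v` are `C¹`
near the closed ball in question, so all integrands are continuous (bounded) there unless negative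
powers of the gradient occur. The limit functions are harmonic in `ball 0 (13/4)`; restrict to
`ball 0 3` by monotonicity in the set where needed.
-/

set_option autoImplicit false

open Set MeasureTheory Filter Topology Metric
open scoped RealInnerProductSpace

namespace Pool.Agent.SCN

open Pool.Agent.SCP (E PHarm V)

/-! ## Part A: kernel and calculus -/

/-- **KER** (kernel, about 80 lines). `χ t = Real.smoothTransition (1 - t)` (smooth, `> 0` for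
`t < 1`, `= 0` for `t ≥ 1`), `X t = -(1/2) ∫ s in t..1, χ s` (so `X' = χ/2`, `X` is smooth because
its derivative is, `X = 0` on `[1,∞)`, `X < 0` on `(-∞,1)`). `φ₀ y = χ (‖y‖²)`, `Φ₀ y = X (‖y‖²)`:
`∇Φ₀(y) = 2 X'(‖y‖²) y = φ₀(y) y`. Divide both by `∫ φ₀ > 0`. -/
def T_KER : Prop := ∀ n : ℕ, 1 ≤ n → ∃ φ Φ : E n → ℝ, Ker φ Φ

/-- **DCV** (derivative of the average, about 120 lines). For `0 ≤ ρ ≤ b` the points `x + ρ y`,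
`‖y‖ ≤ 1`, are in the compact set `closedBall x b ⊆ Ω`, on which `f` is `C¹`. So `ρ ↦ cv φ ρ f x` is
continuous on `[0,b]` with derivative `∫ φ(y) ⟪∇f(x+ρy), y⟫ dy = ∫ ⟪∇f(x+ρy), ∇Φ(y)⟫ dy` in `(0,b)`
(differentiation under the integral sign: `hasDerivAt_integral_of_dominated_loc_of_deriv_le`; or
first `f(x+by) - f(x+ay) = ∫ ρ in a..b, ⟪∇f(x+ρy), y⟫` for fixed `y` and then Fubini, which is
easier), continuous in `ρ` by dominated convergence. -/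
def T_DCV : Prop := ∀ (n : ℕ) (φ Φ : E n → ℝ), Ker φ Φ → ∀ (Ω : Set (E n)) (f : E n → ℝ) (x : E n)
  (b : ℝ), IsOpen Ω → ContDiffOn ℝ 1 f Ω → closedBall x b ⊆ Ω →
    ContinuousOn (fun ρ : ℝ => ∫ y, ⟪gradient f (x + ρ • y), gradient Φ y⟫) (Icc 0 b) ∧
    ∀ a : ℝ, 0 ≤ a → a ≤ b → cv φ a f x - cv φ b f x =
      ∫ ρ in a..b, -∫ y, ⟪gradient f (x + ρ • y), gradient Φ y⟫

/-- **PSG** (the test function, about 80 lines). `∇(ps Φ x ρ)(z) = -ρ⁻¹ (∇Φ)((z-x)/ρ)`, and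
`‖∇Φ(y)‖ = φ(y) ‖y‖` is bounded and `0` for `‖y‖ ≥ 1`. Last item: substitution `z = x + ρ y`,
`dz = ρ^n dy` (`Measure.setIntegral_comp_smul`, `integral_comp_smul`, `integral_add_left_eq_self`;
`Module.finrank ℝ (E n) = n`). -/
def T_PSG : Prop := ∀ (n : ℕ) (φ Φ : E n → ℝ), Ker φ Φ → ∃ C : ℝ, 0 < C ∧
  ∀ (x : E n) (ρ : ℝ), 0 < ρ → ContDiff ℝ (⊤ : ℕ∞) (ps Φ x ρ) ∧ HasCompactSupport (ps Φ x ρ) ∧
    tsupport (ps Φ x ρ) ⊆ closedBall x ρ ∧ (∀ z, 0 ≤ ps Φ x ρ z) ∧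
    (∀ z, ‖gradient (ps Φ x ρ) z‖ ≤ C / ρ) ∧
    (∀ z, z ∉ ball x ρ → gradient (ps Φ x ρ) z = 0) ∧
    ∀ F : E n → E n, ρ ^ n * ∫ y, ⟪F (x + ρ • y), gradient Φ y⟫ =
      -(ρ * ∫ z, ⟪F z, gradient (ps Φ x ρ) z⟫)

/-- **WAV** (about 30 lines; uses PSG, `weak`). By PSG with `F = V p ∘ ∇u` and `weak` with the test
function `ps Φ x ρ`. -/
def T_WAV : Prop := ∀ (n : ℕ) (φ Φ : E n → ℝ), Ker φ Φ → ∀ (p : ℝ) (u : E n → ℝ) (x : E n) (ρ : ℝ),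
  1 < p → 0 < ρ → PB p x ρ u → ∫ y, ⟪V p (gradient u (x + ρ • y)), gradient Φ y⟫ = 0

/-- **POI** (Poincaré inequality with a double integral, about 180 lines). For `y, z` in the ball
`B`: `|f y - f z| ≤ 2r ∫ t in 0..1, ‖∇f((1-t)y + tz)‖`. By symmetry (`t ↔ 1 - t`, `y ↔ z`) it is
enough to integrate over `t ∈ [1/2, 1]` twice; for fixed `y`, `t ≥ 1/2` the map
`z ↦ (1-t)y + tz` maps `B` into `B` with Jacobian `t^n ≥ 2^(-n)`, so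
`∫ z in B, ‖∇f((1-t)y+tz)‖ ≤ 2^n ∫ B, ‖∇f‖`. Total `≤ 2 * 2r * vol B * 2^n * ∫ ‖∇f‖`,
`vol B = vol B₁ * r^n`. (With `ENNReal` integrals no integrability is needed.) -/
def T_POI : Prop := ∀ n : ℕ, ∃ C : ℝ, 0 < C ∧ ∀ (Ω : Set (E n)) (f : E n → ℝ) (x : E n) (r : ℝ),
  IsOpen Ω → ContDiffOn ℝ 1 f Ω → 0 < r → closedBall x r ⊆ Ω →
    ∫ y in ball x r, ∫ z in ball x r, |f y - f z| ≤
      C * r ^ (n + 1) * ∫ y in ball x r, ‖gradient f y‖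

/-- **AAS** (Arzelà–Ascoli, about 100 lines). Work in `BoundedContinuousFunction` or
`ContinuousMap` on the compact space `closedBall 0 R`
(`BoundedContinuousFunction.arzela_ascoli`), or by hand with a countable dense subset and the
diagonal method. -/
def T_AAS : Prop := ∀ (n : ℕ) (R A : ℝ) (f : ℕ → E n → ℝ),
  (∀ j, ∀ x ∈ closedBall (0 : E n) R, |f j x| ≤ A) →
  (∀ j, ∀ x ∈ closedBall (0 : E n) R, ∀ y ∈ closedBall (0 : E n) R,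
    |f j x - f j y| ≤ A * ‖x - y‖) →
  ∃ (k : ℕ → ℕ) (h : E n → ℝ), StrictMono k ∧ ContinuousOn h (closedBall (0 : E n) R) ∧
    ∀ δ : ℝ, 0 < δ → ∀ᶠ j in atTop, ∀ x ∈ closedBall (0 : E n) R, |f (k j) x - h x| < δ

/-- **FB** (scalar inequality, about 60 lines). With `s = ‖ξ‖ / M`, `ε = p - 2`: the left side is
`M s |1 - s^ε|` and `s |1 - s^ε| ≤ s * |ε| * |log s| * max 1 (s^ε) ≤ C |ε| (1 + s^p)`
(for `s ≤ 1`: `s |log s| s^(-1/4) ≤ C`; for `s ≥ 1`: `s * log s * max 1 (s^ε) ≤ C s^p` as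
`log s ≤ 4 s^(1/4)` and `5/4 ≤ p`; use `Real.add_one_le_exp` for `|1 - e^a| ≤ |a| max 1 (e^a)`). For
`ξ = 0` the left side is `0`. -/
def T_FB : Prop := ∃ C : ℝ, 0 < C ∧ ∀ (n : ℕ) (p M : ℝ) (ξ : E n), |p - 2| ≤ 1 / 4 → 0 < M →
  ‖ξ - M ^ (2 - p) • V p ξ‖ ≤ C * |p - 2| * (M * (1 + (‖ξ‖ / M) ^ p))

/-! ## Part B: compactness -/

/-- **FST** (about 150 lines; uses DCV, WAV, FB). Put `F = ∇u - V p (∇u)`. By DCV (`a = 0`,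
`cv φ 0 u x = u x`) and WAV: `u x - cv φ d u x = ∫ ρ in 0..d, -∫ y, ⟪F(x+ρy), ∇Φ(y)⟫`, so
`|u x - cv φ d u x| ≤ K ∫ ρ in 0..d, ∫ y in ball 0 1, ‖F(x+ρy)‖`, `K = sup ‖∇Φ‖`. Integrate over `x ∈
ball 0 (15/4)` (Tonelli): `x + ρ y ∈ ball 0 4`, so this is
`≤ K d vol(B₁) ∫ ball 0 4, ‖F‖ ≤ C |p-2| ∫ ball 0 4, (1 + ‖∇u‖^p) ≤ C' |p-2|` (FB with `M = 1`). -/
def T_FST : Prop := ∀ (n : ℕ) (φ Φ : E n → ℝ), Ker φ Φ → ∃ C : ℝ, 0 < C ∧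
  ∀ (p : ℝ) (u : E n → ℝ), |p - 2| ≤ 1 / 4 → PB p 0 4 u → en p u 0 4 ≤ 1 →
    ∀ d : ℝ, 0 ≤ d → d ≤ 1 / 4 → ∫ x in ball (0 : E n) (15 / 4), |u x - cv φ d u x| ≤ C * |p - 2|

/-- **LPK** (about 150 lines). `|u(x+dy) - u(x)| ≤ d ∫ t in 0..1, ‖∇u(x+tdy)‖` for `‖y‖ ≤ 1`; by
Jensen (`φ dy` and `dt` are probability measures; `ConvexOn.map_integral_le` or Hölder)
`|cv φ d u x - u x|^p ≤ d^p ∫ φ(y) ∫ t in 0..1, ‖∇u(x+tdy)‖^p`; integrate over `x` (Tonelli),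
`x + tdy ∈ ball 0 4`. -/
def T_LPK : Prop := ∀ (n : ℕ) (φ Φ : E n → ℝ), Ker φ Φ → ∀ (p : ℝ) (Ω : Set (E n)) (u : E n → ℝ),
  1 ≤ p → IsOpen Ω → ContDiffOn ℝ 1 u Ω → closedBall 0 4 ⊆ Ω → ∀ d : ℝ, 0 ≤ d → d ≤ 1 / 4 →
    ∫ x in ball (0 : E n) (15 / 4), |u x - cv φ d u x| ^ p ≤
      d ^ p * ∫ x in ball (0 : E n) 4, ‖gradient u x‖ ^ p

/-- **EQL** (about 120 lines; uses POI). `c` is the mean value of `u` in `ball 0 4`.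
`|cv φ (1/4) (u - c) x| ≤ sup φ * 4^n * ∫ ball 0 4, |u - c|` (substitution `z = x + y/4`, `z ∈ ball 0
4`), and `∫ ball 0 4, |u - c| ≤ (vol)⁻¹ ∫∫ |u y - u z| ≤ C ∫ ‖∇u‖` by POI. Lipschitz:
`|cv x - cv y| ≤ ∫ φ(z) |u(x+z/4) - u(y+z/4)| dz ≤ ‖x-y‖ ∫ t in 0..1, ∫ φ(z) ‖∇u(x+t(y-x)+z/4)‖ dz
≤ ‖x-y‖ sup φ 4^n ∫ ball 0 4, ‖∇u‖`. -/
def T_EQL : Prop := ∀ (n : ℕ) (φ Φ : E n → ℝ), Ker φ Φ → ∃ C : ℝ, 0 < C ∧
  ∀ (Ω : Set (E n)) (u : E n → ℝ) (A : ℝ), IsOpen Ω → ContDiffOn ℝ 1 u Ω → closedBall 0 4 ⊆ Ω →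
    ∫ x in ball (0 : E n) 4, ‖gradient u x‖ ≤ A → ∃ c : ℝ,
      (∀ x ∈ closedBall (0 : E n) (15 / 4), |cv φ (1 / 4) (fun y => u y - c) x| ≤ C * A) ∧
      ∀ x ∈ closedBall (0 : E n) (15 / 4), ∀ y ∈ closedBall (0 : E n) (15 / 4),
        |cv φ (1 / 4) (fun y => u y - c) x - cv φ (1 / 4) (fun y => u y - c) y| ≤ C * A * ‖x - y‖

/-- **L1C** (about 120 lines; uses EQL, AAS, FST). Drop finitely many `j`, so that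
`|p j - 2| ≤ 1/4`. `∫ ball 0 4, ‖∇u j‖ ≤ ∫ (1 + ‖∇u j‖^(p j)) ≤ A`. `c j` from EQL; by AAS
`cv φ (1/4) (u - c)` converges uniformly on `closedBall 0 (15/4)` to `h` for a subsequence. By FST
`∫ |u - c - cv φ (1/4) (u - c)| = ∫ |u - cv φ (1/4) u| → 0` (`cv φ d c = c` as `∫ φ = 1`). -/
def T_L1C : Prop := ∀ (n : ℕ) (φ Φ : E n → ℝ), Ker φ Φ → ∀ (p : ℕ → ℝ) (u : ℕ → E n → ℝ),
  Tendsto p atTop (𝓝 2) → (∀ j, PB (p j) 0 4 (u j)) → (∀ j, en (p j) (u j) 0 4 ≤ 1) →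
  ∃ (k : ℕ → ℕ) (c : ℕ → ℝ) (h : E n → ℝ), StrictMono k ∧
    ContinuousOn h (closedBall (0 : E n) (15 / 4)) ∧
    Tendsto (fun j => ∫ x in ball (0 : E n) (15 / 4), |u (k j) x - c j - h x|) atTop (𝓝 0)

/-- **FIX** (about 120 lines; uses FST). For `x ∈ ball 0 (7/2)`: `cv φ d h x - h x =
cv φ d (h - (u - c)) x + (cv φ d u x - u x) + (u x - c - h x)` (`u = u j`, `c = c j`). Integrate the
absolute values over `ball 0 (7/2)`: the first is `≤ ∫ ball 0 (15/4), |u - c - h|` (Tonelli,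
`∫ φ = 1`), the second `→ 0` by FST, the third `→ 0`. So `cv φ d h = h` a.e. in `ball 0 (7/2)`, and
everywhere since both sides are continuous there. (In the case `d = 0` it is trivial.) -/
def T_FIX : Prop := ∀ (n : ℕ) (φ Φ : E n → ℝ), Ker φ Φ → ∀ (p : ℕ → ℝ) (u : ℕ → E n → ℝ)
  (c : ℕ → ℝ) (h : E n → ℝ),
  Tendsto p atTop (𝓝 2) → (∀ j, PB (p j) 0 4 (u j)) → (∀ j, en (p j) (u j) 0 4 ≤ 1) →
  ContinuousOn h (closedBall (0 : E n) (15 / 4)) →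
  Tendsto (fun j => ∫ x in ball (0 : E n) (15 / 4), |u j x - c j - h x|) atTop (𝓝 0) →
  ∀ d : ℝ, 0 ≤ d → d ≤ 1 / 4 → ∀ x ∈ ball (0 : E n) (7 / 2), cv φ d h x = h x

/-- **SMO** (about 200 lines; uses DCV). Smooth: with `d = 1/8`, `h x = d^(-n) ∫ z, φ((z-x)/d) h₁(z)`
for `x ∈ ball 0 (7/2)`, where `h₁` is `h` on `closedBall 0 (15/4)` and `0` elsewhere; the right side
is a convolution of a smooth compactly supported function with an integrable function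
(`HasCompactSupport.contDiff_convolution_left`). Weak equation: let `θ` be smooth with compact
support in `ball 0 (13/4)`. As `d ↦ cv φ d h x` is constant on `[0,1/4]` DCV gives
`∫ y, ⟪∇h(x+dy), ∇Φ(y)⟫ = 0` for `0 < d < 1/4`, `x ∈ ball 0 (13/4)`. Multiply with `θ(x)`, integrate,
substitute `z = x + dy`: `0 = ∫ z, ⟪∇h(z), ∫ y, θ(z-dy) ∇Φ(y)⟫ = d ∫ z, ⟪∇h(z), ∫ y, Φ(y) ∇θ(z-dy)⟫`
(integration by parts in `y`). Divide by `d`, let `d → 0`: `(∫ Φ) ∫ ⟪∇h, ∇θ⟫ = 0` and `∫ Φ < 0`.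
(Alternative: `∫ y, ⟪∇h(x+dy), ∇Φ(y)⟫ = -d ∫ Δh(x+dy) Φ(y)`, so `Δh = 0`, then integrate by parts.)
`PHarm 2`: the exponent is `0`, `‖∇h‖^0 = 1`. -/
def T_SMO : Prop := ∀ (n : ℕ) (φ Φ : E n → ℝ), Ker φ Φ → ∀ h : E n → ℝ,
  ContinuousOn h (closedBall (0 : E n) (15 / 4)) →
  (∀ d : ℝ, 0 ≤ d → d ≤ 1 / 4 → ∀ x ∈ ball (0 : E n) (7 / 2), cv φ d h x = h x) →
  Hrm (ball 0 (13 / 4)) h

/-- **LPC** (about 100 lines; uses LPK). On `ball 0 3`, `g = u j - c j - h` is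
`(u - cv φ d u) + cv φ d g` (`cv φ d h = h`, `cv φ d c = c`), so `∫ ball 0 3, |g|^p ≤ 4 d^p * 1 +
4 vol * (sup φ * d^(-n) * ∫ ball 0 (15/4), |g|)^p` for every `0 < d ≤ 1/4`, `1 ≤ p ≤ 3`
(`|a+b|^p ≤ 4(|a|^p+|b|^p)`). Let first `j → ∞` and then `d → 0`. -/
def T_LPC : Prop := ∀ (n : ℕ) (φ Φ : E n → ℝ), Ker φ Φ → ∀ (p : ℕ → ℝ) (u : ℕ → E n → ℝ)
  (c : ℕ → ℝ) (h : E n → ℝ),
  Tendsto p atTop (𝓝 2) → (∀ j, PB (p j) 0 4 (u j)) → (∀ j, en (p j) (u j) 0 4 ≤ 1) →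
  ContinuousOn h (closedBall (0 : E n) (15 / 4)) →
  (∀ d : ℝ, 0 ≤ d → d ≤ 1 / 4 → ∀ x ∈ ball (0 : E n) (7 / 2), cv φ d h x = h x) →
  Tendsto (fun j => ∫ x in ball (0 : E n) (15 / 4), |u j x - c j - h x|) atTop (𝓝 0) →
  Tendsto (fun j => ∫ x in ball (0 : E n) 3, |u j x - c j - h x| ^ p j) atTop (𝓝 0)

/-- **MIN** (about 250 lines). `η` smooth, `0 ≤ η ≤ 1`, support in `ball 0 3`, `η = 1` on
`ball 0 (5/2)`; `g = u j - c j - h`, `p = p j`. The integral is `≤ ∫ η² ⟪V(∇u) - V(∇h), ∇g⟫` (the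
integrand is `≥ 0`, `SCP.mono`). `weak` with the test function `η² g` for `u`:
`∫ η² ⟪V(∇u), ∇g⟫ = -∫ 2 η g ⟪V(∇u), ∇η⟫`, `|..| ≤ C ∫ ball 0 3, |g| ‖∇u‖^(p-1) ≤
C (δ^(-p) ∫ |g|^p + δ^(p/(p-1)) ∫ ‖∇u‖^p)` (Young, or Hölder) `→ 0`. Next `∫ η² ⟪V(∇h), ∇g⟫ =
∫ η² ⟪V(∇h) - ∇h, ∇g⟫ + ∫ η² ⟪∇h, ∇g⟫`; the first is `≤ sup ball 0 3, ‖V(∇h) - ∇h‖ * ∫ ‖∇g‖ → 0`
(`s^(p-1) → s` uniformly for `0 ≤ s ≤ S`), and by `weak` for `h` with `p = 2` and the test function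
`η² g` the second is `-∫ 2 η g ⟪∇h, ∇η⟫ → 0` (`∫ ball 0 3, |g| → 0`: `|g| ≤ δ + δ^(1-p) |g|^p`). -/
def T_MIN : Prop := ∀ (n : ℕ) (p : ℕ → ℝ) (u : ℕ → E n → ℝ) (c : ℕ → ℝ) (h : E n → ℝ),
  Tendsto p atTop (𝓝 2) → (∀ j, PB (p j) 0 4 (u j)) → (∀ j, en (p j) (u j) 0 4 ≤ 1) →
  Hrm (ball 0 (13 / 4)) h →
  Tendsto (fun j => ∫ x in ball (0 : E n) 3, |u j x - c j - h x| ^ p j) atTop (𝓝 0) →
  Tendsto (fun j => ∫ x in ball (0 : E n) (5 / 2),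
    ⟪V (p j) (gradient (u j) x) - V (p j) (gradient h x), gradient (u j) x - gradient h x⟫)
    atTop (𝓝 0)

/-- **VEC** (vector inequality, about 100 lines). `ε = p - 2`. By homogeneity and symmetry let
`s = ‖ξ‖ + ‖ζ‖ = 1`, `a = ‖ζ‖ ≥ b = ‖ξ‖`, so `a ≥ 1/2`. The vector is
`(a^ε - 1)(ζ - ξ) + (a^ε - b^ε) ξ`. `|a^ε - 1| ≤ C|ε|`. `|a^ε - b^ε| b ≤ C|ε| (a - b)`: if `b ≥ 1/4` by
the mean value theorem; if `b < 1/4` then `a - b ≥ 1/4` and `|a^ε - b^ε| b ≤ |ε| |log b| b^(3/4)+ C|ε|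
≤ C'|ε|`. And `a - b ≤ ‖ζ - ξ‖`. (If `b = 0` the second term is `0`.) -/
def T_VEC : Prop := ∃ C e : ℝ, 0 < C ∧ 0 < e ∧ ∀ (n : ℕ) (p : ℝ) (ξ ζ : E n), |p - 2| < e →
  ‖V p ζ - V p ξ - (‖ξ‖ + ‖ζ‖) ^ (p - 2) • (ζ - ξ)‖ ≤
    C * |p - 2| * (‖ξ‖ + ‖ζ‖) ^ (p - 2) * ‖ζ - ξ‖

/-- **GRC** (about 150 lines; uses VEC). `D = ∇u - ∇h`, `s = ‖∇u‖ + ‖∇h‖ ≥ ‖D‖`, `p = p j`. By VEC
(`C|p-2| ≤ 1/2`) `⟪V(∇u) - V(∇h), D⟫ ≥ (1/2) s^(p-2) ‖D‖²`. If `p ≥ 2` this is `≥ (1/2) ‖D‖^p`. If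
`p < 2`: `‖D‖^p = (s^(p-2)‖D‖²)^(p/2) (s^p)^(1-p/2) ≤ 2 s^(p-2)‖D‖² + 2^(-p/(2-p)) s^p` (Young:
`a^θ b^(1-θ) ≤ K a + K^(-θ/(1-θ)) b`, `θ = p/2`, `K = 2`), `∫ s^p` is bounded, `2^(-p/(2-p)) → 0`. -/
def T_GRC : Prop := ∀ (n : ℕ) (p : ℕ → ℝ) (u : ℕ → E n → ℝ) (h : E n → ℝ),
  Tendsto p atTop (𝓝 2) → (∀ j, PB (p j) 0 4 (u j)) → (∀ j, en (p j) (u j) 0 4 ≤ 1) →
  Hrm (ball 0 (13 / 4)) h →
  Tendsto (fun j => ∫ x in ball (0 : E n) (5 / 2),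
    ⟪V (p j) (gradient (u j) x) - V (p j) (gradient h x), gradient (u j) x - gradient h x⟫)
    atTop (𝓝 0) →
  Tendsto (fun j => ∫ x in ball (0 : E n) (5 / 2), ‖gradient (u j) x - gradient h x‖ ^ p j)
    atTop (𝓝 0)

/-- **ENC** (about 130 lines). On `B = ball 0 r`: `|a^p - b^p| ≤ p |a - b| (a + b)^(p-1)` for
`a, b ≥ 0`, `p ≥ 1`; with `a = ‖∇u‖`, `b = ‖∇h‖`, `|a - b| ≤ ‖∇u - ∇h‖ =: d`, and Young
`d (a+b)^(p-1) ≤ δ^(-p) d^p + δ^(p/(p-1)) (a+b)^p`; `∫ B, (a+b)^p` is bounded. So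
`∫ B, ‖∇u‖^p - ∫ B, ‖∇h‖^p → 0`; and `∫ B, ‖∇h‖^(p j) → ∫ B, ‖∇h‖²` by dominated convergence
(`‖∇h‖` is bounded on `B`). -/
def T_ENC : Prop := ∀ (n : ℕ) (p : ℕ → ℝ) (u : ℕ → E n → ℝ) (h : E n → ℝ),
  Tendsto p atTop (𝓝 2) → (∀ j, PB (p j) 0 4 (u j)) → (∀ j, en (p j) (u j) 0 4 ≤ 1) →
  Hrm (ball 0 (13 / 4)) h →
  Tendsto (fun j => ∫ x in ball (0 : E n) (5 / 2), ‖gradient (u j) x - gradient h x‖ ^ p j)
    atTop (𝓝 0) →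
  ∀ r : ℝ, 0 < r → r ≤ 5 / 2 →
    Tendsto (fun j => en (p j) (u j) 0 r) atTop (𝓝 (∫ x in ball (0 : E n) r, ‖gradient h x‖ ^ 2))

/-- **CL** (the compactness lemma, about 100 lines; uses KER, L1C, FIX, SMO, LPC, MIN, GRC, ENC).
Put them together (for the subsequence). -/
def T_CL : Prop := ∀ (n : ℕ), 1 ≤ n → ∀ (p : ℕ → ℝ) (u : ℕ → E n → ℝ),
  Tendsto p atTop (𝓝 2) → (∀ j, PB (p j) 0 4 (u j)) → (∀ j, en (p j) (u j) 0 4 ≤ 1) →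
  ∃ (k : ℕ → ℕ) (c : ℕ → ℝ) (h : E n → ℝ), StrictMono k ∧ Hrm (ball 0 (13 / 4)) h ∧
    Tendsto (fun j => ∫ x in ball (0 : E n) (5 / 2), |u (k j) x - c j - h x|) atTop (𝓝 0) ∧
    Tendsto (fun j => ∫ x in ball (0 : E n) (5 / 2),
      ‖gradient (u (k j)) x - gradient h x‖ ^ p (k j)) atTop (𝓝 0) ∧
    ∀ r : ℝ, 0 < r → r ≤ 5 / 2 → Tendsto (fun j => en (p (k j)) (u (k j)) 0 r) atTop
      (𝓝 (∫ x in ball (0 : E n) r, ‖gradient h x‖ ^ 2))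

/-! ## Part C: harmonic functions -/

/-- **DER** (about 80 lines). Smooth: clear. For smooth `θ` with compact support in `Ω`, with
`∂ = ∂_a`: `∫ ⟪∇(∂h), ∇θ⟫ = -∫ ⟪∇h, ∇(∂θ)⟫ = 0` (integration by parts in the direction `a`:
`integral_mul_fderiv_eq_neg_fderiv_mul_of_integrable`, componentwise), since `∂θ` is a test
function. -/
def T_DER : Prop := ∀ (n : ℕ) (Ω : Set (E n)) (h : E n → ℝ) (a : E n), IsOpen Ω → Hrm Ω h →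
  Hrm Ω (fun x => fderiv ℝ h x a)

/-- **MVP** (about 40 lines; uses DCV, PSG). DCV with `a = 0`; the inner integral vanishes for
`0 < ρ ≤ d` by PSG and `weak` (`p = 2`, `V 2 ξ = ξ`). -/
def T_MVP : Prop := ∀ (n : ℕ) (φ Φ : E n → ℝ), Ker φ Φ → ∀ (Ω : Set (E n)) (g : E n → ℝ) (x : E n)
  (d : ℝ), IsOpen Ω → Hrm Ω g → 0 ≤ d → closedBall x d ⊆ Ω → cv φ d g x = g x

/-- **SUP** (about 60 lines; uses KER, MVP). For `y ∈ ball x (r/2)`, `d = r/2`: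
`g(y)² = (∫ φ(z) g(y+dz))² ≤ ∫ φ(z) g(y+dz)² ≤ sup φ * d^(-n) * ∫ ball y d, g²`
(Cauchy–Schwarz). -/
def T_SUP : Prop := ∀ n : ℕ, 1 ≤ n → ∃ C : ℝ, 0 < C ∧ ∀ (Ω : Set (E n)) (g : E n → ℝ) (x : E n)
  (r : ℝ), IsOpen Ω → Hrm Ω g → 0 < r → closedBall x r ⊆ Ω → ∀ y ∈ ball x (r / 2),
    g y ^ 2 ≤ C * (r ^ n)⁻¹ * ∫ z in ball x r, g z ^ 2

/-- **KPR** (about 250 lines). Let `ω : ℝ → ℝ` be smooth, `ω = 0` on `[r², ∞)`,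
`W t = -(1/2) ∫ s in t..r², ω s`, `χ y = ω(‖y‖²)`, `Ψ y = W(‖y‖²)`: `Ψ` is smooth, `Ψ = 0` for
`‖y‖ ≥ r`, `∇Ψ(y) = χ(y) y`. For `|t| ≤ log 2` put `F(y) = g(x + e^t y)`, `G(y) = g(x + e^(-t) y)`
(harmonic near `closedBall 0 r`), `Q(t) = ∫ χ F G`. Then `Q'(t) = ∫ χ(y) (⟪∇F, y⟫ G - F ⟪∇G, y⟫) =
∫ ⟪G ∇F - F ∇G, ∇Ψ⟫ = ∫ ⟪∇F, ∇(GΨ)⟫ - ∫ Ψ⟪∇F, ∇G⟫ - ∫ ⟪∇G, ∇(FΨ)⟫ + ∫ Ψ⟪∇G, ∇F⟫ = 0` by `weak` with
`p = 2` (`GΨ`, `FΨ` are `C¹` with compact support). So `Q(log 2) = Q(0)`. Take `ω_k` with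
`0 ≤ ω_k ≤ 1`, `ω_k(s) → 1` for `s < r²` and use dominated convergence. -/
def T_KPR : Prop := ∀ (n : ℕ) (Ω : Set (E n)) (g : E n → ℝ) (x : E n) (r : ℝ), IsOpen Ω →
  Hrm Ω g → 0 < r → closedBall x (2 * r) ⊆ Ω →
    ∫ y in ball (0 : E n) r, g (x + (2 : ℝ) • y) * g (x + (1 / 2 : ℝ) • y) =
      ∫ y in ball (0 : E n) r, g (x + y) ^ 2

/-- **LGC** (log-convexity, about 70 lines; uses KPR). Cauchy–Schwarz and the substitutions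
`∫ y in ball 0 r, g(x+2y)² = 2^(-n) ∫ ball x (2r), g²`, `∫ y in ball 0 r, g(x+y/2)² =
2^n ∫ ball x (r/2), g²`. -/
def T_LGC : Prop := ∀ (n : ℕ) (Ω : Set (E n)) (g : E n → ℝ) (x : E n) (r : ℝ), IsOpen Ω →
  Hrm Ω g → 0 < r → closedBall x (2 * r) ⊆ Ω →
    (∫ y in ball x r, g y ^ 2) ^ 2 ≤
      (∫ y in ball x (2 * r), g y ^ 2) * ∫ y in ball x (r / 2), g y ^ 2

/-- **ITG** (integrality, about 220 lines; uses DER, KPR). `g i = fderiv h · (e i)` (`e` the standard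
basis), `‖∇h‖² = ∑ (g i)²`, each `g i` is harmonic. `K = 2^(2k+1)`. By KPR (`x = 0`, `r = 1`)
`∑ ∫ y in ball 0 1, (g i (2y) - K g i (y/2))² = 2^(-n) e(2) - 2 K e(1) + K² 2^n e(1/2) ≤ K e(1) -
2 K e(1) + K e(1) = 0`. So `g i (2y) = K g i (y/2)` in `ball 0 1` (continuity), i.e.
`g i z = K g i (z/4)` for `z ∈ ball 0 2`. Fix `z` and `i`; `c t = g i (t z)` is smooth near `[-1,1]`
and `c (4^(-j)) = K^(-j) c 1`, where `K = 4^(k+1/2)`. Taylor at `0` (one variable):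
`c t = ∑_{l ≤ k} a l t^l + O(t^(k+1))`. If `l₀ ≤ k` is the smallest `l` with `a l ≠ 0` multiply
`c(4^(-j)) = K^(-j) c 1` with `4^(j l₀)`: left side `→ a l₀`, right side `→ 0`, contradiction. So all
`a l = 0`, `c(4^(-j)) = O(4^(-j(k+1)))` and `c 1 = K^j c(4^(-j)) → 0`. Hence `∇h = 0` in
`ball 0 2`. -/
def T_ITG : Prop := ∀ (n k : ℕ) (h : E n → ℝ), Hrm (ball 0 3) h →
  ∫ x in ball (0 : E n) 2, ‖gradient h x‖ ^ 2 ≤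
    2 ^ (n + 2 * k + 1) * ∫ x in ball (0 : E n) 1, ‖gradient h x‖ ^ 2 →
  2 ^ (n + 2 * k + 1) * ∫ x in ball (0 : E n) (1 / 2), ‖gradient h x‖ ^ 2 ≤
    ∫ x in ball (0 : E n) 1, ‖gradient h x‖ ^ 2 →
  ∫ x in ball (0 : E n) 1, ‖gradient h x‖ ^ 2 = 0

/-- **NUG** (zero set, about 220 lines; uses LGC, SUP). `e x r = ∫ ball x r, g²`.
(i) If `x ∈ ball 0 1` and `e x r₁ = 0` for one `r₁ > 0` then by LGC (`e x r ^ 2 ≤ e x (2r) *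
e x (r/2)`) `e x r = 0` for `r ≤ 2 r₁`, as long as `2 r < 2`, so `g = 0` in `ball x 1` (open), which
contains `0`; then `g = 0` near `0`, and in the same way (`x = 0`, `2r < 3`) `g = 0` in
`ball 0 (3/2)`: contradiction. So `e x r > 0` for all `r > 0`. (ii) Doubling: `e x (2r) / e x r` is
nondecreasing along `r, 2r, 4r, ...`, so `e x r ≤ C₀ e x (r/2)` for `r ≤ 1/2` with
`C₀ = e x 1 / e x (1/8)` or so. (iii) If `Z = {g = 0} ∩ ball 0 1` has positive measure let `x ∈ Z` be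
a density point (`Besicovitch.ae_tendsto_measure_inter_div`, or the version for closed balls): for
small `r`, `vol(ball x r \ Z) ≤ δ vol(ball x r)`, so `e x (r/2) ≤ sup_{ball x (r/2)} g² * δ vol(ball x
r) ≤ C δ e x r` by SUP. With `C δ C₀ < 1` this contradicts (ii) and `e x r > 0`. -/
def T_NUG : Prop := ∀ (n : ℕ) (g : E n → ℝ), 1 ≤ n → Hrm (ball 0 3) g →
  (∃ x ∈ ball (0 : E n) 1, g x ≠ 0) → volume (ball (0 : E n) 1 ∩ {x | g x = 0}) = 0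

/-- **NUL** (about 30 lines; uses DER, NUG). Some component of `∇h` is not identically zero in
`ball 0 1`. -/
def T_NUL : Prop := ∀ (n : ℕ) (h : E n → ℝ), 1 ≤ n → Hrm (ball 0 3) h →
  ∫ x in ball (0 : E n) 1, ‖gradient h x‖ ^ 2 ≠ 0 →
    volume (ball (0 : E n) 1 ∩ {x | gradient h x = 0}) = 0

/-! ## Part D: one-step lemmas -/

/-- **SCL** (scaling, about 180 lines). `U y = c * u (x₀ + r • y)`. Second item: chain rule (an affine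
equivalence, so no differentiability is needed; `fderiv_comp_smul`-like lemmas, or
`HasFDerivAt` by cases). First: for a test function `θ` for `U` use `θ((z - x₀)/r)` for `u`.
Third, fourth: substitution `z = x₀ + r y`, `dz = r^n dy`. -/
def T_SCL : Prop := ∀ (n : ℕ) (p : ℝ) (u : E n → ℝ) (x₀ : E n) (r c : ℝ), 0 < r → 0 < c →
  (∀ R : ℝ, PB p x₀ (r * R) u → PB p 0 R (fun y => c * u (x₀ + r • y))) ∧
  (∀ y, gradient (fun y => c * u (x₀ + r • y)) y = (c * r) • gradient u (x₀ + r • y)) ∧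
  (∀ (y : E n) (t : ℝ), en p (fun y => c * u (x₀ + r • y)) y t =
    (c * r) ^ p * (r ^ n)⁻¹ * en p u (x₀ + r • y) (r * t)) ∧
  ∀ (t a : ℝ), volume (ball x₀ (r * t) ∩ {z | ‖gradient u z‖ < a}) = ENNReal.ofReal (r ^ n) *
    volume (ball (0 : E n) t ∩ {y | ‖gradient (fun y => c * u (x₀ + r • y)) y‖ < c * r * a})

/-- **D3A** (propagation of the frequency bound, about 200 lines; uses SCL, CL, ITG). By
contradiction: otherwise there are `p_j → 2`, `u_j`, `x_j`, `r_j` with the hypotheses and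
`en r > 2^μ en (r/2)` (`μ = n+2k+1`). Rescale (SCL with `r = r_j` and the `c` for which the energy of
`U_j` in `ball 0 4` is `1`; it is positive). With `h` from CL, `e(t) = ∫ ball 0 t, ‖∇h‖²`: `e(2) ≤
2^μ e(1)`, `2^μ e(1/2) ≤ e(1)`, and `e(1) ≥ 2^(-2μ) > 0` as `1 = V(4) ≤ 2^(2μ) V(1)`. This
contradicts ITG. -/
def T_D3A : Prop := ∀ n k : ℕ, 1 ≤ n → ∃ e : ℝ, 0 < e ∧ ∀ p : ℝ, |p - 2| < e →
  ∀ (u : E n → ℝ) (x : E n) (r : ℝ), 0 < r → PB p x (4 * r) u →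
    en p u x (4 * r) ≤ 2 ^ (n + 2 * k + 1) * en p u x (2 * r) →
    en p u x (2 * r) ≤ 2 ^ (n + 2 * k + 1) * en p u x r → 0 < en p u x r →
    en p u x r ≤ 2 ^ (n + 2 * k + 1) * en p u x (r / 2)

/-- **D3B** (about 180 lines; uses SCL, CL, DER, SUP). Choose `m` at the end. By contradiction as in
D3A, rescaled to `ball 0 4` with the energy `1` there (if the energy is `0` there is nothing to
prove), the limit `h` has `e(5/2) ≤ 1` and by SUP for the components of `∇h` `‖∇h‖² ≤ C` in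
`ball 0 1`, so `e(4/2^m) ≤ C vol(B₁) (4/2^m)^n ≤ C' 2^(-mn)`, and the negation gives
`e(4/2^m) ≥ 2^(-m(n-1))`. Choose `m` with `2^m > C'`. (`C'` depends on `n` only.) -/
def T_D3B : Prop := ∀ n : ℕ, 1 ≤ n → ∃ (m : ℕ) (e : ℝ), 1 ≤ m ∧ 0 < e ∧ ∀ p : ℝ, |p - 2| < e →
  ∀ (v : E n → ℝ) (x : E n) (r : ℝ), 0 < r → PB p x r v →
    (2 ^ m) ^ (n - 1) * en p v x (r / 2 ^ m) ≤ en p v x r

/-- **GRO** (about 80 lines; uses D3B). Iterate D3B: `en (r / 2^(mi)) ≤ 2^(-mi(n-1)) en r`. For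
`r / 2^(m(i+1)) < ρ ≤ r / 2^(mi)`: `en ρ ≤ en (r/2^(mi))` and `2^(-mi) ≤ 2^m ρ / r`. -/
def T_GRO : Prop := ∀ n : ℕ, 1 ≤ n → ∃ C e : ℝ, 0 < C ∧ 0 < e ∧ ∀ p : ℝ, |p - 2| < e →
  ∀ (v : E n → ℝ) (x : E n) (r : ℝ), 0 < r → PB p x r v → ∀ ρ : ℝ, 0 < ρ → ρ ≤ r →
    en p v x ρ ≤ C * (ρ / r) ^ (n - 1) * en p v x r

/-- **MVE** (mean value property up to `|p-2|`, about 180 lines; uses DCV, WAV, FB, GRO). By DCV
(`a = 0`) and WAV `v x - cv φ r v x = ∫ ρ in 0..r, -∫ y, ⟪F(x+ρy), ∇Φ(y)⟫` with `F = ∇v -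
M^(2-p) V p (∇v)`, for any `M = M(ρ) > 0`; take `M = mg p v x ρ` if this is `> 0` (otherwise `∇v = 0` in
`ball x ρ` and the inner integral is `0`). By FB the inner integral is `≤ C|p-2| M ∫ y in ball 0 1,
(1 + (‖∇v(x+ρy)‖/M)^p) ≤ C' |p-2| M` (substitution). By GRO `M(ρ) ≤ (C r/ρ)^(1/p) mg p v x r ≤
C (r/ρ)^(2/3) mg p v x r` (`p ≥ 3/2`), and `∫ ρ in 0..r, (r/ρ)^(2/3) = 3r`. -/
def T_MVE : Prop := ∀ (n : ℕ) (φ Φ : E n → ℝ), 1 ≤ n → Ker φ Φ → ∃ C e : ℝ, 0 < C ∧ 0 < e ∧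
  ∀ p : ℝ, |p - 2| < e → ∀ (v : E n → ℝ) (x : E n) (r : ℝ), 0 < r → PB p x r v →
    |cv φ r v x - v x| ≤ C * |p - 2| * r * mg p v x r

/-- **D3C** (about 200 lines; uses SCL, CL, NUL). By contradiction: `c_j = 1/(j+1)`, `p_j → 2`, and
the opposite inequality. Rescale so that the energy in `ball 0 4` is `1`; then the energy in
`ball 0 1` is `≥ 2^(-m)` and `≤ 1`, so `mg` is bounded. Limit `h`: `∫ ball 0 1, ‖∇h‖² ≥ 2^(-m) > 0`, and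
as `∇U_j → ∇h` in measure (Chebyshev), for every `δ > 0`: `vol(ball 0 1 ∩ {‖∇h‖ ≤ δ}) ≥
limsup vol(ball 0 1 ∩ {‖∇U_j‖ < c_j mg}) ≥ η vol(ball 0 1) > 0`. Let `δ → 0`:
`vol(ball 0 1 ∩ {∇h = 0}) > 0`, contradiction to NUL. -/
def T_D3C : Prop := ∀ (n m : ℕ) (η : ℝ), 1 ≤ n → 0 < η → ∃ c e : ℝ, 0 < c ∧ 0 < e ∧
  ∀ p : ℝ, |p - 2| < e → ∀ (u : E n → ℝ) (x : E n) (r : ℝ), 0 < r → PB p x (4 * r) u →
    en p u x (4 * r) ≤ 2 ^ m * en p u x r → 0 < en p u x r →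
    volume (ball x r ∩ {y | ‖gradient u y‖ < c * mg p u x r}) ≤
      ENNReal.ofReal η * volume (ball x r)

/-- **D3D** (domination, about 280 lines; uses KER, SCL, CL, MVE, POI). By contradiction: `L_j = j`,
`p_j → 2`. Subtract `u_j x_j = v_j x_j` from both; rescale by `r_j / 2` (so `ball x (2r)` becomes
`ball 0 4`, `ball x r` becomes `ball 0 2`) and the `c` for which the energy of `v_j` in `ball 0 4` is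
`1` (it is positive: otherwise `mg p v x r = 0`). Then the energy of `v_j` in `ball 0 2` is
`≥ κ(n,G) > 0` and the energy of `u_j` in `ball 0 4` tends to `0`. Let `h`, `c_j` be from CL for `v_j`
(a subsequence). (i) POI: `∫ ball 0 4, |u_j - mean| → 0`; MVE (`r = 4`): `|cv φ 4 u_j 0| =
|cv φ 4 u_j 0 - u_j 0| → 0`; so `mean → 0` and `∫ ball 0 4, |u_j| → 0`. (ii) MVE for `v_j` with
`r = 2`: `cv φ 2 v_j 0 → 0`, and `cv φ 2 (v_j - c_j) 0 → cv φ 2 h 0`, so `c_j → -cv φ 2 h 0 =: -b` and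
`v_j → w := h - b` in `L¹(ball 0 (5/2))`, `cv φ 2 w 0 = 0`. (iii) `w = lim (v_j - u_j)` in `L¹` is `≥
0` (or `≤ 0`) in `ball 0 (5/2)`, it is continuous and `∫ φ(y) w(2y) dy = 0` with `φ > 0` in
`ball 0 1`: `w = 0` in `ball 0 2`. So `∇h = 0` in `ball 0 2`, but `∫ ball 0 2, ‖∇h‖² ≥ κ`.
(One of the two signs occurs for infinitely many `j`.) -/
def T_D3D : Prop := ∀ (n : ℕ) (G : ℝ), 1 ≤ n → ∃ L e : ℝ, 0 < L ∧ 0 < e ∧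
  ∀ p : ℝ, |p - 2| < e → ∀ (u v : E n → ℝ) (x : E n) (r : ℝ), 0 < r → PB p x (2 * r) u →
    PB p x (2 * r) v → u x = v x →
    ((∀ y ∈ ball x (2 * r), u y ≤ v y) ∨ ∀ y ∈ ball x (2 * r), v y ≤ u y) →
    mg p v x (2 * r) ≤ G * mg p v x r → mg p v x r ≤ L * mg p u x (2 * r)

/-! ## Part E: doubling, the tail of the gradient, domination -/

/-- **DBA** (about 120 lines; uses D3A). `μ = n + 2k + 1`. `en (4r) ≤ 2^μ en r ≤ 2^μ en (2r)`, `en (2r) ≤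
en (4r) ≤ 2^μ en r` (monotone in the radius). D3A and induction: `en (2^(-i) r) ≤ 2^μ en (2^(-i-1) r)`
for all `i`, and all are positive. For `2^(-i-1) r < ρ ≤ 2^(-i) r`: `en (4ρ) ≤ en (2^(2-i) r) ≤
2^(3μ) en (2^(-i-1) r) ≤ 2^(3μ) en ρ`. -/
def T_DBA : Prop := ∀ n k : ℕ, 1 ≤ n → ∃ e : ℝ, 0 < e ∧ ∀ p : ℝ, |p - 2| < e →
  ∀ (u : E n → ℝ) (x : E n) (r : ℝ), 0 < r → PB p x (4 * r) u →
    en p u x (4 * r) ≤ 2 ^ (n + 2 * k + 1) * en p u x r → 0 < en p u x r →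
    ∀ ρ : ℝ, 0 < ρ → ρ ≤ r →
      en p u x (4 * ρ) ≤ 2 ^ (3 * (n + 2 * k + 1)) * en p u x ρ ∧ 0 < en p u x ρ

/-- **DBL** (about 150 lines; uses DBA with `k = N`). Let `r` be from `Freq`. The energies
`en p u y (4r)`, `en p u y r` are continuous in `y` near `x` (dominated convergence; `∇u` is bounded on
a slightly larger closed ball, compactness), so for `y` in a small closed ball around `x`:
`closedBall y (4r) ⊆ Ω`, `0 < en y r`, `en y (4r) ≤ 2^(N+1) en y r ≤ 2^(n+2N+1) en y r`. Apply DBA at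
these `y`; `m = 3(n+2N+1)`; `R ≤ r/2` small. -/
def T_DBL : Prop := ∀ n N : ℕ, 1 ≤ n → ∃ (m : ℕ) (e : ℝ), 0 < e ∧ ∀ p : ℝ, |p - 2| < e →
  ∀ (Ω : Set (E n)) (u : E n → ℝ) (x : E n), IsOpen Ω → PHarm p Ω u → Freq p Ω u x N →
    ∃ R : ℝ, Dbl p u x R m

/-- **TAIL** (about 300 lines; uses D3C). `η₀ = 1/(4 * 5^n)`, `c` from D3C for `m`, `η₀` (`c ≤ 1`),
`ω = vol(B₁) > 0` (real), `c₁ = ω / (2 * 5^n)`; `τ ≤ min (c 2^(-3m)) (c min(1,c₁)) (1/2)`; `S = mg p u x r`,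
`t k = τ^(k+1)`, `F k = {‖∇u‖ < t k * S}` (open in the domain), `D k = ball x (r (1 + 2^(-k)))`.
Claim `vol (F (k+1) ∩ D (k+1)) ≤ (1/2) vol (F k ∩ D k)`. Let `z ∈ F (k+1) ∩ D (k+1)`.
(a) `en p u z (4^(-i) r) ≥ 2^(-m(i+1)) en p u x r` (`ball x r ⊆ ball z (4r)` and doubling), so
`mg p u z (4^(-i) r) ≥ 2^(-m(i+1)) S`. With `i = k + 2`, `ρ_k = 4^(-(k+2)) r`: D3C at `ball z ρ_k` gives
`vol (F k ∩ ball z ρ_k) ≤ η₀ vol < vol/2`, because `t k ≤ c 2^(-m(k+3))`. (b) `F k` is open and contains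
`z`, so `vol (F k ∩ ball z ρ) = vol (ball z ρ)` for small `ρ`; by continuity in `ρ` there is
`ρ_z ∈ (0, ρ_k)` with `vol (F k ∩ ball z ρ_z) = (1/2) vol (ball z ρ_z)`. (c) On the other half
`‖∇u‖ ≥ t k * S`: `en p u z (5 ρ_z) ≥ (1/2) ω ρ_z^n (t k S)^p`, `mg p u z (5ρ_z) ≥ c₁^(1/p) t k S ≥
min(1,c₁) t k S`; so `F (k+1) ⊆ {‖∇u‖ < c mg p u z (5ρ_z)}` and D3C at the radius `5 ρ_z`:
`vol (F (k+1) ∩ ball z (5ρ_z)) ≤ η₀ 5^n vol (ball z ρ_z) = (1/2) vol (F k ∩ ball z ρ_z)` (spheres are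
null sets). (d) Vitali (`Vitali.exists_disjoint_subfamily_covering_enlargement_closedBall`, factor
`5`): disjoint balls `ball z_i ρ_i ⊆ D k` whose enlargements cover `F (k+1) ∩ D (k+1)`; sum up. Since
`closedBall z (4 * 5 ρ_z)` etc. stay in `closedBall x (5R)` and all centres in `closedBall x R`
(`r ≤ R/8`), `Dbl` applies. Induction gives `vol (F k ∩ D k) ≤ 2^(-k) vol (ball x (2r))`. -/
def T_TAIL : Prop := ∀ n m : ℕ, 1 ≤ n → ∃ τ e : ℝ, 0 < τ ∧ τ < 1 ∧ 0 < e ∧ ∀ p : ℝ, |p - 2| < e →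
  ∀ (u : E n → ℝ) (x : E n) (R : ℝ), Dbl p u x R m → ∀ r : ℝ, 0 < r → r ≤ R / 8 → ∀ k : ℕ,
    volume (ball x r ∩ {y | ‖gradient u y‖ < τ ^ (k + 1) * mg p u x r}) ≤
      ENNReal.ofReal ((1 / 2) ^ k) * volume (ball x (2 * r))

/-- **MOM** (negative moments, about 180 lines; uses TAIL). `0 < S = mg p u x r`. Null set: contained
in all the sets of TAIL. `lam ∈ (0,1]` with `τ^(-lam) ≤ √2`. On the layer `τ^(k+1) S ≤ ‖∇u‖ < τ^k S`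
(`k ≥ 1`; measure `≤ 2^(1-k) vol(ball x (2r))`) the integrand is `≤ τ^(-lam(k+1)) ≤ 2^((k+1)/2)`, on
`‖∇u‖ ≥ τ S` it is `≤ √2`. Sum of a geometric series; `vol (ball x (2r)) = C r^n`. (Work with
`lintegral`.) -/
def T_MOM : Prop := ∀ n m : ℕ, 1 ≤ n → ∃ lam C e : ℝ, 0 < lam ∧ lam ≤ 1 ∧ 0 < C ∧ 0 < e ∧
  ∀ p : ℝ, |p - 2| < e → ∀ (u : E n → ℝ) (x : E n) (R : ℝ), Dbl p u x R m →
    ∀ r : ℝ, 0 < r → r ≤ R / 8 →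
      volume (ball x r ∩ {y | gradient u y = 0}) = 0 ∧
      IntegrableOn (fun y => (mg p u x r / ‖gradient u y‖) ^ lam) (ball x r) ∧
      ∫ y in ball x r, (mg p u x r / ‖gradient u y‖) ^ lam ≤ C * r ^ n

/-- **DOM** (about 180 lines; uses D3D). `q(r) = mg p v x r / mg p u x r`. For `2r ≤ R`:
`mg p u x (2r) ≤ 2^m mg p u x r`. D3D with `G = 2^(m+1)` (constant `L₀`): if `mg p v x (2r) ≤
G mg p v x r` then `q(r) ≤ L₀ 2^m =: L₁` (let `L₁ ≥ 1`), otherwise `q(r) ≤ q(2r)/2`. So `q(r) ≤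
max L₁ (q(2r)/2)` for `r ≤ R/2`. `q ≤ Q₀` on `[R/4, R/2]` (energies are monotone in the radius), so
`q(2^(-i) ρ) ≤ max L₁ (2^(-i) Q₀)` for `ρ ∈ [R/4,R/2]`. -/
def T_DOM : Prop := ∀ n m : ℕ, 1 ≤ n → ∃ L e : ℝ, 0 < L ∧ 0 < e ∧ ∀ p : ℝ, |p - 2| < e →
  ∀ (u v : E n → ℝ) (x : E n) (R : ℝ), Dbl p u x R m → PB p x R v → u x = v x →
    ((∀ y ∈ closedBall x R, u y ≤ v y) ∨ ∀ y ∈ closedBall x R, v y ≤ u y) →
    ∃ r₁ : ℝ, 0 < r₁ ∧ ∀ r : ℝ, 0 < r → r ≤ r₁ → mg p v x r ≤ L * mg p u x r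

/-! ## Part F: the logarithm of the difference -/

/-- The error term. -/
noncomputable def Kf (p s : ℝ) : ℝ := (|p - 2| * s ^ (p - 2) + |s ^ (p - 2) - 1|) ^ 2 * s ^ (2 - p)

/-- **ENG** (energy estimate, about 220 lines; uses VEC). `w = v - u ≥ 0` in `Ω`, `D = ∇v - ∇u`,
`s = sg u v`, `a = V(∇v) - V(∇u)`. `η` is `C¹`, `0 ≤ η ≤ 1`, `η = 1` on `ball x r`, support in
`closedBall x (2r)`, `‖∇η‖ ≤ 4/r` (for example `η z = ψ(‖z-x‖²/r²)`, constants depend on nothing).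
`weak` for `v` and for `u` with the test function `η²/(w+t)` (`C¹`: outside of the support of `η` it
is `0`): `∫ ⟪a, 2η∇η⟫/(w+t) = ∫ η² ⟪a, D⟫/(w+t)²`. By VEC (`C|p-2| ≤ 1/2`): `⟪a, D⟫ ≥ (1/2) s^(p-2)‖D‖²`
and `‖a‖ ≤ 2 s^(p-2)‖D‖`. So `(1/2) ∫ η² s^(p-2) (‖D‖/(w+t))² ≤ 4 ∫ η s^(p-2) ‖D‖/(w+t) ‖∇η‖ ≤
(1/4) ∫ η² s^(p-2) (‖D‖/(w+t))² + 16 ∫ s^(p-2) ‖∇η‖²`. (`s^(p-2)‖D‖² ≤ 2⟪a,D⟫` is bounded, so all
integrals are finite.) -/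
def T_ENG : Prop := ∀ n : ℕ, 1 ≤ n → ∃ C e : ℝ, 0 < C ∧ 0 < e ∧ ∀ p : ℝ, |p - 2| < e →
  ∀ (Ω : Set (E n)) (u v : E n → ℝ), IsOpen Ω → PHarm p Ω u → PHarm p Ω v →
    (∀ y ∈ Ω, u y ≤ v y) → ∀ (x : E n) (r t : ℝ), 0 < r → 0 < t → closedBall x (2 * r) ⊆ Ω →
    IntegrableOn (fun y => sg u v y ^ (p - 2)) (ball x (2 * r)) →
    IntegrableOn (fun y => sg u v y ^ (p - 2) *
      (‖gradient v y - gradient u y‖ / (v y - u y + t)) ^ 2) (ball x r) ∧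
    ∫ y in ball x r, sg u v y ^ (p - 2) * (‖gradient v y - gradient u y‖ / (v y - u y + t)) ^ 2 ≤
      C * (r ^ 2)⁻¹ * ∫ y in ball x (2 * r), sg u v y ^ (p - 2)

/-- **LGS** (one step for the logarithm, about 250 lines; uses DCV, PSG, VEC, ENG). `w = v - u`, `D`,
`a` as in ENG, `ℓ = log(w+t)`, `∇ℓ = D/(w+t)`, `b = a/(w+t)`, `σ = sg u v / S`, `ε = p - 2`. DCV:
`cv φ (r/2) ℓ x - cv φ r ℓ x = ∫ ρ in r/2..r, -∫ y, ⟪∇ℓ(x+ρy), ∇Φ(y)⟫`, and by PSG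
`-∫ y, ⟪∇ℓ(x+ρy), ∇Φ(y)⟫ = ρ^(1-n) ∫ ⟪∇ℓ, ∇ψ⟫`, `ψ = ps Φ x ρ ≥ 0`. `weak` for `u`, `v` with the test
function `ψ/(w+t)`: `∫ ⟪b, ∇ψ⟫ = ∫ ψ ⟪a, D⟫/(w+t)² ≥ 0` (`SCP.mono`). Hence `∫ ⟪∇ℓ, ∇ψ⟫ ≥
-∫ ‖∇ℓ - S^(-ε) b‖ ‖∇ψ‖ ≥ -(C/ρ) ∫ ball x r, ‖∇ℓ - S^(-ε) b‖`, and by VEC `‖D - S^(-ε) a‖ ≤
(C|ε|σ^ε + |σ^ε - 1|) ‖D‖ ≤ C' κ ‖D‖`, `κ = |ε|σ^ε + |σ^ε - 1|`. Cauchy–Schwarz (where `σ > 0`; where
`σ = 0` also `D = 0`): `∫ ball x r, κ‖∇ℓ‖ ≤ (∫ κ² σ^(-ε))^(1/2) (∫ ball x r, σ^ε ‖∇ℓ‖²)^(1/2) ≤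
A^(1/2) (C r^(-2) B)^(1/2)` by ENG (divided by `S^ε`). So the difference is `≥
-∫ ρ in r/2..r, ρ^(1-n) (C/ρ) r^(-1) √(AB) ≥ -C' r^(-n) √(AB)`. -/
def T_LGS : Prop := ∀ (n : ℕ) (φ Φ : E n → ℝ), 1 ≤ n → Ker φ Φ → ∃ C e : ℝ, 0 < C ∧ 0 < e ∧
  ∀ p : ℝ, |p - 2| < e → ∀ (Ω : Set (E n)) (u v : E n → ℝ), IsOpen Ω → PHarm p Ω u →
    PHarm p Ω v → (∀ y ∈ Ω, u y ≤ v y) → ∀ (x : E n) (r t S A B : ℝ), 0 < r → 0 < t → 0 < S →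
    closedBall x (2 * r) ⊆ Ω →
    IntegrableOn (fun y => (sg u v y / S) ^ (p - 2)) (ball x (2 * r)) →
    ∫ y in ball x (2 * r), (sg u v y / S) ^ (p - 2) ≤ B →
    IntegrableOn (fun y => Kf p (sg u v y / S)) (ball x r) →
    ∫ y in ball x r, Kf p (sg u v y / S) ≤ A →
    cv φ r (fun y => Real.log (v y - u y + t)) x - C * (r ^ n)⁻¹ * Real.sqrt (A * B) ≤
      cv φ (r / 2) (fun y => Real.log (v y - u y + t)) x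

/-- **KES** (real analysis, about 180 lines). `ε = p - 2`, `|ε| ≤ min (1/4) (lam/2)`, `s = σ y > 0`.
`s^ε ≤ 1 + s^p + s^(-lam)`. `Kf p s ≤ 2ε² s^ε + 2 (s^(ε/2) - s^(-ε/2))²` and `|s^(ε/2) - s^(-ε/2)| ≤
|ε| |log s| max(s^(|ε|/2), s^(-|ε|/2))`, so the second term is `≤ 2ε² (log s)² (s^|ε| + s^(-|ε|))
≤ C ε² (1 + s^p + s^(-lam))`: for `s ≥ 1` as `(log s)² ≤ 64 s^(1/4)` or so and `1/2 ≤ p`, for `s < 1` as
`(log s)² ≤ (4/lam)² s^(-lam/2)` and `|ε| ≤ lam/2`. Integrate; `vol (ball x (2r)) = C r^n`. -/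
def T_KES : Prop := ∀ (n : ℕ) (lam A : ℝ), 1 ≤ n → 0 < lam → lam ≤ 1 → 0 ≤ A → ∃ C e : ℝ,
  0 < C ∧ 0 < e ∧ ∀ p : ℝ, |p - 2| < e → ∀ (σ : E n → ℝ) (x : E n) (r : ℝ), 0 < r →
    AEStronglyMeasurable σ (volume.restrict (ball x (2 * r))) →
    (∀ᵐ y ∂(volume.restrict (ball x (2 * r))), 0 < σ y) →
    IntegrableOn (fun y => σ y ^ p) (ball x (2 * r)) →
    ∫ y in ball x (2 * r), σ y ^ p ≤ A * r ^ n →
    IntegrableOn (fun y => σ y ^ (-lam)) (ball x (2 * r)) →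
    ∫ y in ball x (2 * r), σ y ^ (-lam) ≤ A * r ^ n →
    IntegrableOn (fun y => σ y ^ (p - 2)) (ball x (2 * r)) ∧
    ∫ y in ball x (2 * r), σ y ^ (p - 2) ≤ C * r ^ n ∧
    IntegrableOn (fun y => Kf p (σ y)) (ball x r) ∧
    ∫ y in ball x r, Kf p (σ y) ≤ C * |p - 2| ^ 2 * r ^ n ∧
    IntegrableOn (fun y => σ y ^ (2 - p)) (ball x r)

/-- **KSC** (about 180 lines; uses MOM, DOM, KES). `S = mg p u x r`, `σ = sg u v / S`, `r` small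
(`2r ≤ R/8`, `2r ≤ r₁` of DOM). `∫ ball x (2r), σ^p ≤ 2^p S^(-p) (en p u x (2r) + en p v x (2r)) ≤ C r^n`:
`en p u x (2r) ≤ 2^m en p u x r = 2^m S^p r^n` and `en p v x (2r) ≤ L^p en p u x (2r)`. `σ ≥ ‖∇u‖/S`, so
`σ^(-lam) ≤ (S/‖∇u‖)^lam ≤ (mg p u x (2r)/‖∇u‖)^lam * (S / mg p u x (2r))^lam` a.e., and
`S ≤ 2^n mg p u x (2r)`; MOM at the radius `2r`. KES. Also `0 < S`. -/
def T_KSC : Prop := ∀ n m : ℕ, 1 ≤ n → ∃ C e : ℝ, 0 < C ∧ 0 < e ∧ ∀ p : ℝ, |p - 2| < e →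
  ∀ (u v : E n → ℝ) (x : E n) (R : ℝ), Dbl p u x R m → PB p x R v → u x = v x →
    ((∀ y ∈ closedBall x R, u y ≤ v y) ∨ ∀ y ∈ closedBall x R, v y ≤ u y) →
    ∃ r₁ : ℝ, 0 < r₁ ∧ ∀ r : ℝ, 0 < r → r ≤ r₁ → ∃ S : ℝ, 0 < S ∧
      volume (ball x r ∩ {y | sg u v y = 0}) = 0 ∧
      IntegrableOn (fun y => (sg u v y / S) ^ (p - 2)) (ball x (2 * r)) ∧
      ∫ y in ball x (2 * r), (sg u v y / S) ^ (p - 2) ≤ C * r ^ n ∧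
      IntegrableOn (fun y => Kf p (sg u v y / S)) (ball x r) ∧
      ∫ y in ball x r, Kf p (sg u v y / S) ≤ C * |p - 2| ^ 2 * r ^ n ∧
      IntegrableOn (fun y => (sg u v y / S) ^ (2 - p)) (ball x r)

/-- **LOW** (about 130 lines; uses POI). `w ≥ c > 0` on some `ball y₀ δ ⊆ ball x r`. For `ℓ = log(w+t)`
and `z ∈ ball y₀ δ`: `ℓ z ≥ log c`. `cv φ r ℓ x = ∫ φ(y) ℓ(x+ry) dy ≥ log c -
∫ φ(y) |ℓ(x+ry) - ℓ z| dy`; take the mean over `z ∈ ball y₀ δ`: the last term is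
`≤ sup φ r^(-n) vol(ball y₀ δ)^(-1) ∫∫ |ℓ y - ℓ z|`, bounded by POI and
`∫ ‖∇ℓ‖ = ∫ ‖∇w‖/(w+t) ≤ B`. (POI for `ℓ` on `Ω' = Ω ∩ {w > -t}`, which is open and contains the
closed ball.) -/
def T_LOW : Prop := ∀ (n : ℕ) (φ Φ : E n → ℝ), 1 ≤ n → Ker φ Φ → ∀ (Ω : Set (E n)) (w : E n → ℝ)
  (x : E n) (r B : ℝ), IsOpen Ω → ContDiffOn ℝ 1 w Ω → 0 < r → closedBall x r ⊆ Ω →
    (∀ y ∈ closedBall x r, 0 ≤ w y) → (∃ y ∈ ball x r, 0 < w y) →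
    (∀ t : ℝ, 0 < t → t ≤ 1 → ∫ y in ball x r, ‖gradient w y‖ / (w y + t) ≤ B) →
    ∃ C : ℝ, ∀ t : ℝ, 0 < t → t ≤ 1 → C ≤ cv φ r (fun y => Real.log (w y + t)) x

/-- **LOC** (about 250 lines; uses KER, KSC, ENG, LGS, LOW). Let `f` be the function with `Dbl`, `g` the
other one; `sg` is symmetric, both signs are allowed in KSC. `R' ≤ R` with `closedBall x R' ⊆ Ω`
(decreasing `R` in `Dbl` is harmless). `w = v - u ≥ 0`, `w x = 0`. KSC and LGS (`A = C|p-2|² r^n`,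
`B = C r^n`): there are `C`, `r₁` with `cv φ r ℓ x - C|p-2| ≤ cv φ (r/2) ℓ x` for all `r ≤ r₁`, `t > 0`,
`ℓ = log(w+t)`; let `C|p-2| ≤ (log 2)/2`. Suppose `w` is positive somewhere in `ball x r₁` (otherwise
we are done). ENG and Cauchy–Schwarz: `∫ ball x r₁, ‖∇w‖/(w+t) ≤ (∫ s^(p-2)(‖∇w‖/(w+t))²)^(1/2)
(∫ s^(2-p))^(1/2) ≤ B` uniformly in `t` (`s = sg u v > 0` a.e.). LOW: `cv φ r₁ ℓ x ≥ -C'` for all
`t ≤ 1`. So `cv φ (2^(-i) r₁) ℓ x ≥ -C' - i (log 2)/2`. But `w ≤ K‖y - x‖` in `closedBall x r₁`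
(`C¹`, `w x = 0`), so `cv φ (2^(-i) r₁) ℓ x ≤ log (K r₁ 2^(-i) + t)`; let `t → 0`:
`-C' - i (log 2)/2 ≤ log(K r₁) - i log 2` (`K > 0`) for all `i`: contradiction. -/
def T_LOC : Prop := ∀ n m : ℕ, 1 ≤ n → ∃ e : ℝ, 0 < e ∧ ∀ p : ℝ, |p - 2| < e →
  ∀ (Ω : Set (E n)) (u v : E n → ℝ) (x : E n) (R : ℝ), IsOpen Ω → PHarm p Ω u → PHarm p Ω v →
    (∀ y ∈ Ω, u y ≤ v y) → x ∈ Ω → u x = v x → (Dbl p u x R m ∨ Dbl p v x R m) →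
    ∃ r : ℝ, 0 < r ∧ ∀ y ∈ ball x r, u y = v y

/-- **FIN** (about 80 lines; uses DBL, LOC). `{x ∈ Ω | u x = v x}` is closed in `Ω`, open by DBL, LOC,
nonempty. In the case `v ≤ u` exchange the names. -/
def T_FIN : Prop := ∀ n N : ℕ, 1 ≤ n → ∃ e : ℝ, 0 < e ∧ ∀ p : ℝ, |p - 2| < e →
  ∀ (Ω : Set (E n)) (u v : E n → ℝ), IsOpen Ω → IsConnected Ω → PHarm p Ω u → PHarm p Ω v →
    ((∀ x ∈ Ω, u x ≤ v x) ∨ ∀ x ∈ Ω, v x ≤ u x) →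
    (∀ x ∈ Ω, u x = v x → Freq p Ω u x N ∨ Freq p Ω v x N) → (∃ x ∈ Ω, u x = v x) →
    ∀ x ∈ Ω, u x = v x

/-! ## Part G: entire solutions of polynomial growth -/

/-- **CAC** (Caccioppoli, about 150 lines). `|p-2| ≤ 1/2`. `η` smooth, `0 ≤ η ≤ 1`, `η = 1` on
`ball x r`, `tsupport η ⊆ closedBall x (2r)`, `‖∇η‖ ≤ A/r`. `weak` with the test function `η³ u` (`C¹`,
compact support): `∫ η³ ‖∇u‖^p = -∫ 3 η² u ⟪V(∇u), ∇η⟫ ≤ ∫ 3 η² |u| ‖∇u‖^(p-1) ‖∇η‖`, and by Young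
(`3 ‖∇u‖^(p-1) |u| ‖∇η‖ ≤ (1/2) ‖∇u‖^p η + C η^(1-p) (|u| ‖∇η‖)^p` where `η > 0`; multiplied with `η²`
the last power is `η^(3-p) ≤ 1`): `∫ η³ ‖∇u‖^p ≤ (1/2) ∫ η³ ‖∇u‖^p + C ∫ |u|^p ‖∇η‖^p`. -/
def T_CAC : Prop := ∀ n : ℕ, ∃ C : ℝ, 0 < C ∧ ∀ p : ℝ, |p - 2| ≤ 1 / 2 → ∀ (u : E n → ℝ) (x : E n)
  (r : ℝ), 0 < r → PB p x (2 * r) u →
    en p u x r ≤ C * (r⁻¹) ^ p * ∫ y in ball x (2 * r), |u y| ^ p

/-- **ENT** (about 180 lines; uses FIN, CAC). `N = 2(n+3K)+1`. It is enough to prove `Freq p univ u x N`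
for every `x` (FIN with `Ω = univ`). `u` is not constant, so `∇u(z) ≠ 0` for some `z`; let
`r₀ = ‖z-x‖ + 1`, then `en p u x r > 0` for `r ≥ r₀` (`∇u` is continuous, integrand `≥ 0`). If `Freq`
fails then `en (4^(j+1) r₀) > 2^N en (4^j r₀)` for all `j`, so `en (4^j r₀) ≥ 2^(Nj) en r₀`. By CAC
(`r = 4^j r₀ ≥ 1`, `p ≤ 3`, `‖y‖ ≤ ‖x‖ + 2r ≤ 4^j (‖x‖ + 2 r₀)` in the ball)
`en (4^j r₀) ≤ C vol(B₁) (2 * 4^j r₀)^n (A (1 + 4^j (‖x‖+2r₀))^K)^p ≤ C' 4^(j(n+3K))` with `C'` independent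
of `j` (let `A ≥ 1`). So `2^j en r₀ ≤ C'` for all `j`, contradiction. -/
def T_ENT : Prop := ∀ n K : ℕ, 1 ≤ n → ∃ e : ℝ, 0 < e ∧ ∀ p : ℝ, |p - 2| < e →
  ∀ u v : E n → ℝ, PHarm p univ u → PHarm p univ v → ((∀ x, u x ≤ v x) ∨ ∀ x, v x ≤ u x) →
    (∃ A : ℝ, ∀ x, |u x| ≤ A * (1 + ‖x‖) ^ K) → (∃ x y, u x ≠ u y) → (∃ x, u x = v x) →
    ∀ x, u x = v x

end Pool.Agent.SCN
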