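import Pool.Agent.SCN.Targets

/-! # Strong comparison near `p = 2` on compact sets: targets

The hypothesis on the frequency at the contact points is replaced by one inequality for the energy
of one of the two functions.
-/

set_option autoImplicit false

open Set MeasureTheory Filter Topology Metric
open scoped RealInnerProductSpace

namespace Pool.Agent.SCN

open Pool.Agent.SCP (E PHarm V)

variable {n : ℕ}

/-- The energy of `u` in `Ω` is finite, positive, and at most `L` times the energy in the ball. -/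
def Adm (p : ℝ) (Ω : Set (E n)) (x₀ : E n) (ρ L : ℝ) (u : E n → ℝ) : Prop :=
  PHarm p Ω u ∧ IntegrableOn (fun y => ‖gradient u y‖ ^ p) Ω ∧
    0 < ∫ y in Ω, ‖gradient u y‖ ^ p ∧ ∫ y in Ω, ‖gradient u y‖ ^ p ≤ L * en p u x₀ ρ

/-- **SPR** (spreading of the energy, about 200 lines; uses SCL, CL, NUL). By contradiction:
`δ' = 1/(j+1)`, `p_j → 2`, `u_j`, `x_j`, `r_j`, `y_j` with `en y_j (θ r_j) < en x_j (4 r_j) / (j+1)`; so
`en x_j (4 r_j) > 0`. Rescale (SCL) with `r_j` and the `c` for which the energy of `U_j` in `ball 0 4` is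
`1`; then `en U_j 0 1 ≥ δ`, `z_j = (y_j - x_j)/r_j ∈ closedBall 0 1`, `en U_j z_j θ < 1/(j+1)`. Pass to
a subsequence with `z_j → z ∈ closedBall 0 1`, and then take `h` from CL. For large `j`,
`ball z (θ/2) ⊆ ball z_j θ ⊆ ball 0 (5/2)`, so `∫ ball z (θ/2), ‖∇h‖^(p_j) ≤ 2^(p_j) (en U_j z_j θ +
∫ ball 0 (5/2), ‖∇U_j - ∇h‖^(p_j)) → 0`, and it tends to `∫ ball z (θ/2), ‖∇h‖²` (dominated convergence,
`‖∇h‖` is bounded on `ball 0 (5/2)`). So `∇h = 0` in `ball z (θ/2)` (continuity), and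
`ball z (θ/2) ∩ ball 0 1` is open and nonempty, hence of positive measure. But `∫ ball 0 1, ‖∇h‖² ≥ δ`:
contradiction to NUL. -/
def T_SPR : Prop := ∀ (n : ℕ) (δ θ : ℝ), 1 ≤ n → 0 < δ → 0 < θ → θ ≤ 1 → ∃ δ' e : ℝ, 0 < δ' ∧
  0 < e ∧ ∀ p : ℝ, |p - 2| < e → ∀ (u : E n → ℝ) (x : E n) (r : ℝ), 0 < r → PB p x (4 * r) u →
    δ * en p u x (4 * r) ≤ en p u x r →
    ∀ y ∈ closedBall x r, δ' * en p u x (4 * r) ≤ en p u y (θ * r)

/-- **CHN** (about 200 lines; uses SPR). For `y ∈ Ω` let `Q y` be: there are `r > 0` with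
`closedBall y (4r) ⊆ Ω` and `δ, e > 0` such that `δ W ≤ en p u y r` for all `|p-2| < e` and all
admissible `u`, where `W = ∫ Ω, ‖∇u‖^p`. (a) Moving: if `closedBall y (4s) ⊆ Ω` and
`closedBall y' (4s) ⊆ Ω`, `dist y y' ≤ s`, then `Q y → Q y'`, and more precisely with the radius `s/2` at
all points of `closedBall y s`: first `en y s ≥ δ₁ W` (if `r ≤ s` by monotonicity, if `r > s` by SPR at
`(y, r)` with `θ = s/r` and the centre `y`; `δ en y (4r) ≤ δ W ≤ en y r`); then SPR at `(y, s)` with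
`θ = 1/2`: `en y' (s/2) ≥ δ' en y (4s) ≥ δ' en y s ≥ δ' δ₁ W`. (b) `Q x₀` by the hypothesis (`r = ρ`,
`δ = 1/L`; `L > 0` because `W > 0`; if `L ≤ 0` nothing is admissible). (c) So `Q y` for all `y ∈ Ω`:
`IsPreconnected.induction₂` with the relation `Q y ↔ Q y'` (near `x ∈ Ω` with `closedBall x (8s) ⊆ Ω`
use (a) for `y' ∈ ball x s`). (d) For `y ∈ K` choose `s` with `closedBall y (8s) ⊆ Ω`: by (a) there are
`δ_y, e_y` with `en y' (s/2) ≥ δ_y W` for all `y' ∈ closedBall y s`, so `Freq p Ω u y' N` with the radius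
`s/2`, if `2^N ≥ 1/δ_y`. Finitely many `ball y s` cover `K`; take the largest `N` (`Freq` is monotone
in `N`) and the smallest `e`. -/
def T_CHN : Prop := ∀ (n : ℕ) (Ω : Set (E n)) (x₀ : E n) (ρ L : ℝ) (K : Set (E n)), 1 ≤ n →
  IsOpen Ω → IsPreconnected Ω → 0 < ρ → closedBall x₀ (4 * ρ) ⊆ Ω → IsCompact K → K ⊆ Ω →
  ∃ (N : ℕ) (e : ℝ), 0 < e ∧ ∀ p : ℝ, |p - 2| < e → ∀ u : E n → ℝ, Adm p Ω x₀ ρ L u →
    ∀ x ∈ K, Freq p Ω u x N

/-- **KB** (about 200 lines; uses CHN, DBL, LOC). Admissible: `u` with `Adm`, `v` with `PHarm`,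
ordered. (a) For `y ∈ Ω` let `closedBall y s ⊆ Ω`, `s > 0`. CHN for the compact set
`closedBall y s`, DBL (for this `N`) and LOC (for this `m`): there is `e > 0` such that for
`|p-2| < e` and all admissible `u`, `v` the set `{u = v} ∩ ball y s` is open (in the case `v ≤ u` exchange
the names in LOC); it is closed in `ball y s`, so if `u = v` at one point of `ball y s` then `u = v` in
`ball y s`. (b) For `y, y' ∈ Ω`: there is `e > 0` such that for `|p-2| < e` and all admissible `u`, `v`: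
`u y = v y ↔ u y' = v y'` (`IsPreconnected.induction₂`; near `x` by (a)). (c) Cover `K` by finitely
many balls `ball y_i s_i` of (a), and take the minimum of the `e` of (a) and of (b) for all pairs
`y_i, y_j`. -/
def T_KB : Prop := ∀ (n : ℕ) (Ω : Set (E n)) (x₀ : E n) (ρ L : ℝ) (K : Set (E n)), 1 ≤ n →
  IsOpen Ω → IsPreconnected Ω → 0 < ρ → closedBall x₀ (4 * ρ) ⊆ Ω → IsCompact K → K ⊆ Ω →
  ∃ e : ℝ, 0 < e ∧ ∀ p : ℝ, |p - 2| < e → ∀ u v : E n → ℝ, Adm p Ω x₀ ρ L u → PHarm p Ω v →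
    ((∀ x ∈ Ω, u x ≤ v x) ∨ ∀ x ∈ Ω, v x ≤ u x) → (∃ x ∈ K, u x = v x) → ∀ x ∈ K, u x = v x

/-- **KK** (about 150 lines; uses KB and the strong maximum principle `SCP.smp_` of
`Pool.Agent.SCP.All`, applied to `v` or, with `SCP.neg`, to `-v`). Let `W = ∫ Ω, ‖∇u‖^p`. If `W = 0`
then `∇u = 0` in `Ω` (continuity), `u` is constant in the connected open set `Ω` and `{v = u}` is
open in `Ω` by the strong maximum principle, so `v = u` in `Ω`. Let `W > 0` (so `L > 0`). Cover `K₀` by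
finitely many balls `ball z_i ρ_i`, `closedBall z_i (4 ρ_i) ⊆ Ω`, `i = 1..M`. Then
`W ≤ L ∑ en p u z_i ρ_i`, so for some `i`: `W ≤ L M en p u z_i ρ_i`, i.e. `Adm p Ω z_i ρ_i (L M) u`. Take
the minimum of the `e` of KB for `z_i`, `ρ_i`, `L M`. -/
def T_KK : Prop := ∀ (n : ℕ) (Ω K₀ K : Set (E n)) (L : ℝ), 1 ≤ n → IsOpen Ω → IsConnected Ω →
  IsCompact K₀ → K₀ ⊆ Ω → IsCompact K → K ⊆ Ω →
  ∃ e : ℝ, 0 < e ∧ ∀ p : ℝ, |p - 2| < e → ∀ u v : E n → ℝ, PHarm p Ω u → PHarm p Ω v →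
    ((∀ x ∈ Ω, u x ≤ v x) ∨ ∀ x ∈ Ω, v x ≤ u x) →
    IntegrableOn (fun y => ‖gradient u y‖ ^ p) Ω →
    ∫ y in Ω, ‖gradient u y‖ ^ p ≤ L * ∫ y in K₀, ‖gradient u y‖ ^ p →
    (∃ x ∈ K, u x = v x) → ∀ x ∈ K, u x = v x

/-- **ENC2** (about 120 lines; uses ENT and the strong maximum principle `SCP.smp_`, `SCP.neg` of
`Pool.Agent.SCP.All`). If the function `f` (`u` or `v`) of polynomial growth is not constant use ENT
(for the pair in the right order). If it is constant, `{u = v}` is open by the strong maximum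
principle for the other function (or its negative), closed and nonempty. -/
def T_ENC2 : Prop := ∀ n K : ℕ, 1 ≤ n → ∃ e : ℝ, 0 < e ∧ ∀ p : ℝ, |p - 2| < e →
  ∀ u v : E n → ℝ, PHarm p univ u → PHarm p univ v → (∀ x, u x ≤ v x) →
    ((∃ A : ℝ, ∀ x, |u x| ≤ A * (1 + ‖x‖) ^ K) ∨ ∃ A : ℝ, ∀ x, |v x| ≤ A * (1 + ‖x‖) ^ K) →
    (∃ x, u x = v x) → ∀ x, u x = v x

end Pool.Agent.SCN
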